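import Pool.Agent.P.MP_77a832_co.EL.AIface

/-! Step BLOW. -/

set_option autoImplicit false

namespace Pool.Agent.P.MP_77a832_co.EL

open Finset Real Pool.Agent.P.MP_bf60a1_an.RA
open scoped Classical

namespace BLOWc

open Filter Topology

theorem ev_ne (c : ℝ) : ∀ᶠ δ in 𝓝[>] (0 : ℝ), δ ≠ c := by
  by_cases hc : c = 0
  · exact eventually_mem_nhdsWithin.mono fun δ h => hc ▸ ne_of_gt h
  · exact (eventually_ne_nhds (Ne.symm hc)).filter_mono nhdsWithin_le_nhds

theorem ev_lt {a b : ℝ} (c : ℝ) (h : a < b) : ∀ᶠ δ in 𝓝[>] (0 : ℝ), a < b - δ * c := by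
  have h1 : Tendsto (fun δ : ℝ => b - δ * c) (𝓝 0) (𝓝 (b - 0 * c)) :=
    (by fun_prop : Continuous fun δ : ℝ => b - δ * c).tendsto 0
  exact (h1.eventually (lt_mem_nhds (by simpa using h))).filter_mono nhdsWithin_le_nhds

theorem exists_shift {β : Type} (Q : Finset β) (y : β → ℝ) (l : ℕ → β → ℝ) (T : ℕ) :
    ∃ y' : β → ℝ, (∀ p ∈ Q, ∀ q ∈ Q, y' p = y' q → p = q) ∧
      ∀ t ≤ T, ∀ p ∈ Q, (l t p < y' p ↔ l t p < y p) := by
  obtain ⟨e, he⟩ := Set.countable_iff_exists_injOn.1 Q.countable_toSet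
  have h1 : ∀ᶠ δ in 𝓝[>] (0 : ℝ), ∀ p ∈ Q, ∀ q ∈ Q, δ ≠ (y p - y q) / ((e p : ℝ) - e q) :=
    (eventually_all_finset Q).2 fun p _ => (eventually_all_finset Q).2 fun q _ => ev_ne _
  have h2 : ∀ᶠ δ in 𝓝[>] (0 : ℝ), ∀ t ∈ range (T + 1), ∀ p ∈ Q,
      l t p < y p → l t p < y p - δ * e p :=
    (eventually_all_finset _).2 fun t _ => (eventually_all_finset Q).2 fun p _ => by
      by_cases h : l t p < y p
      · exact (ev_lt _ h).mono fun δ hδ _ => hδ
      · exact Eventually.of_forall fun δ h' => absurd h' h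
  obtain ⟨δ, ⟨a1, a2⟩, a3⟩ := ((h1.and h2).and eventually_mem_nhdsWithin).exists
  refine ⟨fun p => y p - δ * e p, fun p hp q hq h => by_contra fun hne => a1 p hp q hq ?_,
    fun t ht p hp => ⟨fun h => ?_, a2 t (mem_range.2 (Nat.lt_succ_of_le ht)) p hp⟩⟩
  · have : (e p : ℝ) - e q ≠ 0 := sub_ne_zero.2 fun h' => hne (he hp hq (Nat.cast_injective h'))
    rw [eq_div_iff this]
    linarith
  · have : 0 ≤ δ * e p := mul_nonneg (le_of_lt a3) (Nat.cast_nonneg _)
    linarith

end BLOWc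

theorem p_BLOW :
    S_BLOW := by
  intro α x y th be A P hL N T
  obtain ⟨y', h1, h2⟩ := BLOWc.exists_shift (P ×ˢ (univ : Finset (Fin N))) (fun p => y p.1)
    (fun t p => th t * x p.1 + be t) T
  set P' : Finset (α × Fin N) := P ×ˢ univ with hP'
  let A' : ℕ → Finset (α × Fin N) := fun t => P'.filter fun p => th t * x p.1 + be t < y' p
  have hm : ∀ p : α × Fin N, p ∈ P' ↔ p.1 ∈ P := fun p => by simp [hP']
  have hA : ∀ t ≤ T, ∀ p ∈ P', (p ∈ A' t ↔ p.1 ∈ A t) := fun t ht p hp => by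
    rw [hL.ab t _ ((hm p).1 hp), ← h2 t ht p hp]
    exact mem_filter.trans (and_iff_right hp)
  have hI : ∀ t ≤ T, ((P' ∩ A' t).card : ℝ) = N * (P ∩ A t).card := fun t ht => by
    have : P' ∩ A' t = (P ∩ A t) ×ˢ univ := by
      ext p
      simp only [mem_inter, mem_product, mem_univ, and_true, ← hm]
      exact and_congr_right (hA t ht p)
    rw [this, card_product, card_univ, Fintype.card_fin, Nat.cast_mul, mul_comm]
  refine ⟨α × Fin N, fun p => x p.1, y', A', P',
    ⟨hL.mono, fun t p hp => mem_filter.trans (and_iff_right hp)⟩,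
    fun p hp q hq _ h => h1 p hp q hq h, fun a b hb => ⟨?_, ?_⟩⟩
  · have : KS.act A' P' a b = KS.act A P a b ×ˢ univ := by
      ext p
      simp only [KS.mem_act, mem_product, mem_univ, and_true, ← hm]
      refine and_congr_right fun hp => exists_congr fun s => exists_congr fun t =>
        and_congr_right fun _ => and_congr_right fun hs => and_congr_right fun _ =>
          and_congr_right fun ht => ?_
      rw [hA s (hs.trans hb) p hp, hA t (ht.trans hb) p hp]
    rw [this, card_product, card_univ, Fintype.card_fin, mul_comm]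
  · rw [TV, TV, mul_sum]
    refine sum_congr rfl fun t ht => ?_
    have := (mem_Ico.1 ht).2
    have e1 := hI (t + 1) (by omega)
    have e2 := hI t (by omega)
    calc _ = |(N : ℝ) * (P ∩ A (t + 1)).card - N * (P ∩ A t).card| := by
          rw [← e1, ← e2]
          congr <;> exact Subsingleton.elim _ _
      _ = _ := by rw [← mul_sub, abs_mul, Nat.abs_cast]

end Pool.Agent.P.MP_77a832_co.EL
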