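import Pool.Agent.P.MP_77a832_co.EL.AIface

/-! Step BR. -/

set_option autoImplicit false

namespace Pool.Agent.P.MP_77a832_co.EL

open Finset Real Pool.Agent.P.MP_bf60a1_an.RA
open scoped Classical

namespace BRc

theorem tele (F : ℕ → ℝ) (w m : ℕ) :
    ∑ i ∈ range w, ∑ k ∈ range m, (F (i + k * w) - F (i + 1 + k * w)) = F 0 - F (m * w) := by
  rw [sum_comm, sum_congr rfl fun k _ => sum_range_sub' (fun i => F (i + k * w)) w]
  have := sum_range_sub' (fun k => F (k * w)) m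
  simpa only [zero_add, zero_mul, add_mul, one_mul, add_comm w] using this

end BRc

theorem p_BR :
    S_BR := by
  intro Ω α _ Q pt lf Z w nB G hZ hw hl hG
  set F : ℕ → ℝ := fun h => Q.H fun ω => (pt ω, lf ω / Z ^ h) with hF
  have dv : ∀ i ω, lf ω / Z ^ (i + 1) = lf ω / Z ^ i / Z := fun i ω => by
    rw [pow_succ, Nat.div_div_eq_div_mul]
  have hD : ∀ i, Q.Hc (fun ω => lf ω / Z ^ i) (fun ω => (pt ω, lf ω / Z ^ (i + 1))) =
      F i - F (i + 1) := fun i => congrArg (· - F (i + 1)) <|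
    Q.H_congr (fun _ _ _ _ h => by simp_all) fun _ _ _ _ h => by simp_all
  have h1 : ∀ i, F i - F (i + 1) ≤ log Z := fun i => by
    rw [← hD, ← Q.E_const (log Z)]
    refine Q.Hc_le_E fun ω _ => ⟨(range Z).image fun r => Z * (lf ω / Z ^ (i + 1)) + r,
      mod_cast card_image_le.trans (card_range Z).le, fun z _ e => mem_image.2
        ⟨lf z / Z ^ i % Z, mem_range.2 (Nat.mod_lt _ (by omega)), ?_⟩⟩
    rw [← (Prod.mk.inj e).2, dv]
    exact Nat.div_add_mod _ _
  have h0 : F 0 - F ((nB + 1) * w) = (Q.H fun ω => (pt ω, lf ω)) - Q.H pt := by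
    simp only [hF, pow_zero, Nat.div_one, Nat.div_eq_of_lt (hl _)]
    exact congrArg _ (Q.H_congr (fun _ _ _ _ h => by simp_all) fun _ _ _ _ h => by simp_all)
  rw [← h0, ← BRc.tele, ← nsmul_eq_mul] at hG
  nth_rw 1 [← card_range w] at hG
  rw [← sum_const] at hG
  obtain ⟨i, hi, e⟩ := exists_le_of_sum_le ⟨0, mem_range.2 hw⟩ hG
  refine ⟨i + 1, by omega, mem_range.1 hi, ?_⟩
  rw [sum_range_succ', ← sum_range_reflect] at e
  have := h1 i
  simp only [zero_mul, add_zero] at e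
  refine (by linarith : _ ≤ ∑ j ∈ range nB, (F (i + (nB - 1 - j + 1) * w) -
    F (i + 1 + (nB - 1 - j + 1) * w))).trans_eq (sum_congr rfl fun n hn => ?_)
  rw [show nB - 1 - n + 1 = nB - n by have := mem_range.1 hn; omega, add_right_comm,
    Nat.add_sub_cancel, hD]

end Pool.Agent.P.MP_77a832_co.EL
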