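import Pool.Agent.P.MP_77a832_co.EL.AIface

/-! Step CLS. -/

set_option autoImplicit false

namespace Pool.Agent.P.MP_77a832_co.EL

open Finset Real Pool.Agent.P.MP_bf60a1_an.RA
open scoped Classical

theorem p_CLS :
    S_CLS := by
  intro Ω β β' γ _ Q Z Z' ι f g hp hZ hf h
  have h1 : (Q.E fun ω => f ω / Q.cl Z' ω) ≤
      Q.E fun ω => f ω / Q.cl (fun x => (ι x, Z x)) ω := Q.E_mono fun ω hω =>
    div_le_div_of_nonneg_left (hf ω) (Q.cl_pos _ hω) (Q.pr_mono fun z _ hz =>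
      hZ ω z (congrArg Prod.snd hz) (congrArg Prod.fst hz))
  refine h1.trans ?_
  rw [← Q.tower Z fun _ ω => f ω / Q.cl (fun x => (ι x, Z x)) ω]
  refine Q.E_mono fun ω hω => ?_
  obtain ⟨F, k, k0, kg, hk⟩ := h ω
  have h2 : ((Q.cv Z (Z ω)).E fun z => f z / Q.cl (fun x => (ι x, Z x)) z) =
      (Q.cv Z (Z ω)).E fun z => f z / (Q.cv Z (Z ω)).cl ι z / Q.cl Z ω :=
    FP.E_congr _ fun z hz => by
      have e := Q.cv_eq hω hz
      have e2 : Q.cl Z z = Q.cl Z ω := by unfold FP.cl; rw [e]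
      have := (Q.cl_pos Z hω).ne'
      rw [Q.cl_cv ι hω e, e2, div_div, div_mul_cancel₀ _ this]
  rw [h2, FP.E_div]
  exact div_le_div_of_nonneg_right ((FP.E_div_cl_le _ ι F k0 fun z hz =>
    Or.inr (hk z (Q.cv_eq hω hz))).trans kg) (Q.cl_nonneg Z ω)

end Pool.Agent.P.MP_77a832_co.EL
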