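import Pool.Agent.P.MP_77a832_co.EL.AIface

/-! Step HT. -/

set_option autoImplicit false

namespace Pool.Agent.P.MP_77a832_co.EL

open Finset Real Pool.Agent.P.MP_bf60a1_an.RA
open scoped Classical

namespace HTc

theorem sz_nonneg {α : Type} (A : ℕ → Finset α) (E : Finset α) (a b : ℕ) : 0 ≤ sz A E a b :=
  add_nonneg (Nat.cast_nonneg _) (sum_nonneg fun _ _ => abs_nonneg _)

theorem sz_mono {α : Type} (A : ℕ → Finset α) (E : Finset α) {a b a' b' : ℕ} (h : a' ≤ a)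
    (h' : b ≤ b') : sz A E a b ≤ sz A E a' b' := by
  refine add_le_add (Nat.cast_le.2 (card_le_card fun p hp => ?_))
    (sum_le_sum_of_subset_of_nonneg (Ico_subset_Ico h h') fun _ _ _ => abs_nonneg _)
  obtain ⟨h0, s, t, h1, h2, h3, h4, h5⟩ := KS.mem_act.1 hp
  exact KS.mem_act.2 ⟨h0, s, t, h.trans h1, h2.trans h', h.trans h3, h4.trans h', h5⟩

theorem ha_one : HA 1 1 := by
  intro α x y th be A P _ τ m hτ _
  rw [rpow_one, one_mul]
  refine (sum_le_card_nsmul _ _ (sz A P (τ 0) (τ m)) fun i hi => ?_).trans ?_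
  · exact sz_mono A P (hτ (Nat.zero_le i)) (hτ (mem_range.1 hi))
  · rw [card_range, nsmul_eq_mul]

theorem ha_mono {g g' C : ℝ} (h : HA g C) (hg : g ≤ g') : HA g' (max C 1) := by
  intro α x y th be A P hL τ m hτ hm
  refine (h α x y th be A P hL τ m hτ hm).trans
    (mul_le_mul_of_nonneg_right ?_ (sz_nonneg _ _ _ _))
  exact mul_le_mul (le_max_left _ _) (rpow_le_rpow_of_exponent_le (Nat.one_le_cast.2 hm) hg)
    (rpow_nonneg (Nat.cast_nonneg _) _) (zero_le_one.trans (le_max_right _ _))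

end HTc

open HTc in
theorem p_HT :
    S_HT := by
  intro h
  obtain ⟨g₀, h0, h1⟩ : ∃ g : ℝ, 0 < g ∧ ∀ C, ¬ HA g C := by
    simpa only [UB, not_forall, not_exists, exists_prop] using h
  let S : Set ℝ := {g | ∃ C, HA g C}
  have ne : S.Nonempty := ⟨1, 1, ha_one⟩
  have lb : g₀ ∈ lowerBounds S := fun g ⟨C, hC⟩ => le_of_not_ge fun hg => h1 _ (ha_mono hC hg)
  refine ⟨sInf S, h0.trans_le (le_csInf ne lb), csInf_le ⟨_, lb⟩ ⟨1, ha_one⟩,
    fun ε hε _ => ⟨?_, fun C hC => ?_⟩⟩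
  · obtain ⟨g, ⟨C, hC⟩, hg⟩ := exists_lt_of_csInf_lt ne (lt_add_of_pos_right _ hε)
    rcases le_total (sInf S + ε) 1 with h2 | h2
    · rw [min_eq_left h2]
      exact ⟨_, le_max_right _ _, ha_mono hC hg.le⟩
    · rw [min_eq_right h2]
      exact ⟨1, le_rfl, ha_one⟩
  · have : sInf S ≤ sInf S - ε := csInf_le ⟨_, lb⟩ ⟨C, hC⟩
    linarith

end Pool.Agent.P.MP_77a832_co.EL
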