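import Pool.Agent.P.MP_77a832_co.EL.AIface

/-! Step LEAF. -/

set_option autoImplicit false

namespace Pool.Agent.P.MP_77a832_co.EL

open Finset Real Pool.Agent.P.MP_bf60a1_an.RA
open scoped Classical

namespace LEAFc

variable {α : Type} (A : ℕ → Finset α) (P : Finset α) {τ : ℕ → ℕ}

theorem tv_sum (h : Monotone τ) (m : ℕ) :
    ∑ i ∈ range m, TV A P (τ i) (τ (i + 1)) = TV A P (τ 0) (τ m) := by
  induction m with
  | zero => simp [TV]
  | succ m ih =>
    rw [sum_range_succ, ih]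
    exact sum_Ico_consecutive _ (h (Nat.zero_le m)) (h (Nat.le_succ m))

theorem act_le {a b a' b' : ℕ} (ha : a ≤ a') (hb : b' ≤ b) :
    (KS.act A P a' b').card ≤ (KS.act A P a b).card :=
  card_le_card fun p hp => by
    obtain ⟨h0, s, t, h1, h2, h3, h4, h5⟩ := KS.mem_act.1 hp
    exact KS.mem_act.2 ⟨h0, s, t, ha.trans h1, h2.trans hb, ha.trans h3, h4.trans hb, h5⟩

end LEAFc

open LEAFc in
theorem p_LEAF :
    S_LEAF := by
  intro g K n₀ hg hK h
  have h1 := h (2 * (K : ℝ) ^ (n₀ + 1))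
  simp only [HA, not_forall, not_le] at h1
  obtain ⟨α, x, y, th, be, A, P, hL, τ, m, hτ, hm, hlt⟩ := h1
  have hm1 : (1 : ℝ) ≤ m := by exact_mod_cast hm
  have hK1 : (1 : ℝ) ≤ K := by exact_mod_cast (by omega : 1 ≤ K)
  have hC : (1 : ℝ) ≤ (K : ℝ) ^ (n₀ + 1) := one_le_pow₀ hK1
  have hmg : (1 : ℝ) ≤ (m : ℝ) ^ g := one_le_rpow hm1 hg.le
  have hT : 0 ≤ TV A P (τ 0) (τ m) := sum_nonneg fun _ _ => abs_nonneg _
  have hc : (0 : ℝ) ≤ (KS.act A P (τ 0) (τ m)).card := Nat.cast_nonneg _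
  have e1 : ∑ i ∈ range m, sz A P (τ i) (τ (i + 1)) =
      ∑ i ∈ range m, ((KS.act A P (τ i) (τ (i + 1))).card : ℝ) + TV A P (τ 0) (τ m) := by
    simp only [sz, sum_add_distrib, tv_sum A P hτ]
  have e2 : ∑ i ∈ range m, ((KS.act A P (τ i) (τ (i + 1))).card : ℝ) ≤
      m * (KS.act A P (τ 0) (τ m)).card := by
    refine (sum_le_card_nsmul _ _ ((KS.act A P (τ 0) (τ m)).card : ℝ) fun i hi => ?_).trans
      (by simp)
    exact_mod_cast act_le A P (hτ (Nat.zero_le i)) (hτ (mem_range.1 hi))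
  have e3 : sz A P (τ 0) (τ m) = (KS.act A P (τ 0) (τ m)).card + TV A P (τ 0) (τ m) := rfl
  set S := sz A P (τ 0) (τ m)
  have hS0 : 0 ≤ S := by linarith
  have e4 : 2 * (K : ℝ) ^ (n₀ + 1) * (m : ℝ) ^ g * S < m * S := by nlinarith
  have hS : 0 < S := hS0.lt_of_ne fun e => by simp [← e] at e4
  have e5 : K ^ (n₀ + 1) < m := by
    have := lt_of_mul_lt_mul_right e4 hS0
    exact_mod_cast (by nlinarith : (K : ℝ) ^ (n₀ + 1) < m)
  have e6 : n₀ + 1 < Nat.clog K m := (Nat.lt_clog_iff_pow_lt (by omega)).2 e5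
  obtain ⟨nB, hn⟩ : ∃ nB, Nat.clog K m = nB + 1 := ⟨Nat.clog K m - 1, by omega⟩
  have e7 : m ≤ K ^ (nB + 1) := hn ▸ Nat.le_pow_clog (by omega) m
  have e8 : K ^ nB < m := (Nat.lt_clog_iff_pow_lt (by omega)).1 (by omega)
  refine ⟨nB, by omega, α, x, y, th, be, A, P, fun i => τ (min i m), hL,
    fun i j hij => hτ (min_le_min_right m hij), ?_, ?_⟩
  · simpa only [Nat.zero_min, min_eq_right e7] using hS
  · simp only [Nat.zero_min, min_eq_right e7]
    have e9 : ((K : ℝ) ^ nB) ^ g ≤ (m : ℝ) ^ g :=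
      rpow_le_rpow (by positivity) (by exact_mod_cast e8.le) hg.le
    refine le_trans ?_ (sum_le_sum_of_subset_of_nonneg (range_mono e7) fun _ _ _ =>
      Nat.cast_nonneg _)
    rw [sum_congr rfl (g := fun i => ((KS.act A P (τ i) (τ (i + 1))).card : ℝ)) fun i hi => by
      rw [min_eq_left (mem_range.1 hi).le, min_eq_left (mem_range.1 hi)]]
    have f1 := mul_le_mul_of_nonneg_right e9 hS0
    have f2 := mul_le_mul_of_nonneg_right hmg hS0
    have f3 := mul_le_mul_of_nonneg_right hC (mul_nonneg (zero_le_one.trans hmg) hS0)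
    change _ * S ≤ _
    nlinarith

end Pool.Agent.P.MP_77a832_co.EL
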