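import Pool.Agent.P.MP_77a832_co.EL.AIface

/-! Step TEL. -/

set_option autoImplicit false

namespace Pool.Agent.P.MP_77a832_co.EL

open Finset Real Pool.Agent.P.MP_bf60a1_an.RA
open scoped Classical

namespace TELc

theorem step (hCLS : S_CLS) {Ω β γ : Type} [Fintype Ω] (Q : FP Ω) (Z Z' : Ω → β) (ι : Ω → γ)
    (s s' : Ω → ℝ) (bad : Ω → Prop) (B S : ℝ) (hp : ∀ ω, 0 < Q.p ω) (hS : 0 < S) (hB : S ≤ B)
    (hs : ∀ ω, 0 < s ω) (hs' : ∀ ω, 0 < s' ω) (h1 : ∀ ω z, Z z = Z ω → s z = s ω)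
    (h2 : ∀ ω z, Z z = Z ω → ι z = ι ω → Z' z = Z' ω)
    (h3 : ∀ ω, ∃ (F : Finset γ) (h h' : γ → ℝ), (∀ v ∈ F, 0 ≤ h v) ∧ (∀ v ∈ F, 0 ≤ h' v) ∧
      ∑ v ∈ F, h v ≤ B * s ω ∧ ∑ v ∈ F, h' v ≤ S * s ω ∧ ∀ z, Z z = Z ω →
        ι z ∈ F ∧ s' z ≤ h (ι z) ∧ (bad z → s' z ≤ h' (ι z))) :
    log (B / S) * Q.pr bad ≤ log (2 * B) + ((Q.H Z + Q.E fun ω => log (s ω)) -
      (Q.H Z' + Q.E fun ω => log (s' ω))) := by
  have hr : 0 < B / S := div_pos (hS.trans_le hB) hS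
  have hc : ∀ ω, 0 < Q.cl Z ω := fun ω => Q.cl_pos Z (hp ω)
  have hla : ∀ ω, 0 < (if bad ω then B / S else 1) := fun ω => by split_ifs <;> positivity
  have hf : ∀ ω, 0 < s' ω * (if bad ω then B / S else 1) * (Q.cl Z ω / s ω) := fun ω =>
    mul_pos (mul_pos (hs' ω) (hla ω)) (div_pos (hc ω) (hs ω))
  have key := hCLS Ω β β γ Q Z Z' ι
    (fun ω => s' ω * (if bad ω then B / S else 1) * (Q.cl Z ω / s ω))
    (fun ω => 2 * B * Q.cl Z ω) hp h2 (fun ω => (hf ω).le) fun ω => by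
      obtain ⟨F, h, h', a1, a2, a3, a4, a5⟩ := h3 ω
      have hq := (div_pos (hc ω) (hs ω)).le
      refine ⟨F, fun v => (h v + B / S * h' v) * (Q.cl Z ω / s ω), fun v hv =>
        mul_nonneg (add_nonneg (a1 v hv) (mul_nonneg hr.le (a2 v hv))) hq, ?_, fun z hz => ?_⟩
      · rw [← sum_mul, sum_add_distrib, ← mul_sum]
        refine (mul_le_mul_of_nonneg_right
          (add_le_add a3 (mul_le_mul_of_nonneg_left a4 hr.le)) hq).trans (le_of_eq ?_)
        have := (hs ω).ne'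
        field_simp
        ring
      · obtain ⟨b1, b2, b3⟩ := a5 z hz
        have e : Q.cl Z z = Q.cl Z ω := by simp only [FP.cl, hz]
        refine ⟨b1, ?_⟩
        simp only [e, h1 ω z hz]
        refine mul_le_mul_of_nonneg_right ?_ hq
        split_ifs with hb
        · have := mul_le_mul_of_nonneg_left (b3 hb) hr.le
          linarith [a1 _ b1]
        · linarith [mul_nonneg hr.le (a2 _ b1)]
  have g := Q.gibbs Z' (fun ω _ => hf ω) (key.trans (Q.E_le (c := 2 * B) fun ω _ => by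
    rw [mul_div_assoc, div_self (hc ω).ne', mul_one]))
  have e : (Q.E fun ω => log (s' ω * (if bad ω then B / S else 1) * (Q.cl Z ω / s ω))) =
      Q.E fun ω => log (s' ω) + log (B / S) * ind (bad ω) - (- log (Q.cl Z ω) + log (s ω)) :=
    Q.E_congr fun ω _ => by
      rw [log_mul (mul_pos (hs' ω) (hla ω)).ne' (div_pos (hc ω) (hs ω)).ne',
        log_mul (hs' ω).ne' (hla ω).ne', log_div (hc ω).ne' (hs ω).ne']
      by_cases hb : bad ω
      · rw [if_pos hb, ind_pos hb]; ring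
      · rw [if_neg hb, ind_neg hb, log_one]; ring
  rw [e, FP.E_sub, FP.E_add, FP.E_add, FP.E_mul_left] at g
  unfold FP.pr
  unfold FP.H at g ⊢
  linarith

end TELc

theorem p_TEL (hCLS : S_CLS) :
    S_TEL := by
  intro Ω β γ _ Q Nd ι s bad nB B S hp hS hB hs h1 h2 h3
  have h := sum_le_sum (s := range nB) fun n hn =>
    TELc.step hCLS Q (Nd n) (Nd (n + 1)) (ι n) (s n) (s (n + 1)) (bad n) B S hp hS hB
      (hs n (mem_range.1 hn).le) (hs (n + 1) (mem_range.1 hn)) (h1 n (mem_range.1 hn))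
      (h2 n (mem_range.1 hn)) (h3 n (mem_range.1 hn))
  rw [← mul_sum, sum_add_distrib, sum_const, card_range, nsmul_eq_mul,
    sum_range_sub' fun n => Q.H (Nd n) + Q.E fun ω => log (s n ω)] at h
  linarith

end Pool.Agent.P.MP_77a832_co.EL
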