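import Pool.Agent.P.MP_77a832_co.EL.ARare
import Pool.Agent.P.MP_77a832_co.EL.THT
import Pool.Agent.P.MP_77a832_co.EL.TLEAF
import Pool.Agent.P.MP_77a832_co.EL.TBLOW
import Pool.Agent.P.MP_77a832_co.EL.TCLS
import Pool.Agent.P.MP_77a832_co.EL.TTEL
import Pool.Agent.P.MP_77a832_co.EL.TBR

/-! A positive exponent gives long node processes. -/

set_option autoImplicit false

namespace Pool.Agent.P.MP_77a832_co.EL

open Finset Real Pool.Agent.P.MP_bf60a1_an.RA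
open scoped Classical

namespace Ctx
variable {α : Type} {c : Ctx α}

theorem card_SS : (c.SS.card : ℝ) = ∑ i ∈ range (c.Z ^ ((c.nB + 1) * c.w)),
    ((KS.act c.A c.P (c.τ i) (c.τ (i + 1))).card : ℝ) := by
  rw [card_eq_sum_card_fiberwise (f := Prod.snd) (t := range (c.Z ^ ((c.nB + 1) * c.w)))
    fun z hz => mem_coe.2 (mem_range.2 (mem_SS.1 (mem_coe.1 hz)).1)]
  push_cast
  refine sum_congr rfl fun i hi => ?_
  congr 1
  refine card_bij (fun z _ => z.1) (fun z hz => ?_) (fun z hz z' hz' e => ?_) fun p hp => ?_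
  · obtain ⟨h1, h2⟩ := mem_filter.1 hz
    exact h2 ▸ (mem_SS.1 h1).2
  · exact Prod.ext e ((mem_filter.1 hz).2.trans (mem_filter.1 hz').2.symm)
  · exact ⟨(p, i), mem_filter.2 ⟨mem_SS.2 ⟨mem_range.1 hi, hp⟩, rfl⟩, rfl⟩

theorem ent (h : c.Ok) :
    log c.SS.card - log (sz c.A c.P (c.τ 0) (c.τ (c.Z ^ ((c.nB + 1) * c.w)))) ≤
      ((Q h).H fun ω => (ω.1.1, ω.1.2)) - (Q h).H fun ω => ω.1.1 := by
  have T0 := card_SS_pos h
  have h1 : -log (1 / (c.SS.card : ℝ)) ≤ (Q h).H fun ω => (ω.1.1, ω.1.2) := by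
    refine (Q h).le_H fun ω _ => ?_
    have := Q_pr h fun z => z = ω.1
    refine le_trans (le_of_eq this) (div_le_div_of_nonneg_right ?_ T0.le)
    rw [Nat.cast_le_one]
    refine card_le_one.2 fun a ha b hb => ?_
    rw [(mem_filter.1 ha).2, (mem_filter.1 hb).2]
  have h2 : ((Q h).H fun ω => ω.1.1) ≤
      log (sz c.A c.P (c.τ 0) (c.τ (c.Z ^ ((c.nB + 1) * c.w)))) := by
    refine (Q h).H_le_log (KS.act c.A c.P (c.τ 0) (c.τ (c.Z ^ ((c.nB + 1) * c.w))))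
      (fun ω _ => ?_) (le_add_of_nonneg_right (TV_nonneg' _ _ _))
    obtain ⟨a, b⟩ := mem_SS.1 ω.2
    exact act_up b (act_sub _ _ _ b) (h.mono (Nat.zero_le _)) (h.mono a)
  rw [one_div, log_inv, neg_neg] at h1
  linarith

end Ctx

theorem LA_max {r C : ℝ} (h : LA r C) : LA r (max C 1) :=
  fun α x y th be A P h1 X Y si io h2 h3 a b la m h4 h5 h6 h7 h8 =>
    (h α x y th be A P h1 X Y si io h2 h3 a b la m h4 h5 h6 h7 h8).trans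
      (mul_le_mul_of_nonneg_right (mul_le_mul_of_nonneg_right (le_max_left _ _) (by positivity))
        (sz_nonneg' _ _ _))

theorem p_PROC (hN : S_NODE) (hL : S_LAC) : S_PROC := by
  intro hUB
  obtain ⟨γ, γ0, γ1, hγ⟩ := p_HT hUB
  obtain ⟨μ, hμ⟩ : ∃ μ : ℕ, 5 ≤ μ * γ := ⟨⌈5 / γ⌉₊, (div_le_iff₀ γ0).1 (Nat.le_ceil _)⟩
  obtain ⟨w, hw⟩ : ∃ w : ℕ, 3 * (μ : ℝ) + 5 ≤ w * γ :=
    ⟨⌈(3 * μ + 5) / γ⌉₊, (div_le_iff₀ γ0).1 (Nat.le_ceil _)⟩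
  have hw1 : 3 * μ + 5 ≤ w := by
    have : 3 * (μ : ℝ) + 5 ≤ w := hw.trans (mul_le_of_le_one_right (Nat.cast_nonneg _) γ1)
    exact_mod_cast this
  have hw0 : (1 : ℝ) ≤ w := by exact_mod_cast (by omega : 1 ≤ w)
  refine ⟨γ / 2, w, by positivity, by linarith, by omega, fun η ζ κ₀ η0 η1 ζ0 ζ1 => ?_⟩
  obtain ⟨c, c0, c1, c2⟩ : ∃ c : ℝ, 0 < c ∧ c ≤ γ / 2 ∧ c ≤ η :=
    ⟨min (γ / 2) η, by positivity, min_le_left _ _, min_le_right _ _⟩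
  obtain ⟨ε, ε0, εw⟩ : ∃ ε : ℝ, 0 < ε ∧ ε * w = ζ * c / 64 :=
    ⟨ζ * c / 64 / w, by positivity, by field_simp⟩
  have ε1 : ε ≤ γ / 4 := by nlinarith
  obtain ⟨⟨C₀, hC₀, hA⟩, hn⟩ := hγ ε ε0 (by linarith)
  obtain ⟨g, g1, g2, g3, hA⟩ : ∃ g, γ ≤ g ∧ g ≤ 1 ∧ g ≤ γ + ε ∧ HA g C₀ :=
    ⟨_, le_min (by linarith) γ1, min_le_right _ _, min_le_left _ _, hA⟩
  obtain ⟨C₁, hC₁, hLA⟩ : ∃ C, 1 ≤ C ∧ LA (γ / 2) C := by
    obtain ⟨C, h⟩ := hL (γ / 2) (by positivity)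
    exact ⟨_, le_max_right _ _, LA_max h⟩
  have l2 : 0 < log 2 := log_pos one_lt_two
  obtain ⟨κ, κ1, κ2, κ3, κ4⟩ : ∃ κ : ℕ, κ₀ ≤ κ ∧ 1 ≤ κ ∧
      log (1400 * C₀ * C₁) ≤ c / 2 * (κ * log 2) ∧ log (10 * C₀) ≤ ζ * c / 64 * (κ * log 2) := by
    obtain ⟨a, ha⟩ := exists_nat_ge (log (1400 * C₀ * C₁) / (c / 2 * log 2))
    obtain ⟨b, hb⟩ := exists_nat_ge (log (10 * C₀) / (ζ * c / 64 * log 2))
    rw [div_le_iff₀ (by positivity)] at ha hb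
    have p1 : 0 ≤ c / 2 * log 2 := by positivity
    have p2 : 0 ≤ ζ * c / 64 * log 2 := by positivity
    refine ⟨κ₀ + 1 + a + b, by omega, by omega, ?_, ?_⟩ <;> push_cast
    · nlinarith [mul_nonneg p1 (by positivity : (0 : ℝ) ≤ κ₀ + 1 + b)]
    · nlinarith [mul_nonneg p2 (by positivity : (0 : ℝ) ≤ κ₀ + 1 + a)]
  obtain ⟨Z, hZ⟩ : ∃ Z : ℕ, Z = 2 ^ κ := ⟨_, rfl⟩
  have Z2 : 2 ≤ Z := by rw [hZ]; exact Nat.le_self_pow (by omega) 2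
  have Z0 : (0 : ℝ) < Z := by exact_mod_cast (by omega : 0 < Z)
  have lZ : log Z = κ * log 2 := by rw [hZ]; push_cast; rw [log_pow]
  have l0 : 0 < log Z := log_pos (by exact_mod_cast Z2)
  rw [← lZ] at κ3 κ4
  have M1 : 1 ≤ Z ^ μ := Nat.one_le_pow _ _ (by omega)
  refine ⟨κ, 2 * Z ^ μ, κ1, by omega, ?_, fun n₀ => ?_⟩
  · calc (2 * Z ^ μ) ^ 3 ≤ (Z * Z ^ μ) ^ 3 := by gcongr
      _ = Z ^ (3 * μ + 3) := by ring
      _ ≤ Z ^ w := Nat.pow_le_pow_right (by omega) (by omega)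
      _ = 2 ^ (w * κ) := by rw [hZ, ← pow_mul, mul_comm]
  obtain ⟨n₁, n1, n2, n3, n4⟩ : ∃ n₁ : ℕ, n₀ ≤ n₁ ∧ 1 ≤ ζ / 8 * n₁ ∧ 1 ≤ γ / 4 * n₁ ∧
      log C₀ + 2 * w * log Z ≤ ζ * c / 64 * log Z * n₁ := by
    obtain ⟨a, ha⟩ := exists_nat_ge (1 / (ζ / 8))
    obtain ⟨b, hb⟩ := exists_nat_ge (1 / (γ / 4))
    obtain ⟨d, hd⟩ := exists_nat_ge ((log C₀ + 2 * w * log Z) / (ζ * c / 64 * log Z))
    rw [div_le_iff₀ (by positivity)] at ha hb hd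
    have p1 : 0 ≤ ζ * c / 64 * log Z := by positivity
    refine ⟨n₀ + a + b + d, by omega, ?_, ?_, ?_⟩ <;> push_cast
    · nlinarith [mul_nonneg ζ0.le (by positivity : (0 : ℝ) ≤ n₀ + b + d)]
    · nlinarith [mul_nonneg γ0.le (by positivity : (0 : ℝ) ≤ n₀ + a + d)]
    · nlinarith [mul_nonneg p1 (by positivity : (0 : ℝ) ≤ n₀ + a + b)]
  obtain ⟨nB, hnB, α₁, x₁, y₁, th, be, A₁, P₁, τ, hl₁, hτ, s₁, T₁⟩ := p_LEAF (γ - ε) (Z ^ w) n₁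
    (by linarith) (Z2.trans (Nat.le_self_pow (by omega) Z)) hn
  have hnB' : (n₁ : ℝ) ≤ nB := by exact_mod_cast hnB
  have eK : (Z ^ w) ^ (nB + 1) = Z ^ ((nB + 1) * w) := by rw [← pow_mul, mul_comm]
  rw [eK] at s₁ T₁
  have T0 : 0 < ∑ i ∈ range (Z ^ ((nB + 1) * w)), ((KS.act A₁ P₁ (τ i) (τ (i + 1))).card : ℝ) :=
    lt_of_lt_of_le (by positivity) T₁
  obtain ⟨X, hX⟩ : ∃ X : ℝ, X = ((Z ^ μ : ℕ) : ℝ) * (Z : ℝ) ^ ((nB + 1) * w) *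
    ((Z : ℝ) ^ w * ((Z ^ μ : ℕ) : ℝ) ^ 3) ^ (nB + 1) := ⟨_, rfl⟩
  have X0 : 0 < X := by rw [hX]; positivity
  obtain ⟨N, hN1⟩ := exists_nat_ge (X / (ζ / 8 *
    ∑ i ∈ range (Z ^ ((nB + 1) * w)), ((KS.act A₁ P₁ (τ i) (τ (i + 1))).card : ℝ)))
  have N0 : (0 : ℝ) < N := lt_of_lt_of_le (by positivity) hN1
  rw [div_le_iff₀ (by positivity)] at hN1
  obtain ⟨α, x, y, A, P, hl, hi, hb⟩ := p_BLOW α₁ x₁ y₁ th be A₁ P₁ hl₁ N (τ (Z ^ ((nB + 1) * w)))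
  have es : sz A P (τ 0) (τ (Z ^ ((nB + 1) * w))) =
      N * sz A₁ P₁ (τ 0) (τ (Z ^ ((nB + 1) * w))) := by
    unfold sz; rw [(hb _ _ le_rfl).1, (hb _ _ le_rfl).2]; push_cast; ring
  have eT : ∑ i ∈ range (Z ^ ((nB + 1) * w)), ((KS.act A P (τ i) (τ (i + 1))).card : ℝ) =
      N * ∑ i ∈ range (Z ^ ((nB + 1) * w)), ((KS.act A₁ P₁ (τ i) (τ (i + 1))).card : ℝ) := by
    rw [mul_sum]
    exact sum_congr rfl fun i hi => by rw [(hb _ _ (hτ (mem_range.1 hi))).1]; push_cast; rfl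
  obtain ⟨R, hR⟩ : ∃ R : ℝ, ∀ p ∈ P, -R < x p ∧ x p < R :=
    ⟨∑ p ∈ P, |x p| + 1, fun p hp => abs_lt.1 (lt_of_le_of_lt
      (single_le_sum (f := fun p => |x p|) (fun _ _ => abs_nonneg _) hp) (lt_add_one _))⟩
  have mk : ∀ h₀ : ℕ, 1 ≤ h₀ → h₀ ≤ w → ∃ ch, Ctx.Ok ⟨x, y, th, be, A, P, τ, Z, w, nB, h₀, Z ^ μ,
      ζ, η, 5 * C₀ * (Z : ℝ) ^ (w * g), 1000 * C₀ ^ 2 * C₁ * (Z : ℝ) ^ (w * g - c), -R, R, ch⟩ := by
    intro h₀ a1 a2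
    have : ∀ (n i : ℕ) (s : Finset α × ℝ × ℝ), ∃ D : ND α, s.1 ⊆ P →
        KS.act A s.1 (τ ((i * Z ^ w + 0) * Z ^ (h₀ + (nB - (n + 1)) * w)))
          (τ ((i * Z ^ w + Z ^ w) * Z ^ (h₀ + (nB - (n + 1)) * w))) = s.1 →
        (∀ p ∈ s.1, s.2.1 < x p ∧ x p < s.2.2) →
        NP x y th A s.1 (fun k => τ ((i * Z ^ w + k) * Z ^ (h₀ + (nB - (n + 1)) * w))) Z w (Z ^ μ)
          s.2.1 s.2.2 η (5 * C₀ * (Z : ℝ) ^ (w * g) * sz A s.1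
            (τ ((i * Z ^ w + 0) * Z ^ (h₀ + (nB - (n + 1)) * w)))
            (τ ((i * Z ^ w + Z ^ w) * Z ^ (h₀ + (nB - (n + 1)) * w))))
          (1000 * C₀ ^ 2 * C₁ * (Z : ℝ) ^ (w * g - c) * sz A s.1
            (τ ((i * Z ^ w + 0) * Z ^ (h₀ + (nB - (n + 1)) * w)))
            (τ ((i * Z ^ w + Z ^ w) * Z ^ (h₀ + (nB - (n + 1)) * w)))) D := by
      intro n i s
      have : Nonempty (ND α) := ⟨⟨fun _ => 0, fun _ => 0, fun _ => 0, fun _ => 0, fun _ => True,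
        fun _ => True⟩⟩
      by_cases b1 : s.1 ⊆ P
      swap
      · exact ⟨Classical.arbitrary _, fun b => absurd b b1⟩
      by_cases b2 : KS.act A s.1 (τ ((i * Z ^ w + 0) * Z ^ (h₀ + (nB - (n + 1)) * w)))
          (τ ((i * Z ^ w + Z ^ w) * Z ^ (h₀ + (nB - (n + 1)) * w))) = s.1
      swap
      · exact ⟨Classical.arbitrary _, fun _ b => absurd b b2⟩
      by_cases b3 : ∀ p ∈ s.1, s.2.1 < x p ∧ x p < s.2.2
      swap
      · exact ⟨Classical.arbitrary _, fun _ _ b => absurd b b3⟩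
      obtain ⟨D, hD⟩ := hN γ g η c C₀ C₁ μ w Z γ0 g1 g2 η0 η1 c1 c2 hC₀ hC₁ hA hLA hμ hw Z2 α x y
        th be A s.1 (fun k => τ ((i * Z ^ w + k) * Z ^ (h₀ + (nB - (n + 1)) * w))) s.2.1 s.2.2
        ⟨hl.mono, fun t p hp => hl.ab t p (b1 hp)⟩ (fun p hp q hq => hi p (b1 hp) q (b1 hq))
        (fun _ _ hab => hτ (Nat.mul_le_mul_right _ (Nat.add_le_add_left hab _))) b2 b3
      exact ⟨D, fun _ _ _ => hD⟩
    choose ch hch using this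
    refine ⟨ch, hl, hτ, Z2, by show 2 ≤ w; omega, a1, a2, M1, hR, ?_, hch⟩
    rw [← card_pos, ← Nat.cast_pos (α := ℝ), Ctx.card_SS]
    show 0 < ∑ i ∈ range (Z ^ ((nB + 1) * w)), ((KS.act A P (τ i) (τ (i + 1))).card : ℝ)
    rw [eT]; positivity
  have s0 : 0 < sz A P (τ 0) (τ (Z ^ ((nB + 1) * w))) := by rw [es]; positivity
  have lT : (γ - ε) * nB * w * log Z + log (sz A P (τ 0) (τ (Z ^ ((nB + 1) * w)))) ≤
      log (∑ i ∈ range (Z ^ ((nB + 1) * w)), ((KS.act A P (τ i) (τ (i + 1))).card : ℝ)) := by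
    have : (((Z ^ w : ℕ) : ℝ) ^ nB) ^ (γ - ε) * sz A P (τ 0) (τ (Z ^ ((nB + 1) * w))) ≤
        ∑ i ∈ range (Z ^ ((nB + 1) * w)), ((KS.act A P (τ i) (τ (i + 1))).card : ℝ) := by
      rw [es, eT, mul_left_comm]; exact mul_le_mul_of_nonneg_left T₁ N0.le
    refine le_trans (le_of_eq ?_) (log_le_log (by positivity) this)
    rw [log_mul (by positivity) s0.ne', log_rpow (by positivity), log_pow]
    push_cast
    rw [log_pow]; ring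
  obtain ⟨ch₁, ok₁⟩ := mk 1 le_rfl (by omega)
  obtain ⟨h₀, a1, a2, br⟩ := p_BR _ _ (Ctx.Q ok₁) (fun ω => ω.1.1) (fun ω => ω.1.2) Z w nB
    ((γ - ε) * nB * log Z) Z2 (by omega) (fun ω => (Ctx.mem_SS.1 ω.2).1) (by
      have := Ctx.ent ok₁
      rw [Ctx.card_SS] at this
      refine le_trans ?_ this
      show _ ≤ log (∑ i ∈ range (Z ^ ((nB + 1) * w)), ((KS.act A P (τ i) (τ (i + 1))).card : ℝ)) -
        log (sz A P (τ 0) (τ (Z ^ ((nB + 1) * w))))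
      linarith)
  obtain ⟨ch, ok⟩ := mk h₀ a1 a2
  refine ⟨nB, n1.trans hnB, _, _, _, inferInstance, Ctx.pd ok, Ctx.str ok hZ,
    Ctx.rare p_CLS ok hZ ζ0.le (n2.trans (mul_le_mul_of_nonneg_left hnB' (by positivity))) ?_ ?_,
    ?_⟩
  · have eB : log (5 * C₀ * (Z : ℝ) ^ (w * g) / (7 * (1000 * C₀ ^ 2 * C₁ * (Z : ℝ) ^ (w * g - c))))
        = c * log Z - log (1400 * C₀ * C₁) := by
      rw [← log_rpow Z0, ← log_div (by positivity) (by positivity), rpow_sub Z0]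
      congr 1; field_simp; norm_num
    have hB : 7 * (1000 * C₀ ^ 2 * C₁ * (Z : ℝ) ^ (w * g - c)) ≤ 5 * C₀ * (Z : ℝ) ^ (w * g) := by
      rw [← one_le_div (by positivity), ← log_nonneg_iff (by positivity), eB]
      nlinarith [mul_pos c0 l0]
    have t1 := Ctx.tel (p_TEL p_CLS) ok (by show 0 < 1000 * _ * _ * _; positivity) hB
    have t2 := Ctx.top p_CLS ok hA g2 hC₀
    have t3 := Ctx.bottom ok
    rw [Ctx.card_SS] at t3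
    have e2 : log (2 * (5 * C₀ * (Z : ℝ) ^ (w * g))) = log (10 * C₀) + w * g * log Z := by
      rw [← log_rpow Z0, ← log_mul (by positivity) (by positivity)]; congr 1; ring
    have e3 : log (C₀ * (Z : ℝ) ^ w * sz A P (τ 0) (τ (Z ^ ((nB + 1) * w)))) =
        log C₀ + w * log Z + log (sz A P (τ 0) (τ (Z ^ ((nB + 1) * w)))) := by
      rw [log_mul (by positivity) s0.ne', log_mul (by positivity) (by positivity), log_pow]
    simp only at t1 t2 t3 ⊢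
    rw [eB, e2] at t1
    rw [e3] at t2
    generalize hS : (∑ n ∈ range nB, (Ctx.Q ok).pr fun ω => Ctx.bad _ n ω.1) = S at t1 ⊢
    have S0 : 0 ≤ S := hS ▸ sum_nonneg fun _ _ => FP.pr_nonneg _ _
    have p1 : 0 < c / 2 * log Z := by positivity
    have nB0 : (0 : ℝ) ≤ nB := Nat.cast_nonneg _
    have p2 : c / 2 * log Z * S ≤ (c * log Z - log (1400 * C₀ * C₁)) * S :=
      mul_le_mul_of_nonneg_right (by linarith) S0
    have p3 : (nB : ℝ) * log (10 * C₀) ≤ nB * (ζ * c / 64 * log Z) :=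
      mul_le_mul_of_nonneg_left κ4 nB0
    have p4 : ζ * c / 64 * log Z * n₁ ≤ ζ * c / 64 * log Z * nB :=
      mul_le_mul_of_nonneg_left hnB' (by positivity)
    have p5 : (nB : ℝ) * (w * g * log Z) ≤ nB * (w * (γ + ε) * log Z) := by gcongr
    have p6 : (nB : ℝ) * (ε * w) * log Z = nB * (ζ * c / 64) * log Z := by rw [εw]
    refine le_of_mul_le_mul_left ?_ p1
    nlinarith
  · rw [Ctx.card_SS]
    show ((Z ^ μ : ℕ) : ℝ) * (Z : ℝ) ^ ((nB + 1) * w) /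
      (∑ i ∈ range (Z ^ ((nB + 1) * w)), ((KS.act A P (τ i) (τ (i + 1))).card : ℝ)) *
      ((Z : ℝ) ^ w * ((Z ^ μ : ℕ) : ℝ) ^ 3) ^ (nB + 1) ≤ ζ / 8
    rw [div_mul_eq_mul_div, ← hX, eT, div_le_iff₀ (by positivity)]
    linarith
  · refine le_trans ?_ br
    have p1 : 1 ≤ γ / 4 * nB := n3.trans (mul_le_mul_of_nonneg_left hnB' (by positivity))
    have p2 : ε * nB ≤ γ / 4 * nB := mul_le_mul_of_nonneg_right ε1 (Nat.cast_nonneg _)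
    rw [mul_assoc (γ / 2), ← lZ]
    nlinarith

end Pool.Agent.P.MP_77a832_co.EL
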