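import Pool.Agent.P.MP_77a832_co.EL.Defs

/-! Statements used to build a node process from a positive exponent. -/

set_option autoImplicit false

namespace Pool.Agent.P.MP_77a832_co.EL

open Finset Real Pool.Agent.P.MP_bf60a1_an.RA
open scoped Classical

/-- the critical exponent -/
-- deps:
def S_HT : Prop := ¬ UB → ∃ γ : ℝ, 0 < γ ∧ γ ≤ 1 ∧ ∀ ε : ℝ, 0 < ε → ε < γ →
  (∃ C : ℝ, 1 ≤ C ∧ HA (min (γ + ε) 1) C) ∧ ∀ C : ℝ, ¬ HA (γ - ε) C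

/-- an instance with `K ^ (nB + 1)` leaves and many active points -/
-- deps:
def S_LEAF : Prop := ∀ (g : ℝ) (K n₀ : ℕ), 0 < g → 2 ≤ K → (∀ C : ℝ, ¬ HA g C) →
  ∃ nB, n₀ ≤ nB ∧ ∃ (α : Type) (x y : α → ℝ) (th be : ℕ → ℝ) (A : ℕ → Finset α) (P : Finset α)
    (τ : ℕ → ℕ), Lin x y th be A P ∧ Monotone τ ∧ 0 < sz A P (τ 0) (τ (K ^ (nB + 1))) ∧
    ((K : ℝ) ^ nB) ^ g * sz A P (τ 0) (τ (K ^ (nB + 1))) ≤
      ∑ i ∈ range (K ^ (nB + 1)), ((KS.act A P (τ i) (τ (i + 1))).card : ℝ)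

/-- every point is replaced by `N` copies at different places -/
-- deps:
def S_BLOW : Prop := ∀ (α : Type) (x y : α → ℝ) (th be : ℕ → ℝ) (A : ℕ → Finset α)
  (P : Finset α), Lin x y th be A P → ∀ N T : ℕ,
    ∃ (α' : Type) (x' y' : α' → ℝ) (A' : ℕ → Finset α') (P' : Finset α'),
      Lin x' y' th be A' P' ∧ (∀ p ∈ P', ∀ q ∈ P', x' p = x' q → y' p = y' q → p = q) ∧
      ∀ a b, b ≤ T → (KS.act A' P' a b).card = N * (KS.act A P a b).card ∧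
        TV A' P' a b = N * TV A P a b

/-- sums over the classes of a refinement -/
-- deps:
def S_CLS : Prop := ∀ (Ω β β' γ : Type) [Fintype Ω] (Q : FP Ω) (Z : Ω → β) (Z' : Ω → β')
  (ι : Ω → γ) (f g : Ω → ℝ), (∀ ω, 0 < Q.p ω) → (∀ ω z, Z z = Z ω → ι z = ι ω → Z' z = Z' ω) →
    (∀ ω, 0 ≤ f ω) → (∀ ω, ∃ (F : Finset γ) (h : γ → ℝ), (∀ v ∈ F, 0 ≤ h v) ∧
      ∑ v ∈ F, h v ≤ g ω ∧ ∀ z, Z z = Z ω → ι z ∈ F ∧ f z ≤ h (ι z)) →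
    (Q.E fun ω => f ω / Q.cl Z' ω) ≤ Q.E fun ω => g ω / Q.cl Z ω

/-- small families of children are rarely visited -/
-- deps: CLS
def S_TEL : Prop := ∀ (Ω β γ : Type) [Fintype Ω] (Q : FP Ω) (Nd : ℕ → Ω → β) (ι : ℕ → Ω → γ)
  (s : ℕ → Ω → ℝ) (bad : ℕ → Ω → Prop) (nB : ℕ) (B S : ℝ), (∀ ω, 0 < Q.p ω) → 0 < S → S ≤ B →
    (∀ n ≤ nB, ∀ ω, 0 < s n ω) → (∀ n < nB, ∀ ω z, Nd n z = Nd n ω → s n z = s n ω) →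
    (∀ n < nB, ∀ ω z, Nd n z = Nd n ω → ι n z = ι n ω → Nd (n + 1) z = Nd (n + 1) ω) →
    (∀ n < nB, ∀ ω, ∃ (F : Finset γ) (h h' : γ → ℝ), (∀ v ∈ F, 0 ≤ h v) ∧ (∀ v ∈ F, 0 ≤ h' v) ∧
      ∑ v ∈ F, h v ≤ B * s n ω ∧ ∑ v ∈ F, h' v ≤ S * s n ω ∧ ∀ z, Nd n z = Nd n ω →
        ι n z ∈ F ∧ s (n + 1) z ≤ h (ι n z) ∧ (bad n z → s (n + 1) z ≤ h' (ι n z))) →
    log (B / S) * ∑ n ∈ range nB, Q.pr (bad n) ≤ nB * log (2 * B) +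
      (Q.H (Nd 0) + Q.E fun ω => log (s 0 ω)) - (Q.H (Nd nB) + Q.E fun ω => log (s nB ω))

/-- a good offset: the visits of a point branch -/
-- deps:
def S_BR : Prop := ∀ (Ω α : Type) [Fintype Ω] (Q : FP Ω) (pt : Ω → α) (lf : Ω → ℕ)
  (Z w nB : ℕ) (G : ℝ), 2 ≤ Z → 1 ≤ w → (∀ ω, lf ω < Z ^ ((nB + 1) * w)) →
    (w : ℝ) * G ≤ (Q.H fun ω => (pt ω, lf ω)) - Q.H pt →
    ∃ h₀, 1 ≤ h₀ ∧ h₀ ≤ w ∧ G - log Z ≤ ∑ n ∈ range nB,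
      Q.Hc (fun ω => lf ω / Z ^ (h₀ + (nB - n) * w - 1))
        fun ω => (pt ω, lf ω / Z ^ (h₀ + (nB - n) * w))

end Pool.Agent.P.MP_77a832_co.EL
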