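import Pool.Agent.P.MP_77a832_co.EL.NDefs
import Pool.Agent.P.MP_77a832_co.EL.AIface

/-! The node process of an instance: definitions and invariants. -/

set_option autoImplicit false
set_option linter.dupNamespace false

namespace Pool.Agent.P.MP_77a832_co.EL

open Finset Real Pool.Agent.P.MP_bf60a1_an.RA
open scoped Classical

section basic
variable {α : Type} {A : ℕ → Finset α}

theorem act_sub (E : Finset α) (a b : ℕ) : KS.act A E a b ⊆ E := filter_subset _ _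

theorem act_act (E : Finset α) (a b : ℕ) : KS.act A (KS.act A E a b) a b = KS.act A E a b := by
  ext p; simp only [KS.mem_act]; exact ⟨fun h => h.1, fun h => ⟨h, h.2⟩⟩

theorem act_up {E F : Finset α} {a b c d : ℕ} {p : α} (h : p ∈ KS.act A E a b) (hF : p ∈ F)
    (h1 : c ≤ a) (h2 : b ≤ d) : p ∈ KS.act A F c d := by
  obtain ⟨-, s, t, h3, h4, h5, h6, h7⟩ := KS.mem_act.1 h
  exact KS.mem_act.2 ⟨hF, s, t, by omega, by omega, by omega, by omega, h7⟩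

theorem TV_nonneg' (E : Finset α) (a b : ℕ) : 0 ≤ TV A E a b :=
  sum_nonneg fun _ _ => abs_nonneg _

theorem sz_nonneg' (E : Finset α) (a b : ℕ) : 0 ≤ sz A E a b :=
  add_nonneg (Nat.cast_nonneg _) (TV_nonneg' E a b)

theorem TV_act (E : Finset α) (a b : ℕ) : TV A (KS.act A E a b) a b = TV A E a b := by
  refine sum_congr rfl fun t ht => ?_
  obtain ⟨h1, h2⟩ := mem_Ico.1 ht
  have key : ∀ u, (E ∩ A u).card =
      (KS.act A E a b ∩ A u).card + ((E \ KS.act A E a b) ∩ A u).card := fun u => by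
    rw [← card_union_of_disjoint (Disjoint.mono inter_subset_left inter_subset_left
      disjoint_sdiff), ← union_inter_distrib_right, union_sdiff_of_subset (act_sub E a b)]
  have e : (E \ KS.act A E a b) ∩ A (t + 1) = (E \ KS.act A E a b) ∩ A t := by
    ext p
    simp only [mem_inter, mem_sdiff, KS.mem_act]
    constructor
    · rintro ⟨⟨h3, h4⟩, h5⟩
      refine ⟨⟨h3, h4⟩, ?_⟩
      by_contra h6
      exact h4 ⟨h3, t + 1, t, by omega, by omega, by omega, by omega, h5, h6⟩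
    · rintro ⟨⟨h3, h4⟩, h5⟩
      refine ⟨⟨h3, h4⟩, ?_⟩
      by_contra h6
      exact h4 ⟨h3, t, t + 1, by omega, by omega, by omega, by omega, h5, h6⟩
  rw [key (t + 1), key t, e]
  push_cast
  congr 1
  ring

theorem sz_act (E : Finset α) (a b : ℕ) : sz A (KS.act A E a b) a b = sz A E a b := by
  unfold sz; rw [act_act, TV_act]

theorem ws_le {Z h h' : ℕ} (hh : h ≤ h') (B : ℕ) : B / Z ^ h' * Z ^ h' ≤ B / Z ^ h * Z ^ h := by
  obtain ⟨d, rfl⟩ := Nat.exists_eq_add_of_le hh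
  rw [pow_add, ← Nat.div_div_eq_div_mul, mul_comm (Z ^ h) (Z ^ d), ← mul_assoc]
  exact Nat.mul_le_mul_right _ (Nat.div_mul_le_self _ _)

theorem we_le {Z h h' : ℕ} (hZ : 0 < Z) (hh : h ≤ h') (B : ℕ) :
    (B / Z ^ h + 1) * Z ^ h ≤ (B / Z ^ h' + 1) * Z ^ h' := by
  obtain ⟨d, rfl⟩ := Nat.exists_eq_add_of_le hh
  rw [pow_add, ← Nat.div_div_eq_div_mul, mul_comm (Z ^ h) (Z ^ d), ← mul_assoc]
  refine Nat.mul_le_mul_right _ ?_
  have := Nat.lt_div_mul_add (a := B / Z ^ h) (pow_pos hZ d)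
  rw [add_mul, one_mul]
  omega

theorem div_eq_of {Z h h' B B' : ℕ} (hh : h ≤ h') (e : B / Z ^ h = B' / Z ^ h) :
    B / Z ^ h' = B' / Z ^ h' := by
  obtain ⟨d, rfl⟩ := Nat.exists_eq_add_of_le hh
  rw [pow_add, ← Nat.div_div_eq_div_mul, ← Nat.div_div_eq_div_mul, e]

end basic

/-- the data from which the process is built -/
structure Ctx (α : Type) where
  x : α → ℝ
  y : α → ℝ
  th : ℕ → ℝ
  be : ℕ → ℝ
  A : ℕ → Finset α
  P : Finset α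
  τ : ℕ → ℕ
  Z : ℕ
  w : ℕ
  nB : ℕ
  h₀ : ℕ
  M : ℕ
  ζ : ℝ
  η : ℝ
  B : ℝ
  S : ℝ
  a₀ : ℝ
  b₀ : ℝ
  ch : ℕ → ℕ → Finset α × ℝ × ℝ → ND α

namespace Ctx
variable {α : Type} (c : Ctx α)

/-- height of the level `n` -/
def ht (n : ℕ) : ℕ := c.h₀ + (c.nB - n) * c.w
/-- pairs of a point and a leaf in which it is active -/
noncomputable def SS : Finset (α × ℕ) :=
  (c.P ×ˢ range (c.Z ^ ((c.nB + 1) * c.w))).filter fun ω =>
    ω.1 ∈ KS.act c.A c.P (c.τ ω.2) (c.τ (ω.2 + 1))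
/-- window of level `n` -/
def Wn (n : ℕ) (ω : α × ℕ) : ℕ := ω.2 / c.Z ^ c.ht n
/-- first time of the window -/
def t0 (n : ℕ) (ω : α × ℕ) : ℕ := c.τ (c.Wn n ω * c.Z ^ c.ht n)
/-- last time of the window -/
def t1 (n : ℕ) (ω : α × ℕ) : ℕ := c.τ ((c.Wn n ω + 1) * c.Z ^ c.ht n)
/-- times that cut the window `i` of level `n` -/
def tn (n i k : ℕ) : ℕ := c.τ ((i * c.Z ^ c.w + k) * c.Z ^ c.ht (n + 1))
/-- number of the child window -/
def kk (n : ℕ) (ω : α × ℕ) : ℕ := c.Wn (n + 1) ω % c.Z ^ c.w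
/-- number of visits of a point -/
noncomputable def wt (n i : ℕ) (p : α) : ℝ :=
  ((range (c.Z ^ ((c.nB + 1) * c.w))).filter fun B => B / c.Z ^ c.ht n = i ∧
    p ∈ KS.act c.A c.P (c.τ B) (c.τ (B + 1))).card
/-- points of a planar cell -/
noncomputable def c2 (E : Finset α) (N : ND α) (j : ℕ × ℕ) : Finset α :=
  E.filter fun p => (N.ca p, N.cb p) = j
/-- heavy planar cells -/
def hv (n i : ℕ) (E : Finset α) (N : ND α) (j : ℕ × ℕ) : Prop :=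
  c.ζ / (2 * c.M) ^ 2 * ∑ p ∈ E, c.wt n i p ≤ ∑ p ∈ c2 E N j, c.wt n i p
/-- a heavy cell to the lower left -/
noncomputable def Cm (n i : ℕ) (E : Finset α) (N : ND α) (j : ℕ × ℕ) : Finset α :=
  if h : ∃ d, c.hv n i E N d ∧ d.1 < j.1 ∧ d.2 < j.2 then c2 E N h.choose else ∅
/-- a heavy cell to the upper right -/
noncomputable def Cp (n i : ℕ) (E : Finset α) (N : ND α) (j : ℕ × ℕ) : Finset α :=
  if h : ∃ d, c.hv n i E N d ∧ j.1 < d.1 ∧ j.2 < d.2 then c2 E N h.choose else ∅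
/-- the next state -/
noncomputable def nx (n i : ℕ) (s : Finset α × ℝ × ℝ) (j : ℕ × ℕ × ℕ) (u v : ℕ) :
    Finset α × ℝ × ℝ :=
  (KS.act c.A (cel s.1 (c.ch n i s).cell j) u v,
    (c.Cm n i s.1 (c.ch n i s) j.2).fold max s.2.1 c.x,
    (c.Cp n i s.1 (c.ch n i s) j.2).fold min s.2.2 c.x)
/-- points and poles of the node -/
noncomputable def st : ℕ → α × ℕ → Finset α × ℝ × ℝ
  | 0, ω => (KS.act c.A c.P (c.t0 0 ω) (c.t1 0 ω), c.a₀, c.b₀)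
  | n + 1, ω => c.nx n (c.Wn n ω) (st n ω) ((c.ch n (c.Wn n ω) (st n ω)).cell ω.1)
      (c.t0 (n + 1) ω) (c.t1 (n + 1) ω)
/-- points of the node -/
noncomputable def EE (n : ℕ) (ω : α × ℕ) : Finset α := (c.st n ω).1
/-- data of the node -/
noncomputable def NN (n : ℕ) (ω : α × ℕ) : ND α := c.ch n (c.Wn n ω) (c.st n ω)
/-- the node with its history -/
noncomputable def nd (n : ℕ) (ω : α × ℕ) : ℕ → ℕ × Finset α × ℝ × ℝ :=
  fun m => (c.Wn (min m n) ω, c.st (min m n) ω)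
/-- size of the node -/
noncomputable def ss (n : ℕ) (ω : α × ℕ) : ℝ := sz c.A (c.EE n ω) (c.t0 n ω) (c.t1 n ω)
/-- lower left neighbour -/
noncomputable def CM (n : ℕ) (ω : α × ℕ) : Finset α :=
  c.Cm n (c.Wn n ω) (c.EE n ω) (c.NN n ω) ((c.NN n ω).cell ω.1).2
/-- upper right neighbour -/
noncomputable def CP (n : ℕ) (ω : α × ℕ) : Finset α :=
  c.Cp n (c.Wn n ω) (c.EE n ω) (c.NN n ω) ((c.NN n ω).cell ω.1).2

/-- hypotheses on the data -/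
structure Ok : Prop where
  lin : Lin c.x c.y c.th c.be c.A c.P
  mono : Monotone c.τ
  hZ : 2 ≤ c.Z
  hw : 2 ≤ c.w
  h1 : 1 ≤ c.h₀
  h2 : c.h₀ ≤ c.w
  hM : 1 ≤ c.M
  pole : ∀ p ∈ c.P, c.a₀ < c.x p ∧ c.x p < c.b₀
  ne : c.SS.Nonempty
  np : ∀ n i (s : Finset α × ℝ × ℝ), s.1 ⊆ c.P →
    KS.act c.A s.1 (c.tn n i 0) (c.tn n i (c.Z ^ c.w)) = s.1 →
    (∀ p ∈ s.1, s.2.1 < c.x p ∧ c.x p < s.2.2) →
    NP c.x c.y c.th c.A s.1 (c.tn n i) c.Z c.w c.M s.2.1 s.2.2 c.η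
      (c.B * sz c.A s.1 (c.tn n i 0) (c.tn n i (c.Z ^ c.w)))
      (c.S * sz c.A s.1 (c.tn n i 0) (c.tn n i (c.Z ^ c.w))) (c.ch n i s)

variable {c}

theorem ht_succ {n : ℕ} (hn : n < c.nB) : c.ht n = c.ht (n + 1) + c.w := by
  unfold ht
  obtain ⟨d, hd⟩ := Nat.exists_eq_add_of_lt hn
  have e1 : c.nB - n = d + 1 := by omega
  have e2 : c.nB - (n + 1) = d := by omega
  rw [e1, e2]; ring

theorem ht_anti {m n : ℕ} (h : m ≤ n) : c.ht n ≤ c.ht m :=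
  Nat.add_le_add_left (Nat.mul_le_mul_right _ (by omega)) _

theorem Wn_succ {n : ℕ} (hn : n < c.nB) (ω : α × ℕ) :
    c.Wn n ω = c.Wn (n + 1) ω / c.Z ^ c.w := by
  unfold Wn; rw [ht_succ hn, pow_add, Nat.div_div_eq_div_mul]

theorem Wn_kk {n : ℕ} (hn : n < c.nB) (ω : α × ℕ) :
    c.Wn n ω * c.Z ^ c.w + c.kk n ω = c.Wn (n + 1) ω := by
  rw [Wn_succ hn, kk, Nat.div_add_mod']

theorem Wn_le {m n : ℕ} (h : m ≤ n) {ω z : α × ℕ} (e : c.Wn n z = c.Wn n ω) :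
    c.Wn m z = c.Wn m ω := div_eq_of (ht_anti h) e

theorem tn_zero {n : ℕ} (hn : n < c.nB) (ω : α × ℕ) : c.tn n (c.Wn n ω) 0 = c.t0 n ω := by
  unfold tn t0; rw [ht_succ hn, pow_add]; congr 1; ring

theorem tn_top {n : ℕ} (hn : n < c.nB) (ω : α × ℕ) :
    c.tn n (c.Wn n ω) (c.Z ^ c.w) = c.t1 n ω := by
  unfold tn t1; rw [ht_succ hn, pow_add]; congr 1; ring

theorem tn_kk {n : ℕ} (hn : n < c.nB) (ω : α × ℕ) :
    c.tn n (c.Wn n ω) (c.kk n ω) = c.t0 (n + 1) ω := by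
  unfold tn t0; rw [Wn_kk hn]

theorem tn_kk1 {n : ℕ} (hn : n < c.nB) (ω : α × ℕ) :
    c.tn n (c.Wn n ω) (c.kk n ω + 1) = c.t1 (n + 1) ω := by
  unfold tn t1; rw [← add_assoc, Wn_kk hn]

theorem tn_mono (h : c.Ok) (n i : ℕ) : Monotone (c.tn n i) := fun _ _ hab =>
  h.mono (Nat.mul_le_mul_right _ (Nat.add_le_add_left hab _))

theorem t0_congr {n : ℕ} {ω z : α × ℕ} (e : c.Wn n z = c.Wn n ω) : c.t0 n z = c.t0 n ω := by
  unfold t0; rw [e]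

theorem t1_congr {n : ℕ} {ω z : α × ℕ} (e : c.Wn n z = c.Wn n ω) : c.t1 n z = c.t1 n ω := by
  unfold t1; rw [e]

theorem mem_SS {ω : α × ℕ} : ω ∈ c.SS ↔ ω.2 < c.Z ^ ((c.nB + 1) * c.w) ∧
    ω.1 ∈ KS.act c.A c.P (c.τ ω.2) (c.τ (ω.2 + 1)) := by
  unfold SS
  rw [mem_filter, mem_product, mem_range]
  exact ⟨fun h => ⟨h.1.2, h.2⟩, fun h => ⟨⟨act_sub _ _ _ h.2, h.1⟩, h.2⟩⟩

/-- a point is active in every window above its leaf -/
theorem act_win (h : c.Ok) {ω : α × ℕ} (hω : ω ∈ c.SS) (k : ℕ) {F : Finset α} (hF : ω.1 ∈ F) :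
    ω.1 ∈ KS.act c.A F (c.τ (ω.2 / c.Z ^ k * c.Z ^ k)) (c.τ ((ω.2 / c.Z ^ k + 1) * c.Z ^ k)) := by
  have hZ : 0 < c.Z := by have := h.hZ; omega
  refine act_up (mem_SS.1 hω).2 hF (h.mono (Nat.div_mul_le_self _ _)) (h.mono ?_)
  simpa using we_le hZ (Nat.zero_le k) ω.2

theorem EE_succ (n : ℕ) (ω : α × ℕ) : c.EE (n + 1) ω = KS.act c.A
    (cel (c.EE n ω) (c.NN n ω).cell ((c.NN n ω).cell ω.1)) (c.t0 (n + 1) ω) (c.t1 (n + 1) ω) := rfl

theorem lo_succ (n : ℕ) (ω : α × ℕ) :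
    (c.st (n + 1) ω).2.1 = (c.CM n ω).fold max (c.st n ω).2.1 c.x := rfl

theorem hi_succ (n : ℕ) (ω : α × ℕ) :
    (c.st (n + 1) ω).2.2 = (c.CP n ω).fold min (c.st n ω).2.2 c.x := rfl

theorem mem_succ {n : ℕ} {ω : α × ℕ} {p : α} (hp : p ∈ c.EE (n + 1) ω) :
    p ∈ c.EE n ω ∧ (c.NN n ω).cell p = (c.NN n ω).cell ω.1 :=
  mem_filter.1 (act_sub _ _ _ (EE_succ n ω ▸ hp))

theorem EE_anti {m n : ℕ} (h : m ≤ n) (ω : α × ℕ) : c.EE n ω ⊆ c.EE m ω := by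
  induction n, h using Nat.le_induction with
  | base => exact Subset.rfl
  | succ n _ ih => exact fun p hp => ih (mem_succ hp).1

theorem EE_sub (n : ℕ) (ω : α × ℕ) : c.EE n ω ⊆ c.P :=
  (EE_anti (Nat.zero_le n) ω).trans (act_sub _ _ _)

theorem EE_act (n : ℕ) (ω : α × ℕ) :
    KS.act c.A (c.EE n ω) (c.t0 n ω) (c.t1 n ω) = c.EE n ω := by
  cases n with
  | zero => exact act_act _ _ _
  | succ n => rw [EE_succ]; exact act_act _ _ _

theorem mem_EE (h : c.Ok) {ω : α × ℕ} (hω : ω ∈ c.SS) (n : ℕ) : ω.1 ∈ c.EE n ω := by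
  induction n with
  | zero => exact act_win h hω _ (act_sub _ _ _ (mem_SS.1 hω).2)
  | succ n ih => rw [EE_succ]; exact act_win h hω _ (mem_filter.2 ⟨ih, rfl⟩)

theorem mem_Cm {n i : ℕ} {E : Finset α} {N : ND α} {j : ℕ × ℕ} {z : α}
    (hz : z ∈ c.Cm n i E N j) : z ∈ E ∧ N.ca z < j.1 ∧ N.cb z < j.2 ∧
      ∀ v ∈ E, (N.ca v, N.cb v) = (N.ca z, N.cb z) → v ∈ c.Cm n i E N j := by
  unfold Cm at hz ⊢
  split_ifs at hz ⊢ with h
  · obtain ⟨h1, h2⟩ := mem_filter.1 hz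
    have := h.choose_spec
    rw [← h2] at this
    exact ⟨h1, this.2.1, this.2.2, fun v hv e => mem_filter.2 ⟨hv, e.trans h2⟩⟩
  · simp at hz

theorem mem_Cp {n i : ℕ} {E : Finset α} {N : ND α} {j : ℕ × ℕ} {z : α}
    (hz : z ∈ c.Cp n i E N j) : z ∈ E ∧ j.1 < N.ca z ∧ j.2 < N.cb z ∧
      ∀ v ∈ E, (N.ca v, N.cb v) = (N.ca z, N.cb z) → v ∈ c.Cp n i E N j := by
  unfold Cp at hz ⊢
  split_ifs at hz ⊢ with h
  · obtain ⟨h1, h2⟩ := mem_filter.1 hz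
    have := h.choose_spec
    rw [← h2] at this
    exact ⟨h1, this.2.1, this.2.2, fun v hv e => mem_filter.2 ⟨hv, e.trans h2⟩⟩
  · simp at hz

/-- the node properties, given the poles -/
theorem np_of (h : c.Ok) {n : ℕ} (hn : n < c.nB) (ω : α × ℕ)
    (hp : ∀ p ∈ c.EE n ω, (c.st n ω).2.1 < c.x p ∧ c.x p < (c.st n ω).2.2) :
    NP c.x c.y c.th c.A (c.EE n ω) (c.tn n (c.Wn n ω)) c.Z c.w c.M (c.st n ω).2.1 (c.st n ω).2.2
      c.η (c.B * c.ss n ω) (c.S * c.ss n ω) (c.NN n ω) := by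
  have := h.np n (c.Wn n ω) (c.st n ω) (EE_sub n ω)
    (by rw [tn_zero hn, tn_top hn]; exact EE_act n ω) hp
  rwa [tn_zero hn, tn_top hn] at this

theorem poles (h : c.Ok) (ω : α × ℕ) {n : ℕ} (hn : n ≤ c.nB) :
    ∀ p ∈ c.EE n ω, (c.st n ω).2.1 < c.x p ∧ c.x p < (c.st n ω).2.2 := by
  induction n with
  | zero => exact fun p hp => h.pole p (EE_sub 0 ω hp)
  | succ n ih =>
    intro p hp
    have ih := ih (by omega)
    have N := np_of h (by omega) ω ih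
    obtain ⟨h1, h2⟩ := mem_succ hp
    have e1 : (c.NN n ω).ca p = ((c.NN n ω).cell ω.1).2.1 := by rw [← h2]; rfl
    have e2 : (c.NN n ω).cb p = ((c.NN n ω).cell ω.1).2.2 := by rw [← h2]; rfl
    rw [lo_succ, hi_succ, fold_max_lt, lt_fold_min]
    refine ⟨⟨(ih p h1).1, fun z hz => ?_⟩, (ih p h1).2, fun z hz => ?_⟩
    · obtain ⟨a1, a2, a3, -⟩ := mem_Cm hz
      exact (N.cone z a1 p h1 (by omega) (by omega)).1
    · obtain ⟨a1, a2, a3, -⟩ := mem_Cp hz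
      exact (N.cone p h1 z a1 (by omega) (by omega)).1

theorem np (h : c.Ok) {n : ℕ} (hn : n < c.nB) (ω : α × ℕ) :
    NP c.x c.y c.th c.A (c.EE n ω) (c.tn n (c.Wn n ω)) c.Z c.w c.M (c.st n ω).2.1 (c.st n ω).2.2
      c.η (c.B * c.ss n ω) (c.S * c.ss n ω) (c.NN n ω) := np_of h hn ω (poles h ω hn.le)

theorem st_congr {n : ℕ} {ω z : α × ℕ} (e : c.Wn n z = c.Wn n ω) (hz : z.1 ∈ c.EE n ω) :
    c.st n z = c.st n ω := by
  induction n with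
  | zero => unfold st; rw [t0_congr e, t1_congr e]
  | succ n ih =>
    have e' := Wn_le (Nat.le_succ n) e
    obtain ⟨h1, h2⟩ := mem_succ hz
    have := ih e' h1
    unfold st
    rw [t0_congr e, t1_congr e, e', this]
    exact congrArg (fun j => c.nx n (c.Wn n ω) (c.st n ω) j _ _) h2

theorem nd_at {n m : ℕ} (hm : m ≤ n) {ω z : α × ℕ} (e : c.nd n z = c.nd n ω) :
    c.Wn m z = c.Wn m ω ∧ c.st m z = c.st m ω := by
  have := congrFun e m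
  unfold nd at this
  rw [min_eq_left hm] at this
  exact Prod.ext_iff.1 this

theorem nd_iff (h : c.Ok) {n : ℕ} {ω z : α × ℕ} (hz : z ∈ c.SS) :
    c.nd n z = c.nd n ω ↔ c.Wn n z = c.Wn n ω ∧ z.1 ∈ c.EE n ω := by
  constructor
  · intro e
    obtain ⟨h1, h2⟩ := nd_at le_rfl e
    exact ⟨h1, by have := mem_EE h hz n; unfold EE at this ⊢; rwa [← h2]⟩
  · rintro ⟨h1, h2⟩
    funext m
    have hm := min_le_right m n
    exact Prod.ext (Wn_le hm h1) (st_congr (Wn_le hm h1) (EE_anti hm ω h2))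

theorem nd_le {m n : ℕ} (hm : m ≤ n) {ω z : α × ℕ} (e : c.nd n z = c.nd n ω) :
    c.nd m z = c.nd m ω := by
  funext k
  obtain ⟨h1, h2⟩ := nd_at ((min_le_right k m).trans hm) e
  exact Prod.ext h1 h2

theorem nd_EE {n : ℕ} {ω z : α × ℕ} (e : c.nd n z = c.nd n ω) : c.EE n z = c.EE n ω := by
  unfold EE; rw [(nd_at le_rfl e).2]

theorem nd_NN {n : ℕ} {ω z : α × ℕ} (e : c.nd n z = c.nd n ω) : c.NN n z = c.NN n ω := by
  unfold NN; rw [(nd_at le_rfl e).1, (nd_at le_rfl e).2]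

theorem nd_ss {n : ℕ} {ω z : α × ℕ} (e : c.nd n z = c.nd n ω) : c.ss n z = c.ss n ω := by
  unfold ss; rw [nd_EE e, t0_congr (nd_at le_rfl e).1, t1_congr (nd_at le_rfl e).1]

/-- the child is given by the window and the cell -/
theorem nd_succ (h : c.Ok) {n : ℕ} {ω z : α × ℕ} (hz : z ∈ c.SS) (e : c.nd n z = c.nd n ω)
    (e1 : c.Wn (n + 1) z = c.Wn (n + 1) ω)
    (e2 : (c.NN n ω).cell z.1 = (c.NN n ω).cell ω.1) : c.nd (n + 1) z = c.nd (n + 1) ω := by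
  refine (nd_iff h hz).2 ⟨e1, ?_⟩
  rw [EE_succ, ← t0_congr e1, ← t1_congr e1]
  exact act_win h hz _ (mem_filter.2 ⟨((nd_iff h hz).1 e).2, e2⟩)

theorem nd_cell (h : c.Ok) {n : ℕ} {ω z : α × ℕ} (hz : z ∈ c.SS)
    (e : c.nd (n + 1) z = c.nd (n + 1) ω) : (c.NN n ω).cell z.1 = (c.NN n ω).cell ω.1 :=
  (mem_succ ((nd_iff h hz).1 e).2).2

theorem ss_pos (h : c.Ok) {ω : α × ℕ} (hω : ω ∈ c.SS) (n : ℕ) :
    ((c.EE n ω).card : ℝ) ≤ c.ss n ω ∧ 0 < c.ss n ω := by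
  have h1 : ((c.EE n ω).card : ℝ) ≤ c.ss n ω := by
    unfold ss sz; rw [EE_act]; linarith [TV_nonneg' (A := c.A) (c.EE n ω) (c.t0 n ω) (c.t1 n ω)]
  exact ⟨h1, lt_of_lt_of_le (by exact_mod_cast card_pos.2 ⟨_, mem_EE h hω n⟩) h1⟩

end Ctx

end Pool.Agent.P.MP_77a832_co.EL
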