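import Pool.Agent.P.MP_77a832_co.EL.AStr

/-! The node process of an instance: the tests fail rarely. -/

set_option autoImplicit false

namespace Pool.Agent.P.MP_77a832_co.EL

open Finset Real Pool.Agent.P.MP_bf60a1_an.RA
open scoped Classical

section fw
variable {α : Type} {A : ℕ → Finset α} {E : Finset α} {τ : ℕ → ℕ} {K M : ℕ}
  {c : α → ℕ × ℕ × ℕ}

theorem fw_or {F G : ℕ → ℕ × ℕ × ℕ → Prop} {S T : ℝ} (h1 : fw A E τ K M c F ≤ S)
    (h2 : fw A E τ K M c G ≤ T) : fw A E τ K M c (fun i j => F i j ∨ G i j) ≤ S + T := by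
  refine le_trans ?_ (add_le_add h1 h2)
  unfold fw
  rw [← sum_add_distrib]
  refine sum_le_sum fun i _ => ?_
  rw [← sum_add_distrib]
  refine sum_le_sum fun j _ => ?_
  have := sz_nonneg' (A := A) (cel E c j) (τ i) (τ (i + 1))
  by_cases a : F i j <;> by_cases b : G i j <;> simp [a, b, this]

theorem fw_if {F : ℕ → ℕ × ℕ × ℕ → Prop} {r : Prop} {S : ℝ} (hS : 0 ≤ S)
    (h : r → fw A E τ K M c F ≤ S) : fw A E τ K M c (fun i j => r ∧ F i j) ≤ S := by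
  by_cases a : r
  · simpa [a] using h a
  · simpa [fw, a] using hS

theorem fw_eq (F : ℕ → ℕ × ℕ × ℕ → Prop) : fw A E τ K M c F =
    ∑ v ∈ range K ×ˢ (range M ×ˢ range M ×ˢ range M),
      if F v.1 v.2 then sz A (cel E c v.2) (τ v.1) (τ (v.1 + 1)) else 0 := by
  unfold fw; rw [sum_product]

end fw

namespace Ctx
variable {α : Type} (c : Ctx α)

/-- the children that fail a test -/
def badF (n : ℕ) (ω : α × ℕ) (i : ℕ) (j : ℕ × ℕ × ℕ) : Prop :=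
  (¬ c.th (c.tn n (c.Wn n ω) (i + 1)) - c.th (c.tn n (c.Wn n ω) i) ≤
    ((c.Z : ℝ) ^ c.w) ^ (-(1 - c.η)) *
      (c.th (c.tn n (c.Wn n ω) (c.Z ^ c.w)) - c.th (c.tn n (c.Wn n ω) 0))) ∨
  j ≠ (c.NN n ω).lv i ∨
  ((c.M : ℝ) ≤ c.ss n ω ∧ c.hv n (c.Wn n ω) (c.EE n ω) (c.NN n ω) j.2 ∧
    ¬ ∃ d, c.hv n (c.Wn n ω) (c.EE n ω) (c.NN n ω) d ∧ d.1 < j.2.1 ∧ d.2 < j.2.2) ∨
  ((c.M : ℝ) ≤ c.ss n ω ∧ c.hv n (c.Wn n ω) (c.EE n ω) (c.NN n ω) j.2 ∧
    ¬ ∃ d, c.hv n (c.Wn n ω) (c.EE n ω) (c.NN n ω) d ∧ j.2.1 < d.1 ∧ j.2.2 < d.2) ∨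
  ((c.M : ℝ) ≤ c.ss n ω ∧ (c.NN n ω).bx j.1) ∨
  (¬ (c.Z : ℝ) ^ 3 * TV c.A (cel (c.EE n ω) (c.NN n ω).cell j) (c.tn n (c.Wn n ω) i)
      (c.tn n (c.Wn n ω) (i + 1)) ≤ sz c.A (cel (c.EE n ω) (c.NN n ω).cell j)
      (c.tn n (c.Wn n ω) i) (c.tn n (c.Wn n ω) (i + 1))) ∨
  ((c.Z : ℝ) ^ 3 * TV c.A (c.EE n ω) (c.t0 n ω) (c.t1 n ω) ≤ c.ss n ω ∧
    ¬ (c.NN n ω).cl (i / c.Z ^ (c.w - 2)))

/-- the child of `ω` fails a test -/
def bad (n : ℕ) (ω : α × ℕ) : Prop := c.badF n ω (c.kk n ω) ((c.NN n ω).cell ω.1)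

variable {c}

theorem fw_bad (h : c.Ok) (hS : 0 ≤ c.S) {n : ℕ} (hn : n < c.nB) (ω : α × ℕ) :
    fw c.A (c.EE n ω) (c.tn n (c.Wn n ω)) (c.Z ^ c.w) c.M (c.NN n ω).cell (c.badF n ω) ≤
      7 * c.S * c.ss n ω := by
  have N := np h hn ω
  have h0 : 0 ≤ c.S * c.ss n ω := mul_nonneg hS (sz_nonneg' _ _ _)
  have e : sz c.A (c.EE n ω) (c.tn n (c.Wn n ω) 0) (c.tn n (c.Wn n ω) (c.Z ^ c.w)) = c.ss n ω := by
    rw [tn_zero hn, tn_top hn]; rfl
  have t3 := N.t3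
  have t4 := N.t4
  have t6 := N.t6
  rw [e] at t3 t4 t6
  rw [tn_zero hn, tn_top hn] at t6
  have := fw_or N.t1 (fw_or N.t2 (fw_or
    (fw_if h0 fun a => (t3 a (c.hv n (c.Wn n ω) (c.EE n ω) (c.NN n ω))).1) (fw_or
    (fw_if h0 fun a => (t3 a (c.hv n (c.Wn n ω) (c.EE n ω) (c.NN n ω))).2) (fw_or
    (fw_if h0 t4) (fw_or N.t5 (fw_if h0 t6))))))
  exact le_trans this (le_of_eq (by ring))

theorem badF_congr {n : ℕ} {ω z : α × ℕ} (e : c.nd n z = c.nd n ω) : c.badF n z = c.badF n ω := by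
  have e1 := (nd_at le_rfl e).1
  unfold badF
  rw [nd_ss e, nd_NN e, nd_EE e, t0_congr e1, t1_congr e1, e1]

theorem ss_succ {n : ℕ} (hn : n < c.nB) {ω z : α × ℕ} (e : c.nd n z = c.nd n ω) :
    c.ss (n + 1) z = sz c.A (cel (c.EE n ω) (c.NN n ω).cell ((c.NN n ω).cell z.1))
      (c.tn n (c.Wn n ω) (c.kk n z)) (c.tn n (c.Wn n ω) (c.kk n z + 1)) := by
  rw [← (nd_at le_rfl e).1, tn_kk hn, tn_kk1 hn, ← nd_NN e, ← nd_EE e, ← sz_act]
  rfl

theorem child_mem (h : c.Ok) {n : ℕ} (hn : n < c.nB) {ω z : α × ℕ} (hz : z ∈ c.SS)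
    (e : c.nd n z = c.nd n ω) : (c.kk n z, (c.NN n ω).cell z.1) ∈
      range (c.Z ^ c.w) ×ˢ (range c.M ×ˢ range c.M ×ˢ range c.M) := by
  have hZ : 0 < c.Z := by have := h.hZ; omega
  have l := (np h hn ω).lt _ ((nd_iff h hz).1 e).2
  have : c.kk n z < c.Z ^ c.w := Nat.mod_lt _ (pow_pos hZ _)
  simpa [ND.cell, this] using l

theorem child_det (h : c.Ok) {n : ℕ} (hn : n < c.nB) (ω z : c.SS) (e : c.nd n z.1 = c.nd n ω.1)
    (e' : (c.kk n z.1, (c.NN n z.1).cell z.1.1) = (c.kk n ω.1, (c.NN n ω.1).cell ω.1.1)) :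
    c.nd (n + 1) z.1 = c.nd (n + 1) ω.1 := by
  obtain ⟨e1, e2⟩ := Prod.ext_iff.1 e'
  simp only at e1 e2
  rw [nd_NN e] at e2
  refine nd_succ h z.2 e ?_ e2
  rw [← Wn_kk hn, ← Wn_kk hn, e1, (nd_at le_rfl e).1]

theorem tel (hT : S_TEL) (h : c.Ok) (hS : 0 < c.S) (hB : 7 * c.S ≤ c.B) :
    log (c.B / (7 * c.S)) * ∑ n ∈ range c.nB, (Q h).pr (fun ω => c.bad n ω.1) ≤
      c.nB * log (2 * c.B) + ((Q h).H (fun ω => c.nd 0 ω.1) + (Q h).E fun ω => log (c.ss 0 ω.1)) -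
      ((Q h).H (fun ω => c.nd c.nB ω.1) + (Q h).E fun ω => log (c.ss c.nB ω.1)) := by
  refine hT _ _ _ (Q h) (fun n ω => c.nd n ω.1) (fun n ω => (c.kk n ω.1, (c.NN n ω.1).cell ω.1.1))
    (fun n ω => c.ss n ω.1) (fun n ω => c.bad n ω.1) c.nB c.B (7 * c.S) (Q_pos h) (by positivity) hB
    (fun n _ ω => (ss_pos h ω.2 n).2) (fun n _ ω z e => nd_ss e)
    (fun n hn ω z e e' => child_det h hn ω z e e') fun n hn ω => ?_
  refine ⟨range (c.Z ^ c.w) ×ˢ (range c.M ×ˢ range c.M ×ˢ range c.M),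
    fun v => sz c.A (cel (c.EE n ω.1) (c.NN n ω.1).cell v.2)
      (c.tn n (c.Wn n ω.1) v.1) (c.tn n (c.Wn n ω.1) (v.1 + 1)),
    fun v => if c.badF n ω.1 v.1 v.2 then sz c.A (cel (c.EE n ω.1) (c.NN n ω.1).cell v.2)
      (c.tn n (c.Wn n ω.1) v.1) (c.tn n (c.Wn n ω.1) (v.1 + 1)) else 0,
    fun v _ => ?_, fun v _ => ?_, ?_, ?_, fun z e => ?_⟩
  · exact sz_nonneg' _ _ _
  · beta_reduce
    split_ifs
    · exact sz_nonneg' _ _ _
    · exact le_rfl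
  · have := (np h hn ω.1).tot
    rw [fw_eq] at this
    simpa only [if_true] using this
  · have := fw_bad h hS.le hn ω.1
    rwa [fw_eq] at this
  · have e : c.nd n z.1 = c.nd n ω.1 := e
    simp only
    rw [nd_NN e]
    refine ⟨child_mem h hn z.2 e, by rw [ss_succ hn e], fun b => ?_⟩
    unfold bad at b
    rw [badF_congr e, nd_NN e] at b
    rw [if_pos b, ss_succ hn e]

theorem wt_le (h : c.Ok) (n i : ℕ) (p : α) : c.wt n i p ≤ (c.Z : ℝ) ^ c.ht n := by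
  have hZ : 0 < c.Z ^ c.ht n := pow_pos (by have := h.hZ; omega) _
  unfold wt
  have : ((range (c.Z ^ ((c.nB + 1) * c.w))).filter fun B => B / c.Z ^ c.ht n = i ∧
      p ∈ KS.act c.A c.P (c.τ B) (c.τ (B + 1))).card ≤ (range (c.Z ^ c.ht n)).card := by
    refine card_le_card_of_injOn (fun B => B % c.Z ^ c.ht n)
      (fun B _ => mem_coe.2 (mem_range.2 (Nat.mod_lt _ hZ))) fun B hB B' hB' e => ?_
    have e1 := (mem_filter.1 (mem_coe.1 hB)).2.1
    have e2 := (mem_filter.1 (mem_coe.1 hB')).2.1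
    simp only at e
    rw [← Nat.div_add_mod B (c.Z ^ c.ht n), ← Nat.div_add_mod B' (c.Z ^ c.ht n), e, e1, e2]
  rw [card_range] at this
  exact_mod_cast this

theorem cl_le (h : c.Ok) (n : ℕ) (ω : c.SS) : (Q h).cl (fun z => c.nd n z.1) ω ≤
    c.ss n ω.1 * (c.Z : ℝ) ^ c.ht n / c.SS.card := by
  rw [cl_nd]
  refine div_le_div_of_nonneg_right ?_ (card_SS_pos h).le
  refine (sum_le_card_nsmul _ _ _ fun p _ => wt_le h n _ p).trans ?_
  rw [nsmul_eq_mul]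
  exact mul_le_mul_of_nonneg_right (ss_pos h ω.2 n).1 (by positivity)

theorem bottom (h : c.Ok) : log c.SS.card - c.w * log c.Z ≤
    (Q h).H (fun ω => c.nd c.nB ω.1) + (Q h).E fun ω => log (c.ss c.nB ω.1) := by
  have hZ : (1 : ℝ) ≤ c.Z := by exact_mod_cast le_trans one_le_two h.hZ
  unfold FP.H
  rw [← FP.E_add]
  refine (Q h).le_E fun ω hω => ?_
  have s0 := (ss_pos h ω.2 c.nB).2
  have T0 := card_SS_pos h
  have := log_le_log ((Q h).cl_pos _ hω) (cl_le h c.nB ω)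
  rw [log_div (by positivity) T0.ne', log_mul s0.ne' (by positivity), log_pow] at this
  have e : (c.ht c.nB : ℝ) ≤ c.w := by
    have := h.h2
    unfold ht; simp; exact_mod_cast this
  nlinarith [log_nonneg hZ]

theorem W0_lt (h : c.Ok) {ω : α × ℕ} (hω : ω ∈ c.SS) : c.Wn 0 ω < c.Z ^ (c.w - c.h₀) := by
  have := h.h2
  unfold Wn
  rw [Nat.div_lt_iff_lt_mul (pow_pos (by have := h.hZ; omega) _), ← pow_add]
  refine (mem_SS.1 hω).1.trans_le (le_of_eq ?_)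
  congr 1
  unfold ht
  rw [Nat.sub_zero, add_mul, one_mul]; omega

theorem nd_zero (h : c.Ok) (ω z : c.SS) (e : c.Wn 0 z.1 = c.Wn 0 ω.1) :
    c.nd 0 z.1 = c.nd 0 ω.1 := by
  refine (nd_iff h z.2).2 ⟨e, ?_⟩
  have := mem_EE h z.2 0
  unfold EE st at this ⊢
  rwa [t0_congr e, t1_congr e] at this

theorem top (hC : S_CLS) (h : c.Ok) {g C : ℝ} (hA : HA g C) (hg : g ≤ 1) (hC1 : 1 ≤ C) :
    ((Q h).H (fun ω => c.nd 0 ω.1) + (Q h).E fun ω => log (c.ss 0 ω.1)) ≤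
      log (C * (c.Z : ℝ) ^ c.w * sz c.A c.P (c.τ 0) (c.τ (c.Z ^ ((c.nB + 1) * c.w)))) := by
  have hZ : (1 : ℝ) ≤ c.Z := by exact_mod_cast le_trans one_le_two h.hZ
  have hZ' : 0 < c.Z := by have := h.hZ; omega
  rw [add_comm]
  refine (Q h).gibbs _ (fun ω _ => (ss_pos h ω.2 0).2) ?_
  refine (hC _ Unit _ ℕ (Q h) (fun _ => ()) (fun ω => c.nd 0 ω.1) (fun ω => c.Wn 0 ω.1)
    (fun ω => c.ss 0 ω.1) (fun _ => C * (c.Z : ℝ) ^ c.w *
      sz c.A c.P (c.τ 0) (c.τ (c.Z ^ ((c.nB + 1) * c.w)))) (Q_pos h)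
    (fun ω z _ e => nd_zero h ω z e) (fun ω => sz_nonneg' _ _ _) fun ω => ?_).trans ?_
  · refine ⟨range (c.Z ^ (c.w - c.h₀)),
      fun i => sz c.A c.P (c.τ (i * c.Z ^ c.ht 0)) (c.τ ((i + 1) * c.Z ^ c.ht 0)),
      fun _ _ => sz_nonneg' _ _ _, ?_, fun z _ => ⟨mem_range.2 (W0_lt h z.2), ?_⟩⟩
    · have := hA _ _ _ _ _ _ _ h.lin (fun i => c.τ (i * c.Z ^ c.ht 0)) (c.Z ^ (c.w - c.h₀))
        (fun _ _ hab => h.mono (Nat.mul_le_mul_right _ hab)) (pow_pos hZ' _)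
      have e : c.Z ^ (c.w - c.h₀) * c.Z ^ c.ht 0 = c.Z ^ ((c.nB + 1) * c.w) := by
        have := h.h2
        rw [← pow_add]; congr 1; unfold ht; rw [Nat.sub_zero, add_mul, one_mul]; omega
      simp only [zero_mul, e] at this
      refine this.trans (mul_le_mul_of_nonneg_right
        (mul_le_mul_of_nonneg_left ?_ (by linarith)) (sz_nonneg' _ _ _))
      push_cast
      calc _ ≤ ((c.Z : ℝ) ^ (c.w - c.h₀)) ^ (1 : ℝ) :=
            rpow_le_rpow_of_exponent_le (one_le_pow₀ hZ) hg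
        _ ≤ _ := by rw [rpow_one]; exact pow_le_pow_right₀ hZ (Nat.sub_le _ _)
    · exact le_of_eq (sz_act _ _ _)
  · refine (Q h).E_le fun ω _ => le_of_eq ?_
    rw [FP.cl, (Q h).pr_eq_one fun _ _ => rfl, div_one]

theorem count (hC : S_CLS) (h : c.Ok) {n : ℕ} (hn : n ≤ c.nB) :
    ((Q h).E fun ω => 1 / (Q h).cl (fun z => c.nd n z.1) ω) ≤
      ((c.Z : ℝ) ^ c.w * c.M ^ 3) ^ (n + 1) := by
  have hZ : (1 : ℝ) ≤ c.Z := by exact_mod_cast le_trans one_le_two h.hZ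
  have hM : (1 : ℝ) ≤ c.M := by exact_mod_cast h.hM
  induction n with
  | zero =>
    refine (hC _ Unit _ ℕ (Q h) (fun _ => ()) (fun ω => c.nd 0 ω.1) (fun ω => c.Wn 0 ω.1)
      (fun _ => 1) (fun _ => ((c.Z : ℝ) ^ c.w * c.M ^ 3) ^ (0 + 1)) (Q_pos h)
      (fun ω z _ e => nd_zero h ω z e) (fun ω => zero_le_one) fun ω => ?_).trans ?_
    · refine ⟨range (c.Z ^ (c.w - c.h₀)), fun _ => 1, fun _ _ => zero_le_one, ?_,
        fun z _ => ⟨mem_range.2 (W0_lt h z.2), le_rfl⟩⟩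
      simp only [sum_const, card_range, nsmul_eq_mul, mul_one, zero_add, pow_one]
      push_cast
      exact (pow_le_pow_right₀ hZ (Nat.sub_le _ _)).trans
        (le_mul_of_one_le_right (by positivity) (one_le_pow₀ hM))
    · refine (Q h).E_le fun ω _ => le_of_eq ?_
      rw [FP.cl, (Q h).pr_eq_one fun _ _ => rfl, div_one]
  | succ n ih =>
    have ih := ih (by omega)
    refine (hC _ _ _ _ (Q h) (fun ω => c.nd n ω.1) (fun ω => c.nd (n + 1) ω.1)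
      (fun ω => (c.kk n ω.1, (c.NN n ω.1).cell ω.1.1)) (fun _ => 1)
      (fun _ => (c.Z : ℝ) ^ c.w * c.M ^ 3) (Q_pos h)
      (fun ω z e e' => child_det h hn ω z e e') (fun ω => zero_le_one) fun ω => ?_).trans ?_
    · refine ⟨range (c.Z ^ c.w) ×ˢ (range c.M ×ˢ range c.M ×ˢ range c.M), fun _ => 1,
        fun _ _ => zero_le_one, le_of_eq ?_, fun z e => ⟨?_, le_rfl⟩⟩
      · simp only [sum_const, card_product, card_range, nsmul_eq_mul]
        push_cast; ring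
      · have e : c.nd n z.1 = c.nd n ω.1 := e
        rw [nd_NN e]; exact child_mem h hn z.2 e
    · rw [pow_succ' _ (n + 1)]
      refine le_trans (le_of_eq ?_) (mul_le_mul_of_nonneg_left ih (by positivity))
      rw [← FP.E_mul_left]
      exact (Q h).E_congr fun ω _ => by rw [mul_one_div]

theorem small (hC : S_CLS) (h : c.Ok) {n : ℕ} (hn : n ≤ c.nB) :
    ((Q h).pr fun ω => c.ss n ω.1 < c.M) ≤ c.M * (c.Z : ℝ) ^ ((c.nB + 1) * c.w) / c.SS.card *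
      ((c.Z : ℝ) ^ c.w * c.M ^ 3) ^ (c.nB + 1) := by
  have hZ : (1 : ℝ) ≤ c.Z := by exact_mod_cast le_trans one_le_two h.hZ
  have hM : (1 : ℝ) ≤ c.M := by exact_mod_cast h.hM
  have T0 := card_SS_pos h
  have h1 := (count hC h hn).trans (pow_le_pow_right₀
    (one_le_mul_of_one_le_of_one_le (one_le_pow₀ hZ) (one_le_pow₀ hM)) (Nat.succ_le_succ hn))
  refine le_trans ?_ (mul_le_mul_of_nonneg_left h1 (by positivity))
  rw [← FP.E_mul_left]
  refine (Q h).E_mono fun ω hω => ?_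
  have c0 := (Q h).cl_pos (fun z => c.nd n z.1) hω
  by_cases a : c.ss n ω.1 < c.M
  · rw [ind_pos a, mul_one_div, one_le_div c0]
    refine (cl_le h n ω).trans (div_le_div_of_nonneg_right ?_ T0.le)
    refine mul_le_mul a.le (pow_le_pow_right₀ hZ ?_) (by positivity) (by positivity)
    have := h.h2
    have := Nat.mul_le_mul_right c.w (Nat.sub_le c.nB n)
    unfold ht; rw [add_mul, one_mul]; omega
  · rw [ind_neg a]; positivity

theorem light (hC : S_CLS) (h : c.Ok) (hζ : 0 ≤ c.ζ) {n : ℕ} (hn : n < c.nB) :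
    ((Q h).pr fun ω => ¬ c.hv n (c.Wn n ω.1) (c.EE n ω.1) (c.NN n ω.1)
      ((c.NN n ω.1).cell ω.1.1).2) ≤ c.ζ / 4 := by
  have hM : (0 : ℝ) < c.M := by exact_mod_cast h.hM
  have T0 := card_SS_pos h
  have := hC _ _ _ _ (Q h) (fun ω => c.nd n ω.1)
    (fun ω => (c.nd n ω.1, ((c.NN n ω.1).cell ω.1.1).2)) (fun ω => ((c.NN n ω.1).cell ω.1.1).2)
    (fun ω => ind (¬ c.hv n (c.Wn n ω.1) (c.EE n ω.1) (c.NN n ω.1) ((c.NN n ω.1).cell ω.1.1).2) *
      (Q h).cl (fun ω => (c.nd n ω.1, ((c.NN n ω.1).cell ω.1.1).2)) ω)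
    (fun ω => c.ζ / 4 * (Q h).cl (fun ω => c.nd n ω.1) ω) (Q_pos h)
    (fun ω z e e' => Prod.ext e e') (fun ω => mul_nonneg (ind_nonneg _) ((Q h).cl_nonneg _ _))
    fun ω => ?_
  · refine le_trans (le_of_eq ?_) (this.trans ((Q h).E_le fun ω hω => le_of_eq ?_))
    · exact (Q h).E_congr fun ω hω => (mul_div_cancel_right₀ _ ((Q h).cl_pos _ hω).ne').symm
    · exact mul_div_cancel_right₀ _ ((Q h).cl_pos _ hω).ne'
  · have c0 := (Q h).cl_nonneg (fun ω => c.nd n ω.1) ω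
    refine ⟨range c.M ×ˢ range c.M,
      fun _ => c.ζ / (2 * c.M) ^ 2 * (Q h).cl (fun ω => c.nd n ω.1) ω,
      fun _ _ => by positivity, le_of_eq ?_, fun z e => ?_⟩
    · simp only [sum_const, card_product, card_range, nsmul_eq_mul]
      push_cast; field_simp; ring
    · have e : c.nd n z.1 = c.nd n ω.1 := e
      have l := (np h hn z.1).lt _ (mem_EE h z.2 n)
      refine ⟨by simpa [ND.cell] using l.2, ?_⟩
      by_cases a : c.hv n (c.Wn n z.1) (c.EE n z.1) (c.NN n z.1) ((c.NN n z.1).cell z.1.1).2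
      · rw [ind_neg (not_not.2 a), zero_mul]; positivity
      · rw [ind_pos a, one_mul]
        have e1 : (Q h).cl (fun ω => (c.nd n ω.1, ((c.NN n ω.1).cell ω.1.1).2)) z =
            (Q h).pr fun u => c.nd n u.1 = c.nd n z.1 ∧
              u.1.1 ∈ c2 (c.EE n z.1) (c.NN n z.1) ((c.NN n z.1).cell z.1.1).2 := by
          refine (Q h).pr_congr fun u _ => ?_
          rw [Prod.mk.injEq]
          refine and_congr_right fun eu => ?_
          rw [nd_NN eu]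
          exact ⟨fun b => mem_filter.2 ⟨((nd_iff h u.2).1 eu).2, b⟩, fun b => (mem_filter.1 b).2⟩
        have e2 : (Q h).cl (fun ω => c.nd n ω.1) ω = (Q h).cl (fun ω => c.nd n ω.1) z := by
          unfold FP.cl; simp only [e]
        beta_reduce
        rw [e1, e2, pr_nd h n z.1 (C := c2 _ _ _) (filter_subset _ _), cl_nd, ← mul_div_assoc]
        exact div_le_div_of_nonneg_right (not_le.1 a).le T0.le

theorem shift (f : ℕ → ℝ) (hf : ∀ n, 0 ≤ f n) (N : ℕ) :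
    ∑ n ∈ range N, (if n + 1 < N then f (n + 1) else 0) ≤ ∑ n ∈ range N, f n := by
  cases N with
  | zero => simp
  | succ N =>
    rw [sum_range_succ, if_neg (lt_irrefl _), add_zero, sum_range_succ']
    refine le_trans (le_of_eq (sum_congr rfl fun n hn => if_pos ?_)) (le_add_of_nonneg_right (hf 0))
    exact Nat.succ_lt_succ (mem_range.1 hn)

theorem rare (hC : S_CLS) (h : c.Ok) {κ : ℕ} (hκ : c.Z = 2 ^ κ) (hζ : 0 ≤ c.ζ)
    (h1 : 1 ≤ c.ζ / 8 * c.nB)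
    (h2 : ∑ n ∈ range c.nB, (Q h).pr (fun ω => c.bad n ω.1) ≤ c.ζ / 8 * c.nB)
    (h3 : c.M * (c.Z : ℝ) ^ ((c.nB + 1) * c.w) / c.SS.card *
      ((c.Z : ℝ) ^ c.w * c.M ^ 3) ^ (c.nB + 1) ≤ c.ζ / 8) :
    (pd h).Rare c.nB (c.w * κ) c.η c.ζ := by
  have h0 : 0 ≤ c.ζ * c.nB := by positivity
  have hb : ∀ n, 0 ≤ (Q h).pr fun ω => c.bad n ω.1 := fun n => (Q h).pr_nonneg _
  have hs : ∀ n ≤ c.nB, ((Q h).pr fun ω => c.ss n ω.1 < c.M) ≤ c.ζ / 8 := fun n hn =>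
    (small hC h hn).trans h3
  refine ⟨le_trans (sum_le_sum fun n _ => (Q h).pr_mono fun ω _ a => ?_) (h2.trans (by linarith)),
    ?_, ?_, le_trans (sum_le_sum fun n hn => (Q h).pr_mono fun ω _ a => ?_)
      (h2.trans (by linarith))⟩
  · exact Or.inr (Or.inl a)
  · obtain ⟨N, hN⟩ : ∃ N, c.nB = N + 1 := by
      refine Nat.exists_eq_succ_of_ne_zero fun e => ?_
      rw [e] at h1; norm_num at h1
    have a1 : ∑ n ∈ range N, (pd h).Q.pr (fun ω => ¬ (pd h).clean (n + 1) ω) ≤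
        ∑ n ∈ range N, (((Q h).pr fun ω => c.bad n ω.1) + (Q h).pr fun ω => c.bad (n + 1) ω.1) := by
      refine sum_le_sum fun n hn => le_trans ((Q h).pr_mono fun ω _ a => ?_) ((Q h).pr_or_le _ _)
      have hn : n < c.nB := by have := mem_range.1 hn; omega
      by_cases b : (c.Z : ℝ) ^ 3 * TV c.A (c.EE (n + 1) ω.1) (c.t0 (n + 1) ω.1)
          (c.t1 (n + 1) ω.1) ≤ c.ss (n + 1) ω.1
      · exact Or.inr (Or.inr (Or.inr (Or.inr (Or.inr (Or.inr (Or.inr ⟨b, a⟩))))))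
      · refine Or.inl (Or.inr (Or.inr (Or.inr (Or.inr (Or.inr (Or.inl ?_))))))
        rw [ss_succ hn rfl, EE_succ, TV_act, ← tn_kk hn, ← tn_kk1 hn] at b
        exact b
    have a2 := sum_range_succ (fun n => (Q h).pr fun ω => c.bad n ω.1) N
    have a3 := sum_range_succ' (fun n => (Q h).pr fun ω => c.bad n ω.1) N
    have a4 := (pd h).Q.pr_le_one fun ω => ¬ (pd h).clean 0 ω
    rw [sum_add_distrib] at a1
    rw [← hN] at a2 a3
    have a5 := sum_range_succ' (fun n => (pd h).Q.pr fun ω => ¬ (pd h).clean n ω) N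
    rw [← hN] at a5
    linarith [hb 0, hb N]
  · have a1 : ∀ n ∈ range c.nB, (pd h).Q.pr (fun ω => ¬ (pd h).ok n ω) ≤
        (if n + 1 = c.nB then 1 else 0) + (c.ζ / 2 + ((Q h).pr (fun ω => c.bad n ω.1) +
          if n + 1 < c.nB then (Q h).pr (fun ω => c.bad (n + 1) ω.1) else 0)) := by
      intro n hn
      have hn := mem_range.1 hn
      by_cases a : n + 1 < c.nB
      · rw [if_neg a.ne, if_pos a]
        have b1 := hs n hn.le
        have b2 := hs (n + 1) a.le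
        have b3 := light hC h hζ hn
        refine le_trans ((Q h).pr_mono (t := fun ω => (c.ss n ω.1 < c.M ∨ c.ss (n + 1) ω.1 < c.M) ∨
          (¬ c.hv n (c.Wn n ω.1) (c.EE n ω.1) (c.NN n ω.1) ((c.NN n ω.1).cell ω.1.1).2 ∨
            (c.bad n ω.1 ∨ c.bad (n + 1) ω.1))) fun ω _ o => ?_) ?_
        · by_contra hc
          simp only [not_or, not_lt, not_not] at hc
          obtain ⟨⟨c1, c2⟩, c3, c4, c5⟩ := hc
          refine o ⟨a, ⟨?_, ?_⟩, fun d => ?_⟩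
          · by_contra d
            exact c4 (Or.inr (Or.inr (Or.inl ⟨c1, c3, d⟩)))
          · by_contra d
            exact c4 (Or.inr (Or.inr (Or.inr (Or.inl ⟨c1, c3, d⟩))))
          · exact c5 (Or.inr (Or.inr (Or.inr (Or.inr (Or.inl ⟨c2, d⟩)))))
        · refine ((Q h).pr_or_le _ _).trans ?_
          refine (add_le_add ((Q h).pr_or_le _ _) (((Q h).pr_or_le _ _).trans
            (add_le_add le_rfl ((Q h).pr_or_le _ _)))).trans ?_
          linarith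
      · rw [if_pos (by omega), if_neg a]
        linarith [(pd h).Q.pr_le_one fun ω => ¬ (pd h).ok n ω, hb n]
    refine (sum_le_sum a1).trans ?_
    have a2 : ∑ n ∈ range c.nB, (if n + 1 = c.nB then (1 : ℝ) else 0) ≤ 1 := by
      rw [← sum_filter, sum_const, nsmul_eq_mul, mul_one]
      exact_mod_cast card_le_one.2 fun a ha b hb => by
        have := (mem_filter.1 ha).2; have := (mem_filter.1 hb).2; omega
    have a3 := shift _ hb c.nB
    simp only [sum_add_distrib, sum_const, card_range, nsmul_eq_mul]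
    linarith
  · refine Or.inl fun b => a ?_
    have hn := mem_range.1 hn
    rw [tn_kk hn, tn_kk1 hn, tn_zero hn, tn_top hn] at b
    have e : ((c.Z : ℝ) ^ c.w) ^ (-(1 - c.η)) = (2 : ℝ) ^ (-(1 - c.η) * (c.w * κ : ℕ)) := by
      rw [hκ, mul_comm (-(1 - c.η)), rpow_mul zero_le_two, rpow_natCast]
      push_cast
      rw [← pow_mul, mul_comm κ]
    rw [e] at b
    exact b

end Ctx

end Pool.Agent.P.MP_77a832_co.EL
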