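import Pool.Agent.P.MP_77a832_co.EL.AProc

/-! The node process of an instance: pointwise properties. -/

set_option autoImplicit false

namespace Pool.Agent.P.MP_77a832_co.EL

open Finset Real Pool.Agent.P.MP_bf60a1_an.RA
open scoped Classical

namespace Ctx
variable {α : Type} {c : Ctx α}

/-- the uniform law -/
noncomputable def Q (h : c.Ok) : FP c.SS where
  p := fun _ => (c.SS.card : ℝ)⁻¹
  nn := fun _ => by positivity
  one := by
    have : (c.SS.card : ℝ) ≠ 0 := by exact_mod_cast (card_pos.2 h.ne).ne'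
    simp [this]

theorem card_SS_pos (h : c.Ok) : (0 : ℝ) < c.SS.card := by exact_mod_cast card_pos.2 h.ne

theorem Q_pos (h : c.Ok) (ω : c.SS) : 0 < (Q h).p ω := inv_pos.2 (card_SS_pos h)

theorem Q_pr (h : c.Ok) (r : α × ℕ → Prop) [DecidablePred r] :
    ((Q h).pr fun ω => r ω.1) = (c.SS.filter r).card / c.SS.card := by
  unfold FP.pr FP.E Q
  simp only
  rw [← mul_sum, sum_coe_sort c.SS fun ω => ind (r ω), card_filter, div_eq_inv_mul]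
  congr 1
  push_cast
  exact sum_congr rfl fun ω _ => by unfold ind; congr

theorem cnt (n i : ℕ) (C : Finset α) :
    ((c.SS.filter fun z => c.Wn n z = i ∧ z.1 ∈ C).card : ℝ) = ∑ p ∈ C, c.wt n i p := by
  rw [card_eq_sum_card_fiberwise (f := Prod.fst) (t := C)
    fun z hz => (mem_filter.1 (mem_coe.1 hz)).2.2]
  push_cast
  refine sum_congr rfl fun p hp => ?_
  unfold wt
  congr 1
  refine card_bij (fun z _ => z.2) (fun z hz => ?_) (fun z hz z' hz' e => ?_) fun B hB => ?_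
  · simp only [mem_filter, mem_SS, mem_range] at hz ⊢
    exact ⟨hz.1.1.1, hz.1.2.1, hz.2 ▸ hz.1.1.2⟩
  · exact Prod.ext ((mem_filter.1 hz).2.trans (mem_filter.1 hz').2.symm) e
  · simp only [mem_filter, mem_range] at hB
    exact ⟨(p, B), by simp only [mem_filter, mem_SS]; exact ⟨⟨⟨hB.1, hB.2.2⟩, hB.2.1, hp⟩, trivial⟩,
      rfl⟩

/-- mass of a part of a node -/
theorem pr_nd (h : c.Ok) (n : ℕ) (ω : α × ℕ) {C : Finset α} (hC : C ⊆ c.EE n ω) :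
    ((Q h).pr fun z => c.nd n z.1 = c.nd n ω ∧ z.1.1 ∈ C) =
      (∑ p ∈ C, c.wt n (c.Wn n ω) p) / c.SS.card := by
  rw [← cnt, ← Q_pr h]
  refine (Q h).pr_congr fun z _ => ?_
  rw [nd_iff h z.2]
  exact ⟨fun a => ⟨a.1.1, a.2⟩, fun a => ⟨⟨a.1, hC a.2⟩, a.2⟩⟩

theorem cl_nd (h : c.Ok) (n : ℕ) (ω : c.SS) : (Q h).cl (fun z => c.nd n z.1) ω =
    (∑ p ∈ c.EE n ω.1, c.wt n (c.Wn n ω.1) p) / c.SS.card := by
  rw [← pr_nd h n ω.1 Subset.rfl]
  exact (Q h).pr_congr fun z _ => ⟨fun a => ⟨a, ((nd_iff h z.2).1 a).2⟩, fun a => a.1⟩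

variable (c)
/-- window at depth `d` below the level `n` -/
def Vd (d n : ℕ) (ω : α × ℕ) : ℕ := ω.2 / c.Z ^ (c.ht n - d)
/-- number of the window of depth two -/
def vv (n : ℕ) (ω : α × ℕ) : ℕ := c.kk n ω / c.Z ^ (c.w - 2)
/-- both heavy neighbours exist -/
def band (n : ℕ) (ω : α × ℕ) : Prop :=
  (∃ d, c.hv n (c.Wn n ω) (c.EE n ω) (c.NN n ω) d ∧ d.1 < ((c.NN n ω).cell ω.1).2.1 ∧
    d.2 < ((c.NN n ω).cell ω.1).2.2) ∧
  ∃ d, c.hv n (c.Wn n ω) (c.EE n ω) (c.NN n ω) d ∧ ((c.NN n ω).cell ω.1).2.1 < d.1 ∧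
    ((c.NN n ω).cell ω.1).2.2 < d.2
/-- the twin is taken on the left -/
def left (n : ℕ) (ω : α × ℕ) : Prop :=
  ∀ z ∈ c.CM n ω, ∃ z' ∈ c.CP n ω, c.x ω.1 - c.x z ≤ c.x z' - c.x ω.1
/-- the cell of the twin -/
noncomputable def CT (n : ℕ) (ω : α × ℕ) : Finset α :=
  if c.left n ω then c.CM n ω else c.CP n ω
variable {c}

/-- the process -/
noncomputable def pd (h : c.Ok) : PD c.SS α (ℕ → ℕ × Finset α × ℝ × ℝ) where
  Q := Q h
  pt := fun ω => ω.1.1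
  x := c.x
  y := c.y
  W := fun n ω => c.Wn n ω.1
  V1 := fun n ω => c.Vd 1 n ω.1
  V2 := fun n ω => c.Vd 2 n ω.1
  lo := fun n ω => c.th (c.t0 n ω.1)
  hi := fun n ω => c.th (c.t1 n ω.1)
  lo2 := fun n ω => c.th (c.τ (c.Vd 2 n ω.1 * c.Z ^ (c.ht n - 2)))
  hi2 := fun n ω => c.th (c.τ ((c.Vd 2 n ω.1 + 1) * c.Z ^ (c.ht n - 2)))
  Nd := fun n ω => c.nd n ω.1
  live := fun n ω => (c.NN n ω.1).cell ω.1.1 = (c.NN n ω.1).lv (c.kk n ω.1)
  clean := fun n ω => (c.NN n ω.1).cl (c.vv n ω.1)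
  ok := fun n ω => n + 2 ≤ c.nB ∧ c.band n ω.1 ∧
    ¬ (c.NN (n + 1) ω.1).bx ((c.NN (n + 1) ω.1).cx ω.1.1)
  tw := fun n ω z => c.nd n z.1 = c.nd n ω.1 ∧ z.1.1 ∈ c.CT n ω.1

theorem few_div {Ω : Type} [Fintype Ω] (R : FP Ω) (f : Ω → ℕ) {Z a d : ℕ} (hZ : 0 < Z) {N : ℝ}
    (hN : ((Z ^ d : ℕ) : ℝ) ≤ N) : Few R (fun ω => f ω / Z ^ a) (fun ω => f ω / Z ^ (a + d)) N := by
  intro ω _
  refine ⟨(range (Z ^ d)).image fun r => f ω / Z ^ (a + d) * Z ^ d + r, ?_, fun z _ e => ?_⟩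
  · exact le_trans (by exact_mod_cast card_image_le.trans (card_range _).le) hN
  · refine mem_image.2 ⟨f z / Z ^ a % Z ^ d, mem_range.2 (Nat.mod_lt _ (pow_pos hZ d)), ?_⟩
    simp only at e
    rw [← e, pow_add, ← Nat.div_div_eq_div_mul, Nat.div_add_mod']

theorem Vd_two (h : c.Ok) {n : ℕ} (hn : n < c.nB) (ω : α × ℕ) :
    c.Vd 2 n ω = c.Wn n ω * c.Z ^ 2 + c.vv n ω ∧ c.vv n ω < c.Z ^ 2 ∧
      c.Vd 1 n ω = c.Wn n ω * c.Z + c.vv n ω / c.Z := by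
  have hZ : 0 < c.Z := by have := h.hZ; omega
  have hw := h.hw
  have e0 : c.Z ^ c.w = c.Z ^ 2 * c.Z ^ (c.w - 2) := by rw [← pow_add]; congr 1; omega
  have e1 : c.Vd 2 n ω = c.Wn (n + 1) ω / c.Z ^ (c.w - 2) := by
    unfold Vd Wn
    rw [Nat.div_div_eq_div_mul, ← pow_add, ht_succ hn]; congr 2; omega
  have e2 : c.Vd 2 n ω = c.Wn n ω * c.Z ^ 2 + c.vv n ω := by
    rw [e1, ← Wn_kk hn, e0, ← mul_assoc, add_comm, Nat.add_mul_div_right _ _ (pow_pos hZ _),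
      add_comm]
    rfl
  refine ⟨e2, ?_, ?_⟩
  · unfold vv
    rw [Nat.div_lt_iff_lt_mul (pow_pos hZ _), ← e0]
    exact Nat.mod_lt _ (pow_pos hZ _)
  · have e3 : c.Vd 1 n ω = c.Vd 2 n ω / c.Z := by
      unfold Vd
      rw [Nat.div_div_eq_div_mul, ← pow_succ, ht_succ hn]; congr 2; omega
    rw [e3, e2, pow_two, ← mul_assoc, add_comm, Nat.add_mul_div_right _ _ hZ, add_comm]

theorem tn_vv (h : c.Ok) {n : ℕ} (hn : n < c.nB) (ω : α × ℕ) (e : ℕ) :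
    c.tn n (c.Wn n ω) ((c.vv n ω + e) * c.Z ^ (c.w - 2)) =
      c.τ ((c.Vd 2 n ω + e) * c.Z ^ (c.ht n - 2)) := by
  have hw := h.hw
  have e0 : c.Z ^ c.w = c.Z ^ 2 * c.Z ^ (c.w - 2) := by rw [← pow_add]; congr 1; omega
  have e1 : c.Z ^ (c.ht n - 2) = c.Z ^ (c.w - 2) * c.Z ^ c.ht (n + 1) := by
    rw [← pow_add, ht_succ hn]; congr 1; omega
  unfold tn
  rw [(Vd_two h hn ω).1, e0, e1]
  congr 1; ring

theorem vv_congr (h : c.Ok) {n : ℕ} (hn : n < c.nB) {ω z : α × ℕ} (e : c.Wn n z = c.Wn n ω)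
    (e' : c.Vd 2 n z = c.Vd 2 n ω) : c.vv n z = c.vv n ω := by
  rw [(Vd_two h hn z).1, (Vd_two h hn ω).1, e] at e'
  omega

theorem CT_sub (n : ℕ) (ω : α × ℕ) : c.CT n ω ⊆ c.EE n ω := by
  intro z hz
  unfold CT at hz
  split_ifs at hz
  · exact (mem_Cm hz).1
  · exact (mem_Cp hz).1

theorem cone_m (h : c.Ok) {n : ℕ} (hn : n < c.nB) {ω : α × ℕ} {v z : α} (hv : v ∈ c.EE n ω)
    (e : (c.NN n ω).cell v = (c.NN n ω).cell ω.1) (hz : z ∈ c.CM n ω) : c.x z < c.x v ∧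
    c.th (c.t0 n ω) * (c.x v - c.x z) ≤ c.y v - c.y z ∧
    c.y v - c.y z ≤ c.th (c.t1 n ω) * (c.x v - c.x z) := by
  obtain ⟨a1, a2, a3, -⟩ := mem_Cm hz
  rw [← e] at a2 a3
  have := (np h hn ω).cone z a1 v hv a2 a3
  rwa [tn_zero hn, tn_top hn] at this

theorem cone_p (h : c.Ok) {n : ℕ} (hn : n < c.nB) {ω : α × ℕ} {v z : α} (hv : v ∈ c.EE n ω)
    (e : (c.NN n ω).cell v = (c.NN n ω).cell ω.1) (hz : z ∈ c.CP n ω) : c.x v < c.x z ∧
    c.th (c.t0 n ω) * (c.x z - c.x v) ≤ c.y z - c.y v ∧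
    c.y z - c.y v ≤ c.th (c.t1 n ω) * (c.x z - c.x v) := by
  obtain ⟨a1, a2, a3, -⟩ := mem_Cp hz
  rw [← e] at a2 a3
  have := (np h hn ω).cone v hv z a1 a2 a3
  rwa [tn_zero hn, tn_top hn] at this

theorem abs_cone {a b θ d e : ℝ} (hd : 0 < d) (h1 : a * d ≤ e) (h2 : e ≤ b * d) (h3 : a ≤ θ)
    (h4 : θ ≤ b) : |e - θ * d| ≤ (b - a) * d := by
  rw [abs_le]; constructor <;> nlinarith

/-- later nodes of a twin stay in the cell of the twin -/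
theorem later {l l' : ℕ} (hl : l < l') {ω ω' z : α × ℕ} (e : c.nd l z = c.nd l ω)
    (e' : c.nd l' z = c.nd l' ω') {v : α} (hv : v ∈ c.EE l' ω') :
    v ∈ c.EE l ω ∧ ((c.NN l ω).ca v, (c.NN l ω).cb v) =
      ((c.NN l ω).ca z.1, (c.NN l ω).cb z.1) := by
  rw [← nd_EE e'] at hv
  obtain ⟨h1, h2⟩ := mem_succ (EE_anti hl z hv)
  rw [nd_EE e] at h1
  rw [nd_NN e] at h2
  exact ⟨h1, congrArg Prod.snd h2⟩

theorem mult (h : c.Ok) {l l' : ℕ} (hl : l < l') (hl' : l' < c.nB) {ω ω' z : α × ℕ}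
    (hω : ω ∈ c.SS) (hω' : ω' ∈ c.SS) (e : c.nd l z = c.nd l ω) (t : z.1 ∈ c.CT l ω)
    (e' : c.nd l' z = c.nd l' ω') (t' : z.1 ∈ c.CT l' ω')
    (hs : c.x z.1 < c.x ω.1 ↔ c.x z.1 < c.x ω'.1) :
    2 * |c.x ω'.1 - c.x z.1| < |c.x ω.1 - c.x z.1| := by
  have m := mem_EE h hω l
  have m' := mem_EE h hω' l'
  have hlB : l < c.nB := by omega
  unfold CT at t t'
  split_ifs at t t' with s s' s'
  · have c1 := (cone_m h hlB m rfl t).1
    have c2 := (cone_m h hl' m' rfl t').1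
    obtain ⟨u, hu, h1⟩ := s' _ t'
    obtain ⟨h2, h3⟩ := later hl e e' (mem_Cp hu).1
    have c3 := (cone_m h hlB m rfl ((mem_Cm t).2.2.2 u h2 h3)).1
    rw [abs_of_pos (by linarith), abs_of_pos (by linarith)]; linarith
  · exact absurd (hs.1 (cone_m h hlB m rfl t).1) (cone_p h hl' m' rfl t').1.le.not_gt
  · exact absurd (hs.2 (cone_m h hl' m' rfl t').1) (cone_p h hlB m rfl t).1.le.not_gt
  · have c1 := (cone_p h hlB m rfl t).1
    have c2 := (cone_p h hl' m' rfl t').1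
    unfold left at s'
    push Not at s'
    obtain ⟨u, hu, h1⟩ := s'
    have h1 := h1 _ t'
    obtain ⟨h2, h3⟩ := later hl e e' (mem_Cm hu).1
    have c3 := (cone_p h hlB m rfl ((mem_Cp t).2.2.2 u h2 h3)).1
    rw [abs_of_neg (by linarith), abs_of_neg (by linarith)]; linarith

theorem act_two (h : c.Ok) {n : ℕ} (hn : n < c.nB) {ω : α × ℕ} (hω : ω ∈ c.SS) :
    ω.1 ∈ KS.act c.A (c.EE n ω) (c.tn n (c.Wn n ω) (c.vv n ω * c.Z ^ (c.w - 2)))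
      (c.tn n (c.Wn n ω) ((c.vv n ω + 1) * c.Z ^ (c.w - 2))) := by
  have e := tn_vv h hn ω 0
  rw [add_zero, add_zero] at e
  rw [e, tn_vv h hn ω 1]
  exact act_win h hω _ (mem_EE h hω n)

theorem lt_or (h : c.Ok) {n : ℕ} (hn : n < c.nB) {ω z : α × ℕ} (e : c.Wn n z = c.Wn n ω)
    (e' : c.Vd 1 n z ≠ c.Vd 1 n ω) :
    c.vv n z / c.Z < c.vv n ω / c.Z ∨ c.vv n ω / c.Z < c.vv n z / c.Z := by
  rw [(Vd_two h hn z).2.2, (Vd_two h hn ω).2.2, e] at e'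
  omega

theorem xgood (h : c.Ok) {n : ℕ} (hn : n < c.nB) {ω u : α × ℕ} (hω : ω ∈ c.SS) (hu : u ∈ c.SS)
    (e1 : u.1 = ω.1) (e2 : c.Wn n u = c.Wn n ω) (e3 : c.Vd 1 n u ≠ c.Vd 1 n ω)
    (c1 : (c.NN n ω).cl (c.vv n ω)) (c2 : (c.NN n u).cl (c.vv n u))
    (hb : ¬ (c.NN n ω).bx ((c.NN n ω).cx ω.1)) {v : α} (hv : v ∈ c.EE (n + 1) ω) :
    4 * |c.x v - c.x ω.1| ≤ c.x ω.1 - (c.st n ω).2.1 ∧
      4 * |c.x v - c.x ω.1| ≤ (c.st n ω).2.2 - c.x ω.1 := by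
  have e : c.nd n u = c.nd n ω := (nd_iff h hu).2 ⟨e2, e1 ▸ mem_EE h hω n⟩
  have a1 := act_two h hn hω
  have a2 := act_two h hn hu
  rw [nd_EE e, e2, e1] at a2
  rw [nd_NN e] at c2
  obtain ⟨h1, h2⟩ := mem_succ hv
  have h3 : (c.NN n ω).cx v = (c.NN n ω).cx ω.1 := congrArg Prod.fst h2
  rcases lt_or h hn e2 e3 with l | l
  · exact (np h hn ω).xg _ _ (Vd_two h hn ω).2.1 l c2 c1 _ a2 a1 hb v h1 h3
  · exact (np h hn ω).xg _ _ (Vd_two h hn u).2.1 l c1 c2 _ a1 a2 hb v h1 h3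

theorem str (h : c.Ok) {κ : ℕ} (hκ : c.Z = 2 ^ κ) :
    (pd h).Str c.nB (c.w * κ) κ (2 * c.M) c.ζ := by
  have hZ : 0 < c.Z := by have := h.hZ; omega
  have hw := h.hw
  have hm : Monotone fun t => c.th (c.τ t) := h.lin.mono.monotone.comp h.mono
  refine
    { pos := Q_pos h
      dW := fun n _ ω z _ _ e => div_eq_of (Nat.sub_le _ 1) e
      dV1 := fun n _ ω z _ _ e => div_eq_of (show c.ht n - 2 ≤ c.ht n - 1 by omega) e
      dV2 := fun n hn ω z _ _ e =>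
        div_eq_of (show c.ht (n + 1) ≤ c.ht n - 2 by rw [ht_succ hn]; omega) e
      fW := fun n hn => ?_
      fV1 := fun n hn => ?_
      fV2 := fun n hn => ?_
      dlo := fun n _ ω z _ _ e => congrArg c.th (t0_congr e)
      dhi := fun n _ ω z _ _ e => congrArg c.th (t1_congr e)
      dlo2 := fun n _ ω z _ _ e => congrArg (fun v => c.th (c.τ (v * c.Z ^ (c.ht n - 2)))) e
      dhi2 := fun n _ ω z _ _ e =>
        congrArg (fun v => c.th (c.τ ((v + 1) * c.Z ^ (c.ht n - 2)))) e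
      nest := fun n hn ω => ?_
      dN := fun n _ ω z _ _ e => ?_
      dNN := fun n _ ω z _ _ e => nd_le (Nat.le_succ n) e
      dNW := fun n _ ω z _ _ e => (nd_at le_rfl e).1
      fN := fun n hn ω _ => ?_
      dlive := fun n _ ω z _ _ e => ?_
      ulive := fun n _ ω z e e1 l1 l2 => ?_
      dclean := fun n hn ω z _ _ e => ?_
      sep := fun n hn ω z e e1 c1 c2 => ?_
      tnd := fun l ω z t => t.1
      tmass := fun l ω _ o => ?_
      cone := fun l ω z v hl _ t e => ?_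
      mult := fun l l' ω ω' z h1 h2 _ _ t t' s =>
        mult h h1 (by omega) ω.2 ω'.2 t.1 t.2 t'.1 t'.2 s
      xg := fun l ω z v hl o pr t e => ?_ }
  · have := few_div (Q h) (fun ω => ω.1.2) (a := c.ht (n + 1)) (d := c.w) hZ
      (N := 2 ^ (c.w * κ)) (by rw [hκ, ← pow_mul, mul_comm]; push_cast; rfl)
    rwa [← ht_succ hn] at this
  · have := few_div (Q h) (fun ω => ω.1.2) (a := c.ht n - 1) (d := 1) hZ
      (N := 2 ^ κ) (by rw [hκ, pow_one]; push_cast; rfl)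
    rwa [show c.ht n - 1 + 1 = c.ht n by rw [ht_succ hn]; omega] at this
  · have := few_div (Q h) (fun ω => ω.1.2) (a := c.ht n - 2) (d := 2) hZ
      (N := 4 ^ κ) (by rw [hκ, ← pow_mul, mul_comm, pow_mul]; push_cast; norm_num)
    rwa [show c.ht n - 2 + 2 = c.ht n by rw [ht_succ hn]; omega] at this
  · have l1 : c.ht (n + 1) ≤ c.ht n - 2 := by rw [ht_succ hn]; omega
    exact ⟨hm (ws_le (Nat.sub_le _ 2) _), hm (ws_le l1 _),
      hm (Nat.mul_le_mul_right _ (Nat.le_succ _)), hm (we_le hZ l1 _),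
      hm (we_le hZ (Nat.sub_le _ 2) _)⟩
  · obtain ⟨e1, e2⟩ := Prod.ext_iff.1 e
    exact (nd_iff h ω.2).2 ⟨e2, (show ω.1.1 = z.1.1 from e1) ▸ mem_EE h z.2 n⟩
  · let f : ℕ × ℕ × ℕ → ℕ → ℕ × Finset α × ℝ × ℝ := fun j =>
      if hj : ∃ z ∈ c.SS, c.nd n z = c.nd n ω.1 ∧ c.Wn (n + 1) z = c.Wn (n + 1) ω.1 ∧
        (c.NN n ω.1).cell z.1 = j then c.nd (n + 1) hj.choose else c.nd n ω.1
    refine ⟨(range c.M ×ˢ range c.M ×ˢ range c.M).image f, ?_, fun z _ e => ?_⟩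
    · have : ((range c.M ×ˢ range c.M ×ˢ range c.M).image f).card ≤ (2 * c.M) ^ 3 := by
        refine card_image_le.trans ?_
        simp only [card_product, card_range]
        nlinarith [Nat.zero_le (c.M * (c.M * c.M))]
      exact_mod_cast this
    · obtain ⟨e1, e2⟩ := Prod.ext_iff.1 e
      have e1 : c.nd n z.1 = c.nd n ω.1 := e1
      have e2 : c.Wn (n + 1) z.1 = c.Wn (n + 1) ω.1 := e2
      have l := (np h hn ω.1).lt _ ((nd_iff h z.2).1 e1).2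
      refine mem_image.2 ⟨(c.NN n ω.1).cell z.1.1, by simpa [ND.cell] using l, ?_⟩
      have hj : ∃ u ∈ c.SS, c.nd n u = c.nd n ω.1 ∧ c.Wn (n + 1) u = c.Wn (n + 1) ω.1 ∧
        (c.NN n ω.1).cell u.1 = (c.NN n ω.1).cell z.1.1 := ⟨z.1, z.2, e1, e2, rfl⟩
      simp only [f]
      rw [dif_pos hj]
      obtain ⟨b1, b2, b3, b4⟩ := hj.choose_spec
      exact nd_succ h b1 (b2.trans e1.symm) (b3.trans e2.symm) (by rw [nd_NN e1]; exact b4)
  · have e : c.nd (n + 1) ω.1 = c.nd (n + 1) z.1 := e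
    have e1 := nd_NN (nd_le (Nat.le_succ n) e)
    have e2 := nd_cell h ω.2 e
    have e3 : c.kk n ω.1 = c.kk n z.1 := by unfold kk; rw [(nd_at le_rfl e).1]
    show ((c.NN n ω.1).cell ω.1.1 = (c.NN n ω.1).lv (c.kk n ω.1)) =
      ((c.NN n z.1).cell z.1.1 = (c.NN n z.1).lv (c.kk n z.1))
    rw [e1, e2, e3]
  · have e : c.nd n z.1 = c.nd n ω.1 := e
    have e1 : c.Wn (n + 1) z.1 = c.Wn (n + 1) ω.1 := e1
    have l1 : (c.NN n ω.1).cell ω.1.1 = (c.NN n ω.1).lv (c.kk n ω.1) := l1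
    have l2 : (c.NN n z.1).cell z.1.1 = (c.NN n z.1).lv (c.kk n z.1) := l2
    have e3 : c.kk n z.1 = c.kk n ω.1 := by unfold kk; rw [e1]
    rw [nd_NN e, e3] at l2
    exact nd_succ h z.2 e e1 (l2.trans l1.symm)
  · obtain ⟨e1, e2⟩ := Prod.ext_iff.1 e
    have e1 : c.nd n ω.1 = c.nd n z.1 := e1
    show (c.NN n ω.1).cl (c.vv n ω.1) = (c.NN n z.1).cl (c.vv n z.1)
    rw [nd_NN e1, vv_congr h hn (nd_at le_rfl e1).1 e2]
  · have e : c.nd n z.1 = c.nd n ω.1 := e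
    have c1 : (c.NN n ω.1).cl (c.vv n ω.1) := c1
    have c2 : (c.NN n z.1).cl (c.vv n z.1) := c2
    have ew := (nd_at le_rfl e).1
    rw [nd_NN e] at c2
    have a0 := tn_vv h hn ω.1 0
    have a1 := tn_vv h hn ω.1 1
    have b0 := tn_vv h hn z.1 0
    have b1 := tn_vv h hn z.1 1
    rw [add_zero, add_zero] at a0 b0
    rw [ew] at b0 b1
    unfold PD.gap
    simp only [pd]
    rcases lt_or h hn ew e1 with l | l
    · have := (np h hn ω.1).sep _ _ (Vd_two h hn ω.1).2.1 l c2 c1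
      rw [a0, a1, b0, b1] at this
      exact ⟨lt_max_of_lt_left this.1, le_max_of_le_left this.2.2⟩
    · have := (np h hn ω.1).sep _ _ (Vd_two h hn z.1).2.1 l c1 c2
      rw [a0, a1, b0, b1] at this
      exact ⟨lt_max_of_lt_right this.1, le_max_of_le_right this.2.1⟩
  · have e1 := cl_nd h l ω
    have e2 := pr_nd h l ω.1 (CT_sub l ω.1)
    show c.ζ / ((2 * c.M : ℕ) : ℝ) ^ 2 * (Q h).cl (fun z => c.nd l z.1) ω ≤
      (Q h).pr fun z => c.nd l z.1 = c.nd l ω.1 ∧ z.1.1 ∈ c.CT l ω.1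
    rw [e1, e2, ← mul_div_assoc]
    refine div_le_div_of_nonneg_right ?_ (card_SS_pos h).le
    push_cast
    unfold CT
    split_ifs
    · unfold CM Cm; rw [dif_pos o.2.1.1]; exact o.2.1.1.choose_spec.1
    · unfold CP Cp; rw [dif_pos o.2.1.2]; exact o.2.1.2.choose_spec.1
  · obtain ⟨m1, m2⟩ := mem_succ ((nd_iff h v.2).1 e).2
    have t2 := t.2
    unfold PD.xx PD.yy PD.len
    simp only [pd]
    unfold CT at t2
    split_ifs at t2
    · obtain ⟨b1, b2, b3⟩ := cone_m h (by omega) m1 m2 t2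
      refine ⟨b1.ne', fun θ h1 h2 => ?_⟩
      have := abs_cone (sub_pos.2 b1) b2 b3 h1 h2
      rw [abs_of_pos (sub_pos.2 b1)]
      convert this using 2; ring
    · obtain ⟨b1, b2, b3⟩ := cone_p h (by omega) m1 m2 t2
      refine ⟨b1.ne, fun θ h1 h2 => ?_⟩
      have := abs_cone (sub_pos.2 b1) b2 b3 h1 h2
      rw [abs_sub_comm (c.x v.1.1), abs_of_pos (sub_pos.2 b1), ← abs_neg]
      convert this using 2; ring
  · obtain ⟨c1, u, e1, e2, c2⟩ := pr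
    obtain ⟨e3, e4⟩ := Prod.ext_iff.1 e1
    obtain ⟨b1, b2⟩ := xgood h (show l + 1 < c.nB by omega) ω.2 u.2 e3 e4 e2 c1 c2 o.2.2
      ((nd_iff h v.2).1 e).2
    have t2 := t.2
    unfold PD.xx
    simp only [pd]
    unfold CT at t2
    split_ifs at t2
    · have : c.x z.1.1 ≤ (c.st (l + 1) ω.1).2.1 := by
        rw [lo_succ, le_fold_max]; exact Or.inr ⟨_, t2, le_rfl⟩
      linarith [le_abs_self (c.x ω.1.1 - c.x z.1.1)]
    · have : (c.st (l + 1) ω.1).2.2 ≤ c.x z.1.1 := by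
        rw [hi_succ, fold_min_le]; exact Or.inr ⟨_, t2, le_rfl⟩
      linarith [neg_abs_le (c.x ω.1.1 - c.x z.1.1)]

end Ctx

end Pool.Agent.P.MP_77a832_co.EL
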