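import Pool.Agent.P.MP_77a832_co.EL.BIface

/-! Step AG0. -/

set_option autoImplicit false

namespace Pool.Agent.P.MP_77a832_co.EL

open Finset Real Pool.Agent.P.MP_bf60a1_an.RA
open scoped Classical

namespace AG0c

end AG0c

theorem p_AG0 (hCP : S_CP) (hCHN : S_CHN) :
    S_AG0 := by
  intro Ω α β _ D p _ n _
  obtain ⟨c1, c2, -, c4, -⟩ := hCP Ω α (α × ℕ) α D.Q (D.pw n)
  refine ⟨?_, fun ω h => ⟨h.1, ?_⟩⟩
  · have h1 := c1 (fun z => ¬ D.clean n z) (fun _ => 12) fun _ _ _ _ _ => rfl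
    have h2 : D.Q.pr (fun ω => D.bq n ω ≤ 2 / 3 ∧ ¬ D.AG0 n ω) ≤
        D.Q.E fun ω => ind (¬ D.clean n ω) + 12 * cp D.Q (fun z => ¬ D.clean n z) (D.pw n) ω := by
      refine D.Q.E_mono fun ω hω => ?_
      have h3 := (c2 (fun z => ¬ D.clean n z) ω).1
      have h4 := ind_nonneg (¬ D.clean n ω)
      by_cases h5 : D.bq n ω ≤ 2 / 3 ∧ ¬ D.AG0 n ω
      · rw [ind_pos h5]
        by_cases h6 : D.clean n ω
        · have h7 : cp D.Q (fun z => D.V1 n z ≠ D.V1 n ω ∧ D.clean n z) (D.pw n) ω < 1 / 4 :=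
            not_le.1 fun h => h5.2 ⟨h6, h⟩
          have h8 : cp D.Q (fun z => D.V1 n z = D.V1 n ω) (D.pw n) ω ≤ 2 / 3 := h5.1
          rw [c4 _ ω hω] at h7 h8 ⊢
          generalize D.Q.cv (D.pw n) (D.pw n ω) = P at h7 h8 ⊢
          have h9 := P.pr_eq_one (s := fun z => D.V1 n z = D.V1 n ω ∨
            (D.V1 n z ≠ D.V1 n ω ∧ D.clean n z) ∨ ¬ D.clean n z) fun z _ => by tauto
          have h10 := P.pr_or_le (fun z => D.V1 n z = D.V1 n ω)
            fun z => (D.V1 n z ≠ D.V1 n ω ∧ D.clean n z) ∨ ¬ D.clean n z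
          have h11 := P.pr_or_le (fun z => D.V1 n z ≠ D.V1 n ω ∧ D.clean n z)
            fun z => ¬ D.clean n z
          linarith
        · rw [ind_pos h6]; linarith
      · rw [ind_neg h5]; linarith
    rw [D.Q.E_add, h1, D.Q.E_mul_left] at h2
    unfold FP.pr at h2 ⊢
    linarith
  · have h1 : 0 < cp D.Q (fun z => D.V1 n z ≠ D.V1 n ω ∧ D.clean n z) (D.pw n) ω :=
      lt_of_lt_of_le (by norm_num) h.2
    obtain ⟨z, -, hz⟩ := D.Q.exists_of_pr_pos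
      ((div_pos_iff_of_pos_right (D.Q.cl_pos (D.pw n) (‹D.Ok p›.str.pos ω))).1 h1)
    exact ⟨z, hz.2, hz.1.1, hz.1.2⟩

end Pool.Agent.P.MP_77a832_co.EL
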