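import Pool.Agent.P.MP_77a832_co.EL.BIface

/-! Step AV3. -/

set_option autoImplicit false

namespace Pool.Agent.P.MP_77a832_co.EL

open Finset Real Pool.Agent.P.MP_bf60a1_an.RA
open scoped Classical

namespace AV3c

theorem mk {ι Ω : Type} [Fintype ι] [Fintype Ω] (P : FP ι) (Q : FP Ω) (s : Ω → Prop)
    (t : ι → Ω → Prop) {c : ℝ} (hc : 0 ≤ c) (h : ∀ w, (P.pr fun i => t i w) ≤ c) :
    (P.pr fun i => Q.pr s / 2 < Q.pr fun w => s w ∧ t i w) ≤ 2 * c := by
  rcases (Q.pr_nonneg s).eq_or_lt with h0 | h0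
  · rw [P.pr_eq_zero]
    · positivity
    · intro i _ hi
      have := Q.pr_mono (s := fun w => s w ∧ t i w) (t := s) fun _ _ h => h.1
      linarith
  have h1 : (P.E fun i => Q.pr fun w => s w ∧ t i w) ≤ Q.pr s * c := by
    unfold FP.pr
    rw [P.E_comm, ← Q.E_mul_right]
    refine Q.E_mono fun w _ => ?_
    simp only [ind_and]
    rw [P.E_mul_left]
    exact mul_le_mul_of_nonneg_left (h w) (ind_nonneg _)
  have h2 : (P.pr fun i => Q.pr s / 2 < Q.pr fun w => s w ∧ t i w) * (Q.pr s / 2) ≤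
      P.E fun i => Q.pr fun w => s w ∧ t i w := by
    unfold FP.pr
    rw [← P.E_mul_right]
    refine P.E_mono fun i _ => ?_
    by_cases hi : (Q.E fun ω => ind (s ω)) / 2 < Q.E fun w => ind (s w ∧ t i w)
    · rw [ind_pos hi, one_mul]; exact hi.le
    · rw [ind_neg hi, zero_mul]; exact Q.pr_nonneg _
  have h3 := h2.trans h1
  nlinarith

end AV3c

theorem p_AV3 (hCHN : S_CHN) (hBS : S_BS) (hLAB : S_LAB) (hSM : S_SM) :
    S_AV3 := by
  intro Ω α β _ D p hD σ A n P sg hR hn r hr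
  have hy : ∀ ω, D.has p r ω → D.yl p r ω < A := by
    intro ω hω
    obtain ⟨h1, -, -, -, z, -, -, -, -, h2⟩ := (hBS _ _ _ D p hD).1 r ω hω
    obtain ⟨-, -, -, -, h3, h4, h5, -⟩ := hCHN _ _ _ D p hD
    have h6 := ((h3 r hr).2 _ h1).1
    exact hR.y _ (by omega) _ ω z h2
  have h6 := (hSM _ _ _ D p hD A).2.2.2.2.2 n P
  refine ⟨h6 (fun i _ u w => D.has p r w.1 ∧ D.f1 p (sg i) u r w.1) _ (by positivity) ?_,
    h6 (fun i _ u w => D.has p r w.1 ∧ D.f3 p σ (sg i) u r (D.lab p r w.1) w.1) _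
      (by positivity) ?_⟩
  · intro _ u w hu
    by_cases hw : D.has p r w.1
    · have := hy _ hw
      exact (P.pr_mono fun _ _ h => h.2).trans (hn (u + p.m + D.yl p r w.1) (by omega) _)
    · rw [P.pr_eq_zero fun _ _ h => hw h.1]
      positivity
  · intro _ u w hu
    by_cases hw : D.has p r w.1
    · have := hy _ hw
      refine (P.pr_mono fun _ _ h => h.2).trans ((AV3c.mk P (D.Q2 (D.lab p r w.1).1)
        (D.E0 p σ u r (D.lab p r w.1) w.1)
        (fun i v => D.uns p (sg i) u (D.lab p r w.1).2.2 w.1 v.2) (c := 24 / 2 ^ p.a)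
        (by positivity) fun v => hn (u + p.m + D.yl p r w.1) (by omega) _).trans_eq (by ring))
    · rw [P.pr_eq_zero fun _ _ h => hw h.1]
      positivity

end Pool.Agent.P.MP_77a832_co.EL
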