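import Pool.Agent.P.MP_77a832_co.EL.BudAt

/-! Step AVZ. -/

set_option autoImplicit false

namespace Pool.Agent.P.MP_77a832_co.EL

open Finset Real Pool.Agent.P.MP_bf60a1_an.RA
open scoped Classical

namespace AVZc

end AVZc

theorem p_AVZ (hCHN : S_CHN) (hELL : S_ELL) (hLAMC : S_LAMC) :
    S_AVZ := by
  intro Ω α β _ D p hD σ A n P sg h
  obtain ⟨e1, e2, -⟩ := hELL _ _ _ D p hD
  obtain ⟨-, -, -, -, -, c6, -⟩ := hCHN _ _ _ D p hD
  obtain ⟨-, l2, -⟩ := hLAMC _ _ _ D p hD σ A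
  have f0 : 0 ≤ p.φ3 := by have := hD.ok.φ0; unfold Par.φ3; positivity
  have cnt : ∀ ω, ∑ y ∈ range A, ind (D.ell p y ω ≠ D.ell p (y + p.s) ω) ≤ p.s * p.T := by
    intro ω
    have := Bud.tele (fun y => (p.T : ℝ) - D.ell p y ω)
      (fun y => (p.T : ℝ) - D.ell p y ω - ind (D.ell p y ω ≠ D.ell p (y + p.s) ω)) (fun _ => 0)
      p.s A (c := p.T)
      (fun y => sub_nonneg.2 (by have := e1 y ω; exact_mod_cast (by omega : D.ell p y ω ≤ p.T)))
      (fun y => sub_le_self _ (Nat.cast_nonneg _)) fun y _ => by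
        have g := e2 y _ ω (Nat.le_add_right y p.s)
        by_cases hl : D.ell p y ω = D.ell p (y + p.s) ω
        · rw [ind_neg (not_not.2 hl), hl]; simp
        · rw [ind_pos hl]
          have : (D.ell p y ω : ℝ) + 1 ≤ D.ell p (y + p.s) ω := by
            exact_mod_cast (by omega : D.ell p y ω + 1 ≤ D.ell p (y + p.s) ω)
          linarith
    simpa using this
  rw [FP.E_sum]
  refine le_trans (sum_le_sum fun u hu => ?_ : _ ≤ ∑ u ∈ range A,
    D.Q.pr (D.Lam p σ u) * (3 * p.φ3 * p.s * p.T)) ?_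
  · rw [FP.E_sum]
    refine le_trans (sum_le_sum fun y hy => ?_ : _ ≤ ∑ y ∈ range A, D.Q.E fun ω =>
      ind (D.Lam p σ u ω) * (3 * p.φ3 * ind (D.ell p y ω ≠ D.ell p (y + p.s) ω))) ?_
    · unfold PD.FZ FP.pr
      rw [FP.E_comm]
      refine D.Q.E_mono fun ω _ => ?_
      simp only [ind_and, FP.E_mul_left]
      rw [mul_comm (3 * p.φ3)]
      refine mul_le_mul_of_nonneg_left (mul_le_mul_of_nonneg_left ?_ (ind_nonneg _)) (ind_nonneg _)
      exact h _ (by have := mem_range.1 hu; have := mem_range.1 hy; omega) _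
    · rw [← FP.E_sum, FP.pr, ← FP.E_mul_right]
      refine D.Q.E_mono fun ω _ => ?_
      rw [← mul_sum, ← mul_sum, mul_assoc (3 * p.φ3)]
      exact mul_le_mul_of_nonneg_left (mul_le_mul_of_nonneg_left (cnt ω) (by positivity))
        (ind_nonneg _)
  · rw [← sum_mul]
    refine (mul_le_mul_of_nonneg_right l2 (by positivity)).trans (le_of_eq ?_)
    unfold Par.fz; ring

end Pool.Agent.P.MP_77a832_co.EL
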