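import Pool.Agent.P.MP_77a832_co.EL.BIface

/-! Step BALL. -/

set_option autoImplicit false

namespace Pool.Agent.P.MP_77a832_co.EL

open Finset Real Pool.Agent.P.MP_bf60a1_an.RA
open scoped Classical

namespace BALLc

end BALLc

theorem p_BALL (hFLR : S_FLR) (hCHN : S_CHN) (hELL : S_ELL) (hLAB : S_LAB) (hBS : S_BS) :
    S_BALL := by
  intro Ω α β _ D p hD σ u r hr ω
  obtain ⟨-, c2, -, -, -, c6, c7, c8⟩ := hCHN _ _ _ D p hD
  obtain ⟨e1, e2, -⟩ := hELL _ _ _ D p hD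
  obtain ⟨b1, -, -, b4⟩ := hBS _ _ _ D p hD
  have hL := hLAB _ _ _ D p hD
  have o := hD.ok
  have hp : ∀ {a b : ℕ}, a ≤ b → (1 / 2 : ℝ) ^ b ≤ (1 / 2) ^ a := fun h =>
    pow_le_pow_of_le_one (by norm_num) (by norm_num) h
  by_cases h : D.has p r ω ∧ ∀ y, D.bs p r ω = some y → y + p.q ≤ D.yl p r ω
  · have hb : D.bs p (r + 1) ω = some (D.yl p r ω) := if_pos h
    have h1 : D.Mm p σ u (r + 1) ω ≤
        D.Q.pr (D.Ball p σ u r (D.yl p r ω) (p.hh u (D.yl p r ω)) ω) :=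
      D.Q.pr_mono fun z _ hz => ⟨hz.1, hz.2 _ hb⟩
    have h2 : D.Q.pr (D.Ball p σ u r (D.yl p r ω) (p.rho u (D.yl p r ω)) ω) ≤ D.Mn p σ u r ω := by
      refine D.Q.pr_mono fun z _ hz => ⟨hz.1, fun y hy => ?_⟩
      obtain ⟨r', hr', a1, a2⟩ := b4 r ω y hy
      have a3 := (hL r' (hr'.trans hr) ω _ (b1 r' ω a1)).2.1
      have a4 := h.2 y hy
      have a5 := c2 _ _ (e2 y (D.yl p r ω) ω (by omega)) ((e1 _ ω).trans (by omega)) ω
      have a6 := (hFLR (D.xx z - σ) (D.xx ω - σ) u 0).2.1 (congrArg (·.1.2) hz.1)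
      have a7 : |D.th p (D.yl p r ω) ω - D.th p y ω| ≤ p.φ * (1 / 2) ^ (y + p.q) := by
        rw [show (D.lab p r' ω).2.2 = y from a2.symm] at a3
        refine le_trans ?_ a3
        simp only [PD.th, PD.len]
        rw [abs_of_nonneg (sub_nonneg.2 a5.1)]
        linarith [a5.2.1, a5.2.2]
      have a8 := mul_le_mul a7 a6 (abs_nonneg _) ((abs_nonneg _).trans a7)
      have a9 := hz.2.trans (hp (show u + p.m + y + p.q ≤ _ by omega))
      have a10 : p.φ * (1 / 2) ^ (y + p.q) * (1 / 2) ^ u ≤ (1 / 2) ^ (u + p.m + y + p.q) := by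
        have : p.φ ≤ (1 / 2) ^ p.m := by
          rw [one_div, inv_pow, inv_eq_one_div, le_div_iff₀ (by positivity)]
          linarith [o.hφ]
        calc _ ≤ (1 / 2) ^ p.m * (1 / 2) ^ (y + p.q) * (1 / 2 : ℝ) ^ u := by gcongr
          _ = _ := by ring
      rw [← abs_mul] at a8
      have a11 := abs_add_le (D.Pj (D.th p (D.yl p r ω) ω) z - D.Pi p (D.yl p r ω) ω)
        ((D.th p (D.yl p r ω) ω - D.th p y ω) * (D.xx z - σ - (D.xx ω - σ)))
      rw [show D.Pj (D.th p (D.yl p r ω) ω) z - D.Pi p (D.yl p r ω) ω +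
        (D.th p (D.yl p r ω) ω - D.th p y ω) * (D.xx z - σ - (D.xx ω - σ)) =
        D.Pj (D.th p y ω) z - D.Pi p y ω by simp only [PD.Pi, PD.Pj]; ring] at a11
      unfold Par.hh
      linarith
    split_ifs with hg
    · have : 0 ≤ p.gn := by
        have := o.δ0
        unfold Par.gn Par.δ
        positivity
      exact h1.trans (hg.2.2.trans (mul_le_mul_of_nonneg_left h2 this))
    · rw [one_mul]
      refine h1.trans (le_trans (D.Q.pr_mono fun z _ hz => ⟨hz.1, hz.2.trans ?_⟩) h2)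
      have := hp (show u + p.m + D.yl p r ω + p.a + 1 ≤ u + p.m + D.yl p r ω + p.q by
        have := o.hq; omega)
      rw [pow_succ] at this
      unfold Par.hh Par.rho
      linarith
  · have hb : D.bs p (r + 1) ω = D.bs p r ω := if_neg h
    rw [if_neg, one_mul]
    · exact D.Q.pr_mono fun z _ hz => ⟨hz.1, fun y hy => hz.2 y (hb.trans hy)⟩
    rintro ⟨g1, g2, -⟩
    refine h ⟨g1, fun y hy => ?_⟩
    obtain ⟨r', hr', a1, a2⟩ := b4 r ω y hy
    have a3 := (hL r' (hr'.trans hr) ω _ (b1 r' ω a1)).2.2.1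
    have a4 := (hL r hr ω _ (b1 r ω g1)).2.2.2.1
    have a5 := g2.resolve_left (by omega)
    have hJ : (r - 1) * p.L + p.L ≤ p.J := by
      rw [← c8, ← Nat.succ_mul]; exact Nat.mul_le_mul_right _ (by omega)
    have a6 := c2 (r' * p.L + p.L') ((r - 1) * p.L + p.L')
      (Nat.add_le_add_right (Nat.mul_le_mul_right _ (by omega)) _) (by have := o.hL; omega) ω
    have a7 : D.len ((r - 1) * p.L + p.L') ω ≤ D.len (r' * p.L + p.L') ω := by
      simp only [PD.len]; linarith [a6.1, a6.2.2]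
    rw [show (D.lab p r' ω).2.2 = y from a2.symm] at a3
    have a8 := a4.trans_lt (a5.trans_lt (mul_lt_mul_of_pos_left (a7.trans_lt a3) (by positivity)))
    by_contra hc
    have a9 := hp (show D.yl p r ω + p.q ≤ p.q + (y + p.q) by omega)
    rw [pow_add (1 / 2 : ℝ) p.q] at a9
    rw [pow_succ] at a8
    change 16 * (1 / 2 : ℝ) ^ (D.yl p r ω + p.q) < _ at a8
    linarith

end Pool.Agent.P.MP_77a832_co.EL
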