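import Pool.Agent.P.MP_77a832_co.EL.BIface

/-! Step BFIN. -/

set_option autoImplicit false

namespace Pool.Agent.P.MP_77a832_co.EL

open Finset Real Pool.Agent.P.MP_bf60a1_an.RA
open scoped Classical

namespace BFINc

variable {Ω α β : Type} [Fintype Ω] (D : PD Ω α β)

theorem piv_anti (nB : ℕ) {r r' : ℕ} (h : r ≤ r') : D.piv nB r' ≤ D.piv nB r := by
  unfold PD.piv
  refine sum_le_sum fun n _ => D.Q.pr_mono fun ω _ hω k hk => hω k (lt_of_lt_of_le hk h)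

theorem piv_nonneg (nB r : ℕ) : 0 ≤ D.piv nB r :=
  sum_nonneg fun _ _ => D.Q.pr_nonneg _

theorem piv_le (nB r : ℕ) : D.piv nB r ≤ nB := by
  unfold PD.piv
  calc _ ≤ ∑ _n ∈ range nB, (1 : ℝ) := sum_le_sum fun n _ => D.Q.pr_le_one _
    _ = nB := by simp

/-- the tower -/
def tow (f : ℕ → Par) : ℕ → ℕ
  | 0 => 1
  | i + 1 => (f (tow f i)).T

theorem pigeon (a : ℕ → ℝ) (B ζ : ℝ) (K : ℕ) (hB : 0 ≤ B) (hK : 1 ≤ (K : ℝ) * ζ) (hK0 : 0 < K)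
    (h0 : a 0 ≤ B) (hl : 0 ≤ a K) : ∃ i < K, a i - a (i + 1) ≤ ζ * B := by
  by_contra hc
  push Not at hc
  have h1 : ∑ _i ∈ range K, ζ * B < ∑ i ∈ range K, (a i - a (i + 1)) :=
    sum_lt_sum_of_nonempty (nonempty_range_iff.mpr hK0.ne') fun i hi => hc i (mem_range.mp hi)
  rw [sum_range_sub'] at h1
  simp only [sum_const, card_range, nsmul_eq_mul] at h1
  nlinarith [mul_le_mul_of_nonneg_right hK hB]

end BFINc

open BFINc in
theorem p_BFIN (hWIN : S_WIN) (hSCL : S_SCL) (hPICK : S_PICK) (hPAR : S_PAR) :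
    S_BFIN := by
  intro g w hg hg1 hw
  obtain ⟨η, ζ, κ₀, a1, a2, a3, a4, a5⟩ := hPAR g w hg hg1 hw
  refine ⟨η, ζ, κ₀, a1, a2, a3, a4, fun κ M hκ hM hM3 hL => ?_⟩
  choose f hf using a5 κ M hκ hM hM3
  set K : ℕ := ⌈1 / ζ⌉₊ with hKdef
  have hK : 1 ≤ (K : ℝ) * ζ := by
    have h1 : 1 / ζ ≤ (K : ℝ) := Nat.le_ceil _
    rwa [div_le_iff₀ a3] at h1
  have hK0 : 0 < K := by
    rcases Nat.eq_zero_or_pos K with h | h
    · rw [h] at hK; norm_num at hK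
    · exact h
  let c : ℕ → ℕ := fun i =>
    ⌈1024 * (((f (tow f i)).Λ : ℝ) + 3) * (f (tow f i)).N / (g ^ 2 * ζ)⌉₊
  obtain ⟨nB, hnB, Ω, α, β, inst, D, hS, hR, hB⟩ := hL ((range K).sup c)
  obtain ⟨i, hi, hpiv⟩ := pigeon (fun i => D.piv nB (tow f i)) nB ζ K (Nat.cast_nonneg _) hK hK0
    (piv_le D _ _) (piv_nonneg D _ _)
  obtain ⟨b0, b1, b2, b3, b4, b5, b6, b7, b8, b9, b10, b11, b12⟩ := hf (tow f i)
  have hci : c i ≤ nB := le_trans (le_sup (f := c) (mem_range.mpr hi)) hnB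
  have hgz : 0 < g ^ 2 * ζ := by positivity
  have hbig : 1024 * (((f (tow f i)).Λ : ℝ) + 3) * (f (tow f i)).N ≤ g ^ 2 * ζ * nB := by
    have h1 : 1024 * (((f (tow f i)).Λ : ℝ) + 3) * (f (tow f i)).N / (g ^ 2 * ζ) ≤ (c i : ℝ) :=
      Nat.le_ceil _
    have h2 : (c i : ℝ) ≤ nB := by exact_mod_cast hci
    have h3 := h1.trans h2
    rw [div_le_iff₀ hgz] at h3
    linarith
  have hp2 : D.piv nB (f (tow f i)).L' - D.piv nB (f (tow f i)).T ≤ ζ * nB := by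
    have h1 := piv_anti D nB b6
    have h2 : tow f (i + 1) = (f (tow f i)).T := rfl
    simp only [h2] at hpiv
    linarith
  obtain ⟨k, hk1, hk2⟩ := hPICK Ω α β D (f (tow f i)) nB g b0
    (by rw [b1, b2, b3, b5]; exact hS) (by rw [b1, b4, b5]; exact hR) (by rw [b2]; exact hB)
    hg hg1 b8 b9 b10 b11 b12 (by rw [b5]; exact hbig) (by rw [b5]; exact hp2)
  obtain ⟨b, c', h1, h2, h3⟩ := hSCL Ω α β (D.shift k) _ hk1 hk2
  exact hWIN _ _ _ _ _ h1 h3 h2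

end Pool.Agent.P.MP_77a832_co.EL
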