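import Pool.Agent.P.MP_77a832_co.EL.BIface

/-! Step BH. -/

set_option autoImplicit false

namespace Pool.Agent.P.MP_77a832_co.EL

open Finset Real Pool.Agent.P.MP_bf60a1_an.RA
open scoped Classical

namespace BHc

theorem cq_eq {Ω α β : Type} [Fintype Ω] (P : FP Ω) (Z : Ω → α) (V : Ω → β) (ω : Ω) :
    cq P Z V ω = P.cl (fun z => (Z z, V z)) ω / P.cl V ω := by
  unfold cq cp
  congr 1
  exact P.pr_congr fun z _ => by simp [Prod.ext_iff]

theorem pt {b : ℝ} (hb : 0 < b) (κ : ℕ) :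
    - log b - 1 * ((2 ^ κ)⁻¹ / b) ≤ min (- log b) (2 * κ * log 2) := by
  have h0 : (0 : ℝ) < (2 ^ κ)⁻¹ / b := by positivity
  refine le_min (by linarith) ?_
  have h1 := log_le_sub_one_of_pos h0
  rw [log_div (by positivity) hb.ne', log_inv, log_pow] at h1
  have h2 : 0 ≤ (κ : ℝ) * log 2 := mul_nonneg κ.cast_nonneg (log_nonneg one_le_two)
  linarith

end BHc

theorem p_BH (hCP : S_CP) (hCODE : S_CODE) :
    S_BH := by
  intro Ω α β _ D κ n hF
  have h1 := hCODE Ω _ _ D.Q (D.V1 n) (D.pw n) (fun _ => 1) (fun _ => (2 ^ κ)⁻¹)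
    (fun _ _ => zero_le_one) (fun _ _ => by positivity) (fun _ _ _ _ _ => rfl)
    (fun _ _ _ _ _ => rfl) fun ω hω F h1 h2 => by
      obtain ⟨F', h3, h4⟩ := hF ω hω
      have h5 : F.card ≤ F'.card := card_le_card_of_injOn (D.V1 n)
        (fun z hz => h4 z (h1 z hz).1 (congrArg Prod.snd (h1 z hz).2)) h2
      rw [sum_const, nsmul_eq_mul, ← div_eq_mul_inv, div_le_one (by positivity)]
      exact (Nat.cast_le.2 h5).trans h3
  rw [FP.E_const] at h1
  have h2 : D.Q.Hc (D.V1 n) (D.pw n) = D.Q.E fun ω => - log (D.bq n ω) := by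
    rw [FP.Hc, FP.H, FP.H, ← FP.E_sub]
    refine D.Q.E_congr fun ω hω => ?_
    rw [PD.bq, BHc.cq_eq, log_div (D.Q.cl_pos _ hω).ne' (D.Q.cl_pos _ hω).ne']
    ring
  have h3 := D.Q.E_mono (f := fun ω => - log (D.bq n ω) - 1 * ((2 ^ κ)⁻¹ / D.bq n ω))
    (g := D.bh κ n) fun ω hω => BHc.pt (by
      rw [PD.bq, BHc.cq_eq]; exact div_pos (D.Q.cl_pos _ hω) (D.Q.cl_pos _ hω)) κ
  rw [FP.E_sub, ← h2] at h3
  exact le_trans (sub_le_sub_left h1 _) h3

end Pool.Agent.P.MP_77a832_co.EL
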