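import Pool.Agent.P.MP_77a832_co.EL.BIface

/-! Step BRP. -/

set_option autoImplicit false

namespace Pool.Agent.P.MP_77a832_co.EL

open Finset Real Pool.Agent.P.MP_bf60a1_an.RA
open scoped Classical

theorem p_BRP (hCP : S_CP) (hCHN : S_CHN) :
    S_BRP := by
  intro Ω α β _ D p hD ω hG
  obtain ⟨h1, -, -, -, h5, h6, h7, h8⟩ := hCHN _ _ _ D p hD
  have pos := hD.str.pos
  have cp0 : ∀ n, 0 < D.Q.cl (D.pw n) ω := fun n => D.Q.cl_pos _ (pos ω)
  have q0 : ∀ (Z : Ω → ℕ) n, 0 < cq D.Q Z (D.pw n) ω := fun Z n =>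
    (hCP Ω ℕ (α × ℕ) ℕ D.Q (D.pw n)).2.2.2.2.2.2.1 Z ω (pos ω)
  have s1 : ∀ k, ∏ r ∈ range k, cq D.Q (D.W (p.lv (r + 1))) (D.pw (p.lv r)) ω ≤
      D.Q.cl (D.pw (p.lv k)) ω / D.Q.cl (D.pw 0) ω := fun k => by
    induction k with
    | zero => rw [prod_range_zero]; exact (div_self (cp0 0).ne').ge
    | succ k ih =>
      have : cq D.Q (D.W (p.lv (k + 1))) (D.pw (p.lv k)) ω ≤
          D.Q.cl (D.pw (p.lv (k + 1))) ω / D.Q.cl (D.pw (p.lv k)) ω :=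
        div_le_div_of_nonneg_right (D.Q.pr_mono fun z _ h =>
          Prod.ext (Prod.ext_iff.1 h.2).1 h.1) (cp0 _).le
      rw [prod_range_succ]
      refine (mul_le_mul ih this (q0 _ _).le (div_pos (cp0 _) (cp0 _)).le).trans_eq ?_
      have := (cp0 (p.lv k)).ne'
      have := (cp0 0).ne'
      field_simp
  have s2 : ∀ k ≤ p.T, D.Q.cl (D.pw k) ω ≤
      exp (-∑ n ∈ range k, D.bh p.κ n ω) * D.Q.cl (D.pw 0) ω := fun k => by
    induction k with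
    | zero => simp
    | succ k ih =>
      intro hk
      have a1 : D.Q.cl (D.pw (k + 1)) ω / D.Q.cl (D.pw k) ω ≤ D.bq k ω :=
        div_le_div_of_nonneg_right (D.Q.pr_mono fun z hz h =>
          ⟨hD.str.dV1 k hk z ω hz (pos ω) (hD.str.dV2 k hk z ω hz (pos ω) (congrArg Prod.snd h)),
            ((h1 k (k + 1) k.le_succ hk ω z).2.2 h).1⟩) (cp0 _).le
      have a2 : D.bq k ω ≤ exp (-D.bh p.κ k ω) :=
        (log_le_iff_le_exp (q0 _ _)).1 (le_neg.1 (min_le_left _ _))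
      rw [sum_range_succ, neg_add, exp_add, mul_right_comm, mul_comm]
      exact ((div_le_iff₀ (cp0 k)).1 (a1.trans a2)).trans
        (mul_le_mul_of_nonneg_left (ih (by omega)) (exp_pos _).le)
  obtain ⟨r, hr⟩ : ∃ r, p.R = r + 1 :=
    Nat.exists_eq_succ_of_ne_zero (Nat.mul_pos hD.ok.Λ1 hD.ok.N11).ne'
  have b1 : p.lv p.R ≤ p.T := by
    have := (h5 r (by omega)).1
    rw [hr, Par.lv]; omega
  have b2 : p.J ≤ p.lv p.R := by
    rw [← h8, hr, Par.lv, Par.lam]; omega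
  have s3 : D.Q.cl (D.pw (p.lv p.R)) ω ≤ D.Q.cl (D.pw p.J) ω :=
    D.Q.pr_mono fun z _ h => ((h1 _ _ b2 b1 ω z).2.2 h).1
  refine (s1 _).trans ((div_le_iff₀ (cp0 0)).2 ((s3.trans (s2 _ (b2.trans b1))).trans
    (mul_le_mul_of_nonneg_right ?_ (cp0 0).le)))
  rw [rpow_def_of_pos two_pos, exp_le_exp]
  linarith [hG.1]

end Pool.Agent.P.MP_77a832_co.EL
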