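import Pool.Agent.P.MP_77a832_co.EL.BIface

/-! Step BS. -/

set_option autoImplicit false

namespace Pool.Agent.P.MP_77a832_co.EL

open Finset Real Pool.Agent.P.MP_bf60a1_an.RA
open scoped Classical

namespace BSc

theorem lv_le (p : Par) (r : ℕ) : p.lv r ≤ p.lam r := by
  cases r with
  | zero => exact Nat.zero_le _
  | succ r =>
    change p.lam r ≤ p.lam (r + 1)
    unfold Par.lam
    nlinarith

end BSc

theorem p_BS (hCP : S_CP) (hCHN : S_CHN) :
    S_BS := by
  intro Ω α β _ D p hD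
  obtain ⟨c1, -, -, -, c5, c6, -⟩ := hCHN Ω α β D p hD
  have hs := hD.str
  have det : ∀ {γ γ' : Type} {Z : Ω → γ} {G : Ω → γ'}, D.Q.Det Z G → ∀ {ω z}, Z z = Z ω →
      G z = G ω := fun h ω z e => h z ω (hs.pos z) (hs.pos ω) e
  have h2 : ∀ r < p.R, ∀ ω z, D.pw (p.lam r) z = D.pw (p.lam r) ω →
      D.Lab p r z = D.Lab p r ω := by
    intro r hr ω z h
    obtain ⟨a1, a2⟩ := c5 r hr
    have hT : p.lam r ≤ p.T := by omega
    have hlen : ∀ n ≤ p.lam r, D.len n z = D.len n ω := fun n hn => by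
      have e := (c1 n _ hn hT ω z).1 (congrArg Prod.snd h)
      rw [PD.len, PD.len, det (hs.dlo n (hn.trans hT)) e, det (hs.dhi n (hn.trans hT)) e]
    have hdeep : D.deep p r z ↔ D.deep p r ω := by
      have : r * p.L + p.L' ≤ p.lam r := by
        have := hD.ok.hL
        unfold Par.lam
        nlinarith
      rw [PD.deep, PD.deep, hlen _ le_rfl, hlen _ this]
    funext t
    refine propext (and_congr_right fun ht => ?_)
    obtain ⟨-, b2, -⟩ := a2 _ ht
    have hn : t.1 < p.T := by omega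
    obtain ⟨e1, e2⟩ := (c1 t.1 _ b2.le hT ω z).2.2 h
    have e3 := det (hs.dV2 _ hn) ((c1 (t.1 + 1) _ b2 hT ω z).1 (congrArg Prod.snd h))
    have e4 := det (hs.dV1 _ hn) e3
    have e5 : D.clean t.1 z = D.clean t.1 ω := det (hs.dclean _ hn) (Prod.ext e2 e3)
    have e6 : D.pG p r t.1 t.2.1 z = D.pG p r t.1 t.2.1 ω :=
      (hCP Ω Unit _ Unit D.Q (D.pw t.1)).2.2.1 _ ω z e1
    simp only [PD.gap, e1, e4, e5, e6, hdeep, det (hs.dlo2 _ hn) e3, det (hs.dhi2 _ hn) e3]
  refine ⟨fun r ω h => Classical.epsilon_spec h, h2, fun r => ?_, fun r ω y => ?_⟩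
  · induction r with
    | zero => exact fun _ _ _ _ => rfl
    | succ r ih =>
      intro hr ω z h
      have e1 := h2 r hr ω z h
      have hT : p.lam r ≤ p.T := by have := (c5 r hr).1; omega
      have e2 := ih (by omega) ω z ((c1 _ _ (BSc.lv_le p r) hT ω z).2.2 h).1
      simp only [PD.bs, PD.has, PD.yl, PD.lab, e1, e2]
  · induction r with
    | zero => exact fun h => by simp [PD.bs] at h
    | succ r ih =>
      intro h
      rw [PD.bs] at h
      split_ifs at h with hc
      · exact ⟨r, Nat.lt_succ_self r, hc.1, (Option.some.inj h).symm⟩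
      · obtain ⟨r', a, b⟩ := ih h
        exact ⟨r', by omega, b⟩

end Pool.Agent.P.MP_77a832_co.EL
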