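import Pool.Agent.P.MP_77a832_co.EL.BudAt

/-! Step BUD1. -/

set_option autoImplicit false

namespace Pool.Agent.P.MP_77a832_co.EL

open Finset Real Pool.Agent.P.MP_bf60a1_an.RA
open scoped Classical

namespace BUD1c

end BUD1c

theorem p_BUD1 (hHWF : S_HWF) (hHWS : S_HWS) (hFLR : S_FLR) (hLAMC : S_LAMC) (hSTEP : S_STEP) :
    S_BUD1 := by
  intro Ω α β _ D p hD σ σ' u A
  have i0 : ∀ ω, 0 < D.Q.p ω → 0 ≤ ind (D.Lam p σ u ω) := fun _ _ => ind_nonneg _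
  have := Bud.tele (fun y => Hw D.Q (fun ω => ind (D.Lam p σ u ω)) (D.Tt p σ u) (D.At p σ σ' u y))
    (fun y => Hw D.Q (fun ω => ind (D.Lam p σ u ω)) (D.Tt p σ u)
      fun ω => (D.Fi p σ' u y ω, D.At p σ σ' u y ω)) (fun y => D.FZ p σ σ' u y) p.s A
    (c := p.m * D.Q.pr (D.Lam p σ u)) (fun y => Bud.Hw_nonneg D.Q i0 _ _) (fun y => ?_)
    fun y _ => hSTEP _ _ _ D p hD σ σ' u y
  · rw [mul_assoc]; exact this
  · refine (Bud.Hw_le_log D.Q (Bud.dLam hLAMC hD σ σ' u y)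
      fun ω hω _ => Bud.fewT hFLR σ σ' u y ω hω).trans
      (mul_le_mul_of_nonneg_right ?_ (D.Q.pr_nonneg _))
    rw [log_pow]
    exact mul_le_of_le_one_right (Nat.cast_nonneg _) Bud.log_two_le

end Pool.Agent.P.MP_77a832_co.EL
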