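import Pool.Agent.P.MP_77a832_co.EL.BudAt

/-! Step BUD2. -/

set_option autoImplicit false

namespace Pool.Agent.P.MP_77a832_co.EL

open Finset Real Pool.Agent.P.MP_bf60a1_an.RA
open scoped Classical

namespace BUD2c

end BUD2c

theorem p_BUD2 (hHWM : S_HWM) (hHWF : S_HWF) (hHWS : S_HWS) (hFEW : S_FEW) (hFLR : S_FLR) (hCHN : S_CHN) (hELL : S_ELL) :
    S_BUD2 := by
  intro Ω α β _ D p hD σ σ' A r hr n hn y
  obtain ⟨c1, -, -, -, c5, c6, -⟩ := hCHN _ _ _ D p hD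
  obtain ⟨d1, d2⟩ := c5 r hr
  obtain ⟨d3, d4, d5⟩ := d2 n hn
  have mp : FP.MP (D.Q2 n) D.Q Prod.fst := D.Q.cpy_fst _
  have mp' : FP.MP (D.Q2 n) D.Q Prod.snd := D.Q.cpy_snd _
  have i0 : ∀ w, 0 < (D.Q2 n).p w → 0 ≤ ind (D.cand p r n y w.1) := fun _ _ => ind_nonneg _
  have dC : ∀ u, (D.Q2 n).Det (fun w => (D.Fi p σ' u y w.1, D.At p σ σ' u y w.1))
      fun w => D.cand p r n y w.1 := fun u =>
    Bud.det_trans _ (fun _ _ _ _ h => congrArg Prod.snd h)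
      (Bud.det_mp D.Q mp (Bud.dCand hELL hD σ σ' u r n y))
  have fw : Few D.Q (D.W (p.lam r)) (D.W n) ((2 ^ p.I) ^ p.mu) := by
    have := (hFEW Ω ℕ ℕ ℕ D.Q).2 D.W (2 ^ p.I) n (p.lam r - n) (one_le_pow₀ one_le_two)
      fun i _ hi => hD.str.fW i (by omega)
    rw [show n + (p.lam r - n) = p.lam r by omega] at this
    intro ω hω
    obtain ⟨F, a, b⟩ := this ω hω
    exact ⟨F, a.trans (pow_le_pow_right₀ (one_le_pow₀ one_le_two) (by omega)), b⟩
  have := Bud.tele (fun u => Hw (D.Q2 n) (fun w => ind (D.cand p r n y w.1)) (D.Ex p r)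
      fun w => (D.Fi p σ' u y w.1, D.At p σ σ' u y w.1))
    (fun u => Hw (D.Q2 n) (fun w => ind (D.cand p r n y w.1)) (D.Ex p r)
      fun w => (D.Tt p σ u w.1, D.Fi p σ' u y w.1, D.At p σ σ' u y w.1)) (fun _ => 0) p.m A
    (c := 2 * p.mu * p.I * D.Q.pr (D.cand p r n y)) (fun u => Bud.Hw_nonneg _ i0 _ _)
    (fun u => ?_) fun u _ => ?_
  · rw [sum_const_zero, add_zero, ← mul_assoc] at this
    exact this
  · refine (Bud.Hw_le_log _ (dC u) (N := (2 ^ p.I) ^ p.mu * (2 ^ p.I) ^ p.mu)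
      fun w hw hc => ?_).trans ?_
    · obtain ⟨F, a, b⟩ := fw w.1 (mp.pos hw)
      refine ⟨F ×ˢ F, ?_, fun z hz e => ?_⟩
      · rw [card_product, Nat.cast_mul]
        exact mul_le_mul a a (Nat.cast_nonneg _) (by positivity)
      · obtain ⟨-, f2, f3⟩ := Bud.ss_eq (Bud.at_eq (congrArg Prod.snd e)).2.1
        rw [f2] at f3
        have g1 : D.W n z.1 = D.W n w.1 :=
          (c1 n _ hc.1.le (by have := hc.2.1; omega) _ _).1 f3
        have g2 : D.W n z.2 = D.W n z.1 := congrArg Prod.snd (D.Q.cpy_eq hz)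
        exact mem_product.2 ⟨b _ (mp.pos hz) g1, b _ (mp'.pos hz) (g2.trans g1)⟩
    · rw [mp.pr (D.cand p r n y)]
      refine mul_le_mul_of_nonneg_right ?_ (D.Q.pr_nonneg _)
      rw [← pow_mul, ← pow_add, log_pow]
      push_cast
      nlinarith [Bud.log_two_le, mul_nonneg (Nat.cast_nonneg (α := ℝ) p.I)
        (Nat.cast_nonneg (α := ℝ) p.mu)]
  · rw [add_zero]
    refine Bud.Hw_mono_right _ _ (Bud.det_trans _ (fun _ _ _ _ h => congrArg Prod.snd h)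
      (Bud.det_ind _ (dC u))) i0 fun a b _ _ e => ?_
    obtain ⟨f1, f2⟩ := Prod.mk.inj e
    obtain ⟨f3, f4, -⟩ := Bud.at_eq f2
    have f5 : D.Fi p σ' u y a.1 = D.Fi p σ' u y b.1 := by
      refine (hFLR _ _ _ p.m).1 ?_
      rw [show u + p.m + y + p.q + p.m = u + p.m + p.m + y + p.q by omega]
      exact f1
    exact Prod.ext f3 (Prod.ext f5 (Prod.ext ((hFLR _ _ _ _).1 f3)
      (Prod.ext f4 ((hFLR _ _ _ _).1 f5))))

end Pool.Agent.P.MP_77a832_co.EL
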