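import Pool.Agent.P.MP_77a832_co.EL.BIface

/-! Step CEN. -/

set_option autoImplicit false

namespace Pool.Agent.P.MP_77a832_co.EL

open Finset Real Pool.Agent.P.MP_bf60a1_an.RA
open scoped Classical

namespace CENc

theorem two (N : ℕ) (s : ℕ → Prop) (t : Prop) (h1 : ∀ i, s i → t)
    (h2 : ∀ i j, i + 2 ≤ j → j < N → s i → ¬ s j) : ∑ i ∈ range N, ind (s i) ≤ 2 * ind t := by
  by_cases h : ∃ i, s i
  · have a : ∑ i ∈ range N, ind (s i) = #((range N).filter s) := by simp [ind]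
    have b : (range N).filter s ⊆ {Nat.find h, Nat.find h + 1} := fun j hj => by
      have c1 := Nat.find_min' h (mem_filter.1 hj).2
      have c2 : ¬ Nat.find h + 2 ≤ j := fun c => h2 _ j c (mem_range.1 (mem_filter.1 hj).1) (Nat.find_spec h)
        (mem_filter.1 hj).2
      rw [mem_insert, mem_singleton]
      omega
    rw [a, ind_pos (h1 _ (Nat.find_spec h)), mul_one]
    exact_mod_cast (card_le_card b).trans card_le_two
  · rw [sum_eq_zero fun i _ => ind_neg fun c => h ⟨i, c⟩]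
    exact mul_nonneg zero_le_two (ind_nonneg _)

end CENc

theorem p_CEN (hCHN : S_CHN) :
    S_CEN := by
  intro Ω α β _ D p hD A ev
  obtain ⟨c1, -, -, -, -, c2, -⟩ := hCHN _ _ _ D p hD
  rw [PD.Sm, sum_comm, mul_sum]
  refine sum_le_sum fun u _ => ?_
  let s : ℕ → Ω → Prop := fun i ω =>
    ev u ω ∧ D.sel (p.cap + i) ω ∧ ∃ z, D.tw (p.cap + i) ω z ∧ D.Sc p u ω z
  refine (sum_le_sum (g := fun i => D.Q.pr (s i)) fun i hi => ?_).trans ?_
  · have hi' := mem_range.1 hi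
    refine le_of_le_of_eq (FP.pr_mono _ fun w hw h => ?_) ((D.Q.bind_fst _).pr (s i))
    refine ⟨h.2.2, h.1, w.2, D.Q.cond_mem (lt_of_lt_of_le ?_
      (hD.str.tmass _ _ (by omega) h.1.1)) (D.Q.bind_pos hw).2, h.2.1⟩
    have a1 := hD.ok.ζ0
    have a2 : (0 : ℝ) < p.M := by exact_mod_cast hD.ok.M1
    have a3 := D.Q.cl_pos (D.Nd (p.cap + i)) (hD.str.pos w.1)
    positivity
  · simp only [FP.pr]
    rw [← FP.E_sum, ← FP.E_mul_left]
    refine D.Q.E_mono fun ω _ => CENc.two _ (fun i => s i ω) _ (fun i h => h.1) ?_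
    rintro i j hij hj ⟨-, a1, z, a2, a3, -⟩ ⟨-, -, z', b2, -, b3⟩
    have e := hD.str.xg _ ω z z' (by omega) a1.1 a1.2 a2
      ((c1 _ (p.cap + j) (by omega) (by omega) ω z').2.1 (hD.str.tnd _ _ _ b2))
    rw [abs_sub_comm] at e
    rw [pow_succ] at b3
    have h0 : (0 : ℝ) < 2 ^ p.a := by positivity
    nlinarith [abs_nonneg (D.xx ω - D.xx z'), mul_le_mul_of_nonneg_left e h0.le]

end Pool.Agent.P.MP_77a832_co.EL
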