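import Pool.Agent.P.MP_77a832_co.EL.BIface

/-! Step CHN. -/

set_option autoImplicit false

namespace Pool.Agent.P.MP_77a832_co.EL

open Finset Real Pool.Agent.P.MP_bf60a1_an.RA
open scoped Classical

theorem p_CHN :
    S_CHN := by
  intro Ω α β _ D p ⟨hp, hs⟩
  have q := hs.pos
  have hN := hp.hN
  have hL := hp.hL
  have hT : p.T = p.J + 3 * p.N := rfl
  have hc : p.cap = p.J + p.N - 1 := rfl
  have hR : p.R * p.L = p.J := by simp only [Par.R, Par.J, Par.N]; ring
  have a1 : ∀ n n', n ≤ n' → n' ≤ p.T → ∀ ω z, (D.W n' z = D.W n' ω → D.W n z = D.W n ω) ∧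
      (D.Nd n' z = D.Nd n' ω → D.Nd n z = D.Nd n ω) := fun n n' h => by
    induction n', h using Nat.le_induction with
    | base => exact fun _ _ _ => ⟨id, id⟩
    | succ k _ ih =>
      exact fun h ω z => ⟨fun e => (ih (by omega) ω z).1 (hs.dW k h _ _ (q z) (q ω)
        (hs.dV1 k h _ _ (q z) (q ω) (hs.dV2 k h _ _ (q z) (q ω) e))),
        fun e => (ih (by omega) ω z).2 (hs.dNN k h _ _ (q z) (q ω) e)⟩
  have a0 : ∀ n ≤ p.T, ∀ ω, D.lo n ω ≤ D.hi n ω := fun n h ω => by
    rcases n with _ | n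
    · obtain ⟨b1, b2, b3, b4, b5⟩ := hs.nest 0 (by omega) ω
      linarith
    · exact (hs.nest n h ω).2.2.1
  have a2 : ∀ n n', n ≤ n' → n' ≤ p.T → ∀ ω, D.lo n ω ≤ D.lo n' ω ∧ D.hi n' ω ≤ D.hi n ω :=
    fun n n' h => by
    induction n', h using Nat.le_induction with
    | base => exact fun _ _ => ⟨le_rfl, le_rfl⟩
    | succ k _ ih =>
      intro h ω
      obtain ⟨b1, b2, b3, b4, b5⟩ := hs.nest k h ω
      obtain ⟨c1, c2⟩ := ih (by omega) ω
      exact ⟨by linarith, by linarith⟩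
  have s0 : 0 < p.sh := rpow_pos_of_pos two_pos _
  have s1 : p.sh ≤ 1 := rpow_le_one_of_one_le_of_nonpos one_le_two
    (mul_nonpos_of_nonpos_of_nonneg (by linarith [hp.η1]) (Nat.cast_nonneg _))
  refine ⟨fun n n' h h' ω z => ⟨(a1 n n' h h' ω z).1, (a1 n n' h h' ω z).2, fun e => ?_⟩,
    fun n n' h h' ω => ⟨(a2 n n' h h' ω).1, a0 n' h' ω, (a2 n n' h h' ω).2⟩, fun n h ω z e => ?_,
    fun n t => ?_, fun r hr => ?_, by omega, by omega, hR⟩
  · have e' : D.pw n z = D.pw n ω :=
      Prod.ext (congrArg Prod.fst e :) ((a1 n n' h h' ω z).1 (congrArg Prod.snd e))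
    exact ⟨e', hs.dN n (h.trans h') _ _ (q z) (q ω) e'⟩
  · obtain ⟨b1, b2, b3, b4, b5⟩ := hs.nest n h ω
    obtain ⟨c1, c2, c3, c4, c5⟩ := hs.nest n h z
    have d1 := hs.dlo n h.le _ _ (q z) (q ω) e
    have d2 := hs.dhi n h.le _ _ (q z) (q ω) e
    exact max_le (by rw [PD.len]; linarith) (by rw [PD.len]; linarith)
  · induction t with
    | zero => simp
    | succ t ih =>
      intro c ω h hcd
      have l0 : 0 ≤ D.len n ω := sub_nonneg.2 (a0 n (by omega) ω)
      rw [← add_assoc, Nat.Ico_succ_right_eq_insert_Ico (Nat.le_add_right n t), filter_insert] at hcd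
      split_ifs at hcd with hh
      · refine le_trans hh ((mul_le_mul_of_nonneg_left (ih c ω (by omega) hcd) s0.le).trans ?_)
        rw [← mul_assoc, ← pow_succ']
        exact mul_le_mul_of_nonneg_right (pow_le_pow_of_le_one s0.le s1 (by omega)) l0
      · rw [card_insert_of_notMem (by simp)] at hcd
        obtain ⟨c1, c2⟩ := a2 (n + t) (n + (t + 1)) (by omega) h ω
        have := ih (c - 1) ω (by omega) (by omega)
        rw [show t + 1 - c = t - (c - 1) by omega]
        exact le_trans (by simp only [PD.len]; linarith) this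
  · have : (r + 1) * p.L ≤ p.J := hR ▸ Nat.mul_le_mul_right _ hr
    simp only [Par.lam, Par.grp, Par.mu, mem_Ico, add_mul, one_mul] at this ⊢
    exact ⟨by omega, fun n hn => by omega⟩

end Pool.Agent.P.MP_77a832_co.EL
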