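import Pool.Agent.P.MP_77a832_co.EL.Ball

/-! From the shift argument in the classes of the pair space to the gain for one ball. -/

set_option autoImplicit false

namespace Pool.Agent.P.MP_77a832_co.EL

open Finset Real Pool.Agent.P.MP_bf60a1_an.RA
open scoped Classical

variable {Ω β γ δ ι ι' : Type} [Fintype Ω]

theorem exists_strip (P : FP Ω) (T : Ω → ℤ) (G : Ω → β) {ω : Ω} (hω : 0 < P.p ω) (t₀ : ℤ) (N : ℕ)
    (hN : ∀ z, 0 < P.p z → G z = G ω → t₀ ≤ T z ∧ T z < t₀ + N) (B : ℤ → Prop) {θ : ℝ}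
    (hθ : 0 < θ) (h : θ ≤ cp P (fun z => B (T z)) G ω) :
    ∃ t, B t ∧ t₀ ≤ t ∧ t < t₀ + N ∧ θ / N ≤ cp P (fun z => T z = t) G ω := by
  by_contra hc
  push Not at hc
  have hcl := P.cl_pos G hω
  have h0 : (0 : ℝ) < N := by
    have := hN ω hω rfl
    have : 0 < N := by omega
    exact_mod_cast this
  set F := (Ico t₀ (t₀ + N)).filter B
  have h1 : (P.pr fun z => B (T z) ∧ G z = G ω) ≤ P.pr fun z => ∃ t ∈ F, T z = t ∧ G z = G ω :=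
    P.pr_mono fun z hz h => ⟨T z, mem_filter.2 ⟨mem_Ico.2 (hN z hz h.2), h.1⟩, rfl, h.2⟩
  have h2 := h1.trans (P.pr_exists_le F _)
  rw [cp, le_div_iff₀ hcl] at h
  have h3 : ∀ t ∈ F, (P.pr fun z => T z = t ∧ G z = G ω) < θ / N * P.cl G ω := fun t ht => by
    have h4 := mem_filter.1 ht
    have h5 := hc t h4.2 (mem_Ico.1 h4.1).1 (mem_Ico.1 h4.1).2
    rwa [cp, div_lt_iff₀ hcl] at h5
  rcases F.eq_empty_or_nonempty with he | he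
  · rw [he, sum_empty] at h2
    nlinarith [mul_pos hθ hcl]
  have h6 := sum_lt_sum_of_nonempty he h3
  rw [sum_const, nsmul_eq_mul] at h6
  have h7 : (F.card : ℝ) ≤ N := by
    have := card_filter_le (Ico t₀ (t₀ + N)) B
    rw [Int.card_Ico, show t₀ + N - t₀ = N by ring, Int.toNat_natCast] at this
    exact_mod_cast this
  have h8 := mul_le_mul_of_nonneg_right h7 (by positivity : 0 ≤ θ / N * P.cl G ω)
  have h9 : N * (θ / N * P.cl G ω) = θ * P.cl G ω := by field_simp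
  linarith

theorem two_strips (P : FP Ω) (T : Ω → ℤ) (G : Ω → β) {ω : Ω} (hω : 0 < P.p ω) (t₀ : ℤ) (N : ℕ)
    (hN : ∀ z, 0 < P.p z → G z = G ω → t₀ ≤ T z ∧ T z < t₀ + N) {θ : ℝ} (hθ : 0 < θ)
    (h : ¬ heavy P θ T G ω) : ∃ t₁ t₂ : ℤ, (2 : ℝ) ≤ |(t₂ : ℝ) - t₁| ∧ |(t₂ : ℝ) - t₁| + 1 ≤ N ∧
      θ / N ≤ cp P (fun z => T z = t₁) G ω ∧ θ / N ≤ cp P (fun z => T z = t₂) G ω := by
  unfold heavy at h
  push Not at h
  obtain ⟨t₁, -, a1, a2, a3⟩ := exists_strip P T G hω t₀ N hN (fun _ => True) hθ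
    ((h 0).trans (div_le_div_of_nonneg_right (P.pr_mono fun _ _ h => ⟨trivial, h.2⟩)
      (P.cl_nonneg _ _)))
  obtain ⟨t₂, b0, b1, b2, b3⟩ := exists_strip P T G hω t₀ N hN (fun t => 2 ≤ |t - t₁|) hθ (h t₁)
  refine ⟨t₁, t₂, by exact_mod_cast b0, ?_, a3, b3⟩
  have : |t₂ - t₁| + 1 ≤ N := by
    have : |t₂ - t₁| ≤ N - 1 := abs_le.2 ⟨by omega, by omega⟩
    omega
  exact_mod_cast this

theorem apr_of_prd {P : FP Ω} {e : ℝ} {T F : Ω → ℤ} {G : Ω → β} {C : Ω → γ} {ω : Ω}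
    (hω : 0 < P.p ω) (h : Prd P e T F G C ω) :
    APr P (e * P.pr fun z => C z = C ω) T F (fun t => cp P (fun z => T z = t) G ω)
      fun z => C z = C ω := by
  intro t B
  have h1 := h t B
  have hcl := P.cl_pos C hω
  have h2 : cp P (fun z => B (F z)) C ω = P.pr (fun z => B (F z) ∧ C z = C ω) / P.cl C ω := rfl
  rw [h2, cp, ← mul_div_assoc, ← sub_div, abs_div, abs_of_pos hcl, div_le_iff₀ hcl] at h1
  exact h1

/-- CDF in the form used for one class `D` of the pair space -/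
theorem cdf_prd {P : FP Ω} {a b ξ : Ω → ℝ} {κ κ₀ a₀ r e ε θ : ℝ} {D : Ω → δ} {C₁ : Ω → ι}
    {C₂ : Ω → ι'} {G₁ : Ω → β} {G₂ : Ω → γ} {x : Ω} (hx : 0 < P.p x)
    (hF : Fr P a b ξ κ κ₀ a₀ r (fun z => D z = D x) (fun z => C₁ z = C₁ x) fun z => C₂ z = C₂ x)
    (h1 : Prd P e (fun z => ⌊ξ z⌋) (fun z => ⌊a z⌋) G₁ C₁ x)
    (h2 : Prd P e (fun z => ⌊ξ z⌋) (fun z => ⌊b z⌋) G₂ C₂ x)
    (hκ : 16 ≤ |κ|) (hκ' : |κ| ≤ 96) (N Kc : ℕ) (t₀ : ℤ)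
    (hN : ∀ z, 0 < P.p z → G₁ z = G₁ x → t₀ ≤ ⌊ξ z⌋ ∧ ⌊ξ z⌋ < t₀ + N)
    (hr : ((Kc : ℝ) + 1) * (97 * N) + 20 ≤ r) (hθ : 0 < θ) (hε : 0 < ε) (he : 0 ≤ e)
    (hh : ¬ heavy P θ (fun z => ⌊ξ z⌋) G₁ x)
    (n1 : ε * P.cl C₁ x ≤ P.pr fun z => D z = D x ∧ |a z - a₀| ≤ r)
    (n2 : ε * P.cl C₂ x ≤ P.pr fun z => D z = D x ∧ |a z - a₀| ≤ r)
    (e1 : 4 * e ≤ ε * (θ / N)) (e2 : 8 * e * Kc ≤ ε ^ 2 * (θ / N) ^ 2) :
    Kc * P.pr (fun z => D z = D x ∧ |a z - a₀| ≤ 2) ≤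
      2 * P.pr fun z => D z = D x ∧ |a z - a₀| ≤ r := by
  obtain ⟨t₁, t₂, a1, a2, a3, a4⟩ := two_strips P _ G₁ hx t₀ N hN hθ hh
  have h0 : (0 : ℝ) < N := by linarith [abs_nonneg ((t₂ : ℝ) - t₁)]
  exact cdf hF (apr_of_prd hx h1) (apr_of_prd hx h2)
    (fun t => ⟨cp_nonneg _ _ _ _, cp_le_one _ _ _ _⟩) hκ hκ' N Kc t₁ t₂ a1 a2 hr
    (div_pos hθ h0) hε he a3 a4 n1 n2 e1 e2

theorem E_cpy' (Q : FP Ω) (V : Ω → β) (φ : Ω → ℝ) (R : Ω → Prop) :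
    ((Q.cpy V).E fun x => φ x.1 * ind (R x.2)) = Q.E fun z => φ z * cp Q R V z := by
  rw [FP.cpy, FP.E_glue]
  refine Q.E_congr fun z hz => ?_
  simp only []
  rw [FP.E_mul_left]
  exact congrArg _ (Q.pr_cv hz R)

theorem pr_cpy' (Q : FP Ω) (V : Ω → β) (s R : Ω → Prop) :
    ((Q.cpy V).pr fun x => s x.1 ∧ R x.2) = Q.E fun z => ind (s z) * cp Q R V z := by
  rw [← E_cpy']; exact FP.E_congr _ fun x _ => ind_and _ _

/-- the gain for one ball -/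
theorem full_pt (Q : FP Ω) (V : Ω → β) (D : Ω × Ω → δ) (Bh Br A R : Ω → Prop)
    (NN US : Ω × Ω → Prop) {d d' k : ℝ} (hd : 0 ≤ d) (hk : 0 ≤ k)
    (hA : ∀ z, 0 < Q.p z → A z → d ≤ cp Q R V z)
    (h1 : d' * Q.pr Bh ≤ Q.pr fun z => A z ∧ Bh z)
    (h2 : ((Q.cpy V).pr fun x => (Bh x.1 ∧ R x.2) ∧ NN x) ≤ d * d' / 4 * Q.pr Bh)
    (h3 : ((Q.cpy V).pr fun x => (Bh x.1 ∧ R x.2) ∧ US x) ≤
      ((Q.cpy V).pr fun x => Bh x.1 ∧ R x.2) / 2)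
    (h4 : ∀ x, 0 < (Q.cpy V).p x → Bh x.1 → R x.2 → ¬ NN x → ¬ US x →
      k * (Q.cpy V).pr (fun z => D z = D x ∧ Bh z.1) ≤
        2 * (Q.cpy V).pr fun z => D z = D x ∧ Br z.1) :
    k * (d * d' / 8) * Q.pr Bh ≤ Q.pr Br := by
  have a1 : d * Q.pr (fun z => A z ∧ Bh z) ≤ (Q.cpy V).pr fun x => Bh x.1 ∧ R x.2 := by
    rw [pr_cpy', FP.pr, ← Q.E_mul_left]
    refine Q.E_mono fun z hz => ?_
    by_cases h : A z ∧ Bh z
    · rw [ind_pos h, ind_pos h.2, mul_one, one_mul]; exact hA z hz h.1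
    · rw [ind_neg h, mul_zero]; exact mul_nonneg (ind_nonneg _) (cp_nonneg _ _ _ _)
  have a2 := class_sum (Q.cpy V) D (fun x => (Bh x.1 ∧ R x.2) ∧ ¬ NN x ∧ ¬ US x)
    (fun x => Bh x.1) (fun x => Br x.1) hk (by norm_num : (0 : ℝ) ≤ 2)
    fun x hx h => ⟨h.1.1, h4 x hx h.1.1 h.1.2 h.2.1 h.2.2⟩
  rw [(Q.cpy_fst V).pr Br] at a2
  have a3 : ((Q.cpy V).pr fun x => Bh x.1 ∧ R x.2) ≤ (Q.cpy V).pr fun x =>
      ((Bh x.1 ∧ R x.2) ∧ ¬ NN x ∧ ¬ US x) ∨ (((Bh x.1 ∧ R x.2) ∧ NN x) ∨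
        (Bh x.1 ∧ R x.2) ∧ US x) := FP.pr_mono _ fun x _ h => by tauto
  have a4 := a3.trans ((FP.pr_or_le _ _ _).trans (add_le_add_right (FP.pr_or_le _ _ _) _))
  have a5 := mul_le_mul_of_nonneg_left h1 hd
  have a6 : d * d' / 4 * Q.pr Bh ≤
      (Q.cpy V).pr fun x => (Bh x.1 ∧ R x.2) ∧ ¬ NN x ∧ ¬ US x := by nlinarith
  nlinarith [mul_le_mul_of_nonneg_left a6 hk]

/-- the part of a ball with a bad partner is rarely large -/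
theorem nn_rare (Q : FP Ω) (V : Ω → β) (C : Ω → γ) (a : Ω → ℝ) {t c : ℝ} (ht : 0 < t)
    (hc : 0 < c) (La : Ω → Prop) (hL : Q.Det C La) (NN : Ω × Ω → Prop) :
    (Q.pr fun ω => La ω ∧ c * Q.pr (bl C a t ω) <
      (Q.cpy V).pr fun x => bl C a t ω x.1 ∧ NN x) ≤
        3 / c * (Q.cpy V).pr fun x => La x.1 ∧ NN x := by
  set φ : Ω → ℝ := fun z => ind (La z) * (Q.cv V (V z)).pr fun v => NN (z, v)
  have h0 : ∀ s : Ω → Prop, ((Q.cpy V).pr fun x => s x.1 ∧ NN x) =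
      Q.E fun z => ind (s z) * (Q.cv V (V z)).pr fun v => NN (z, v) := fun s => by
    rw [FP.pr, FP.cpy, FP.E_glue]
    refine Q.E_congr fun z _ => ?_
    simp only [ind_and]
    rw [FP.E_mul_left]; rfl
  have h1 := res3 Q C a ht (φ := φ) fun z _ => mul_nonneg (ind_nonneg _) (FP.pr_nonneg _ _)
  have h2 : (Q.pr fun ω => La ω ∧ c * Q.pr (bl C a t ω) <
      (Q.cpy V).pr fun x => bl C a t ω x.1 ∧ NN x) ≤
      Q.E fun ω => (Q.E fun z => ind (bl C a t ω z) * φ z) / Q.pr (bl C a t ω) / c := by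
    refine Q.E_mono fun ω hω => ?_
    have hb : 0 < Q.pr (bl C a t ω) := Q.pr_pos hω ⟨rfl, by simpa using ht.le⟩
    by_cases h : La ω ∧ c * Q.pr (bl C a t ω) < (Q.cpy V).pr fun x => bl C a t ω x.1 ∧ NN x
    · rw [ind_pos h, one_le_div hc, le_div_iff₀ hb]
      refine h.2.le.trans ?_
      rw [h0]
      refine Q.E_mono fun z hz => ?_
      by_cases hz' : bl C a t ω z
      · have : La z := by rw [hL z ω hz hω hz'.1]; exact h.1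
        simp only [φ, ind_pos this, one_mul, le_refl]
      · simp only [ind_neg hz', zero_mul, le_refl]
    · rw [ind_neg h]
      exact div_nonneg (div_nonneg (Q.E_nonneg fun z _ => mul_nonneg (ind_nonneg _)
        (mul_nonneg (ind_nonneg _) (FP.pr_nonneg _ _))) hb.le) hc.le
  rw [Q.E_div] at h2
  rw [h0, div_mul_eq_mul_div]
  exact h2.trans (div_le_div_of_nonneg_right h1 hc.le)

end Pool.Agent.P.MP_77a832_co.EL
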