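import Pool.Agent.P.MP_77a832_co.EL.BIface
import Pool.Agent.P.MP_77a832_co.EL.Full

/-! Step CLF. -/

set_option autoImplicit false

namespace Pool.Agent.P.MP_77a832_co.EL

open Finset Real Pool.Agent.P.MP_bf60a1_an.RA
open scoped Classical

namespace CLFc

variable {Ω β γ : Type} [Fintype Ω]

theorem cp_cls (P : FP Ω) (s : Ω → Prop) (V : Ω → β) {ω z : Ω} (h : V z = V ω) :
    cp P s V z = cp P s V ω := by unfold cp FP.cl; rw [h]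

theorem prd_congr {P : FP Ω} {e : ℝ} {T T' F : Ω → ℤ} {G : Ω → β} {C : Ω → γ} {ω : Ω}
    (hT : ∀ z, 0 < P.p z → T z = T' z) (h : Prd P e T F G C ω) : Prd P e T' F G C ω := by
  intro t B
  have h1 := h t B
  unfold cp at h1 ⊢
  rwa [P.pr_congr (t := fun z => (T' z = t ∧ B (F z)) ∧ C z = C ω) fun z hz => by
      simp only [hT z hz],
    P.pr_congr (s := fun z => T z = t ∧ G z = G ω) (t := fun z => T' z = t ∧ G z = G ω)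
      fun z hz => by simp only [hT z hz]] at h1

theorem strip (v : ℝ) (u m : ℕ) :
    ⌊v * 2 ^ u⌋ * 2 ^ m ≤ ⌊v * 2 ^ (u + m)⌋ ∧ ⌊v * 2 ^ (u + m)⌋ < ⌊v * 2 ^ u⌋ * 2 ^ m + (2 ^ m : ℕ) := by
  have h1 := Int.floor_le (v * 2 ^ u)
  have h2 := Int.lt_floor_add_one (v * 2 ^ u)
  have h3 : (0 : ℝ) < 2 ^ m := by positivity
  rw [Int.le_floor, Int.floor_lt, pow_add, ← mul_assoc]
  push_cast
  constructor <;> nlinarith

theorem half_mul (k : ℕ) : (1 / 2 : ℝ) ^ k * 2 ^ k = 1 := by rw [← mul_pow]; norm_num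

theorem num {θ ε e A B Q : ℝ} (hθ : 0 < θ) (hθ1 : θ ≤ 1 / 2) (hε : 0 < ε) (hε1 : ε ≤ 1)
    (he : 0 < e) (hA : 1 ≤ A) (hB : 1 ≤ B) (hQ : B ≤ Q) (h : 8 * e * Q ≤ (θ / A) ^ 2 * ε ^ 2) :
    (B + 1) * (97 * A) + 20 ≤ 256 * (A * B) ∧ 4 * e ≤ ε * (θ / A) ∧
      8 * e * B ≤ ε ^ 2 * (θ / A) ^ 2 := by
  have g1 : θ / A * ε ≤ 1 :=
    mul_le_one₀ ((div_le_one (by positivity)).2 (by linarith)) hε.le hε1
  have g2 : 0 < θ / A * ε := by positivity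
  have g6 : 8 * e * B ≤ (θ / A) ^ 2 * ε ^ 2 :=
    le_trans (mul_le_mul_of_nonneg_left hQ (by positivity)) h
  refine ⟨by nlinarith, by nlinarith, by linarith⟩

theorem kap {c : ℝ} {j : ℕ} (h1 : 16 * (1 / 2) ^ j ≤ |c|) (h2 : |c| ≤ 96 * (1 / 2) ^ j) :
    16 ≤ |c * 2 ^ j| ∧ |c * 2 ^ j| ≤ 96 := by
  have h := half_mul j
  have h' : (0 : ℝ) < 2 ^ j := by positivity
  rw [abs_mul, abs_of_pos h']
  constructor <;> nlinarith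

theorem col (hFLR : S_FLR) {v v' : ℝ} {u : ℕ} (m : ℕ) (h : ⌊v * 2 ^ u⌋ = ⌊v' * 2 ^ u⌋) :
    |v * 2 ^ (u + m) - v' * 2 ^ (u + m)| ≤ 2 ^ m := by
  have h1 := (hFLR v v' u 0).2.1 h
  have h2 := half_mul u
  have h3 : (0 : ℝ) < 2 ^ (u + m) := by positivity
  rw [← sub_mul, abs_mul, abs_of_pos h3, pow_add]
  have h4 := mul_le_mul_of_nonneg_right h1 (by positivity : (0 : ℝ) ≤ 2 ^ u * 2 ^ m)
  rwa [← mul_assoc ((1 / 2 : ℝ) ^ u), h2, one_mul] at h4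

theorem cell (hFLR : S_FLR) {k a j : ℕ} {v v' : ℝ} (h1 : ¬ near v k (8 / 2 ^ a))
    (h2 : |v' * 2 ^ (k + (a + j)) - v * 2 ^ (k + (a + j))| ≤ 8 * 2 ^ j) :
    ⌊v' * 2 ^ k⌋ = ⌊v * 2 ^ k⌋ := by
  refine (hFLR v v' k 0).2.2.1 _ h1 ?_
  rw [← sub_mul, abs_mul, abs_of_pos (by positivity : (0 : ℝ) < 2 ^ (k + (a + j))), pow_add,
    pow_add] at h2
  rw [le_div_iff₀ (by positivity)]
  refine le_of_mul_le_mul_right ?_ (by positivity : (0 : ℝ) < 2 ^ j)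
  linarith

theorem mid (hFLR : S_FLR) {k a j : ℕ} {v v' : ℝ}
    (h : ⌊v * 2 ^ (k + a + 2)⌋ = ⌊v' * 2 ^ (k + a + 2)⌋) :
    |v * 2 ^ (k + (a + j)) - v' * 2 ^ (k + (a + j))| ≤ 2 ^ j / 4 := by
  have h1 := (hFLR v v' _ 0).2.1 h
  have h4 := half_mul (k + a + 2)
  rw [← sub_mul, abs_mul, abs_of_pos (by positivity : (0 : ℝ) < 2 ^ (k + (a + j)))]
  have h5 := mul_le_mul_of_nonneg_right h1 (by positivity : (0 : ℝ) ≤ 2 ^ (k + (a + j)))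
  have h6 : (1 / 2 : ℝ) ^ (k + a + 2) * 2 ^ (k + (a + j)) =
      (1 / 2) ^ (k + a + 2) * 2 ^ (k + a + 2) * (2 ^ j / 4) := by ring
  rwa [h6, h4, one_mul] at h5

theorem tri {x y z c d e : ℝ} (h1 : |x - y| ≤ c) (h2 : |y - z| ≤ d) (h : c + d ≤ e) :
    |x - z| ≤ e := (abs_sub_le x y z).trans (by linarith)

theorem tri2 {x y s t κ c d A e : ℝ} (h1 : |x - y| ≤ c) (h2 : |s - t| ≤ A) (hκ : |κ| ≤ 96)
    (h : c + 96 * A ≤ e) : |x - κ * s - d - (y - κ * t - d)| ≤ e := by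
  have h4 : |κ * (s - t)| ≤ 96 * A := by
    rw [abs_mul]; exact mul_le_mul hκ h2 (abs_nonneg _) (by norm_num)
  have h5 := abs_le.1 h4
  have h6 := abs_le.1 h1
  exact abs_le.2 ⟨by linarith, by linarith⟩

theorem tri3 {x y s t κ c d A e : ℝ} (h1 : |x - κ * s - d - (y - κ * t - d)| ≤ c)
    (h2 : |s - t| ≤ A) (hκ : |κ| ≤ 96) (h : c + 96 * A ≤ e) : |x - y| ≤ e := by
  have h4 : |κ * (s - t)| ≤ 96 * A := by
    rw [abs_mul]; exact mul_le_mul hκ h2 (abs_nonneg _) (by norm_num)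
  have h5 := abs_le.1 h4
  have h6 := abs_le.1 h1
  exact abs_le.2 ⟨by linarith, by linarith⟩

theorem fin {A B : ℝ} {a m K q : ℕ} (hK : q = a + m + 8 + K)
    (h : ((2 ^ K : ℕ) : ℝ) * A ≤ 2 * B) : A ≤ 2 ^ (a + m + 9) / 2 ^ q * B := by
  have g7 : (2 : ℝ) ^ (a + m + 9) / 2 ^ q = 2 / 2 ^ K := by
    rw [hK]; field_simp; ring
  rw [g7, div_mul_eq_mul_div, le_div_iff₀ (by positivity)]
  push_cast at h
  linarith

end CLFc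

open CLFc

theorem p_CLF (_hCP : S_CP) (hMPC : S_MPC) (hFLR : S_FLR) (hCHN : S_CHN) (hELL : S_ELL) (hLAB : S_LAB) :
    S_CLF := by
  intro Ω α β _ D p hD σ σ' u r hr ω t w hL hu1 hh hw hE hu2 hn1 hn2
  obtain ⟨n, ρ, y⟩ := t
  dsimp only at hu1 hh hw hu2 hn1 hn2 ⊢
  obtain ⟨c1, -, -, -, c5, c6, -, -⟩ := hCHN _ _ _ D p hD
  obtain ⟨-, -, -, e4, -, -, -⟩ := hELL _ _ _ D p hD
  obtain ⟨l1, -, -, -, l5⟩ := hLAB _ _ _ D p hD r hr ω _ hL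
  have ok := hD.ok
  obtain ⟨c7, c8⟩ := c5 r hr
  have hlT : p.lam r ≤ p.T := by omega
  have hn := (c8 n hL.1).2.1
  dsimp only at l1 l5
  set P := D.Q2 n with hP
  have pe : ∀ z, 0 < P.p z → D.xx z.2 = D.xx z.1 ∧ D.yy z.2 = D.yy z.1 ∧ D.W n z.2 = D.W n z.1 ∧
      D.Nd 0 z.2 = D.Nd 0 z.1 := fun z hz => by
    have h := D.Q.cpy_eq hz
    have h1 : D.pt z.2 = D.pt z.1 := congrArg Prod.fst h
    exact ⟨by unfold PD.xx; rw [h1], by unfold PD.yy; rw [h1], congrArg Prod.snd h,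
      ((c1 0 n (Nat.zero_le _) (by omega) z.1 z.2).2.2 h).2⟩
  obtain ⟨⟨b1, b2⟩, hg⟩ := hE
  dsimp only at b1 b2 hg
  have wl : D.W (p.lam r) w.1 = D.W (p.lam r) ω := congrArg Prod.snd b1
  obtain ⟨l6, l7, l8⟩ := l5 w.2 ((pe w hw).2.2.1.trans ((c1 n _ hn.le hlT ω w.1).1 wl)) hg
  set k := u + p.m + y with hk
  set θ₁ := D.th p y ω
  set θ₂ := D.th p y w.2
  -- states along the two sides
  have s1 : ∀ z, D.W (p.lam r) z = D.W (p.lam r) ω → D.Nd 0 z = D.Nd 0 ω →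
      D.SS p y z = D.SS p y ω ∧ D.Pi p y z = D.Pj θ₁ z := fun z h h' => by
    obtain ⟨a1, a2, a3⟩ := e4 y _ ω z l1.2.1 hlT h
    exact ⟨Prod.ext h' (Prod.ext a1 a2), by unfold PD.Pi; rw [a3]⟩
  have s2 : ∀ z, D.W (p.lam r) z = D.W (p.lam r) w.2 → D.Nd 0 z = D.Nd 0 w.2 →
      D.SS p y z = D.SS p y w.2 ∧ D.Pi p y z = D.Pj θ₂ z := fun z h h' => by
    obtain ⟨a1, a2, a3⟩ := e4 y _ w.2 z l6.2.1 hlT h
    exact ⟨Prod.ext h' (Prod.ext a1 a2), by unfold PD.Pi; rw [a3]⟩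
  set Dv : Ω × Ω → ((β × ℤ) × ℕ) × ℕ := fun z => (D.Cl σ u (p.lam r) z.1, D.W (p.lam r) z.2)
  have dv : ∀ z, Dv z = Dv w ↔ (D.Nd 0 z.1 = D.Nd 0 ω ∧ D.X σ u z.1 = D.X σ u ω) ∧
      D.W (p.lam r) z.1 = D.W (p.lam r) ω ∧ D.W (p.lam r) z.2 = D.W (p.lam r) w.2 := fun z => by
    simp only [Dv, b1, Prod.mk.injEq]
    simp only [PD.Cl, PD.X0, Prod.mk.injEq, and_assoc]
  have dw := (dv w).1 rfl
  obtain ⟨K, hK⟩ : ∃ K, p.q = p.a + p.m + 8 + K := Nat.exists_eq_add_of_le ok.hq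
  have hK' : p.q = p.a + (p.m + 8 + K) := by omega
  set a : Ω × Ω → ℝ := fun z => (D.Pi p y z.1 - σ') * 2 ^ (k + p.q)
  set b : Ω × Ω → ℝ := fun z => (D.Pi p y z.2 - σ') * 2 ^ (k + p.q)
  set ξ : Ω × Ω → ℝ := fun z => (D.xx z.1 - σ) * 2 ^ (u + p.m)
  set a₀ : ℝ := (D.Pi p y ω - σ') * 2 ^ (k + p.q)
  set κ : ℝ := (θ₂ - θ₁) * 2 ^ (y + p.q)
  obtain ⟨R, hR0⟩ : ∃ R : ℝ, R = 2 ^ (p.m + 8 + K) := ⟨_, rfl⟩
  have hm : (1 : ℝ) ≤ 2 ^ p.m := one_le_pow₀ one_le_two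
  have hKK : (1 : ℝ) ≤ 2 ^ K := one_le_pow₀ one_le_two
  have hR : R = 256 * (2 ^ p.m * 2 ^ K) := by rw [hR0]; ring
  have hR' : 256 * 2 ^ p.m ≤ R := by
    rw [hR]; exact mul_le_mul_of_nonneg_left (le_mul_of_one_le_right (by positivity) hKK) (by norm_num)
  have hκ : 16 ≤ |κ| ∧ |κ| ≤ 96 := kap l7 l8
  have cell' : ∀ v v' : ℝ, ¬ near v k (8 / 2 ^ p.a) →
      |v' * 2 ^ (k + p.q) - v * 2 ^ (k + p.q)| ≤ 8 * R → ⌊v' * 2 ^ k⌋ = ⌊v * 2 ^ k⌋ :=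
    fun v v' h1 h2 => cell hFLR h1 (by rwa [hK', hR0] at h2)
  have mid' : ∀ v v' : ℝ, ⌊v * 2 ^ (k + p.a + 2)⌋ = ⌊v' * 2 ^ (k + p.a + 2)⌋ →
      |v * 2 ^ (k + p.q) - v' * 2 ^ (k + p.q)| ≤ R / 4 := fun v v' h => by
    rw [hK', hR0]; exact mid hFLR h
  have hb : ∀ z, 0 < P.p z → Dv z = Dv w →
      b z = a z - κ * ξ z - (θ₂ - θ₁) * σ * 2 ^ (k + p.q) := fun z hz h => by
    obtain ⟨⟨a1, -⟩, a3, a4⟩ := (dv z).1 h
    obtain ⟨d1, d2, -, d4⟩ := pe z hz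
    simp only [a, b, ξ, κ]
    rw [(s1 z.1 a3 a1).2, (s2 z.2 a4 (d4.trans (a1.trans ((pe w hw).2.2.2.trans dw.1.1).symm))).2]
    unfold PD.Pj
    rw [d1, d2, hk]; ring
  have cl1 : ∀ z, Dv z = Dv w → |a z - a₀| ≤ 2 * R →
      D.At p σ σ' u y z.1 = D.At p σ σ' u y ω := fun z h h' => by
    obtain ⟨⟨a1, a2⟩, a3, -⟩ := (dv z).1 h
    exact Prod.ext a2 (Prod.ext (s1 z.1 a3 a1).1 (cell' _ _ hu1 (h'.trans (by linarith only [hR', hm]))))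
  have cl2 : ∀ z, 0 < P.p z → Dv z = Dv w → |a z - a₀| ≤ 2 * R →
      D.cel p σ' k y z.2 = ⌊(D.Pj θ₂ ω - σ') * 2 ^ k⌋ := fun z hz h h' => by
    refine cell' _ _ hu2 ?_
    have h1 := hb z hz h
    have h2 := col hFLR p.m ((dv z).1 h).1.2
    have h3 : (D.Pj θ₂ ω - σ') * 2 ^ (k + p.q) =
        a₀ - κ * ((D.xx ω - σ) * 2 ^ (u + p.m)) - (θ₂ - θ₁) * σ * 2 ^ (k + p.q) := by
      simp only [a₀, κ]
      rw [(s1 ω rfl rfl).2]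
      unfold PD.Pj
      rw [hk]; ring
    change |b z - _| ≤ _
    rw [h1, h3]
    exact tri2 h' h2 hκ.2 (by linarith only [hR', hm])
  have ball : ∀ (c s : ℝ), s * 2 ^ (k + p.q) = c → ∀ z,
      (D.Ball p σ u r y s ω z.1 ∧ D.W (p.lam r) z.2 = D.W (p.lam r) w.2 ↔
        Dv z = Dv w ∧ |a z - a₀| ≤ c) := by
    intro c s hs z
    have h0 : (0 : ℝ) < 2 ^ (k + p.q) := by positivity
    have h1 : D.Pi p y z.1 = D.Pj θ₁ z.1 →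
        (|D.Pj θ₁ z.1 - D.Pi p y ω| ≤ s ↔ |a z - a₀| ≤ c) := fun h => by
      simp only [a, a₀]
      rw [← sub_mul, abs_mul, abs_of_pos h0, ← hs, mul_le_mul_iff_left₀ h0, h]
      ring_nf
    constructor
    · rintro ⟨⟨h2, h3⟩, h4⟩
      have h5 : Dv z = Dv w := Prod.ext (h2.trans b1.symm) h4
      obtain ⟨⟨a1, -⟩, a3, -⟩ := (dv z).1 h5
      exact ⟨h5, (h1 (s1 z.1 a3 a1).2).1 h3⟩
    · rintro ⟨h5, h3⟩
      obtain ⟨⟨a1, -⟩, a3, a4⟩ := (dv z).1 h5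
      exact ⟨⟨(congrArg Prod.fst h5).trans b1, (h1 (s1 z.1 a3 a1).2).2 h3⟩, a4⟩
  have q1 : p.hh u y * 2 ^ (k + p.q) = 2 := by
    unfold Par.hh; rw [mul_assoc, half_mul, mul_one]
  have q2 : p.rho u y * 2 ^ (k + p.q) = R := by
    unfold Par.rho
    rw [hK', ← add_assoc k, pow_add (2 : ℝ) (k + p.a), ← mul_assoc, half_mul, one_mul, hR0]
  have aw : |a w - a₀| ≤ 2 := ((ball 2 _ q1 w).1 ⟨⟨b1, b2⟩, rfl⟩).2
  have aw' : |a w - a₀| ≤ 2 * R := aw.trans (by linarith only [hR', hm])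
  have k1 : ∀ z, D.C2 p σ σ' u r y z = D.C2 p σ σ' u r y w → Dv z = Dv w := fun z h => by
    simp only [PD.C2, PD.At, PD.SS, PD.Ex, Prod.mk.injEq] at h
    exact (dv z).2 ⟨⟨h.1.2.1.1.trans dw.1.1, h.1.1.trans dw.1.2⟩, h.2.1.trans wl, h.2.2⟩
  have xe : ∀ z, 0 < P.p z → ∀ j, D.X σ j z.2 = D.X σ j z.1 := fun z hz j => by
    unfold PD.X; rw [(pe z hz).1]
  have k2 : ∀ z, 0 < P.p z → D.C2 p σ σ' u r y z.swap = D.C2 p σ σ' u r y w.swap →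
      Dv z = Dv w := fun z hz h => by
    simp only [PD.C2, PD.At, PD.SS, PD.Ex, Prod.mk.injEq, Prod.fst_swap, Prod.snd_swap] at h
    exact (dv z).2 ⟨⟨(pe z hz).2.2.2.symm.trans (h.1.2.1.1.trans ((pe w hw).2.2.2.trans dw.1.1)),
      (xe z hz u).symm.trans (h.1.1.trans ((xe w hw u).trans dw.1.2))⟩, h.2.2.trans wl, h.2.1⟩
  have hF : Fr P a b ξ κ ((θ₂ - θ₁) * σ * 2 ^ (k + p.q)) a₀ R (fun z => Dv z = Dv w)
      (fun z => D.C2 p σ σ' u r y z = D.C2 p σ σ' u r y w)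
      fun z => D.C2 p σ σ' u r y z.swap = D.C2 p σ σ' u r y w.swap := by
    refine ⟨hb, fun z _ => k1 z, k2, fun z hz h h' => ?_⟩
    obtain ⟨⟨a1, a2⟩, a3, a4⟩ := (dv z).1 h
    refine ⟨Prod.ext ((cl1 z h h').trans (cl1 w rfl aw').symm) (Prod.ext (a3.trans wl.symm) a4),
      Prod.ext (Prod.ext ?_ (Prod.ext ?_ ?_)) (Prod.ext a4 (a3.trans wl.symm))⟩
    · exact (xe z hz u).trans (a2.trans ((xe w hw u).trans dw.1.2).symm)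
    · exact (s2 z.2 a4 ((pe z hz).2.2.2.trans
        (a1.trans ((pe w hw).2.2.2.trans dw.1.1).symm))).1
    · exact (cl2 z hz h h').trans (cl2 w hw rfl aw').symm
  have sw : FP.MP P P Prod.swap := D.Q.cpy_swap _
  have h2 : Prd P p.e (fun z => ⌊ξ z⌋) (fun z => ⌊b z⌋) (fun z => D.At p σ σ' u y z.2)
      (fun z => D.C2 p σ σ' u r y z.swap) w := by
    refine prd_congr (T := fun z : Ω × Ω => D.Tt p σ u z.2) (fun z hz => xe z hz _) fun t B => ?_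
    have h := hn2.1 t B
    rwa [← (hMPC _ _ Unit _ P P _ sw).1, ← (hMPC _ _ Unit _ P P _ sw).1,
      ← (hMPC _ _ Unit _ P P _ sw).1] at h
  have h3 : ¬ heavy P p.θ1 (fun z => ⌊ξ z⌋) (fun z => D.At p σ σ' u y z.1) w := by
    rintro ⟨t, ht⟩
    refine hh ⟨t, ?_⟩
    rw [← cp_cls D.Q _ _ (cl1 w rfl aw'), ← (hMPC _ _ Unit _ D.Q P _ (D.Q.cpy_fst _)).1]
    exact ht
  have n1 : p.ε2 * P.cl (D.C2 p σ σ' u r y) w ≤ P.pr fun z => Dv z = Dv w ∧ |a z - a₀| ≤ R := by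
    have h := hn1.2
    rw [cq, cp, le_div_iff₀ (P.cl_pos _ hw)] at h
    exact h.trans (P.pr_mono fun z _ hz =>
      ⟨k1 z hz.2, tri (mid' _ _ hz.1) aw (by linarith only [hR', hm])⟩)
  have n2 : p.ε2 * P.cl (fun z => D.C2 p σ σ' u r y z.swap) w ≤
      P.pr fun z => Dv z = Dv w ∧ |a z - a₀| ≤ R := by
    have h := hn2.2
    rw [cq, ← (hMPC _ _ Unit _ P P _ sw).1, cp, le_div_iff₀ (P.cl_pos _ hw)] at h
    refine h.trans (P.pr_mono fun z hz hz' => ⟨k2 z hz hz'.2, ?_⟩)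
    have h4 : |b z - b w| ≤ R / 4 := mid' _ _ hz'.1
    have h7 := k2 z hz hz'.2
    rw [hb z hz h7, hb w hw rfl] at h4
    exact tri (tri3 h4 (col hFLR p.m (((dv z).1 h7).1.2.trans dw.1.2.symm)) hκ.2 le_rfl) aw
      (by linarith only [hR', hm])
  obtain ⟨g1, g2, g3⟩ := num ok.θ10 ok.θ11 ok.ε0 ok.ε1 ok.e0 hm hKK
    (pow_le_pow_right₀ one_le_two (by omega)) ok.he
  have h1 : Prd P p.e (fun z => ⌊ξ z⌋) (fun z => ⌊a z⌋) (fun z => D.At p σ σ' u y z.1)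
      (D.C2 p σ σ' u r y) w := hn1.1
  have h4 : ∀ z, 0 < P.p z → D.At p σ σ' u y z.1 = D.At p σ σ' u y w.1 →
      D.X σ u w.1 * 2 ^ p.m ≤ ⌊ξ z⌋ ∧ ⌊ξ z⌋ < D.X σ u w.1 * 2 ^ p.m + (2 ^ p.m : ℕ) := by
    intro z _ h
    have h' : D.X σ u z.1 = D.X σ u w.1 := congrArg Prod.fst h
    rw [← h']; exact strip _ _ _
  have main := cdf_prd (D := Dv) (C₁ := D.C2 p σ σ' u r y)
    (C₂ := fun z => D.C2 p σ σ' u r y z.swap) hw hF h1 h2 hκ.1 hκ.2 (2 ^ p.m)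
    (2 ^ K) _ h4 (by push_cast; rw [hR]; exact g1) ok.θ10 ok.ε0 ok.e0.le h3
    n1 n2 (by push_cast; exact g2) (by push_cast; exact g3)
  refine (P.pr_congr fun z _ => ball 2 _ q1 z).le.trans (le_trans ?_
    (mul_le_mul_of_nonneg_left (P.pr_congr fun z _ => ball R _ q2 z).ge (by positivity)))
  exact fin hK main

end Pool.Agent.P.MP_77a832_co.EL
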