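import Pool.Agent.P.MP_77a832_co.EL.BIface

/-! Step DOOB. -/

set_option autoImplicit false

namespace Pool.Agent.P.MP_77a832_co.EL

open Finset Real Pool.Agent.P.MP_bf60a1_an.RA
open scoped Classical

namespace DOOBc

theorem det {Ω β : Type} [Fintype Ω] {P : FP Ω} {Z : ℕ → Ω → β} {a b : ℕ}
    (h : ∀ n, a ≤ n → n + 1 < b → P.Det (Z (n + 1)) (Z n)) {n m : ℕ} (hn : a ≤ n) (hm : n ≤ m)
    (hb : m < b) : P.Det (Z m) (Z n) := by
  induction m, hm using Nat.le_induction with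
  | base => exact fun _ _ _ _ e => e
  | succ m hm ih =>
    exact fun ω z h1 h2 e => ih (by omega) ω z h1 h2 (h m (hn.trans hm) hb ω z h1 h2 e)

theorem ind_succ (c : ℕ → Prop) (a m : ℕ) : ind (∃ n, a ≤ n ∧ n < m + 1 ∧ c n) =
    ind (∃ n, a ≤ n ∧ n < m ∧ c n) + ind ((a ≤ m ∧ c m) ∧ ¬ ∃ n, a ≤ n ∧ n < m ∧ c n) := by
  by_cases h : ∃ n, a ≤ n ∧ n < m ∧ c n
  · rw [ind_pos h, ind_neg (s := _ ∧ ¬ _) fun e => e.2 h, add_zero]
    obtain ⟨n, h1, h2, h3⟩ := h
    exact ind_pos ⟨n, h1, by omega, h3⟩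
  · rw [ind_neg h, zero_add]
    refine ind_congr ⟨fun ⟨n, h1, h2, h3⟩ => ⟨?_, h⟩, fun e => ⟨m, e.1.1, by omega, e.1.2⟩⟩
    obtain rfl : n = m := by_contra fun e => h ⟨n, h1, by omega, h3⟩
    exact ⟨h1, h3⟩

end DOOBc

theorem p_DOOB (hCP : S_CP) :
    S_DOOB := by
  intro Ω β _ P Z s a b t ht hD
  have key : ∀ m ≤ b, t * (P.pr fun ω => ∃ n, a ≤ n ∧ n < m ∧ t < cp P s (Z n) ω) ≤
      P.E fun ω => ind (∃ n, a ≤ n ∧ n < m ∧ t < cp P s (Z n) ω) * ind (s ω) := by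
    intro m
    induction m with
    | zero => simp [FP.pr, FP.E, ind]
    | succ m ih =>
      intro hm
      have h1 := ih (by omega)
      have h2 := (hCP Ω β β β P (Z m)).1 s (fun ω => ind ((a ≤ m ∧ t < cp P s (Z m) ω) ∧
          ¬ ∃ n, a ≤ n ∧ n < m ∧ t < cp P s (Z n) ω)) fun ω z h1 h2 e => by
        have h3 : ∀ n, a ≤ n → n ≤ m → cp P s (Z n) ω = cp P s (Z n) z := fun n h4 h5 =>
          (hCP Ω β β β P (Z n)).2.2.1 s z ω (DOOBc.det hD h4 h5 hm ω z h1 h2 e)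
        refine ind_congr (and_congr (and_congr_right fun h4 => by rw [h3 m h4 le_rfl])
          (not_congr (exists_congr fun n => and_congr_right fun h4 => and_congr_right fun h5 => ?_)))
        rw [h3 n h4 h5.le]
      unfold FP.pr at h1 ⊢
      simp only [DOOBc.ind_succ, add_mul, FP.E_add, mul_add]
      refine add_le_add h1 ?_
      rw [← h2, ← FP.E_mul_left]
      refine P.E_mono fun ω _ => ?_
      unfold ind
      split_ifs with h3
      · simpa using h3.1.2.le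
      · simp
  rw [le_div_iff₀ ht, mul_comm]
  exact (key b le_rfl).trans (P.E_mono fun ω _ =>
    mul_le_of_le_one_left (ind_nonneg _) (ind_le_one _))

end Pool.Agent.P.MP_77a832_co.EL
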