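import Pool.Agent.P.MP_77a832_co.EL.BIface

/-! Step ELL. -/

set_option autoImplicit false

namespace Pool.Agent.P.MP_77a832_co.EL

open Finset Real Pool.Agent.P.MP_bf60a1_an.RA
open scoped Classical

theorem p_ELL (hCHN : S_CHN) :
    S_ELL := by
  intro Ω α β _ D p hD
  obtain ⟨c1, -, -, -, -, c6, -⟩ := hCHN _ _ _ D p hD
  have hW : ∀ n n', n ≤ n' → n' ≤ p.T → ∀ ω z, D.W n' z = D.W n' ω → D.W n z = D.W n ω :=
    fun n n' h h' ω z => (c1 n n' h h' ω z).1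
  have hlo : ∀ n ≤ p.T, ∀ ω z, D.W n z = D.W n ω → D.lo n z = D.lo n ω :=
    fun n h ω z e => hD.str.dlo n h z ω (hD.str.pos z) (hD.str.pos ω) e
  have hlen : ∀ n ≤ p.T, ∀ ω z, D.W n z = D.W n ω → D.len n z = D.len n ω := fun n h ω z e => by
    rw [PD.len, PD.len, hlo n h ω z e, hD.str.dhi n h z ω (hD.str.pos z) (hD.str.pos ω) e]
  have mem : ∀ y ω, D.len (D.ell p y ω) ω ≤ p.φ * (1 / 2) ^ (y + p.q) ∨ D.ell p y ω = p.cap :=
    fun y ω => Nat.sInf_mem (s := {n | D.len n ω ≤ p.φ * (1 / 2) ^ (y + p.q) ∨ n = p.cap})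
      ⟨p.cap, Or.inr rfl⟩
  have le : ∀ y ω n, D.len n ω ≤ p.φ * (1 / 2) ^ (y + p.q) ∨ n = p.cap → D.ell p y ω ≤ n :=
    fun y ω n h => Nat.sInf_le h
  have h1 : ∀ y ω, D.ell p y ω ≤ p.cap := fun y ω => le y ω _ (Or.inr rfl)
  have hT : ∀ y ω, D.ell p y ω ≤ p.T := fun y ω => (h1 y ω).trans (by omega)
  have h2 : ∀ y y' ω, y ≤ y' → D.ell p y ω ≤ D.ell p y' ω := fun y y' ω h =>
    le y ω _ ((mem y' ω).imp_left fun e => e.trans (mul_le_mul_of_nonneg_left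
      (pow_le_pow_of_le_one (by norm_num) (by norm_num) (by omega)) hD.ok.φ0.le))
  have h3 : ∀ y ω z, D.W (D.ell p y ω) z = D.W (D.ell p y ω) ω → D.ell p y z ≤ D.ell p y ω :=
    fun y ω z e => le y z _ (by rw [hlen _ (hT y ω) ω z e]; exact mem y ω)
  have h4 : ∀ y n ω z, D.ell p y ω ≤ n → n ≤ p.T → D.W n z = D.W n ω →
      D.ell p y z = D.ell p y ω ∧ D.W (D.ell p y z) z = D.W (D.ell p y ω) ω ∧
        D.th p y z = D.th p y ω := fun y n ω z h h' e => by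
    have e1 := hW _ _ h h' ω z e
    have l1 := h3 y ω z e1
    have e2 := le_antisymm l1 (h3 y z ω (hW _ _ l1 (hT y ω) ω z e1).symm)
    refine ⟨e2, by rw [e2, e1], ?_⟩
    rw [PD.th, PD.th, e2, hlo _ (hT y ω) ω z e1]
  have hS : ∀ y ω z, D.SS p y z = D.SS p y ω → D.Nd 0 z = D.Nd 0 ω ∧
      D.ell p y z = D.ell p y ω ∧ D.W (D.ell p y ω) z = D.W (D.ell p y ω) ω := fun y ω z e => by
    simp only [PD.SS, Prod.mk.injEq] at e
    exact ⟨e.1, e.2.1, by rw [← e.2.2, e.2.1]⟩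
  refine ⟨h1, h2, fun y ω h => (mem y ω).resolve_right h.ne, h4, fun y y' ω z h e => ?_,
    fun y ω z e => (h4 y _ ω z le_rfl (hT y ω) (hS y ω z e).2.2).2.2, fun r n y ω z e h => ?_⟩
  · obtain ⟨e1, -, e3⟩ := hS y' ω z e
    obtain ⟨f1, f2, -⟩ := h4 y _ ω z (h2 y y' ω h) (hT y' ω) e3
    rw [PD.SS, PD.SS, f2, f1, e1]
  · obtain ⟨-, e2, e3⟩ := hS y ω z e
    obtain ⟨a1, a2, v, w, a3, a4, a5⟩ := h
    have e4 := hW _ _ a1.le (hT y ω) ω z e3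
    exact ⟨e2 ▸ a1, e2 ▸ a2, v, w, a3.trans e4.symm, a4.trans e4.symm, a5⟩

end Pool.Agent.P.MP_77a832_co.EL
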