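import Pool.Agent.P.MP_77a832_co.EL.BIface

/-! Step END. -/

set_option autoImplicit false

namespace Pool.Agent.P.MP_77a832_co.EL

open Finset Real Pool.Agent.P.MP_bf60a1_an.RA
open scoped Classical

namespace ENDc

theorem chain (M N c : ℕ → ℝ) (R : ℕ) (hM : ∀ r, 0 < M r) (hN : ∀ r, 0 ≤ N r) (hc : ∀ r, 0 ≤ c r)
    (h : ∀ r < R, M (r + 1) ≤ c r * N r) :
    M R ≤ (∏ r ∈ range R, c r) * (∏ r ∈ range R, N r / M r) * M 0 := by
  induction R with
  | zero => simp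
  | succ R ih =>
    have h1 := ih fun r hr => h r (by omega)
    have h2 : c R * N R = c R * (N R / M R) * M R := by
      rw [mul_assoc, div_mul_cancel₀ _ (hM R).ne']
    refine (h R (by omega)).trans ?_
    rw [h2, prod_range_succ, prod_range_succ]
    refine (mul_le_mul_of_nonneg_left h1 (mul_nonneg (hc R) (div_nonneg (hN R) (hM R).le))).trans
      (le_of_eq ?_)
    ring

theorem arith {η I J L R G B k : ℝ} (h0 : 0 < η) (h1 : η ≤ 1 / 100) (hI : 0 ≤ I) (hJ : 0 < J)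
    (hL : 0 ≤ L) (hRL : R * L = J) (hGB : G + B = R) (hB : B ≤ 3 * η * R) (hk : 6 * η * I < k)
    (h : -(1 + 4 * η) * I * J ≤ -(1 - 4 * η) * L * I * G + (η * I * J + -(2 * k * J))) : False := by
  have h2 : (1 - 3 * η) * R ≤ G := by linarith
  have h3 : (1 - 4 * η) * L * I * ((1 - 3 * η) * R) ≤ (1 - 4 * η) * L * I * G :=
    mul_le_mul_of_nonneg_left h2 (mul_nonneg (mul_nonneg (by linarith) hL) hI)
  have h4 : (1 - 4 * η) * L * I * ((1 - 3 * η) * R) = (1 - 4 * η) * (1 - 3 * η) * I * J := by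
    rw [← hRL]; ring
  have h5 : 0 ≤ η * η * (I * J) := by positivity
  have h6 := mul_lt_mul_of_pos_right hk hJ
  nlinarith

end ENDc

theorem p_END (hCP : S_CP) (hCHN : S_CHN) (hELL : S_ELL) (hLAB : S_LAB) (hBS : S_BS) (hGEO : S_GEO) (hBALL : S_BALL) (hBRP : S_BRP) :
    S_END := by
  intro Ω α β _ D p hD σ l u ω z hl hlT hsel htw hsc hxs hkr hG0 hZ
  by_contra hbad
  rw [not_lt] at hbad
  have ok := hD.ok
  have pos := hD.str.pos
  obtain ⟨c1, -, -, -, c5, -, -, c8⟩ := hCHN _ _ _ D p hD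
  obtain ⟨-, -, g3, g4⟩ := hGEO _ _ _ D p hD σ l u ω z hl hlT hsel htw hsc hxs
  obtain ⟨b1, -, -, b4⟩ := hBS _ _ _ D p hD
  have hlv : ∀ r ≤ p.R, p.lv r ≤ p.cap := fun r hr => by
    cases r with
    | zero => exact Nat.zero_le _
    | succ r => exact (c5 r hr).1
  have h1 : D.Q.cl (D.Nd (l + 2)) ω ≤ D.Mm p σ u p.R ω := by
    refine D.Q.pr_mono fun v hv e => ⟨Prod.ext (g3 v e) ?_, fun y hy => ?_⟩
    · exact (c1 _ _ (((hlv _ le_rfl).trans hl).trans (Nat.le_add_right l 2)) hlT ω v).1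
        (hD.str.dNW _ hlT v ω hv (pos ω) e)
    · obtain ⟨r, hr, hh, rfl⟩ := b4 _ _ _ hy
      exact (g4 _ ((hELL _ _ _ D p hD).1 _ _) (hLAB _ _ _ D p hD r hr ω _ (b1 r ω hh)).2.1).2 v e
  have h2 : D.Mm p σ u 0 ω ≤ D.Q.cl (D.Nd 0) ω :=
    D.Q.pr_mono fun v _ e => congrArg (fun t => t.1.1) e.1
  have h3 : ∀ r, 0 < D.Mm p σ u r ω := fun r => D.Q.pr_pos (pos ω) ⟨rfl, fun y _ => by
    rw [PD.Pi, sub_self, abs_zero, Par.hh]
    positivity⟩
  have hgn : 0 ≤ p.gn := by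
    have := ok.δ0
    unfold Par.gn Par.δ
    positivity
  have h4 := ENDc.chain (fun r => D.Mm p σ u r ω) (fun r => D.Mn p σ u r ω)
    (fun r => if D.good p σ u r ω then p.gn else 1) p.R h3 (fun _ => D.Q.pr_nonneg _)
    (fun r => by split_ifs; exacts [hgn, zero_le_one]) fun r hr => hBALL _ _ _ D p hD σ u r hr ω
  have hq : ∀ r, 0 < cq D.Q (D.W (p.lv (r + 1))) (D.pw (p.lv r)) ω := fun r =>
    (hCP Ω ℕ (α × ℕ) Unit D.Q (D.pw (p.lv r))).2.2.2.2.2.2.1 _ ω (pos ω)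
  have h5 : ∏ r ∈ range p.R, D.Mn p σ u r ω / D.Mm p σ u r ω ≤
      (2 : ℝ) ^ (p.η * p.I * p.J + -(2 * (p.g1 * p.κ) * p.J)) := by
    have e : ∀ r ∈ range p.R, D.Mn p σ u r ω / D.Mm p σ u r ω =
        D.Zr p σ u r ω * cq D.Q (D.W (p.lv (r + 1))) (D.pw (p.lv r)) ω := fun r _ => by
      rw [PD.Zr, div_mul_cancel₀ _ (hq r).ne']
    rw [prod_congr rfl e, prod_mul_distrib, rpow_add two_pos, ← mul_assoc 2]
    exact mul_le_mul (not_lt.1 hZ) (hBRP _ _ _ D p hD ω hG0) (prod_nonneg fun r _ => (hq r).le)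
      (by positivity)
  have h6 : ∏ r ∈ range p.R, (if D.good p σ u r ω then p.gn else 1) ≤
      (2 : ℝ) ^ (-(1 - 4 * p.η) * p.L * p.I *
        (((range p.R).filter fun r => D.good p σ u r ω).card : ℝ)) := by
    rw [prod_ite, prod_const, prod_const_one, mul_one, rpow_mul_natCast zero_le_two]
    exact pow_le_pow_left₀ hgn ok.hgn _
  have h7 := (hkr.trans h1).trans (h4.trans (mul_le_mul (mul_le_mul h6 h5
    (prod_nonneg fun r _ => div_nonneg (D.Q.pr_nonneg _) (h3 r).le) (by positivity)) h2 (h3 0).le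
    (by positivity)))
  rw [mul_le_mul_iff_left₀ (D.Q.cl_pos _ (pos ω)), ← rpow_add two_pos,
    rpow_le_rpow_left_iff one_lt_two] at h7
  have hJ : 0 < p.J := by
    have := ok.hL
    have := ok.L1
    exact Nat.mul_pos ok.Λ1 (Nat.mul_pos (by omega) ok.N11)
  refine ENDc.arith ok.η0 ok.η1 (Nat.cast_nonneg _) (Nat.cast_pos.2 hJ) (Nat.cast_nonneg _)
    (by exact_mod_cast c8) ?_ hbad ok.hfin h7
  rw [← Nat.cast_add, card_filter_add_card_filter_not, card_range]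

end Pool.Agent.P.MP_77a832_co.EL
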