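import Pool.Agent.P.MP_77a832_co.EL.BIface

/-! Step F2. -/

set_option autoImplicit false

namespace Pool.Agent.P.MP_77a832_co.EL

open Finset Real Pool.Agent.P.MP_bf60a1_an.RA
open scoped Classical

namespace F2c

theorem gc_le {p : Par} {g : ℝ} {y y' : ℕ} (h : p.Gc g y) (h' : p.Gc g y') : y' ≤ y := by
  by_contra hc
  have h1 : ((1 : ℝ) / 2) ^ (y' + p.q) ≤ (1 / 2) ^ (y + p.q + 1) :=
    pow_le_pow_of_le_one (by norm_num) (by norm_num) (by omega)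
  rw [pow_succ] at h1
  linarith [h.1, h'.2]

variable {Ω α β : Type} [Fintype Ω] (D : PD Ω α β) (p : Par)

/-- a possible label -/
def c2 (r : ℕ) (t : ℕ × ℕ × ℕ) (ω : Ω) : Prop :=
  t.1 ∈ p.grp r ∧ ∃ z, D.W t.1 z = D.W t.1 ω ∧ D.V2 t.1 z = t.2.1 ∧ p.Gc (D.gap t.1 ω z) t.2.2

variable {D p}

theorem gap_eq (hD : D.Ok p) {n : ℕ} (hn : n < p.T) {ω ω' z z' : Ω} (h : D.V2 n ω = D.V2 n ω')
    (h' : D.V2 n z = D.V2 n z') : D.gap n ω z = D.gap n ω' z' := by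
  have hp := hD.str.pos
  unfold PD.gap
  rw [hD.str.dlo2 n hn _ _ (hp _) (hp _) h, hD.str.dhi2 n hn _ _ (hp _) (hp _) h,
    hD.str.dlo2 n hn _ _ (hp _) (hp _) h', hD.str.dhi2 n hn _ _ (hp _) (hp _) h']

theorem cnt (hD : D.Ok p) {r : ℕ} (hr : ∀ n ∈ p.grp r, n < p.T) (T : Finset (ℕ × ℕ × ℕ)) (ω : Ω) :
    ((T.filter fun t => c2 D p r t ω).card : ℝ) ≤ p.L' * 4 ^ p.κ := by
  have hp := hD.str.pos
  have h1 : ∀ n ∈ p.grp r, ∃ F : Finset ℕ, (F.card : ℝ) ≤ 4 ^ p.κ ∧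
      ∀ z, D.W n z = D.W n ω → D.V2 n z ∈ F := fun n hn => by
    obtain ⟨F, a, b⟩ := hD.str.fV2 n (hr n hn) ω (hp ω)
    exact ⟨F, a, fun z hz => b z (hp z) hz⟩
  choose! F a b using h1
  have h2 : (T.filter fun t => c2 D p r t ω).card ≤ ((p.grp r).sigma F).card := by
    refine card_le_card_of_injOn (fun t => ⟨t.1, t.2.1⟩) (fun t ht => ?_) fun t ht t' ht' e => ?_
    · obtain ⟨-, h3, z, h4, h5, -⟩ := mem_filter.1 ht
      exact mem_coe.2 (mem_sigma.2 ⟨h3, show t.2.1 ∈ F t.1 from h5 ▸ b _ h3 z h4⟩)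
    · obtain ⟨n, ρ, y⟩ := t
      obtain ⟨n', ρ', y'⟩ := t'
      obtain ⟨rfl, e'⟩ := Sigma.mk.inj_iff.1 e
      obtain rfl := eq_of_heq e'
      obtain ⟨-, h3, z, -, h5, h6⟩ := mem_filter.1 ht
      obtain ⟨-, -, z', -, h5', h6'⟩ := mem_filter.1 ht'
      rw [gap_eq hD (hr _ h3) rfl (h5.trans h5'.symm)] at h6
      obtain rfl : y = y' := le_antisymm (gc_le h6' h6) (gc_le h6 h6')
      rfl
  refine (Nat.cast_le.2 h2).trans ?_
  rw [card_sigma, Nat.cast_sum]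
  refine (sum_le_card_nsmul _ _ _ a).trans (le_of_eq ?_)
  rw [Par.grp, Nat.card_Ico, add_tsub_cancel_left, nsmul_eq_mul]

end F2c

theorem p_F2 (hCHN : S_CHN) (hELL : S_ELL) (hLAB : S_LAB) (hBS : S_BS) (hRES2 : S_RES2) (hLAMC : S_LAMC) :
    S_F2 := by
  intro Ω α β _ D p hD σ u r hr
  have hp := hD.str.pos
  obtain ⟨c1, -, -, -, c5, c6, -⟩ := hCHN _ _ _ D p hD
  obtain ⟨c7, c8⟩ := c5 r hr
  have hT : p.lam r ≤ p.T := by omega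
  have hn : ∀ n ∈ p.grp r, n < p.T := fun n h => by have := (c8 n h).2.1; omega
  have hdet : ∀ t ω ω', D.Cl σ u (p.lam r) ω = D.Cl σ u (p.lam r) ω' →
      D.Lam p σ u ω ∧ F2c.c2 D p r t ω → D.Lam p σ u ω' ∧ F2c.c2 D p r t ω' := by
    rintro t ω ω' e ⟨h1, h2, z, h3, h4, h5⟩
    obtain ⟨e1, e2⟩ := Prod.mk.inj e
    have h6 := (c8 _ h2).2.1
    refine ⟨(hLAMC _ _ _ D p hD σ 0).2.2 u ω ω' e1.symm h1, h2, z,
      h3.trans ((c1 _ _ h6.le hT ω' ω).1 e2), h4, ?_⟩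
    rwa [← F2c.gap_eq hD (hn _ h2) (hD.str.dV2 _ (hn _ h2) _ _ (hp _) (hp _)
      ((c1 (t.1 + 1) _ h6 hT ω' ω).1 e2)) rfl]
  set T := univ.image (D.lab p r) with hT'
  have h1 := fun t : ℕ × ℕ × ℕ => hRES2 Ω _ D.Q (D.Cl σ u (p.lam r)) (D.Pi p t.2.2)
    (fun ω => D.Lam p σ u ω ∧ F2c.c2 D p r t ω) (fun z => p.δ ≤ D.pG p r t.1 t.2.1 z)
    (p.hh u t.2.2) p.δ' (by unfold Par.hh; positivity) hD.ok.δ0
    fun ω ω' _ _ e => propext ⟨hdet t ω ω' e, hdet t ω' ω e.symm⟩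
  refine le_trans (le_trans (D.Q.pr_mono ?_) (D.Q.pr_exists_le T _))
    ((sum_le_sum fun t _ => h1 t).trans ?_)
  · rintro ω - ⟨a1, a2, a3⟩
    have hL := (hBS _ _ _ D p hD).1 r ω a2
    have hc := (hLAB _ _ _ D p hD r hr ω _ hL).1.2.1
    have hB : D.Ball p σ u r (D.lab p r ω).2.2 (p.hh u (D.lab p r ω).2.2) ω = fun z =>
        D.Cl σ u (p.lam r) z = D.Cl σ u (p.lam r) ω ∧ |D.Pi p (D.lab p r ω).2.2 z -
          D.Pi p (D.lab p r ω).2.2 ω| ≤ p.hh u (D.lab p r ω).2.2 := by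
      funext z
      refine propext (and_congr_right fun e => ?_)
      rw [← ((hELL _ _ _ D p hD).2.2.2.1 _ _ ω z hc hT (Prod.mk.inj e).2).2.2]
      rfl
    obtain ⟨b1, -, -, b2, z, b3, b4, -, -, b5⟩ := hL
    refine ⟨D.lab p r ω, mem_image_of_mem _ (mem_univ _),
      ⟨a1, b1, z, (Prod.mk.inj b3).2, b4, b5⟩, b2, ?_⟩
    unfold PD.f2 at a3
    rw [hB] at a3
    exact a3
  · rw [← mul_sum, mul_assoc (2 * p.δ'), mul_assoc (2 * p.δ')]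
    refine mul_le_mul_of_nonneg_left ?_ (by have := hD.ok.δ0; positivity)
    unfold FP.pr
    rw [← D.Q.E_sum, ← D.Q.E_mul_left]
    refine D.Q.E_mono fun ω _ => ?_
    simp only [ind_and, ← mul_sum]
    rw [mul_comm]
    refine mul_le_mul_of_nonneg_right (le_trans (le_of_eq ?_) (F2c.cnt hD hn T ω)) (ind_nonneg _)
    simp only [ind, sum_boole]

end Pool.Agent.P.MP_77a832_co.EL
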