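import Pool.Agent.P.MP_77a832_co.EL.BIface

/-! Step F4. -/

set_option autoImplicit false

namespace Pool.Agent.P.MP_77a832_co.EL

open Finset Real Pool.Agent.P.MP_bf60a1_an.RA
open scoped Classical

namespace F4c

variable {Ω α β : Type} [Fintype Ω] (D : PD Ω α β) (p : Par) (σ σ' : ℝ) (u r n y : ℕ)

/-- two candidates without product structure -/
def bad (w : Ω × Ω) : Prop := D.cand p r n y w.1 ∧ D.cand p r n y w.2 ∧
  ¬ (D.nice1 p σ σ' u r n y w ∧ D.nice1 p σ σ' u r n y w.swap)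

/-- conditional mass of the bad partners -/
noncomputable def bb (z : Ω) : ℝ :=
  (D.Q.cv (D.pw n) (D.pw n z)).pr fun z' => bad D p σ σ' u r n y (z, z')

theorem mean (hL : ∀ ω z, D.pw n z = D.pw n ω → D.Lam p σ u ω → D.Lam p σ u z) :
    (D.Q.E fun ω => ind (D.Lam p σ u ω ∧ D.ell p y ω ≤ p.lam r) * bb D p σ σ' u r n y ω) ≤
      2 * D.NN p σ σ' u r n y := by
  have h1 : (D.Q.E fun ω => ind (D.Lam p σ u ω ∧ D.ell p y ω ≤ p.lam r) * bb D p σ σ' u r n y ω) =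
      (D.Q2 n).pr fun w => (D.Lam p σ u w.1 ∧ D.ell p y w.1 ≤ p.lam r) ∧
        bad D p σ σ' u r n y w := by
    simp only [PD.Q2, FP.cpy, FP.pr, FP.E_glue, bb, ind_and (_ ∧ _) (bad D p σ σ' u r n y _),
      FP.E_mul_left]
  have h2 : ((D.Q2 n).pr fun w => D.Lam p σ u w.swap.1 ∧ D.cand p r n y w.swap.1 ∧
      ¬ D.nice1 p σ σ' u r n y w.swap) = D.NN p σ σ' u r n y :=
    (D.Q.cpy_swap (D.pw n)).pr fun w =>
      D.Lam p σ u w.1 ∧ D.cand p r n y w.1 ∧ ¬ D.nice1 p σ σ' u r n y w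
  rw [h1, two_mul]
  nth_rewrite 2 [← h2]
  refine le_trans ((D.Q2 n).pr_mono fun w hw h => ?_) ((D.Q2 n).pr_or_le _ _)
  obtain ⟨⟨a, -⟩, b, c, d⟩ := h
  rcases not_and_or.1 d with d | d
  · exact .inl ⟨a, b, d⟩
  · exact .inr ⟨hL _ _ (D.Q.cpy_eq hw) a, c, d⟩

end F4c

theorem p_F4 (hCP : S_CP) (hMPC : S_MPC) (hCHN : S_CHN) (hELL : S_ELL) (hLAB : S_LAB) (hBS : S_BS) (hRES1 : S_RES1) (hLAMC : S_LAMC) :
    S_F4 := by
  intro Ω α β _ D p hD σ σ' u A hR r hr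
  obtain ⟨c1, -, -, -, c5, c6, -⟩ := hCHN _ _ _ D p hD
  obtain ⟨-, -, -, e4, -⟩ := hELL _ _ _ D p hD
  have lab := hLAB _ _ _ D p hD r hr
  have lam3 := (hLAMC _ _ _ D p hD σ A).2.2 u
  obtain ⟨c7, c8⟩ := c5 r hr
  have hT : p.lam r ≤ p.T := by omega
  have hc : 0 < p.δ * p.δ' := mul_pos (by unfold Par.δ; positivity) hD.ok.δ0
  have key : ∀ n ∈ p.grp r, ∀ y, D.Q.pr (fun ω => D.Lam p σ u ω ∧
      ∃ ρ, D.Lab p r ω (n, ρ, y) ∧ D.f4 p σ σ' u r (n, ρ, y) ω) ≤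
      16 / (p.δ * p.δ') * D.NN p σ σ' u r n y := fun n hn y => by
    have hn' : n < p.lam r := (c8 n hn).2.1
    have hh : 0 ≤ p.hh u y := by unfold Par.hh; positivity
    have hb : ∀ z, 0 ≤ F4c.bb D p σ σ' u r n y z := fun z => FP.pr_nonneg _ _
    have res := hRES1 _ _ D.Q (D.Cl σ u (p.lam r))
      (fun ω => ind (D.Lam p σ u ω ∧ D.ell p y ω ≤ p.lam r)) (D.Pi p y)
      (F4c.bb D p σ σ' u r n y) (p.hh u y) hh (fun _ => ind_nonneg _) hb (by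
        have : ∀ ω z, D.Cl σ u (p.lam r) z = D.Cl σ u (p.lam r) ω →
            D.Lam p σ u ω ∧ D.ell p y ω ≤ p.lam r → D.Lam p σ u z ∧ D.ell p y z ≤ p.lam r :=
          fun ω z h a => ⟨lam3 ω z (congrArg Prod.fst h) a.1,
            (e4 y _ ω z a.2 hT (congrArg Prod.snd h)).1 ▸ a.2⟩
        exact fun ω z _ _ h => ind_congr ⟨this ω z h.symm, this z ω h⟩)
    have mean := F4c.mean D p σ σ' u r n y fun ω z h => lam3 ω z (Prod.ext
      ((c1 0 n (Nat.zero_le _) (by omega) ω z).2.2 h).2 (by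
        simp only [PD.X0, PD.X, PD.xx, show D.pt z = D.pt ω from congrArg Prod.fst h]))
    refine le_trans (D.Q.pr_mono fun ω hω h => ?_) ((D.Q.markov (c := p.δ * p.δ' / 4)
      (fun ω _ => mul_nonneg (ind_nonneg _) (div_nonneg (D.Q.E_nonneg fun z _ =>
        mul_nonneg (ind_nonneg _) (hb z)) (D.Q.pr_nonneg _))) (by positivity)).trans
      ((div_le_div_of_nonneg_right (res.trans (mul_le_mul_of_nonneg_left mean zero_le_two))
        (by positivity)).trans_eq (by field_simp; ring)))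
    obtain ⟨hl, ρ, ht, hf⟩ := h
    obtain ⟨hcand, -, -, -, hpart⟩ := lab ω _ ht
    have hball : ∀ z, D.Ball p σ u r y (p.hh u y) ω z ↔
        D.Cl σ u (p.lam r) z = D.Cl σ u (p.lam r) ω ∧ |D.Pi p y z - D.Pi p y ω| ≤ p.hh u y :=
      fun z => and_congr_right fun h => by
        rw [show D.Pi p y z = D.Pj (D.th p y ω) z by
          rw [PD.Pi, (e4 y _ ω z hcand.2.1 hT (congrArg Prod.snd h)).2.2]]
    rw [ind_pos ⟨hl, hcand.2.1⟩, one_mul,
      le_div_iff₀ (D.Q.pr_pos hω ⟨rfl, by simpa using hh⟩),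
      ← D.Q.pr_congr fun z _ => hball z]
    refine (le_of_lt hf).trans ?_
    simp only [PD.Q2, FP.cpy, FP.pr, FP.E_glue]
    refine D.Q.E_mono fun z hz => ?_
    rw [F4c.bb, FP.pr, ← FP.E_mul_left]
    refine FP.E_mono _ fun z' hz' => ?_
    rw [← ind_and]
    refine ind_mono ?_
    rintro ⟨⟨k1, k2⟩, k3⟩
    have w1 : D.W (p.lam r) z = D.W (p.lam r) ω := congrArg Prod.snd k1.1
    have w2 : D.W n z = D.W n ω := (c1 n _ hn'.le hT ω z).1 w1
    have w3 : D.W n z' = D.W n z := congrArg Prod.snd (D.Q.cv_eq hz hz')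
    have w4 := (e4 y _ ω z hcand.2.1 hT w1).1
    refine ⟨(hball z).1 k1, ⟨?_, ?_, ?_⟩, (hpart z' (w3.trans w2) k2).1, k3⟩
    · exact w4 ▸ hcand.1
    · exact w4 ▸ hcand.2.1
    · obtain ⟨v, v', a, b, c⟩ := hcand.2.2
      exact ⟨v, v', a.trans w2.symm, b.trans w2.symm, c⟩
  calc _ ≤ D.Q.pr fun ω => ∃ n ∈ p.grp r, ∃ y ∈ range A, D.Lam p σ u ω ∧
        ∃ ρ, D.Lab p r ω (n, ρ, y) ∧ D.f4 p σ σ' u r (n, ρ, y) ω := by
        refine D.Q.pr_mono fun ω _ h => ?_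
        have ht := (hBS _ _ _ D p hD).1 r ω h.2.1
        obtain ⟨z, -, -, -, -, hz⟩ := ht.2.2.2.2
        have := (c8 _ ht.1).2.1
        exact ⟨_, ht.1, _, mem_range.2 (hR.y _ (by omega) _ ω z hz), h.1, _, ht, h.2.2⟩
    _ ≤ ∑ n ∈ p.grp r, ∑ y ∈ range A, 16 / (p.δ * p.δ') * D.NN p σ σ' u r n y :=
        (D.Q.pr_exists_le _ _).trans (sum_le_sum fun n hn =>
          (D.Q.pr_exists_le _ _).trans (sum_le_sum fun y _ => key n hn y))
    _ = _ := by simp only [mul_sum]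

end Pool.Agent.P.MP_77a832_co.EL
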