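import Pool.Agent.P.MP_77a832_co.EL.BIface

/-! Step F5. -/

set_option autoImplicit false

namespace Pool.Agent.P.MP_77a832_co.EL

open Finset Real Pool.Agent.P.MP_bf60a1_an.RA
open scoped Classical

namespace F5c

theorem sum_pr {Ω : Type} [Fintype Ω] (P : FP Ω) (S : Finset ℕ) (ev : ℕ → Ω → Prop) (c : ℝ)
    (h : ∀ ω, ((S.filter fun u => ev u ω).card : ℝ) ≤ c) : ∑ u ∈ S, P.pr (ev u) ≤ c := by
  unfold FP.pr
  rw [← P.E_sum]
  refine P.E_le fun ω _ => le_trans (le_of_eq ?_) (h ω)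
  simp only [ind, sum_boole]

theorem fl (p : Par) (h : p.OK) : p.f ≤ (2 : ℝ) ^ (-(1 + 4 * p.η) * p.I * p.J) := by
  have e : p.f = (2 : ℝ) ^ (-((2 * p.I * p.J : ℕ) : ℝ)) := by
    rw [Par.f, rpow_neg (by norm_num), rpow_natCast, one_div, inv_pow]
  rw [e]
  refine rpow_le_rpow_of_exponent_le (by norm_num) ?_
  have h1 := h.η1
  have h2 : (0 : ℝ) ≤ p.I * p.J := by positivity
  push_cast
  nlinarith

theorem hhb (p : Par) (h : p.OK) (u y : ℕ) : p.hh u y * 2 ^ (u + p.m + y) ≤ 8 / 2 ^ p.a := by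
  have e : p.hh u y * 2 ^ (u + p.m + y) = 2 / 2 ^ p.q := by
    rw [Par.hh, pow_add _ _ p.q, one_div, inv_pow, inv_pow]
    field_simp
  rw [e]
  have := h.hq
  have h2 : (2 : ℝ) ^ p.a ≤ 2 ^ p.q := pow_le_pow_right₀ (by norm_num) (by omega)
  gcongr
  norm_num

end F5c

theorem p_F5 (hCP : S_CP) (hFLR : S_FLR) (hHVY : S_HVY) (hGEO : S_GEO) (hCHN : S_CHN) (hELL : S_ELL) (hLAB : S_LAB) (hBS : S_BS) (hCEN : S_CEN) (hTWN : S_TWN) (hSM : S_SM) (hRCT : S_RCT) :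
    S_F5 := by
  intro Ω α β _ D p hD σ σ' A r hr
  let ev : ℕ → Ω → Prop := fun u ω => ∃ n ∈ p.grp r, ∃ y, D.cnd p n y ω ∧
    D.flo p (D.At p σ σ' u y) ω ∧ cq D.Q (D.Tt p σ u) (D.At p σ σ' u y) ω < p.θ1
  have pos := hD.str.pos
  obtain ⟨c1, -⟩ := hCHN _ _ _ D p hD
  obtain ⟨e1, -, -, e4, -⟩ := hELL _ _ _ D p hD
  obtain ⟨s1, s2, -⟩ := hSM _ _ _ D p hD A
  have hsum : ∑ u ∈ range A, D.Q.pr (ev u) ≤ p.L' * 16 ^ p.κ * p.rr p.θ1 :=
    F5c.sum_pr _ _ _ _ fun ω => by convert hRCT _ _ _ D p hD σ σ' A r hr ω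
  refine (s1 _ (fun _ u w => ev u w.1 ∨ ev u w.2) ?_).trans ((s2 _ _).trans ?_)
  · rintro l u ⟨ω, z⟩ hl hT - hs ht hc ⟨hx, hk, hh, h1, h5⟩
    have hL := (hBS _ _ _ D p hD).1 r ω hh
    obtain ⟨⟨a1, -, a3⟩, a4, -⟩ := hLAB _ _ _ D p hD r hr ω _ hL
    obtain ⟨g1, g2, g3, g4⟩ := hGEO _ _ _ D p hD σ l u ω z hl hT hs ht hc hx
    obtain ⟨g5, g6⟩ := g4 _ (e1 _ _) a4
    have hy : (D.lab p r ω).2.2 = D.yl p r ω := rfl
    rw [hy] at a1 a3 g5 g6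
    have hel := e1 (D.yl p r ω) ω
    have hW : ∀ v, D.Nd l v = D.Nd l ω → D.W l v = D.W l ω := fun v hv =>
      hD.str.dNW l (by omega) v ω (pos v) (pos ω) hv
    have hAt : ∀ v, D.X0 σ u v = D.X0 σ u ω → D.Nd l v = D.Nd l ω →
        |D.Pj (D.th p (D.yl p r ω) ω) v - D.Pi p (D.yl p r ω) ω| ≤ p.hh u (D.yl p r ω) →
        D.At p σ σ' u (D.yl p r ω) v = D.At p σ σ' u (D.yl p r ω) ω := by
      intro v b1 b2 b3
      obtain ⟨d1, d2, d3⟩ := e4 (D.yl p r ω) l ω v (by omega) (by omega) (hW v b2)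
      have b4 : D.X σ u v = D.X σ u ω := congrArg Prod.snd b1
      have b5 : D.Nd 0 v = D.Nd 0 ω := congrArg Prod.fst b1
      refine Prod.ext b4 (Prod.ext (Prod.ext b5 (Prod.ext d1 d2)) ?_)
      refine (hFLR (D.Pi p (D.yl p r ω) ω - σ') (D.Pi p (D.yl p r ω) v - σ')
        (u + p.m + D.yl p r ω) 0).2.2.1 _ h1 (le_trans ?_ (F5c.hhb p hD.ok u (D.yl p r ω)))
      refine mul_le_mul_of_nonneg_right ?_ (by positivity)
      rw [sub_sub_sub_cancel_right, PD.Pi, d3]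
      exact b3
    have hz := hD.str.tnd l ω z ht
    have hAz := hAt z g1 hz g5
    have hf : D.flo p (D.At p σ σ' u (D.yl p r ω)) ω :=
      (mul_le_mul_of_nonneg_right (F5c.fl p hD.ok) (D.Q.cl_nonneg _ _)).trans (le_trans hk
        (D.Q.pr_mono fun v _ hv => hAt v (g3 v hv)
          ((c1 l (l + 2) (by omega) hT ω v).2.1 hv) (g6 v hv)))
    rcases (hHVY _ _ D.Q _ _ p.θ1 ω (pos ω)).1 z (pos z) hAz g2 h5 with h | h
    · exact Or.inl ⟨_, hL.1, _, a3, hf, h⟩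
    · refine Or.inr ⟨_, hL.1, _, ?_, ?_, h⟩
      · have := (c1 (D.lab p r ω).1 l (by omega) (by omega) ω z).1 (hW z hz)
        obtain ⟨v, v', b1, b2, b3⟩ := a3
        exact ⟨v, v', b1.trans this.symm, b2.trans this.symm, b3⟩
      · have h0 : D.Nd 0 z = D.Nd 0 ω := congrArg Prod.fst g1
        unfold PD.flo FP.cl at hf ⊢
        rw [h0, hAz]
        exact hf
  · have t1 := hCEN _ _ _ D p hD A ev
    have t2 := hTWN _ _ _ D p hD A ev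
    have t3 : 0 ≤ 2 * (p.M : ℝ) ^ 2 / p.ζ := by have := hD.ok.ζ0; positivity
    have t4 := mul_le_mul_of_nonneg_left hsum t3
    linarith

end Pool.Agent.P.MP_77a832_co.EL
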