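import Pool.Agent.P.MP_77a832_co.EL.Defs

/-! Weighted conditional entropy: monotonicity, symmetry, telescoping, and a Pinsker bound. -/

set_option autoImplicit false

namespace Pool.Agent.P.MP_77a832_co.EL.Bud

open Finset Real Pool.Agent.P.MP_bf60a1_an.RA
open scoped Classical

variable {Ω Ω' α β γ ζ : Type} [Fintype Ω] [Fintype Ω'] (P : FP Ω)

theorem cq_eq (Z : Ω → α) (V : Ω → β) (ω : Ω) :
    cq P Z V ω = P.cl (fun x => (Z x, V x)) ω / P.cl V ω := by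
  unfold cq cp FP.cl
  simp only [Prod.mk.injEq]

theorem cq_pos (Z : Ω → α) (V : Ω → β) {ω : Ω} (hω : 0 < P.p ω) : 0 < cq P Z V ω := by
  rw [cq_eq]; exact div_pos (P.cl_pos _ hω) (P.cl_pos _ hω)

theorem cq_le_one (Z : Ω → α) (V : Ω → β) {ω : Ω} (hω : 0 < P.p ω) : cq P Z V ω ≤ 1 := by
  rw [cq_eq, div_le_one (P.cl_pos _ hω)]
  exact P.cl_mono (fun _ _ _ _ h => congrArg Prod.snd h) hω

theorem det_cv {U : Ω → γ} {Z : Ω → α} {G : Ω → β} (h : P.Det Z G) (u : γ) :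
    (P.cv U u).Det Z G := fun ω ω' h1 h2 h3 => h ω ω' (P.cv_pos h1) (P.cv_pos h2) h3

theorem cl_congr {Z : Ω → α} {G : Ω → β} (h : P.Det Z G) (h' : P.Det G Z) {ω : Ω}
    (hω : 0 < P.p ω) : P.cl Z ω = P.cl G ω := le_antisymm (P.cl_mono h hω) (P.cl_mono h' hω)

theorem cq_cv {U : Ω → γ} (Z : Ω → α) {V : Ω → β} (hV : P.Det V U) {ω ω' : Ω} (hω : 0 < P.p ω)
    (hω' : 0 < P.p ω') (h : U ω' = U ω) :
    (P.cv U (U ω)).cl (fun x => (Z x, V x)) ω' / (P.cv U (U ω)).cl V ω' = cq P Z V ω' := by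
  rw [P.cl_cv _ hω h, P.cl_cv _ hω h, cq_eq, div_div_div_cancel_right₀ (P.cl_pos U hω').ne']
  congr 1
  · exact cl_congr P (fun _ _ _ _ h => congrArg Prod.fst h)
      (fun a b ha hb h => Prod.ext h (hV a b ha hb (congrArg Prod.snd h))) hω'
  · exact cl_congr P (fun _ _ _ _ h => congrArg Prod.fst h)
      (fun a b ha hb h => Prod.ext h (hV a b ha hb h)) hω'

/-- expectation against a weight that is read on `U` -/
theorem E_wt {U : Ω → γ} {φ : Ω → ℝ} (hφ : P.Det U φ) (f : Ω → ℝ) :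
    (P.E fun ω => φ ω * f ω) = P.E fun ω => φ ω * (P.cv U (U ω)).E f := by
  rw [← P.tower U fun _ ω => φ ω * f ω]
  refine P.E_congr fun ω hω => ?_
  rw [← FP.E_mul_left]
  refine FP.E_congr _ fun z hz => ?_
  rw [hφ z ω (P.cv_pos hz) hω (P.cv_eq hω hz)]

theorem Hw_cv {U : Ω → γ} {φ : Ω → ℝ} (hφ : P.Det U φ) (Z : Ω → α) {V : Ω → β} (hV : P.Det V U) :
    Hw P φ Z V = P.E fun ω => φ ω * (P.cv U (U ω)).Hc Z V := by
  unfold Hw
  rw [E_wt P hφ]
  refine P.E_congr fun ω hω => ?_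
  congr 1
  rw [FP.Hc_eq]
  refine FP.E_congr _ fun z hz => ?_
  rw [cq_cv P Z hV hω (P.cv_pos hz) (P.cv_eq hω hz)]

theorem Hw_nonneg {φ : Ω → ℝ} (h0 : ∀ ω, 0 < P.p ω → 0 ≤ φ ω) (Z : Ω → α) (V : Ω → β) :
    0 ≤ Hw P φ Z V :=
  P.E_nonneg fun ω hω => mul_nonneg (h0 ω hω)
    (neg_nonneg.2 (log_nonpos (cq_pos P Z V hω).le (cq_le_one P Z V hω)))

/-- the gain of information grows with the weight -/
theorem Hw_diff_mono {φ ψ : Ω → ℝ} (Z : Ω → α) {V : Ω → β} {V' : Ω → γ} (hφ : P.Det V φ)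
    (hψ : P.Det V ψ) (h : ∀ ω, 0 < P.p ω → φ ω ≤ ψ ω) (hV : P.Det V' V) :
    Hw P φ Z V - Hw P φ Z V' ≤ Hw P ψ Z V - Hw P ψ Z V' := by
  have r : P.Det V V := fun _ _ _ _ h => h
  rw [Hw_cv P hφ Z r, Hw_cv P hφ Z hV, Hw_cv P hψ Z r, Hw_cv P hψ Z hV, ← FP.E_sub, ← FP.E_sub]
  refine P.E_mono fun ω hω => ?_
  have := (P.cv V (V ω)).Hc_mono_right Z (det_cv P hV (V ω))
  have := h ω hω
  nlinarith

theorem Hw_zero (Z : Ω → α) (V : Ω → β) : Hw P (fun _ => 0) Z V = 0 := by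
  unfold Hw; simp [FP.E_const]

theorem Hw_mono_right {φ : Ω → ℝ} (Z : Ω → α) {V : Ω → β} {V' : Ω → γ} (hφ : P.Det V φ)
    (h0 : ∀ ω, 0 < P.p ω → 0 ≤ φ ω) (hV : P.Det V' V) : Hw P φ Z V' ≤ Hw P φ Z V := by
  have := Hw_diff_mono P (φ := fun _ => 0) (ψ := φ) Z (fun _ _ _ _ _ => rfl) hφ
    h0 hV
  rw [Hw_zero, Hw_zero] at this
  linarith

theorem Hw_congr {φ : Ω → ℝ} (Z : Ω → α) {V : Ω → β} {V' : Ω → γ}
    (h : ∀ ω, 0 < P.p ω → φ ω ≠ 0 → ∀ z, 0 < P.p z → (V z = V ω ↔ V' z = V' ω)) :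
    Hw P φ Z V = Hw P φ Z V' := by
  unfold Hw
  refine P.E_congr fun ω hω => ?_
  by_cases h0 : φ ω = 0
  · simp [h0]
  · congr 3
    unfold cq cp FP.cl
    congr 1
    · exact P.pr_congr fun z hz => by rw [h ω hω h0 z hz]
    · exact P.pr_congr fun z hz => h ω hω h0 z hz

theorem Hw_symm (φ : Ω → ℝ) (A : Ω → α) (B : Ω → β) (C : Ω → γ) :
    Hw P φ A C - Hw P φ A (fun ω => (B ω, C ω)) = Hw P φ B C - Hw P φ B fun ω => (A ω, C ω) := by
  unfold Hw
  rw [← FP.E_sub, ← FP.E_sub]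
  refine P.E_congr fun ω hω => ?_
  have b5 : P.cl (fun x => (A x, B x, C x)) ω = P.cl (fun x => (B x, A x, C x)) ω :=
    cl_congr P (fun _ _ _ _ h => by simp_all) (fun _ _ _ _ h => by simp_all) hω
  simp only [cq_eq]
  rw [log_div (P.cl_pos _ hω).ne' (P.cl_pos _ hω).ne', log_div (P.cl_pos _ hω).ne' (P.cl_pos _ hω).ne',
    log_div (P.cl_pos _ hω).ne' (P.cl_pos _ hω).ne', log_div (P.cl_pos _ hω).ne' (P.cl_pos _ hω).ne',
    b5]
  ring

theorem Hw_le_E {U : Ω → ζ} {φ N : Ω → ℝ} {Z : Ω → α} {V : Ω → β} (hφ : P.Det U φ)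
    (hV : P.Det V U) (h0 : ∀ ω, 0 < P.p ω → 0 ≤ φ ω)
    (h : ∀ ω, 0 < P.p ω → φ ω ≠ 0 → ∃ F : Finset α, (F.card : ℝ) ≤ N ω ∧
      ∀ z, 0 < P.p z → V z = V ω → Z z ∈ F) :
    Hw P φ Z V ≤ P.E fun ω => φ ω * log (N ω) := by
  rw [Hw_cv P hφ Z hV, E_wt P hφ fun ω => log (N ω)]
  refine P.E_mono fun ω hω => ?_
  by_cases h1 : φ ω = 0
  · simp [h1]
  refine mul_le_mul_of_nonneg_left (FP.Hc_le_E _ fun z hz => ?_) (h0 ω hω)
  obtain ⟨F, a, b⟩ := h z (P.cv_pos hz)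
    (by rw [hφ z ω (P.cv_pos hz) hω (P.cv_eq hω hz)]; exact h1)
  exact ⟨F, a, fun v hv hh => b v (P.cv_pos hv) hh⟩

theorem Hw_le_add {U : Ω → ζ} {φ : Ω → ℝ} (G : Ω → α) {Z : Ω → β} {C : Ω → γ} (hφ : P.Det U φ)
    (hC : P.Det C U) (hZ : P.Det Z U) (h0 : ∀ ω, 0 < P.p ω → 0 ≤ φ ω) :
    Hw P φ G C ≤ Hw P φ Z C + Hw P φ G Z := by
  rw [Hw_cv P hφ G hC, Hw_cv P hφ Z hC, Hw_cv P hφ G hZ, ← FP.E_add]
  refine P.E_mono fun ω hω => ?_
  rw [← mul_add]
  refine mul_le_mul_of_nonneg_left ?_ (h0 ω hω)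
  have h1 := (P.cv U (U ω)).Hc_le_add G Z C
  have h2 := (P.cv U (U ω)).Hc_mono_right G (C := Z) (C' := fun ω => (Z ω, C ω))
    fun _ _ _ _ h => congrArg Prod.fst h
  linarith

theorem Hw_sum {ι : Type} (F : Finset ι) (φ : ι → Ω → ℝ) (Z : Ω → α) (V : Ω → β) :
    ∑ i ∈ F, Hw P (φ i) Z V = Hw P (fun ω => ∑ i ∈ F, φ i ω) Z V := by
  unfold Hw
  rw [← FP.E_sum]
  simp only [sum_mul]

theorem Hw_smul (c : ℝ) (φ : Ω → ℝ) (Z : Ω → α) (V : Ω → β) :
    Hw P (fun ω => c * φ ω) Z V = c * Hw P φ Z V := by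
  unfold Hw
  rw [← FP.E_mul_left]
  simp only [mul_assoc]

theorem Hw_mp {P' : FP Ω'} {ϖ : Ω' → Ω} (h : FP.MP P' P ϖ) (φ : Ω → ℝ) (Z : Ω → α) (V : Ω → β) :
    Hw P' (fun x => φ (ϖ x)) (fun x => Z (ϖ x)) (fun x => V (ϖ x)) = Hw P φ Z V := by
  unfold Hw
  rw [← h fun ω => φ ω * - log (cq P Z V ω)]
  refine P'.E_congr fun x _ => ?_
  rw [cq_eq, cq_eq, h.cl V, h.cl fun x => (Z x, V x)]

/-- telescoping with a shift -/
theorem tele (a b e : ℕ → ℝ) (Q Y : ℕ) {c : ℝ} (h0 : ∀ y, 0 ≤ a y) (h1 : ∀ y, a y ≤ c)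
    (h : ∀ y < Y, a (y + Q) ≤ b y + e y) :
    ∑ y ∈ range Y, (a y - b y) ≤ Q * c + ∑ y ∈ range Y, e y := by
  have s1 : ∑ y ∈ range Y, (a y - b y) ≤ ∑ y ∈ range Y, (a y - a (y + Q) + e y) :=
    sum_le_sum fun y hy => by linarith [h y (mem_range.1 hy)]
  have s2 : ∑ y ∈ range (Q + Y), a y = ∑ y ∈ range Q, a y + ∑ y ∈ range Y, a (y + Q) := by
    rw [sum_range_add]; simp only [add_comm]
  have s3 : ∑ y ∈ range Y, a y ≤ ∑ y ∈ range (Q + Y), a y :=
    sum_le_sum_of_subset_of_nonneg (range_mono (by omega)) fun y _ _ => h0 y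
  have s4 : ∑ y ∈ range Q, a y ≤ Q * c := by
    have := sum_le_card_nsmul (range Q) a c fun y _ => h1 y
    simpa using this
  rw [sum_add_distrib, sum_sub_distrib (f := a) (g := fun y => a (y + Q))] at s1
  linarith

theorem le_psi {r ε : ℝ} (hr : 0 < r) (hε : 0 < ε) :
    max (1 - r) 0 ≤ ε + (r - 1 - log r) / ε := by
  have h0 : 0 ≤ (r - 1 - log r) / ε := div_nonneg (by linarith [log_le_sub_one_of_pos hr]) hε.le
  refine max_le ?_ (by linarith)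
  rcases le_total 1 r with h | h
  · linarith
  obtain ⟨s, hs, rfl⟩ : ∃ s : ℝ, 0 < s ∧ r = s ^ 2 :=
    ⟨√r, sqrt_pos.2 hr, (sq_sqrt hr.le).symm⟩
  have h1 := log_le_sub_one_of_pos hs
  have hs1 : s ≤ 1 := by nlinarith
  rw [log_pow]
  have h2 : (1 - s) ^ 2 / ε ≤ (s ^ 2 - 1 - (2 : ℕ) * log s) / ε := by
    gcongr; push_cast; nlinarith
  have h3 : 0 ≤ (1 - s - ε) ^ 2 / ε := by positivity
  have h4 : (1 - s - ε) ^ 2 / ε = ε + (1 - s) ^ 2 / ε - 2 * (1 - s) := by field_simp; ring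
  nlinarith [sq_nonneg (1 - s)]

/-- Pinsker's inequality for events, with a reference law given by a second space -/
theorem pinsker (P' : FP Ω') (W : Ω → α) (W' : Ω' → α) (A : α → Prop) {ε : ℝ} (hε : 0 < ε)
    (hpos : ∀ ω, 0 < P.p ω → 0 < P'.pr fun x => W' x = W ω) :
    |(P.pr fun ω => A (W ω)) - P'.pr fun x => A (W' x)| ≤
      ε + (P.E fun ω => - log ((P'.pr fun x => W' x = W ω) / P.cl W ω)) / ε := by
  set r : Ω → ℝ := fun ω => (P'.pr fun x => W' x = W ω) / P.cl W ω with hr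
  have rp : ∀ ω, 0 < P.p ω → 0 < r ω := fun ω hω => div_pos (hpos ω hω) (P.cl_pos W hω)
  have key : ∀ B : α → Prop, (P.pr fun ω => B (W ω)) - (P'.pr fun x => B (W' x)) ≤
      P.E fun ω => max (1 - r ω) 0 := by
    intro B
    have k : (P.E fun ω => ind (B (W ω)) * r ω) ≤ P'.pr fun x => B (W' x) := by
      have := P.E_cross P' W W' (f := fun x => ind (B (W' x))) fun _ _ => ind_nonneg _
      refine le_trans (le_of_eq (P.E_congr fun ω _ => ?_)) this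
      rw [hr]
      simp only [FP.pr]
      rw [← mul_div_assoc, ← FP.E_mul_left]
      congr 1
      refine P'.E_congr fun x _ => ?_
      by_cases h : W' x = W ω
      · rw [h, mul_comm]
      · simp [ind_neg h]
    have d2 : (P.E fun ω => ind (B (W ω)) - ind (B (W ω)) * r ω) ≤ P.E fun ω => max (1 - r ω) 0 :=
      P.E_mono fun ω _ => by
        by_cases h : B (W ω)
        · rw [ind_pos h, one_mul]; exact le_max_left _ _
        · simp [ind_neg h]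
    rw [FP.E_sub] at d2
    unfold FP.pr at k ⊢
    linarith
  have k1 := key A
  have k2 := key fun a => ¬ A a
  have k3 := P.E_cross P' W W' (f := fun _ => 1) fun _ _ => zero_le_one
  simp only [mul_one, FP.E_const] at k3
  rw [FP.pr_not, FP.pr_not] at k2
  have d1 : (P.E fun ω => max (1 - r ω) 0) ≤ P.E fun ω => ε + (r ω - 1 - log (r ω)) / ε :=
    P.E_mono fun ω hω => le_psi (rp ω hω) hε
  rw [FP.E_add, FP.E_div, FP.E_sub, FP.E_sub, FP.E_const, FP.E_const] at d1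
  rw [FP.E_neg]
  change _ ≤ ε + - (P.E fun ω => log (r ω)) / ε
  change P.E r ≤ 1 at k3
  set K := P.E fun ω => log (r ω)
  have d5 : (P.E r - 1 - K) / ε ≤ (- K) / ε := by gcongr; linarith
  rw [abs_le]
  constructor <;> linarith

theorem cp_eq_cv (s : Ω → Prop) (V : Ω → β) {ω : Ω} (hω : 0 < P.p ω) :
    cp P s V ω = (P.cv V (V ω)).pr s := (P.pr_cv hω s).symm

/-- failure of the product property costs information -/
theorem pr_not_Prd {e : ℝ} (he : 0 < e) (T F : Ω → ℤ) {G : Ω → β} {C : Ω → γ} (hC : P.Det C G)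
    {s : Ω → Prop} (hs : P.Det G s) :
    (P.pr fun ω => s ω ∧ ¬ Prd P e T F G C ω) ≤
      4 / e ^ 2 * (Hw P (fun ω => ind (s ω)) T G -
        Hw P (fun ω => ind (s ω)) T fun ω => (F ω, C ω)) := by
  have hφ : P.Det C fun ω => ind (s ω) := fun a b ha hb h =>
    congrArg ind (hs a b ha hb (hC a b ha hb h))
  set f : Ω → ℝ := fun z => - log (cq P T G z) - - log (cq P T (fun ω => (F ω, C ω)) z) with hf
  have e1 : Hw P (fun ω => ind (s ω)) T G - Hw P (fun ω => ind (s ω)) T (fun ω => (F ω, C ω)) =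
      P.E fun ω => ind (s ω) * (P.cv C (C ω)).E f := by
    rw [← E_wt P hφ f]
    unfold Hw
    rw [← FP.E_sub]
    simp only [hf, mul_sub]
  rw [e1, ← FP.E_mul_left]
  refine P.E_mono fun ω hω => ?_
  have main : ∀ ε : ℝ, 0 < ε → ∀ (t : ℤ) (B : ℤ → Prop),
      |cp P (fun z => T z = t ∧ B (F z)) C ω -
        cp P (fun z => T z = t) G ω * cp P (fun z => B (F z)) C ω| ≤
        ε + (P.cv C (C ω)).E f / ε := by
    intro ε hε t B
    have hp : ∀ z, 0 < (P.cv C (C ω)).p z →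
        (((P.cv G (G ω)).prod (P.cv C (C ω))).pr fun x => (T x.1, F x.2) = (T z, F z)) =
          cq P T G z * cq P F C z := by
      intro z hz
      have a1 := P.cv_eq hω hz
      have a2 := P.cv_pos hz
      have a3 := hC z ω a2 hω a1
      simp only [Prod.mk.injEq]
      rw [FP.pr_prod _ _ (fun x => T x = T z) fun x => F x = F z, cq, cq, cp_eq_cv P _ _ a2,
        cp_eq_cv P _ _ a2, a1, a3]
    have := pinsker (P.cv C (C ω)) ((P.cv G (G ω)).prod (P.cv C (C ω))) (fun z => (T z, F z))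
      (fun x => (T x.1, F x.2)) (fun a => a.1 = t ∧ B a.2) hε fun z hz => by
        rw [hp z hz]
        exact mul_pos (cq_pos P _ _ (P.cv_pos hz)) (cq_pos P _ _ (P.cv_pos hz))
    rw [FP.pr_prod _ _ (fun x => T x = t) fun x => B (F x)] at this
    rw [cp_eq_cv P _ _ hω, cp_eq_cv P _ _ hω, cp_eq_cv P _ _ hω]
    refine this.trans (le_of_eq ?_)
    congr 2
    refine FP.E_congr _ fun z hz => ?_
    have a1 := P.cv_eq hω hz
    have a2 := P.cv_pos hz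
    rw [hp z hz, P.cl_cv _ hω a1, hf]
    simp only
    have b1 := cq_pos P T G a2
    have b2 := P.cl_pos (fun x => (F x, C x)) a2
    have b3 := P.cl_pos C a2
    have b4 := P.cl_pos (fun x => (T x, F x, C x)) a2
    have b5 : P.cl (fun x => ((T x, F x), C x)) z = P.cl (fun x => (T x, F x, C x)) z :=
      cl_congr P (fun _ _ _ _ h => by simp_all) (fun _ _ _ _ h => by simp_all) a2
    rw [b5, cq_eq P F C, cq_eq P T fun ω => (F ω, C ω), sub_neg_eq_add, neg_add_eq_sub, ← neg_sub,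
      ← log_div b1.ne' (div_pos b4 b2).ne']
    congr 2
    field_simp
  have K0 : 0 ≤ (P.cv C (C ω)).E f := by
    by_contra hK
    push Not at hK
    set K := (P.cv C (C ω)).E f
    have hε : 0 < √(-K) / 4 := by have := sqrt_pos.2 (neg_pos.2 hK); positivity
    have h1 := (abs_nonneg _).trans (main _ hε 0 fun _ => True)
    have h2 := mul_self_sqrt (neg_pos.2 hK).le
    have h3 := sqrt_pos.2 (neg_pos.2 hK)
    have h4 : K / (√(-K) / 4) = - 4 * √(-K) := by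
      rw [div_eq_iff hε.ne']; nlinarith
    rw [h4] at h1
    linarith
  by_cases h : s ω ∧ ¬ Prd P e T F G C ω
  · rw [ind_pos h, ind_pos h.1, one_mul]
    have h2 := h.2
    unfold Prd at h2
    push Not at h2
    obtain ⟨t, B, h3⟩ := h2
    have h4 := h3.trans_le (main (e / 2) (by positivity) t B)
    set K := (P.cv C (C ω)).E f
    have h5 : K / (e / 2) = 2 * K / e := by field_simp
    rw [h5] at h4
    have h6 : e / 2 < 2 * K / e := by linarith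
    rw [lt_div_iff₀ he] at h6
    rw [div_mul_eq_mul_div, le_div_iff₀ (by positivity)]
    nlinarith
  · rw [ind_neg h]
    exact mul_nonneg (by positivity) (mul_nonneg (ind_nonneg _) K0)

end Pool.Agent.P.MP_77a832_co.EL.Bud
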