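import Pool.Agent.P.MP_77a832_co.EL.BIface
import Pool.Agent.P.MP_77a832_co.EL.BudEnt

/-! Step FEW. -/

set_option autoImplicit false

namespace Pool.Agent.P.MP_77a832_co.EL

open Finset Real Pool.Agent.P.MP_bf60a1_an.RA
open scoped Classical

namespace FEWc

theorem two {Ω α β γ : Type} [Fintype Ω] (P : FP Ω) {Y : Ω → α} {Z : Ω → β} {V : Ω → γ}
    {N N' : ℝ} (h : Few P Z V N) (h' : Few P Y Z N') : Few P Y V (N * N') := by
  intro ω hω
  obtain ⟨F, hF, hF'⟩ := h ω hω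
  have hN' : 0 ≤ N' := by
    obtain ⟨G, hG, -⟩ := h' ω hω
    exact (Nat.cast_nonneg _).trans hG
  have : ∀ b : β, ∃ G : Finset α, (G.card : ℝ) ≤ N' ∧ ∀ z, 0 < P.p z → Z z = b → Y z ∈ G := by
    intro b
    by_cases hb : ∃ v, 0 < P.p v ∧ Z v = b
    · obtain ⟨v, hv, rfl⟩ := hb
      exact h' v hv
    · exact ⟨∅, by simpa using hN', fun z hz e => absurd ⟨z, hz, e⟩ hb⟩
  choose G hG hG' using this
  refine ⟨F.biUnion G, ?_, fun z hz e => mem_biUnion.2 ⟨_, hF' z hz e, hG' _ z hz rfl⟩⟩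
  calc ((F.biUnion G).card : ℝ) ≤ ∑ b ∈ F, ((G b).card : ℝ) := by exact_mod_cast card_biUnion_le
    _ ≤ F.card * N' := by
      have := sum_le_card_nsmul F (fun b => ((G b).card : ℝ)) N' fun b _ => hG b
      rwa [nsmul_eq_mul] at this
    _ ≤ N * N' := mul_le_mul_of_nonneg_right hF hN'

end FEWc

theorem p_FEW :
    S_FEW := by
  intro Ω α β γ _ P
  refine ⟨fun Y Z V N N' => FEWc.two P, fun W N n k hN h => ?_⟩
  induction k with
  | zero => exact fun ω _ => ⟨{W n ω}, by simp, fun z _ e => by simpa using e⟩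
  | succ k ih =>
    rw [pow_succ]
    exact FEWc.two P (ih fun i a b => h i a (by omega)) (h (n + k) (by omega) (by omega))

end Pool.Agent.P.MP_77a832_co.EL
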