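import Pool.Agent.P.MP_77a832_co.EL.BIface

/-! Step FLR. -/

set_option autoImplicit false

namespace Pool.Agent.P.MP_77a832_co.EL

open Finset Real Pool.Agent.P.MP_bf60a1_an.RA
open scoped Classical

namespace FLRc

theorem fl_div (v : ℝ) (k j : ℕ) : ⌊v * 2 ^ k⌋ = ⌊v * 2 ^ (k + j)⌋ / ((2 ^ j : ℕ) : ℤ) := by
  rw [← Int.floor_div_natCast]
  congr 1
  have : (2 : ℝ) ^ j ≠ 0 := by positivity
  push_cast
  rw [pow_add, ← mul_assoc, mul_div_cancel_right₀ _ this]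

end FLRc

theorem p_FLR :
    S_FLR := by
  intro v v' k j
  have hk : (0 : ℝ) < 2 ^ k := by positivity
  have hab : ∀ a b : ℝ, |a - b| * 2 ^ k = |a * 2 ^ k - b * 2 ^ k| := fun a b => by
    rw [← sub_mul, abs_mul, abs_of_pos hk]
  have a1 := Int.floor_le (v * 2 ^ k)
  have a2 := Int.lt_floor_add_one (v * 2 ^ k)
  have b1 := Int.floor_le (v' * 2 ^ k)
  have b2 := Int.lt_floor_add_one (v' * 2 ^ k)
  refine ⟨fun h => ?_, fun h => ?_, fun t hn h => ?_, fun h => ?_, ?_⟩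
  · rw [FLRc.fl_div v k j, FLRc.fl_div v' k j, h]
  · have h1 := Int.abs_sub_lt_one_of_floor_eq_floor h
    rw [← hab] at h1
    rw [one_div, inv_pow, ← one_div, le_div_iff₀ hk]
    exact h1.le
  · rw [hab, abs_le] at h
    have n1 : t < |v * 2 ^ k - (⌊v * 2 ^ k⌋ : ℤ)| := not_le.1 fun h => hn ⟨_, h⟩
    have n2 : t < |v * 2 ^ k - ((⌊v * 2 ^ k⌋ + 1 : ℤ) : ℝ)| := not_le.1 fun h => hn ⟨_, h⟩
    rw [abs_of_nonneg (by linarith)] at n1
    push_cast at n2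
    rw [abs_of_nonpos (by linarith)] at n2
    rw [Int.floor_eq_iff]
    constructor <;> linarith [h.1, h.2]
  · rw [hab] at h
    have : ((3 : ℤ) : ℝ) ≤ ((|⌊v * 2 ^ k⌋ - ⌊v' * 2 ^ k⌋| : ℤ) : ℝ) := by
      push_cast
      rcases le_abs'.1 h with h | h
      · exact le_abs'.2 (Or.inl (by linarith))
      · exact le_abs'.2 (Or.inr (by linarith))
    exact_mod_cast this
  · refine ⟨Ico (⌊v * 2 ^ k⌋ * ((2 ^ j : ℕ) : ℤ)) (⌊v * 2 ^ k⌋ * ((2 ^ j : ℕ) : ℤ) + (2 ^ j : ℕ)),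
      by rw [Int.card_Ico, add_sub_cancel_left, Int.toNat_natCast], fun w hw => ?_⟩
    rw [← hw, FLRc.fl_div w k j, mem_Ico]
    have hp : (0 : ℤ) < ((2 ^ j : ℕ) : ℤ) := by positivity
    refine ⟨Int.ediv_mul_le _ hp.ne', ?_⟩
    have := Int.lt_ediv_add_one_mul_self ⌊w * 2 ^ (k + j)⌋ hp
    linarith

end Pool.Agent.P.MP_77a832_co.EL
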