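import Pool.Agent.P.MP_77a832_co.EL.BIface

/-! Step FULL. -/

set_option autoImplicit false

namespace Pool.Agent.P.MP_77a832_co.EL

open Finset Real Pool.Agent.P.MP_bf60a1_an.RA
open scoped Classical

namespace FULLc

variable {Ω β δ : Type} [Fintype Ω]

theorem cls (hCP : S_CP) (P : FP Ω) (D : Ω → β) (G s s' : Ω → Prop) {c : ℝ} (hc : 0 ≤ c)
    (hG : ∀ x, 0 < P.p x → G x → s x ∧
      P.pr (fun z => s z ∧ D z = D x) ≤ c * P.pr fun z => s' z ∧ D z = D x) :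
    P.pr G ≤ c * P.pr s' := by
  set G' : Ω → Prop := fun z => ∃ x, 0 < P.p x ∧ G x ∧ D z = D x
  have hd : P.Det D fun z => ind (G' z) := fun ω z _ _ h => by simp only [G', h]
  have e : ∀ t : Ω → Prop, (P.pr fun z => G' z ∧ t z) = P.E fun z => ind (G' z) * cp P t D z :=
    fun t => by
      rw [(hCP Ω Unit β Unit P D).1 t _ hd]
      exact P.E_congr fun ω _ => ind_and _ _
  have h1 : P.pr G ≤ P.pr fun z => G' z ∧ s z :=
    P.pr_mono fun x hx h => ⟨⟨x, hx, h, rfl⟩, (hG x hx h).1⟩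
  have h2 : (P.pr fun z => G' z ∧ s' z) ≤ P.pr s' := P.pr_mono fun _ _ h => h.2
  refine h1.trans (le_trans ?_ (mul_le_mul_of_nonneg_left h2 hc))
  rw [e, e, ← P.E_mul_left]
  refine P.E_mono fun ω hω => ?_
  by_cases h : G' ω
  · obtain ⟨x, hx, h4, h5⟩ := h
    rw [ind_pos ⟨x, hx, h4, h5⟩, one_mul, one_mul, cp, cp, ← mul_div_assoc, h5]
    exact div_le_div_of_nonneg_right (hG x hx h4).2 (P.cl_nonneg _ _)
  · rw [ind_neg h]; simp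

theorem cpy (Q : FP Ω) (V : Ω → β) (s R : Ω → Prop) :
    ((Q.cpy V).pr fun x => s x.1 ∧ R x.2) = Q.E fun z => ind (s z) * cp Q R V z := by
  rw [FP.pr, FP.cpy, FP.E_glue]
  refine Q.E_congr fun z hz => ?_
  simp only [ind_and]
  rw [FP.E_mul_left]
  exact congrArg _ (Q.pr_cv hz R)

theorem pt (hCP : S_CP) (Q : FP Ω) (V : Ω → β) (D : Ω × Ω → δ) (Bh Br R : Ω → Prop)
    (NN US : Ω × Ω → Prop) {d d' k : ℝ} (hd : 0 < d) (hd' : 0 < d') (hk : 0 ≤ k)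
    (h1 : d' * Q.pr Bh ≤ Q.pr fun z => Bh z ∧ d ≤ cp Q R V z)
    (h2 : ((Q.cpy V).pr fun x => (Bh x.1 ∧ R x.2) ∧ ¬ NN x) ≤ d * d' / 4 * Q.pr Bh)
    (h3 : ((Q.cpy V).pr fun x => (Bh x.1 ∧ R x.2) ∧ US x) ≤
      ((Q.cpy V).pr fun x => Bh x.1 ∧ R x.2) / 2)
    (h4 : ∀ x, 0 < (Q.cpy V).p x → Bh x.1 ∧ R x.2 → NN x → ¬ US x →
      (Q.cpy V).pr (fun z => Bh z.1 ∧ D z = D x) ≤
        k * (Q.cpy V).pr fun z => Br z.1 ∧ D z = D x) :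
    Q.pr Bh ≤ 4 / (d * d') * k * Q.pr Br := by
  have a1 : d * Q.pr (fun z => Bh z ∧ d ≤ cp Q R V z) ≤ (Q.cpy V).pr fun x => Bh x.1 ∧ R x.2 := by
    rw [cpy, FP.pr, ← Q.E_mul_left]
    refine Q.E_mono fun z hz => ?_
    by_cases h : Bh z ∧ d ≤ cp Q R V z
    · rw [ind_pos h, ind_pos h.1, mul_one, one_mul]; exact h.2
    · rw [ind_neg h, mul_zero]
      exact mul_nonneg (ind_nonneg _) ((hCP Ω Unit β Unit Q V).2.1 R z).1
  have a2 := cls hCP (Q.cpy V) D (fun x => (Bh x.1 ∧ R x.2) ∧ NN x ∧ ¬ US x)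
    (fun x => Bh x.1) (fun x => Br x.1) hk fun x hx h => ⟨h.1.1, h4 x hx h.1 h.2.1 h.2.2⟩
  rw [(Q.cpy_fst V).pr Br] at a2
  have a3 : ((Q.cpy V).pr fun x => Bh x.1 ∧ R x.2) ≤ (Q.cpy V).pr fun x =>
      ((Bh x.1 ∧ R x.2) ∧ NN x ∧ ¬ US x) ∨ (((Bh x.1 ∧ R x.2) ∧ ¬ NN x) ∨
        (Bh x.1 ∧ R x.2) ∧ US x) := FP.pr_mono _ fun x _ h => by tauto
  have a4 := a3.trans ((FP.pr_or_le _ _ _).trans (add_le_add_right (FP.pr_or_le _ _ _) _))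
  have a5 := mul_le_mul_of_nonneg_left h1 hd.le
  rw [mul_assoc, div_mul_eq_mul_div, le_div_iff₀ (mul_pos hd hd')]
  nlinarith

end FULLc

theorem p_FULL (hCP : S_CP) (hCHN : S_CHN) (hBS : S_BS) (hCLF : S_CLF) :
    S_FULL := by
  intro Ω α β _ D p hD σ σ' u r hr ω hh h1 h2 h3 h4 h5
  have hL := (hBS _ _ _ D p hD).1 r ω hh
  exact FULLc.pt hCP D.Q (D.pw (D.lab p r ω).1) (fun w => D.W (p.lam r) w.2) _ _
    (D.gd p r (D.lab p r ω).1 (D.lab p r ω).2.1)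
    (fun w => D.nice1 p σ σ' u r (D.lab p r ω).1 (D.lab p r ω).2.2 w ∧
      D.nice1 p σ σ' u r (D.lab p r ω).1 (D.lab p r ω).2.2 w.swap)
    (fun w => D.uns p σ' u (D.lab p r ω).2.2 ω w.2) (by unfold Par.δ; positivity) hD.ok.δ0
    (by positivity) (not_lt.1 h2) (not_lt.1 h4) (not_lt.1 h3) fun w hw e n us =>
      hCLF _ _ _ D p hD σ σ' u r hr ω _ w hL h1 h5 hw e us n.1 n.2

end Pool.Agent.P.MP_77a832_co.EL
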