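import Pool.Agent.P.MP_77a832_co.EL.BIface

/-! Step G0. -/

set_option autoImplicit false

namespace Pool.Agent.P.MP_77a832_co.EL

open Finset Real Pool.Agent.P.MP_bf60a1_an.RA
open scoped Classical

namespace G0c

theorem avg {b : ℕ → ℝ} (hb : ∀ i, 0 ≤ b i ∧ b i ≤ 1) (f : ℕ → ℕ) {n : ℕ} (hn : 1 ≤ n) :
    0 ≤ (∑ i ∈ range n, b (f i)) / n ∧ (∑ i ∈ range n, b (f i)) / n ≤ 1 := by
  have h : (0 : ℝ) < n := by exact_mod_cast hn
  refine ⟨div_nonneg (sum_nonneg fun i _ => (hb _).1) h.le, (div_le_one h).2 ?_⟩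
  simpa using sum_le_card_nsmul (range n) _ 1 fun i _ => (hb (f i)).2

end G0c

theorem p_G0 (hCP : S_CP) (hSQ : S_SQ) (hBH : S_BH) :
    S_G0 := by
  intro Ω α β _ D p nB g ok str br g0 g1 hκ hg hΛ hn
  have hN : 1 ≤ p.N := by have := ok.hN; omega
  have hN' : (1 : ℝ) ≤ p.N := by exact_mod_cast hN
  have hΛ' : (1 : ℝ) ≤ p.Λ := by exact_mod_cast ok.Λ1
  have hκ' : (1 : ℝ) ≤ p.κ := by exact_mod_cast ok.κ1
  have hn0 : (0 : ℝ) < nB := 
    (mul_pos_iff_of_pos_left (pow_pos g0 2)).1 (lt_of_lt_of_le (by positivity) hn)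
  have hn1 : 1 ≤ nB := by exact_mod_cast hn0
  have hl := Real.log_two_gt_d9
  set c : ℝ := 2 * p.κ * log 2 with hc
  have c0 : 0 < c := by positivity
  let b : Ω → ℕ → ℝ := fun ω n => D.bh p.κ n ω / c
  have hb : ∀ ω i, 0 ≤ b ω i ∧ b ω i ≤ 1 := fun ω i => by
    have := (hCP Ω Unit _ Unit D.Q (D.pw i)).2.1 (fun z => D.V1 i z = D.V1 i ω) ω
    exact ⟨div_nonneg (le_min (neg_nonneg.2 (log_nonpos this.1 this.2)) c0.le) c0.le,
      (div_le_one c0).2 (min_le_right _ _)⟩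
  have hJ : 1 ≤ p.Λ * p.N := Nat.mul_pos ok.Λ1 hN
  have h1 : ∀ ω k, (∑ i ∈ range (p.Λ * p.N), b ω (k + i)) / (p.Λ * p.N) *
      ((∑ i ∈ range p.N, b ω (k + (p.Λ * p.N + p.N + i))) / p.N) ≤
        ind ((D.shift k).G0 p ω) + p.g1 := fun ω k => by
    have a := G0c.avg (hb ω) (fun i => k + i) hJ
    have a' := G0c.avg (hb ω) (fun i => k + (p.Λ * p.N + p.N + i)) hN
    rw [Nat.cast_mul] at a
    by_cases h : (D.shift k).G0 p ω
    · rw [ind_pos h]
      linarith [mul_le_one₀ a.2 a'.1 a'.2, ok.g0]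
    rw [ind_neg h, zero_add]
    rcases not_and_or.1 h with h | h
    · refine (mul_le_of_le_one_right a.1 a'.2).trans ?_
      rw [div_le_iff₀ (by positivity), ← sum_div, div_le_iff₀ c0]
      refine (not_le.1 h).le.trans_eq ?_
      rw [Par.J, Nat.cast_mul]; ring
    · refine (mul_le_of_le_one_left a'.1 a.2).trans ?_
      rw [div_le_iff₀ (by positivity), ← sum_div, div_le_iff₀ c0]
      exact (not_le.1 h).le.trans_eq (by ring)
  set m : ℝ := g * nB / 4 with hm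
  have h2 : m ≤ D.Q.E fun ω => ∑ i ∈ range nB, b ω i := by
    rw [D.Q.E_sum]
    simp only [b, D.Q.E_div]
    rw [← sum_div, le_div_iff₀ c0]
    have := sum_le_sum fun n hn => hBH _ _ _ D p.κ n (str.fV1 n (mem_range.1 hn))
    rw [sum_sub_distrib, sum_const, card_range, nsmul_eq_mul, mul_one] at this
    refine le_trans ?_ ((sub_le_sub_right br _).trans this)
    have h3 : 2 ≤ g * p.κ * log 2 := by nlinarith
    have h4 := mul_le_mul_of_nonneg_right h3 hn0.le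
    rw [hm, hc]
    linarith
  have h3 : ∀ ω, (m / nB * ∑ i ∈ range nB, b ω i) - (m ^ 2 / nB / 2 + 5 * nB / p.Λ +
      4 * (p.Λ + 2) * p.N + p.g1 * nB) ≤ ∑ k ∈ range nB, ind ((D.shift k).G0 p ω) := fun ω => by
    have a := (hSQ (b ω) p.N p.Λ nB hN ok.Λ1 hn1 (hb ω)).trans (sum_le_sum fun k _ => h1 ω k)
    rw [sum_add_distrib, sum_const, card_range, nsmul_eq_mul] at a
    have a' : 0 ≤ (∑ i ∈ range nB, b ω i - m) ^ 2 / nB / 2 := by positivity
    have e : (∑ i ∈ range nB, b ω i - m) ^ 2 / nB / 2 = (∑ i ∈ range nB, b ω i) ^ 2 / nB / 2 -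
      m / nB * ∑ i ∈ range nB, b ω i + m ^ 2 / nB / 2 := by ring
    linarith
  have h4 := D.Q.E_mono fun ω _ => h3 ω
  rw [D.Q.E_sub, D.Q.E_mul_left, D.Q.E_const,
    D.Q.E_sum (range nB) fun k ω => ind ((D.shift k).G0 p ω)] at h4
  refine le_trans ?_ h4
  have h5 := mul_le_mul_of_nonneg_left h2 (show 0 ≤ m / nB by positivity)
  have h6 : m / nB * m = g ^ 2 * nB / 16 := by rw [hm]; field_simp; norm_num
  have h7 : m ^ 2 / nB / 2 = g ^ 2 * nB / 32 := by rw [hm]; field_simp; norm_num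
  have h8 : 5 * nB / p.Λ ≤ 5 * (g ^ 2 * nB) / 1024 := by
    rw [div_le_div_iff₀ (by positivity) (by norm_num)]
    nlinarith [mul_le_mul_of_nonneg_right hΛ hn0.le]
  have h9 := mul_le_mul_of_nonneg_right hg hn0.le
  nlinarith [mul_pos (pow_pos g0 2) hn0]

end Pool.Agent.P.MP_77a832_co.EL
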