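import Pool.Agent.P.MP_77a832_co.EL.BIface

/-! Step GEO. -/

set_option autoImplicit false

namespace Pool.Agent.P.MP_77a832_co.EL

open Finset Real Pool.Agent.P.MP_bf60a1_an.RA
open scoped Classical

namespace GEOc

theorem tilt {yv xv yz xz θ θ' ε l : ℝ} (h : |yv - θ' * xv - (yz - θ' * xz)| ≤ l * |xv - xz|)
    (hl : l ≤ ε) (h1 : |θ' - θ| ≤ ε) : |yv - θ * xv - (yz - θ * xz)| ≤ 2 * ε * |xv - xz| := by
  have e : yv - θ * xv - (yz - θ * xz) =
      (yv - θ' * xv - (yz - θ' * xz)) + (θ' - θ) * (xv - xz) := by ring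
  rw [e]
  refine (abs_add_le _ _).trans ?_
  rw [abs_mul]
  have a1 := mul_le_mul_of_nonneg_right hl (abs_nonneg (xv - xz))
  have a2 := mul_le_mul_of_nonneg_right h1 (abs_nonneg (xv - xz))
  linarith

end GEOc

theorem p_GEO (hCHN : S_CHN) (hFLR : S_FLR) :
    S_GEO := by
  intro Ω α β _ D p hD σ l u ω z hl hT hsel htw hsc hxs
  obtain ⟨c1, c2, -⟩ := hCHN _ _ _ D p hD
  obtain ⟨s1, s2⟩ := hsc
  have hS := hD.str
  have hu : (0 : ℝ) < 2 ^ u := by positivity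
  have ha : (0 : ℝ) < 2 ^ p.a := by positivity
  have hd0 : 0 ≤ |D.xx ω - D.xx z| := abs_nonneg _
  have hd : |D.xx ω - D.xx z| * 2 ^ u ≤ 1 / 2 ^ p.a := by
    rw [one_div_pow, le_div_iff₀ hu] at s1
    rw [le_div_iff₀ ha]
    linarith
  have hX : ∀ v, |D.xx v - D.xx ω| ≤ |D.xx ω - D.xx z| → D.X σ u v = D.X σ u ω := fun v hv => by
    refine (hFLR (D.xx ω - σ) (D.xx v - σ) u 0).2.2.1 _ hxs (le_trans ?_ hd)
    rw [sub_sub_sub_cancel_right]
    exact mul_le_mul_of_nonneg_right hv hu.le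
  have hxg : ∀ v, D.Nd (l + 2) v = D.Nd (l + 2) ω → 4 * |D.xx v - D.xx ω| ≤ |D.xx ω - D.xx z| :=
    fun v hv => hS.xg l ω z v hT hsel.1 hsel.2 htw hv
  refine ⟨?_, ?_, fun v hv => ?_, fun y hy hlen => ?_⟩
  · exact Prod.ext ((c1 0 l (Nat.zero_le _) (by omega) ω z).2.1 (hS.tnd l ω z htw))
      (hX z (abs_sub_comm _ _).le)
  · refine (hFLR (D.xx z - σ) (D.xx ω - σ) (u + p.m) 0).2.2.2.1 ?_
    rw [sub_sub_sub_cancel_right, abs_sub_comm]
    rw [one_div_pow, div_lt_iff₀ hu] at s2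
    have e : (2 : ℝ) ^ (u + p.m) = 2 ^ (p.a + 1) * 2 ^ u * 4 := by
      rw [Par.m]; ring
    rw [e]
    linarith
  · have := hxg v hv
    have h0 := abs_nonneg (D.xx v - D.xx ω)
    exact Prod.ext ((c1 0 (l + 2) (Nat.zero_le _) hT ω v).2.1 hv) (hX v (by linarith))
  · obtain ⟨n1, n2, n3⟩ := c2 (D.ell p y ω) l (by omega) (by omega) ω
    set ε := p.φ * (1 / 2) ^ (y + p.q) with hε
    have hφ0 := hD.ok.φ0
    have hε0 : 0 ≤ ε := by positivity
    have hlen' : D.hi (D.ell p y ω) ω - D.lo (D.ell p y ω) ω ≤ ε := hlen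
    have key : ∀ v, D.Nd (l + 1) v = D.Nd (l + 1) ω →
        |D.Pj (D.th p y ω) v - D.Pj (D.th p y ω) z| ≤ 2 * ε * |D.xx v - D.xx z| := fun v hv => by
      refine GEOc.tilt ((hS.cone l ω z v hT hsel.1 htw hv).2 (D.lo l ω) le_rfl n2) ?_ ?_
      · show D.hi l ω - D.lo l ω ≤ ε
        linarith
      · show |D.lo l ω - D.lo (D.ell p y ω) ω| ≤ ε
        rw [abs_le]
        constructor <;> linarith
    have hφ : p.φ ≤ 1 / 32 := by
      have h1 := hD.ok.hφ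
      have h2 : (2 : ℝ) ^ p.m = 2 ^ p.a * 8 := by rw [Par.m]; ring
      have h3 : (1 : ℝ) ≤ 2 ^ p.a := one_le_pow₀ (by norm_num)
      rw [h2] at h1
      nlinarith
    have hfin : 9 / 2 * (ε * |D.xx ω - D.xx z|) ≤ p.hh u y := by
      have h1 : |D.xx ω - D.xx z| ≤ (1 / 2) ^ u * (1 / 2) ^ p.a := by
        rw [one_div_pow (n := p.a), mul_one_div, le_div_iff₀ ha]
        linarith
      have h2 : p.hh u y = 1 / 4 * ((1 / 2) ^ (y + p.q) * ((1 / 2) ^ u * (1 / 2) ^ p.a)) := by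
        rw [Par.hh, Par.m]; ring
      have h3 : ε * |D.xx ω - D.xx z| ≤
          1 / 32 * (1 / 2) ^ (y + p.q) * ((1 / 2) ^ u * (1 / 2) ^ p.a) :=
        mul_le_mul (mul_le_mul_of_nonneg_right hφ (by positivity)) h1 hd0 (by positivity)
      have h4 : (0 : ℝ) ≤ (1 / 2) ^ (y + p.q) * ((1 / 2) ^ u * (1 / 2) ^ p.a) := by positivity
      rw [h2]
      linarith
    have k0 := key ω rfl
    have hp0 : 0 ≤ ε * |D.xx ω - D.xx z| := mul_nonneg hε0 hd0
    refine ⟨?_, fun v hv => ?_⟩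
    · rw [abs_sub_comm]
      show |D.Pj (D.th p y ω) ω - D.Pj (D.th p y ω) z| ≤ _
      linarith
    · have k1 := key v ((c1 (l + 1) (l + 2) (by omega) hT ω v).2.1 hv)
      have k2 : |D.xx v - D.xx z| ≤ 5 / 4 * |D.xx ω - D.xx z| := by
        have := abs_sub_le (D.xx v) (D.xx ω) (D.xx z)
        have := hxg v hv
        linarith
      have k3 := mul_le_mul_of_nonneg_left k2 hε0
      have k4 := abs_sub_le (D.Pj (D.th p y ω) v) (D.Pj (D.th p y ω) z) (D.Pj (D.th p y ω) ω)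
      rw [abs_sub_comm (D.Pj (D.th p y ω) z)] at k4
      show |D.Pj (D.th p y ω) v - D.Pj (D.th p y ω) ω| ≤ _
      linarith

end Pool.Agent.P.MP_77a832_co.EL
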