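import Pool.Agent.P.MP_77a832_co.EL.BIface

/-! Step GRP. -/

set_option autoImplicit false

namespace Pool.Agent.P.MP_77a832_co.EL

open Finset Real Pool.Agent.P.MP_bf60a1_an.RA
open scoped Classical

namespace GRPc

theorem num {z R N Λ g η τ T L N1 : ℝ} (hz : 0 < z) (hN1 : 1 ≤ N1) (hΛ : 1 ≤ Λ) (hL : 1 ≤ L)
    (hg : 0 < g) (hg1 : g ≤ 1) (hη : 0 < η) (hη1 : η ≤ 1) (eN : N = L * N1) (eR : R = Λ * N1)
    (eT : T = (Λ + 3) * N) (h : 400 * z * (Λ + 3) ≤ η * g * τ) :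
    N * (z * R + R * (26 * z * T / (g * N)) + 52 * z * T / L) + N * (z * T / (η * L)) ≤
      τ * N * R := by
  have hN : 0 < N := by rw [eN]; positivity
  have hR : 0 < R := by rw [eR]; positivity
  have h1 : T / L ≤ (Λ + 3) * R := by
    rw [div_le_iff₀ (by positivity), eT, eN, eR]
    have : 0 ≤ (Λ + 3) * (L * N1) * (Λ - 1) :=
      mul_nonneg (by positivity) (by linarith)
    nlinarith
  set K := z * (Λ + 3) / (η * g) with hK
  have hK0 : 400 * K ≤ τ := by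
    rw [hK, ← mul_div_assoc, div_le_iff₀ (by positivity)]
    linarith
  have hb : z * (Λ + 3) / η ≤ K :=
    div_le_div_of_nonneg_left (by positivity) (by positivity) (by nlinarith)
  have hc : z * (Λ + 3) / g ≤ K :=
    div_le_div_of_nonneg_left (by positivity) (by positivity) (by nlinarith)
  have hd : z * (Λ + 3) ≤ K := (le_div_self (by positivity) hη hη1).trans hb
  have e1 : 26 * z * T / (g * N) = 26 * (z * (Λ + 3) / g) := by rw [eT]; field_simp
  have e2 : 52 * z * T / L ≤ 52 * K * R := by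
    calc _ = 52 * z * (T / L) := by ring
      _ ≤ 52 * z * ((Λ + 3) * R) := by gcongr
      _ = 52 * (z * (Λ + 3)) * R := by ring
      _ ≤ _ := by gcongr
  have e3 : z * T / (η * L) ≤ K * R := by
    calc _ = z / η * (T / L) := by field_simp
      _ ≤ z / η * ((Λ + 3) * R) := by gcongr
      _ = z * (Λ + 3) / η * R := by ring
      _ ≤ _ := by gcongr
  have e4 : z ≤ K := by nlinarith
  have hK1 : 0 ≤ K := hz.le.trans e4
  rw [e1]
  calc _ ≤ N * (K * R + R * (26 * K) + 52 * K * R) + N * (K * R) := by gcongr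
    _ = 80 * K * N * R := by ring
    _ ≤ _ := by gcongr; linarith

end GRPc

theorem p_GRP (hCHN : S_CHN) (hSM : S_SM) (hCEN : S_CEN) (hSHK : S_SHK) (hHAS : S_HAS) (hF2 : S_F2) (hF4 : S_F4) (hF5 : S_F5) (hNNS : S_NNS) (hLAMC : S_LAMC) (hFULL : S_FULL) :
    S_GRP := by
  intro Ω α β _ D p hD hN hW σ σ' A hA
  obtain ⟨s1, s2, s3, -⟩ := hSM _ _ _ D p hD A
  have ok := hD.ok
  have ind : ∀ ev : Ω → Prop, D.Sm p A (fun _ _ w => ev w.1) ≤ p.N * D.Q.pr ev := fun ev => by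
    refine (s3 fun _ ω => ev ω).trans ?_
    refine (sum_le_sum fun i _ => D.Q.pr_mono (t := ev) fun ω _ h => h.2).trans_eq ?_
    rw [sum_const, card_range, nsmul_eq_mul]
  have hδ : 0 < p.δ := by unfold Par.δ; positivity
  have hδ' := ok.δ0
  have step : ∀ r ∈ range p.R, D.Sm p A (fun l u w => D.G0 p w.1 ∧ D.xs p σ u w.1 ∧
      D.kr p l w.1 ∧ D.Lam p σ u w.1 ∧ ¬ D.good p σ u r w.1) ≤
      p.N * D.Q.pr (fun ω => D.G0 p ω ∧ ¬ D.has p r ω) + p.N * D.Q.pr (fun ω => ¬ D.shrk p r ω) +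
      D.Sm p A (fun _ u w => D.has p r w.1 ∧ D.f1 p σ' u r w.1) +
      D.Sm p A (fun _ u w => D.has p r w.1 ∧ D.f3 p σ σ' u r (D.lab p r w.1) w.1) +
      32 / (p.δ * p.δ') * (∑ u ∈ range A, ∑ n ∈ p.grp r, ∑ y ∈ range A, D.NN p σ σ' u r n y) +
      2 * (p.τ * p.N) := by
    intro r hr
    have hr := mem_range.1 hr
    have a1 := ind fun ω => D.G0 p ω ∧ ¬ D.has p r ω
    have a2 := ind fun ω => ¬ D.shrk p r ω
    have a3 : D.Sm p A (fun _ u w => D.Lam p σ u w.1 ∧ D.has p r w.1 ∧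
        D.f2 p σ u r (D.lab p r w.1) w.1) ≤ p.τ * p.N := by
      refine (hCEN _ _ _ D p hD A fun u ω => D.Lam p σ u ω ∧ D.has p r ω ∧
        D.f2 p σ u r (D.lab p r ω) ω).trans ?_
      have := sum_le_sum fun u (_ : u ∈ range A) => hF2 _ _ _ D p hD σ u r hr
      rw [← mul_sum] at this
      have h2 := mul_le_mul_of_nonneg_left (hLAMC _ _ _ D p hD σ A).2.1
        (show 0 ≤ 2 * p.δ' * p.L' * 4 ^ p.κ by positivity)
      linarith [ok.hf2]
    have a4 : D.Sm p A (fun _ u w => D.Lam p σ u w.1 ∧ D.has p r w.1 ∧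
        D.f4 p σ σ' u r (D.lab p r w.1) w.1) ≤ 32 / (p.δ * p.δ') *
          ∑ u ∈ range A, ∑ n ∈ p.grp r, ∑ y ∈ range A, D.NN p σ σ' u r n y := by
      refine (hCEN _ _ _ D p hD A fun u ω => D.Lam p σ u ω ∧ D.has p r ω ∧
        D.f4 p σ σ' u r (D.lab p r ω) ω).trans ?_
      have := sum_le_sum fun u (_ : u ∈ range A) => hF4 _ _ _ D p hD σ σ' u A hA r hr
      rw [← mul_sum] at this
      refine (mul_le_mul_of_nonneg_left this zero_le_two).trans_eq (by ring)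
    have a5 := (hF5 _ _ _ D p hD σ σ' A r hr).trans ok.hf5
    have b := s1 (fun l u w => D.G0 p w.1 ∧ D.xs p σ u w.1 ∧
      D.kr p l w.1 ∧ D.Lam p σ u w.1 ∧ ¬ D.good p σ u r w.1) (fun l u w =>
        (D.G0 p w.1 ∧ ¬ D.has p r w.1) ∨ ¬ D.shrk p r w.1 ∨
        (D.has p r w.1 ∧ D.f1 p σ' u r w.1) ∨
        (D.has p r w.1 ∧ D.f3 p σ σ' u r (D.lab p r w.1) w.1) ∨
        (D.Lam p σ u w.1 ∧ D.has p r w.1 ∧ D.f2 p σ u r (D.lab p r w.1) w.1) ∨
        (D.Lam p σ u w.1 ∧ D.has p r w.1 ∧ D.f4 p σ σ' u r (D.lab p r w.1) w.1) ∨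
        (D.xs p σ u w.1 ∧ D.kr p l w.1 ∧ D.has p r w.1 ∧ ¬ D.f1 p σ' u r w.1 ∧
          D.f5 p σ σ' u r w.1)) (by
      rintro l u w - - - - - - ⟨c1, c2, c3, c4, c5⟩
      by_contra hn
      simp only [not_or, not_and, not_not] at hn
      obtain ⟨n1, n2, n3, n4, n5, n6, n7⟩ := hn
      have hh := n1 c1
      exact c5 ⟨hh, n2, hFULL _ _ _ D p hD σ σ' u r hr w.1 hh (n3 hh) (n5 c4 hh) (n4 hh)
        (n6 c4 hh) (n7 c2 c3 hh (n3 hh))⟩)
    have b := b.trans ((s2 _ _).trans (add_le_add_right ((s2 _ _).trans (add_le_add_right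
      ((s2 _ _).trans (add_le_add_right ((s2 _ _).trans (add_le_add_right ((s2 _ _).trans
        (add_le_add_right (s2 _ _) _)) _)) _)) _)) _))
    linarith
  refine (sum_le_sum step).trans ?_
  simp only [sum_add_distrib, ← mul_sum, sum_const, card_range, nsmul_eq_mul]
  have c1 := mul_le_mul_of_nonneg_left (hHAS _ _ _ D p hD hN hW) (Nat.cast_nonneg p.N)
  have c2 := mul_le_mul_of_nonneg_left (hSHK _ _ _ D p hD hW).1 (Nat.cast_nonneg p.N)
  have c3 := mul_le_mul_of_nonneg_left (hNNS _ _ _ D p hD σ σ' A)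
    (show 0 ≤ 32 / (p.δ * p.δ') by positivity)
  have hL : 1 ≤ p.L := by have := ok.hL; have := ok.L1; omega
  have c4 := GRPc.num (z := p.z1) (R := p.R) (N := p.N) (Λ := p.Λ) (g := p.g1) (η := p.η)
    (τ := p.τ) (T := p.T) (L := p.L) (N1 := p.N1) ok.z0 (by exact_mod_cast ok.N11)
    (by exact_mod_cast ok.Λ1) (by exact_mod_cast hL) ok.g0 ok.g11 ok.η0 (by linarith [ok.η1])
    (by simp [Par.N]) (by simp [Par.R]) (by simp only [Par.T, Par.J]; push_cast; ring) ok.hz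
  have c5 : 0 ≤ p.τ * p.N * p.R := by
    have := ok.c00
    have := ok.g0
    have := ok.η0
    unfold Par.τ
    positivity
  linarith

end Pool.Agent.P.MP_77a832_co.EL
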