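import Pool.Agent.P.MP_77a832_co.EL.BIface

/-! Step HAS. -/

set_option autoImplicit false

namespace Pool.Agent.P.MP_77a832_co.EL

open Finset Real Pool.Agent.P.MP_bf60a1_an.RA
open scoped Classical

theorem p_HAS (hCHN : S_CHN) (hDOOB : S_DOOB) (hSELB : S_SELB) (hSHK : S_SHK) (hMKL : S_MKL) :
    S_HAS := by
  intro Ω α β _ D p hD hN hW
  obtain ⟨c1, -, -, -, c5, c6, c7, -⟩ := hCHN _ _ _ D p hD
  have h1 := hW.tow
  have h2 := (hSELB _ _ _ D p hD hW).1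
  have h3 := (hSHK _ _ _ D p hD hW).2
  have k : ∀ r ∈ range p.R, D.Q.pr (fun ω => D.G0 p ω ∧ ¬ D.has p r ω) ≤
      D.Q.pr (fun ω => (∀ n ∈ p.grp r, ¬ D.AG0 n ω) ∧ ∃ n < p.T, D.AG0 n ω) +
        26 * p.z1 * p.T / (p.g1 * p.N) + 13 * D.Q.pr (fun ω => ¬ D.deep p r ω) := by
    intro r hr
    rw [mem_range] at hr
    have d := hDOOB _ _ D.Q D.pw (fun ω => ¬ D.deep p r ω) (r * p.L) (r * p.L + p.L') (1 / 12)
      (by norm_num) fun n a b ω z _ _ e => by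
        have := ((c5 r hr).2 (n + 1) (mem_Ico.2 ⟨by omega, b⟩)).1
        exact ((c1 n (n + 1) n.le_succ (by omega) z ω).2.2 e).1
    have m : D.Q.pr (fun ω => D.G0 p ω ∧ ¬ D.has p r ω) ≤ _ := (D.Q.pr_mono
      (t := fun ω => (((∀ n ∈ p.grp r, ¬ D.AG0 n ω) ∧ ∃ n < p.T, D.AG0 n ω) ∨
        (D.G0 p ω ∧ ∀ n < p.T, ¬ D.AG0 n ω)) ∨ ¬ D.deep p r ω ∨
          ∃ n, r * p.L ≤ n ∧ n < r * p.L + p.L' ∧
            1 / 12 < cp D.Q (fun ω => ¬ D.deep p r ω) (D.pw n) ω) fun ω _ h => by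
      by_cases a : ∀ n ∈ p.grp r, ¬ D.AG0 n ω
      · by_cases b : ∃ n < p.T, D.AG0 n ω
        · exact .inl (.inl ⟨a, b⟩)
        · exact .inl (.inr ⟨h.1, fun n hn c => b ⟨n, hn, c⟩⟩)
      · push Not at a
        obtain ⟨n, hn, a⟩ := a
        refine .inr (or_iff_not_imp_left.2 fun b => ⟨n, (mem_Ico.1 hn).1, (mem_Ico.1 hn).2, ?_⟩)
        exact not_le.1 fun c => h.2 (hMKL _ _ _ D p hD hN r hr n hn ω a (not_not.1 b) c)).trans
      ((D.Q.pr_or_le _ _).trans (add_le_add (D.Q.pr_or_le _ _) (D.Q.pr_or_le _ _)))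
    linarith
  refine (sum_le_sum k).trans ?_
  rw [sum_add_distrib, sum_add_distrib, sum_const, card_range, nsmul_eq_mul, ← mul_sum]
  have : 52 * p.z1 * p.T / p.L = 13 * (4 * p.z1 * p.T / p.L) := by ring
  linarith

end Pool.Agent.P.MP_77a832_co.EL
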