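import Pool.Agent.P.MP_77a832_co.EL.BIface

/-! Step HVY. -/

set_option autoImplicit false

namespace Pool.Agent.P.MP_77a832_co.EL

open Finset Real Pool.Agent.P.MP_bf60a1_an.RA
open scoped Classical

namespace HVYc

variable {Ω β : Type} [Fintype Ω] (P : FP Ω) (G : Ω → β) (ω : Ω)

theorem mono {s t : Ω → Prop} (h : ∀ v, 0 < P.p v → G v = G ω → s v → t v) :
    cp P s G ω ≤ cp P t G ω :=
  div_le_div_of_nonneg_right (P.pr_mono fun v hv hs => ⟨h v hv hs.2 hs.1, hs.2⟩) (P.cl_nonneg _ _)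

theorem disj {s t : Ω → Prop} (hω : 0 < P.p ω) (h : ∀ v, s v → ¬ t v) :
    cp P s G ω + cp P t G ω ≤ 1 := by
  unfold cp
  rw [← add_div, div_le_one (P.cl_pos G hω)]
  unfold FP.cl FP.pr
  rw [← P.E_add]
  refine P.E_mono fun v _ => ?_
  by_cases hg : G v = G ω
  · by_cases hs : s v
    · rw [ind_neg fun a : t v ∧ _ => h v hs a.1, add_zero]
      exact ind_mono fun a => a.2
    · rw [ind_neg fun a : s v ∧ _ => hs a.1, zero_add]
      exact ind_mono fun a => a.2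
  · rw [ind_neg fun a : s v ∧ _ => hg a.2, ind_neg fun a : t v ∧ _ => hg a.2, add_zero]
    exact ind_nonneg _

theorem pig (T : Ω → ℤ) {θ N : ℝ} (hω : 0 < P.p ω) (hθ : 0 < θ) (hF : Few P T G N) (B : ℤ → Prop)
    (h : θ ≤ cp P (fun z => B (T z)) G ω) : ∃ t, B t ∧ θ / N ≤ cp P (fun z => T z = t) G ω := by
  obtain ⟨F, hc, hm⟩ := hF ω hω
  have hN : 0 < N := (Nat.cast_pos.2 (card_pos.2 ⟨_, hm ω hω rfl⟩)).trans_le hc
  have h1 : cp P (fun z => B (T z)) G ω ≤ ∑ t ∈ F.filter B, cp P (fun z => T z = t) G ω := by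
    unfold cp
    rw [← sum_div]
    refine div_le_div_of_nonneg_right (le_trans (P.pr_mono fun v hv a => ?_)
      (P.pr_exists_le (F.filter B) fun t z => T z = t ∧ G z = G ω)) (P.cl_nonneg _ _)
    exact ⟨T v, mem_filter.2 ⟨hm v hv a.2, a.1⟩, rfl, a.2⟩
  by_contra hn
  push Not at hn
  rcases (F.filter B).eq_empty_or_nonempty with e | e
  · rw [e, sum_empty] at h1
    linarith
  · have h2 := sum_lt_sum_of_nonempty e fun t ht => hn t (mem_filter.1 ht).2
    rw [sum_const, nsmul_eq_mul] at h2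
    have h3 : ((F.filter B).card : ℝ) ≤ N := le_trans (Nat.cast_le.2 (card_filter_le _ _)) hc
    have h4 := mul_le_mul_of_nonneg_right h3 (div_pos hθ hN).le
    rw [mul_div_cancel₀ _ hN.ne'] at h4
    linarith

end HVYc

theorem p_HVY (hCP : S_CP) :
    S_HVY := by
  intro Ω β _ P T G θ ω hω
  refine ⟨fun z _ hz h3 ⟨t, ht⟩ => ?_, fun hn => ?_, fun N hθ _ hF hn => ?_⟩
  · by_cases a : 2 ≤ |T ω - t|
    · exact Or.inl ((HVYc.mono P G ω fun v _ _ e => by rw [e]; exact a).trans_lt ht)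
    · have b : 2 ≤ |T z - t| := by
        rw [not_le, abs_lt] at a
        rw [le_abs] at h3 ⊢
        omega
      refine Or.inr ?_
      unfold cq
      rw [(hCP Ω ℤ β β P G).2.2.1 _ ω z hz]
      exact (HVYc.mono P G ω fun v _ _ e => by rw [e]; exact b).trans_lt ht
  · have a : θ ≤ cp P (fun z => 2 ≤ |T z - T ω|) G ω := not_lt.1 fun h => hn ⟨_, h⟩
    have b := HVYc.disj P G ω (s := fun z => T z = T ω) (t := fun z => 2 ≤ |T z - T ω|) hω
      fun v e => by rw [e]; simp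
    unfold cq
    linarith
  · have a : ∀ t : ℤ, θ ≤ cp P (fun z => 2 ≤ |T z - t|) G ω := fun t => not_lt.1 fun h => hn ⟨t, h⟩
    obtain ⟨t₂, -, h2⟩ := HVYc.pig P G ω T hω hθ hF (fun x => 2 ≤ |x - 0|) (a 0)
    obtain ⟨t₁, h, h1⟩ := HVYc.pig P G ω T hω hθ hF (fun x => 2 ≤ |x - t₂|) (a t₂)
    exact ⟨t₁, t₂, h, h1, h2⟩

end Pool.Agent.P.MP_77a832_co.EL
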