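import Pool.Agent.P.MP_77a832_co.EL.BIface
import Pool.Agent.P.MP_77a832_co.EL.BudEnt

/-! Step HWF. -/

set_option autoImplicit false

namespace Pool.Agent.P.MP_77a832_co.EL

open Finset Real Pool.Agent.P.MP_bf60a1_an.RA
open scoped Classical

namespace HWFc

end HWFc

theorem p_HWF (hCP : S_CP) :
    S_HWF := by
  intro Ω α β _ P φ Z V N h0 h1 h2
  have := Bud.Hw_le_E P (U := V) (N := fun _ => N) (Z := Z) (V := V) h1 (fun _ _ _ _ h => h) h0 h2
  rwa [FP.E_mul_right, mul_comm] at this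

end Pool.Agent.P.MP_77a832_co.EL
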