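import Pool.Agent.P.MP_77a832_co.EL.BIface
import Pool.Agent.P.MP_77a832_co.EL.BudEnt

/-! Step HWM. -/

set_option autoImplicit false

namespace Pool.Agent.P.MP_77a832_co.EL

open Finset Real Pool.Agent.P.MP_bf60a1_an.RA
open scoped Classical

namespace HWMc

end HWMc

theorem p_HWM (hCP : S_CP) :
    S_HWM := by
  intro Ω α β γ _ P φ Z V V' h0 h1 h2
  exact Bud.Hw_mono_right P Z h1 h0 h2

end Pool.Agent.P.MP_77a832_co.EL
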