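import Pool.Agent.P.MP_77a832_co.EL.BIface
import Pool.Agent.P.MP_77a832_co.EL.BudEnt

/-! Step HWS. -/

set_option autoImplicit false

namespace Pool.Agent.P.MP_77a832_co.EL

open Finset Real Pool.Agent.P.MP_bf60a1_an.RA
open scoped Classical

namespace HWSc

end HWSc

theorem p_HWS (hCP : S_CP) :
    S_HWS := by
  intro Ω α β γ _ P φ ψ T F G
  refine ⟨Bud.Hw_symm P φ T F G, fun h => Bud.Hw_nonneg P h T G, fun c => ?_,
    fun S χ => (Bud.Hw_sum P S χ T G).symm⟩
  unfold Hw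
  rw [← FP.E_mul_left, ← FP.E_sub]
  exact P.E_congr fun ω _ => by ring

end Pool.Agent.P.MP_77a832_co.EL
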