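import Pool.Agent.P.MP_77a832_co.EL.BIface

/-! Step KR. -/

set_option autoImplicit false

namespace Pool.Agent.P.MP_77a832_co.EL

open Finset Real Pool.Agent.P.MP_bf60a1_an.RA
open scoped Classical

namespace KRc

variable {Ω α β : Type} [Fintype Ω] {D : PD Ω α β} {p : Par}

/-- weight of a child -/
noncomputable def gw (D : PD Ω α β) (I n : ℕ) (ω : Ω) : ℝ :=
  (2 : ℝ) ^ (-((I : ℝ) + 1 + I * ind (¬ D.live n ω)))

theorem gw_le (hD : D.Ok p) (n : ℕ) (ω : Ω) :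
    gw D p.I n ω ≤ (1 / 2 ^ p.I) * (ind (D.live n ω) / 2 + 1 / (2 * (p.M : ℝ) ^ 3)) := by
  have hM : (0 : ℝ) < (p.M : ℝ) ^ 3 := pow_pos (Nat.cast_pos.2 hD.ok.M1) 3
  have hM3 : (p.M : ℝ) ^ 3 ≤ 2 ^ p.I := mod_cast hD.ok.M3
  have h2 : (0 : ℝ) < 2 ^ p.I := by positivity
  unfold gw
  by_cases h : D.live n ω
  · rw [ind_pos h, ind_neg (not_not.2 h), mul_zero, add_zero, rpow_neg zero_le_two,
      rpow_add two_pos, rpow_natCast, rpow_one, mul_inv, ← one_div]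
    refine mul_le_mul_of_nonneg_left ?_ (by positivity)
    have : 0 ≤ 1 / (2 * (p.M : ℝ) ^ 3) := by positivity
    linarith
  · rw [ind_neg h, ind_pos h, mul_one, rpow_neg zero_le_two, rpow_add two_pos, rpow_add two_pos,
      rpow_natCast, rpow_one, mul_assoc, mul_inv, ← one_div, zero_div, zero_add, ← one_div]
    refine mul_le_mul_of_nonneg_left ?_ (by positivity)
    exact one_div_le_one_div_of_le (by positivity) (by linarith)

theorem code (hD : D.Ok p) {n : ℕ} (hn : n < p.T) (ω : Ω) (F : Finset Ω)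
    (hF : ∀ z ∈ F, D.Nd n z = D.Nd n ω) (hi : Set.InjOn (D.Nd (n + 1)) F) :
    ∑ z ∈ F, gw D p.I n z ≤ 1 := by
  have hs := hD.str
  have hM : (0 : ℝ) < (p.M : ℝ) ^ 3 := pow_pos (Nat.cast_pos.2 hD.ok.M1) 3
  obtain ⟨Fw, hc, hw⟩ := hs.fW n hn ω (hs.pos ω)
  have hmap : ∀ z ∈ F, D.W (n + 1) z ∈ Fw := fun z hz =>
    hw z (hs.pos z) (hs.dNW n hn.le z ω (hs.pos z) (hs.pos ω) (hF z hz))
  rw [← sum_fiberwise_of_maps_to hmap]
  have key : ∀ w ∈ Fw, ∑ z ∈ F with D.W (n + 1) z = w, gw D p.I n z ≤ 1 / 2 ^ p.I := by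
    intro w _
    set G := F.filter fun z => D.W (n + 1) z = w with hG
    have hGF : ∀ z ∈ G, z ∈ F ∧ D.W (n + 1) z = w := fun z hz => mem_filter.1 hz
    have h1 : ∑ z ∈ G, ind (D.live n z) ≤ 1 := by
      have : ∑ z ∈ G, ind (D.live n z) = ((G.filter fun z => D.live n z).card : ℝ) := by
        rw [card_filter, Nat.cast_sum]
        exact sum_congr rfl fun z _ => by unfold ind; split_ifs <;> simp
      rw [this]
      refine Nat.cast_le_one.2 (card_le_one.2 fun a ha b hb => ?_)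
      obtain ⟨a1, a2⟩ := mem_filter.1 ha
      obtain ⟨b1, b2⟩ := mem_filter.1 hb
      exact hi (hGF a a1).1 (hGF b b1).1 (hs.ulive n hn b a
        ((hF a (hGF a a1).1).trans (hF b (hGF b b1).1).symm)
        ((hGF a a1).2.trans (hGF b b1).2.symm) b2 a2)
    have h2 : (G.card : ℝ) ≤ (p.M : ℝ) ^ 3 := by
      rcases G.eq_empty_or_nonempty with h | ⟨z₀, hz₀⟩
      · rw [h, card_empty, Nat.cast_zero]; exact hM.le
      · obtain ⟨FN, hcN, hN⟩ := hs.fN n hn z₀ (hs.pos z₀)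
        refine le_trans (Nat.cast_le.2 (card_le_card_of_injOn (D.Nd (n + 1)) (fun z hz => ?_)
          (hi.mono fun z hz => (hGF z hz).1))) hcN
        refine hN z (hs.pos z) (Prod.ext ?_ ?_)
        · exact (hF z (hGF z hz).1).trans (hF z₀ (hGF z₀ hz₀).1).symm
        · exact (hGF z hz).2.trans (hGF z₀ hz₀).2.symm
    refine (sum_le_sum fun z _ => gw_le hD n z).trans ?_
    rw [← mul_sum, sum_add_distrib, ← sum_div, sum_const, nsmul_eq_mul]
    refine mul_le_of_le_one_right (by positivity) ?_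
    have : (G.card : ℝ) * (1 / (2 * (p.M : ℝ) ^ 3)) ≤ 1 / 2 := by
      rw [mul_one_div, div_le_iff₀ (by positivity)]
      linarith
    linarith
  refine (sum_le_sum key).trans ?_
  rw [sum_const, nsmul_eq_mul, mul_one_div]
  exact (div_le_one (by positivity)).2 hc

theorem cq_eq (hD : D.Ok p) {n : ℕ} (hn : n < p.T) (ω : Ω) :
    cq D.Q (D.Nd (n + 1)) (D.Nd n) ω = D.Q.cl (D.Nd (n + 1)) ω / D.Q.cl (D.Nd n) ω := by
  unfold cq cp
  congr 1
  exact D.Q.pr_congr fun z hz =>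
    ⟨fun h => h.1, fun h => ⟨h, hD.str.dNN n hn z ω hz (hD.str.pos ω) h⟩⟩

theorem prod_cq (hD : D.Ok p) (ω : Ω) : ∀ k ≤ p.T,
    ∏ n ∈ range k, cq D.Q (D.Nd (n + 1)) (D.Nd n) ω = D.Q.cl (D.Nd k) ω / D.Q.cl (D.Nd 0) ω
  | 0, _ => by rw [prod_range_zero, div_self (D.Q.cl_pos _ (hD.str.pos ω)).ne']
  | k + 1, hk => by
    have := (D.Q.cl_pos (D.Nd k) (hD.str.pos ω)).ne'
    rw [prod_range_succ, prod_cq hD ω k (by omega), cq_eq hD (by omega)]
    field_simp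

theorem num (h : p.OK) : ((p.I : ℝ) + 1) * p.T ≤ (1 + 2 * p.η) * p.I * p.J := by
  have h1 := h.hΛ
  have h2 := h.hI
  have h3 := h.η0
  have h4 := h.η1
  have hN : (0 : ℝ) ≤ p.N := Nat.cast_nonneg _
  have hI : (0 : ℝ) ≤ p.I := Nat.cast_nonneg _
  have hJ0 : (0 : ℝ) ≤ p.J := Nat.cast_nonneg _
  have hJ : (p.J : ℝ) = p.Λ * p.N := by rw [Par.J, Nat.cast_mul]
  have hT : (p.T : ℝ) ≤ (1 + p.η / 2) * p.J := by
    rw [Par.T]
    push_cast
    have := mul_le_mul_of_nonneg_right h1 hN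
    rw [mul_assoc, ← hJ] at this
    linarith
  calc ((p.I : ℝ) + 1) * p.T ≤ ((1 + p.η / 2) * p.I) * ((1 + p.η / 2) * p.J) :=
        mul_le_mul (by linarith) hT (Nat.cast_nonneg _) (by positivity)
    _ = (1 + p.η / 2) ^ 2 * (p.I * p.J) := by ring
    _ ≤ (1 + 2 * p.η) * (p.I * p.J) :=
        mul_le_mul_of_nonneg_right (by nlinarith) (mul_nonneg hI hJ0)
    _ = _ := by ring

end KRc

theorem p_KR (hCP : S_CP) (hCHN : S_CHN) (hCODE : S_CODE) (hSUP : S_SUP) :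
    S_KR := by
  have _h1 := hCP
  have _h2 := hCHN
  intro Ω α β _ D p hD hW l hl
  have hs := hD.str
  have hJ : (0 : ℝ) < p.J := by
    have h1 := hD.ok.L1
    have h2 := hD.ok.hL
    exact Nat.cast_pos.2 (Nat.mul_pos hD.ok.Λ1 (Nat.mul_pos (by omega) hD.ok.N11))
  have hη := hD.ok.η0
  have hg0 : ∀ n ω, 0 ≤ KRc.gw D p.I n ω := fun n ω => rpow_nonneg zero_le_two _
  have hgd : ∀ n < p.T, D.Q.Det (D.Nd (n + 1)) (KRc.gw D p.I n) := fun n hn ω z h1 h2 h => by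
    unfold KRc.gw
    rw [hs.dlive n hn ω z h1 h2 h]
  have hsup := hSUP Ω β D.Q D.Nd (fun n ω => KRc.gw D p.I n ω / cq D.Q (D.Nd (n + 1)) (D.Nd n) ω)
    (l + 2) (fun _ => True) ((2 : ℝ) ^ (p.η * p.I * p.J)) (rpow_pos_of_pos two_pos _)
    (fun n hn => hs.dNN n (by omega))
    (fun n hn ω z h1 h2 h => by
      have h' := hs.dNN n (by omega) ω z h1 h2 h
      simp only [KRc.cq_eq hD (show n < p.T by omega), FP.cl, hgd n (by omega) ω z h1 h2 h, h, h'])
    (fun n hn ω _ => div_nonneg (hg0 n ω) (by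
      rw [KRc.cq_eq hD (show n < p.T by omega)]
      exact div_nonneg (D.Q.cl_nonneg _ _) (D.Q.cl_nonneg _ _)))
    (fun n hn φ h0 hφ => hCODE Ω β β D.Q (D.Nd (n + 1)) (D.Nd n) φ (KRc.gw D p.I n) h0
      (fun ω _ => hg0 n ω) hφ
      (fun ω z h1 h2 h => hgd n (by omega) ω z h1 h2 (congrArg Prod.fst h))
      fun ω _ F hF hi => KRc.code hD (by omega) ω F (fun z hz => (hF z hz).2) hi)
    (fun _ _ _ _ _ => rfl)
  have hmk := D.Q.markov (f := fun ω => ∑ n ∈ range p.T, ind (¬ D.live n ω))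
    (fun ω _ => sum_nonneg fun _ _ => ind_nonneg _) (mul_pos hη hJ)
  rw [FP.E_sum] at hmk
  refine le_trans (D.Q.pr_mono fun ω hω hk => ?_) ((D.Q.pr_or_le _ _).trans (add_le_add
    (hmk.trans (div_le_div_of_nonneg_right hW.rare.live (mul_pos hη hJ).le)) (hsup.trans ?_)))
  · by_contra hc
    rw [not_or, not_le, true_and, not_lt, prod_div_distrib, KRc.prod_cq hD ω _ hl] at hc
    obtain ⟨c1, c2⟩ := hc
    apply hk
    have ha := D.Q.cl_pos (D.Nd (l + 2)) hω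
    have hb := D.Q.cl_pos (D.Nd 0) hω
    have ht : (0 : ℝ) < (2 : ℝ) ^ (p.η * p.I * p.J) := rpow_pos_of_pos two_pos _
    rw [div_div_eq_mul_div, div_le_iff₀ ha] at c2
    refine le_of_mul_le_mul_left (le_trans ?_ c2) ht
    rw [← mul_assoc, ← rpow_add two_pos]
    refine mul_le_mul_of_nonneg_right ?_ hb.le
    unfold KRc.gw
    rw [← rpow_sum_of_pos two_pos]
    refine rpow_le_rpow_of_exponent_le one_le_two ?_
    rw [sum_neg_distrib, sum_add_distrib, sum_const, card_range, nsmul_eq_mul, ← mul_sum]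
    have e1 : ∑ n ∈ range (l + 2), ind (¬ D.live n ω) ≤ p.η * p.J :=
      le_trans (sum_le_sum_of_subset_of_nonneg (range_mono hl) fun _ _ _ => ind_nonneg _) c1.le
    have e2 := mul_le_mul_of_nonneg_left e1 (Nat.cast_nonneg (α := ℝ) p.I)
    have e3 : ((l + 2 : ℕ) : ℝ) * ((p.I : ℝ) + 1) ≤ p.T * ((p.I : ℝ) + 1) :=
      mul_le_mul_of_nonneg_right (Nat.cast_le.2 hl) (by positivity)
    have e4 := KRc.num hD.ok
    linarith
  · rw [neg_mul, neg_mul, rpow_neg zero_le_two, ← one_div]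
    exact div_le_div_of_nonneg_right (D.Q.pr_le_one _) (rpow_nonneg zero_le_two _)

end Pool.Agent.P.MP_77a832_co.EL
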