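import Pool.Agent.P.MP_77a832_co.EL.BIface

/-! Step LAB. -/

set_option autoImplicit false

namespace Pool.Agent.P.MP_77a832_co.EL

open Finset Real Pool.Agent.P.MP_bf60a1_an.RA
open scoped Classical

namespace LABc

variable {Ω α β : Type} [Fintype Ω] {D : PD Ω α β} {p : Par}

theorem len_anti (hCHN : S_CHN) (hD : D.Ok p) {n n' : ℕ} (h : n ≤ n') (h' : n' ≤ p.T) (v : Ω) :
    D.len n' v ≤ D.len n v := by
  obtain ⟨a, -, c⟩ := (hCHN _ _ _ D p hD).2.1 n n' h h' v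
  unfold PD.len
  linarith

theorem phi_le (hD : D.Ok p) : p.φ ≤ 1 / 4 := by
  have h1 : (1 : ℝ) ≤ 2 ^ p.m := one_le_pow₀ one_le_two
  have h2 := hD.ok.hφ
  have h3 := hD.ok.φ0
  nlinarith

theorem one (hCHN : S_CHN) (hELL : S_ELL) (hD : D.Ok p) {r n y : ℕ} (hr : r < p.R)
    (hn : n ∈ p.grp r) {v : Ω} (hdeep : D.deep p r v)
    (h32 : D.hi2 n v - D.lo2 n v < 32 * (1 / 2) ^ (y + p.q))
    (h16 : 16 * (1 / 2) ^ (y + p.q) ≤ D.len n v) (hc : D.cnd p n y v) :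
    D.cand p r n y v ∧ D.len (D.ell p y v) v ≤ p.φ * (1 / 2) ^ (y + p.q) ∧
      D.len (r * p.L + p.L') v < 32 * (1 / 2) ^ (y + p.q) ∧
      D.lo2 n v ≤ D.th p y v ∧ D.th p y v ≤ D.hi2 n v := by
  obtain ⟨-, c2, -, -, c5, c6, -, -⟩ := hCHN _ _ _ D p hD
  obtain ⟨e1, -, e3, -⟩ := hELL _ _ _ D p hD
  obtain ⟨hl, hg⟩ := c5 r hr
  obtain ⟨-, hnl, -⟩ := hg n hn
  have hn2 : n < r * p.L + p.L' := (mem_Ico.1 hn).2
  have hL := hD.ok.hL
  have hlam : r * p.L + p.L' ≤ p.lam r := by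
    unfold Par.lam
    rw [add_mul, one_mul]
    omega
  have hG : (0 : ℝ) < (1 / 2) ^ (y + p.q) := by positivity
  have hφ := phi_le hD
  have hφ0 := hD.ok.φ0
  obtain ⟨n1, n2, n3, n4, n5⟩ := hD.str.nest n (by omega) v
  have a1 : D.len (r * p.L + p.L') v < 32 * (1 / 2) ^ (y + p.q) := by
    have h1 := len_anti hCHN hD (n := n + 1) (n' := r * p.L + p.L') (by omega) (by omega) v
    have h2 : D.len (n + 1) v ≤ D.hi2 n v - D.lo2 n v := by
      unfold PD.len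
      linarith
    linarith
  have a2 : D.len (p.lam r) v ≤ p.φ * (1 / 2) ^ (y + p.q) := by
    have h1 : D.len (p.lam r) v ≤ p.φ / 32 * D.len (r * p.L + p.L') v := hdeep
    have h2 := mul_le_mul_of_nonneg_left a1.le (show 0 ≤ p.φ / 32 by positivity)
    linarith
  have a3 : D.ell p y v ≤ p.lam r := Nat.sInf_le (Or.inl a2)
  have a4 : D.len (D.ell p y v) v ≤ p.φ * (1 / 2) ^ (y + p.q) := by
    rcases lt_or_eq_of_le (e1 y v) with h | h
    · exact e3 y v h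
    · have h1 : D.ell p y v = p.lam r := by omega
      rw [h1]
      exact a2
  have a5 : n < D.ell p y v := by
    by_contra h
    have h1 := len_anti hCHN hD (n := D.ell p y v) (n' := n) (by omega) (by omega) v
    nlinarith
  obtain ⟨b1, b2, b3⟩ := c2 (n + 1) (D.ell p y v) a5 (by omega) v
  refine ⟨⟨a5, a3, hc⟩, a4, a1, ?_, ?_⟩
  · exact n2.trans b1
  · exact b2.trans (b3.trans n4)

end LABc

theorem p_LAB (hCHN : S_CHN) (hELL : S_ELL) :
    S_LAB := by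
  intro Ω α β _ D p hD r hr ω t hLab
  obtain ⟨n, ρ, y⟩ := t
  obtain ⟨hn, hcl, hdeep, -, z0, hpw, hV2, hcl0, hV1, hG⟩ := hLab
  dsimp only at hn hcl hpw hV2 hcl0 hV1 hG ⊢
  obtain ⟨c1, -, c3, -, c5, c6, -, -⟩ := hCHN _ _ _ D p hD
  obtain ⟨hl, hg⟩ := c5 r hr
  obtain ⟨-, hnl, -⟩ := hg n hn
  have hT : n < p.T := by omega
  have hW : D.W n z0 = D.W n ω := congrArg Prod.snd hpw
  have hN : D.Nd n z0 = D.Nd n ω := ((c1 n n le_rfl hT.le ω z0).2.2 hpw).2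
  have s1 := (hD.str.sep n hT ω z0 hN hV1 hcl hcl0).2
  have s2 := (hD.str.sep n hT z0 ω hN.symm hV1.symm hcl0 hcl).2
  have hs : D.gap n z0 ω = D.gap n ω z0 := max_comm _ _
  rw [hs] at s2
  have g3 := c3 n hT ω z0 hW
  obtain ⟨g1, g2⟩ := hG
  obtain ⟨a1, a2, a3, a4, a5⟩ := LABc.one hCHN hELL hD (y := y) hr hn hdeep (s1.trans_lt g2)
    (g1.trans g3) ⟨ω, z0, rfl, hW, g1, g2⟩
  refine ⟨a1, a2, a3, ?_, fun z hz hgd => ?_⟩
  · exact (g1.trans g3).trans (LABc.len_anti hCHN hD (mem_Ico.1 hn).1 hT.le ω)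
  obtain ⟨k1, -, k3⟩ := hgd
  have pos := hD.str.pos
  have l1 : D.lo2 n z = D.lo2 n z0 := hD.str.dlo2 n hT z z0 (pos _) (pos _) (k1.trans hV2.symm)
  have l2 : D.hi2 n z = D.hi2 n z0 := hD.str.dhi2 n hT z z0 (pos _) (pos _) (k1.trans hV2.symm)
  have l3 : D.len n z = D.len n ω := by
    unfold PD.len
    rw [hD.str.dlo n hT.le z ω (pos _) (pos _) hz, hD.str.dhi n hT.le z ω (pos _) (pos _) hz]
  obtain ⟨b1, -, -, b4, b5⟩ := LABc.one hCHN hELL hD (y := y) hr hn k3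
    (by rw [l1, l2]; exact s2.trans_lt g2) (by rw [l3]; exact g1.trans g3)
    ⟨ω, z0, hz.symm, hW.trans hz.symm, g1, g2⟩
  rw [l1] at b4
  rw [l2] at b5
  have hG0 : (0 : ℝ) < (1 / 2) ^ (y + p.q) := by positivity
  refine ⟨b1, ?_⟩
  rcases max_choice (D.lo2 n ω - D.hi2 n z0) (D.lo2 n z0 - D.hi2 n ω) with h | h
  · have h' : D.gap n ω z0 = D.lo2 n ω - D.hi2 n z0 := h
    rw [abs_of_nonpos (by linarith)]
    constructor <;> linarith
  · have h' : D.gap n ω z0 = D.lo2 n z0 - D.hi2 n ω := h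
    rw [abs_of_nonneg (by linarith)]
    constructor <;> linarith

end Pool.Agent.P.MP_77a832_co.EL
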