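import Pool.Agent.P.MP_77a832_co.EL.BIface

/-! Step LAMC. -/

set_option autoImplicit false

namespace Pool.Agent.P.MP_77a832_co.EL

open Finset Real Pool.Agent.P.MP_bf60a1_an.RA
open scoped Classical

namespace LAMCc

theorem num {θ : ℝ} (h0 : 0 < θ) (h1 : θ ≤ 1 / 2) (k : ℕ) :
    log ((1 / 2 : ℝ) ^ k) / log (1 - θ) ≤ k / θ := by
  have a : log (1 - θ) ≤ -θ := by
    have := log_le_sub_one_of_pos (show 0 < 1 - θ by linarith)
    linarith
  have b : log 2 ≤ 1 := by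
    have := log_le_sub_one_of_pos (show (0 : ℝ) < 2 by norm_num)
    linarith
  rw [log_pow, one_div, log_inv, ← neg_div_neg_eq, ← mul_neg, neg_neg]
  exact div_le_div₀ (Nat.cast_nonneg k) (mul_le_of_le_one_right (Nat.cast_nonneg k) b) h0
    (by linarith)

end LAMCc

theorem p_LAMC (hCP : S_CP) (hFLR : S_FLR) (hSEQ : S_SEQ) (hHVY : S_HVY) :
    S_LAMC := by
  intro Ω α β _ D p hD σ A
  have ok := hD.ok
  have part : ∀ ω, (((range A).filter fun u => D.Lam p σ u ω).card : ℝ) ≤ p.us := fun ω => by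
    have hω := hD.str.pos ω
    have c0 := D.Q.cl_pos (D.Nd 0) hω
    have ref : ∀ u z, D.X0 σ (u + p.m) z = D.X0 σ (u + p.m) ω →
        D.Tt p σ u z = D.Tt p σ u ω ∧ D.X0 σ u z = D.X0 σ u ω := fun u z e =>
      ⟨congrArg Prod.snd e,
        Prod.ext (congrArg Prod.fst e :) ((hFLR _ _ u p.m).1 (congrArg Prod.snd e))⟩
    have h := hSEQ (fun u => D.Q.cl (D.X0 σ u) ω / D.Q.cl (D.Nd 0) ω) p.m A (1 - p.θ0) p.f
      (Nat.le_add_left 1 (p.a + 2)) (by linarith [ok.θ01]) (by linarith [ok.θ00])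
      (pow_pos (by norm_num) _) (pow_le_one₀ (by norm_num) (by norm_num))
      (fun u => (div_le_one c0).2 (D.Q.pr_mono fun z _ e => congrArg Prod.fst e))
      fun u => div_le_div_of_nonneg_right (D.Q.pr_mono fun z _ e => (ref u z e).2) c0.le
    refine (le_trans (Nat.cast_le.2 (card_le_card fun u hu => ?_)) h).trans ?_
    · obtain ⟨h1, h2, h3⟩ := mem_filter.1 hu
      refine mem_filter.2 ⟨h1, (le_div_iff₀ c0).2 h2, ?_⟩
      have h4 := (div_le_iff₀ (D.Q.cl_pos _ hω)).1 ((hHVY Ω _ D.Q _ _ _ ω hω).2.1 h3)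
      rw [← mul_div_assoc]
      exact div_le_div_of_nonneg_right ((D.Q.pr_mono fun z _ e => ref u z e).trans h4) c0.le
    · refine mul_le_mul_of_nonneg_left (add_le_add_left ?_ 1) (Nat.cast_nonneg _)
      have := LAMCc.num ok.θ00 ok.θ01 (2 * p.I * p.J)
      push_cast at this
      exact this
  refine ⟨part, ?_, fun u ω z e ⟨h1, h2⟩ => ⟨?_, fun ⟨t, ht⟩ => h2 ⟨t, ?_⟩⟩⟩
  · simp only [FP.pr]
    rw [← FP.E_sum]
    refine D.Q.E_le fun ω _ => le_trans (le_of_eq ?_) (part ω)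
    simp only [ind, card_filter, Nat.cast_sum, Nat.cast_ite, Nat.cast_one, Nat.cast_zero]
  · have e1 : D.Nd 0 z = D.Nd 0 ω := congrArg Prod.fst e
    simpa only [PD.flo, FP.cl, e, e1] using h1
  · rwa [(hCP Ω β _ β D.Q _).2.2.1 _ ω z e] at ht

end Pool.Agent.P.MP_77a832_co.EL
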