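import Pool.Agent.P.MP_77a832_co.EL.BIface
import Pool.Agent.P.MP_77a832_co.EL.BudEnt

/-! Step MID. -/

set_option autoImplicit false

namespace Pool.Agent.P.MP_77a832_co.EL

open Finset Real Pool.Agent.P.MP_bf60a1_an.RA
open scoped Classical

namespace MIDc

end MIDc

theorem p_MID (hCP : S_CP) :
    S_MID := by
  intro Ω α β _ P Z C ev N ε hε hF hC
  have hφ : P.Det C fun ω => ind (ev ω) := fun a b ha hb e => congrArg ind (hC a b ha hb e)
  unfold FP.pr
  simp only [ind_and]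
  rw [Bud.E_wt P hφ fun ω => ind (cq P Z C ω < ε), ← FP.E_mul_left]
  refine P.E_mono fun ω hω => ?_
  rw [mul_comm (ε * N)]
  refine mul_le_mul_of_nonneg_left ?_ (ind_nonneg _)
  obtain ⟨F, h1, h2⟩ := hF ω hω
  have h3 := (P.cv C (C ω)).E_div_cl_le Z (g := fun _ => ε) F (fun _ _ => hε)
    (f := fun _ => ε) fun z hz => Or.inr ⟨h2 z (P.cv_pos hz) (P.cv_eq hω hz), le_rfl⟩
  rw [sum_const, nsmul_eq_mul] at h3
  refine le_trans (FP.E_mono _ fun z hz => ?_) (h3.trans ?_)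
  · have h4 := (P.cv C (C ω)).cl_pos Z hz
    by_cases h : cq P Z C z < ε
    · rw [ind_pos h, one_le_div h4, P.cl_cv Z hω (P.cv_eq hω hz), ← Bud.cq_eq]
      exact h.le
    · rw [ind_neg h]; positivity
  · rw [mul_comm]; exact mul_le_mul_of_nonneg_left h1 hε

end Pool.Agent.P.MP_77a832_co.EL
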