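import Pool.Agent.P.MP_77a832_co.EL.BIface

/-! Step MKL. -/

set_option autoImplicit false

namespace Pool.Agent.P.MP_77a832_co.EL

open Finset Real Pool.Agent.P.MP_bf60a1_an.RA
open scoped Classical

namespace MKLc

lemma scale (p : Par) {g : ℝ} (h0 : 0 < g) (h1 : g ≤ (1 / 2) ^ p.q) : ∃ y, p.Gc g y := by
  have hq : (0 : ℝ) < (1 / 2) ^ p.q := by positivity
  have hex : ∃ y : ℕ, 16 * (1 / 2 : ℝ) ^ (y + p.q) ≤ g := by
    obtain ⟨y, hy⟩ := exists_pow_lt_of_lt_one (show 0 < g / 16 by positivity)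
      (show (1 / 2 : ℝ) < 1 by norm_num)
    have := pow_le_pow_of_le_one (show (0 : ℝ) ≤ 1 / 2 by norm_num) (by norm_num)
      (Nat.le_add_right y p.q)
    exact ⟨y, by linarith⟩
  refine ⟨Nat.find hex, Nat.find_spec hex, ?_⟩
  rcases Nat.eq_zero_or_eq_succ_pred (Nat.find hex) with h | h
  · rw [h, zero_add]
    linarith
  · have := not_le.1 (Nat.find_min hex (m := (Nat.find hex).pred) (by omega))
    rw [h, Nat.succ_add, pow_succ]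
    linarith

lemma pig {Ω : Type} [Fintype Ω] (P : FP Ω) (s : Ω → Prop) (Z : Ω → ℕ) (F : Finset ℕ) {N : ℝ}
    (hN : 0 < N) (hF : (F.card : ℝ) ≤ N) (hZ : ∀ z, 0 < P.p z → Z z ∈ F) (hs : 1 / 6 ≤ P.pr s) :
    ∃ ρ, 1 / (6 * N) ≤ P.pr fun z => Z z = ρ ∧ s z := by
  by_contra h
  push Not at h
  obtain ⟨z, hz⟩ := P.exists_pos
  have h1 : P.pr s ≤ ∑ ρ ∈ F, P.pr fun z => Z z = ρ ∧ s z :=
    (P.pr_mono fun z hz h => ⟨Z z, hZ z hz, rfl, h⟩).trans (P.pr_exists_le F _)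
  have h2 := sum_lt_sum_of_nonempty ⟨_, hZ z hz⟩ fun ρ (_ : ρ ∈ F) => h ρ
  rw [sum_const, nsmul_eq_mul] at h2
  have h3 : (F.card : ℝ) * (1 / (6 * N)) ≤ 1 / 6 := by
    rw [mul_one_div, div_le_div_iff₀ (by positivity) (by norm_num)]
    linarith
  linarith

end MKLc

theorem p_MKL (hCP : S_CP) (hCHN : S_CHN) :
    S_MKL := by
  intro Ω α β _ D p hD hN r hr n hn ω hA hd hc
  obtain ⟨-, c2, c3, -, c5, -⟩ := hCHN _ _ _ D p hD
  have hnT : n < p.T := ((c5 r hr).2 n hn).1.trans_le (Nat.le_add_right _ _)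
  have hω := hD.str.pos ω
  have hcp : ∀ s : Ω → Prop, cp D.Q s (D.pw n) ω = (D.Q.cv (D.pw n) (D.pw n ω)).pr s :=
    fun s => (hCP Ω Unit _ Unit D.Q (D.pw n)).2.2.2.1 s ω hω
  have h1 := hA.2
  rw [hcp] at h1 hc
  obtain ⟨F, hF, hF'⟩ := hD.str.fV2 n hnT ω hω
  have h2 := h1.trans (((D.Q.cv (D.pw n) (D.pw n ω)).pr_mono fun z _ h => by
    by_cases e : D.deep p r z
    · exact Or.inl ⟨h, e⟩
    · exact Or.inr e).trans ((D.Q.cv (D.pw n) (D.pw n ω)).pr_or_le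
      (fun z => (D.V1 n z ≠ D.V1 n ω ∧ D.clean n z) ∧ D.deep p r z) fun z => ¬ D.deep p r z))
  obtain ⟨ρ, hρ⟩ := MKLc.pig (D.Q.cv (D.pw n) (D.pw n ω))
    (fun z => (D.V1 n z ≠ D.V1 n ω ∧ D.clean n z) ∧ D.deep p r z) (D.V2 n) F (by positivity) hF
    (fun z hz => hF' z (hD.str.pos z) (congrArg Prod.snd (D.Q.cv_eq hω hz))) (by linarith)
  obtain ⟨z, hz, e1, ⟨e2, e3⟩, -⟩ := FP.exists_of_pr_pos _ (lt_of_lt_of_le (by positivity) hρ)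
  have e0 := D.Q.cv_eq hω hz
  have g0 := (hD.str.sep n hnT ω z (hD.str.dN n hnT.le z ω (hD.str.pos z) hω e0) e2 hA.1 e3).1
  have g1 := c3 n hnT ω z (congrArg Prod.snd e0)
  have g2 := c2 0 n n.zero_le hnT.le ω
  have g3 := hN.l ω
  obtain ⟨y, hy⟩ := MKLc.scale p g0 (by
    unfold PD.len at g1 g3
    linarith [g2.1, g2.2.2])
  refine ⟨(n, ρ, y), hn, hA.1, hd, ?_, z, e0, e1, e3, e2, hy⟩
  refine hρ.trans ?_
  rw [PD.pG, hcp]
  exact FP.pr_mono _ fun z _ h => ⟨h.1, h.2.1.2, h.2.2⟩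

end Pool.Agent.P.MP_77a832_co.EL
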