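import Pool.Agent.P.MP_77a832_co.EL.BIface
import Pool.Agent.P.MP_77a832_co.EL.BudEnt

/-! Step MPC. -/

set_option autoImplicit false

namespace Pool.Agent.P.MP_77a832_co.EL

open Finset Real Pool.Agent.P.MP_bf60a1_an.RA
open scoped Classical

namespace MPCc

end MPCc

theorem p_MPC :
    S_MPC := by
  intro Ω Ω' α β _ _ P P' ϖ h
  refine ⟨fun s V w => ?_, fun φ Z V => Bud.Hw_mp P h φ Z V⟩
  unfold cp
  rw [h.cl V, h.pr fun z => s z ∧ V z = V (ϖ w)]

end Pool.Agent.P.MP_77a832_co.EL
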