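import Pool.Agent.P.MP_77a832_co.EL.BIface

/-! Step NLAM. -/

set_option autoImplicit false

namespace Pool.Agent.P.MP_77a832_co.EL

open Finset Real Pool.Agent.P.MP_bf60a1_an.RA
open scoped Classical

namespace NLAMc

variable {Ω α β : Type} [Fintype Ω]

/-- a rare exit from a large column -/
def ev (D : PD Ω α β) (p : Par) (σ : ℝ) (u : ℕ) (v : Ω) : Prop :=
  D.flo p (D.X0 σ u) v ∧ cq D.Q (D.Tt p σ u) (D.X0 σ u) v < p.θ0

theorem cl_eq {γ : Type} (P : FP Ω) (G : Ω → γ) {ω z : Ω} (h : G z = G ω) :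
    P.cl G z = P.cl G ω := by
  unfold FP.cl; rw [h]

theorem x0_down (hFLR : S_FLR) (D : PD Ω α β) (σ : ℝ) (u j : ℕ) (ω z : Ω)
    (h : D.X0 σ (u + j) z = D.X0 σ (u + j) ω) : D.X0 σ u z = D.X0 σ u ω := by
  unfold PD.X0 at h ⊢
  rw [Prod.mk.injEq] at h ⊢
  exact ⟨h.1, (hFLR _ _ u j).1 h.2⟩

theorem cnt (hFLR : S_FLR) (hSEQ : S_SEQ) (D : PD Ω α β) (p : Par) (hD : D.Ok p) (σ : ℝ)
    (A : ℕ) (ω : Ω) : (((range A).filter fun u => ev D p σ u ω).card : ℝ) ≤ p.rr p.θ0 := by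
  have hω := hD.str.pos ω
  have hc : 0 < D.Q.cl (D.Nd 0) ω := D.Q.cl_pos _ hω
  have hθ0 := hD.ok.θ00
  have hθ1 : p.θ0 < 1 := by linarith [hD.ok.θ01]
  have hf0 : 0 < p.f := by unfold Par.f; positivity
  have hf1 : p.f ≤ 1 := by
    unfold Par.f; exact pow_le_one₀ (by norm_num) (by norm_num)
  have hm : 1 ≤ p.m := by unfold Par.m; omega
  have h := hSEQ (fun u => D.Q.cl (D.X0 σ u) ω / D.Q.cl (D.Nd 0) ω) p.m A p.θ0 p.f hm hθ0 hθ1
    hf0 hf1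
    (fun u => by
      rw [div_le_one hc]
      exact D.Q.pr_mono fun z _ hz => congrArg Prod.fst hz)
    (fun u => by
      refine div_le_div_of_nonneg_right ?_ hc.le
      exact D.Q.pr_mono fun z _ hz => x0_down hFLR D σ u p.m ω z hz)
  refine le_trans ?_ (h.trans ?_)
  · refine Nat.cast_le.mpr (card_le_card fun u hu => ?_)
    rw [mem_filter] at hu ⊢
    obtain ⟨hu, h1, h2⟩ := hu
    have hX : 0 < D.Q.cl (D.X0 σ u) ω := D.Q.cl_pos _ hω
    refine ⟨hu, ?_, ?_⟩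
    · rw [le_div_iff₀ hc]; exact h1
    · rw [← mul_div_assoc]
      refine div_le_div_of_nonneg_right ?_ hc.le
      unfold cq cp at h2
      rw [div_lt_iff₀ hX] at h2
      refine le_trans ?_ h2.le
      exact D.Q.pr_mono fun z _ hz =>
        ⟨congrArg Prod.snd hz, x0_down hFLR D σ u p.m ω z hz⟩
  · unfold Par.rr
    refine mul_le_mul_of_nonneg_left ?_ (Nat.cast_nonneg _)
    have hl : 0 < - log p.θ0 := by linarith [log_neg hθ0 hθ1]
    have e : log p.f / log p.θ0 = 2 * p.I * p.J * log 2 / (- log p.θ0) := by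
      unfold Par.f
      rw [log_pow, one_div, log_inv, div_neg, ← neg_div]
      push_cast
      ring
    rw [e]
    have h2 : log 2 ≤ 1 := by linarith [log_two_lt_d9]
    have h3 : (0 : ℝ) ≤ 2 * p.I * p.J := by positivity
    have h4 : 2 * (p.I : ℝ) * p.J * log 2 ≤ 2 * p.I * p.J := by nlinarith
    linarith [div_le_div_of_nonneg_right h4 hl.le]

theorem tot (hFLR : S_FLR) (hSEQ : S_SEQ) (D : PD Ω α β) (p : Par) (hD : D.Ok p) (σ : ℝ)
    (A : ℕ) : ∑ u ∈ range A, D.Q.pr (ev D p σ u) ≤ p.rr p.θ0 := by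
  unfold FP.pr
  rw [← D.Q.E_sum]
  refine D.Q.E_le fun ω _ => le_trans (le_of_eq ?_) (cnt hFLR hSEQ D p hD σ A ω)
  rw [card_filter]
  push_cast
  refine sum_congr rfl fun u _ => ?_
  unfold ind
  split_ifs <;> rfl

theorem f_le (p : Par) (h : p.OK) : p.f ≤ (2 : ℝ) ^ (-(1 + 4 * p.η) * p.I * p.J) := by
  unfold Par.f
  rw [one_div, inv_pow, ← rpow_natCast, ← rpow_neg (by norm_num)]
  refine rpow_le_rpow_of_exponent_le (by norm_num) ?_
  push_cast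
  have h1 := h.η1
  have h3 : (0 : ℝ) ≤ (p.I : ℝ) * p.J := by positivity
  nlinarith

end NLAMc

theorem p_NLAM (hCP : S_CP) (hFLR : S_FLR) (hSEQ : S_SEQ) (hHVY : S_HVY) (hGEO : S_GEO) (hCHN : S_CHN) (hCEN : S_CEN) (hTWN : S_TWN) (hSM : S_SM) :
    S_NLAM := by
  intro Ω α β _ D p hD σ A
  obtain ⟨s1, s2, -⟩ := hSM _ _ _ D p hD A
  have t := NLAMc.tot hFLR hSEQ D p hD σ A
  have c1 := hCEN _ _ _ D p hD A (NLAMc.ev D p σ)
  have c2 := hTWN _ _ _ D p hD A (NLAMc.ev D p σ)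
  have c3 := s2 (fun _ u w => NLAMc.ev D p σ u w.1) (fun _ u w => NLAMc.ev D p σ u w.2)
  have hz := hD.ok.ζ0
  have hk : (0 : ℝ) ≤ 2 * p.M ^ 2 / p.ζ := by positivity
  have c4 := mul_le_mul_of_nonneg_left t hk
  refine le_trans (s1 _ (fun _ u w => NLAMc.ev D p σ u w.1 ∨ NLAMc.ev D p σ u w.2) ?_)
    (c3.trans (by linarith))
  rintro l u ⟨ω, z⟩ hl hT _ hs ht hS ⟨hx, hkr, hL⟩
  obtain ⟨g1, g2, g3, -⟩ := hGEO _ _ _ D p hD σ l u ω z hl hT hs ht hS hx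
  have hfl : D.flo p (D.X0 σ u) ω := by
    unfold PD.flo
    unfold PD.kr at hkr
    refine le_trans (mul_le_mul_of_nonneg_right (NLAMc.f_le p hD.ok) (D.Q.cl_nonneg _ _))
      (hkr.trans ?_)
    exact D.Q.pr_mono fun v _ hv => g3 v hv
  have hh : heavy D.Q p.θ0 (D.Tt p σ u) (D.X0 σ u) ω := by
    by_contra hn
    exact hL ⟨hfl, hn⟩
  rcases (hHVY _ _ D.Q (D.Tt p σ u) (D.X0 σ u) p.θ0 ω (hD.str.pos ω)).1 z (hD.str.pos z) g1 g2 hh
    with h | h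
  · exact Or.inl ⟨hfl, h⟩
  · refine Or.inr ⟨?_, h⟩
    unfold PD.flo at hfl ⊢
    rw [NLAMc.cl_eq D.Q _ g1, NLAMc.cl_eq D.Q (D.Nd 0) (congrArg Prod.fst g1)]
    exact hfl

end Pool.Agent.P.MP_77a832_co.EL
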