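import Pool.Agent.P.MP_77a832_co.EL.BudAt

/-! Step NN. -/

set_option autoImplicit false

namespace Pool.Agent.P.MP_77a832_co.EL

open Finset Real Pool.Agent.P.MP_bf60a1_an.RA
open scoped Classical

namespace NNc

end NNc

theorem p_NN (hMPC : S_MPC) (hHWM : S_HWM) (hHWS : S_HWS) (hPINS : S_PINS) (hMID : S_MID) (hFLR : S_FLR) (hCHN : S_CHN) (hELL : S_ELL) (hLAMC : S_LAMC) :
    S_NN := by
  intro Ω α β _ D p hD σ σ' u r n y
  have mp : FP.MP (D.Q2 n) D.Q Prod.fst := D.Q.cpy_fst _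
  have dL := Bud.dLam hLAMC hD σ σ' u y
  have dC := Bud.dCand hELL hD σ σ' u r n y
  have dLC := Bud.det_and D.Q dL dC
  have dG : (D.Q2 n).Det (D.C2 p σ σ' u r y) fun v => D.At p σ σ' u y v.1 :=
    fun _ _ _ _ h => congrArg Prod.fst h
  have h1 := hPINS _ _ _ (D.Q2 n) (fun v => D.Tt p σ u v.1) (fun v => D.Fi p σ' u y v.1)
    (fun v => D.At p σ σ' u y v.1) (D.C2 p σ σ' u r y)
    (fun v => D.Lam p σ u v.1 ∧ D.cand p r n y v.1) p.e hD.ok.e0 dG (Bud.det_mp D.Q mp dLC)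
  have h2 := hMID _ _ _ (D.Q2 n) (fun v => D.Mi p σ' u y v.1) (D.C2 p σ σ' u r y)
    (fun v => D.Lam p σ u v.1 ∧ D.cand p r n y v.1) (2 ^ (p.a + 2)) p.ε2 hD.ok.ε0.le
    (fun w _ => by
      obtain ⟨F, a, b⟩ := (hFLR (D.Pi p y w.1 - σ') 0 (u + p.m + y) (p.a + 2)).2.2.2.2
      exact ⟨F, by exact_mod_cast a, fun z _ e => b _ (Bud.at_eq (congrArg Prod.fst e)).2.2⟩)
    (Bud.det_trans _ dG (Bud.det_mp D.Q mp dLC))
  rw [mp.pr fun ω => D.Lam p σ u ω ∧ D.cand p r n y ω] at h2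
  have h3 : D.NN p σ σ' u r n y ≤ _ := le_trans ((D.Q2 n).pr_mono fun w _ h => by
    obtain ⟨a, b, c⟩ := h
    rcases not_and_or.1 c with c | c
    · exact Or.inl (And.intro (And.intro a b) c)
    · exact Or.inr (And.intro (And.intro a b) (not_le.1 c))) ((D.Q2 n).pr_or_le _ _)
  refine h3.trans (add_le_add (h1.trans (mul_le_mul_of_nonneg_left ?_ (by positivity))) h2)
  unfold PD.Dv PD.Dx
  rw [← Bud.Hw_mp D.Q mp, ← Bud.Hw_mp D.Q mp,
    ← Bud.Hw_symm (D.Q2 n) _ (fun v => D.Tt p σ u v.1) (D.Ex p r)]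
  have h4 := Bud.Hw_diff_mono (D.Q2 n) (φ := fun v => ind (D.Lam p σ u v.1 ∧ D.cand p r n y v.1))
    (ψ := fun v => ind (D.cand p r n y v.1)) (fun v => D.Tt p σ u v.1)
    (V := fun v => (D.Fi p σ' u y v.1, D.At p σ σ' u y v.1))
    (V' := fun v => (D.Ex p r v, D.Fi p σ' u y v.1, D.At p σ σ' u y v.1))
    (Bud.det_trans _ (fun _ _ _ _ h => congrArg Prod.snd h)
      (Bud.det_mp D.Q mp (Bud.det_ind _ dLC)))
    (Bud.det_trans _ (fun _ _ _ _ h => congrArg Prod.snd h)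
      (Bud.det_mp D.Q mp (Bud.det_ind _ dC))) (fun _ _ => ind_mono And.right)
    fun _ _ _ _ h => congrArg Prod.snd h
  have h5 := Bud.Hw_congr (D.Q2 n) (φ := fun v => ind (D.Lam p σ u v.1 ∧ D.cand p r n y v.1))
    (fun v => D.Tt p σ u v.1) (V := fun v => (D.Fi p σ' u y v.1, D.C2 p σ σ' u r y v))
    (V' := fun v => (D.Ex p r v, D.Fi p σ' u y v.1, D.At p σ σ' u y v.1)) fun w _ _ z _ => by
      simp only [PD.C2, Prod.mk.injEq]
      tauto
  linarith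

end Pool.Agent.P.MP_77a832_co.EL
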