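import Pool.Agent.P.MP_77a832_co.EL.BudAt

/-! Step NNS. -/

set_option autoImplicit false

namespace Pool.Agent.P.MP_77a832_co.EL

open Finset Real Pool.Agent.P.MP_bf60a1_an.RA
open scoped Classical

namespace NNSc

end NNSc

theorem p_NNS (hCHN : S_CHN) (hYC : S_YC) (hLAMC : S_LAMC) (hBUD1 : S_BUD1) (hBUD2 : S_BUD2) (hNN : S_NN) (hDVS : S_DVS) :
    S_NNS := by
  intro Ω α β _ D p hD σ σ' A
  obtain ⟨-, -, -, -, c5, c6, c7, c8⟩ := hCHN _ _ _ D p hD
  obtain ⟨l1, l2, -⟩ := hLAMC _ _ _ D p hD σ A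
  have yc : ∀ r < p.R, ∀ n ∈ p.grp r, ∀ ω,
      (((range A).filter fun y => D.cand p r n y ω).card : ℝ) ≤ 16 ^ p.κ := by
    intro r hr n hn ω
    obtain ⟨F, a, b⟩ := hYC _ _ _ D p hD n
      (by have := ((c5 r hr).2 n hn).1; unfold Par.T; omega) ω
    refine le_trans ?_ a
    have : ((range A).filter fun y => D.cand p r n y ω) ⊆ F := fun y hy =>
      b y (mem_filter.1 hy).2.2.2
    exact_mod_cast card_le_card this
  have cnt : ∀ c : ℝ, 0 ≤ c → ∑ r ∈ range p.R, ∑ _n ∈ p.grp r, c ≤ c * p.J := by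
    intro c hc
    have hL := hD.ok.hL
    simp only [sum_const, Par.grp, Nat.card_Ico, Nat.add_sub_cancel_left, card_range, nsmul_eq_mul]
    rw [← c8, ← mul_assoc, mul_comm c]
    refine mul_le_mul_of_nonneg_right ?_ hc
    exact_mod_cast Nat.mul_le_mul_left _ (by omega)
  refine (sum_le_sum fun r _ => sum_le_sum fun u _ => sum_le_sum fun n _ => sum_le_sum fun y _ =>
    hNN _ _ _ D p hD σ σ' u r n y).trans ?_
  simp only [sum_add_distrib, ← mul_sum]
  have us0 : 0 ≤ p.us := (Nat.cast_nonneg _).trans (l1 D.Q.exists_pos.choose)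
  refine add_le_add (mul_le_mul_of_nonneg_left ?_ (by positivity)) ?_
  · have a1 : ∑ r ∈ range p.R, ∑ u ∈ range A, ∑ n ∈ p.grp r, ∑ y ∈ range A,
        D.Dv p σ σ' (fun ω => ind (D.Lam p σ u ω ∧ D.cand p r n y ω)) u y ≤
        p.mu * (p.s * p.m * p.us + ∑ u ∈ range A, ∑ y ∈ range A, D.FZ p σ σ' u y) := by
      rw [sum_comm]
      have b1 : ∀ u ∈ range A, ∑ r ∈ range p.R, ∑ n ∈ p.grp r, ∑ y ∈ range A,
          D.Dv p σ σ' (fun ω => ind (D.Lam p σ u ω ∧ D.cand p r n y ω)) u y ≤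
          p.mu * (p.s * p.m * D.Q.pr (D.Lam p σ u) + ∑ y ∈ range A, D.FZ p σ σ' u y) := by
        intro u _
        rw [sum_congr rfl fun r _ => sum_comm (s := p.grp r) (t := range A), sum_comm]
        refine (sum_le_sum fun y _ => hDVS _ _ _ D p hD σ σ' u y).trans ?_
        rw [← mul_sum]
        exact mul_le_mul_of_nonneg_left (hBUD1 _ _ _ D p hD σ σ' u A) (Nat.cast_nonneg _)
      refine (sum_le_sum b1).trans ?_
      rw [← mul_sum, sum_add_distrib, ← mul_sum]
      gcongr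
    have a2 : ∑ r ∈ range p.R, ∑ u ∈ range A, ∑ n ∈ p.grp r, ∑ y ∈ range A,
        D.Dx p σ σ' u r n y ≤ p.m * (2 * p.mu * p.I) * 16 ^ p.κ * p.J := by
      refine le_trans (sum_le_sum fun r hr => ?_) (cnt _ (by positivity))
      rw [sum_comm]
      refine sum_le_sum fun n hn => ?_
      rw [sum_comm]
      refine (sum_le_sum fun y _ => hBUD2 _ _ _ D p hD σ σ' A r (mem_range.1 hr) n hn y).trans ?_
      rw [← mul_sum, Bud.sum_pr]
      exact mul_le_mul_of_nonneg_left (D.Q.E_le fun ω _ => yc r (mem_range.1 hr) n hn ω)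
        (by positivity)
    unfold Par.bud0
    linarith
  · have a3 : ∑ r ∈ range p.R, ∑ u ∈ range A, ∑ n ∈ p.grp r, ∑ y ∈ range A,
        D.Q.pr (fun ω => D.Lam p σ u ω ∧ D.cand p r n y ω) ≤ p.us * 16 ^ p.κ * p.J := by
      refine le_trans (sum_le_sum fun r hr => ?_) (cnt _ (by positivity))
      rw [sum_comm]
      refine sum_le_sum fun n hn => ?_
      refine le_trans (sum_le_sum fun u _ => ?_ : _ ≤ ∑ u ∈ range A,
        D.Q.pr (D.Lam p σ u) * 16 ^ p.κ) ?_
      · unfold FP.pr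
        rw [← FP.E_sum, ← FP.E_mul_right]
        refine D.Q.E_mono fun ω _ => ?_
        simp only [ind_and, ← mul_sum]
        refine mul_le_mul_of_nonneg_left ?_ (ind_nonneg _)
        simp only [ind, sum_boole]
        exact yc r (mem_range.1 hr) n hn ω
      · rw [← sum_mul]
        exact mul_le_mul_of_nonneg_right l2 (by positivity)
    have := hD.ok.ε0
    refine (mul_le_mul_of_nonneg_left a3 (by positivity)).trans (le_of_eq (by ring))

end Pool.Agent.P.MP_77a832_co.EL
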