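import Pool.Agent.P.MP_77a832_co.EL.BIface

/-! Step PAR. -/

set_option autoImplicit false

namespace Pool.Agent.P.MP_77a832_co.EL

open Finset Real Pool.Agent.P.MP_bf60a1_an.RA
open scoped Classical

namespace PARd

theorem ex_pow (x : ℝ) : ∃ n : ℕ, x ≤ 2 ^ n := by
  obtain ⟨n, hn⟩ := pow_unbounded_of_one_lt x (one_lt_two (α := ℝ))
  exact ⟨n, hn.le⟩

theorem ex_t (K c : ℝ) (hK : 0 ≤ K) (hc : 0 ≤ c) :
    ∃ t : ℕ, 2 ≤ t ∧ K * (c + t) ^ 2 * (1 / 2) ^ t ≤ 1 := by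
  have h := tendsto_pow_const_mul_const_pow_of_abs_lt_one 2 (r := (1 / 2 : ℝ))
    (by rw [abs_of_pos] <;> norm_num)
  have h2 := h.eventually (gt_mem_nhds (show (0 : ℝ) < 1 / (4 * K + 1) by positivity))
  obtain ⟨n, hn⟩ := Filter.eventually_atTop.1 h2
  obtain ⟨k, hk⟩ := exists_nat_ge c
  refine ⟨n + k + 2, by omega, ?_⟩
  have h3 := hn (n + k + 2) (by omega)
  have h4 : c ≤ ((n + k + 2 : ℕ) : ℝ) := by
    push_cast
    have : (0 : ℝ) ≤ n := Nat.cast_nonneg _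
    linarith
  generalize ((n + k + 2 : ℕ) : ℝ) = x at h3 h4
  have h5 : (0 : ℝ) < (1 / 2) ^ (n + k + 2) := by positivity
  generalize ((1 / 2 : ℝ)) ^ (n + k + 2) = y at h3 h5
  rw [lt_div_iff₀ (by positivity)] at h3
  have h6 : (c + x) ^ 2 ≤ 4 * x ^ 2 := by nlinarith
  have h7 : K * (c + x) ^ 2 * y ≤ K * (4 * x ^ 2) * y := by gcongr
  have h8 : 0 ≤ x ^ 2 * y := by positivity
  nlinarith

theorem half_exp {X : ℝ} (h : 1 ≤ X) : exp (-X) ≤ 1 / 2 := by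
  rw [exp_neg, ← one_div]
  refine one_div_le_one_div_of_le two_pos ?_
  linarith [add_one_le_exp X]

theorem rr_le {m I Λ N B τ c : ℝ} (hm : 0 ≤ m) (hI : 0 ≤ I) (hΛ : 0 ≤ Λ) (hB : 0 ≤ B) (hτ : 0 < τ)
    (hc : 0 ≤ c) (hN : 2 * c * m * B / τ ≤ N) :
    c * (m * (2 * I * (Λ * N) / (1 + 4 * c * m * I * Λ * B / τ) + 1)) * B ≤ τ * N := by
  have hN0 : 0 ≤ N := le_trans (by positivity) hN
  rw [div_le_iff₀ hτ] at hN
  have h1 : c * m * B * (2 * I * (Λ * N) / (1 + 4 * c * m * I * Λ * B / τ)) ≤ τ * N / 2 := by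
    rw [← mul_div_assoc, div_le_iff₀ (by positivity)]
    have : τ * N / 2 * (1 + 4 * c * m * I * Λ * B / τ) =
        τ * N / 2 + 2 * c * m * I * Λ * B * N := by field_simp; ring
    rw [this]
    have : 0 ≤ τ * N / 2 := by positivity
    nlinarith
  nlinarith

theorem two_rpow_sq {x N : ℝ} (hN : 0 < N) (hx : 6 * N ≤ x) : (2 : ℝ) ^ (-x) ≤ 1 / N ^ 2 := by
  have h1 : N ≤ (2 : ℝ) ^ (3 * N) := by
    rw [rpow_def_of_pos two_pos]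
    have := add_one_le_exp (log 2 * (3 * N))
    have := log_two_gt_d9
    nlinarith
  have h2 : N ^ 2 ≤ (2 : ℝ) ^ x := by
    calc N ^ 2 ≤ ((2 : ℝ) ^ (3 * N)) ^ 2 := by gcongr
      _ = (2 : ℝ) ^ (6 * N) := by
        rw [sq, ← rpow_add two_pos]; congr 1; ring
      _ ≤ _ := rpow_le_rpow_of_exponent_le one_le_two hx
  rw [rpow_neg zero_le_two, ← one_div]
  exact one_div_le_one_div_of_le (by positivity) h2

theorem pw_le {x : ℝ} {n k : ℕ} (h : (k : ℝ) ≤ x * n) : ((2 : ℝ) ^ (-x)) ^ n ≤ (1 / 2) ^ k := by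
  rw [← rpow_natCast, ← rpow_mul zero_le_two, one_div, inv_pow, ← rpow_natCast,
    ← rpow_neg zero_le_two]
  exact rpow_le_rpow_of_exponent_le one_le_two (by linarith)

/-- second stage: all constants after `κ` and `M` -/
theorem stage (I κ M Λ L₀ : ℕ) (ζ η g1 c0 z1 : ℝ) (I1 : 1 ≤ I) (κ1 : 1 ≤ κ) (M1 : 1 ≤ M)
    (M3 : M ^ 3 ≤ 2 ^ I) (Λ1 : 1 ≤ Λ) (ζ0 : 0 < ζ) (ζ1 : ζ ≤ 1) (η0 : 0 < η) (η1 : η ≤ 1 / 100)
    (g0 : 0 < g1) (g11 : g1 ≤ 1) (c00 : 0 < c0) (c01 : c0 ≤ 1) (z0 : 0 < z1)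
    (hz : 400 * z1 * (Λ + 3) ≤ η * g1 * (c0 * g1 * η / 400)) (hΛ : 6 ≤ η * Λ) (hI : 2 ≤ η * I)
    (hfin : 6 * η * I < g1 * κ) (hg : 1 ≤ g1 * κ) : ∃ p : Par, p.OK ∧ p.I = I ∧ p.κ = κ ∧
      p.M = M ∧ p.η = η ∧ p.ζ = ζ ∧ L₀ ≤ p.L' ∧ p.L' ≤ p.T ∧ p.g1 = g1 ∧ p.c0 = c0 ∧ p.Λ = Λ ∧
      p.z1 = z1 := by
  obtain ⟨τ, hτ⟩ : ∃ τ, τ = c0 * g1 * η / 400 := ⟨_, rfl⟩
  have τ0 : 0 < τ := by rw [hτ]; positivity
  have τ1 : τ ≤ 1 := by
    rw [hτ]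
    have : c0 * g1 ≤ 1 := mul_le_one₀ c01 g0.le g11
    have : c0 * g1 * η ≤ 1 := mul_le_one₀ this η0.le (by linarith only [η1])
    linarith only [this]
  have I1' : (1 : ℝ) ≤ I := by exact_mod_cast I1
  have Λ1' : (1 : ℝ) ≤ Λ := by exact_mod_cast Λ1
  obtain ⟨a, ha⟩ := ex_pow (48 / τ)
  obtain ⟨m, hm⟩ : ∃ m : ℝ, m = ((a + 3 : ℕ) : ℝ) := ⟨_, rfl⟩
  have m1 : 1 ≤ m := by rw [hm]; exact_mod_cast (by omega : 1 ≤ a + 3)
  obtain ⟨B, hB⟩ : ∃ B : ℝ, B = 2 + 2 * (M : ℝ) ^ 2 / ζ := ⟨_, rfl⟩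
  have B0 : 0 ≤ B := by rw [hB]; positivity
  obtain ⟨θ0, hθ0⟩ : ∃ θ : ℝ, θ = exp (-(1 + 4 * 1 * m * I * Λ * B / τ)) := ⟨_, rfl⟩
  have θ00 : 0 < θ0 := by rw [hθ0]; exact exp_pos _
  obtain ⟨A0, hA0⟩ : ∃ A : ℝ, A = m * (2 * I * Λ / θ0 + 1) := ⟨_, rfl⟩
  have A1 : 1 ≤ A0 := by
    rw [hA0]
    have : 0 ≤ 2 * (I : ℝ) * Λ / θ0 := by positivity
    exact one_le_mul_of_one_le_of_one_le m1 (by linarith only [this])
  obtain ⟨l, hl⟩ : ∃ l : ℝ, l = ((L₀ + 1 : ℕ) : ℝ) := ⟨_, rfl⟩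
  have l1 : 1 ≤ l := by rw [hl]; exact_mod_cast (by omega : 1 ≤ L₀ + 1)
  obtain ⟨δ', hδ'⟩ : ∃ d : ℝ, d = τ / (4 * A0 * l * 4 ^ κ) := ⟨_, rfl⟩
  have δ0 : 0 < δ' := by rw [hδ']; positivity
  have k4 : (1 : ℝ) ≤ 4 ^ κ := one_le_pow₀ (by norm_num)
  obtain ⟨θ1, hθ1⟩ : ∃ θ : ℝ, θ = exp (-(1 + 4 * (l * 16 ^ κ) * m * I * Λ * B / τ)) := ⟨_, rfl⟩
  have θ10 : 0 < θ1 := by rw [hθ1]; exact exp_pos _
  obtain ⟨δ, hδ⟩ : ∃ d : ℝ, d = 1 / (6 * 4 ^ κ) := ⟨_, rfl⟩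
  have δp : 0 < δ := by rw [hδ]; positivity
  obtain ⟨Y0, hY0⟩ := ex_pow (4 / (δ * δ'))
  obtain ⟨Y, hY⟩ : ∃ Y : ℕ, Y = Y0 + (a + (a + 3) + 9) := ⟨_, rfl⟩
  obtain ⟨L, hL⟩ := exists_nat_ge ((Y + 2 + I * (l + 1)) / η)
  rw [div_le_iff₀ η0] at hL
  have Y0' : (0 : ℝ) ≤ Y := Nat.cast_nonneg _
  have L0' : (0 : ℝ) ≤ L := Nat.cast_nonneg _
  obtain ⟨c1, hc1⟩ : ∃ c : ℕ, c = ⌈η * L⌉₊ := ⟨_, rfl⟩
  have c1a : η * L ≤ c1 := hc1 ▸ Nat.le_ceil _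
  have c1b : (c1 : ℝ) ≤ η * L + 1 := hc1 ▸ (Nat.ceil_lt_add_one (by positivity)).le
  obtain ⟨q0, hq0⟩ : ∃ c : ℕ, c = ⌈(1 - 4 * η) * L * I⌉₊ := ⟨_, rfl⟩
  have q0a : (1 - 4 * η) * L * I ≤ q0 := hq0 ▸ Nat.le_ceil _
  have q0b : (q0 : ℝ) ≤ (1 - 4 * η) * L * I + 1 := hq0 ▸ (Nat.ceil_lt_add_one
    (mul_nonneg (mul_nonneg (by linarith) L0') (by linarith))).le
  have hLl : l + c1 ≤ L := by
    have u1 : l + 1 ≤ I * (l + 1) := le_mul_of_one_le_left (by linarith only [l1]) I1'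
    have u2 : L * η ≤ L * (1 / 100) := mul_le_mul_of_nonneg_left η1 L0'
    linarith only [u1, u2, hL, c1b, Y0', L0']
  have hLn : L₀ + 1 + c1 ≤ L := by rw [hl] at hLl; exact_mod_cast hLl
  have L1 : (1 : ℝ) ≤ L := by have : (0 : ℝ) ≤ c1 := Nat.cast_nonneg _; linarith
  obtain ⟨E, hE⟩ : ∃ E : ℝ, E = 32 / (δ * δ') := ⟨_, rfl⟩
  have E0 : 0 < E := by rw [hE]; positivity
  obtain ⟨ε2, hε2⟩ : ∃ e : ℝ, e = min 1 (τ / 3 / (E * 2 ^ (a + 2) * A0 * L * 16 ^ κ)) := ⟨_, rfl⟩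
  have ε0 : 0 < ε2 := by rw [hε2]; exact lt_min one_pos (by positivity)
  have ε3 : ε2 * (E * 2 ^ (a + 2) * A0 * L * 16 ^ κ) ≤ τ / 3 := by
    rw [← le_div_iff₀ (by positivity), hε2]; exact min_le_right _ _
  obtain ⟨e, he⟩ : ∃ e : ℝ, e = (θ1 / 2 ^ (a + 3)) ^ 2 * ε2 ^ 2 / (8 * 2 ^ (q0 + Y)) := ⟨_, rfl⟩
  have e0 : 0 < e := by rw [he]; positivity
  obtain ⟨F, hF⟩ : ∃ F : ℝ, F = E * (16 / e ^ 2) := ⟨_, rfl⟩
  have F0 : 0 < F := by rw [hF]; positivity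
  obtain ⟨t, t2, ht⟩ := ex_t (F * 24 * A0 * (Λ + 3) * L / (τ / 3))
    (L + m + 5 + ((q0 + Y : ℕ) : ℝ)) (by positivity) (by positivity)
  obtain ⟨mu, hmu⟩ : ∃ x : ℝ, x = ((L + 2 * (L + 2 * (t + (a + 3) + 5)) : ℕ) : ℝ) := ⟨_, rfl⟩
  obtain ⟨s, hs⟩ : ∃ x : ℝ, x = ((q0 + Y + t : ℕ) : ℝ) := ⟨_, rfl⟩
  have mu0 : 0 ≤ mu := hmu ▸ Nat.cast_nonneg _
  have s0 : 0 ≤ s := hs ▸ Nat.cast_nonneg _
  obtain ⟨K2, hK2⟩ : ∃ x : ℝ, x = mu * (s * m * A0) + m * (2 * mu * I) * 16 ^ κ * Λ := ⟨_, rfl⟩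
  have K0 : 0 ≤ K2 := by rw [hK2]; positivity
  obtain ⟨N1, hN1⟩ := exists_nat_ge (F * K2 / (τ / 3) + (mu + 3) + 2 * 1 * m * B / τ +
    2 * (l * 16 ^ κ) * m * B / τ + 2 * A0 / τ)
  have n1 : 0 ≤ F * K2 / (τ / 3) := by positivity
  have n2 : 0 ≤ 2 * 1 * m * B / τ := by positivity
  have n3 : 0 ≤ 2 * (l * 16 ^ κ) * m * B / τ := by positivity
  have n4 : 0 ≤ 2 * A0 / τ := by positivity
  obtain ⟨N, hN⟩ : ∃ x : ℝ, x = ((L * N1 : ℕ) : ℝ) := ⟨_, rfl⟩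
  have N1' : (3 : ℝ) ≤ N1 := by linarith
  have Ne : N = L * N1 := by rw [hN]; push_cast; ring
  have NN : (N1 : ℝ) ≤ N := Ne ▸ le_mul_of_one_le_left (by linarith only [N1']) L1
  let p : Par := ⟨I, κ, M, L, L₀ + 1, c1, L + 2 * (t + (a + 3) + 5), N1, Λ, a, q0 + Y, t, ζ, η, g1,
    c0, z1, θ0, θ1, δ', ε2, e, (1 / 2) ^ (t + (a + 3))⟩
  have pτ : p.τ = τ := hτ.symm
  have pN : (p.N : ℝ) = N := hN.symm
  have pJ : (p.J : ℝ) = Λ * N := by rw [← pN]; exact Nat.cast_mul _ _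
  have pR : (p.R : ℝ) = Λ * N1 := Nat.cast_mul _ _
  have pT : (p.T : ℝ) = (Λ + 3) * N := by
    rw [show (p.T : ℝ) = p.J + 3 * p.N by unfold Par.T; push_cast; ring, pJ, pN]; ring
  have pm : (p.m : ℝ) = m := hm.symm
  have pδ : p.δ = δ := hδ.symm
  have pmu : (p.mu : ℝ) = mu := hmu.symm
  have ps : (p.s : ℝ) = s := hs.symm
  have pφ : (2 : ℝ) ^ (a + 3) * (1 / 2) ^ (t + (a + 3)) = (1 / 2) ^ t := by
    rw [pow_add (1 / 2 : ℝ) t, mul_comm ((1 / 2 : ℝ) ^ t), ← mul_assoc, ← mul_pow]; norm_num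
  have pφ3 : p.φ3 = 2 * (1 / 2) ^ t := by
    show (1 / 2 : ℝ) ^ t + 2 ^ (a + 3) * (1 / 2) ^ (t + (a + 3)) = _
    rw [pφ]; ring
  have pus : p.us ≤ A0 * N := by
    show (p.m : ℝ) * (2 * I * p.J / θ0 + 1) ≤ _
    rw [pm, pJ, hA0, show 2 * (I : ℝ) * (Λ * N) / θ0 = 2 * I * Λ / θ0 * N by ring, mul_assoc m]
    exact mul_le_mul_of_nonneg_left (by linarith only [NN, N1']) (by linarith only [m1])
  have pus0 : 0 ≤ p.us := by
    show 0 ≤ (p.m : ℝ) * (2 * I * p.J / θ0 + 1)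
    positivity
  have prr : ∀ X : ℝ, p.rr (exp (-X)) = m * (2 * I * (Λ * N) / X + 1) := fun X => by
    show (p.m : ℝ) * (2 * I * p.J / (-log (exp (-X))) + 1) = _
    rw [log_exp, neg_neg, pm, pJ]
  have psh : p.sh = 2 ^ (-((1 - η) * I)) := by
    show (2 : ℝ) ^ (-(1 - η) * I) = _
    rw [neg_mul]
  refine ⟨p, ⟨I1, κ1, M1, M3, by show 1 ≤ L₀ + 1; omega, by show 1 ≤ N1; exact_mod_cast
    (by linarith : (1 : ℝ) ≤ N1), Λ1, ζ0, ζ1, η0, η1, g0, g11, c00, c01, z0, θ00, ?_, θ10, ?_, δ0,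
    ?_, ε0, ?_, e0, by show (0 : ℝ) < (1 / 2) ^ (t + (a + 3)); positivity, hLn, c1a, ?_, ?_,
    by show L ≤ L + _; omega, ?_, ?_, by show a + (a + 3) + 8 ≤ q0 + Y; omega, ?_, t2, ?_, ?_, ?_,
    ?_, ?_, ?_, ?_, hz, hΛ, hI, hfin, hg⟩, rfl, rfl, rfl, rfl, rfl, Nat.le_succ _, ?_, rfl, rfl,
    rfl, rfl⟩
  · show θ0 ≤ _
    rw [hθ0]; exact half_exp (le_add_of_nonneg_right (by positivity))
  · show θ1 ≤ _
    rw [hθ1]; exact half_exp (le_add_of_nonneg_right (by positivity))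
  · show δ' ≤ 1
    rw [hδ', div_le_one (by positivity)]
    have : 1 ≤ A0 * l * 4 ^ κ :=
      one_le_mul_of_one_le_of_one_le (one_le_mul_of_one_le_of_one_le A1 l1) k4
    linarith only [this, τ1]
  · show ε2 ≤ 1
    rw [hε2]; exact min_le_left _ _
  · rw [psh]
    refine pw_le ?_
    show ((q0 + Y + 1 : ℕ) : ℝ) ≤ (1 - η) * I * ((L - (L₀ + 1) - c1 : ℕ) : ℝ)
    rw [Nat.sub_sub, Nat.cast_sub hLn, Nat.cast_add (L₀ + 1), ← hl]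
    push_cast
    have h1 : (1 - η) * I * (L - (l + (η * L + 1))) ≤ (1 - η) * I * (L - (l + c1)) :=
      mul_le_mul_of_nonneg_left (by linarith) (mul_nonneg (by linarith) (by linarith))
    have h2 : L * η ≤ I * (L * η) := le_mul_of_one_le_left (by positivity) I1'
    have h3 : 0 ≤ η * I * (l + (η * L + 1)) := by positivity
    have h4 : 0 ≤ L * η := by positivity
    linarith only [h1, h2, h3, h4, hL, q0b]
  · show 4 / (p.δ * δ') * (2 ^ (a + (a + 3) + 9) / 2 ^ (q0 + Y)) ≤ (2 : ℝ) ^ (-(1 - 4 * η) * L * I)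
    rw [pδ]
    calc _ ≤ (2 : ℝ) ^ Y0 * (2 ^ (a + (a + 3) + 9) / 2 ^ (q0 + Y)) := by gcongr
      _ = (2 : ℝ) ^ (-(q0 : ℝ)) := by
        rw [rpow_neg zero_le_two, rpow_natCast, hY]; field_simp; ring
      _ ≤ _ := rpow_le_rpow_of_exponent_le one_le_two (by linarith)
  · rw [psh]
    refine (pw_le (k := t + (a + 3) + 5) ?_).trans (le_of_eq ?_)
    · show _ ≤ (1 - η) * I * ((L + 2 * (t + (a + 3) + 5) : ℕ) : ℝ)
      have h1 : (1 / 2 : ℝ) ≤ (1 - η) * I :=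
        le_trans (by linarith only [η1]) (le_mul_of_one_le_right (by linarith only [η1]) I1')
      have h2 : (0 : ℝ) ≤ ((t + (a + 3) + 5 : ℕ) : ℝ) := Nat.cast_nonneg _
      rw [Nat.cast_add L, Nat.cast_mul]
      generalize ((t + (a + 3) + 5 : ℕ) : ℝ) = x at h2 ⊢
      push_cast
      have := mul_le_mul_of_nonneg_right h1 (show 0 ≤ L + 2 * x by positivity)
      linarith only [this, L0']
    · show _ = (1 / 2 : ℝ) ^ (t + (a + 3)) / 32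
      rw [pow_add _ _ 5]; ring
  · have : mu + 3 ≤ N := by linarith
    rw [hmu, hN] at this
    show L + 2 * (L + 2 * (t + (a + 3) + 5)) + 3 ≤ L * N1
    exact_mod_cast this
  · show (2 : ℝ) ^ (a + 3) * (1 / 2) ^ (t + (a + 3)) ≤ 1 / 4
    rw [pφ]
    exact (pow_le_pow_of_le_one (by norm_num) (by norm_num) t2).trans (by norm_num)
  · show 8 * e * 2 ^ (q0 + Y) ≤ (θ1 / 2 ^ (a + 3)) ^ 2 * ε2 ^ 2
    rw [he]; exact le_of_eq (by field_simp)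
  · show 48 / 2 ^ a ≤ p.τ
    rw [pτ, div_le_iff₀ (by positivity)]
    rw [div_le_iff₀ τ0] at ha
    linarith
  · show p.rr θ0 * (2 + 2 * (M : ℝ) ^ 2 / ζ) ≤ _
    rw [← hB, hθ0, prr, pτ, pN]
    have := rr_le (m := m) (I := I) (Λ := Λ) (N := N) (B := B) (c := 1) (by linarith) (by linarith)
      (by linarith) B0 τ0 zero_le_one (by linarith)
    rwa [one_mul] at this
  · show 2 * p.us * (2 : ℝ) ^ (-η * I * p.J) ≤ _
    rw [pτ, pJ, show -η * I * (Λ * N) = -(η * Λ * N * I) by ring]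
    have N0 : 0 < N := by linarith
    have h0 : 6 * N ≤ η * Λ * N := mul_le_mul_of_nonneg_right hΛ N0.le
    have h1 := two_rpow_sq N0 (h0.trans (le_mul_of_one_le_right (by positivity) I1'))
    have h2 : 2 * A0 / τ ≤ N := by linarith
    rw [div_le_iff₀ τ0] at h2
    calc _ ≤ 2 * (A0 * N) * (1 / N ^ 2) := by gcongr
      _ = 2 * A0 / N := by field_simp
      _ ≤ τ := by rw [div_le_iff₀ N0]; linarith
  · show 4 * δ' * p.us * ((L₀ + 1 : ℕ) : ℝ) * 4 ^ κ ≤ _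
    rw [← hl, pτ, pN]
    calc _ ≤ 4 * δ' * (A0 * N) * l * 4 ^ κ := by gcongr
      _ = τ * N := by rw [hδ']; field_simp
  · show 32 / (p.δ * δ') * (16 / e ^ 2 * (p.bud0 + p.mu * p.fz) +
      ε2 * 2 ^ (a + 2) * p.us * p.J * 16 ^ κ) ≤ _
    have N0 : 0 ≤ N := by linarith
    have b1 : p.bud0 ≤ K2 * N := by
      show (p.mu : ℝ) * (p.s * p.m * p.us) + p.m * (2 * p.mu * I) * 16 ^ κ * p.J ≤ _
      rw [pmu, ps, pm, pJ, hK2]
      have : mu * (s * m * p.us) ≤ mu * (s * m * (A0 * N)) := by gcongr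
      linarith
    have b2 : p.fz ≤ 3 * (2 * (1 / 2) ^ t) * (A0 * N) * s * ((Λ + 3) * N) := by
      show 3 * p.φ3 * p.us * p.s * p.T ≤ _
      rw [pφ3, ps, pT]; gcongr
    have x0 : (0 : ℝ) ≤ ((q0 + Y : ℕ) : ℝ) := Nat.cast_nonneg _
    have t0 : (0 : ℝ) ≤ t := Nat.cast_nonneg _
    have b3 : mu * s ≤ 4 * (L + m + 5 + ((q0 + Y : ℕ) : ℝ) + t) ^ 2 := by
      have u1 : mu ≤ 4 * (L + m + 5 + ((q0 + Y : ℕ) : ℝ) + t) := by
        have : mu = 3 * L + 4 * (t + m + 5) := by rw [hmu, hm]; push_cast; ring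
        linarith
      have u2 : s ≤ L + m + 5 + ((q0 + Y : ℕ) : ℝ) + t := by
        have : s = ((q0 + Y : ℕ) : ℝ) + t := by rw [hs]; push_cast; ring
        linarith
      calc _ ≤ 4 * (L + m + 5 + ((q0 + Y : ℕ) : ℝ) + t) * (L + m + 5 + ((q0 + Y : ℕ) : ℝ) + t) := by
            gcongr
        _ = _ := by ring
    generalize (L + m + 5 + ((q0 + Y : ℕ) : ℝ) + t) ^ 2 = W at ht b3
    have y0 : (0 : ℝ) < (1 / 2) ^ t := by positivity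
    generalize ((1 / 2 : ℝ)) ^ t = y at ht b2 y0
    have b4 : F * 24 * A0 * (Λ + 3) * L * W * y ≤ τ / 3 := by
      rw [div_mul_eq_mul_div, div_mul_eq_mul_div, div_le_one (by positivity)] at ht
      exact ht
    have b5 : F * K2 ≤ τ / 3 * N1 := by
      have : F * K2 / (τ / 3) ≤ N1 := by linarith
      rw [div_le_iff₀ (by positivity)] at this
      linarith
    have NR : N * N1 ≤ N * (Λ * N1) :=
      mul_le_mul_of_nonneg_left (le_mul_of_one_le_left (by linarith) Λ1') N0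
    have d1 : F * p.bud0 ≤ τ / 3 * (N * N1) :=
      calc _ ≤ F * (K2 * N) := by gcongr
        _ = F * K2 * N := by ring
        _ ≤ τ / 3 * N1 * N := by gcongr
        _ = _ := by ring
    have d2 : F * (mu * p.fz) ≤ τ / 3 * (N * N1) :=
      calc _ ≤ F * (mu * (3 * (2 * y) * (A0 * N) * s * ((Λ + 3) * N))) := by gcongr
        _ = F * 6 * A0 * (Λ + 3) * L * (mu * s) * y * (N * N1) := by rw [Ne]; ring
        _ ≤ F * 6 * A0 * (Λ + 3) * L * (4 * W) * y * (N * N1) := by gcongr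
        _ = F * 24 * A0 * (Λ + 3) * L * W * y * (N * N1) := by ring
        _ ≤ _ := by gcongr
    have d3 : E * (ε2 * 2 ^ (a + 2) * p.us * (Λ * N) * 16 ^ κ) ≤ τ / 3 * (N * (Λ * N1)) :=
      calc _ ≤ E * (ε2 * 2 ^ (a + 2) * (A0 * N) * (Λ * N) * 16 ^ κ) := by gcongr
        _ = ε2 * (E * 2 ^ (a + 2) * A0 * L * 16 ^ κ) * (N * (Λ * N1)) := by rw [Ne]; ring
        _ ≤ _ := by gcongr
    have d4 : τ / 3 * (N * N1) ≤ τ / 3 * (N * (Λ * N1)) := by gcongr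
    rw [pδ, ← hE, pτ, pN, pR, pJ, pmu, mul_add, ← mul_assoc E (16 / e ^ 2), ← hF, mul_add]
    linarith
  · show ((L₀ + 1 : ℕ) : ℝ) * 16 ^ κ * p.rr θ1 * (2 + 2 * (M : ℝ) ^ 2 / ζ) ≤ _
    rw [← hB, ← hl, hθ1, prr, pτ, pN]
    exact rr_le (by linarith) (by linarith) (by linarith) B0 τ0 (by positivity) (by linarith)
  · have : l ≤ (p.T : ℝ) := by
      rw [pT, Ne]
      have c0' : (0 : ℝ) ≤ c1 := Nat.cast_nonneg _
      have : (L : ℝ) ≤ L * N1 := le_mul_of_one_le_right L0' (by linarith)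
      have h2 : (L : ℝ) * N1 ≤ (Λ + 3) * (L * N1) :=
        le_mul_of_one_le_left (by positivity) (by linarith only [Λ1'])
      linarith only [this, h2, hLl, c0']
    rw [hl] at this
    exact_mod_cast this

end PARd

theorem p_PAR : S_PAR := by
  intro g w g0 g1 w2
  have w' : (2 : ℝ) ≤ w := by exact_mod_cast w2
  obtain ⟨G, hG⟩ : ∃ G : ℝ, G = g ^ 2 / 256 := ⟨_, rfl⟩
  have gg : g ^ 2 ≤ 1 := pow_le_one₀ g0.le g1
  have G0 : 0 < G := by rw [hG]; positivity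
  have G1 : G ≤ 1 := by rw [hG]; linarith
  obtain ⟨η, hη⟩ : ∃ η : ℝ, η = G / (100 * w) := ⟨_, rfl⟩
  have η0 : 0 < η := by rw [hη]; positivity
  have ηw : η * (100 * w) = G := by rw [hη]; field_simp
  have η1 : η ≤ 1 / 100 := by nlinarith
  obtain ⟨Λ, hΛ⟩ := exists_nat_ge (6 / η + 1024 / g ^ 2)
  have a1 : 0 < 6 / η := by positivity
  have a2 : 0 < 1024 / g ^ 2 := by positivity
  have Λa : 6 ≤ η * Λ := by
    have : 6 / η ≤ Λ := by linarith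
    rw [div_le_iff₀ η0] at this; linarith
  have Λb : 1024 ≤ g ^ 2 * Λ := by
    have : 1024 / g ^ 2 ≤ Λ := by linarith
    rw [div_le_iff₀ (by positivity)] at this; linarith
  have Λ0 : (0 : ℝ) < Λ := by linarith
  obtain ⟨z, hz⟩ : ∃ z : ℝ, z = η * G * (G / 2 * G * η / 400) / (400 * (Λ + 3)) := ⟨_, rfl⟩
  have z0 : 0 < z := by rw [hz]; positivity
  have zz : 400 * z * (Λ + 3) = η * G * (G / 2 * G * η / 400) := by rw [hz]; field_simp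
  obtain ⟨k, hk⟩ := exists_nat_ge (4 / g + 1 / G + 2 / η)
  have b1 : 0 < 4 / g := by positivity
  have b2 : 0 < 1 / G := by positivity
  have b3 : 0 < 2 / η := by positivity
  refine ⟨η, min 1 (g ^ 2 * z / 8192), k, η0, by linarith, lt_min one_pos (by positivity),
    min_le_left _ _, fun κ M hκ M1 M3 L₀ => ?_⟩
  have hκ' : (k : ℝ) ≤ κ := by exact_mod_cast hκ
  have c1 : 4 ≤ g * κ := by
    have : 4 / g ≤ κ := by linarith
    rw [div_le_iff₀ g0] at this; linarith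
  have c2 : 1 ≤ G * κ := by
    have : 1 / G ≤ κ := by linarith
    rw [div_le_iff₀ G0] at this; linarith
  have c3 : 2 ≤ η * κ := by
    have : 2 / η ≤ κ := by linarith
    rw [div_le_iff₀ η0] at this; linarith
  have κ0 : (0 : ℝ) < κ := by linarith
  have κ1 : 1 ≤ κ := by exact_mod_cast κ0
  obtain ⟨p, h0, h1, h2, h3, h4, h5, h6, h7, h8, h9, h10, h11⟩ := PARd.stage (w * κ) κ M Λ L₀
    (min 1 (g ^ 2 * z / 8192)) η G (G / 2) z (Nat.mul_pos (by omega) κ1) κ1 M1 M3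
    (by exact_mod_cast Λ0) (lt_min one_pos (by positivity)) (min_le_left _ _) η0 η1 G0 G1
    (by positivity) (by linarith) z0 zz.le Λa (by push_cast; nlinarith)
    (by push_cast; nlinarith) c2
  refine ⟨p, h0, h1, h2, h3, h4, h5, h6, h7, by rwa [h2], by rw [h8, hG], by rw [h9, hG]; linarith,
    by rwa [h10], ?_⟩
  rw [h5, h11]
  have := min_le_right 1 (g ^ 2 * z / 8192)
  linarith

end Pool.Agent.P.MP_77a832_co.EL
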