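import Pool.Agent.P.MP_77a832_co.EL.BIface

/-! Step PICK. -/

set_option autoImplicit false

namespace Pool.Agent.P.MP_77a832_co.EL

open Finset Real Pool.Agent.P.MP_bf60a1_an.RA
open scoped Classical

namespace PICKc

theorem win {f : ℕ → ℝ} (h : ∀ n, 0 ≤ f n) {K j N : ℕ} (hj : j + K ≤ N) :
    ∑ k ∈ range K, f (k + j) ≤ ∑ n ∈ range N, f n := by
  have h1 := sum_le_sum_of_subset_of_nonneg (f := f) (range_subset_range.2 hj) fun n _ _ => h n
  have h2 : 0 ≤ ∑ n ∈ range j, f n := sum_nonneg fun n _ => h n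
  rw [sum_range_add] at h1
  simp only [add_comm j] at h1
  linarith

theorem win2 {f : ℕ → ℝ} (h : ∀ n, 0 ≤ f n) {K T : ℕ} {c : ℝ}
    (hc : ∑ n ∈ range (K + T), f n ≤ c) : ∑ k ∈ range K, ∑ n ∈ range T, f (k + n) ≤ T * c := by
  rw [sum_comm]
  simpa using sum_le_card_nsmul (range T) (fun n => ∑ k ∈ range K, f (k + n)) c fun n hn =>
    (win h (by have := mem_range.1 hn; omega)).trans hc

theorem tail {f : ℕ → ℝ} (h : ∀ n, f n ≤ 1) (K T : ℕ) :
    ∑ n ∈ range (K + T), f n ≤ ∑ k ∈ range K, f k + T := by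
  rw [sum_range_add]
  simpa using sum_le_card_nsmul (range T) _ 1 fun n _ => h (K + n)

end PICKc

theorem p_PICK (hSFT : S_SFT) (hG0 : S_G0) :
    S_PICK := by
  intro Ω α β _ D p nB g o hS hR hB g0 g1 gκ hg1 hc0 hΛ hz hN hpiv
  have hT : (p.T : ℝ) = (p.Λ + 3) * p.N := by simp only [Par.T, Par.J]; push_cast; ring
  have hT0 : (0 : ℝ) < p.T := by
    have := o.hN
    exact_mod_cast (show 0 < p.T by unfold Par.T; omega)
  have hR0 : (0 : ℝ) < p.R := by exact_mod_cast Nat.mul_pos o.Λ1 o.N11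
  rw [mul_assoc, ← hT] at hN
  have z0 := o.z0
  have ζ0 := o.ζ0
  have n0 : (0 : ℝ) ≤ nB := Nat.cast_nonneg _
  have gg : g ^ 2 ≤ 1 := pow_le_one₀ g0.le g1
  have t1 : 1024 * (p.T : ℝ) ≤ g ^ 2 * nB := hN.trans (by
    have := o.ζ1
    gcongr
    exact mul_le_of_le_one_right (by positivity) this)
  have t2 : 1024 * (p.T : ℝ) ≤ p.ζ * nB := hN.trans (by
    gcongr
    exact mul_le_of_le_one_left ζ0.le gg)
  have G := hG0 _ _ _ D p nB g o hS hB g0 g1 gκ hg1 hΛ (by rwa [mul_assoc, ← hT])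
  obtain ⟨K, rfl⟩ := exists_add_of_le (show p.T ≤ nB by
    have : (p.T : ℝ) ≤ nB := by nlinarith
    exact_mod_cast this)
  rw [add_comm p.T K] at *
  by_contra hc
  push Not at hc
  let a1 := fun k => ∑ n ∈ range p.T, D.Q.pr fun ω => ¬ D.live (k + n) ω
  let a2 := fun k => ∑ n ∈ range p.T, D.Q.pr fun ω => ¬ D.clean (k + n) ω
  let a3 := fun k => ∑ n ∈ range p.T, D.Q.pr fun ω => ¬ D.ok (k + n) ω
  let a4 := fun k => ∑ n ∈ range p.T, D.Q.pr fun ω => ¬ D.shr p.I p.η (k + n) ω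
  let a5 := fun k => ∑ r ∈ range p.R, D.Q.pr fun ω =>
    (∀ n ∈ p.grp r, ¬ D.AG0 (k + n) ω) ∧ ∃ n < p.T, D.AG0 (k + n) ω
  have key : ∀ k ∈ range K, D.Q.pr ((D.shift k).G0 p) ≤
      p.c0 + (a1 k + a2 k + a3 k + a4 k) / (p.z1 * p.T) + a5 k / (p.z1 * p.R) := fun k hk => by
    by_contra hh
    have b1 : 0 ≤ a1 k := sum_nonneg fun _ _ => D.Q.pr_nonneg _
    have b2 : 0 ≤ a2 k := sum_nonneg fun _ _ => D.Q.pr_nonneg _
    have b3 : 0 ≤ a3 k := sum_nonneg fun _ _ => D.Q.pr_nonneg _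
    have b4 : 0 ≤ a4 k := sum_nonneg fun _ _ => D.Q.pr_nonneg _
    have b5 : 0 ≤ a5 k := sum_nonneg fun _ _ => D.Q.pr_nonneg _
    have c1 : 0 ≤ (a1 k + a2 k + a3 k + a4 k) / (p.z1 * p.T) := by positivity
    have c2 : 0 ≤ a5 k / (p.z1 * p.R) := by positivity
    have c3 := D.Q.pr_le_one ((D.shift k).G0 p)
    have c4 := o.c00
    have c5 := (div_le_one (by positivity)).1
      (show (a1 k + a2 k + a3 k + a4 k) / (p.z1 * p.T) ≤ 1 by linarith)
    have c6 := (div_le_one (by positivity)).1 (show a5 k / (p.z1 * p.R) ≤ 1 by linarith)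
    exact hc k ⟨o, hSFT _ _ _ D _ _ _ _ k _ _ (by have := mem_range.1 hk; omega) hS⟩
      ⟨⟨show a1 k ≤ _ by linarith, show a2 k ≤ _ by linarith, show a3 k ≤ _ by linarith,
        show a4 k ≤ _ by linarith⟩, c6, show p.c0 ≤ D.Q.pr _ by linarith⟩
  have s1 : ∑ k ∈ range K, a1 k ≤ _ := PICKc.win2
    (f := fun n => D.Q.pr fun ω => ¬ D.live n ω) (fun _ => D.Q.pr_nonneg _) hR.live
  have s2 : ∑ k ∈ range K, a2 k ≤ _ := PICKc.win2
    (f := fun n => D.Q.pr fun ω => ¬ D.clean n ω) (fun _ => D.Q.pr_nonneg _) hR.clean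
  have s3 : ∑ k ∈ range K, a3 k ≤ _ := PICKc.win2
    (f := fun n => D.Q.pr fun ω => ¬ D.ok n ω) (fun _ => D.Q.pr_nonneg _) hR.ok
  have s4 : ∑ k ∈ range K, a4 k ≤ _ := PICKc.win2
    (f := fun n => D.Q.pr fun ω => ¬ D.shr p.I p.η n ω) (fun _ => D.Q.pr_nonneg _) hR.shr
  have s5 : ∑ k ∈ range K, a5 k ≤ p.R * (2 * (p.ζ * (K + p.T : ℕ))) := by
    rw [sum_comm]
    refine le_trans (sum_le_card_nsmul _ _ (2 * (p.ζ * (K + p.T : ℕ))) fun r hr => ?_) (by simp)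
    have hr' : r * p.L + p.L ≤ p.T := by
      rw [← Nat.succ_mul]
      refine (Nat.mul_le_mul_right _ (mem_range.1 hr)).trans ?_
      simp only [Par.T, Par.J, Par.R, Par.N]
      nlinarith
    have hL := o.hL
    have u1 := PICKc.win (f := fun n => D.Q.pr fun ω => ∀ i < p.L', ¬ D.AG0 (n + i) ω)
      (fun _ => D.Q.pr_nonneg _) (show r * p.L + K ≤ K + p.T by omega)
    have u2 := PICKc.tail (f := fun n => D.Q.pr fun ω => ∀ i < p.T, ¬ D.AG0 (n + i) ω)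
      (fun _ => D.Q.pr_le_one _) K p.T
    have u3 : ∀ k ∈ range K, (D.Q.pr fun ω =>
        (∀ n ∈ p.grp r, ¬ D.AG0 (k + n) ω) ∧ ∃ n < p.T, D.AG0 (k + n) ω) ≤
        (D.Q.pr fun ω => ∀ i < p.L', ¬ D.AG0 (k + r * p.L + i) ω) -
          D.Q.pr fun ω => ∀ i < p.T, ¬ D.AG0 (k + i) ω := fun k _ => by
      unfold FP.pr
      rw [← FP.E_sub]
      refine D.Q.E_mono fun ω _ => ?_
      by_cases h : ∀ i < p.T, ¬ D.AG0 (k + i) ω
      · rw [ind_pos h, ind_neg (by rintro ⟨-, n, h1, h2⟩; exact h n h1 h2), ind_pos, sub_self]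
        exact fun i hi => add_assoc k _ i ▸ h _ (by omega)
      · rw [ind_neg h, sub_zero]
        exact ind_mono fun h' i hi => add_assoc k _ i ▸ h'.1 _ (mem_Ico.2 (by omega))
    have u4 := sum_le_sum u3
    rw [sum_sub_distrib] at u4
    unfold PD.piv at hpiv
    linarith
  have k1 := sum_le_sum key
  simp only [sum_add_distrib, ← sum_div, sum_const, card_range, nsmul_eq_mul] at k1
  have k2 := PICKc.tail (f := fun k => D.Q.pr ((D.shift k).G0 p)) (fun _ => D.Q.pr_le_one _) K p.T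
  have k3 : (∑ k ∈ range K, a1 k + ∑ k ∈ range K, a2 k + ∑ k ∈ range K, a3 k +
      ∑ k ∈ range K, a4 k) / (p.z1 * p.T) ≤ 4 * (g ^ 2 * (K + p.T : ℕ) / 8192) := by
    rw [div_le_iff₀ (by positivity)]
    nlinarith [mul_le_mul_of_nonneg_right hz (mul_nonneg n0 hT0.le)]
  have k4 : (∑ k ∈ range K, a5 k) / (p.z1 * p.R) ≤ 2 * (g ^ 2 * (K + p.T : ℕ) / 8192) := by
    rw [div_le_iff₀ (by positivity)]
    nlinarith [mul_le_mul_of_nonneg_right hz (mul_nonneg n0 hR0.le)]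
  have k5 : (K : ℝ) * p.c0 ≤ (K + p.T : ℕ) * (g ^ 2 / 512) := by
    have := o.c00
    gcongr
    omega
  linarith

end Pool.Agent.P.MP_77a832_co.EL
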