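import Pool.Agent.P.MP_77a832_co.EL.BIface
import Pool.Agent.P.MP_77a832_co.EL.BudEnt

/-! Step PINS. -/

set_option autoImplicit false

namespace Pool.Agent.P.MP_77a832_co.EL

open Finset Real Pool.Agent.P.MP_bf60a1_an.RA
open scoped Classical

namespace PINSc

end PINSc

theorem p_PINS (hCP : S_CP) :
    S_PINS := by
  intro Ω β γ _ P T F G C ev e he h1 h2
  refine (Bud.pr_not_Prd P he T F h1 h2).trans (mul_le_mul_of_nonneg_right ?_ (sub_nonneg.2 ?_))
  · gcongr; norm_num
  · exact Bud.Hw_mono_right P T (fun a b ha hb e => congrArg ind (h2 a b ha hb e))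
      (fun _ _ => ind_nonneg _) fun a b ha hb e => h1 a b ha hb (congrArg Prod.snd e)

end Pool.Agent.P.MP_77a832_co.EL
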