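import Pool.Agent.P.MP_77a832_co.EL.BIface

/-! Step RCT. -/

set_option autoImplicit false

namespace Pool.Agent.P.MP_77a832_co.EL

open Finset Real Pool.Agent.P.MP_bf60a1_an.RA
open scoped Classical

namespace RCTc

theorem one (hCP : S_CP) (hFLR : S_FLR) (hSEQ : S_SEQ) {Ω α β : Type} [Fintype Ω] {D : PD Ω α β}
    {p : Par} (hD : D.Ok p) (σ σ' : ℝ) (A y : ℕ) (ω : Ω) :
    (((range A).filter fun u => D.flo p (D.At p σ σ' u y) ω ∧
      cq D.Q (D.Tt p σ u) (D.At p σ σ' u y) ω < p.θ1).card : ℝ) ≤ p.rr p.θ1 := by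
  have hω := hD.str.pos ω
  have c0 := D.Q.cl_pos (D.Nd 0) hω
  have t0 := hD.ok.θ10
  have t1 : p.θ1 < 1 := by linarith [hD.ok.θ11]
  have hd : ∀ u, D.Q.Det (D.At p σ σ' (u + p.m) y) fun z => (D.Tt p σ u z, D.At p σ σ' u y z) := by
    intro u z z' _ _ e
    simp only [PD.At, PD.Tt, Prod.mk.injEq] at e ⊢
    refine ⟨e.1, (hFLR _ _ u p.m).1 e.1, e.2.1, (hFLR _ _ (u + p.m + y) p.m).1 ?_⟩
    rw [add_right_comm (u + p.m) y]
    exact e.2.2
  have h := hSEQ (fun u => D.Q.cl (D.At p σ σ' u y) ω / D.Q.cl (D.Nd 0) ω) p.m A p.θ1 p.f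
    (by rw [Par.m]; omega) t0 t1 (by rw [Par.f]; positivity)
    (pow_le_one₀ (by norm_num) (by norm_num))
    (fun u => (div_le_one c0).2 (D.Q.cl_mono (fun _ _ _ _ e => congrArg (·.2.1.1) e) hω))
    fun u => div_le_div_of_nonneg_right (D.Q.cl_mono
      (fun z z' a b e => congrArg Prod.snd (hd u z z' a b e)) hω) c0.le
  refine le_trans (Nat.cast_le.2 (card_le_card fun u hu => ?_)) (h.trans ?_)
  · obtain ⟨h1, h2, h3⟩ := mem_filter.1 hu
    refine mem_filter.2 ⟨h1, (le_div_iff₀ c0).2 h2, ?_⟩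
    rw [(hCP Ω ℤ _ ℕ D.Q _).2.2.2.2.2.1, div_lt_iff₀ (D.Q.cl_pos _ hω)] at h3
    rw [← mul_div_assoc]
    exact div_le_div_of_nonneg_right ((D.Q.cl_mono (hd u) hω).trans h3.le) c0.le
  · refine mul_le_mul_of_nonneg_left (add_le_add_left ?_ _) (Nat.cast_nonneg _)
    rw [← neg_div_neg_eq, Par.f, log_pow, one_div, log_inv, mul_neg, neg_neg]
    refine div_le_div_of_nonneg_right ?_ (neg_nonneg.2 (log_nonpos t0.le t1.le))
    push_cast
    exact mul_le_of_le_one_right (by positivity) (by linarith [log_two_lt_d9])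

end RCTc

theorem p_RCT (hCP : S_CP) (hFLR : S_FLR) (hSEQ : S_SEQ) (hYC : S_YC) (hCHN : S_CHN) (hELL : S_ELL) :
    S_RCT := by
  intro Ω α β _ D p hD σ σ' A r hr ω
  have hT : ∀ n ∈ p.grp r, n < p.T := fun n hn => by
    have := (((hCHN _ _ _ D p hD).2.2.2.2.1 r hr).2 n hn).1
    rw [Par.T]; omega
  choose! F h1 h2 using fun n hn => hYC _ _ _ D p hD n (hT n hn) ω
  have h0 : 0 ≤ p.rr p.θ1 := (Nat.cast_nonneg _).trans (RCTc.one hCP hFLR hSEQ hD σ σ' A 0 ω)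
  have hs := card_le_card (show ((range A).filter fun u => ∃ n ∈ p.grp r, ∃ y, D.cnd p n y ω ∧
      D.flo p (D.At p σ σ' u y) ω ∧ cq D.Q (D.Tt p σ u) (D.At p σ σ' u y) ω < p.θ1) ⊆
      (p.grp r).biUnion fun n => (F n).biUnion fun y => (range A).filter fun u =>
        D.flo p (D.At p σ σ' u y) ω ∧ cq D.Q (D.Tt p σ u) (D.At p σ σ' u y) ω < p.θ1 from
    fun u hu => by
      obtain ⟨a, n, hn, y, b, c⟩ := mem_filter.1 hu
      exact mem_biUnion.2 ⟨n, hn, mem_biUnion.2 ⟨y, h2 n hn y b, mem_filter.2 ⟨a, c⟩⟩⟩)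
  refine (Nat.cast_le.2 (hs.trans card_biUnion_le)).trans ?_
  rw [Nat.cast_sum]
  refine (sum_le_card_nsmul _ _ (16 ^ p.κ * p.rr p.θ1) fun n hn => ?_).trans
    (by simp [Par.grp, mul_assoc])
  refine (Nat.cast_le.2 card_biUnion_le).trans ?_
  rw [Nat.cast_sum]
  refine (sum_le_card_nsmul _ _ _ fun y _ => RCTc.one hCP hFLR hSEQ hD σ σ' A y ω).trans ?_
  rw [nsmul_eq_mul]
  exact mul_le_mul_of_nonneg_right (h1 n hn) h0

end Pool.Agent.P.MP_77a832_co.EL
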