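import Pool.Agent.P.MP_77a832_co.EL.BIface

/-! Step RES1. -/

set_option autoImplicit false

namespace Pool.Agent.P.MP_77a832_co.EL

open Finset Real Pool.Agent.P.MP_bf60a1_an.RA
open scoped Classical

namespace RES1c

theorem half {Ω : Type} [Fintype Ω] (P : FP Ω) (s : Ω → Prop) (B : Ω → Ω → Prop)
    (h : ∀ ω z, s ω → s z → B ω z) : (P.E fun ω => ind (s ω) / P.pr (B ω)) ≤ 1 := by
  refine le_trans (P.E_mono (g := fun ω => ind (s ω) / P.pr s) fun ω hω => ?_) ?_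
  · by_cases hs : s ω
    · exact div_le_div_of_nonneg_left (ind_nonneg _) (P.pr_pos hω hs)
        (P.pr_mono fun z _ hz => h ω z hs hz)
    · simp [ind_neg hs]
  · rw [P.E_div]
    exact div_self_le_one _

theorem two {Ω β : Type} [Fintype Ω] (P : FP Ω) (V : Ω → β) (pj : Ω → ℝ) (h : ℝ) (z : Ω) :
    (P.E fun ω => ind (V z = V ω ∧ |pj z - pj ω| ≤ h) /
      P.pr fun v => V v = V ω ∧ |pj v - pj ω| ≤ h) ≤ 2 := by
  have h1 := half P (fun ω => V z = V ω ∧ pj z - h ≤ pj ω ∧ pj ω ≤ pj z)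
    (fun ω v => V v = V ω ∧ |pj v - pj ω| ≤ h) fun ω v a b =>
      ⟨b.1.symm.trans a.1, abs_le.2 ⟨by linarith [a.2.2, b.2.1], by linarith [a.2.1, b.2.2]⟩⟩
  have h2 := half P (fun ω => V z = V ω ∧ pj z ≤ pj ω ∧ pj ω ≤ pj z + h)
    (fun ω v => V v = V ω ∧ |pj v - pj ω| ≤ h) fun ω v a b =>
      ⟨b.1.symm.trans a.1, abs_le.2 ⟨by linarith [a.2.2, b.2.1], by linarith [a.2.1, b.2.2]⟩⟩
  refine le_trans ?_ ((add_le_add h1 h2).trans (by norm_num))
  rw [← P.E_add]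
  refine P.E_mono fun ω _ => ?_
  rw [← add_div]
  refine div_le_div_of_nonneg_right ((ind_mono fun a => ?_).trans (ind_or_le _ _)) (P.pr_nonneg _)
  obtain ⟨a1, a2⟩ := abs_le.1 a.2
  rcases le_total (pj ω) (pj z) with c | c
  · exact .inl ⟨a.1, by linarith, c⟩
  · exact .inr ⟨a.1, c, by linarith⟩

end RES1c

theorem p_RES1 :
    S_RES1 := by
  intro Ω β _ P V φ pj b h _ hφ hb hd
  have e : (P.E fun ω => φ ω * ((P.E fun z => ind (V z = V ω ∧ |pj z - pj ω| ≤ h) * b z) /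
      P.pr fun z => V z = V ω ∧ |pj z - pj ω| ≤ h)) =
      P.E fun ω => P.E fun z => φ z * b z * (ind (V z = V ω ∧ |pj z - pj ω| ≤ h) /
        P.pr fun v => V v = V ω ∧ |pj v - pj ω| ≤ h) := P.E_congr fun ω hω => by
    rw [← P.E_div, ← P.E_mul_left]
    refine P.E_congr fun z hz => ?_
    by_cases c : V z = V ω ∧ |pj z - pj ω| ≤ h
    · rw [hd z ω hz hω c.1]; ring
    · simp [ind_neg c]
  rw [e, P.E_comm, ← P.E_mul_left]
  refine P.E_mono fun z _ => ?_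
  rw [P.E_mul_left, mul_comm 2]
  exact mul_le_mul_of_nonneg_left (RES1c.two P V pj h z) (mul_nonneg (hφ z) (hb z))

end Pool.Agent.P.MP_77a832_co.EL
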