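import Pool.Agent.P.MP_77a832_co.EL.BIface

/-! Step RES2. -/

set_option autoImplicit false

namespace Pool.Agent.P.MP_77a832_co.EL

open Finset Real Pool.Agent.P.MP_bf60a1_an.RA
open scoped Classical

namespace RES2c

theorem half {Ω : Type} [Fintype Ω] (P : FP Ω) (S : Ω → Prop) (B : Ω → Ω → Prop)
    (h : ∀ ω z, S ω → S z → B ω z) : (P.E fun ω => ind (S ω) / P.pr (B ω)) ≤ 1 := by
  refine (P.E_mono (g := fun ω => ind (S ω) / P.pr S) fun ω hω => ?_).trans ?_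
  · by_cases c : S ω
    · exact div_le_div_of_nonneg_left (ind_nonneg _) (P.pr_pos hω c)
        (P.pr_mono fun z _ => h ω z c)
    · simp [ind_neg c]
  · rw [P.E_div]
    exact div_self_le_one _

theorem main {Ω β : Type} [Fintype Ω] (P : FP Ω) (V : Ω → β) (pj : Ω → ℝ) (ev Bd : Ω → Prop)
    {h δ : ℝ} (h0 : 0 ≤ h) (hδ : 0 < δ) (hV : P.Det V ev) (h1 : ∀ ω, Bd ω → ev ω)
    (h2 : ∀ ω, Bd ω → (P.pr fun z => (V z = V ω ∧ |pj z - pj ω| ≤ h) ∧ Bd z) ≤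
      δ * P.pr fun z => V z = V ω ∧ |pj z - pj ω| ≤ h) : P.pr Bd ≤ 2 * δ * P.pr ev := by
  refine (P.E_mono (g := fun ω => δ * P.E fun z => ind (Bd ω ∧ V z = V ω ∧ |pj z - pj ω| ≤ h) /
    P.pr fun y => (V y = V ω ∧ |pj y - pj ω| ≤ h) ∧ Bd y) fun ω hω => ?_).trans ?_
  · by_cases c : Bd ω
    · simp only [c, true_and]
      rw [ind_pos trivial, P.E_div, ← mul_div_assoc,
        one_le_div (P.pr_pos hω ⟨⟨rfl, by simpa using h0⟩, c⟩)]
      exact h2 ω c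
    · rw [ind_neg c]
      exact mul_nonneg hδ.le (P.E_nonneg fun _ _ => div_nonneg (ind_nonneg _) (P.pr_nonneg _))
  rw [P.E_mul_left, P.E_comm, mul_comm 2, mul_assoc, FP.pr, ← P.E_mul_left 2]
  refine mul_le_mul_of_nonneg_left (P.E_mono fun z hz => ?_) hδ.le
  by_cases c : ev z
  · have a := half P (fun ω => Bd ω ∧ V z = V ω ∧ 0 ≤ pj z - pj ω ∧ pj z - pj ω ≤ h)
      (fun ω y => (V y = V ω ∧ |pj y - pj ω| ≤ h) ∧ Bd y) fun ω y p q =>
        ⟨⟨q.2.1.symm.trans p.2.1, abs_le.2 ⟨by linarith [p.2.2.1, q.2.2.2],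
          by linarith [p.2.2.2, q.2.2.1]⟩⟩, q.1⟩
    have b := half P (fun ω => Bd ω ∧ V z = V ω ∧ -h ≤ pj z - pj ω ∧ pj z - pj ω ≤ 0)
      (fun ω y => (V y = V ω ∧ |pj y - pj ω| ≤ h) ∧ Bd y) fun ω y p q =>
        ⟨⟨q.2.1.symm.trans p.2.1, abs_le.2 ⟨by linarith [p.2.2.1, q.2.2.2],
          by linarith [p.2.2.2, q.2.2.1]⟩⟩, q.1⟩
    rw [ind_pos c, mul_one, ← one_add_one_eq_two]
    refine le_trans ?_ (add_le_add a b)
    rw [← P.E_add]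
    refine P.E_mono fun ω _ => ?_
    rw [← add_div]
    refine div_le_div_of_nonneg_right ((ind_mono fun p => ?_).trans (ind_or_le _ _))
      (P.pr_nonneg _)
    exact (le_total 0 (pj z - pj ω)).imp (fun q => ⟨p.1, p.2.1, q, (abs_le.1 p.2.2).2⟩)
      fun q => ⟨p.1, p.2.1, (abs_le.1 p.2.2).1, q⟩
  · rw [ind_neg c, mul_zero]
    refine P.E_le fun ω hω => ?_
    rw [ind_neg, zero_div]
    exact fun p => c (hV z ω hz hω p.2.1 ▸ h1 ω p.1)

end RES2c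

theorem p_RES2 :
    S_RES2 := fun _ _ _ P V pj ev _ _ _ h0 hδ hV =>
  RES2c.main P V pj ev _ h0 hδ hV (fun _ a => a.1) fun _ a =>
    le_trans (P.pr_mono fun _ _ b => ⟨b.1, b.2.2.1⟩) a.2.2.le

end Pool.Agent.P.MP_77a832_co.EL
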