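import Pool.Agent.P.MP_77a832_co.EL.BIface

/-! Step RNG. -/

set_option autoImplicit false

namespace Pool.Agent.P.MP_77a832_co.EL

open Finset Real Pool.Agent.P.MP_bf60a1_an.RA
open scoped Classical

namespace RNGc

theorem bd {ι : Type} [Finite ι] (c : ι → ℝ) :
    ∃ A : ℕ, ∀ i u, 0 < c i → c i ≤ (1 / 2) ^ u → u < A := by
  have h : ∀ i, ∃ A : ℕ, ∀ u, 0 < c i → c i ≤ (1 / 2) ^ u → u < A := fun i => by
    by_cases h0 : 0 < c i
    · obtain ⟨n, hn⟩ := exists_pow_lt_of_lt_one h0 (by norm_num : (1 / 2 : ℝ) < 1)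
      refine ⟨n, fun u _ hu => ?_⟩
      exact (pow_lt_pow_iff_right_of_lt_one₀ (by norm_num) (by norm_num)).1 (hn.trans_le hu)
    · exact ⟨0, fun u h => absurd h h0⟩
  choose f hf using h
  obtain ⟨A, hA⟩ := (Set.finite_range f).bddAbove
  exact ⟨A, fun i u a b => (hf i u a b).trans_le (hA ⟨i, rfl⟩)⟩

end RNGc

theorem p_RNG :
    S_RNG := by
  intro Ω α β _ D p _
  obtain ⟨A, hA⟩ := RNGc.bd fun w : Ω × Ω => 2 ^ p.a * |D.xx w.1 - D.xx w.2|
  obtain ⟨B, hB⟩ := RNGc.bd fun w : Fin p.T × Ω × Ω => D.gap w.1 w.2.1 w.2.2 / 32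
  refine ⟨max A B, fun u ω z h => lt_max_of_lt_left (hA (ω, z) u ?_ h.1),
    fun n hn y ω z h => lt_max_of_lt_right ((Nat.le_add_right y p.q).trans_lt
      (hB (⟨n, hn⟩, ω, z) _ ?_ ?_))⟩
  · have := (by positivity : (0 : ℝ) < (1 / 2) ^ u).trans h.2
    rw [pow_succ] at this
    show 0 < 2 ^ p.a * |D.xx ω - D.xx z|
    linarith
  · exact div_pos (lt_of_lt_of_le (by positivity) h.1) (by norm_num)
  · have := h.2
    show D.gap n ω z / 32 ≤ _
    linarith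

end Pool.Agent.P.MP_77a832_co.EL
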