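import Pool.Agent.P.MP_77a832_co.EL.BIface

/-! Step SCL. -/

set_option autoImplicit false

namespace Pool.Agent.P.MP_77a832_co.EL

open Finset Real Pool.Agent.P.MP_bf60a1_an.RA
open scoped Classical

namespace SCLc

theorem small {ι : Type} [Fintype ι] (f : ι → ℝ) {t : ℝ} (ht : 0 < t) :
    ∃ c : ℝ, 0 < c ∧ ∀ i, c * f i ≤ t := by
  have hS : 0 < ∑ i, |f i| + 1 := by positivity
  refine ⟨t / (∑ i, |f i| + 1), by positivity, fun i => ?_⟩
  rw [div_mul_eq_mul_div, div_le_iff₀ hS]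
  have := single_le_sum (f := fun i => |f i|) (fun i _ => abs_nonneg _) (mem_univ i)
  exact mul_le_mul_of_nonneg_left (by linarith [le_abs_self (f i)]) ht.le

variable {Ω α β : Type} [Fintype Ω] (D : PD Ω α β) {b c : ℝ}

theorem xx_sc (ω : Ω) : (D.scale b c).xx ω = b * D.xx ω := rfl
theorem yy_sc (ω : Ω) : (D.scale b c).yy ω = b * c * D.yy ω := rfl
theorem lo_sc (n : ℕ) (ω : Ω) : (D.scale b c).lo n ω = c * D.lo n ω := rfl
theorem hi_sc (n : ℕ) (ω : Ω) : (D.scale b c).hi n ω = c * D.hi n ω := rfl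
theorem lo2_sc (n : ℕ) (ω : Ω) : (D.scale b c).lo2 n ω = c * D.lo2 n ω := rfl
theorem hi2_sc (n : ℕ) (ω : Ω) : (D.scale b c).hi2 n ω = c * D.hi2 n ω := rfl
theorem len_sc (n : ℕ) (ω : Ω) : (D.scale b c).len n ω = c * D.len n ω := (mul_sub _ _ _).symm
theorem gap_sc (hc : 0 < c) (n : ℕ) (ω z : Ω) : (D.scale b c).gap n ω z = c * D.gap n ω z := by
  rw [PD.gap, PD.gap, mul_max_of_nonneg _ _ hc.le, mul_sub, mul_sub]; rfl
theorem abs_sc (hb : 0 < b) (ω z : Ω) :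
    |(D.scale b c).xx ω - (D.scale b c).xx z| = b * |D.xx ω - D.xx z| := by
  rw [xx_sc, xx_sc, ← mul_sub, abs_mul, abs_of_pos hb]
theorem shr_sc (hc : 0 < c) (I : ℕ) (η : ℝ) (n : ℕ) (ω : Ω) :
    (D.scale b c).shr I η n ω ↔ D.shr I η n ω := by
  rw [PD.shr, PD.shr, len_sc, len_sc, mul_left_comm, mul_le_mul_iff_right₀ hc]

theorem det_sc {γ : Type} {P : FP Ω} {V : Ω → γ} {f : Ω → ℝ} (h : P.Det V f) (c : ℝ) :
    P.Det V fun ω => c * f ω := fun ω z h1 h2 h3 => congrArg (c * ·) (h ω z h1 h2 h3)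

theorem str_sc (hb : 0 < b) (hc : 0 < c) {nB I κ M : ℕ} {ζ : ℝ} (h : D.Str nB I κ M ζ) :
    (D.scale b c).Str nB I κ M ζ :=
  { h with
    dlo := fun n hn => det_sc (h.dlo n hn) c
    dhi := fun n hn => det_sc (h.dhi n hn) c
    dlo2 := fun n hn => det_sc (h.dlo2 n hn) c
    dhi2 := fun n hn => det_sc (h.dhi2 n hn) c
    nest := fun n hn ω => by
      simpa only [lo_sc, hi_sc, lo2_sc, hi2_sc, mul_le_mul_iff_right₀ hc] using h.nest n hn ω
    sep := fun n hn ω z h1 h2 h3 h4 => by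
      obtain ⟨a1, a2⟩ := h.sep n hn ω z h1 h2 h3 h4
      rw [gap_sc D hc, hi2_sc, lo2_sc, ← mul_sub]
      exact ⟨mul_pos hc a1, mul_le_mul_of_nonneg_left a2 hc.le⟩
    cone := fun l ω z v h1 h2 h3 h4 => by
      obtain ⟨a1, a2⟩ := h.cone l ω z v h1 h2 h3 h4
      refine ⟨fun e => a1 (mul_left_cancel₀ hb.ne' e), fun θ t1 t2 => ?_⟩
      obtain ⟨θ, rfl⟩ : ∃ θ', θ = c * θ' := ⟨θ / c, by field_simp⟩
      have := mul_le_mul_of_nonneg_left (a2 θ (le_of_mul_le_mul_left t1 hc)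
        (le_of_mul_le_mul_left t2 hc)) (mul_pos hb hc).le
      rw [abs_sc D hb, len_sc, xx_sc, xx_sc, yy_sc, yy_sc,
        show b * c * D.yy v - c * θ * (b * D.xx v) - (b * c * D.yy z - c * θ * (b * D.xx z)) =
          b * c * (D.yy v - θ * D.xx v - (D.yy z - θ * D.xx z)) by ring, abs_mul,
        abs_of_pos (mul_pos hb hc)]
      exact this.trans_eq (by ring)
    mult := fun l l' ω ω' z h1 h2 h3 h4 h5 h6 h7 => by
      simp only [xx_sc, mul_lt_mul_iff_right₀ hb] at h7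
      rw [abs_sc D hb, abs_sc D hb, mul_left_comm]
      exact mul_lt_mul_of_pos_left (h.mult l l' ω ω' z h1 h2 h3 h4 h5 h6 h7) hb
    xg := fun l ω z v h1 h2 h3 h4 h5 => by
      rw [abs_sc D hb, abs_sc D hb, mul_left_comm]
      exact mul_le_mul_of_nonneg_left (h.xg l ω z v h1 h2 h3 h4 h5) hb.le }

end SCLc

open SCLc in
theorem p_SCL :
    S_SCL := by
  intro Ω α β _ D p hO hW
  obtain ⟨b, hb, h1⟩ := small (fun w : Ω × Ω => 2 ^ p.a * |D.xx w.1 - D.xx w.2|) one_pos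
  obtain ⟨c, hc, h2⟩ := small (D.len 0) (t := (1 / 2) ^ p.q) (by positivity)
  refine ⟨b, c, ⟨hO.ok, str_sc D hb hc hO.str⟩,
    ⟨⟨hW.rare.live, hW.rare.clean, hW.rare.ok, ?_⟩, hW.tow, hW.g0⟩, fun ω z => ?_, fun ω => ?_⟩
  · simp only [shr_sc D hc]
    exact hW.rare.shr
  · rw [abs_sc D hb, mul_left_comm]
    exact h1 (ω, z)
  · rw [len_sc]
    exact h2 ω

end Pool.Agent.P.MP_77a832_co.EL
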