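import Pool.Agent.P.MP_77a832_co.EL.BIface

/-! Step SELB. -/

set_option autoImplicit false

namespace Pool.Agent.P.MP_77a832_co.EL

open Finset Real Pool.Agent.P.MP_bf60a1_an.RA
open scoped Classical

namespace SELBc

theorem shift_le {f : ℕ → ℝ} (hf : ∀ n, 0 ≤ f n) {a N T : ℕ} (h : a + N ≤ T) :
    ∑ i ∈ range N, f (a + i) ≤ ∑ n ∈ range T, f n := by
  have h1 := sum_le_sum_of_subset_of_nonneg (f := f) (range_mono h) fun n _ _ => hf n
  have h2 : 0 ≤ ∑ n ∈ range a, f n := sum_nonneg fun n _ => hf n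
  rw [sum_range_add] at h1
  linarith

theorem path {Ω α β : Type} [Fintype Ω] {D : PD Ω α β} {p : Par} (hp : p.OK) {ω : Ω}
    (h : D.G0 p ω) : p.g1 * p.N / 2 ≤ ∑ i ∈ range p.N, ind (D.bq (p.J + p.N + i) ω ≤ 2 / 3) := by
  have l2 : 0 < log 2 := log_pos one_lt_two
  have k1 : (0 : ℝ) < p.κ := by exact_mod_cast hp.κ1
  have h0 : log 2 ≤ p.g1 * p.κ * log 2 := le_mul_of_one_le_left l2.le hp.hg
  have h1 : ∀ n, D.bh p.κ n ω ≤ 2 * p.κ * log 2 * ind (D.bq n ω ≤ 2 / 3) + p.g1 * p.κ * log 2 :=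
    fun n => by
      by_cases e : D.bq n ω ≤ 2 / 3
      · rw [ind_pos e, mul_one]
        exact (min_le_right _ _).trans (by linarith)
      · rw [ind_neg e, mul_zero, zero_add]
        have := log_le_log (x := 2⁻¹) (y := D.bq n ω) (by norm_num) (by linarith)
        rw [log_inv] at this
        exact (min_le_left _ _).trans (by linarith)
  have h2 := h.2.trans (sum_le_sum fun i _ => h1 (p.J + p.N + i))
  rw [sum_add_distrib, ← mul_sum, sum_const, card_range, nsmul_eq_mul] at h2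
  refine le_of_mul_le_mul_left (a := 2 * p.κ * log 2) (by linarith) (by positivity)

end SELBc

theorem p_SELB (hCP : S_CP) (hCHN : S_CHN) (hAG0 : S_AG0) :
    S_SELB := by
  intro Ω α β _ D p hD hW
  obtain ⟨-, -, -, -, -, c1, c2, -⟩ := hCHN _ _ _ D p hD
  have hA := hAG0 _ _ _ D p hD
  have hN : (0 : ℝ) < p.N := by
    have := hD.ok.hN
    exact_mod_cast (by omega : 0 < p.N)
  have g0 := hD.ok.g0
  have hlt : ∀ i ∈ range p.N, p.J + p.N + i < p.T := fun i hi => by
    have := mem_range.1 hi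
    omega
  have hB : ∑ i ∈ range p.N, D.Q.pr (fun ω => D.bq (p.J + p.N + i) ω ≤ 2 / 3 ∧
      ¬ D.AG0 (p.J + p.N + i) ω) ≤ 13 * (p.z1 * p.T) := by
    refine (sum_le_sum fun i hi => (hA _ (hlt i hi)).1).trans ?_
    rw [← mul_sum]
    exact mul_le_mul_of_nonneg_left ((SELBc.shift_le (f := fun n => D.Q.pr fun ω => ¬ D.clean n ω)
      (fun _ => D.Q.pr_nonneg _) (by omega)).trans hW.rare.clean) (by norm_num)
  constructor
  · have h1 := D.Q.E_mono (f := fun ω => p.g1 * p.N / 2 * ind (D.G0 p ω ∧ ∀ n < p.T, ¬ D.AG0 n ω))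
      (g := fun ω => ∑ i ∈ range p.N, ind (D.bq (p.J + p.N + i) ω ≤ 2 / 3 ∧
        ¬ D.AG0 (p.J + p.N + i) ω)) fun ω _ => by
      by_cases e : D.G0 p ω ∧ ∀ n < p.T, ¬ D.AG0 n ω
      · rw [ind_pos e, mul_one]
        exact (SELBc.path hD.ok e.1).trans
          (sum_le_sum fun i hi => ind_mono fun h => ⟨h, e.2 _ (hlt i hi)⟩)
      · rw [ind_neg e, mul_zero]
        exact sum_nonneg fun _ _ => ind_nonneg _
    rw [FP.E_mul_left, FP.E_sum] at h1
    have h2 := h1.trans hB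
    rw [le_div_iff₀ (by positivity), FP.pr]
    linarith
  · have h1 := D.Q.E_mono (f := fun ω => p.g1 * p.N / 2 * ind (D.G0 p ω))
      (g := fun ω => ∑ i ∈ range p.N, (ind (D.G0 p ω ∧ D.sel (p.cap + i) ω) +
        ind (D.bq (p.J + p.N + i) ω ≤ 2 / 3 ∧ ¬ D.AG0 (p.J + p.N + i) ω) +
        ind (¬ D.ok (p.cap + i) ω))) fun ω _ => by
      by_cases e : D.G0 p ω
      · rw [ind_pos e, mul_one]
        refine (SELBc.path hD.ok e).trans (sum_le_sum fun i hi => (ind_mono fun h => ?_).trans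
          ((ind_or_le _ _).trans (add_le_add_left (ind_or_le _ _) _)))
        by_cases h1 : D.ok (p.cap + i) ω
        · by_cases h2 : D.AG0 (p.J + p.N + i) ω
          · refine .inl (.inl ⟨e, h1, ?_⟩)
            rw [show p.cap + i + 1 = p.J + p.N + i by omega]
            exact (hA _ (hlt i hi)).2 ω h2
          · exact .inl (.inr ⟨h, h2⟩)
        · exact .inr h1
      · rw [ind_neg e, mul_zero]
        exact sum_nonneg fun _ _ =>
          add_nonneg (add_nonneg (ind_nonneg _) (ind_nonneg _)) (ind_nonneg _)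
    simp only [FP.E_mul_left, FP.E_sum, FP.E_add, sum_add_distrib] at h1
    have h2 := (SELBc.shift_le (f := fun n => D.Q.pr fun ω => ¬ D.ok n ω) (a := p.cap) (N := p.N)
      (fun _ => D.Q.pr_nonneg _) (by omega)).trans hW.rare.ok
    have h3 := mul_le_mul_of_nonneg_left hW.g0 (show 0 ≤ p.g1 * p.N / 2 by positivity)
    simp only [FP.pr] at hB h2 h3 ⊢
    linarith

end Pool.Agent.P.MP_77a832_co.EL
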