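import Pool.Agent.P.MP_77a832_co.EL.BIface

/-! Step SEQ. -/

set_option autoImplicit false

namespace Pool.Agent.P.MP_77a832_co.EL

open Finset Real Pool.Agent.P.MP_bf60a1_an.RA
open scoped Classical

namespace SEQc

theorem one (b : ℕ → ℝ) {θ f : ℝ} (h0 : 0 < θ) (h1 : θ < 1) (hf : 0 < f) (hf1 : f ≤ 1)
    (hb : b 0 ≤ 1) (hm : ∀ k, b (k + 1) ≤ b k) (K : ℕ) :
    (((range K).filter fun k => f ≤ b k ∧ b (k + 1) ≤ θ * b k).card : ℝ) ≤
      log f / log θ + 1 := by
  have hl : log θ < 0 := log_neg h0 h1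
  have key : ∀ K, b K ≤ θ ^ ((range K).filter fun k => f ≤ b k ∧ b (k + 1) ≤ θ * b k).card ∧
      (((range K).filter fun k => f ≤ b k ∧ b (k + 1) ≤ θ * b k).card : ℝ) ≤
        log f / log θ + 1 := by
    intro K
    induction K with
    | zero =>
      have := div_nonneg_of_nonpos (log_nonpos hf.le hf1) hl.le
      refine ⟨by simpa using hb, ?_⟩
      simp only [range_zero, filter_empty, card_empty, Nat.cast_zero]
      linarith
    | succ K ih =>
      rw [range_add_one, filter_insert]
      split_ifs with h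
      · rw [card_insert_of_notMem (by simp), pow_succ']
        refine ⟨h.2.trans (mul_le_mul_of_nonneg_left ih.1 h0.le), ?_⟩
        have h2 := log_le_log hf (h.1.trans ih.1)
        rw [log_pow] at h2
        push_cast
        rw [add_le_add_iff_right, le_div_iff_of_neg hl]
        exact h2
      · exact ⟨(hm K).trans ih.1, ih.2⟩
  exact (key K).2

end SEQc

theorem p_SEQ :
    S_SEQ := by
  intro a m A θ f hm h0 h1 hf hf1 ha hd
  rw [card_eq_sum_card_fiberwise (f := fun u => u % m) (t := range m)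
    (fun u _ => mem_coe.2 (mem_range.2 (Nat.mod_lt u hm)))]
  push_cast
  refine (sum_le_card_nsmul _ _ (log f / log θ + 1) fun j _ => ?_).trans (by simp [mul_add])
  have e : ∀ k, j + (k + 1) * m = j + k * m + m := fun k => by ring
  refine le_trans ?_ (SEQc.one (fun k => a (j + k * m)) h0 h1 hf hf1 (ha _)
    (fun k => by rw [e]; exact hd _) A)
  refine Nat.cast_le.2 (card_le_card_of_injOn (fun u => u / m) (fun u hu => ?_)
    fun u hu v hv huv => ?_)
  · obtain ⟨h2, h3⟩ := mem_filter.1 (mem_coe.1 hu)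
    obtain ⟨h4, h5⟩ := mem_filter.1 h2
    have h6 : j + u / m * m = u := by rw [← h3]; exact Nat.mod_add_div' u m
    refine mem_coe.2 (mem_filter.2 ⟨mem_range.2 ((Nat.div_le_self u m).trans_lt (mem_range.1 h4)), ?_⟩)
    rw [e, h6]
    exact h5
  · have h2 := (mem_filter.1 (mem_coe.1 hu)).2
    have h3 := (mem_filter.1 (mem_coe.1 hv)).2
    have h4 : u / m = v / m := huv
    rw [← Nat.mod_add_div' u m, ← Nat.mod_add_div' v m, h2, h3, h4]

end Pool.Agent.P.MP_77a832_co.EL
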