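import Pool.Agent.P.MP_77a832_co.EL.BIface

/-! Step SFT. -/

set_option autoImplicit false

namespace Pool.Agent.P.MP_77a832_co.EL

open Finset Real Pool.Agent.P.MP_bf60a1_an.RA
open scoped Classical

namespace SFTc

end SFTc

theorem p_SFT :
    S_SFT := by
  intro Ω α β _ D nB I κ M k T ζ hk h
  have a : ∀ n < T, k + n < nB := fun n hn => by omega
  have b : ∀ n ≤ T, k + n ≤ nB := fun n hn => by omega
  have c : ∀ l, l + 2 ≤ T → k + l + 2 ≤ nB := fun n hn => by omega
  exact ⟨h.pos, fun n hn => h.dW _ (a n hn), fun n hn => h.dV1 _ (a n hn),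
    fun n hn => h.dV2 _ (a n hn), fun n hn => h.fW _ (a n hn), fun n hn => h.fV1 _ (a n hn),
    fun n hn => h.fV2 _ (a n hn), fun n hn => h.dlo _ (b n hn), fun n hn => h.dhi _ (b n hn),
    fun n hn => h.dlo2 _ (a n hn), fun n hn => h.dhi2 _ (a n hn), fun n hn => h.nest _ (a n hn),
    fun n hn => h.dN _ (b n hn), fun n hn => h.dNN _ (a n hn), fun n hn => h.dNW _ (b n hn),
    fun n hn => h.fN _ (a n hn), fun n hn => h.dlive _ (a n hn), fun n hn => h.ulive _ (a n hn),
    fun n hn => h.dclean _ (a n hn), fun n hn => h.sep _ (a n hn), fun l => h.tnd (k + l),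
    fun l ω hl => h.tmass (k + l) ω (c l hl), fun l ω z v hl => h.cone (k + l) ω z v (c l hl),
    fun l l' ω ω' z h1 hl => h.mult (k + l) (k + l') ω ω' z (by omega) (c l' hl),
    fun l ω z v hl => h.xg (k + l) ω z v (c l hl)⟩

end Pool.Agent.P.MP_77a832_co.EL
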