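import Pool.Agent.P.MP_77a832_co.EL.BIface

/-! Step SHIFT. -/

set_option autoImplicit false

namespace Pool.Agent.P.MP_77a832_co.EL

open Finset Real Pool.Agent.P.MP_bf60a1_an.RA
open scoped Classical

namespace SHIFTc

theorem cnt (N b : ℕ) (hN : 0 < N) (w t : ℝ) (ht : 0 ≤ t) (s : Finset (Fin (N * b)))
    (hs : ∀ i ∈ s, ∃ j : ℤ, |w - (i : ℕ) / N - j| ≤ t) : (#s : ℝ) ≤ (2 * t * N + 1) * b := by
  have hN' : (0 : ℝ) < N := by exact_mod_cast hN
  have h1 : #s ≤ #(Icc ⌈w * N - t * N⌉ ⌊w * N + t * N⌋ ×ˢ range b) := by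
    refine card_le_card_of_forall_subsingleton
      (fun (i : Fin (N * b)) (z : ℤ × ℕ) => (N : ℤ) ∣ z.1 - (i : ℕ) ∧ (i : ℕ) / N = z.2)
      (fun i hi => ?_) fun z _ => ?_
    · obtain ⟨j, hj⟩ := hs i hi
      refine ⟨((i : ℕ) + N * j, (i : ℕ) / N), mem_product.2 ⟨mem_Icc.2 ⟨?_, ?_⟩, ?_⟩, by simp, rfl⟩
      · rw [Int.ceil_le]
        have := mul_le_mul_of_nonneg_right (abs_le.1 hj).2 hN'.le
        rw [sub_mul, sub_mul, div_mul_cancel₀ _ hN'.ne'] at this
        push_cast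
        linarith
      · rw [Int.le_floor]
        have := mul_le_mul_of_nonneg_right (abs_le.1 hj).1 hN'.le
        rw [sub_mul, sub_mul, div_mul_cancel₀ _ hN'.ne'] at this
        push_cast
        linarith
      · exact mem_range.2 (Nat.div_lt_of_lt_mul i.2)
    · rintro i ⟨-, a1, a2⟩ i' ⟨-, b1, b2⟩
      have c : (N : ℤ) ∣ (i' : ℕ) - (i : ℕ) := by simpa using dvd_sub a1 b1
      have d : (i : ℕ) % N = (i' : ℕ) % N := (Nat.modEq_iff_dvd).2 c
      refine Fin.ext ?_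
      rw [← Nat.div_add_mod i N, ← Nat.div_add_mod i' N, a2, b2, d]
  have h2 : (#(Icc ⌈w * N - t * N⌉ ⌊w * N + t * N⌋) : ℝ) ≤ 2 * t * N + 1 := by
    rw [Int.card_Icc]
    rcases le_total 0 (⌊w * N + t * N⌋ + 1 - ⌈w * N - t * N⌉) with h | h
    · rw [← Int.cast_natCast, Int.toNat_of_nonneg h]
      push_cast
      linarith [Int.floor_le (w * N + t * N), Int.le_ceil (w * N - t * N)]
    · rw [Int.toNat_of_nonpos h, Nat.cast_zero]
      positivity
  rw [card_product, card_range] at h1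
  exact le_trans (by exact_mod_cast h1) (mul_le_mul_of_nonneg_right h2 b.cast_nonneg)

theorem pr_le (n N b : ℕ) [NeZero n] (hn : n = N * b) (v t : ℝ) (k : ℕ) (hb : b = 2 ^ k)
    (ht : 0 ≤ t) (h : 1 ≤ t * N) :
    ((FP.unif n).pr fun i => near (v - (i : ℕ) / n) k t) ≤ 3 * t := by
  subst hn
  have hN : 0 < N := Nat.pos_of_ne_zero fun e => by simp [e] at h; linarith
  have hN' : (0 : ℝ) < N := by exact_mod_cast hN
  have hb' : (b : ℝ) = 2 ^ k := by exact_mod_cast hb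
  have := cnt N b hN (v * 2 ^ k) t ht
    (univ.filter fun i : Fin (N * b) => near (v - (i : ℕ) / (N * b : ℕ)) k t) fun i hi => by
      obtain ⟨j, hj⟩ := (mem_filter.1 hi).2
      refine ⟨j, le_of_eq_of_le ?_ hj⟩
      congr 1
      push_cast
      rw [hb']
      field_simp
  have e : ((FP.unif (N * b)).pr fun i => near (v - (i : ℕ) / (N * b : ℕ)) k t) =
      (#(univ.filter fun i : Fin (N * b) => near (v - (i : ℕ) / (N * b : ℕ)) k t) : ℝ) /
        (N * b : ℕ) := by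
    simp only [FP.pr, FP.E, FP.unif, ind, ← mul_sum, sum_boole]
    ring
  rw [e, div_le_iff₀ (by push_cast; rw [hb']; positivity)]
  refine this.trans ?_
  push_cast
  rw [← mul_assoc]
  exact mul_le_mul_of_nonneg_right (by linarith) b.cast_nonneg

end SHIFTc

theorem p_SHIFT :
    S_SHIFT := by
  intro K t₀ h0
  obtain ⟨m, hm⟩ := exists_nat_ge (1 / t₀)
  have hm0 : 0 < m := by exact_mod_cast (one_div_pos.2 h0).trans_le hm
  have : NeZero (m * 2 ^ K) := ⟨by positivity⟩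
  refine ⟨m * 2 ^ K, FP.unif _, fun i => (i : ℕ) / (m * 2 ^ K : ℕ), fun k hk v t ht => ?_⟩
  refine SHIFTc.pr_le _ (m * 2 ^ (K - k)) (2 ^ k) ?_ v t k rfl (h0.le.trans ht) ?_
  · rw [mul_assoc, ← pow_add, Nat.sub_add_cancel hk]
  · rw [div_le_iff₀ h0] at hm
    have h1 : (m : ℝ) ≤ (m * 2 ^ (K - k) : ℕ) := by
      exact_mod_cast Nat.le_mul_of_pos_right m (by positivity)
    calc (1 : ℝ) ≤ t₀ * m := by linarith
      _ ≤ _ := mul_le_mul ht h1 m.cast_nonneg (h0.le.trans ht)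

end Pool.Agent.P.MP_77a832_co.EL
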