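import Pool.Agent.P.MP_77a832_co.EL.BIface

/-! Step SHK. -/

set_option autoImplicit false

namespace Pool.Agent.P.MP_77a832_co.EL

open Finset Real Pool.Agent.P.MP_bf60a1_an.RA
open scoped Classical

namespace SHKc

theorem key {Ω : Type} [Fintype Ω] (P : FP Ω) (bad s : ℕ → Ω → Prop) (F : ℕ → Finset ℕ)
    [∀ i ω, Decidable (bad i ω)] (T R : ℕ) {c m z : ℝ} (hc : 0 < c) (hm : 0 ≤ m) (hF : ∀ r < R, F r ⊆ range T)
    (hs : ∀ r < R, ∀ ω, s r ω → c ≤ ((F r).filter fun i => bad i ω).card)
    (hn : ∀ n, (((range R).filter fun r => n ∈ F r).card : ℝ) ≤ m)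
    (hz : ∑ n ∈ range T, P.pr (bad n) ≤ z) : ∑ r ∈ range R, P.pr (s r) ≤ m * z / c := by
  have h1 : ∀ ω, ∑ r ∈ range R, ind (s r ω) ≤ m * (∑ n ∈ range T, ind (bad n ω)) / c := fun ω => by
    rw [le_div_iff₀ hc, sum_mul]
    calc ∑ r ∈ range R, ind (s r ω) * c
        ≤ ∑ r ∈ range R, ∑ n ∈ range T, ind (n ∈ F r) * ind (bad n ω) :=
          sum_le_sum fun r hr => by
            by_cases h : s r ω
            · rw [ind_pos h, one_mul]
              refine (hs r (mem_range.1 hr) ω h).trans (le_of_eq ?_)
              rw [card_filter, Nat.cast_sum,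
                ← sum_subset (hF r (mem_range.1 hr)) fun n _ hn => by rw [ind_neg hn, zero_mul]]
              refine sum_congr rfl fun n hn => ?_
              rw [ind_pos hn, one_mul, ind]
              split_ifs <;> simp
            · rw [ind_neg h, zero_mul]
              exact sum_nonneg fun n _ => mul_nonneg (ind_nonneg _) (ind_nonneg _)
      _ ≤ _ := by
          rw [sum_comm, mul_sum]
          refine sum_le_sum fun n _ => ?_
          rw [← sum_mul]
          refine mul_le_mul_of_nonneg_right (le_trans (le_of_eq ?_) (hn n)) (ind_nonneg _)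
          rw [card_filter, Nat.cast_sum]
          refine sum_congr rfl fun r _ => ?_
          rw [ind]
          split_ifs <;> simp
  calc ∑ r ∈ range R, P.pr (s r) = P.E fun ω => ∑ r ∈ range R, ind (s r ω) := (P.E_sum _ _).symm
    _ ≤ P.E fun ω => m * (∑ n ∈ range T, ind (bad n ω)) / c := P.E_mono fun ω _ => h1 ω
    _ ≤ m * z / c := by
      rw [FP.E_div, FP.E_mul_left, FP.E_sum]
      exact div_le_div_of_nonneg_right (mul_le_mul_of_nonneg_left hz hm) hc.le

end SHKc

theorem p_SHK (hCHN : S_CHN) :
    S_SHK := by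
  intro Ω α β _ D p hD hW
  obtain ⟨-, c2, -, c4, c5, c6, -, c8⟩ := hCHN _ _ _ D p hD
  have ok := hD.ok
  have hL : 0 < p.L := by have := ok.L1; have := ok.hL; omega
  have hLr : (0 : ℝ) < p.L := Nat.cast_pos.2 hL
  have hlen : ∀ n ≤ p.T, ∀ ω, 0 ≤ D.len n ω := fun n hn ω =>
    sub_nonneg.2 (c2 n n le_rfl hn ω).2.1
  have hRT : ∀ r < p.R, r * p.L ≤ p.T := fun r hr => by
    have : r * p.L ≤ p.R * p.L := Nat.mul_le_mul_right _ hr.le
    unfold Par.T
    omega
  constructor
  · have := SHKc.key D.Q (fun i ω => ¬ D.shr p.I p.η i ω) (fun r ω => ¬ D.shrk p r ω)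
      (fun r => Ico ((r - 1) * p.L + p.L') (r * p.L)) p.T p.R (mul_pos ok.η0 hLr) zero_le_one
      (fun r hr n hn => mem_range.2 ((mem_Ico.1 hn).2.trans_le (hRT r hr)))
      (fun r hr ω h => by
        by_contra hc
        apply h
        rcases r with _ | r
        · exact Or.inl rfl
        have e : (r + 1 - 1) * p.L + p.L' + (p.L - p.L') = (r + 1) * p.L := by
          have := ok.hL
          rw [Nat.add_sub_cancel, add_mul]
          omega
        have h1 := c4 ((r + 1 - 1) * p.L + p.L') (p.L - p.L') p.c1 ω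
          (by rw [e]; exact hRT _ hr) (by
            rw [e]
            exact_mod_cast ((not_le.1 hc).le.trans ok.hc1))
        rw [e] at h1
        exact Or.inr (h1.trans (mul_le_mul_of_nonneg_right ok.hsh
          (hlen _ (by have := hRT _ hr; omega) ω))))
      (fun n => by
        rw [Nat.cast_le_one]
        refine (card_le_card (t := {n / p.L + 1}) fun r hr => mem_singleton.2 ?_).trans
          (card_singleton _).le
        obtain ⟨h1, h2⟩ := mem_Ico.1 (mem_filter.1 hr).2
        have a1 := (Nat.le_div_iff_mul_le hL).2 ((Nat.le_add_right _ _).trans h1)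
        have a2 := (Nat.div_lt_iff_lt_mul hL).2 h2
        omega)
      hW.rare.shr
    rwa [one_mul] at this
  · have hκ : (p.L : ℝ) ≤ p.κ3 := Nat.cast_le.2 ok.hκL
    have hκ0 : (0 : ℝ) < p.κ3 := hLr.trans_le hκ
    have hlam : ∀ r < p.R, p.lam r ≤ p.T := fun r hr => by have := (c5 r hr).1; omega
    have s0 : 0 ≤ p.sh := rpow_nonneg zero_le_two _
    have s1 : p.sh ≤ 1 := rpow_le_one_of_one_le_of_nonpos one_le_two (by
      have := ok.η1
      have : (0 : ℝ) ≤ p.I := Nat.cast_nonneg _
      nlinarith)
    have := SHKc.key D.Q (fun i ω => ¬ D.shr p.I p.η i ω) (fun r ω => ¬ D.deep p r ω)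
      (fun r => Ico (r * p.L + p.L') (p.lam r)) p.T p.R hκ0
      (by positivity : (0 : ℝ) ≤ 4 * p.κ3 / p.L)
      (fun r hr n hn => mem_range.2 ((mem_Ico.1 hn).2.trans_le (hlam r hr)))
      (fun r hr ω h => by
        by_contra hc
        apply h
        have e : r * p.L + p.L' + (p.L - p.L' + 2 * p.κ3) = p.lam r := by
          have := ok.hL
          rw [Par.lam, add_mul]
          omega
        have h1 := c4 (r * p.L + p.L') (p.L - p.L' + 2 * p.κ3) p.κ3 ω
          (by rw [e]; exact hlam _ hr) (by
            rw [e]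
            exact_mod_cast (not_le.1 hc).le)
        rw [e] at h1
        exact h1.trans (mul_le_mul_of_nonneg_right
          ((pow_le_pow_of_le_one s0 s1 (by omega)).trans ok.hκ3)
          (hlen _ (by have := hlam _ hr; omega) ω)))
      (fun n => by
        have h1 : ((range p.R).filter fun r => n ∈ Ico (r * p.L + p.L') (p.lam r)).card ≤
            2 * p.κ3 / p.L + 2 := by
          refine (card_le_card (t := Icc (n / p.L - (2 * p.κ3 / p.L + 1)) (n / p.L))
            fun r hr => mem_Icc.2 ?_).trans (by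
              rw [Nat.card_Icc]
              generalize 2 * p.κ3 / p.L = k
              generalize n / p.L = l
              omega)
          obtain ⟨h1, h2⟩ := mem_Ico.1 (mem_filter.1 hr).2
          have a1 := (Nat.le_div_iff_mul_le hL).2 ((Nat.le_add_right _ _).trans h1)
          have a3 := Nat.lt_div_mul_add (a := 2 * p.κ3) hL
          have a2 : n / p.L < r + 1 + 2 * p.κ3 / p.L + 1 := (Nat.div_lt_iff_lt_mul hL).2 (by
            rw [Par.lam] at h2
            rw [add_mul, add_mul]
            omega)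
          generalize 2 * p.κ3 / p.L = k at a2 ⊢
          generalize n / p.L = l at a1 a2 ⊢
          omega
        have h2 : ((2 * p.κ3 / p.L : ℕ) : ℝ) ≤ 2 * p.κ3 / p.L := by
          exact_mod_cast Nat.cast_div_le (α := ℝ) (m := 2 * p.κ3) (n := p.L)
        have h3 : (1 : ℝ) ≤ p.κ3 / p.L := (one_le_div hLr).2 hκ
        refine (Nat.cast_le.2 h1).trans ?_
        rw [mul_div_assoc] at h2 ⊢
        push_cast
        linarith)
      hW.rare.shr
    refine this.trans (le_of_eq ?_)
    field_simp

end Pool.Agent.P.MP_77a832_co.EL
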