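import Pool.Agent.P.MP_77a832_co.EL.BIface

/-! Step SQ. -/

set_option autoImplicit false

namespace Pool.Agent.P.MP_77a832_co.EL

open Finset Real Pool.Agent.P.MP_bf60a1_an.RA
open scoped Classical

namespace SQc

theorem sum_le {x : ℕ → ℝ} {c : ℝ} (h : ∀ i, x i ≤ c) (m : ℕ) : ∑ i ∈ range m, x i ≤ m * c := by
  simpa using sum_le_card_nsmul (range m) x c fun i _ => h i

theorem sq_le {x : ℕ → ℝ} (h : ∀ i, 0 ≤ x i ∧ x i ≤ 1) (m : ℕ) :
    (∑ i ∈ range (m + 1), x i) ^ 2 ≤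
      3 * (m + 1) + 2 * ∑ i ∈ range m, (∑ j ∈ range i, x j) * x (i + 1) := by
  induction m with
  | zero => simp; nlinarith [h 0]
  | succ m ih =>
    rw [sum_range_succ _ (m + 1), sum_range_succ _ m, sum_range_succ _ m] at *
    push_cast
    nlinarith [h m, h (m + 1), mul_le_one₀ (h m).2 (h (m + 1)).1 (h (m + 1)).2]

theorem shift {x : ℕ → ℝ} (h : ∀ i, 0 ≤ x i) (n c : ℕ) :
    ∑ k ∈ range n, x k ≤ ∑ k ∈ range c, x k + ∑ k ∈ range n, x (c + k) := by
  rw [← sum_range_add]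
  exact sum_le_sum_of_subset_of_nonneg (range_mono (by omega)) fun i _ _ => h i

theorem blocks (b : ℕ → ℝ) (N Λ : ℕ) :
    ∑ i ∈ range (Λ * N), b i = ∑ j ∈ range Λ, ∑ i ∈ range N, b (j * N + i) := by
  induction Λ with
  | zero => simp
  | succ Λ ih => rw [add_one_mul, sum_range_add, ih, sum_range_succ]

theorem fin {Q Y n Λ N : ℝ} (hΛ : 1 ≤ Λ) (hN : 0 ≤ N) (hn : 0 ≤ n) (hQ : 0 ≤ Q)
    (h : (Λ + 2) ^ 2 * (Q - 2 * (Λ + 2) * N) ≤
      n * (3 * (Λ + 2)) + 2 * ((Λ + 2) * (Λ * N * Λ + Λ * Y))) :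
    Q / 2 - 5 * n / Λ - 4 * (Λ + 2) * N ≤ Y := by
  have h1 : (Λ + 2) * (Q - 2 * (Λ + 2) * N) ≤ n * 3 + 2 * (Λ * N * Λ + Λ * Y) :=
    le_of_mul_le_mul_left (by linarith) (show 0 < Λ + 2 by linarith)
  have h2 : Λ * (5 * n / Λ) = 5 * n := by field_simp
  refine le_of_mul_le_mul_left ?_ (show 0 < Λ by linarith)
  nlinarith [mul_nonneg hN (sub_nonneg.2 hΛ), mul_nonneg hN (sq_nonneg Λ)]

end SQc

open SQc in
theorem p_SQ :
    S_SQ := by
  intro b N Λ n hN hΛ hn hb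
  have hN' : (0 : ℝ) < N := mod_cast hN
  have hn' : (0 : ℝ) < n := mod_cast hn
  have hΛ' : (1 : ℝ) ≤ Λ := mod_cast hΛ
  obtain ⟨β, hβ⟩ : ∃ β : ℕ → ℝ, ∀ k, β k = (∑ i ∈ range N, b (k + i)) / N := ⟨_, fun _ => rfl⟩
  have h01 : ∀ k, 0 ≤ β k ∧ β k ≤ 1 := fun k => by
    rw [hβ, div_le_one hN']
    exact ⟨div_nonneg (sum_nonneg fun i _ => (hb _).1) hN'.le,
      by simpa using sum_le (fun i => (hb (k + i)).2) N⟩
  obtain ⟨Y, hY⟩ : ∃ Y, Y = ∑ k ∈ range n, (∑ i ∈ range (Λ * N), b (k + i)) / (Λ * N) *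
    ((∑ i ∈ range N, b (k + (Λ * N + N + i))) / N) := ⟨_, rfl⟩
  have hY' : Λ * Y = ∑ k ∈ range n, (∑ j ∈ range Λ, β (k + j * N)) * β (k + (Λ + 1) * N) := by
    rw [hY, mul_sum]
    refine sum_congr rfl fun k _ => ?_
    simp only [hβ, ← sum_div, blocks (fun i => b (k + i)), add_assoc, add_one_mul]
    field_simp
  have hY0 : 0 ≤ Λ * Y := hY' ▸ sum_nonneg fun k _ =>
    mul_nonneg (sum_nonneg fun j _ => (h01 _).1) (h01 _).1
  rw [← hY]
  obtain ⟨S, hS⟩ : ∃ S, S = ∑ i ∈ range n, b i := ⟨_, rfl⟩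
  rw [← hS]
  have S0 : 0 ≤ S := hS ▸ sum_nonneg fun i _ => (hb i).1
  have S1 : S ≤ n := by simpa [hS] using sum_le (fun i => (hb i).2) n
  have low : ∀ j ∈ range (Λ + 1 + 1), S - (Λ + 2) * N ≤ ∑ k ∈ range n, β (k + j * N) := by
    intro j hj
    have hj' : (j : ℝ) ≤ Λ + 1 := mod_cast Nat.lt_succ_iff.1 (mem_range.1 hj)
    simp only [hβ, ← sum_div]
    rw [le_div_iff₀ hN', sum_comm, mul_comm, ← nsmul_eq_mul]
    refine le_trans (by simp) (card_nsmul_le_sum _ _ (S - (Λ + 2) * N) fun i hi => ?_)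
    have h1 := shift (fun i => (hb i).1) n (j * N + i)
    have h2 := sum_le (fun i => (hb i).2) (j * N + i)
    have h3 : (i : ℝ) ≤ N := mod_cast (mem_range.1 hi).le
    rw [sum_congr rfl fun k _ => congrArg b (show k + j * N + i = j * N + i + k by ring)]
    push_cast at h2
    nlinarith
  have up : ∀ i ∈ range (Λ + 1), ∑ k ∈ range n,
      (∑ j ∈ range i, β (k + j * N)) * β (k + (i + 1) * N) ≤ Λ * N * Λ + Λ * Y := by
    intro i hi
    obtain ⟨d, hd⟩ := Nat.exists_eq_add_of_le' (Nat.lt_succ_iff.1 (mem_range.1 hi))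
    have hi' : (i : ℝ) ≤ Λ := mod_cast (show i ≤ Λ by omega)
    have hd' : (d : ℝ) ≤ Λ := mod_cast (show d ≤ Λ by omega)
    refine (shift (fun k => mul_nonneg (sum_nonneg fun j _ => (h01 _).1) (h01 _).1) n
      (d * N)).trans (add_le_add ((sum_le (c := Λ) (fun k => ?_) _).trans ?_) ?_)
    · refine (mul_le_of_le_one_right (sum_nonneg fun j _ => (h01 _).1) (h01 _).2).trans ?_
      exact (sum_le (fun j => (h01 _).2) i).trans (by linarith)
    · push_cast; gcongr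
    · rw [hY']
      refine sum_le_sum fun k _ => ?_
      rw [show d * N + k + (i + 1) * N = k + (Λ + 1) * N by rw [hd]; ring]
      refine mul_le_mul_of_nonneg_right ?_ (h01 _).1
      rw [hd, sum_range_add]
      refine le_add_of_nonneg_of_le (sum_nonneg fun j _ => (h01 _).1) (le_of_eq ?_)
      exact sum_congr rfl fun j _ => congrArg β (by ring)
  have h1 : ∑ k ∈ range n, (∑ j ∈ range (Λ + 1 + 1), β (k + j * N)) ^ 2 ≤
      n * (3 * (Λ + 2)) + 2 * ((Λ + 2) * (Λ * N * Λ + Λ * Y)) := by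
    refine (sum_le_sum fun k _ => sq_le (fun j => h01 (k + j * N)) (Λ + 1)).trans ?_
    rw [sum_add_distrib, ← mul_sum, ← mul_sum, sum_comm (s := range n)]
    have := sum_le_card_nsmul _ _ _ up
    simp only [card_range, nsmul_eq_mul, sum_const] at this ⊢
    push_cast at this ⊢
    nlinarith [show (0 : ℝ) ≤ Λ * N * Λ by positivity]
  refine fin hΛ' hN'.le hn'.le (by positivity) (le_trans ?_ h1)
  have h2 := sq_sum_le_card_mul_sum_sq (s := range n)
    (f := fun k => ∑ j ∈ range (Λ + 1 + 1), β (k + j * N))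
  have h3 := card_nsmul_le_sum _ _ _ low
  rw [sum_comm, card_range] at h2
  simp only [card_range, nsmul_eq_mul] at h3
  push_cast at h3
  have h4 : S ^ 2 / n ≤ S := by rw [div_le_iff₀ hn']; nlinarith
  by_cases hc : S ≤ (Λ + 2) * N
  · refine le_trans (mul_nonpos_of_nonneg_of_nonpos (sq_nonneg _) ?_)
      (sum_nonneg fun _ _ => sq_nonneg _)
    nlinarith
  · refine le_of_mul_le_mul_left (le_trans ?_ h2) hn'
    refine le_trans ?_ (pow_le_pow_left₀ (mul_nonneg (by positivity) (by linarith)) h3 2)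
    have e : (n : ℝ) * (S ^ 2 / n) = S ^ 2 := by field_simp
    have : n * (S ^ 2 / n - 2 * (Λ + 2) * N) ≤ (S - (Λ + 2) * N) ^ 2 := by
      nlinarith [mul_le_mul_of_nonneg_left S1 (show (0 : ℝ) ≤ (Λ + 2) * N by positivity),
        sq_nonneg ((Λ + 2 : ℝ) * N)]
    nlinarith [mul_le_mul_of_nonneg_left this (sq_nonneg (Λ + 2 : ℝ))]

end Pool.Agent.P.MP_77a832_co.EL
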