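import Pool.Agent.P.MP_77a832_co.EL.BudAt

/-! Step STEP. -/

set_option autoImplicit false

namespace Pool.Agent.P.MP_77a832_co.EL

open Finset Real Pool.Agent.P.MP_bf60a1_an.RA
open scoped Classical

namespace STEPc

end STEPc

theorem p_STEP (hHWM : S_HWM) (hHWF : S_HWF) (hHWS : S_HWS) (hFLR : S_FLR) (hCHN : S_CHN) (hELL : S_ELL) (hLAMC : S_LAMC) :
    S_STEP := by
  intro Ω α β _ D p hD σ σ' u y
  obtain ⟨e1, e2, e3, -, e5, e6, -⟩ := hELL _ _ _ D p hD
  obtain ⟨-, c2, -, -, -, c6, -⟩ := hCHN _ _ _ D p hD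
  have i0 : ∀ ω, 0 < D.Q.p ω → 0 ≤ ind (D.Lam p σ u ω) := fun _ _ => ind_nonneg _
  have dL := Bud.det_ind D.Q (Bud.dLam hLAMC hD σ σ' u (y + p.s))
  have h1 := Bud.Hw_le_add' D.Q i0 (D.Tt p σ u) (D.Fi p σ' u y) (D.At p σ σ' u (y + p.s))
  have h2 := Bud.Hw_mono_right D.Q (D.Tt p σ u)
    (V := fun ω => (D.Fi p σ' u y ω, D.At p σ σ' u y ω))
    (V' := fun ω => (D.Fi p σ' u y ω, D.At p σ σ' u (y + p.s) ω))
    (Bud.det_trans D.Q (fun _ _ _ _ h => congrArg Prod.snd h)
      (Bud.det_ind D.Q (Bud.dLam hLAMC hD σ σ' u y))) i0 fun a b _ _ e => by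
        obtain ⟨f1, f2⟩ := Prod.mk.inj e
        obtain ⟨f3, f4, -⟩ := Bud.at_eq f2
        exact Prod.ext f1 (Prod.ext f3 (Prod.ext (e5 _ _ _ _ (Nat.le_add_right _ _) f4)
          ((hFLR _ _ _ _).1 f1)))
  have h3 := Bud.Hw_le_E D.Q (Z := D.Fi p σ' u y) (V := D.At p σ σ' u (y + p.s))
    (N := fun ω => if D.ell p y ω ≠ D.ell p (y + p.s) ω ∧
      near (D.Pi p y ω - σ') (u + p.m + y + p.q) p.φ3 then 2 else 1) dL (fun _ _ _ _ h => h) i0
    fun ω _ _ => by
      by_cases hl : D.ell p y ω = D.ell p (y + p.s) ω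
      · refine ⟨{D.Fi p σ' u y ω}, by simp [hl], fun z _ e => mem_singleton.2 ?_⟩
        obtain ⟨-, f4, f5⟩ := Bud.at_eq e
        have f6 := e5 _ _ _ _ (Nat.le_add_right y p.s) f4
        have g1 : D.Pi p y ω = D.Pi p (y + p.s) ω := by unfold PD.Pi PD.th; rw [hl]
        have g2 : D.Pi p y z = D.Pi p (y + p.s) z := by
          unfold PD.Pi PD.th; rw [(Bud.ss_eq f6).2.1, (Bud.ss_eq f4).2.1, hl]
        unfold PD.Fi PD.cel
        rw [g1, g2]
        refine (hFLR _ _ _ p.q').1 ?_
        have : u + p.m + y + p.q + p.q' = u + p.m + (y + p.s) := by unfold Par.s; omega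
        rw [this]
        exact f5
      · have g0 := e2 y _ ω (Nat.le_add_right y p.s)
        have g1 := e1 (y + p.s) ω
        have g2 := e3 y ω (by omega)
        obtain ⟨g3, g4, g5⟩ := c2 _ _ g0 (by omega) ω
        have var : ∀ z, D.At p σ σ' u (y + p.s) z = D.At p σ σ' u (y + p.s) ω →
            |D.Pi p y z - σ' - (D.Pi p y ω - σ')| * 2 ^ (u + p.m + y + p.q) ≤ p.φ3 := by
          intro z e
          obtain ⟨f3, f4, f5⟩ := Bud.at_eq e
          have f6 := e6 _ _ _ (e5 _ _ _ _ (Nat.le_add_right y p.s) f4)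
          have f7 := e6 _ _ _ f4
          have k1 := (hFLR _ _ _ 0).2.1 f3
          have k2 := (hFLR _ _ _ 0).2.1 f5
          have k3 : |D.th p (y + p.s) ω - D.th p y ω| ≤ p.φ * (1 / 2) ^ (y + p.q) := by
            unfold PD.th
            unfold PD.len at g2
            rw [abs_of_nonneg (by linarith)]
            linarith
          have k4 : D.Pi p y z - σ' - (D.Pi p y ω - σ') =
              (D.Pi p (y + p.s) z - σ' - (D.Pi p (y + p.s) ω - σ')) +
                (D.th p (y + p.s) ω - D.th p y ω) * (D.xx z - σ - (D.xx ω - σ)) := by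
            unfold PD.Pi PD.Pj
            rw [f6, f7]; ring
          have k5 : |D.Pi p y z - σ' - (D.Pi p y ω - σ')| ≤
              (1 / 2) ^ (u + p.m + (y + p.s)) + p.φ * (1 / 2) ^ (y + p.q) * (1 / 2) ^ u := by
            rw [k4]
            refine (abs_add_le _ _).trans (add_le_add k2 ?_)
            rw [abs_mul]
            exact mul_le_mul k3 k1 (abs_nonneg _) ((abs_nonneg _).trans k3)
          refine (mul_le_mul_of_nonneg_right k5 (by positivity)).trans (le_of_eq ?_)
          unfold Par.φ3 Par.s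
          simp only [pow_add, one_div, inv_pow]
          field_simp
        by_cases hn : near (D.Pi p y ω - σ') (u + p.m + y + p.q) p.φ3
        · have k6 : p.φ3 ≤ 1 / 2 := by
            have := pow_le_pow_of_le_one (a := (1 / 2 : ℝ)) (by norm_num) (by norm_num) hD.ok.hq'
            have := hD.ok.hφ
            unfold Par.φ3
            linarith
          set c := ⌊(D.Pi p y ω - σ') * 2 ^ (u + p.m + y + p.q) - 1 / 2⌋ with hc
          refine ⟨{c, c + 1}, ?_, fun z _ e => ?_⟩
          · rw [if_pos ⟨hl, hn⟩]; exact_mod_cast card_le_two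
          · have k7 := var z e
            rw [← abs_of_pos (a := (2 : ℝ) ^ (u + p.m + y + p.q)) (by positivity), ← abs_mul,
              sub_mul, abs_le] at k7
            have k8 : c ≤ D.Fi p σ' u y z := Int.floor_le_floor (by linarith [k7.1])
            have k9 : D.Fi p σ' u y z ≤ c + 1 := by
              rw [hc, ← Int.floor_add_one]
              exact Int.floor_le_floor (by linarith [k7.2])
            simp only [mem_insert, mem_singleton]
            omega
        · exact ⟨{D.Fi p σ' u y ω}, by simp [hn],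
            fun z _ e => mem_singleton.2 ((hFLR _ _ _ 0).2.2.1 _ hn (var z e))⟩
  have h4 : (D.Q.E fun ω => ind (D.Lam p σ u ω) * log (if D.ell p y ω ≠ D.ell p (y + p.s) ω ∧
      near (D.Pi p y ω - σ') (u + p.m + y + p.q) p.φ3 then 2 else 1)) ≤ D.FZ p σ σ' u y := by
    refine D.Q.E_mono fun ω _ => ?_
    rw [ind_and]
    refine mul_le_mul_of_nonneg_left ?_ (ind_nonneg _)
    split_ifs with hb
    · rw [ind_pos hb]; exact Bud.log_two_le
    · rw [ind_neg hb]; simp
  linarith

end Pool.Agent.P.MP_77a832_co.EL
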