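import Pool.Agent.P.MP_77a832_co.EL.BIface

/-! Step SUP. -/

set_option autoImplicit false

namespace Pool.Agent.P.MP_77a832_co.EL

open Finset Real Pool.Agent.P.MP_bf60a1_an.RA
open scoped Classical

theorem p_SUP :
    S_SUP := by
  intro Ω β _ P Z r k ev t ht hZ hr h0 hE hev
  have hn : ∀ j ≤ k, ∀ ω, 0 < P.p ω → 0 ≤ ind (ev ω) * ∏ n ∈ range j, r n ω := fun j hj ω hω =>
    mul_nonneg (ind_nonneg _) (prod_nonneg fun n hn => h0 n ((mem_range.1 hn).trans_le hj) ω hω)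
  have key : ∀ j ≤ k, (P.Det (Z j) fun ω => ind (ev ω) * ∏ n ∈ range j, r n ω) ∧
      (P.E fun ω => ind (ev ω) * ∏ n ∈ range j, r n ω) ≤ P.pr ev := by
    intro j
    induction j with
    | zero =>
      refine fun _ => ⟨fun ω ω' a b c => ?_, by simp [FP.pr]⟩
      simp only [range_zero, prod_empty, hev ω ω' a b c]
    | succ j ih =>
      intro hj
      obtain ⟨h1, h2⟩ := ih (Nat.le_of_succ_le hj)
      simp only [prod_range_succ, ← mul_assoc]
      exact ⟨fun ω ω' a b c => congrArg₂ (· * ·) (h1 ω ω' a b (hZ j hj ω ω' a b c))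
        (hr j hj ω ω' a b c), (hE j hj _ (hn j (Nat.le_of_succ_le hj)) h1).trans h2⟩
  rw [le_div_iff₀ ht, FP.pr, ← P.E_mul_right]
  refine le_trans (P.E_mono fun ω hω => ?_) (key k le_rfl).2
  by_cases h : ev ω ∧ t < ∏ n ∈ range k, r n ω
  · rw [ind_pos h, ind_pos h.1, one_mul, one_mul]
    exact h.2.le
  · rw [ind_neg h, zero_mul]
    exact hn k le_rfl ω hω

end Pool.Agent.P.MP_77a832_co.EL
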