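import Pool.Agent.P.MP_77a832_co.EL.BIface

/-! Step TWN. -/

set_option autoImplicit false

namespace Pool.Agent.P.MP_77a832_co.EL

open Finset Real Pool.Agent.P.MP_bf60a1_an.RA
open scoped Classical

namespace TWNc

variable {Ω α β : Type} [Fintype Ω] {D : PD Ω α β} {p : Par}

theorem sum_le_one (N : ℕ) (s : ℕ → Prop) (h : ∀ i j, i < j → j < N → s i → s j → False) :
    ∑ i ∈ range N, ind (s i) ≤ 1 := by
  unfold ind
  rw [sum_boole, Nat.cast_le_one, card_le_one]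
  intro i hi j hj
  rw [mem_filter, mem_range] at hi hj
  rcases lt_trichotomy i j with e | e | e
  exacts [(h i j e hj.1 hi.2 hj.2).elim, e, (h j i e hi.1 hj.2 hi.2).elim]

theorem one (hD : D.Ok p) {l : ℕ} (hl : l + 2 ≤ p.T) (u : ℕ) (ev : Ω → Prop) :
    ((D.Pt l).pr fun w => D.sel l w.1 ∧ D.Sc p u w.1 w.2 ∧ ev w.2) ≤ p.M ^ 2 / p.ζ *
      D.Q.pr fun z => ev z ∧ ∃ ω, D.ok l ω ∧ D.tw l ω z ∧ D.Sc p u ω z := by
  have hM : (0 : ℝ) < p.M := Nat.cast_pos.2 hD.ok.M1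
  have hζ := hD.ok.ζ0
  refine le_trans ?_ (mul_le_mul_of_nonneg_left
    (D.Q.E_cross D.Q (D.Nd l) (D.Nd l) fun _ _ => ind_nonneg _) (by positivity))
  rw [FP.pr, PD.Pt, FP.E_bind, ← FP.E_mul_left]
  refine D.Q.E_mono fun ω hω => ?_
  have hc := D.Q.cl_pos (D.Nd l) hω
  have h0 := D.Q.E_nonneg (f := fun z => ind (D.Nd l z = D.Nd l ω) *
    ind (ev z ∧ ∃ ω, D.ok l ω ∧ D.tw l ω z ∧ D.Sc p u ω z))
    fun _ _ => mul_nonneg (ind_nonneg _) (ind_nonneg _)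
  by_cases ho : D.ok l ω
  · have h1 := hD.str.tmass l ω hl ho
    have h2 : 0 < p.ζ / p.M ^ 2 * D.Q.cl (D.Nd l) ω := by positivity
    rw [D.Q.E_cond (h2.trans_le h1)]
    refine (div_le_div₀ h0 (D.Q.E_mono fun z _ => ?_) h2 h1).trans (le_of_eq (by field_simp))
    rw [← ind_and, ← ind_and]
    exact ind_mono fun h => ⟨hD.str.tnd l ω z h.1, h.2.2.2, ω, ho, h.1, h.2.2.1⟩
  · exact (FP.pr_eq_zero _ fun z _ h => ho h.1.1).trans_le (by positivity)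

theorem two (hD : D.Ok p) (hN : p.cap + p.N + 2 ≤ p.T) (u : ℕ) (z : Ω) :
    ∑ i ∈ range p.N, ind (∃ ω, D.ok (p.cap + i) ω ∧ D.tw (p.cap + i) ω z ∧ D.Sc p u ω z) ≤ 2 := by
  have key : ∀ b : Prop, ∑ i ∈ range p.N, ind (∃ ω, D.ok (p.cap + i) ω ∧ D.tw (p.cap + i) ω z ∧
      D.Sc p u ω z ∧ (D.xx z < D.xx ω ↔ b)) ≤ 1 := fun b => by
    refine sum_le_one _ _ ?_
    rintro i j hij hj ⟨ω, a1, a2, a3, a4⟩ ⟨ω', b1, b2, b3, b4⟩
    have h := hD.str.mult _ _ ω ω' z (by omega) (by omega) a1 b1 a2 b2 (a4.trans b4.symm)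
    have h1 := mul_lt_mul_of_pos_left h (pow_pos two_pos p.a)
    have h2 := b3.2
    rw [pow_succ] at h2
    linarith [a3.1]
  refine le_trans (sum_le_sum fun i _ => (ind_mono ?_).trans (ind_or_le _ _))
    (sum_add_distrib.trans_le ((add_le_add (key True) (key False)).trans_eq one_add_one_eq_two))
  rintro ⟨ω, a1, a2, a3⟩
  by_cases h : D.xx z < D.xx ω
  exacts [.inl ⟨ω, a1, a2, a3, iff_true_intro h⟩, .inr ⟨ω, a1, a2, a3, iff_false_intro h⟩]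

end TWNc

open TWNc in
theorem p_TWN (hCHN : S_CHN) :
    S_TWN := by
  intro Ω α β _ D p hD A ev
  have hN := (hCHN _ _ _ D p hD).2.2.2.2.2.1
  have hζ := hD.ok.ζ0
  rw [PD.Sm, sum_comm, mul_sum]
  refine sum_le_sum fun u _ => (sum_le_sum fun i hi =>
    one hD (by have := mem_range.1 hi; omega) u (ev u)).trans ?_
  rw [← mul_sum, mul_div_assoc, mul_comm 2, mul_assoc]
  refine mul_le_mul_of_nonneg_left ?_ (by positivity)
  unfold FP.pr
  rw [← FP.E_sum, ← FP.E_mul_left]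
  refine D.Q.E_mono fun z _ => ?_
  simp only [ind_and (ev u z), ← mul_sum]
  rw [mul_comm 2]
  exact mul_le_mul_of_nonneg_left (two hD hN u z) (ind_nonneg _)

end Pool.Agent.P.MP_77a832_co.EL
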