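import Pool.Agent.P.MP_77a832_co.EL.BIface

/-! Step WIN. -/

set_option autoImplicit false

namespace Pool.Agent.P.MP_77a832_co.EL

open Finset Real Pool.Agent.P.MP_bf60a1_an.RA
open scoped Classical

namespace WINc

theorem fin {c η t N R S X : ℝ} (hc : 0 < c) (hη : 0 < η) (hη1 : η ≤ 1 / 100) (hN : 0 < N)
    (hR : 0 < R) (ht : 48 * t ≤ c * η / 400) (hS : S ≤ 3 * t * N)
    (hX : X ≤ R * (24 * t * N) + R * (48 * t * N) + 5 * (c * η / 400) * N * R)
    (h : c * N / 2 ≤ S + X / (3 * η * R) + 5 * (c * η / 400) * N) : False := by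
  have h1 : t * N ≤ c * η / 19200 * N := mul_le_mul_of_nonneg_right (by linarith) hN.le
  have h2 : R * (t * N) ≤ R * (c * η / 19200 * N) := mul_le_mul_of_nonneg_left h1 hR.le
  have h0 : 0 < c * N := mul_pos hc hN
  have h5 : 0 < c * N * (η * R) := mul_pos h0 (mul_pos hη hR)
  have h3 : X / (3 * η * R) ≤ c * N / 100 := by
    rw [div_le_iff₀ (by positivity)]
    linarith
  have h4 : c * N * η ≤ c * N * (1 / 100) := mul_le_mul_of_nonneg_left hη1 h0.le
  linarith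

end WINc

theorem p_WIN (hSHIFT : S_SHIFT) (hSM : S_SM) (hRNG : S_RNG) (hAVZ : S_AVZ) (hAV3 : S_AV3) (hGRP : S_GRP) (hFIX : S_FIX) :
    S_WIN := by
  intro Ω α β _ D p hD hN hW
  have k := hD.ok
  obtain ⟨A, hA⟩ := hRNG _ _ _ D p hD
  have φ0 : 0 < p.φ3 := by
    have := k.φ0
    unfold Par.φ3
    positivity
  have a0 : (0 : ℝ) < 1 / 2 ^ p.a := by positivity
  obtain ⟨n, P, sg, hs⟩ := hSHIFT (2 * A + p.m + p.q) (min p.φ3 (1 / 2 ^ p.a)) (lt_min φ0 a0)
  have h1 := (hSM _ _ _ D p hD A).2.2.2.2.2 n P (fun i _ u w => ¬ D.xs p (sg i) u w.1)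
    (3 * (1 / 2 ^ p.a)) (by positivity) fun l u w hu => by
      refine le_trans (P.pr_mono fun i _ hi => ?_)
        (hs u (by omega) (D.xx w.1) _ (min_le_right _ _))
      exact not_not.1 hi
  obtain ⟨i₀, -, h2⟩ := P.exists_le_E fun i => D.Sm p A fun _ u w => ¬ D.xs p (sg i) u w.1
  have h3 := hAVZ _ _ _ D p hD (sg i₀) A n P sg fun k hk v => hs k hk v _ (min_le_left _ _)
  have h4 := hAV3 _ _ _ D p hD (sg i₀) A n P sg hA fun k hk v => by
    have e : (24 : ℝ) / 2 ^ p.a = 3 * (8 / 2 ^ p.a) := by ring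
    rw [e]
    exact hs k hk v _ ((min_le_right _ _).trans
      (div_le_div_of_nonneg_right (by norm_num) (by positivity)))
  have h5 := P.le_E fun i (_ : 0 < P.p i) => hGRP _ _ _ D p hD hN hW (sg i₀) (sg i) A hA
  rw [P.E_add, P.E_add, P.E_add, P.E_const, P.E_mul_left, P.E_add, P.E_const, P.E_mul_left,
    P.E_add, P.E_const, P.E_mul_left, P.E_sum, P.E_sum] at h5
  have h6 := sum_le_card_nsmul (range p.R) _ _ fun r hr => (h4 r (mem_range.1 hr)).1
  have h7 := sum_le_card_nsmul (range p.R) _ _ fun r hr => (h4 r (mem_range.1 hr)).2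
  rw [card_range, nsmul_eq_mul] at h6 h7
  have δ0 : 0 ≤ 32 / (p.δ * p.δ') := by
    have := k.δ0
    unfold Par.δ
    positivity
  have h8 := (mul_le_mul_of_nonneg_left (add_le_add_left (mul_le_mul_of_nonneg_left
    (add_le_add_right (mul_le_mul_of_nonneg_left h3 (Nat.cast_nonneg p.mu)) p.bud0)
    (show (0 : ℝ) ≤ 16 / p.e ^ 2 by positivity)) _) δ0).trans k.hf4
  have L1 : 1 ≤ p.L := by have := k.L1; have := k.hL; omega
  have N0 : (0 : ℝ) < p.N := Nat.cast_pos.2 (Nat.mul_pos L1 k.N11)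
  have R0 : (0 : ℝ) < p.R := Nat.cast_pos.2 (Nat.mul_pos k.Λ1 k.N11)
  have ha := k.ha
  have hF := hFIX _ _ _ D p hD hN hW (sg i₀) A hA
  unfold Par.τ at ha hF h5 h8
  refine WINc.fin (t := 1 / 2 ^ p.a) (mul_pos k.c00 k.g0) k.η0 k.η1 N0 R0 ?_ (h2.trans h1) ?_ hF
  · rw [mul_one_div]
    exact ha
  · rw [mul_one_div, mul_one_div]
    linarith

end Pool.Agent.P.MP_77a832_co.EL
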