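import Pool.Agent.P.MP_77a832_co.EL.BIface

/-! Step ZB. -/

set_option autoImplicit false

namespace Pool.Agent.P.MP_77a832_co.EL

open Finset Real Pool.Agent.P.MP_bf60a1_an.RA
open scoped Classical

namespace ZBc

theorem sum_pr_le {Ω : Type} [Fintype Ω] (P : FP Ω) (F : Finset Ω) (s : Ω → Ω → Prop)
    (t : Ω → Prop) (h1 : ∀ z ∈ F, ∀ v, s z v → t v)
    (h2 : ∀ z ∈ F, ∀ z' ∈ F, ∀ v, s z v → s z' v → z' = z) : ∑ z ∈ F, P.pr (s z) ≤ P.pr t := by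
  unfold FP.pr
  rw [← FP.E_sum]
  refine P.E_mono fun v _ => ?_
  by_cases h : ∃ z ∈ F, s z v
  · obtain ⟨z, hz, e⟩ := h
    rw [sum_eq_single_of_mem z hz fun z' hz' n => ind_neg fun e' => n (h2 z hz z' hz' v e e')]
    exact ind_mono (h1 z hz v)
  · rw [sum_eq_zero fun z hz => ind_neg fun e => h ⟨z, hz, e⟩]
    exact ind_nonneg _

theorem lam_le (p : Par) {r' r : ℕ} (h : r' < r) : p.lam r' ≤ p.lv r := by
  obtain ⟨k, rfl⟩ := Nat.exists_eq_add_of_lt h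
  exact Nat.add_le_add_right (Nat.mul_le_mul_right _ (by omega)) _

theorem lv_le (p : Par) (r : ℕ) : p.lv r ≤ p.lv (r + 1) := by
  cases r with
  | zero => exact Nat.zero_le _
  | succ r => exact lam_le p (by omega)

end ZBc

theorem p_ZB (hCP : S_CP) (hCHN : S_CHN) (hELL : S_ELL) (hLAB : S_LAB) (hBS : S_BS) (hCODE : S_CODE) (hSUP : S_SUP) (hLAMC : S_LAMC) :
    S_ZB := by
  intro Ω α β _ D p hD σ u
  obtain ⟨c1, -, -, -, c5, c6, -⟩ := hCHN _ _ _ D p hD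
  obtain ⟨b1, -, b3, b4⟩ := hBS _ _ _ D p hD
  have lT : ∀ r ≤ p.R, p.lv r ≤ p.T := fun r hr => by
    cases r with
    | zero => exact Nat.zero_le _
    | succ r => exact (c5 r hr).1.trans (by omega)
  have kx : ∀ n ω z, D.pw n z = D.pw n ω → D.xx z = D.xx ω ∧ D.yy z = D.yy ω := fun n ω z e => by
    simp only [PD.xx, PD.yy, (Prod.mk.inj e).1, and_self]
  have k0 : ∀ n ≤ p.T, ∀ ω z, D.pw n z = D.pw n ω → D.X0 σ u z = D.X0 σ u ω := fun n hn ω z e => by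
    simp only [PD.X0, PD.X, (kx n ω z e).1, ((c1 0 n n.zero_le hn ω z).2.2 e).2]
  have k2 : ∀ n ≤ p.T, ∀ ω z, D.pw n z = D.pw n ω → D.Cl σ u n z = D.Cl σ u n ω :=
    fun n hn ω z e => Prod.ext (k0 n hn ω z e) (Prod.mk.inj e).2
  have k1 : ∀ r ≤ p.R, ∀ ω z, D.pw (p.lv r) z = D.pw (p.lv r) ω →
      D.Bs p u r z = D.Bs p u r ω := fun r hr ω z e => by
    funext v
    simp only [PD.Bs, b3 r hr ω z e]
    refine propext (forall_congr' fun y => imp_congr_right fun hy => ?_)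
    obtain ⟨r', h1, h2, rfl⟩ := b4 r ω y hy
    have a1 := (hLAB _ _ _ D p hD r' (by omega) ω _ (b1 r' ω h2)).1.2.1
    have a2 := ((hELL _ _ _ D p hD).2.2.2.1 _ _ ω z (a1.trans (ZBc.lam_le p h1)) (lT r hr)
      (Prod.mk.inj e).2).2.2
    simp only [PD.Pi, PD.Pj, PD.yl, a2, (kx _ ω z e).1, (kx _ ω z e).2]
  have dn : ∀ r < p.R, ∀ ω z, D.pw (p.lv (r + 1)) z = D.pw (p.lv (r + 1)) ω →
      D.pw (p.lv r) z = D.pw (p.lv r) ω := fun r hr ω z e =>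
    ((c1 _ _ (ZBc.lv_le p r) (lT _ hr) ω z).2.2 e).1
  have km : ∀ r < p.R, ∀ ω z, D.pw (p.lv r) z = D.pw (p.lv r) ω →
      D.Mm p σ u r z = D.Mm p σ u r ω := fun r hr ω z e => by
    simp only [PD.Mm, k1 r hr.le ω z e, k2 _ (lT r hr.le) ω z e]
  have kn : ∀ r < p.R, ∀ ω z, D.pw (p.lv (r + 1)) z = D.pw (p.lv (r + 1)) ω →
      D.Mn p σ u r z = D.Mn p σ u r ω := fun r hr ω z e => by
    simp only [PD.Mn, k1 r hr.le ω z (dn r hr ω z e), k2 _ (lT _ hr) ω z e]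
  have g0 : ∀ r ω, 0 ≤ D.Mn p σ u r ω / D.Mm p σ u r ω := fun r ω =>
    div_nonneg (D.Q.pr_nonneg _) (D.Q.pr_nonneg _)
  have key := hSUP Ω _ D.Q (fun r => D.pw (p.lv r)) (D.Zr p σ u) p.R (D.Lam p σ u)
    ((2 : ℝ) ^ (p.η * p.I * p.J)) (by positivity) (fun r hr ω z _ _ e => dn r hr z ω e)
    (fun r hr ω z _ _ e => ?_) (fun r hr ω _ => div_nonneg (g0 r ω)
      ((hCP Ω ℕ _ ℕ D.Q _).2.1 _ ω).1) (fun r hr φ f0 f1 => ?_) fun ω z _ _ e => ?_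
  · rw [neg_mul, neg_mul, rpow_neg zero_le_two, ← div_eq_inv_mul]
    exact key
  · have a1 : D.W (p.lv (r + 1)) ω = D.W (p.lv (r + 1)) z := (Prod.mk.inj e).2
    simp only [PD.Zr, cq, kn r hr z ω e, km r hr z ω (dn r hr z ω e), a1]
    rw [(hCP Ω ℕ _ ℕ D.Q _).2.2.1 _ z ω (dn r hr z ω e)]
  · refine hCODE Ω _ _ D.Q (D.W (p.lv (r + 1))) (D.pw (p.lv r)) φ
      (fun ω => D.Mn p σ u r ω / D.Mm p σ u r ω) f0 (fun ω _ => g0 r ω) f1
      (fun ω z _ _ e => ?_) fun ω _ F hF inj => ?_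
    · obtain ⟨e1, e2⟩ := Prod.mk.inj e
      show _ / _ = _ / _
      rw [kn r hr z ω (Prod.ext (Prod.mk.inj e2).1 e1), km r hr z ω e2]
    · rw [sum_congr rfl fun z hz => by rw [km r hr ω z (hF z hz).2], ← sum_div]
      refine div_le_one_of_le₀ (ZBc.sum_pr_le D.Q F _ _ (fun z hz v e => ?_)
        fun z hz z' hz' v e e' => inj hz' hz
          ((Prod.mk.inj e'.1).2.symm.trans (Prod.mk.inj e.1).2)) (D.Q.pr_nonneg _)
      obtain ⟨e1, e2⟩ := Prod.mk.inj e.1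
      refine ⟨Eq.trans (b := D.Cl σ u (p.lv r) z)
        (Prod.ext e1 ((c1 _ _ (ZBc.lv_le p r) (lT _ hr) z v).1 e2))
        (k2 _ (lT r hr.le) ω z (hF z hz).2), ?_⟩
      rw [← k1 r hr.le ω z (hF z hz).2]
      exact e.2
  · have a1 := k0 0 (Nat.zero_le _) z ω e
    have a2 := (hLAMC _ _ _ D p hD σ 0).2.2 u
    exact propext ⟨a2 ω z a1.symm, a2 z ω a1⟩

end Pool.Agent.P.MP_77a832_co.EL
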