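import Pool.Agent.P.MP_77a832_co.EL.TCP
import Pool.Agent.P.MP_77a832_co.EL.TMPC
import Pool.Agent.P.MP_77a832_co.EL.THWM
import Pool.Agent.P.MP_77a832_co.EL.THWF
import Pool.Agent.P.MP_77a832_co.EL.THWS
import Pool.Agent.P.MP_77a832_co.EL.TFEW
import Pool.Agent.P.MP_77a832_co.EL.TPINS
import Pool.Agent.P.MP_77a832_co.EL.TMID
import Pool.Agent.P.MP_77a832_co.EL.TRES1
import Pool.Agent.P.MP_77a832_co.EL.TRES2
import Pool.Agent.P.MP_77a832_co.EL.TCODE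
import Pool.Agent.P.MP_77a832_co.EL.TSUP
import Pool.Agent.P.MP_77a832_co.EL.TDOOB
import Pool.Agent.P.MP_77a832_co.EL.TSEQ
import Pool.Agent.P.MP_77a832_co.EL.THVY
import Pool.Agent.P.MP_77a832_co.EL.TSHIFT
import Pool.Agent.P.MP_77a832_co.EL.TSQ
import Pool.Agent.P.MP_77a832_co.EL.TCHN
import Pool.Agent.P.MP_77a832_co.EL.TELL
import Pool.Agent.P.MP_77a832_co.EL.TLAB
import Pool.Agent.P.MP_77a832_co.EL.TBS
import Pool.Agent.P.MP_77a832_co.EL.TYC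
import Pool.Agent.P.MP_77a832_co.EL.TFLR
import Pool.Agent.P.MP_77a832_co.EL.TGEO
import Pool.Agent.P.MP_77a832_co.EL.TAG0
import Pool.Agent.P.MP_77a832_co.EL.TSELB
import Pool.Agent.P.MP_77a832_co.EL.TSHK
import Pool.Agent.P.MP_77a832_co.EL.TMKL
import Pool.Agent.P.MP_77a832_co.EL.THAS
import Pool.Agent.P.MP_77a832_co.EL.TKR
import Pool.Agent.P.MP_77a832_co.EL.TCEN
import Pool.Agent.P.MP_77a832_co.EL.TTWN
import Pool.Agent.P.MP_77a832_co.EL.TSM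
import Pool.Agent.P.MP_77a832_co.EL.TLAMC
import Pool.Agent.P.MP_77a832_co.EL.TNLAM
import Pool.Agent.P.MP_77a832_co.EL.TRCT
import Pool.Agent.P.MP_77a832_co.EL.TF5
import Pool.Agent.P.MP_77a832_co.EL.TZB
import Pool.Agent.P.MP_77a832_co.EL.TF2
import Pool.Agent.P.MP_77a832_co.EL.TSTEP
import Pool.Agent.P.MP_77a832_co.EL.TBUD1
import Pool.Agent.P.MP_77a832_co.EL.TBUD2
import Pool.Agent.P.MP_77a832_co.EL.TNN
import Pool.Agent.P.MP_77a832_co.EL.TDVS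
import Pool.Agent.P.MP_77a832_co.EL.TNNS
import Pool.Agent.P.MP_77a832_co.EL.TF4
import Pool.Agent.P.MP_77a832_co.EL.TCLF
import Pool.Agent.P.MP_77a832_co.EL.TFULL
import Pool.Agent.P.MP_77a832_co.EL.TBALL
import Pool.Agent.P.MP_77a832_co.EL.TBRP
import Pool.Agent.P.MP_77a832_co.EL.TEND
import Pool.Agent.P.MP_77a832_co.EL.TAVZ
import Pool.Agent.P.MP_77a832_co.EL.TAV3
import Pool.Agent.P.MP_77a832_co.EL.TGRP
import Pool.Agent.P.MP_77a832_co.EL.TFIX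
import Pool.Agent.P.MP_77a832_co.EL.TRNG
import Pool.Agent.P.MP_77a832_co.EL.TWIN
import Pool.Agent.P.MP_77a832_co.EL.TSCL
import Pool.Agent.P.MP_77a832_co.EL.TSFT
import Pool.Agent.P.MP_77a832_co.EL.TBH
import Pool.Agent.P.MP_77a832_co.EL.TG0
import Pool.Agent.P.MP_77a832_co.EL.TPICK
import Pool.Agent.P.MP_77a832_co.EL.TPAR
import Pool.Agent.P.MP_77a832_co.EL.TBFIN

/-! Assembly of the steps. -/

set_option autoImplicit false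

namespace Pool.Agent.P.MP_77a832_co.EL

theorem q_CP : S_CP := p_CP
theorem q_MPC : S_MPC := p_MPC
theorem q_HWM : S_HWM := p_HWM q_CP
theorem q_HWF : S_HWF := p_HWF q_CP
theorem q_HWS : S_HWS := p_HWS q_CP
theorem q_FEW : S_FEW := p_FEW
theorem q_PINS : S_PINS := p_PINS q_CP
theorem q_MID : S_MID := p_MID q_CP
theorem q_RES1 : S_RES1 := p_RES1
theorem q_RES2 : S_RES2 := p_RES2
theorem q_CODE : S_CODE := p_CODE q_CP
theorem q_SUP : S_SUP := p_SUP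
theorem q_DOOB : S_DOOB := p_DOOB q_CP
theorem q_SEQ : S_SEQ := p_SEQ
theorem q_HVY : S_HVY := p_HVY q_CP
theorem q_SHIFT : S_SHIFT := p_SHIFT
theorem q_SQ : S_SQ := p_SQ
theorem q_CHN : S_CHN := p_CHN
theorem q_ELL : S_ELL := p_ELL q_CHN
theorem q_LAB : S_LAB := p_LAB q_CHN q_ELL
theorem q_BS : S_BS := p_BS q_CP q_CHN
theorem q_YC : S_YC := p_YC q_CHN
theorem q_FLR : S_FLR := p_FLR
theorem q_GEO : S_GEO := p_GEO q_CHN q_FLR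
theorem q_AG0 : S_AG0 := p_AG0 q_CP q_CHN
theorem q_SELB : S_SELB := p_SELB q_CP q_CHN q_AG0
theorem q_SHK : S_SHK := p_SHK q_CHN
theorem q_MKL : S_MKL := p_MKL q_CP q_CHN
theorem q_HAS : S_HAS := p_HAS q_CHN q_DOOB q_SELB q_SHK q_MKL
theorem q_KR : S_KR := p_KR q_CP q_CHN q_CODE q_SUP
theorem q_CEN : S_CEN := p_CEN q_CHN
theorem q_TWN : S_TWN := p_TWN q_CHN
theorem q_SM : S_SM := p_SM q_CHN
theorem q_LAMC : S_LAMC := p_LAMC q_CP q_FLR q_SEQ q_HVY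
theorem q_NLAM : S_NLAM := p_NLAM q_CP q_FLR q_SEQ q_HVY q_GEO q_CHN q_CEN q_TWN q_SM
theorem q_RCT : S_RCT := p_RCT q_CP q_FLR q_SEQ q_YC q_CHN q_ELL
theorem q_F5 : S_F5 := p_F5 q_CP q_FLR q_HVY q_GEO q_CHN q_ELL q_LAB q_BS q_CEN q_TWN q_SM q_RCT
theorem q_ZB : S_ZB := p_ZB q_CP q_CHN q_ELL q_LAB q_BS q_CODE q_SUP q_LAMC
theorem q_F2 : S_F2 := p_F2 q_CHN q_ELL q_LAB q_BS q_RES2 q_LAMC
theorem q_STEP : S_STEP := p_STEP q_HWM q_HWF q_HWS q_FLR q_CHN q_ELL q_LAMC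
theorem q_BUD1 : S_BUD1 := p_BUD1 q_HWF q_HWS q_FLR q_LAMC q_STEP
theorem q_BUD2 : S_BUD2 := p_BUD2 q_HWM q_HWF q_HWS q_FEW q_FLR q_CHN q_ELL
theorem q_NN : S_NN := p_NN q_MPC q_HWM q_HWS q_PINS q_MID q_FLR q_CHN q_ELL q_LAMC
theorem q_DVS : S_DVS := p_DVS q_HWM q_HWS q_CHN q_ELL q_LAMC
theorem q_NNS : S_NNS := p_NNS q_CHN q_YC q_LAMC q_BUD1 q_BUD2 q_NN q_DVS
theorem q_F4 : S_F4 := p_F4 q_CP q_MPC q_CHN q_ELL q_LAB q_BS q_RES1 q_LAMC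
theorem q_CLF : S_CLF := p_CLF q_CP q_MPC q_FLR q_CHN q_ELL q_LAB
theorem q_FULL : S_FULL := p_FULL q_CP q_CHN q_BS q_CLF
theorem q_BALL : S_BALL := p_BALL q_FLR q_CHN q_ELL q_LAB q_BS
theorem q_BRP : S_BRP := p_BRP q_CP q_CHN
theorem q_END : S_END := p_END q_CP q_CHN q_ELL q_LAB q_BS q_GEO q_BALL q_BRP
theorem q_AVZ : S_AVZ := p_AVZ q_CHN q_ELL q_LAMC
theorem q_AV3 : S_AV3 := p_AV3 q_CHN q_BS q_LAB q_SM
theorem q_GRP : S_GRP := p_GRP q_CHN q_SM q_CEN q_SHK q_HAS q_F2 q_F4 q_F5 q_NNS q_LAMC q_FULL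
theorem q_FIX : S_FIX := p_FIX q_CHN q_SM q_CEN q_SELB q_KR q_NLAM q_ZB q_LAMC q_END
theorem q_RNG : S_RNG := p_RNG
theorem q_WIN : S_WIN := p_WIN q_SHIFT q_SM q_RNG q_AVZ q_AV3 q_GRP q_FIX
theorem q_SCL : S_SCL := p_SCL
theorem q_SFT : S_SFT := p_SFT
theorem q_BH : S_BH := p_BH q_CP q_CODE
theorem q_G0 : S_G0 := p_G0 q_CP q_SQ q_BH
theorem q_PICK : S_PICK := p_PICK q_SFT q_G0
theorem q_PAR : S_PAR := p_PAR
theorem q_BFIN : S_BFIN := p_BFIN q_WIN q_SCL q_PICK q_PAR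

end Pool.Agent.P.MP_77a832_co.EL
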