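import Pool.Agent.P.MP_77a832_co.EL.NDefs
import Pool.Agent.P.MP_77a832_co.KS.ZStar

/-! Lacunary slopes give exponent zero. -/

set_option autoImplicit false

namespace Pool.Agent.P.MP_77a832_co.EL

open Finset
open scoped Classical

variable {α : Type}

/-- coordinates in which the sets `A t` are cut out of `E` by lines of slope `si t` -/
structure Frame (x X Y : α → ℝ) (si io : ℕ → ℝ) (A : ℕ → Finset α) (E : Finset α) : Prop where
  ab : ∀ t, ∀ p ∈ E, (p ∈ A t ↔ si t * X p + io t < Y p)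
  ord : ∀ p ∈ E, ∀ q ∈ E, x p < x q → X p < X q

/-- number of points of `E` whose status differs at the times `s` and `t` -/
noncomputable def dif (A : ℕ → Finset α) (E : Finset α) (s t : ℕ) : ℝ :=
  ((E ∩ (A s \ A t)).card : ℝ) + (E ∩ (A t \ A s)).card

variable {x y : α → ℝ} {th be : ℕ → ℝ} {A : ℕ → Finset α} {P E : Finset α}

theorem Lin.left (h : Lin x y th be A E) {s t : ℕ} (hst : s < t) {p q : α} (hp : p ∈ E)
    (hq : q ∈ E) (p1 : p ∈ A t) (p2 : p ∉ A s) (q1 : q ∈ A s) (q2 : q ∉ A t) : x p < x q :=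
  (KS.Z.slope (h.mono hst) (mt (h.ab s p hp).2 p2) ((h.ab t p hp).1 p1) ((h.ab s q hq).1 q1)
    (mt (h.ab t q hq).2 q2)).1

end Pool.Agent.P.MP_77a832_co.EL

namespace Pool.Agent.P.MP_77a832_co.EL.L

open Finset
open scoped Classical

/-- number of indices `v < K` with `ζ v` in the ball of centre `c` and radius `r` -/
noncomputable def wt (ζ : ℕ → ℝ) (K : ℕ) (c r : ℝ) : ℝ :=
  (((range K).filter fun v => |ζ v - c| ≤ r).card : ℝ)

/-- the small ball carries almost all of the weight of the big ball -/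
def hv (ζ : ℕ → ℝ) (K : ℕ) (N μ c r : ℝ) : Prop :=
  (N - 1) * wt ζ K c (μ * r) ≤ N * wt ζ K c (r / μ)

section weights
variable {ζ : ℕ → ℝ} {K : ℕ} {N μ c r c' r' c'' r'' : ℝ}

theorem wt_nonneg (ζ : ℕ → ℝ) (K : ℕ) (c r : ℝ) : 0 ≤ wt ζ K c r := Nat.cast_nonneg _

theorem wt_le (ζ : ℕ → ℝ) (K : ℕ) (c r : ℝ) : wt ζ K c r ≤ K := by
  unfold wt
  exact_mod_cast (card_filter_le _ _).trans (card_range K).le

theorem wt_sub (h1 : c' - r' ≤ c - r) (h2 : c + r ≤ c' + r') : wt ζ K c r ≤ wt ζ K c' r' := by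
  unfold wt
  refine Nat.cast_le.2 (card_le_card fun v hv => ?_)
  rw [mem_filter, abs_le] at hv ⊢
  exact ⟨hv.1, by linarith [hv.2.1], by linarith [hv.2.2]⟩

theorem wt_mono (h : r ≤ r') : wt ζ K c r ≤ wt ζ K c r' := wt_sub (by linarith) (by linarith)

/-- two disjoint balls inside a third one -/
theorem wt_add (h0 : c + r < c' - r') (h1 : c'' - r'' ≤ c - r) (h2 : c + r ≤ c'' + r'')
    (h3 : c'' - r'' ≤ c' - r') (h4 : c' + r' ≤ c'' + r'') :
    wt ζ K c r + wt ζ K c' r' ≤ wt ζ K c'' r'' := by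
  unfold wt
  rw [← Nat.cast_add, ← card_union_of_disjoint]
  · refine Nat.cast_le.2 (card_le_card fun v hv => ?_)
    simp only [mem_union, mem_filter, abs_le] at hv ⊢
    rcases hv with hv | hv
    · exact ⟨hv.1, by linarith [hv.2.1], by linarith [hv.2.2]⟩
    · exact ⟨hv.1, by linarith [hv.2.1], by linarith [hv.2.2]⟩
  · rw [disjoint_filter]
    intro v _ a b
    rw [abs_le] at a b
    linarith [a.2, b.1]

theorem one_le_wt {v : ℕ} (hv : v < K) (h : |ζ v - c| ≤ r) : 1 ≤ wt ζ K c r := by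
  unfold wt
  exact_mod_cast card_pos.2 ⟨v, mem_filter.2 ⟨mem_range.2 hv, h⟩⟩

theorem one_le_wt_of_pos (h : 0 < wt ζ K c r) : 1 ≤ wt ζ K c r := by
  unfold wt at h ⊢
  exact_mod_cast h

theorem wt_neg (ζ : ℕ → ℝ) (K : ℕ) (c r : ℝ) : wt (fun v => -ζ v) K (-c) r = wt ζ K c r := by
  unfold wt
  congr 2
  refine filter_congr fun v _ => ?_
  rw [show -ζ v - -c = -(ζ v - c) by ring, abs_neg]

theorem hv_neg : hv (fun v => -ζ v) K N μ (-c) r ↔ hv ζ K N μ c r := by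
  unfold hv
  rw [wt_neg, wt_neg]

/-- a ball on the right of the small ball and inside the big ball is light -/
theorem hv.right (h : hv ζ K N μ c r) (hN : 0 ≤ N) (hr : r / μ ≤ μ * r)
    (h0 : c + r / μ < c' - r') (h1 : c - μ * r ≤ c' - r') (h2 : c' + r' ≤ c + μ * r) :
    N * wt ζ K c' r' ≤ wt ζ K c (μ * r) := by
  have := wt_add (ζ := ζ) (K := K) (c'' := c) (r'' := μ * r) h0 (by linarith) (by linarith) h1 h2
  have := mul_le_mul_of_nonneg_left this hN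
  unfold hv at h
  linarith

/-- a ball on the left of the small ball and inside the big ball is light -/
theorem hv.left (h : hv ζ K N μ c r) (hN : 0 ≤ N) (hr : r / μ ≤ μ * r)
    (h0 : c' + r' < c - r / μ) (h1 : c - μ * r ≤ c' - r') (h2 : c' + r' ≤ c + μ * r) :
    N * wt ζ K c' r' ≤ wt ζ K c (μ * r) := by
  have := wt_add (ζ := ζ) (K := K) (c'' := c) (r'' := μ * r) h0 h1 h2 (by linarith) (by linarith)
  have := mul_le_mul_of_nonneg_left this hN
  unfold hv at h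
  linarith

theorem small_le {μ r : ℝ} (hμ : 4 ≤ μ) (hr : 0 ≤ r) : r / μ ≤ r / 4 ∧ 4 * r ≤ μ * r :=
  ⟨div_le_div_of_nonneg_left hr (by norm_num) hμ, mul_le_mul_of_nonneg_right hμ hr⟩

/-- the two ends of an interval around a pivot are not both heavy -/
theorem not_both (hN : 3 ≤ N) (hμ : 4 ≤ μ) {v : ℕ} (hv' : v < K) (h1 : c < ζ v) (h2 : ζ v < c')
    (a : hv ζ K N μ c (c' - c)) (b : hv ζ K N μ c' (c' - c)) : False := by
  have hr : 0 < c' - c := by linarith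
  obtain ⟨s1, s2⟩ := small_le hμ hr.le
  have s0 : 0 ≤ (c' - c) / μ := div_nonneg hr.le (by linarith)
  have e1 := a.right (c' := c') (r' := (c' - c) / μ) (by linarith) (by linarith) (by linarith)
    (by linarith) (by linarith)
  have e2 := b.left (c' := c) (r' := (c' - c) / μ) (by linarith) (by linarith) (by linarith)
    (by linarith) (by linarith)
  have e3 : 1 ≤ wt ζ K c (μ * (c' - c)) := one_le_wt hv' (abs_le.2 ⟨by linarith, by linarith⟩)
  have e4 := wt_nonneg ζ K c' (μ * (c' - c))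
  unfold hv at a b
  nlinarith

end weights

/-- fibres of `f` have distinct times that differ by less than `n` -/
theorem cnt {ι β : Type} (S : Finset ι) (Z : Finset β) (f : ι → β) (u : ι → ℕ) (n : ℕ)
    (hZ : ∀ e ∈ S, f e ∈ Z) (hi : ∀ e ∈ S, ∀ e' ∈ S, u e = u e' → f e = f e' → e = e')
    (hn : ∀ e ∈ S, ∀ e' ∈ S, f e = f e' → u e' < u e + n) : S.card ≤ n * Z.card := by
  refine card_le_mul_card_image_of_maps_to hZ n fun b _ => ?_
  rcases (S.filter fun e => f e = b).eq_empty_or_nonempty with h | h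
  · rw [h]; simp
  · obtain ⟨e0, h0, hm⟩ := exists_min_image _ u h
    have : (Ico (u e0) (u e0 + n)).card = n := by simp
    rw [← this]
    refine card_le_card_of_injOn u (fun e he => ?_) fun e he e' he' hu => ?_
    · have he := mem_coe.1 he
      exact mem_coe.2 (mem_Ico.2 ⟨hm e he, hn e0 (mem_filter.1 h0).1 e (mem_filter.1 he).1
        ((mem_filter.1 h0).2.trans (mem_filter.1 he).2.symm)⟩)
    · have he := mem_filter.1 (mem_coe.1 he)
      have he' := mem_filter.1 (mem_coe.1 he')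
      exact hi e he.1 e' he'.1 hu (he.2.trans he'.2.symm)

/-- a set of times without holes -/
def Cvx (I : ℕ → Prop) : Prop := ∀ a b c, a ≤ b → b ≤ c → I a → I c → I b

/-- indicator of a proposition -/
noncomputable def ind (s : Prop) : ℝ := if s then 1 else 0

theorem ind_nonneg (s : Prop) : 0 ≤ ind s := by unfold ind; split_ifs <;> norm_num

theorem ind_pos {s : Prop} (h : s) : ind s = 1 := if_pos h

theorem ind_neg {s : Prop} (h : ¬ s) : ind s = 0 := if_neg h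

theorem sum_ind {ι : Type} (S : Finset ι) (s : ι → Prop) :
    ∑ e ∈ S, ind (s e) = ((S.filter s).card : ℝ) := by
  unfold ind
  rw [sum_boole]

/-- data of a net: points, pivots, slopes, edges -/
structure Net (α ι : Type) where
  x : α → ℝ
  y : α → ℝ
  ξ : ℕ → ℝ
  η : ℕ → ℝ
  tau : ℕ → ℝ
  K : ℕ
  E : Finset α
  c : α → ℝ
  Ed : Finset ι
  u : ι → ℕ
  p : ι → α
  q : ι → α

namespace Net
variable {α ι : Type} (D : Net α ι)

/-- width of an edge -/
def d (e : ι) : ℝ := D.x (D.q e) - D.x (D.p e)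
/-- height of an edge -/
def h (e : ι) : ℝ := D.y (D.q e) - D.y (D.p e)

/-- the axioms of a net -/
structure Ok : Prop where
  pos : 0 < D.tau 0
  mono : Monotone D.tau
  lac : ∀ v, 2 * D.tau v ≤ D.tau (v + 4)
  one : ∀ s ∈ D.E, 1 ≤ D.c s
  mem : ∀ e ∈ D.Ed, D.u e < D.K ∧ D.p e ∈ D.E ∧ D.q e ∈ D.E
  piv : ∀ e ∈ D.Ed, D.x (D.p e) < D.ξ (D.u e) ∧ D.ξ (D.u e) < D.x (D.q e) ∧
    D.y (D.p e) < D.η (D.u e) ∧ D.η (D.u e) < D.y (D.q e)
  slo : ∀ e ∈ D.Ed, D.tau (D.u e) * D.d e < D.h e ∧ D.h e < D.tau (D.u e + 4) * D.d e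
  ip : ∀ e ∈ D.Ed, ∀ e' ∈ D.Ed, D.u e = D.u e' → D.p e = D.p e' → e = e'
  iq : ∀ e ∈ D.Ed, ∀ e' ∈ D.Ed, D.u e = D.u e' → D.q e = D.q e' → e = e'
  bq : ∀ s ∈ D.E, ∀ I : ℕ → Prop, Cvx I →
    ((D.Ed.filter fun e => D.q e = s ∧ I (D.u e)).card : ℝ) ≤
      (D.Ed.filter fun e => D.p e = s ∧ I (D.u e)).card + D.c s
  bp : ∀ s ∈ D.E, ∀ I : ℕ → Prop, Cvx I →
    ((D.Ed.filter fun e => D.p e = s ∧ I (D.u e)).card : ℝ) ≤
      (D.Ed.filter fun e => D.q e = s ∧ I (D.u e)).card + D.c s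

/-- the reflected net -/
def flip : Net α ι :=
  { D with
    x := fun s => -D.x s
    y := fun s => -D.y s
    ξ := fun v => -D.ξ v
    η := fun v => -D.η v
    p := D.q
    q := D.p }

/-- the left end is heavy in the first coordinate -/
def xp (N μ : ℝ) (e : ι) : Prop := hv D.ξ D.K N μ (D.x (D.p e)) (D.d e)
/-- the right end is heavy in the first coordinate -/
def xq (N μ : ℝ) (e : ι) : Prop := hv D.ξ D.K N μ (D.x (D.q e)) (D.d e)
/-- the left end is heavy in the second coordinate -/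
def yp (N μ : ℝ) (e : ι) : Prop := hv D.η D.K N μ (D.y (D.p e)) (D.h e)
/-- the right end is heavy in the second coordinate -/
def yq (N μ : ℝ) (e : ι) : Prop := hv D.η D.K N μ (D.y (D.q e)) (D.h e)
/-- one end is light in both coordinates -/
def DL (N μ : ℝ) (e : ι) : Prop :=
  (¬ D.xp N μ e ∧ ¬ D.yp N μ e) ∨ (¬ D.xq N μ e ∧ ¬ D.yq N μ e)
/-- mixed edge of the first type and class at least `σ` -/
def TQ (N μ σ : ℝ) (e : ι) : Prop := D.xp N μ e ∧ D.yq N μ e ∧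
  σ ≤ wt D.ξ D.K (D.x (D.p e)) (μ * D.d e) * wt D.η D.K (D.y (D.q e)) (μ * D.h e)
/-- mixed edge of the second type and class at least `σ` -/
def TP (N μ σ : ℝ) (e : ι) : Prop := D.xq N μ e ∧ D.yp N μ e ∧
  σ ≤ wt D.ξ D.K (D.x (D.q e)) (μ * D.d e) * wt D.η D.K (D.y (D.p e)) (μ * D.h e)
/-- edge of the cluster with scale `R`, centre `(X, Y)` and weight class `J` -/
def cls (N μ σ R X Y J : ℝ) (e : ι) : Prop := D.TQ N μ σ e ∧ R ≤ D.d e ∧ D.d e < 2 * R ∧
  |D.x (D.q e) - X| ≤ R / 8 ∧ |Y - D.y (D.q e)| ≤ D.h e / μ ∧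
  J ≤ wt D.η D.K (D.y (D.q e)) (μ * D.h e) ∧ wt D.η D.K (D.y (D.q e)) (μ * D.h e) < 2 * J
/-- point near the cluster -/
def nr (R X Y J : ℝ) (s : α) : Prop := |D.x s - X| ≤ 3 * R / 8 ∧
  wt D.η D.K (D.y s) |Y - D.y s| < 2 * J ∧ 1 ≤ wt D.ξ D.K (D.x s) (4 * R) ∧
  2 * wt D.ξ D.K (D.x s) (R / 8) ≤ wt D.ξ D.K (D.x s) (4 * R)
/-- what a point near a cluster pays -/
noncomputable def cost (N la σ : ℝ) (s : α) : ℝ := 17 * D.c s +
  ∑ e ∈ D.Ed.filter (fun e => D.p e = s), (8 / la + ind (D.DL N (4 * la) e) +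
    ind (D.TQ N (4 * la) (N * σ / 8) e) + ind (D.TP N (4 * la) (N * σ / 8) e))

theorem flip_d (e : ι) : D.flip.d e = D.d e := by simp only [d, flip]; ring
theorem flip_h (e : ι) : D.flip.h e = D.h e := by simp only [h, flip]; ring
theorem flip_xp (N μ : ℝ) (e : ι) : D.flip.xp N μ e ↔ D.xq N μ e := by
  unfold xp xq; rw [flip_d]; exact hv_neg
theorem flip_xq (N μ : ℝ) (e : ι) : D.flip.xq N μ e ↔ D.xp N μ e := by
  unfold xp xq; rw [flip_d]; exact hv_neg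
theorem flip_yp (N μ : ℝ) (e : ι) : D.flip.yp N μ e ↔ D.yq N μ e := by
  unfold yp yq; rw [flip_h]; exact hv_neg
theorem flip_yq (N μ : ℝ) (e : ι) : D.flip.yq N μ e ↔ D.yp N μ e := by
  unfold yp yq; rw [flip_h]; exact hv_neg
theorem flip_DL (N μ : ℝ) (e : ι) : D.flip.DL N μ e ↔ D.DL N μ e := by
  unfold DL; rw [flip_xp, flip_xq, flip_yp, flip_yq]; exact Or.comm
theorem flip_TQ (N μ σ : ℝ) (e : ι) : D.flip.TQ N μ σ e ↔ D.TP N μ σ e := by
  unfold TQ TP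
  rw [flip_xp, flip_yq, flip_d, flip_h]
  exact and_congr_right fun _ => and_congr_right fun _ => by
    rw [← wt_neg D.ξ, ← wt_neg D.η]; rfl
theorem flip_TP (N μ σ : ℝ) (e : ι) : D.flip.TP N μ σ e ↔ D.TQ N μ σ e := by
  unfold TQ TP
  rw [flip_xq, flip_yp, flip_d, flip_h]
  exact and_congr_right fun _ => and_congr_right fun _ => by
    rw [← wt_neg D.ξ, ← wt_neg D.η]; rfl

variable {D}

theorem Ok.flip (h : D.Ok) : D.flip.Ok where
  pos := h.pos
  mono := h.mono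
  lac := h.lac
  one := h.one
  mem := fun e he => ⟨(h.mem e he).1, (h.mem e he).2.2, (h.mem e he).2.1⟩
  piv := fun e he => by
    obtain ⟨a, b, c, d⟩ := h.piv e he
    exact ⟨neg_lt_neg b, neg_lt_neg a, neg_lt_neg d, neg_lt_neg c⟩
  slo := fun e he => by rw [flip_d, flip_h]; exact h.slo e he
  ip := h.iq
  iq := h.ip
  bq := h.bp
  bp := h.bq

theorem Ok.tau_pos (h : D.Ok) (v : ℕ) : 0 < D.tau v := h.pos.trans_le (h.mono (Nat.zero_le v))

theorem Ok.d_pos (h : D.Ok) {e : ι} (he : e ∈ D.Ed) : 0 < D.d e := by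
  obtain ⟨a, b, -⟩ := h.piv e he
  unfold d; linarith

theorem Ok.h_pos (h : D.Ok) {e : ι} (he : e ∈ D.Ed) : 0 < D.h e := by
  obtain ⟨-, -, a, b⟩ := h.piv e he
  unfold Net.h; linarith

theorem Ok.not_xx (h : D.Ok) {N μ : ℝ} (hN : 3 ≤ N) (hμ : 4 ≤ μ) {e : ι} (he : e ∈ D.Ed)
    (a : D.xp N μ e) (b : D.xq N μ e) : False :=
  not_both hN hμ (h.mem e he).1 (h.piv e he).1 (h.piv e he).2.1 a b

theorem Ok.not_yy (h : D.Ok) {N μ : ℝ} (hN : 3 ≤ N) (hμ : 4 ≤ μ) {e : ι} (he : e ∈ D.Ed)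
    (a : D.yp N μ e) (b : D.yq N μ e) : False :=
  not_both hN hμ (h.mem e he).1 (h.piv e he).2.2.1 (h.piv e he).2.2.2 a b

/-- the four big balls of an edge contain the pivot -/
theorem Ok.one_le (h : D.Ok) {μ : ℝ} (hμ : 4 ≤ μ) {e : ι} (he : e ∈ D.Ed) :
    1 ≤ wt D.ξ D.K (D.x (D.p e)) (μ * D.d e) ∧ 1 ≤ wt D.ξ D.K (D.x (D.q e)) (μ * D.d e) ∧
    1 ≤ wt D.η D.K (D.y (D.p e)) (μ * D.h e) ∧ 1 ≤ wt D.η D.K (D.y (D.q e)) (μ * D.h e) := by
  obtain ⟨a, b, c, d⟩ := h.piv e he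
  have h1 := (small_le hμ (h.d_pos he).le).2
  have h2 := (small_le hμ (h.h_pos he).le).2
  have h3 : D.d e = D.x (D.q e) - D.x (D.p e) := rfl
  have h4 : D.h e = D.y (D.q e) - D.y (D.p e) := rfl
  have hu := (h.mem e he).1
  exact ⟨one_le_wt hu (abs_le.2 ⟨by linarith, by linarith⟩),
    one_le_wt hu (abs_le.2 ⟨by linarith, by linarith⟩),
    one_le_wt hu (abs_le.2 ⟨by linarith, by linarith⟩),
    one_le_wt hu (abs_le.2 ⟨by linarith, by linarith⟩)⟩

/-- an edge that is not doubly light is mixed -/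
theorem Ok.tri (h : D.Ok) {N μ : ℝ} (hN : 3 ≤ N) (hμ : 4 ≤ μ) {e : ι} (he : e ∈ D.Ed) :
    D.DL N μ e ∨ (D.xp N μ e ∧ D.yq N μ e) ∨ (D.xq N μ e ∧ D.yp N μ e) := by
  have a := h.not_xx hN hμ he
  have b := h.not_yy hN hμ he
  unfold DL
  tauto

end Net

/-- a frame during the times `a, …, b`, with the two-times property -/
structure Fr {α : Type} (X Y : α → ℝ) (si io : ℕ → ℝ) (A : ℕ → Finset α) (E : Finset α)
    (a b : ℕ) : Prop where
  ab : ∀ t, a ≤ t → t ≤ b → ∀ p ∈ E, (p ∈ A t ↔ si t * X p + io t < Y p)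
  ord : ∀ s t, a ≤ s → s < t → t ≤ b → ∀ p ∈ E, ∀ q ∈ E, p ∈ A t → p ∉ A s → q ∈ A s →
    q ∉ A t → X p < X q
  two : ∀ a' s b', a ≤ a' → a' ≤ s → s ≤ b' → b' ≤ b →
    ∃ r₁ r₂ r₃ r₄, (a' ≤ r₁ ∧ r₁ ≤ s) ∧ (s ≤ r₂ ∧ r₂ ≤ b') ∧ (a' ≤ r₃ ∧ r₃ ≤ s) ∧
      (s ≤ r₄ ∧ r₄ ≤ b') ∧ ∀ p ∈ KS.act A E a' s, p ∈ KS.act A E s b' →
        p ∈ A s \ A r₁ ∨ p ∈ A s \ A r₂ ∨ p ∈ A r₃ \ A s ∨ p ∈ A r₄ \ A s

theorem Fr.times {α : Type} {X Y : α → ℝ} {si io : ℕ → ℝ} {A : ℕ → Finset α} {E : Finset α}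
    {a b a' b' : ℕ} (h : Fr X Y si io A E a b) (ha : a ≤ a') (hb : b' ≤ b) :
    Fr X Y si io A E a' b' :=
  ⟨fun t h1 h2 => h.ab t (ha.trans h1) (h2.trans hb),
    fun s t h1 h2 h3 => h.ord s t (ha.trans h1) h2 (h3.trans hb),
    fun u s v h1 h2 h3 h4 => h.two u s v (ha.trans h1) h2 h3 (h4.trans hb)⟩

theorem TV_nonneg {α : Type} (A : ℕ → Finset α) (E : Finset α) (a b : ℕ) : 0 ≤ TV A E a b :=
  sum_nonneg fun _ _ => abs_nonneg _

theorem sz_nonneg {α : Type} (A : ℕ → Finset α) (E : Finset α) (a b : ℕ) : 0 ≤ sz A E a b :=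
  add_nonneg (Nat.cast_nonneg _) (TV_nonneg A E a b)

theorem act_le_sz {α : Type} (A : ℕ → Finset α) (E : Finset α) (a b : ℕ) :
    ((KS.act A E a b).card : ℝ) ≤ sz A E a b := le_add_of_nonneg_right (TV_nonneg A E a b)

/-- `1 + log K` -/
noncomputable def Lg (K : ℕ) : ℝ := 1 + Real.log K
/-- bound for the number of clusters near a point -/
noncomputable def MM (K : ℕ) : ℝ := 560 * Lg K ^ 2

theorem one_le_Lg (K : ℕ) : 1 ≤ Lg K := le_add_of_nonneg_right (Real.log_natCast_nonneg K)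

end Pool.Agent.P.MP_77a832_co.EL.L

namespace Pool.Agent.P.MP_77a832_co.EL.L

open Finset
open scoped Classical

/-- few dyadic scales are light -/
def S_SCA : Prop := ∀ (ζ : ℕ → ℝ) (K b₁ b₂ : ℕ) (c N : ℝ) (S : Finset ℤ), 0 < N →
  (∀ a ∈ S, 1 ≤ wt ζ K c ((2 : ℝ) ^ (a + b₂)) ∧
    N * wt ζ K c ((2 : ℝ) ^ (a - b₁)) ≤ (N - 1) * wt ζ K c ((2 : ℝ) ^ (a + b₂))) →
  (S.card : ℝ) ≤ (b₁ + b₂) * N * Lg K

/-- few edges have a doubly light left end -/
def S_DLC : Prop := ∀ (α ι : Type) (D : Net α ι) (N μ : ℝ) (m : ℕ), D.Ok → 3 ≤ N → 4 ≤ μ →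
  μ ≤ 2 ^ m → ((D.Ed.filter fun e => ¬ D.xp N μ e ∧ ¬ D.yp N μ e).card : ℝ) ≤
    12 * D.E.card * ((2 * m + 1) * N * Lg D.K) ^ 2

/-- first coordinate near a cluster -/
def S_GX : Prop := ∀ (α ι : Type) (D : Net α ι) (N la σ R X Y J : ℝ), D.Ok → 8 ≤ N → 8 ≤ la →
  ∀ e₀ ∈ D.Ed, D.cls N (4 * la) σ R X Y J e₀ →
    (∀ t, |t - X| ≤ 3 * R / 8 → 1 ≤ wt D.ξ D.K t (4 * R) ∧
      2 * wt D.ξ D.K t (R / 8) ≤ wt D.ξ D.K t (4 * R)) ∧
    ∀ e ∈ D.Ed, |D.x (D.p e) - X| ≤ R / 4 → R / la ≤ D.d e → D.d e ≤ la * R →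
      D.DL N (4 * la) e

/-- long edges that start near a cluster -/
def S_GC : Prop := ∀ (α ι : Type) (D : Net α ι) (N la σ R X Y J : ℝ), D.Ok → 8 ≤ N → 8 ≤ la →
  ∀ e₀ ∈ D.Ed, D.cls N (4 * la) σ R X Y J e₀ → ∀ e ∈ D.Ed, ∀ ρ : ℝ,
    |D.x (D.p e) - X| ≤ R / 4 → la * R < D.d e → la * ρ ≤ D.h e → |D.y (D.p e) - Y| ≤ ρ →
    J / 2 ≤ wt D.η D.K Y ρ → D.DL N (4 * la) e ∨ D.TQ N (4 * la) (N * σ / 8) e ∨
      D.TP N (4 * la) (N * σ / 8) e

/-- second coordinate near a cluster -/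
def S_GY : Prop := ∀ (α ι : Type) (D : Net α ι) (N la σ R X Y J : ℝ), D.Ok → 8 ≤ N → 8 ≤ la →
  ∀ e ∈ D.Ed, D.cls N (4 * la) σ R X Y J e →
    (∀ v, D.u e + 4 ≤ v → J / 2 ≤ wt D.η D.K Y (D.tau v * R)) ∧
    (∀ t, |t - Y| ≤ D.tau (D.u e) * R → wt D.η D.K t |Y - t| < 2 * J) ∧
    |D.y (D.q e) - Y| ≤ D.tau (D.u e + 4) * R ∧
    wt D.η D.K (D.y (D.q e)) |Y - D.y (D.q e)| < 2 * J

/-- flux through a growing region -/
def S_FLUX : Prop := ∀ (α ι : Type) (D : Net α ι) (χ : α → ℝ) (G : ℕ → α → Prop) (v₁ v₂ : ℕ),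
  D.Ok → (∀ s, 0 ≤ χ s ∧ χ s ≤ 1) → (∀ v v' s, v ≤ v' → G v s → G v' s) →
  ∑ e ∈ D.Ed.filter (fun e => v₁ ≤ D.u e ∧ D.u e ≤ v₂),
      (χ (D.q e) * ind (G (D.u e) (D.q e)) - χ (D.p e) * ind (G (D.u e) (D.p e))) ≤
    ∑ s ∈ D.E.filter (fun s => χ s ≠ 0 ∧ G v₂ s), D.c s

/-- the edges of one cluster -/
def S_CL : Prop := ∀ (α ι : Type) (D : Net α ι) (N la σ R X Y J : ℝ), D.Ok → 8 ≤ N → 8 ≤ la →
  ((D.Ed.filter (D.cls N (4 * la) σ R X Y J)).card : ℝ) ≤
    ∑ s ∈ D.E.filter (D.nr R X Y J), D.cost N la σ s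

/-- a point is near few clusters -/
def S_NEAR : Prop := ∀ (α ι : Type) (D : Net α ι) (s : α) (T : Finset (ℤ × ℤ × ℕ)),
  (∀ t ∈ T, (2 : ℝ) ^ t.2.2 ≤ D.K) →
  ∑ t ∈ T, ∑ v ∈ range D.K, 2 / (2 : ℝ) ^ t.2.2 *
    ind (D.nr (2 ^ t.1) (t.2.1 * 2 ^ t.1 / 8) (D.η v) (2 ^ t.2.2) s) ≤ MM D.K

/-- sum over all clusters -/
def S_SUM : Prop := ∀ (α ι : Type) (D : Net α ι) (N μ σ : ℝ) (φ : α → ℝ), D.Ok → 3 ≤ N →
  4 ≤ μ → (∀ s ∈ D.E, 0 ≤ φ s) →
  (∀ R X Y J : ℝ, ((D.Ed.filter (D.cls N μ σ R X Y J)).card : ℝ) ≤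
    ∑ s ∈ D.E.filter (D.nr R X Y J), φ s) →
  ((D.Ed.filter (D.TQ N μ σ)).card : ℝ) ≤ MM D.K * ∑ s ∈ D.E, φ s

/-- the recursion over the classes -/
def S_REC : Prop := ∀ (α ι : Type) (D : Net α ι) (N : ℝ) (h m : ℕ), D.Ok → 8 ≤ N →
  (D.K : ℝ) ^ 2 < (N / 8) ^ h → 128 * (2 * MM D.K) ^ h ≤ 2 ^ m →
  (D.Ed.card : ℝ) ≤
    6 * (2 * MM D.K) ^ h * (17 + 24 * ((2 * m + 1) * N * Lg D.K) ^ 2) * ∑ s ∈ D.E, D.c s

/-- choice of the parameters -/
def S_ASY : Prop := ∀ r : ℝ, 0 < r → ∃ C : ℝ, 0 ≤ C ∧ ∀ K : ℕ, 1 ≤ K → ∃ (N : ℝ) (h m : ℕ),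
  8 ≤ N ∧ (K : ℝ) ^ 2 < (N / 8) ^ h ∧ 128 * (2 * MM K) ^ h ≤ 2 ^ m ∧
  6 * (2 * MM K) ^ h * (17 + 24 * ((2 * m + 1) * N * Lg K) ^ 2) ≤ C * (K : ℝ) ^ r

/-- the bound for nets -/
def NET : Prop := ∀ r : ℝ, 0 < r → ∃ C : ℝ, 0 ≤ C ∧ ∀ (α ι : Type) (D : Net α ι), D.Ok →
  1 ≤ D.K → (D.Ed.card : ℝ) ≤ C * (D.K : ℝ) ^ r * ∑ s ∈ D.E, D.c s

theorem net_of (h1 : S_REC) (h2 : S_ASY) : NET := by
  intro r hr
  obtain ⟨C, hC, h⟩ := h2 r hr
  refine ⟨C, hC, fun α ι D hD hK => ?_⟩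
  obtain ⟨N, k, m, a1, a2, a3, a4⟩ := h D.K hK
  exact (h1 α ι D N k m hD a1 a2 a3).trans (mul_le_mul_of_nonneg_right a4
    (sum_nonneg fun s hs => zero_le_one.trans (hD.one s hs)))

/-- a maximal matching of the points that enter with the points that leave -/
def S_MATCH : Prop := ∀ (α : Type) (B : ℕ → Finset α) (Z : Finset α) (K : ℕ),
  (∀ u < K, B (u + 1) \ B u ⊆ Z ∧ B u \ B (u + 1) ⊆ Z) →
  ∃ (Ed : Finset (ℕ × α × α)) (c : α → ℝ), (∀ s, 1 ≤ c s) ∧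
    (∀ e ∈ Ed, e.1 < K ∧ e.2.1 ∈ B (e.1 + 1) \ B e.1 ∧ e.2.2 ∈ B e.1 \ B (e.1 + 1)) ∧
    (∀ e ∈ Ed, ∀ e' ∈ Ed, e.1 = e'.1 → e.2.1 = e'.2.1 → e = e') ∧
    (∀ e ∈ Ed, ∀ e' ∈ Ed, e.1 = e'.1 → e.2.2 = e'.2.2 → e = e') ∧
    (∀ s, ∀ I : ℕ → Prop, Cvx I → ((Ed.filter fun e => e.2.2 = s ∧ I e.1).card : ℝ) ≤
      (Ed.filter fun e => e.2.1 = s ∧ I e.1).card + c s) ∧
    (∀ s, ∀ I : ℕ → Prop, Cvx I → ((Ed.filter fun e => e.2.1 = s ∧ I e.1).card : ℝ) ≤
      (Ed.filter fun e => e.2.2 = s ∧ I e.1).card + c s) ∧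
    ∑ s ∈ Z, c s ≤ Z.card + ∑ u ∈ range K, |((B (u + 1)).card : ℝ) - (B u).card| ∧
    ∑ u ∈ range K, (((B u \ B (u + 1)).card : ℝ) + (B (u + 1) \ B u).card) ≤
      2 * Ed.card + ∑ u ∈ range K, |((B (u + 1)).card : ℝ) - (B u).card|

/-- total variation along a subsequence of times -/
def S_TVS : Prop := ∀ (α : Type) (A : ℕ → Finset α) (E : Finset α) (a b K : ℕ) (w : ℕ → ℕ),
  Monotone w → a ≤ w 0 → w K ≤ b →
  ∑ u ∈ range K, |((E ∩ A (w (u + 1))).card : ℝ) - (E ∩ A (w u)).card| ≤ TV A E a b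

/-- net crossings along a sequence of times with lacunary slopes -/
def S_NETF : Prop := ∀ r : ℝ, 0 < r → ∃ C : ℝ, 0 ≤ C ∧ ∀ (α : Type) (X Y : α → ℝ)
  (si io : ℕ → ℝ) (A : ℕ → Finset α) (E : Finset α) (a b : ℕ), Fr X Y si io A E a b →
  ∀ (w : ℕ → ℕ) (K : ℕ) (tau : ℕ → ℝ), Monotone w → 1 ≤ K → a ≤ w 0 → w K ≤ b → 0 < tau 0 →
    Monotone tau → (∀ v, 2 * tau v ≤ tau (v + 4)) →
    (∀ u < K, w u < w (u + 1) → tau u ≤ si (w u) ∧ si (w (u + 1)) ≤ tau (u + 4)) →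
    ∑ u ∈ range K, dif A E (w u) (w (u + 1)) ≤ C * (K : ℝ) ^ r * sz A E a b

/-- activity of consecutive windows with lacunary slopes -/
def S_DYAD : Prop := ∀ r : ℝ, 0 < r → ∃ C : ℝ, 0 ≤ C ∧ ∀ (α : Type) (X Y : α → ℝ)
  (si io : ℕ → ℝ) (A : ℕ → Finset α) (E : Finset α) (a b : ℕ), Fr X Y si io A E a b →
  ∀ (T : ℕ → ℕ) (la : ℕ → ℝ), Monotone T → a ≤ T 0 → (∀ i, T i ≤ b) → 0 < la 0 →
    (∀ i, 2 * la i ≤ la (i + 1)) →
    (∀ i, T i < T (i + 1) → ∀ t, T i ≤ t → t ≤ T (i + 1) → la i ≤ si t ∧ si t ≤ la (i + 2)) →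
    ∀ m : ℕ, 1 ≤ m →
      ∑ i ∈ range m, ((KS.act A E (T i) (T (i + 1))).card : ℝ) ≤ C * (m : ℝ) ^ r * sz A E a b

/-- reversal of time -/
def S_REV : Prop := ∀ (α : Type) (A : ℕ → Finset α) (E : Finset α) (H : ℕ),
  (∀ a b, a ≤ b → b ≤ H → KS.act (fun t => A (H - t)) E (H - b) (H - a) = KS.act A E a b ∧
    TV (fun t => A (H - t)) E (H - b) (H - a) = TV A E a b) ∧
  ∀ (X Y : α → ℝ) (si io : ℕ → ℝ) (a : ℕ), a ≤ H → Fr X Y si io A E a H →
    Fr (fun p => -X p) Y (fun t => -si (H - t)) (fun t => io (H - t)) (fun t => A (H - t)) E 0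
      (H - a)

/-- the mirror image of the bound for consecutive windows -/
def S_DYM : Prop := ∀ r : ℝ, 0 < r → ∃ C : ℝ, 0 ≤ C ∧ ∀ (α : Type) (X Y : α → ℝ)
  (si io : ℕ → ℝ) (A : ℕ → Finset α) (E : Finset α) (T : ℕ → ℕ) (la : ℕ → ℝ) (m : ℕ),
  Fr X Y si io A E (T 0) (T m) → Monotone T → 1 ≤ m → 0 < la 0 →
    (∀ i, 2 * la i ≤ la (i + 1)) →
    (∀ i < m, ∀ t, T i ≤ t → t ≤ T (i + 1) →
      la (m - 1 - i) ≤ -si t ∧ -si t ≤ la (m + 1 - i)) →
    ∑ i ∈ range m, ((KS.act A E (T i) (T (i + 1))).card : ℝ) ≤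
      C * (m : ℝ) ^ r * sz A E (T 0) (T m)

/-- straight lines give the two-times property, also after deleting times -/
def S_TWO : Prop := ∀ (α : Type) (x y X Y : α → ℝ) (th be si io : ℕ → ℝ) (A : ℕ → Finset α)
  (E : Finset α) (w : ℕ → ℕ), Lin x y th be A E → Frame x X Y si io A E → Monotone w → ∀ a b,
    Fr X Y (fun t => si (w t)) (fun t => io (w t)) (fun t => A (w t)) E a b

/-- a retraction of the times onto a chain of windows -/
def S_RET : Prop := ∀ (a b : ℕ → ℕ) (m : ℕ), (∀ i, a i ≤ b i ∧ b i ≤ a (i + 1)) → 1 ≤ m →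
  ∃ w T : ℕ → ℕ, Monotone w ∧ Monotone T ∧ (∀ i < m, T i = a i) ∧ (∀ i, m ≤ i → T i = b (m - 1)) ∧
    (∀ i < m, ∀ t, a i ≤ t → t ≤ b i → w t = t) ∧
    ∀ i < m, ∀ t, T i ≤ t → t ≤ T (i + 1) →
      (a i ≤ w t ∧ w t ≤ b i) ∨ (i + 1 < m ∧ a (i + 1) ≤ w t ∧ w t ≤ b (i + 1))

/-- windows with gaps, both orientations -/
def S_GAP : Prop := S_LAC

end Pool.Agent.P.MP_77a832_co.EL.L

namespace Pool.Agent.P.MP_77a832_co.EL.L

open Finset
open scoped Classical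

namespace SCAc

theorem one (ψ : ℤ → ℝ) (hm : Monotone ψ) (h0 : ∀ a, 0 ≤ ψ a) (S : Finset ℤ) :
    ∀ t, (∀ a ∈ S, a < t) → ∑ a ∈ S, (ψ (a + 1) - ψ a) ≤ ψ t := by
  induction S using Finset.induction_on_max with
  | empty => intro t _; simpa using h0 t
  | insert a S ha ih =>
    intro t ht
    rw [sum_insert fun h => lt_irrefl _ (ha a h)]
    linarith [ih a ha, hm (show a + 1 ≤ t from ht a (mem_insert_self _ _))]

theorem many (ψ : ℤ → ℝ) (L : ℝ) (hm : Monotone ψ) (h0 : ∀ a, 0 ≤ ψ a) (hL : ∀ a, ψ a ≤ L)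
    (S : Finset ℤ) (b : ℕ) : ∑ a ∈ S, (ψ (a + b) - ψ a) ≤ b * L := by
  induction b with
  | zero => simp
  | succ b ih =>
    obtain ⟨t, ht⟩ := S.bddAbove
    have h := (one (fun a => ψ (a + b)) (fun x y h => hm (by omega)) (fun _ => h0 _) S (t + 1)
      fun a ha => Int.lt_add_one_iff.2 (ht ha)).trans (hL _)
    have e : ∑ a ∈ S, (ψ (a + (b + 1 : ℕ)) - ψ a) =
        ∑ a ∈ S, (ψ (a + 1 + b) - ψ (a + b)) + ∑ a ∈ S, (ψ (a + b) - ψ a) := by
      rw [← sum_add_distrib]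
      refine sum_congr rfl fun a _ => ?_
      rw [show a + (b + 1 : ℕ) = a + 1 + b by push_cast; ring]
      ring
    rw [e]
    push_cast
    linarith

/-- the potential -/
noncomputable def ph (w : ℝ) : ℝ := if w = 0 then 0 else 1 + Real.log w

theorem ph_of {w : ℝ} (h : 1 ≤ w) : ph w = 1 + Real.log w := if_neg (by linarith)

theorem alt (ζ : ℕ → ℝ) (K : ℕ) (c r : ℝ) : wt ζ K c r = 0 ∨ 1 ≤ wt ζ K c r :=
  (wt_nonneg ζ K c r).eq_or_lt.imp Eq.symm one_le_wt_of_pos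

theorem ph_nonneg {w : ℝ} (h : w = 0 ∨ 1 ≤ w) : 0 ≤ ph w := by
  rcases h with h | h
  · simp [ph, h]
  · rw [ph_of h]; linarith [Real.log_nonneg h]

end SCAc

open SCAc in
theorem p_SCA :
    S_SCA := by
  intro ζ K b₁ b₂ c N S hN h
  have key := many (fun a => ph (wt ζ K c ((2 : ℝ) ^ (a - b₁)))) (Lg K) (fun x y hxy => by
      have h1 : wt ζ K c ((2 : ℝ) ^ (x - b₁)) ≤ wt ζ K c ((2 : ℝ) ^ (y - b₁)) :=
        wt_mono (zpow_le_zpow_right₀ one_le_two (by omega))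
      rcases alt ζ K c ((2 : ℝ) ^ (x - b₁)) with h2 | h2
      · simp only [h2]
        exact (if_pos rfl).trans_le (ph_nonneg (alt _ _ _ _))
      · simp only [ph_of h2, ph_of (h2.trans h1)]
        linarith [Real.log_le_log (by linarith) h1])
    (fun a => ph_nonneg (alt _ _ _ _)) (fun a => by
      rcases alt ζ K c ((2 : ℝ) ^ (a - b₁)) with h2 | h2
      · simp only [h2]
        exact (if_pos rfl).trans_le (zero_le_one.trans (one_le_Lg K))
      · simp only [ph_of h2, Lg]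
        linarith [Real.log_le_log (by linarith) (wt_le ζ K c ((2 : ℝ) ^ (a - b₁)))])
    S (b₁ + b₂)
  have low : ∀ a ∈ S, N⁻¹ ≤ ph (wt ζ K c ((2 : ℝ) ^ (a + (b₁ + b₂ : ℕ) - b₁))) -
      ph (wt ζ K c ((2 : ℝ) ^ (a - b₁))) := by
    intro a ha
    obtain ⟨h1, h2⟩ := h a ha
    rw [show a + (b₁ + b₂ : ℕ) - b₁ = a + b₂ by push_cast; ring, ph_of h1]
    rcases alt ζ K c ((2 : ℝ) ^ (a - b₁)) with h3 | h3
    · rw [h3] at h2 ⊢
      have h4 : 1 ≤ N := by nlinarith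
      have h5 : ph 0 = 0 := if_pos rfl
      linarith [inv_le_one_of_one_le₀ h4, Real.log_nonneg h1]
    · rw [ph_of h3]
      generalize wt ζ K c ((2 : ℝ) ^ (a - b₁)) = u at h2 h3
      generalize wt ζ K c ((2 : ℝ) ^ (a + b₂)) = v at h1 h2
      have h4 := Real.log_le_sub_one_of_pos (show 0 < u / v by positivity)
      rw [Real.log_div (by linarith) (by linarith)] at h4
      have h5 : u / v ≤ 1 - N⁻¹ := by
        rw [div_le_iff₀ (by linarith)]
        refine le_of_mul_le_mul_left (h2.trans (le_of_eq ?_)) hN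
        field_simp
      linarith
  have h1 := (card_nsmul_le_sum S _ _ low).trans key
  rw [nsmul_eq_mul, ← div_eq_mul_inv, div_le_iff₀ hN] at h1
  push_cast at h1
  linarith

end Pool.Agent.P.MP_77a832_co.EL.L

namespace Pool.Agent.P.MP_77a832_co.EL.L

open Finset
open scoped Classical

namespace DLCc

theorem log_le {r : ℝ} (hr : 0 < r) : (2 : ℝ) ^ Int.log 2 r ≤ r := by
  simpa using Int.zpow_log_le_self (b := 2) (by norm_num) hr

theorem lt_log (r : ℝ) : r < 2 * (2 : ℝ) ^ Int.log 2 r := by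
  have := Int.lt_zpow_succ_log_self (b := 2) (by norm_num) r
  rw [Nat.cast_ofNat, zpow_add_one₀ (by norm_num)] at this
  linarith

theorem lt_two {r r' : ℝ} (hr : 0 < r') (h : Int.log 2 r = Int.log 2 r') : r < 2 * r' := by
  have h1 := lt_log r
  have h2 := log_le hr
  rw [h] at h1
  linarith

theorem light {ζ : ℕ → ℝ} {K m : ℕ} {N μ c r : ℝ} (hN : 3 ≤ N) (hμ : 4 ≤ μ) (hm : μ ≤ 2 ^ m)
    (hr : 0 < r) (h : ¬ hv ζ K N μ c r) :
    1 ≤ wt ζ K c ((2 : ℝ) ^ (Int.log 2 r + (m + 1 : ℕ))) ∧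
      N * wt ζ K c ((2 : ℝ) ^ (Int.log 2 r - m)) ≤
        (N - 1) * wt ζ K c ((2 : ℝ) ^ (Int.log 2 r + (m + 1 : ℕ))) := by
  have h0 : (0 : ℝ) < μ := by linarith
  have h1 : (2 : ℝ) ^ (Int.log 2 r - m) ≤ r / μ := by
    rw [zpow_sub₀ (by norm_num), zpow_natCast]
    exact div_le_div₀ hr.le (log_le hr) h0 hm
  have h2 : μ * r ≤ (2 : ℝ) ^ (Int.log 2 r + (m + 1 : ℕ)) := by
    rw [zpow_add₀ (by norm_num), zpow_natCast, pow_succ]
    have := mul_le_mul hm (lt_log r).le hr.le (by positivity)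
    linarith
  have h3 := wt_mono (ζ := ζ) (K := K) (c := c) h1
  have h4 := wt_mono (ζ := ζ) (K := K) (c := c) h2
  have h5 := wt_nonneg ζ K c (r / μ)
  have h6 := wt_nonneg ζ K c (μ * r)
  unfold hv at h
  rw [not_le] at h
  have h7 : 0 < wt ζ K c (μ * r) := by
    by_contra h8
    have h9 : wt ζ K c (μ * r) = 0 := le_antisymm (not_lt.1 h8) h6
    rw [h9] at h
    nlinarith
  refine ⟨one_le_wt_of_pos (h7.trans_le h4), ?_⟩
  nlinarith

end DLCc

open DLCc in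
theorem p_DLC (hSCA : S_SCA) :
    S_DLC := by
  intro α ι D N μ m hD hN hμ hm
  set S := D.Ed.filter fun e => ¬ D.xp N μ e ∧ ¬ D.yp N μ e with hS
  let Sx : α → Finset ℤ := fun s => (S.filter fun e => D.p e = s).image fun e => Int.log 2 (D.d e)
  let Sy : α → Finset ℤ := fun s => (S.filter fun e => D.p e = s).image fun e => Int.log 2 (D.h e)
  have hN0 : 0 < N := by linarith
  have e1 : ((m : ℝ) + ((m + 1 : ℕ) : ℝ)) = 2 * m + 1 := by push_cast; ring
  have hx : ∀ s, ((Sx s).card : ℝ) ≤ (2 * m + 1) * N * Lg D.K := fun s => by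
    rw [← e1]
    refine hSCA D.ξ D.K m (m + 1) (D.x s) N _ hN0 fun a ha => ?_
    obtain ⟨e, he, rfl⟩ := mem_image.1 ha
    obtain ⟨he1, rfl⟩ := mem_filter.1 he
    have he2 := mem_filter.1 he1
    exact light hN hμ hm (hD.d_pos he2.1) he2.2.1
  have hy : ∀ s, ((Sy s).card : ℝ) ≤ (2 * m + 1) * N * Lg D.K := fun s => by
    rw [← e1]
    refine hSCA D.η D.K m (m + 1) (D.y s) N _ hN0 fun a ha => ?_
    obtain ⟨e, he, rfl⟩ := mem_image.1 ha
    obtain ⟨he1, rfl⟩ := mem_filter.1 he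
    have he2 := mem_filter.1 he1
    exact light hN hμ hm (hD.h_pos he2.1) he2.2.2
  have h1 := cnt S (D.E.biUnion fun s => {s} ×ˢ (Sx s ×ˢ Sy s))
    (fun e => (D.p e, Int.log 2 (D.d e), Int.log 2 (D.h e))) D.u 12
    (fun e he => mem_biUnion.2 ⟨D.p e, (hD.mem e (mem_filter.1 he).1).2.1, mem_product.2
      ⟨mem_singleton_self _, mem_product.2 ⟨mem_image_of_mem _ (mem_filter.2 ⟨he, rfl⟩),
        mem_image_of_mem _ (mem_filter.2 ⟨he, rfl⟩)⟩⟩⟩)
    (fun e he e' he' hu hf =>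
      hD.ip e (mem_filter.1 he).1 e' (mem_filter.1 he').1 hu (congrArg Prod.fst hf))
    (fun e he e' he' hf => by
      have he := (mem_filter.1 he).1
      have he' := (mem_filter.1 he').1
      simp only [Prod.mk.injEq] at hf
      by_contra hc
      have a1 := hD.mono (not_lt.1 hc)
      have a2 : 2 * D.tau (D.u e + 4) ≤ D.tau (D.u e + 8) := hD.lac (D.u e + 4)
      have a3 : 2 * D.tau (D.u e + 8) ≤ D.tau (D.u e + 12) := hD.lac (D.u e + 8)
      have a4 := lt_two (hD.d_pos he') hf.2.1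
      have a5 := lt_two (hD.h_pos he) hf.2.2.symm
      have a6 := (hD.slo e he).2
      have a7 := (hD.slo e' he').1
      have a8 := hD.tau_pos (D.u e + 4)
      have a9 := hD.d_pos he'
      have b1 : 4 * D.tau (D.u e + 4) * D.d e' ≤ D.tau (D.u e') * D.d e' :=
        mul_le_mul_of_nonneg_right (by linarith) a9.le
      have b2 : D.tau (D.u e + 4) * D.d e < D.tau (D.u e + 4) * (2 * D.d e') :=
        mul_lt_mul_of_pos_left a4 a8
      linarith)
  have h2 : ((D.E.biUnion fun s => {s} ×ˢ (Sx s ×ˢ Sy s)).card : ℝ) ≤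
      D.E.card * ((2 * m + 1) * N * Lg D.K) ^ 2 := by
    refine (Nat.cast_le.2 card_biUnion_le).trans ?_
    rw [Nat.cast_sum, ← nsmul_eq_mul]
    refine sum_le_card_nsmul _ _ _ fun s _ => ?_
    rw [card_product, card_product, card_singleton, one_mul, Nat.cast_mul, sq]
    exact mul_le_mul (hx s) (hy s) (Nat.cast_nonneg _) ((Nat.cast_nonneg _).trans (hx s))
  have h3 : (S.card : ℝ) ≤ 12 * ((D.E.biUnion fun s => {s} ×ˢ (Sx s ×ˢ Sy s)).card : ℝ) := by
    exact_mod_cast h1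
  linarith

end Pool.Agent.P.MP_77a832_co.EL.L

namespace Pool.Agent.P.MP_77a832_co.EL.L

open Finset
open scoped Classical

namespace GXc

theorem light {N W w s b : ℝ} (hN : 8 ≤ N) (hW : 1 ≤ W) (h : (N - 1) * W ≤ N * w)
    (h1 : N * s ≤ W) (h2 : w ≤ b) : ¬ (N - 1) * b ≤ N * s := fun h3 => by
  have a : (N - 1) * w ≤ W := (mul_le_mul_of_nonneg_left h2 (by linarith)).trans (h3.trans h1)
  have c := mul_le_mul_of_nonneg_left a (show 0 ≤ N by linarith)
  have d := mul_le_mul_of_nonneg_left h (show 0 ≤ N - 1 by linarith)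
  have e : 0 < ((N - 1) * (N - 1) - N) * W := mul_pos (by nlinarith) (by linarith)
  nlinarith

end GXc

theorem p_GX :
    S_GX := by
  intro α ι D N la σ R X Y J h hN hla e₀ he₀ ⟨⟨hx, _⟩, d1, d2, hq, _⟩
  have d0 := h.d_pos he₀
  have hR : 0 < R := by linarith
  have hμ : (4 : ℝ) ≤ 4 * la := by linarith
  have hW := (h.one_le hμ he₀).1
  have ed : D.d e₀ = D.x (D.q e₀) - D.x (D.p e₀) := rfl
  rw [abs_le] at hq
  have s1 : D.d e₀ / (4 * la) ≤ D.d e₀ / 32 :=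
    div_le_div_of_nonneg_left d0.le (by norm_num) (by linarith)
  have s0 : 0 ≤ D.d e₀ / (4 * la) := by positivity
  have s2 : 4 * la * R ≤ 4 * la * D.d e₀ := mul_le_mul_of_nonneg_left d1 (by linarith)
  have s3 : 8 * R ≤ la * R := mul_le_mul_of_nonneg_right hla hR.le
  have A1 : ∀ c r, 0 ≤ r → X - R / 2 ≤ c - r → c + r ≤ X + (4 * (la * R) - 3 * R) →
      N * wt D.ξ D.K c r ≤ wt D.ξ D.K (D.x (D.p e₀)) (4 * la * D.d e₀) := fun c r _ a b =>
    hv.right hx (by linarith) (by linarith) (by linarith) (by linarith) (by linarith)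
  have A2 : ∀ c r, c - r ≤ X - 9 * R / 4 → X - 3 * R / 4 ≤ c + r →
      wt D.ξ D.K (D.x (D.p e₀)) (D.d e₀ / (4 * la)) ≤ wt D.ξ D.K c r := fun c r a b =>
    wt_sub (by linarith) (by linarith)
  have hx' : (N - 1) * wt D.ξ D.K (D.x (D.p e₀)) (4 * la * D.d e₀) ≤
    N * wt D.ξ D.K (D.x (D.p e₀)) (D.d e₀ / (4 * la)) := hx
  refine ⟨fun t ht => ?_, fun e he hp c1 c2 => ?_⟩
  · rw [abs_le] at ht
    have a := A1 t (R / 8) (by linarith) (by linarith) (by linarith)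
    have b := A2 t (4 * R) (by linarith) (by linarith)
    have c := hx'.trans (mul_le_mul_of_nonneg_left b (by linarith))
    have n := wt_nonneg D.ξ D.K t (R / 8)
    refine ⟨one_le_wt_of_pos (pos_of_mul_pos_left (b := N) ?_ (by linarith)),
      le_of_mul_le_mul_left (a := N) ?_ (by linarith)⟩
    · nlinarith
    · nlinarith
  · rw [abs_le] at hp
    have e0 := h.d_pos he
    have ee : D.d e = D.x (D.q e) - D.x (D.p e) := rfl
    have t0 : 0 ≤ D.d e / (4 * la) := by positivity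
    have t1 : D.d e / (4 * la) ≤ R / 4 := by
      rw [div_le_iff₀ (by linarith)]; linarith
    have t2 : D.d e / (4 * la) ≤ D.d e := div_le_self e0.le (by linarith)
    have t3 : R ≤ D.d e * la := (div_le_iff₀ (by linarith)).1 c1
    have t4 : D.d e * 8 ≤ D.d e * la := mul_le_mul_of_nonneg_left hla e0.le
    have np : ¬ D.xp N (4 * la) e := GXc.light hN hW hx'
      (A1 _ _ t0 (by linarith) (by linarith)) (A2 _ _ (by linarith) (by linarith))
    have nq : ¬ D.xq N (4 * la) e := GXc.light hN hW hx'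
      (A1 _ _ t0 (by linarith) (by linarith)) (A2 _ _ (by linarith) (by linarith))
    have := h.not_yy (by linarith : (3 : ℝ) ≤ N) hμ he
    unfold Net.DL
    tauto

end Pool.Agent.P.MP_77a832_co.EL.L

namespace Pool.Agent.P.MP_77a832_co.EL.L

open Finset
open scoped Classical

namespace GCc

theorem fin {N σ W W' J w A B : ℝ} (hN : 8 ≤ N) (hW : 1 ≤ W) (h1 : 1 ≤ W') (h2 : W' < 2 * J)
    (hσ : σ ≤ W * W') (hw : (N - 1) * W ≤ N * w) (hAB : N * w * (J / 2) ≤ A * B) :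
    N * σ / 8 ≤ A * B := by
  have hJ : 0 < J := by linarith
  have a : σ ≤ W * (2 * J) := hσ.trans (mul_le_mul_of_nonneg_left h2.le (by linarith))
  have b : N * σ ≤ N * (W * (2 * J)) := mul_le_mul_of_nonneg_left a (by linarith)
  have c : (N - 1) * W * (J / 2) ≤ N * w * (J / 2) := mul_le_mul_of_nonneg_right hw (by linarith)
  have d : 0 ≤ (N - 2) * (W * J) := mul_nonneg (by linarith) (by positivity)
  nlinarith

end GCc

theorem p_GC :
    S_GC := by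
  intro α ι D N la σ R X Y J hD hN hla e₀ he₀ ⟨⟨hx0, _, hσ⟩, r1, r2, r3, _, _, j2⟩ e he ρ a1 a2 a3
    a4 a5
  have hμ : (4 : ℝ) ≤ 4 * la := by linarith
  have d0 := hD.d_pos he₀
  have dp := hD.d_pos he
  have hp := hD.h_pos he
  have hR : 0 < R := by linarith
  have hρ : 0 ≤ ρ := (abs_nonneg _).trans a4
  have b1 : 8 * R ≤ la * R := mul_le_mul_of_nonneg_right hla hR.le
  have b2 : 8 * ρ ≤ la * ρ := mul_le_mul_of_nonneg_right hla hρ
  have s0 : D.d e₀ / (4 * la) ≤ D.d e₀ / 32 :=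
    div_le_div_of_nonneg_left d0.le (by norm_num) (by linarith)
  have s0' : 0 ≤ D.d e₀ / (4 * la) := div_nonneg d0.le (by linarith)
  obtain ⟨s1, s2⟩ := small_le hμ dp.le
  obtain ⟨s3, s4⟩ := small_le hμ hp.le
  obtain ⟨o1, -, -, o2⟩ := hD.one_le hμ he₀
  have e0 : D.d e₀ = D.x (D.q e₀) - D.x (D.p e₀) := rfl
  have e1 : D.d e = D.x (D.q e) - D.x (D.p e) := rfl
  have e2 : D.h e = D.y (D.q e) - D.y (D.p e) := rfl
  obtain ⟨r3, r4⟩ := abs_le.1 r3
  obtain ⟨a1, a1'⟩ := abs_le.1 a1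
  obtain ⟨a4, a4'⟩ := abs_le.1 a4
  have hJ : 0 ≤ J / 2 := by linarith
  have hN0 : 0 ≤ N := by linarith
  have w0 := wt_nonneg D.ξ D.K (D.x (D.p e₀)) (D.d e₀ / (4 * la))
  rcases hD.tri (N := N) (by linarith) hμ he with h | ⟨h1, h2⟩ | ⟨h1, h2⟩
  · exact Or.inl h
  · refine Or.inr (Or.inl ⟨h1, h2, GCc.fin hN o1 o2 j2 hσ hx0 ?_⟩)
    have c1 : wt D.ξ D.K (D.x (D.p e₀)) (D.d e₀ / (4 * la)) ≤
        wt D.ξ D.K (D.x (D.p e)) (4 * la * D.d e) := wt_sub (by linarith) (by linarith)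
    have c2 : N * wt D.η D.K Y ρ ≤ wt D.η D.K (D.y (D.q e)) (4 * la * D.h e) :=
      hv.left h2 hN0 (by linarith) (by linarith) (by linarith) (by linarith)
    have c3 : N * (J / 2) ≤ wt D.η D.K (D.y (D.q e)) (4 * la * D.h e) :=
      (mul_le_mul_of_nonneg_left a5 hN0).trans c2
    have := mul_le_mul c1 c3 (mul_nonneg hN0 hJ) (wt_nonneg _ _ _ _)
    linarith
  · refine Or.inr (Or.inr ⟨h1, h2, GCc.fin hN o1 o2 j2 hσ hx0 ?_⟩)
    have c1 : N * wt D.ξ D.K (D.x (D.p e₀)) (D.d e₀ / (4 * la)) ≤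
        wt D.ξ D.K (D.x (D.q e)) (4 * la * D.d e) :=
      hv.left h1 hN0 (by linarith) (by linarith) (by linarith) (by linarith)
    have c2 : wt D.η D.K Y ρ ≤ wt D.η D.K (D.y (D.p e)) (4 * la * D.h e) :=
      wt_sub (by linarith) (by linarith)
    exact mul_le_mul c1 (a5.trans c2) hJ (wt_nonneg _ _ _ _)

end Pool.Agent.P.MP_77a832_co.EL.L

namespace Pool.Agent.P.MP_77a832_co.EL.L

open Finset
open scoped Classical

theorem p_GY :
    S_GY := by
  rintro α ι D N la σ R X Y J hD hN hla e he ⟨⟨-, hq, -⟩, r1, r2, -, hY, j1, j2⟩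
  have h0 := hD.h_pos he
  have d0 := hD.d_pos he
  obtain ⟨s1, s2⟩ := hD.slo e he
  have t1 := hD.tau_pos (D.u e)
  have t2 := hD.tau_pos (D.u e + 4)
  have R0 : 0 < R := by linarith
  have a1 : D.tau (D.u e) * R ≤ D.tau (D.u e) * D.d e := mul_le_mul_of_nonneg_left r1 t1.le
  have a2 : D.tau (D.u e + 4) * D.d e ≤ D.tau (D.u e + 4) * (2 * R) :=
    mul_le_mul_of_nonneg_left r2.le t2.le
  have a3 : D.h e / (4 * la) ≤ D.h e / 32 :=
    div_le_div_of_nonneg_left h0.le (by norm_num) (by linarith)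
  have a4 : 32 * D.h e ≤ 4 * la * D.h e := mul_le_mul_of_nonneg_right (by linarith) h0.le
  obtain ⟨y1, y2⟩ := abs_le.1 hY
  refine ⟨fun v hv' => ?_, fun t ht => ?_, ?_, (wt_mono (by linarith)).trans_lt j2⟩
  · have b1 : D.tau (D.u e + 4) * R ≤ D.tau v * R := mul_le_mul_of_nonneg_right (hD.mono hv') R0.le
    have b2 : wt D.η D.K (D.y (D.q e)) (D.h e / (4 * la)) ≤ wt D.η D.K Y (D.tau v * R) :=
      wt_sub (by linarith) (by linarith)
    have b3 := wt_nonneg D.η D.K (D.y (D.q e)) (4 * la * D.h e)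
    have b4 : (N - 1) * wt D.η D.K (D.y (D.q e)) (4 * la * D.h e) ≤
        N * wt D.η D.K (D.y (D.q e)) (D.h e / (4 * la)) := hq
    have b5 : wt D.η D.K (D.y (D.q e)) (4 * la * D.h e) / 2 ≤
        wt D.η D.K (D.y (D.q e)) (D.h e / (4 * la)) := by
      refine le_of_mul_le_mul_left ?_ (show 0 < N by linarith)
      nlinarith
    linarith
  · have b1 : |Y - t| ≤ D.tau (D.u e) * R := by rwa [abs_sub_comm]
    obtain ⟨b2, b3⟩ := abs_le.1 ht
    exact (wt_sub (by linarith) (by linarith)).trans_lt j2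
  · rw [abs_sub_comm]
    linarith

end Pool.Agent.P.MP_77a832_co.EL.L

namespace Pool.Agent.P.MP_77a832_co.EL.L

open Finset
open scoped Classical

namespace FLUXc

theorem regroup {α ι : Type} (S : Finset ι) (E : Finset α) (f : ι → α) (hf : ∀ e ∈ S, f e ∈ E)
    (χ : α → ℝ) (T : ι → Prop) [DecidablePred T] (G : ι → α → Prop) :
    ∑ e ∈ S.filter T, χ (f e) * ind (G e (f e)) =
      ∑ s ∈ E, χ s * ((S.filter fun e => f e = s ∧ T e ∧ G e s).card : ℝ) := by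
  rw [← sum_fiberwise_of_maps_to (g := f) (t := E) fun e he => hf e (mem_filter.1 he).1]
  refine sum_congr rfl fun s _ => ?_
  rw [sum_congr rfl (g := fun e => χ s * ind (G e s)) fun e he => by rw [(mem_filter.1 he).2],
    ← mul_sum, sum_ind, filter_filter, filter_filter]
  congr 3
  ext e
  simp only [mem_filter]
  tauto

end FLUXc

theorem p_FLUX :
    S_FLUX := by
  intro α ι D χ G v₁ v₂ h hχ hG
  rw [sum_sub_distrib, FLUXc.regroup D.Ed D.E D.q (fun e he => (h.mem e he).2.2) χ _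
    fun e s => G (D.u e) s, FLUXc.regroup D.Ed D.E D.p (fun e he => (h.mem e he).2.1) χ _
    fun e s => G (D.u e) s, ← sum_sub_distrib, sum_filter]
  refine sum_le_sum fun s hs => ?_
  have hc := h.one s hs
  split_ifs with h1
  · have h2 := h.bq s hs (fun v => (v₁ ≤ v ∧ v ≤ v₂) ∧ G v s) fun a b c hab hbc ha hc =>
      ⟨⟨ha.1.1.trans hab, hbc.trans hc.1.2⟩, hG a b s hab ha.2⟩
    rw [← mul_sub]
    refine (mul_le_mul_of_nonneg_left (sub_le_iff_le_add'.2 ?_) (hχ s).1).trans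
      (mul_le_of_le_one_left (by linarith) (hχ s).2)
    convert h2
    rfl
  · rcases eq_or_ne (χ s) 0 with h0 | h0
    · simp [h0]
    · rw [filter_eq_empty_iff.2 fun e _ he => h1 ⟨h0, hG _ _ s he.2.1.2 he.2.2⟩,
        filter_eq_empty_iff.2 fun e _ he => h1 ⟨h0, hG _ _ s he.2.1.2 he.2.2⟩, sub_self]

end Pool.Agent.P.MP_77a832_co.EL.L

namespace Pool.Agent.P.MP_77a832_co.EL.L

open Finset
open scoped Classical

namespace CLc

/-- a trapezoid -/
noncomputable def chi (X R t : ℝ) : ℝ := max 0 (min 1 (2 - 8 * |t - X| / R))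

theorem chi_bd (X R t : ℝ) : 0 ≤ chi X R t ∧ chi X R t ≤ 1 :=
  ⟨le_max_left _ _, max_le zero_le_one (min_le_left _ _)⟩

theorem chi_one {X R t : ℝ} (hR : 0 < R) (h : |t - X| ≤ R / 8) : chi X R t = 1 := by
  have : 8 * |t - X| / R ≤ 1 := by rw [div_le_one hR]; linarith
  unfold chi
  rw [min_eq_left (by linarith), max_eq_right zero_le_one]

theorem chi_zero {X R t : ℝ} (hR : 0 < R) (h : R / 4 ≤ |t - X|) : chi X R t = 0 := by
  have : 2 ≤ 8 * |t - X| / R := by rw [le_div_iff₀ hR]; linarith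
  unfold chi
  exact max_eq_left ((min_le_right _ _).trans (by linarith))

theorem chi_lip {X R s t : ℝ} (hR : 0 < R) (h : s ≤ t) :
    chi X R s - chi X R t ≤ 8 * (t - s) / R := by
  have h1 : |t - X| ≤ |s - X| + (t - s) := by
    have := abs_add_le (s - X) (t - s)
    rwa [show s - X + (t - s) = t - X by ring, abs_of_nonneg (sub_nonneg.2 h)] at this
  have h2 : 8 * |t - X| / R ≤ 8 * |s - X| / R + 8 * (t - s) / R := by
    rw [← add_div]
    exact div_le_div_of_nonneg_right (by linarith) hR.le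
  have h3 : 0 ≤ 8 * (t - s) / R := div_nonneg (by linarith) hR.le
  unfold chi
  have a1 := le_max_left 0 (min 1 (2 - 8 * |t - X| / R))
  have a2 := le_max_right 0 (min 1 (2 - 8 * |t - X| / R))
  have a3 := min_le_left 1 (2 - 8 * |s - X| / R)
  have a4 := min_le_right 1 (2 - 8 * |s - X| / R)
  rcases max_choice 0 (min 1 (2 - 8 * |s - X| / R)) with e | e <;> rw [e]
  · linarith
  · rcases min_choice 1 (2 - 8 * |t - X| / R) with e' | e' <;> linarith

theorem ind_le (s : Prop) : ind s ≤ 1 := by unfold ind; split_ifs <;> norm_num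

end CLc

open CLc in
theorem p_CL (hGX : S_GX) (hGC : S_GC) (hGY : S_GY) (hFLUX : S_FLUX) :
    S_CL := by
  intro α ι D N la σ R X Y J hD hN hla
  have la0 : 0 < la := by linarith
  obtain ⟨k, hk⟩ : ∃ k : ι → ℝ, k = fun e => 8 / la + ind (D.DL N (4 * la) e) +
    ind (D.TQ N (4 * la) (N * σ / 8) e) + ind (D.TP N (4 * la) (N * σ / 8) e) := ⟨_, rfl⟩
  have l8 : 0 ≤ 8 / la := by positivity
  have k1 : ∀ e, 8 / la ≤ k e := fun e => by
    rw [hk]; linarith [ind_nonneg (D.DL N (4 * la) e), ind_nonneg (D.TQ N (4 * la) (N * σ / 8) e),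
      ind_nonneg (D.TP N (4 * la) (N * σ / 8) e)]
  have k2 : ∀ e, D.DL N (4 * la) e ∨ D.TQ N (4 * la) (N * σ / 8) e ∨
      D.TP N (4 * la) (N * σ / 8) e → 1 ≤ k e := fun e h => by
    have b1 := ind_nonneg (D.DL N (4 * la) e)
    have b2 := ind_nonneg (D.TQ N (4 * la) (N * σ / 8) e)
    have b3 := ind_nonneg (D.TP N (4 * la) (N * σ / 8) e)
    rw [hk]
    rcases h with h | h | h <;> linarith [ind_pos h]
  have hcost : ∀ s, D.cost N la σ s = 17 * D.c s + ∑ e ∈ D.Ed.filter (fun e => D.p e = s), k e :=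
    fun s => by rw [hk]; rfl
  rcases (D.Ed.filter (D.cls N (4 * la) σ R X Y J)).eq_empty_or_nonempty with h0 | h0
  · rw [h0, card_empty, Nat.cast_zero]
    refine sum_nonneg fun s hs => ?_
    rw [hcost]
    have := hD.one s (mem_filter.1 hs).1
    exact add_nonneg (by linarith) (sum_nonneg fun e _ => l8.trans (k1 e))
  obtain ⟨e1, he1, hmin⟩ := exists_min_image _ D.u h0
  obtain ⟨e2, he2, hmax⟩ := exists_max_image _ D.u h0
  rw [mem_filter] at he1 he2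
  have hR : 0 < R := by linarith [hD.d_pos he1.1, he1.2.2.2.1]
  obtain ⟨gx1, gx2⟩ := hGX α ι D N la σ R X Y J hD hN hla e1 he1.1 he1.2
  have gc := hGC α ι D N la σ R X Y J hD hN hla e1 he1.1 he1.2
  have gy := hGY α ι D N la σ R X Y J hD hN hla
  obtain ⟨G, hG⟩ : ∃ G : ℕ → α → Prop, ∀ v s, G v s ↔ |D.y s - Y| ≤ D.tau v * R :=
    ⟨_, fun _ _ => Iff.rfl⟩
  have Gm : ∀ v v' s, v ≤ v' → G v s → G v' s := fun v v' s h g =>
    (hG _ _).2 (((hG _ _).1 g).trans (mul_le_mul_of_nonneg_right (hD.mono h) hR.le))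
  have fl := hFLUX α ι D (fun s => chi X R (D.x s)) G (D.u e1 + 4) (D.u e2) hD
    (fun s => chi_bd _ _ _) Gm
  have nr1 : ∀ s, |D.x s - X| ≤ 3 * R / 8 → G (D.u e2) s → D.nr R X Y J s := fun s a b =>
    ⟨a, (gy e2 he2.1 he2.2).2.1 _ ((hG _ _).1 b), gx1 _ a⟩
  have nr2 : ∀ e ∈ D.Ed, D.cls N (4 * la) σ R X Y J e → D.nr R X Y J (D.q e) := fun e he c => by
    have a : |D.x (D.q e) - X| ≤ 3 * R / 8 := by linarith [c.2.2.2.1]
    exact ⟨a, (gy e he c).2.2.2, gx1 _ a⟩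
  have sup : ∀ t, chi X R t ≠ 0 → |t - X| ≤ R / 4 := fun t h => by
    by_contra hc
    exact h (chi_zero hR (not_le.1 hc).le)
  obtain ⟨f, hf⟩ : ∃ f : ι → ℝ, ∀ e, f e = chi X R (D.x (D.q e)) * ind (G (D.u e) (D.q e)) -
    chi X R (D.x (D.p e)) * ind (G (D.u e) (D.p e)) := ⟨_, fun _ => rfl⟩
  obtain ⟨S1, h1⟩ : ∃ S : ι → Prop, ∀ e, S e ↔
    D.cls N (4 * la) σ R X Y J e ∧ D.u e < D.u e1 + 4 := ⟨_, fun _ => Iff.rfl⟩
  obtain ⟨S2, h2⟩ : ∃ S : ι → Prop, ∀ e, S e ↔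
    D.nr R X Y J (D.q e) ∧ ¬ G (D.u e) (D.q e) ∧ G (D.u e + 4) (D.q e) := ⟨_, fun _ => Iff.rfl⟩
  obtain ⟨S3, h3⟩ : ∃ S : ι → Prop, ∀ e, S e ↔
    D.nr R X Y J (D.p e) ∧ D.u e ≤ D.u e2 ∧ D.u e2 < D.u e + 4 := ⟨_, fun _ => Iff.rfl⟩
  have key : ∀ e ∈ D.Ed, ind (D.cls N (4 * la) σ R X Y J e) ≤
      (if D.u e1 + 4 ≤ D.u e ∧ D.u e ≤ D.u e2 then f e else 0) + ind (S1 e) + ind (S2 e) +
        ind (S3 e) + (if D.nr R X Y J (D.p e) then k e else 0) := by
    intro e he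
    have n1 := ind_nonneg (S1 e)
    have n2 := ind_nonneg (S2 e)
    have n3 := ind_nonneg (S3 e)
    have n4 : 0 ≤ (if D.nr R X Y J (D.p e) then k e else 0) := by
      split_ifs
      · exact l8.trans (k1 e)
      · exact le_rfl
    have hd : D.d e = D.x (D.q e) - D.x (D.p e) := rfl
    have hh : D.h e = D.y (D.q e) - D.y (D.p e) := rfl
    have d0 := hD.d_pos he
    by_cases hQ : D.u e1 + 4 ≤ D.u e ∧ D.u e ≤ D.u e2
    swap
    · rw [if_neg hQ]
      by_cases hc : D.cls N (4 * la) σ R X Y J e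
      · have := hmax e (mem_filter.2 ⟨he, hc⟩)
        rw [ind_pos hc, ind_pos ((h1 e).2 ⟨hc, by omega⟩)]
        linarith
      · rw [ind_neg hc]; linarith
    rw [if_pos hQ, hf]
    have q0 : 0 ≤ chi X R (D.x (D.q e)) * ind (G (D.u e) (D.q e)) :=
      mul_nonneg (chi_bd _ _ _).1 (ind_nonneg _)
    by_cases hc : D.cls N (4 * la) σ R X Y J e
    · have c1 := chi_one hR hc.2.2.2.1
      have c0 : chi X R (D.x (D.p e)) = 0 := by
        refine chi_zero hR (le_abs.2 (Or.inr ?_))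
        linarith [(abs_le.1 hc.2.2.2.1).2, hc.2.1]
      rw [ind_pos hc, c1, c0]
      by_cases g : G (D.u e) (D.q e)
      · rw [ind_pos g]; linarith
      · rw [ind_neg g, ind_pos ((h2 e).2 ⟨nr2 e he hc, g, (hG _ _).2 (gy e he hc).2.2.1⟩)]
        linarith
    rw [ind_neg hc]
    by_cases cp : chi X R (D.x (D.p e)) = 0
    · rw [cp]; linarith
    by_cases gp : G (D.u e) (D.p e)
    swap
    · rw [ind_neg gp]; linarith
    have xp := sup _ cp
    have np : D.nr R X Y J (D.p e) := nr1 _ (by linarith) (Gm _ _ _ hQ.2 gp)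
    rw [ind_pos gp, if_pos np, mul_one]
    have p1 := (chi_bd X R (D.x (D.p e))).2
    have k0 := l8.trans (k1 e)
    have t0 := hD.tau_pos (D.u e)
    obtain ⟨s1, s2⟩ := hD.slo e he
    have yp := (hG _ _).1 gp
    by_cases c1 : D.d e < R / la
    · by_cases gq : G (D.u e) (D.q e)
      · rw [ind_pos gq, mul_one]
        have a1 := chi_lip (X := X) hR (show D.x (D.p e) ≤ D.x (D.q e) by linarith)
        have a2 : 8 * (D.x (D.q e) - D.x (D.p e)) / R ≤ 8 / la := by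
          rw [div_le_iff₀ hR, ← hd, show 8 / la * R = 8 * (R / la) by ring]
          linarith
        linarith [k1 e]
      · have r8 : R / la ≤ R / 8 := div_le_div_of_nonneg_left hR.le (by norm_num) hla
        by_cases c2 : D.u e + 4 ≤ D.u e2
        · have g4 : G (D.u e + 4) (D.q e) := by
            have b1 := mul_le_mul_of_nonneg_right (hD.lac (D.u e)) hR.le
            have b2 := mul_le_mul_of_nonneg_left (c1.le.trans r8) (hD.tau_pos (D.u e + 4)).le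
            have b3 := mul_pos t0 hR
            have b4 := hD.h_pos he
            rw [hG, abs_le]
            rw [abs_le] at yp
            constructor <;> nlinarith [yp.1, yp.2]
          have nq : D.nr R X Y J (D.q e) := by
            refine nr1 _ ?_ (Gm _ _ _ c2 g4)
            rw [abs_le] at xp ⊢
            constructor <;> linarith [xp.1, xp.2]
          rw [ind_pos ((h2 e).2 ⟨nq, gq, g4⟩)]
          linarith
        · rw [ind_pos ((h3 e).2 ⟨np, hQ.2, by omega⟩)]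
          linarith
    by_cases c2 : D.d e ≤ la * R
    · have := k2 e (Or.inl (gx2 e he xp (not_lt.1 c1) c2))
      linarith
    · have c3 := not_le.1 c2
      have := k2 e (gc e he (D.tau (D.u e) * R) xp c3
        (by nlinarith [mul_lt_mul_of_pos_left c3 t0]) yp ((gy e1 he1.1 he1.2).1 _ hQ.1))
      linarith
  have tot := sum_le_sum key
  simp only [sum_add_distrib] at tot
  rw [sum_ind, sum_ind, sum_ind, sum_ind, ← sum_filter, ← sum_filter] at tot
  obtain ⟨Z, hZ⟩ : ∃ Z, Z = D.E.filter (D.nr R X Y J) := ⟨_, rfl⟩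
  have mZ : ∀ s, s ∈ Z ↔ s ∈ D.E ∧ D.nr R X Y J s := fun s => by rw [hZ, mem_filter]
  rw [← hZ]
  have b0 : ∑ e ∈ D.Ed.filter (fun e => D.u e1 + 4 ≤ D.u e ∧ D.u e ≤ D.u e2), f e ≤
      ∑ s ∈ Z, D.c s := by
    simp only [hf]
    refine fl.trans (sum_le_sum_of_subset_of_nonneg (fun s hs => ?_) fun s hs _ =>
      zero_le_one.trans (hD.one s ((mZ s).1 hs).1))
    rw [mem_filter] at hs
    exact (mZ s).2 ⟨hs.1, nr1 s (by linarith [sup _ hs.2.1]) hs.2.2⟩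
  have b1 : (D.Ed.filter S1).card ≤ 4 * Z.card := by
    refine cnt _ Z D.q D.u 4 (fun e he => ?_) (fun e he e' he' =>
      hD.iq e (mem_filter.1 he).1 e' (mem_filter.1 he').1) fun e he e' he' _ => ?_
    · rw [mem_filter, h1] at he
      exact (mZ _).2 ⟨(hD.mem e he.1).2.2, nr2 e he.1 he.2.1⟩
    · rw [mem_filter, h1] at he he'
      have := hmin e (mem_filter.2 ⟨he.1, he.2.1⟩)
      omega
  have b2 : (D.Ed.filter S2).card ≤ 4 * Z.card := by
    refine cnt _ Z D.q D.u 4 (fun e he => ?_) (fun e he e' he' =>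
      hD.iq e (mem_filter.1 he).1 e' (mem_filter.1 he').1) fun e he e' he' hq => ?_
    · rw [mem_filter, h2] at he
      exact (mZ _).2 ⟨(hD.mem e he.1).2.2, he.2.1⟩
    · rw [mem_filter, h2] at he he'
      by_contra hc
      exact he'.2.2.1 (hq ▸ Gm _ _ _ (not_lt.1 hc) he.2.2.2)
  have b3 : (D.Ed.filter S3).card ≤ 4 * Z.card := by
    refine cnt _ Z D.p D.u 4 (fun e he => ?_) (fun e he e' he' =>
      hD.ip e (mem_filter.1 he).1 e' (mem_filter.1 he').1) fun e he e' he' _ => ?_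
    · rw [mem_filter, h3] at he
      exact (mZ _).2 ⟨(hD.mem e he.1).2.1, he.2.1⟩
    · rw [mem_filter, h3] at he he'
      omega
  have b4 : ∑ e ∈ D.Ed.filter (fun e => D.nr R X Y J (D.p e)), k e =
      ∑ s ∈ Z, ∑ e ∈ D.Ed.filter (fun e => D.p e = s), k e := by
    rw [← sum_fiberwise_of_maps_to (g := D.p) (t := Z) fun e he =>
      (mZ _).2 ⟨(hD.mem e (mem_filter.1 he).1).2.1, (mem_filter.1 he).2⟩]
    refine sum_congr rfl fun s hs => sum_congr ?_ fun _ _ => rfl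
    ext e
    simp only [mem_filter]
    exact ⟨fun h => ⟨h.1.1, h.2⟩, fun h => ⟨⟨h.1, h.2 ▸ ((mZ s).1 hs).2⟩, h.2⟩⟩
  have b5 : (Z.card : ℝ) ≤ ∑ s ∈ Z, D.c s := by
    rw [card_eq_sum_ones, Nat.cast_sum]
    exact sum_le_sum fun s hs => by simpa using hD.one s ((mZ s).1 hs).1
  have c1 : ((D.Ed.filter S1).card : ℝ) ≤ 4 * Z.card := by exact_mod_cast b1
  have c2 : ((D.Ed.filter S2).card : ℝ) ≤ 4 * Z.card := by exact_mod_cast b2
  have c3 : ((D.Ed.filter S3).card : ℝ) ≤ 4 * Z.card := by exact_mod_cast b3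
  have c4 : (0 : ℝ) ≤ Z.card := Nat.cast_nonneg _
  simp only [hcost, sum_add_distrib, ← mul_sum]
  linarith

end Pool.Agent.P.MP_77a832_co.EL.L

namespace Pool.Agent.P.MP_77a832_co.EL.L

open Finset
open scoped Classical

namespace NEARc

theorem cntv (ζ : ℕ → ℝ) (K : ℕ) (c J : ℝ) (hJ : 0 ≤ J) (S : Finset ℕ)
    (h : ∀ v ∈ S, v ∈ range K ∧ wt ζ K c |ζ v - c| < J) : (S.card : ℝ) ≤ J := by
  rcases S.eq_empty_or_nonempty with rfl | hS
  · simpa using hJ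
  · obtain ⟨v, hv, hm⟩ := exists_max_image S (fun v => |ζ v - c|) hS
    refine le_trans ?_ (h v hv).2.le
    unfold wt
    exact Nat.cast_le.2 (card_le_card fun w hw => mem_filter.2 ⟨(h w hw).1, hm w hw⟩)

theorem lg2 (K : ℕ) : ((Nat.log 2 K + 1 : ℕ) : ℝ) ≤ 2 * Lg K := by
  have h : (Nat.log 2 K : ℝ) * Real.log 2 ≤ Real.log K := by
    rcases K.eq_zero_or_pos with rfl | hK
    · simp
    · rw [← Real.log_pow]
      exact Real.log_le_log (by positivity) (by exact_mod_cast Nat.pow_log_le_self 2 hK.ne')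
  have h2 := Real.log_two_gt_d9
  have h3 : (0 : ℝ) ≤ Nat.log 2 K := Nat.cast_nonneg _
  unfold Lg
  push_cast
  nlinarith

end NEARc

open NEARc in
theorem p_NEAR (hSCA : S_SCA) :
    S_NEAR := by
  intro α ι D s T hT
  obtain ⟨geo, hgeo⟩ : ∃ geo : ℤ × ℤ × ℕ → Prop, ∀ t, geo t ↔
      |D.x s - t.2.1 * 2 ^ t.1 / 8| ≤ 3 * 2 ^ t.1 / 8 ∧ 1 ≤ wt D.ξ D.K (D.x s) (4 * 2 ^ t.1) ∧
      2 * wt D.ξ D.K (D.x s) (2 ^ t.1 / 8) ≤ wt D.ξ D.K (D.x s) (4 * 2 ^ t.1) :=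
    ⟨_, fun _ => Iff.rfl⟩
  have h1 : ∀ t ∈ T, ∑ v ∈ range D.K, 2 / (2 : ℝ) ^ t.2.2 *
      ind (D.nr (2 ^ t.1) (t.2.1 * 2 ^ t.1 / 8) (D.η v) (2 ^ t.2.2) s) ≤ 4 * ind (geo t) := by
    intro t _
    by_cases hg : geo t
    · rw [← mul_sum, sum_ind, ind_pos hg, div_mul_eq_mul_div, div_le_iff₀ (by positivity)]
      have := cntv D.η D.K (D.y s) (2 * 2 ^ t.2.2) (by positivity) ((range D.K).filter fun v =>
        D.nr (2 ^ t.1) (t.2.1 * 2 ^ t.1 / 8) (D.η v) (2 ^ t.2.2) s)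
        fun v hv => ⟨(mem_filter.1 hv).1, (mem_filter.1 hv).2.2.1⟩
      linarith
    · rw [ind_neg hg, mul_zero]
      exact (sum_eq_zero fun v _ => by
        rw [ind_neg fun h => hg ((hgeo t).2 ⟨h.1, h.2.2⟩), mul_zero]).le
  refine (sum_le_sum h1).trans ?_
  rw [← mul_sum, sum_ind]
  have h2 := hSCA D.ξ D.K 3 2 (D.x s) 2 ((T.filter geo).image Prod.fst) two_pos fun a ha => by
    obtain ⟨t, ht, rfl⟩ := mem_image.1 ha
    obtain ⟨-, g1, g2⟩ := (hgeo t).1 (mem_filter.1 ht).2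
    have e1 : (2 : ℝ) ^ (t.1 + (2 : ℕ)) = 4 * 2 ^ t.1 := by
      rw [zpow_add₀ two_ne_zero, zpow_natCast]; ring
    have e2 : (2 : ℝ) ^ (t.1 - (3 : ℕ)) = 2 ^ t.1 / 8 := by
      rw [zpow_sub₀ two_ne_zero, zpow_natCast]; norm_num
    rw [e1, e2]
    exact ⟨g1, by linarith⟩
  have h3 : (T.filter geo).card ≤ (((T.filter geo).image Prod.fst) ×ˢ Icc (-3 : ℤ) 3 ×ˢ
      range (Nat.log 2 D.K + 1)).card := by
    refine card_le_card_of_injOn (fun t => (t.1, t.2.1 - ⌈8 * D.x s / 2 ^ t.1⌉, t.2.2))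
      (fun t ht => ?_) fun t _ t' _ e => ?_
    · have ht := mem_coe.1 ht
      obtain ⟨g1, g2⟩ := abs_le.1 ((hgeo t).1 (mem_filter.1 ht).2).1
      have hR : (0 : ℝ) < 2 ^ t.1 := by positivity
      have a1 : ⌈8 * D.x s / 2 ^ t.1⌉ ≤ t.2.1 + 3 := Int.ceil_le.2 (by
        rw [div_le_iff₀ hR]; push_cast; linarith)
      have a2 : t.2.1 - 3 ≤ ⌈8 * D.x s / 2 ^ t.1⌉ := by
        have : ((t.2.1 - 3 : ℤ) : ℝ) ≤ 8 * D.x s / 2 ^ t.1 := by
          rw [le_div_iff₀ hR]; push_cast; linarith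
        exact_mod_cast this.trans (Int.le_ceil _)
      have a3 : t.2.2 ≤ Nat.log 2 D.K := Nat.le_log_of_pow_le one_lt_two (by
        exact_mod_cast hT t (mem_filter.1 ht).1)
      refine mem_coe.2 (mem_product.2 ⟨mem_image.2 ⟨t, ht, rfl⟩, mem_product.2
        ⟨mem_Icc.2 ?_, mem_range.2 (Nat.lt_succ_of_le a3)⟩⟩)
      dsimp only
      omega
    · simp only [Prod.mk.injEq] at e
      obtain ⟨e1, e2, e3⟩ := e
      rw [e1, sub_left_inj] at e2
      exact Prod.ext e1 (Prod.ext e2 e3)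
  rw [card_product, card_product, card_range, show (Icc (-3 : ℤ) 3).card = 7 by simp] at h3
  have h4 := (Nat.cast_le (α := ℝ)).2 h3
  rw [Nat.cast_mul, Nat.cast_mul] at h4
  have h5 := mul_le_mul h2 (lg2 D.K) (Nat.cast_nonneg _) ((Nat.cast_nonneg _).trans h2)
  unfold MM
  push_cast at h4 h5 ⊢
  nlinarith

end Pool.Agent.P.MP_77a832_co.EL.L

namespace Pool.Agent.P.MP_77a832_co.EL.L

open Finset
open scoped Classical

namespace SUMc

theorem key {α ι : Type} {D : Net α ι} {N μ σ : ℝ} (hD : D.Ok) (hN : 3 ≤ N) (hμ : 4 ≤ μ) {e : ι}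
    (he : e ∈ D.Ed) (hq : D.TQ N μ σ e) : ∃ t : ℤ × ℤ × ℕ, (2 : ℝ) ^ t.2.2 ≤ D.K ∧
      1 ≤ ∑ v ∈ range D.K, 2 / (2 : ℝ) ^ t.2.2 *
        ind (D.cls N μ σ (2 ^ t.1) (t.2.1 * 2 ^ t.1 / 8) (D.η v) (2 ^ t.2.2) e) := by
  have hd := hD.d_pos he
  obtain ⟨a, a1, a2⟩ := exists_mem_Ico_zpow hd (one_lt_two (α := ℝ))
  obtain ⟨j, j1, j2⟩ := exists_nat_pow_near (hD.one_le hμ he).2.2.2 (one_lt_two (α := ℝ))
  have hR : (0 : ℝ) < 2 ^ a := by positivity
  have hJ : (0 : ℝ) < 2 ^ j := by positivity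
  refine ⟨(a, ⌊8 * D.x (D.q e) / 2 ^ a⌋, j), j1.trans (wt_le _ _ _ _), ?_⟩
  have k1 := (le_div_iff₀ hR).1 (Int.floor_le (8 * D.x (D.q e) / 2 ^ a))
  have k2 := (div_lt_iff₀ hR).1 (Int.lt_floor_add_one (8 * D.x (D.q e) / 2 ^ a))
  rw [zpow_add_one₀ two_ne_zero] at a2
  rw [pow_succ] at j2
  have h1 : ∑ v ∈ range D.K, ind (D.cls N μ σ (2 ^ a) (⌊8 * D.x (D.q e) / 2 ^ a⌋ * 2 ^ a / 8)
      (D.η v) (2 ^ j) e) = wt D.η D.K (D.y (D.q e)) (D.h e / μ) := by
    rw [sum_ind, wt]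
    congr 2
    exact filter_congr fun v _ => ⟨fun h => h.2.2.2.2.1, fun h => ⟨hq, a1, by linarith,
      abs_le.2 ⟨by linarith, by linarith⟩, h, j1, by linarith⟩⟩
  have h2 : (N - 1) * wt D.η D.K (D.y (D.q e)) (μ * D.h e) ≤
      N * wt D.η D.K (D.y (D.q e)) (D.h e / μ) := hq.2.1
  have h3 := wt_nonneg D.η D.K (D.y (D.q e)) (D.h e / μ)
  rw [← mul_sum, h1, div_mul_eq_mul_div, one_le_div hJ]
  by_contra h4
  nlinarith

end SUMc

theorem p_SUM (hNEAR : S_NEAR) :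
    S_SUM := by
  intro α ι D N μ σ φ hD hN hμ hφ h
  have key := fun e (he : e ∈ D.Ed.filter (D.TQ N μ σ)) =>
    SUMc.key hD hN hμ (mem_filter.1 he).1 (mem_filter.1 he).2
  choose! t t1 t2 using key
  have h0 : ∀ (j : ℕ) (s : Prop), 0 ≤ 2 / (2 : ℝ) ^ j * ind s := fun j s =>
    mul_nonneg (by positivity) (ind_nonneg _)
  calc ((D.Ed.filter (D.TQ N μ σ)).card : ℝ) = ∑ _e ∈ D.Ed.filter (D.TQ N μ σ), (1 : ℝ) := by simp
    _ ≤ ∑ e ∈ D.Ed.filter (D.TQ N μ σ), ∑ τ ∈ (D.Ed.filter (D.TQ N μ σ)).image t,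
        ∑ v ∈ range D.K, 2 / (2 : ℝ) ^ τ.2.2 *
          ind (D.cls N μ σ (2 ^ τ.1) (τ.2.1 * 2 ^ τ.1 / 8) (D.η v) (2 ^ τ.2.2) e) :=
      sum_le_sum fun e he => (t2 e he).trans (single_le_sum (f := fun τ : ℤ × ℤ × ℕ =>
        ∑ v ∈ range D.K, 2 / (2 : ℝ) ^ τ.2.2 *
          ind (D.cls N μ σ (2 ^ τ.1) (τ.2.1 * 2 ^ τ.1 / 8) (D.η v) (2 ^ τ.2.2) e))
        (fun τ _ => sum_nonneg fun v _ => h0 _ _) (mem_image_of_mem t he))
    _ ≤ ∑ e ∈ D.Ed, ∑ τ ∈ (D.Ed.filter (D.TQ N μ σ)).image t,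
        ∑ v ∈ range D.K, 2 / (2 : ℝ) ^ τ.2.2 *
          ind (D.cls N μ σ (2 ^ τ.1) (τ.2.1 * 2 ^ τ.1 / 8) (D.η v) (2 ^ τ.2.2) e) :=
      sum_le_sum_of_subset_of_nonneg (filter_subset _ _) fun e _ _ =>
        sum_nonneg fun τ _ => sum_nonneg fun v _ => h0 _ _
    _ ≤ ∑ τ ∈ (D.Ed.filter (D.TQ N μ σ)).image t, ∑ v ∈ range D.K, ∑ s ∈ D.E,
        2 / (2 : ℝ) ^ τ.2.2 *
          ind (D.nr (2 ^ τ.1) (τ.2.1 * 2 ^ τ.1 / 8) (D.η v) (2 ^ τ.2.2) s) * φ s := by
      rw [sum_comm]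
      refine sum_le_sum fun τ _ => ?_
      rw [sum_comm]
      refine sum_le_sum fun v _ => ?_
      simp only [mul_assoc]
      rw [← mul_sum, ← mul_sum, sum_ind]
      refine mul_le_mul_of_nonneg_left ((h _ _ _ _).trans_eq ?_) (by positivity)
      rw [sum_filter]
      exact sum_congr rfl fun s _ => by simp [ind]
    _ = ∑ s ∈ D.E, (∑ τ ∈ (D.Ed.filter (D.TQ N μ σ)).image t, ∑ v ∈ range D.K,
        2 / (2 : ℝ) ^ τ.2.2 *
          ind (D.nr (2 ^ τ.1) (τ.2.1 * 2 ^ τ.1 / 8) (D.η v) (2 ^ τ.2.2) s)) * φ s := by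
      simp only [sum_mul]
      rw [sum_comm (s := D.E)]
      exact sum_congr rfl fun τ _ => sum_comm
    _ ≤ ∑ s ∈ D.E, MM D.K * φ s := sum_le_sum fun s hs => mul_le_mul_of_nonneg_right
      (hNEAR α ι D s _ fun τ hτ => by
        obtain ⟨e, he, rfl⟩ := mem_image.1 hτ
        exact t1 e he) (hφ s hs)
    _ = _ := (mul_sum _ _ _).symm

end Pool.Agent.P.MP_77a832_co.EL.L

namespace Pool.Agent.P.MP_77a832_co.EL.L

open Finset
open scoped Classical

namespace RECc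

lemma key (hCL : S_CL) (hSUM : S_SUM) {α ι : Type} {D : Net α ι} (hD : D.Ok) {N la : ℝ}
    (hN : 8 ≤ N) (hl : 8 ≤ la) (σ : ℝ) : ((D.Ed.filter (D.TQ N (4 * la) σ)).card : ℝ) ≤
      MM D.K * (17 * ∑ s ∈ D.E, D.c s + 8 / la * D.Ed.card +
        (D.Ed.filter (D.DL N (4 * la))).card + ((D.Ed.filter (D.TQ N (4 * la) (N * σ / 8))).card +
        (D.Ed.filter (D.TP N (4 * la) (N * σ / 8))).card)) := by
  refine (hSUM α ι D N (4 * la) σ (D.cost N la σ) hD (by linarith) (by linarith) (fun s hs => ?_)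
    fun R X Y J => hCL α ι D N la σ R X Y J hD hN hl).trans (le_of_eq ?_)
  · refine add_nonneg (by linarith [hD.one s hs]) (sum_nonneg fun e _ => ?_)
    have : 0 ≤ 8 / la := div_nonneg (by norm_num) (by linarith)
    linarith [ind_nonneg (D.DL N (4 * la) e), ind_nonneg (D.TQ N (4 * la) (N * σ / 8) e),
      ind_nonneg (D.TP N (4 * la) (N * σ / 8) e)]
  · congr 1
    simp only [Net.cost]
    rw [sum_add_distrib, ← mul_sum, sum_fiberwise_of_maps_to fun e he => (hD.mem e he).2.1]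
    simp only [sum_add_distrib, sum_ind, sum_const, nsmul_eq_mul]
    ring

end RECc

theorem p_REC (hCL : S_CL) (hSUM : S_SUM) (hDLC : S_DLC) :
    S_REC := by
  intro α ι D N h m hD hN hK hm
  have hL := one_le_Lg D.K
  have hM : 1 ≤ MM D.K := by
    unfold MM
    nlinarith
  have hP : 1 ≤ (2 * MM D.K) ^ h := one_le_pow₀ (by linarith)
  generalize hP' : (2 * MM D.K) ^ h = P at hP hm ⊢
  have hl : 8 ≤ 32 * P := by linarith
  have hμ : 4 ≤ 4 * (32 * P) := by linarith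
  have hc : (D.E.card : ℝ) ≤ ∑ s ∈ D.E, D.c s := by
    simpa using card_nsmul_le_sum D.E D.c 1 hD.one
  obtain ⟨T, hT⟩ : ∃ T : ℝ → ℝ, ∀ σ, T σ = (D.Ed.filter (D.TQ N (4 * (32 * P)) σ)).card +
    (D.Ed.filter (D.TP N (4 * (32 * P)) σ)).card := ⟨_, fun _ => rfl⟩
  obtain ⟨B, hB⟩ : ∃ B : ℝ, B = 17 * ∑ s ∈ D.E, D.c s + 8 / (32 * P) * D.Ed.card +
    (D.Ed.filter (D.DL N (4 * (32 * P)))).card := ⟨_, rfl⟩
  have c0 : (0 : ℝ) ≤ ∑ s ∈ D.E, D.c s := (Nat.cast_nonneg _).trans hc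
  have B0 : 0 ≤ B := by
    rw [hB]
    positivity
  have h1 : ∀ σ, T σ ≤ 2 * MM D.K * (B + T (N * σ / 8)) := fun σ => by
    have a1 := RECc.key hCL hSUM hD hN hl σ
    have a2 := RECc.key hCL hSUM hD.flip hN hl σ
    rw [filter_congr fun e _ => D.flip_TQ N _ σ e, filter_congr fun e _ => D.flip_TQ N _ _ e,
      filter_congr fun e _ => D.flip_TP N _ _ e, filter_congr fun e _ => D.flip_DL N _ e] at a2
    change ((D.Ed.filter (D.TP N (4 * (32 * P)) σ)).card : ℝ) ≤ MM D.K *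
      (17 * ∑ s ∈ D.E, D.c s + 8 / (32 * P) * D.Ed.card +
        (D.Ed.filter (D.DL N (4 * (32 * P)))).card +
        ((D.Ed.filter (D.TP N (4 * (32 * P)) (N * σ / 8))).card +
        (D.Ed.filter (D.TQ N (4 * (32 * P)) (N * σ / 8))).card)) at a2
    rw [hT, hT, hB]
    linarith
  have h2 : T ((N / 8) ^ h) = 0 := by
    have k : ∀ (a b c d : ℝ), ¬(N / 8) ^ h ≤ wt D.ξ D.K a b * wt D.η D.K c d := fun a b c d k => by
      have := mul_le_mul (wt_le D.ξ D.K a b) (wt_le D.η D.K c d) (wt_nonneg _ _ _ _)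
        (Nat.cast_nonneg _)
      nlinarith
    rw [hT, filter_eq_empty_iff.2 fun e _ he => k _ _ _ _ he.2.2,
      filter_eq_empty_iff.2 fun e _ he => k _ _ _ _ he.2.2]
    simp
  have h3 : ∀ k j, j + k = h → T ((N / 8) ^ j) ≤ 2 * B * ((2 * MM D.K) ^ k - 1) := by
    intro k
    induction k with
    | zero =>
      rintro j rfl
      simpa using h2.le
    | succ k ih =>
      intro j hj
      have a1 := h1 ((N / 8) ^ j)
      rw [show N * (N / 8) ^ j / 8 = (N / 8) ^ (j + 1) by ring] at a1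
      have a2 := mul_le_mul_of_nonneg_left (ih (j + 1) (by omega))
        (show 0 ≤ 2 * MM D.K by linarith)
      rw [pow_succ]
      nlinarith [mul_le_mul_of_nonneg_left hM B0]
  have h4 := h3 h 0 (zero_add h)
  rw [pow_zero, hP'] at h4
  have h5 : (D.Ed.card : ℝ) ≤ (D.Ed.filter (D.DL N (4 * (32 * P)))).card + T 1 := by
    rw [hT]
    have : D.Ed ⊆ D.Ed.filter (D.DL N (4 * (32 * P))) ∪ (D.Ed.filter (D.TQ N (4 * (32 * P)) 1) ∪
        D.Ed.filter (D.TP N (4 * (32 * P)) 1)) := fun e he => by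
      obtain ⟨a, b, c, d⟩ := hD.one_le hμ he
      simp only [mem_union, mem_filter, he, true_and]
      exact (hD.tri (by linarith) hμ he).imp id (Or.imp
        (fun k => ⟨k.1, k.2, one_le_mul_of_one_le_of_one_le a d⟩)
        fun k => ⟨k.1, k.2, one_le_mul_of_one_le_of_one_le b c⟩)
    exact_mod_cast (card_le_card this).trans ((card_union_le _ _).trans
      (Nat.add_le_add_left (card_union_le _ _) _))
  have h6 : ((D.Ed.filter (D.DL N (4 * (32 * P)))).card : ℝ) ≤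
      24 * ((2 * m + 1) * N * Lg D.K) ^ 2 * ∑ s ∈ D.E, D.c s := by
    have a1 := hDLC α ι D N _ m hD (by linarith) hμ (by linarith)
    have a2 := hDLC α ι D.flip N _ m hD.flip (by linarith) hμ (by linarith)
    rw [filter_congr fun e _ => and_congr (not_congr (D.flip_xp N _ e))
      (not_congr (D.flip_yp N _ e))] at a2
    change ((D.Ed.filter fun e => ¬ D.xq N (4 * (32 * P)) e ∧ ¬ D.yq N (4 * (32 * P)) e).card : ℝ) ≤
      12 * D.E.card * ((2 * m + 1) * N * Lg D.K) ^ 2 at a2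
    have a3 : ((D.Ed.filter (D.DL N (4 * (32 * P)))).card : ℝ) ≤
        (D.Ed.filter fun e => ¬ D.xp N (4 * (32 * P)) e ∧ ¬ D.yp N (4 * (32 * P)) e).card +
        (D.Ed.filter fun e => ¬ D.xq N (4 * (32 * P)) e ∧ ¬ D.yq N (4 * (32 * P)) e).card := by
      refine Nat.cast_le.2 (card_le_card fun e he => ?_) |>.trans
        (by exact_mod_cast card_union_le _ _)
      simp only [mem_union, mem_filter] at he ⊢
      exact he.2.imp (fun k => ⟨he.1, k⟩) fun k => ⟨he.1, k⟩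
    nlinarith [mul_le_mul_of_nonneg_left hc (sq_nonneg ((2 * m + 1) * N * Lg D.K))]
  have h7 : 2 * B * P = 2 * P * (17 * ∑ s ∈ D.E, D.c s +
      (D.Ed.filter (D.DL N (4 * (32 * P)))).card) + D.Ed.card / 2 := by
    rw [hB]
    field_simp
    ring
  have f0 : (0 : ℝ) ≤ (D.Ed.filter (D.DL N (4 * (32 * P)))).card := Nat.cast_nonneg _
  generalize ((D.Ed.filter (D.DL N (4 * (32 * P)))).card : ℝ) = FD at h5 h6 h7 f0
  generalize ((2 * m + 1) * N * Lg D.K) ^ 2 = La at h6 ⊢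
  generalize ∑ s ∈ D.E, D.c s = c at h6 h7 c0 ⊢
  nlinarith [mul_le_mul_of_nonneg_left h6 (show 0 ≤ P by linarith),
    mul_le_mul_of_nonneg_left hP f0, mul_nonneg (show 0 ≤ P by linarith) c0]

end Pool.Agent.P.MP_77a832_co.EL.L

namespace Pool.Agent.P.MP_77a832_co.EL.L

open Finset
open scoped Classical

namespace ASYc

/-- a power of the logarithm is below a small power of `K` -/
theorem lg_pow_le (s : ℝ) (hs : 0 < s) (n : ℕ) (hn : 0 < n) (K : ℕ) (hK : 1 ≤ K) :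
    Lg K ^ n ≤ (1 + n / s) ^ n * (K : ℝ) ^ s := by
  have hK1 : (1 : ℝ) ≤ K := by exact_mod_cast hK
  have hK0 : (0 : ℝ) ≤ K := zero_le_one.trans hK1
  have hn' : (0 : ℝ) < n := by exact_mod_cast hn
  have hd : 0 < s / n := div_pos hs hn'
  have h1 : Real.log K ≤ (K : ℝ) ^ (s / n) / (s / n) := Real.log_le_rpow_div hK0 hd
  have h2 : (1 : ℝ) ≤ (K : ℝ) ^ (s / n) := Real.one_le_rpow hK1 hd.le
  have h3 : Lg K ≤ (1 + n / s) * (K : ℝ) ^ (s / n) := by
    have e : (K : ℝ) ^ (s / n) / (s / n) = n / s * (K : ℝ) ^ (s / n) := by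
      field_simp
    unfold Lg
    rw [e] at h1
    nlinarith
  have h4 : Lg K ^ n ≤ ((1 + n / s) * (K : ℝ) ^ (s / n)) ^ n :=
    pow_le_pow_left₀ (zero_le_one.trans (one_le_Lg K)) h3 n
  have h5 : ((K : ℝ) ^ (s / n)) ^ n = (K : ℝ) ^ s := by
    rw [← Real.rpow_natCast, ← Real.rpow_mul hK0]
    congr 1
    field_simp
  rwa [mul_pow, h5] at h4

/-- the arithmetic of the final bound -/
theorem arith (P N L m : ℝ) (hP : 1 ≤ P) (hN : 1 ≤ N) (hL : 1 ≤ L) (hm0 : 0 ≤ m)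
    (hm : m ≤ 128 * P + 1) :
    6 * P * (17 + 24 * ((2 * m + 1) * N * L) ^ 2) ≤ 246 * 259 ^ 2 * (P ^ 3 * L ^ 2 * N ^ 2) := by
  have h1 : (2 * m + 1) * N * L ≤ 259 * P * N * L := by
    apply mul_le_mul_of_nonneg_right _ (by linarith)
    apply mul_le_mul_of_nonneg_right _ (by linarith)
    linarith
  have h0 : 0 ≤ (2 * m + 1) * N * L := by positivity
  have h2 : ((2 * m + 1) * N * L) ^ 2 ≤ (259 * P * N * L) ^ 2 := pow_le_pow_left₀ h0 h1 2
  have h3 : 1 ≤ 259 * P * N * L := by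
    have a : 1 ≤ 259 * P := by linarith
    exact one_le_mul_of_one_le_of_one_le (one_le_mul_of_one_le_of_one_le a hN) hL
  have h4 : 1 ≤ (259 * P * N * L) ^ 2 := one_le_pow₀ h3
  have h5 : 17 + 24 * ((2 * m + 1) * N * L) ^ 2 ≤ 41 * (259 * P * N * L) ^ 2 := by linarith
  calc 6 * P * (17 + 24 * ((2 * m + 1) * N * L) ^ 2) ≤ 6 * P * (41 * (259 * P * N * L) ^ 2) :=
        mul_le_mul_of_nonneg_left h5 (by linarith)
    _ = 246 * 259 ^ 2 * (P ^ 3 * L ^ 2 * N ^ 2) := by ring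

end ASYc

theorem p_ASY :
    S_ASY := by
  intro r hr
  obtain ⟨h, hh⟩ : ∃ h : ℕ, 8 / r ≤ h := ⟨⌈8 / r⌉₊, Nat.le_ceil _⟩
  have hh0 : (0 : ℝ) < h := lt_of_lt_of_le (by positivity) hh
  have hh1 : 0 < h := by exact_mod_cast hh0
  have hhr : 4 / (h : ℝ) ≤ r / 2 := by
    rw [div_le_iff₀ hr] at hh
    rw [div_le_iff₀ hh0]
    linarith
  have hr2 : 0 < r / 2 := by linarith
  refine ⟨246 * 259 ^ 2 * (1120 ^ (3 * h) * 256 *
    (1 + ((6 * h + 2 : ℕ) : ℝ) / (r / 2)) ^ (6 * h + 2)), by positivity, fun K hK => ?_⟩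
  have hK1 : (1 : ℝ) ≤ K := by exact_mod_cast hK
  have hK0 : (0 : ℝ) < K := zero_lt_one.trans_le hK1
  have hL := one_le_Lg K
  have hX : 1 ≤ 2 * MM K := by
    unfold MM
    have := one_le_pow₀ (n := 2) hL
    linarith
  have hP : 1 ≤ (2 * MM K) ^ h := one_le_pow₀ hX
  have hq : (1 : ℝ) ≤ (K : ℝ) ^ (2 / (h : ℝ)) := Real.one_le_rpow hK1 (by positivity)
  have hqh : ((K : ℝ) ^ (2 / (h : ℝ))) ^ h = (K : ℝ) ^ 2 := by
    rw [← Real.rpow_natCast, ← Real.rpow_mul hK0.le, ← Real.rpow_natCast]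
    congr 1
    field_simp
    norm_num
  have hq2 : ((K : ℝ) ^ (2 / (h : ℝ))) ^ 2 ≤ (K : ℝ) ^ (r / 2) := by
    rw [← Real.rpow_natCast, ← Real.rpow_mul hK0.le]
    apply Real.rpow_le_rpow_of_exponent_le hK1
    have e : 2 / (h : ℝ) * ((2 : ℕ) : ℝ) = 4 / h := by
      push_cast
      ring
    rw [e]
    exact hhr
  refine ⟨16 * (K : ℝ) ^ (2 / (h : ℝ)), h, ⌈128 * (2 * MM K) ^ h⌉₊, by linarith, ?_, ?_, ?_⟩
  · have e : 16 * (K : ℝ) ^ (2 / (h : ℝ)) / 8 = 2 * (K : ℝ) ^ (2 / (h : ℝ)) := by ring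
    rw [e, mul_pow, hqh]
    have a : (1 : ℝ) < 2 ^ h := one_lt_pow₀ (by norm_num) hh1.ne'
    have b : (0 : ℝ) < (K : ℝ) ^ 2 := by positivity
    nlinarith
  · refine (Nat.le_ceil _).trans ?_
    have a := (Nat.lt_two_pow_self (n := ⌈128 * (2 * MM K) ^ h⌉₊)).le
    exact_mod_cast a
  · have a := ASYc.arith ((2 * MM K) ^ h) (16 * (K : ℝ) ^ (2 / (h : ℝ))) (Lg K)
      (⌈128 * (2 * MM K) ^ h⌉₊ : ℕ) hP (by linarith) hL (Nat.cast_nonneg _)
      (Nat.ceil_lt_add_one (by positivity)).le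
    refine a.trans ?_
    have b := ASYc.lg_pow_le (r / 2) hr2 (6 * h + 2) (by omega) K hK
    have e1 : ((2 * MM K) ^ h) ^ 3 * Lg K ^ 2 = 1120 ^ (3 * h) * Lg K ^ (6 * h + 2) := by
      unfold MM
      have e : 2 * (560 * Lg K ^ 2) = 1120 * Lg K ^ 2 := by ring
      rw [e, mul_pow, mul_pow, ← pow_mul, ← pow_mul, ← pow_mul]
      ring
    have e2 : (K : ℝ) ^ r = (K : ℝ) ^ (r / 2) * (K : ℝ) ^ (r / 2) := by
      rw [← Real.rpow_add hK0]
      congr 1
      ring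
    rw [e1, e2, mul_pow, mul_assoc (246 * 259 ^ 2)]
    apply mul_le_mul_of_nonneg_left _ (by norm_num)
    have c : Lg K ^ (6 * h + 2) * ((K : ℝ) ^ (2 / (h : ℝ))) ^ 2 ≤
        ((1 + ((6 * h + 2 : ℕ) : ℝ) / (r / 2)) ^ (6 * h + 2) * (K : ℝ) ^ (r / 2)) *
          (K : ℝ) ^ (r / 2) :=
      mul_le_mul b hq2 (by positivity) (by positivity)
    have d := mul_le_mul_of_nonneg_left c (show (0 : ℝ) ≤ 1120 ^ (3 * h) * 256 by positivity)
    calc (1120 : ℝ) ^ (3 * h) * Lg K ^ (6 * h + 2) * (16 ^ 2 * ((K : ℝ) ^ (2 / (h : ℝ))) ^ 2)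
        = 1120 ^ (3 * h) * 256 * (Lg K ^ (6 * h + 2) * ((K : ℝ) ^ (2 / (h : ℝ))) ^ 2) := by
          ring
      _ ≤ _ := d
      _ = _ := by ring

end Pool.Agent.P.MP_77a832_co.EL.L

namespace Pool.Agent.P.MP_77a832_co.EL.L

open Finset
open scoped Classical

namespace MATCHc

theorem pair {α : Type} (X Y : Finset α) : ∃ M : Finset (α × α), (∀ e ∈ M, e.1 ∈ X ∧ e.2 ∈ Y) ∧
    Set.InjOn Prod.fst (M : Set (α × α)) ∧ Set.InjOn Prod.snd (M : Set (α × α)) ∧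
    M.card = min X.card Y.card := by
  obtain ⟨X', h1, h2⟩ := exists_subset_card_eq (min_le_left X.card Y.card)
  obtain ⟨Y', h3, h4⟩ := exists_subset_card_eq (min_le_right X.card Y.card)
  let f := Finset.equivOfCardEq (h2.trans h4.symm)
  refine ⟨univ.image fun x : X' => (x.1, (f x).1), ?_, ?_, ?_, ?_⟩
  · simp only [mem_image, mem_univ, true_and]
    rintro _ ⟨x, rfl⟩
    exact ⟨h1 x.2, h3 (f x).2⟩
  · simp only [coe_image, coe_univ, Set.image_univ]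
    rintro _ ⟨x, rfl⟩ _ ⟨y, rfl⟩ e
    rw [Subtype.ext e]
  · simp only [coe_image, coe_univ, Set.image_univ]
    rintro _ ⟨x, rfl⟩ _ ⟨y, rfl⟩ e
    rw [f.injective (Subtype.ext e)]
  · rw [card_image_of_injective _ fun x y e => Subtype.ext (congrArg Prod.fst e)]
    simpa using h2

theorem tel (b : ℕ → Prop) (K : ℕ) {I : ℕ → Prop} (hI : Cvx I) :
    ((((range K).filter I).filter fun v => b v ∧ ¬ b (v + 1)).card : ℝ) ≤
      (((range K).filter I).filter fun v => b (v + 1) ∧ ¬ b v).card + 1 := by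
  rcases ((range K).filter I).eq_empty_or_nonempty with h | h
  · simp [h]
  have h1 := mem_filter.1 (min'_mem _ h)
  have h2 := mem_filter.1 (max'_mem _ h)
  have e : (range K).filter I = Ico (min' _ h) (max' _ h + 1) := by
    ext v
    rw [mem_Ico, Nat.lt_succ_iff]
    exact ⟨fun hv => ⟨min'_le _ v hv, le_max' _ v hv⟩, fun hv => mem_filter.2
      ⟨mem_range.2 (hv.2.trans_lt (mem_range.1 h2.1)), hI _ _ _ hv.1 hv.2 h1.2 h2.2⟩⟩
  have t := sum_Ico_sub (fun v => ind (b v)) ((min'_le_max' _ h).trans (Nat.le_succ _))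
  rw [← e] at t
  have t2 : ∑ v ∈ (range K).filter I, (ind (b (v + 1)) - ind (b v)) =
      ∑ v ∈ (range K).filter I, ((if b (v + 1) ∧ ¬ b v then (1 : ℝ) else 0) -
        if b v ∧ ¬ b (v + 1) then 1 else 0) :=
    sum_congr rfl fun v _ => by by_cases h : b v <;> by_cases h' : b (v + 1) <;> simp [ind, h, h']
  rw [t, sum_sub_distrib, sum_boole, sum_boole] at t2
  have a1 := ind_nonneg (b (max' _ h + 1))
  have a2 : ind (b (min' _ h)) ≤ 1 := by unfold ind; split_ifs <;> norm_num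
  linarith

theorem bal {α ι : Type} (Ed : Finset ι) (p q : ι → α) (u : ι → ℕ) (b : ℕ → Prop) (K : ℕ) (s : α)
    (n : Finset ℕ) (h1 : ∀ e ∈ Ed, q e = s → u e < K ∧ b (u e) ∧ ¬ b (u e + 1))
    (h2 : ∀ e ∈ Ed, ∀ e' ∈ Ed, u e = u e' → q e = q e' → e = e')
    (h3 : ∀ v < K, b (v + 1) → ¬ b v → v ∈ n ∨ ∃ e ∈ Ed, u e = v ∧ p e = s)
    {I : ℕ → Prop} (hI : Cvx I) : ((Ed.filter fun e => q e = s ∧ I (u e)).card : ℝ) ≤
      (Ed.filter fun e => p e = s ∧ I (u e)).card + (1 + n.card) := by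
  have a1 : (Ed.filter fun e => q e = s ∧ I (u e)).card ≤
      (((range K).filter I).filter fun v => b v ∧ ¬ b (v + 1)).card := by
    refine card_le_card_of_injOn u (fun e he => ?_) fun e he e' he' h => ?_
    · obtain ⟨c1, c2, c3⟩ := mem_filter.1 (mem_coe.1 he)
      exact mem_coe.2 (mem_filter.2 ⟨mem_filter.2 ⟨mem_range.2 (h1 e c1 c2).1, c3⟩, (h1 e c1 c2).2⟩)
    · have c := mem_filter.1 (mem_coe.1 he)
      have c' := mem_filter.1 (mem_coe.1 he')
      exact h2 e c.1 e' c'.1 h (c.2.1.trans c'.2.1.symm)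
  have a2 : (((range K).filter I).filter fun v => b (v + 1) ∧ ¬ b v).card ≤
      (Ed.filter fun e => p e = s ∧ I (u e)).card + n.card := by
    refine (card_le_card (t := (Ed.filter fun e => p e = s ∧ I (u e)).image u ∪ n) fun v hv => ?_).trans
      ((card_union_le _ _).trans (Nat.add_le_add_right card_image_le _))
    obtain ⟨c1, c2, c3⟩ := mem_filter.1 hv
    obtain ⟨c4, c5⟩ := mem_filter.1 c1
    rcases h3 v (mem_range.1 c4) c2 c3 with h | ⟨e, he, rfl, h⟩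
    · exact mem_union_right _ h
    · exact mem_union_left _ (mem_image_of_mem _ (mem_filter.2 ⟨he, h, c5⟩))
  have a3 := tel b K hI
  have a1' := (Nat.cast_le (α := ℝ)).2 a1
  have a2' := (Nat.cast_le (α := ℝ)).2 a2
  push_cast at a2'
  linarith

end MATCHc

theorem p_MATCH :
    S_MATCH := by
  intro α B Z K _
  choose M m1 m2 m3 m4 using fun u => MATCHc.pair (B (u + 1) \ B u) (B u \ B (u + 1))
  obtain ⟨Ed, hE, hc⟩ : ∃ Ed : Finset (ℕ × α × α), (∀ e, e ∈ Ed ↔ e.1 < K ∧ e.2 ∈ M e.1) ∧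
      Ed.card = ∑ u ∈ range K, (M u).card := by
    refine ⟨((range K).sigma M).map ⟨fun e => (e.1, e.2), fun a b e => ?_⟩, fun e => ?_, by
      rw [card_map, card_sigma]⟩
    · exact (Equiv.sigmaEquivProd ℕ (α × α)).injective e
    · simp only [mem_map, mem_sigma, mem_range, Function.Embedding.coeFn_mk]
      exact ⟨by rintro ⟨a, h, rfl⟩; exact h, fun h => ⟨⟨e.1, e.2⟩, h, rfl⟩⟩
  have key : ∀ u, ((B u \ B (u + 1)).card : ℝ) + (B (u + 1) \ B u).card =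
      2 * (M u).card + |((B (u + 1)).card : ℝ) - (B u).card| := fun u => by
    have a := card_sdiff_add_card_inter (B (u + 1)) (B u)
    have b := card_sdiff_add_card_inter (B u) (B (u + 1))
    rw [inter_comm] at b
    rw [m4, ← a, ← b]
    push_cast
    rcases le_total ((B (u + 1) \ B u).card : ℝ) (B u \ B (u + 1)).card with h | h
    · rw [min_eq_left h, abs_of_nonpos (by linarith)]; ring
    · rw [min_eq_right h, abs_of_nonneg (by linarith)]; ring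
  let un : ℕ → Finset α := fun u =>
    ((B (u + 1) \ B u) \ (M u).image Prod.fst) ∪ ((B u \ B (u + 1)) \ (M u).image Prod.snd)
  have hu : ∀ u, ((un u).card : ℝ) ≤ |((B (u + 1)).card : ℝ) - (B u).card| := fun u => by
    have a := card_sdiff_add_card_eq_card (s := (M u).image Prod.fst) (t := B (u + 1) \ B u)
      (image_subset_iff.2 fun e he => (m1 u e he).1)
    have b := card_sdiff_add_card_eq_card (s := (M u).image Prod.snd) (t := B u \ B (u + 1))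
      (image_subset_iff.2 fun e he => (m1 u e he).2)
    rw [card_image_of_injOn (m2 u)] at a
    rw [card_image_of_injOn (m3 u)] at b
    have c : (un u).card + 2 * (M u).card ≤ (B u \ B (u + 1)).card + (B (u + 1) \ B u).card := by
      have : (un u).card ≤ _ := card_union_le _ _
      omega
    have c' := (Nat.cast_le (α := ℝ)).2 c
    push_cast at c'
    linarith [key u]
  have i1 : ∀ e ∈ Ed, ∀ e' ∈ Ed, e.1 = e'.1 → e.2.1 = e'.2.1 → e = e' := fun e he e' he' a b =>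
    Prod.ext a (m2 e.1 ((hE e).1 he).2 (a ▸ ((hE e').1 he').2) b)
  have i2 : ∀ e ∈ Ed, ∀ e' ∈ Ed, e.1 = e'.1 → e.2.2 = e'.2.2 → e = e' := fun e he e' he' a b =>
    Prod.ext a (m3 e.1 ((hE e).1 he).2 (a ▸ ((hE e').1 he').2) b)
  refine ⟨Ed, fun s => 1 + ((range K).filter fun u => s ∈ un u).card,
    fun s => le_add_of_nonneg_right (Nat.cast_nonneg _),
    fun e he => ⟨((hE e).1 he).1, m1 _ _ ((hE e).1 he).2⟩, i1, i2, fun s I hI => ?_,
    fun s I hI => ?_, ?_, ?_⟩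
  · refine MATCHc.bal Ed (·.2.1) (·.2.2) (·.1) (fun v => s ∈ B v) K s _ ?_ i2 ?_ hI
    · rintro e he rfl
      exact ⟨((hE e).1 he).1, mem_sdiff.1 (m1 _ _ ((hE e).1 he).2).2⟩
    · intro v hv a b
      by_cases h : s ∈ (M v).image Prod.fst
      · obtain ⟨e, he, rfl⟩ := mem_image.1 h
        exact Or.inr ⟨(v, e), (hE _).2 ⟨hv, he⟩, rfl, rfl⟩
      · exact Or.inl (mem_filter.2 ⟨mem_range.2 hv,
          mem_union_left _ (mem_sdiff.2 ⟨mem_sdiff.2 ⟨a, b⟩, h⟩)⟩)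
  · refine MATCHc.bal Ed (·.2.2) (·.2.1) (·.1) (fun v => s ∉ B v) K s _ ?_ i1 ?_ hI
    · rintro e he rfl
      have := mem_sdiff.1 (m1 _ _ ((hE e).1 he).2).1
      exact ⟨((hE e).1 he).1, this.2, not_not.2 this.1⟩
    · intro v hv a b
      by_cases h : s ∈ (M v).image Prod.snd
      · obtain ⟨e, he, rfl⟩ := mem_image.1 h
        exact Or.inr ⟨(v, e), (hE _).2 ⟨hv, he⟩, rfl, rfl⟩
      · exact Or.inl (mem_filter.2 ⟨mem_range.2 hv,
          mem_union_right _ (mem_sdiff.2 ⟨mem_sdiff.2 ⟨not_not.1 b, a⟩, h⟩)⟩)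
  · rw [sum_add_distrib, sum_const, nsmul_eq_mul, mul_one]
    refine add_le_add_right ?_ _
    simp only [card_filter, Nat.cast_sum]
    rw [sum_comm]
    refine sum_le_sum fun u _ => le_trans ?_ (hu u)
    rw [← Nat.cast_sum, ← card_filter]
    exact Nat.cast_le.2 (card_le_card fun s hs => (mem_filter.1 hs).2)
  · simp only [key, hc, sum_add_distrib, Nat.cast_sum, mul_sum, le_refl]

end Pool.Agent.P.MP_77a832_co.EL.L

namespace Pool.Agent.P.MP_77a832_co.EL.L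

open Finset
open scoped Classical

namespace TVSc

theorem step (f : ℕ → ℝ) (s t : ℕ) (h : s ≤ t) :
    |f t - f s| ≤ ∑ i ∈ Ico s t, |f (i + 1) - f i| := by
  induction t, h using Nat.le_induction with
  | base => simp
  | succ n hn ih =>
    rw [Finset.sum_Ico_succ_top hn]
    have h1 : f (n + 1) - f s = (f n - f s) + (f (n + 1) - f n) := by ring
    rw [h1]
    exact (abs_add_le _ _).trans (by linarith)

theorem chain (f : ℕ → ℝ) (w : ℕ → ℕ) (hw : Monotone w) (K : ℕ) :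
    ∑ u ∈ range K, |f (w (u + 1)) - f (w u)| ≤ ∑ i ∈ Ico (w 0) (w K), |f (i + 1) - f i| := by
  induction K with
  | zero => simp
  | succ n ih =>
    rw [Finset.sum_range_succ,
      ← Finset.sum_Ico_consecutive (fun i => |f (i + 1) - f i|) (hw (Nat.zero_le n))
        (hw (Nat.le_succ n))]
    have := step f (w n) (w (n + 1)) (hw (Nat.le_succ n))
    exact add_le_add ih this

end TVSc

theorem p_TVS :
    S_TVS := by
  intro α A E a b K w hw ha hb
  have h1 := TVSc.chain (fun t => ((E ∩ A t).card : ℝ)) w hw K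
  refine h1.trans ?_
  unfold TV
  refine Finset.sum_le_sum_of_subset_of_nonneg (Finset.Ico_subset_Ico ha hb) ?_
  intro i _ _
  exact abs_nonneg _

end Pool.Agent.P.MP_77a832_co.EL.L

namespace Pool.Agent.P.MP_77a832_co.EL.L

open Finset
open scoped Classical

namespace NETFc

theorem geo {s t i j xp xq yp yq τ τ' : ℝ} (hx : xp < xq) (h1 : t * xp + j < yp)
    (h2 : yp ≤ s * xp + i) (h3 : s * xq + i < yq) (h4 : yq ≤ t * xq + j) (h0 : 0 < τ)
    (hs : τ ≤ s) (ht : t ≤ τ') :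
    (xp < (i - j) / (t - s) ∧ (i - j) / (t - s) < xq ∧ yp < s * ((i - j) / (t - s)) + i ∧
      s * ((i - j) / (t - s)) + i < yq) ∧
    τ * (xq - xp) < yq - yp ∧ yq - yp < τ' * (xq - xp) := by
  have hd : 0 < xq - xp := sub_pos.2 hx
  have hst : 0 < t - s := (mul_pos_iff_of_pos_right hd).1 (by linarith)
  have a : xp < (i - j) / (t - s) := (lt_div_iff₀ hst).2 (by linarith)
  have b : (i - j) / (t - s) < xq := (div_lt_iff₀ hst).2 (by linarith)
  have hs0 : 0 < s := h0.trans_le hs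
  have a' := mul_lt_mul_of_pos_left a hs0
  have b' := mul_lt_mul_of_pos_left b hs0
  have c := mul_le_mul_of_nonneg_right hs hd.le
  have d := mul_le_mul_of_nonneg_right ht hd.le
  exact ⟨⟨a, b, by linarith, by linarith⟩, by linarith, by linarith⟩

end NETFc

theorem p_NETF (hREC : S_REC) (hASY : S_ASY) (hMATCH : S_MATCH) (hTVS : S_TVS) :
    S_NETF := by
  intro r hr
  obtain ⟨C, hC, hN⟩ := net_of hREC hASY r hr
  refine ⟨2 * C + 1, by positivity, ?_⟩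
  intro α X Y si io A E a b hF w K tau hw hK ha hb h0 hm hl hs
  have wa : ∀ u, a ≤ w u := fun u => ha.trans (hw (Nat.zero_le u))
  have wb : ∀ u, u ≤ K → w u ≤ b := fun u hu => (hw hu).trans hb
  have hZ : ∀ u < K, (E ∩ A (w (u + 1))) \ (E ∩ A (w u)) ⊆ KS.act A E a b ∧
      (E ∩ A (w u)) \ (E ∩ A (w (u + 1))) ⊆ KS.act A E a b := fun u hu => by
    constructor <;> intro p hp <;> simp only [mem_sdiff, mem_inter, not_and] at hp
    · exact KS.mem_act.2 ⟨hp.1.1, _, _, wa _, wb _ hu, wa _, wb _ hu.le, hp.1.2, hp.2 hp.1.1⟩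
    · exact KS.mem_act.2 ⟨hp.1.1, _, _, wa _, wb _ hu.le, wa _, wb _ hu, hp.1.2, hp.2 hp.1.1⟩
  obtain ⟨Ed, c, m1, m2, m3, m4, m5, m6, m7, m8⟩ :=
    hMATCH α (fun u => E ∩ A (w u)) (KS.act A E a b) K hZ
  have g := fun e (he : e ∈ Ed) => by
    obtain ⟨hu, hp, hq⟩ := m2 e he
    simp only [mem_sdiff, mem_inter, not_and] at hp hq
    have hlt : w e.1 < w (e.1 + 1) := (hw (Nat.le_succ _)).lt_of_ne fun h =>
      hp.2 hp.1.1 (by rw [h]; exact hp.1.2)
    exact NETFc.geo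
      (hF.ord _ _ (wa _) hlt (wb _ hu) _ hp.1.1 _ hq.1.1 hp.1.2 (hp.2 hp.1.1) hq.1.2 (hq.2 hq.1.1))
      ((hF.ab _ (wa _) (wb _ hu) _ hp.1.1).1 hp.1.2)
      (not_lt.1 fun h => hp.2 hp.1.1 ((hF.ab _ (wa _) (wb _ hu.le) _ hp.1.1).2 h))
      ((hF.ab _ (wa _) (wb _ hu.le) _ hq.1.1).1 hq.1.2)
      (not_lt.1 fun h => hq.2 hq.1.1 ((hF.ab _ (wa _) (wb _ hu) _ hq.1.1).2 h))
      (h0.trans_le (hm (Nat.zero_le e.1))) (hs _ hu hlt).1 (hs _ hu hlt).2
  let D : Net α (ℕ × α × α) :=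
    { x := X, y := Y
      ξ := fun u => (io (w u) - io (w (u + 1))) / (si (w (u + 1)) - si (w u))
      η := fun u => si (w u) * ((io (w u) - io (w (u + 1))) / (si (w (u + 1)) - si (w u))) +
        io (w u)
      tau := tau, K := K, E := KS.act A E a b, c := c, Ed := Ed
      u := fun e => e.1, p := fun e => e.2.1, q := fun e => e.2.2 }
  have hD : D.Ok :=
    { pos := h0, mono := hm, lac := hl, one := fun s _ => m1 s
      mem := fun e he => ⟨(m2 e he).1, (hZ _ (m2 e he).1).1 (m2 e he).2.1,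
        (hZ _ (m2 e he).1).2 (m2 e he).2.2⟩
      piv := fun e he => (g e he).1
      slo := fun e he => (g e he).2
      ip := m3, iq := m4
      bq := fun s _ => m5 s
      bp := fun s _ => m6 s }
  have k1 : (Ed.card : ℝ) ≤ C * (K : ℝ) ^ r * ∑ s ∈ KS.act A E a b, c s := hN _ _ D hD hK
  have k2 := hTVS α A E a b K w hw ha hb
  have k3 : (1 : ℝ) ≤ (K : ℝ) ^ r := Real.one_le_rpow (by exact_mod_cast hK) hr.le
  have k4 : ∑ s ∈ KS.act A E a b, c s ≤ sz A E a b := m7.trans (add_le_add_right k2 _)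
  have k5 : TV A E a b ≤ sz A E a b := le_add_of_nonneg_left (Nat.cast_nonneg _)
  have k6 := mul_le_mul_of_nonneg_left k4 (mul_nonneg hC (zero_le_one.trans k3))
  have k7 := le_mul_of_one_le_left (sz_nonneg A E a b) k3
  have k8 : ∑ u ∈ range K, dif A E (w u) (w (u + 1)) = ∑ u ∈ range K,
      ((((E ∩ A (w u)) \ (E ∩ A (w (u + 1)))).card : ℝ) +
        ((E ∩ A (w (u + 1))) \ (E ∩ A (w u))).card) :=
    sum_congr rfl fun u _ => by
      rw [dif, ← inter_sdiff_assoc, ← inter_sdiff_assoc]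
      congr 3 <;> ext p <;> simp only [mem_sdiff, mem_inter] <;> tauto
  rw [k8]
  linarith

end Pool.Agent.P.MP_77a832_co.EL.L

namespace Pool.Agent.P.MP_77a832_co.EL.L

open Finset
open scoped Classical

namespace DYADc

/-- consecutive windows with lacunary slopes -/
structure Hyp (si : ℕ → ℝ) (a b : ℕ) (T : ℕ → ℕ) (la : ℕ → ℝ) : Prop where
  mono : Monotone T
  lo : a ≤ T 0
  hi : ∀ i, T i ≤ b
  pos : 0 < la 0
  lac : ∀ i, 2 * la i ≤ la (i + 1)
  slo : ∀ i, T i < T (i + 1) → ∀ t, T i ≤ t → t ≤ T (i + 1) → la i ≤ si t ∧ si t ≤ la (i + 2)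

variable {si : ℕ → ℝ} {a b : ℕ} {T : ℕ → ℕ} {la : ℕ → ℝ}

theorem Hyp.lpos (h : Hyp si a b T la) (i : ℕ) : 0 < la i := by
  induction i with
  | zero => exact h.pos
  | succ i ih => linarith [h.lac i]

theorem Hyp.lmono (h : Hyp si a b T la) : Monotone la :=
  monotone_nat_of_le_succ fun i => by linarith [h.lac i, h.lpos i]

/-- merging neighbouring windows -/
theorem Hyp.half (h : Hyp si a b T la) :
    Hyp si a b (fun i => T (2 * i)) (fun i => la (2 * i)) where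
  mono := fun _ _ e => h.mono (Nat.mul_le_mul_left 2 e)
  lo := h.lo
  hi := fun _ => h.hi _
  pos := h.pos
  lac := fun i => (h.lac _).trans (h.lmono (by omega))
  slo := fun i hlt t h1 h2 => by
    have e : 2 * (i + 1) = 2 * i + 1 + 1 := by ring
    simp only [e] at hlt h2
    have m1 : T (2 * i) ≤ T (2 * i + 1) := h.mono (by omega)
    by_cases c : T (2 * i) < T (2 * i + 1) ∧ t ≤ T (2 * i + 1)
    · have := h.slo _ c.1 t h1 c.2
      exact ⟨this.1, this.2.trans (h.lmono (by omega))⟩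
    · have := h.slo (2 * i + 1) (by omega) t (by omega) h2
      exact ⟨(h.lmono (by omega)).trans this.1, this.2.trans (h.lmono (by omega))⟩

theorem dif_nonneg {α : Type} (A : ℕ → Finset α) (E : Finset α) (s t : ℕ) : 0 ≤ dif A E s t :=
  add_nonneg (Nat.cast_nonneg _) (Nat.cast_nonneg _)

/-- the bound for crossings along a sequence of times -/
def NB {α : Type} (si : ℕ → ℝ) (A : ℕ → Finset α) (E : Finset α) (a b : ℕ) (C r : ℝ) : Prop :=
  ∀ (w : ℕ → ℕ) (K : ℕ) (tau : ℕ → ℝ), Monotone w → 1 ≤ K → a ≤ w 0 → w K ≤ b → 0 < tau 0 →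
    Monotone tau → (∀ v, 2 * tau v ≤ tau (v + 4)) →
    (∀ u < K, w u < w (u + 1) → tau u ≤ si (w u) ∧ si (w (u + 1)) ≤ tau (u + 4)) →
    ∑ u ∈ range K, dif A E (w u) (w (u + 1)) ≤ C * (K : ℝ) ^ r * sz A E a b

/-- interleaving of two sequences -/
def mix (f g : ℕ → ℕ) (u : ℕ) : ℕ := if u % 2 = 0 then f (u / 2) else g (u / 2)

theorem mix_even (f g : ℕ → ℕ) (i : ℕ) : mix f g (2 * i) = f i := by
  unfold mix
  rw [if_pos (by omega), show 2 * i / 2 = i by omega]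

theorem mix_odd (f g : ℕ → ℕ) (i : ℕ) : mix f g (2 * i + 1) = g i := by
  unfold mix
  rw [if_neg (by omega), show (2 * i + 1) / 2 = i by omega]

theorem mix_even' (f g : ℕ → ℕ) (i : ℕ) : mix f g (2 * i + 1 + 1) = f (i + 1) :=
  mix_even f g (i + 1)

variable {α : Type} {A : ℕ → Finset α} {E : Finset α} {C r : ℝ}

/-- one time inside each window -/
theorem net2 (hN : NB si A E a b C r) (h : Hyp si a b T la) {ρ : ℕ → ℕ}
    (hρ : ∀ i, T i ≤ ρ i ∧ ρ i ≤ T (i + 1)) {n : ℕ} (hn : 1 ≤ n) :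
    ∑ i ∈ range n, (dif A E (T i) (ρ i) + dif A E (ρ i) (T (i + 1))) ≤
      C * ((2 * n : ℕ) : ℝ) ^ r * sz A E a b := by
  have key : ∀ u, T (u / 2) ≤ mix T ρ u ∧ mix T ρ u ≤ mix T ρ (u + 1) ∧
      mix T ρ (u + 1) ≤ T (u / 2 + 1) := fun u => by
    obtain ⟨i, rfl | rfl⟩ := Nat.even_or_odd' u
    · rw [mix_even, mix_odd, show 2 * i / 2 = i by omega]
      exact ⟨le_rfl, hρ i⟩
    · rw [mix_even', mix_odd, show (2 * i + 1) / 2 = i by omega]
      exact ⟨(hρ i).1, (hρ i).2, le_rfl⟩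
  have := hN (mix T ρ) (2 * n) (fun u => la (u / 2))
    (monotone_nat_of_le_succ fun u => (key u).2.1) (by omega)
    (h.lo.trans (by simpa using (key 0).1)) (by rw [mix_even]; exact h.hi n)
    (by simpa using h.pos) (fun _ _ e => h.lmono (Nat.div_le_div_right e))
    (fun v => (h.lac _).trans (h.lmono (by omega)))
    (fun u _ hu => by
      obtain ⟨k1, k2, k3⟩ := key u
      have hl : T (u / 2) < T (u / 2 + 1) := by omega
      refine ⟨(h.slo _ hl _ k1 (k2.trans k3)).1, ?_⟩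
      exact (h.slo _ hl _ (k1.trans k2) k3).2.trans (h.lmono (by omega)))
  rw [KS.sum_two_mul] at this
  simpa only [mix_even, mix_odd, mix_even'] using this

/-- one time on each side of the odd cut points -/
theorem net4 (hN : NB si A E a b C r) (h : Hyp si a b T la) {f g : ℕ → ℕ}
    (hf : ∀ k, T (2 * k) ≤ f k ∧ f k ≤ T (2 * k + 1))
    (hg : ∀ k, T (2 * k + 1) ≤ g k ∧ g k ≤ T (2 * k + 1 + 1)) {n : ℕ} (hn : 1 ≤ n) :
    ∑ k ∈ range n, (dif A E (f k) (T (2 * k + 1)) + dif A E (T (2 * k + 1)) (g k)) ≤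
      C * ((2 * (2 * n) : ℕ) : ℝ) ^ r * sz A E a b := by
  have := net2 hN h (ρ := mix f g) (fun u => by
    obtain ⟨i, rfl | rfl⟩ := Nat.even_or_odd' u
    · rw [mix_even]; exact hf i
    · rw [mix_odd]; exact hg i) (n := 2 * n) (by omega)
  rw [KS.sum_two_mul] at this
  refine le_trans (sum_le_sum fun k _ => ?_) this
  rw [mix_even, mix_odd]
  linarith [dif_nonneg A E (T (2 * k)) (f k), dif_nonneg A E (g k) (T (2 * k + 1 + 1))]

/-- two neighbouring windows against their union -/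
theorem pair {u s v r₁ r₂ r₃ r₄ : ℕ} (h1 : u ≤ s) (h2 : s ≤ v)
    (h : ∀ p ∈ KS.act A E u s, p ∈ KS.act A E s v →
      p ∈ A s \ A r₁ ∨ p ∈ A s \ A r₂ ∨ p ∈ A r₃ \ A s ∨ p ∈ A r₄ \ A s) :
    ((KS.act A E u s).card : ℝ) + (KS.act A E s v).card ≤ (KS.act A E u v).card +
      (dif A E r₁ s + dif A E s r₂) + (dif A E r₃ s + dif A E s r₄) := by
  have e0 := card_union_add_card_inter (KS.act A E u s) (KS.act A E s v)
  have e1 := card_le_card (union_subset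
    (KS.act_mono (A := A) (Subset.refl E) (le_refl u) h2)
    (KS.act_mono (Subset.refl E) h1 (le_refl v)))
  have e2 : KS.act A E u s ∩ KS.act A E s v ⊆
      ((E ∩ (A s \ A r₁) ∪ E ∩ (A s \ A r₂)) ∪ E ∩ (A r₃ \ A s)) ∪ E ∩ (A r₄ \ A s) := by
    intro p hp
    rw [mem_inter] at hp
    have hz := KS.act_subset _ _ _ _ hp.1
    have := h p hp.1 hp.2
    simp only [mem_union, mem_inter]
    tauto
  have e3 := (card_le_card e2).trans ((card_union_le _ _).trans (Nat.add_le_add_right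
    ((card_union_le _ _).trans (Nat.add_le_add_right (card_union_le _ _) _)) _))
  unfold dif
  have : (KS.act A E u s).card + (KS.act A E s v).card ≤ (KS.act A E u v).card +
      ((E ∩ (A r₁ \ A s)).card + (E ∩ (A s \ A r₁)).card +
        ((E ∩ (A s \ A r₂)).card + (E ∩ (A r₂ \ A s)).card)) +
      ((E ∩ (A r₃ \ A s)).card + (E ∩ (A s \ A r₃)).card +
        ((E ∩ (A s \ A r₄)).card + (E ∩ (A r₄ \ A s)).card)) := by omega
  exact_mod_cast this

/-- the dyadic induction -/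
theorem dyad {X Y : α → ℝ} {io : ℕ → ℝ} (hF : Fr X Y si io A E a b) (hN : NB si A E a b C r)
    {B : ℝ} (hB : 1 ≤ B) (hq : 2 * C * ((2 : ℝ) ^ r) ^ 2 ≤ B * ((2 : ℝ) ^ r - 1)) (d : ℕ) :
    ∀ (T : ℕ → ℕ) (la : ℕ → ℝ), Hyp si a b T la →
      ∑ i ∈ range (2 ^ d), ((KS.act A E (T i) (T (i + 1))).card : ℝ) ≤
        B * ((2 : ℝ) ^ r) ^ d * sz A E a b := by
  have hz := sz_nonneg A E a b
  induction d with
  | zero =>
    intro T la h
    have h1 : ((KS.act A E (T 0) (T (0 + 1))).card : ℝ) ≤ (KS.act A E a b).card := by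
      exact_mod_cast card_le_card (KS.act_mono (Subset.refl E) h.lo (h.hi _))
    have h2 := act_le_sz A E a b
    simp only [pow_zero, range_one, sum_singleton]
    nlinarith
  | succ d ih =>
    intro T la h
    have m1 : ∀ k, T (2 * k) ≤ T (2 * k + 1) := fun k => h.mono (by omega)
    have m2 : ∀ k, T (2 * k + 1) ≤ T (2 * k + 1 + 1) := fun k => h.mono (by omega)
    have two := fun k => hF.two (T (2 * k)) (T (2 * k + 1)) (T (2 * k + 1 + 1))
      (h.lo.trans (h.mono (Nat.zero_le _))) (m1 k) (m2 k) (h.hi _)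
    choose r₁ r₂ r₃ r₄ h1 h2 h3 h4 h5 using two
    have hd : 1 ≤ 2 ^ d := Nat.one_le_two_pow
    have n1 := net4 hN h h1 h2 hd
    have n2 := net4 hN h h3 h4 hd
    have n0 := ih _ _ h.half
    have e : (((2 * (2 * 2 ^ d) : ℕ) : ℝ)) ^ r = ((2 : ℝ) ^ r) ^ 2 * ((2 : ℝ) ^ r) ^ d := by
      rw [← pow_add, ← Real.rpow_mul_natCast (by norm_num), mul_comm r,
        Real.rpow_natCast_mul (by norm_num)]
      congr 1
      push_cast
      ring
    rw [e] at n1 n2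
    rw [pow_succ', KS.sum_two_mul]
    refine (sum_le_sum fun k _ => pair (m1 k) (m2 k) (h5 k)).trans ?_
    rw [sum_add_distrib, sum_add_distrib]
    have n0' : ∑ k ∈ range (2 ^ d), ((KS.act A E (T (2 * k)) (T (2 * k + 1 + 1))).card : ℝ) ≤
        B * ((2 : ℝ) ^ r) ^ d * sz A E a b := n0
    have hp : 0 ≤ ((2 : ℝ) ^ r) ^ d * sz A E a b := by positivity
    have := mul_le_mul_of_nonneg_right hq hp
    rw [pow_succ]
    nlinarith

end DYADc

theorem p_DYAD (hNETF : S_NETF) :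
    S_DYAD := by
  intro r hr
  obtain ⟨C, hC, hN⟩ := hNETF r hr
  have hq : (1 : ℝ) < 2 ^ r := Real.one_lt_rpow (by norm_num) hr
  have hq1 : (0 : ℝ) < 2 ^ r - 1 := by linarith
  obtain ⟨B, hB⟩ : ∃ B : ℝ, B = 1 + 2 * C * ((2 : ℝ) ^ r) ^ 2 / (2 ^ r - 1) := ⟨_, rfl⟩
  have hB1 : 1 ≤ B := by
    rw [hB]
    exact le_add_of_nonneg_right (by positivity)
  have hB2 : 2 * C * ((2 : ℝ) ^ r) ^ 2 ≤ B * ((2 : ℝ) ^ r - 1) := by
    rw [hB, add_mul, div_mul_cancel₀ _ hq1.ne']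
    linarith
  refine ⟨B * 2 ^ r, by positivity, ?_⟩
  intro α X Y si io A E a b hF T la h1 h2 h3 h4 h5 h6 m hm
  have hd := DYADc.dyad hF (hN α X Y si io A E a b hF) hB1 hB2 (Nat.log 2 m + 1) T la
    ⟨h1, h2, h3, h4, h5, h6⟩
  have l1 : m < 2 ^ (Nat.log 2 m + 1) := Nat.lt_pow_succ_log_self (by norm_num) m
  have l2 : 2 ^ Nat.log 2 m ≤ m := Nat.pow_log_le_self 2 (by omega)
  have l3 : ((2 : ℝ) ^ r) ^ Nat.log 2 m ≤ (m : ℝ) ^ r := by
    rw [← Real.rpow_mul_natCast (by norm_num), mul_comm r, Real.rpow_natCast_mul (by norm_num)]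
    exact Real.rpow_le_rpow (by positivity) (by exact_mod_cast l2) hr.le
  refine (sum_le_sum_of_subset_of_nonneg (range_subset_range.2 l1.le)
    fun _ _ _ => Nat.cast_nonneg _).trans (hd.trans ?_)
  refine mul_le_mul_of_nonneg_right ?_ (sz_nonneg A E a b)
  rw [pow_succ', ← mul_assoc]
  exact mul_le_mul_of_nonneg_left l3 (by positivity)

end Pool.Agent.P.MP_77a832_co.EL.L

namespace Pool.Agent.P.MP_77a832_co.EL.L

open Finset
open scoped Classical

namespace REVc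

theorem act_rev {α : Type} (A : ℕ → Finset α) (E : Finset α) (H a b : ℕ) (hb : b ≤ H)
    (hab : a ≤ b) : KS.act (fun t => A (H - t)) E (H - b) (H - a) = KS.act A E a b := by
  ext p
  rw [KS.mem_act, KS.mem_act]
  refine and_congr_right fun _ => ⟨?_, ?_⟩
  · rintro ⟨s, t, h1, h2, h3, h4, h5, h6⟩
    exact ⟨H - s, H - t, by omega, by omega, by omega, by omega, h5, h6⟩
  · rintro ⟨s, t, h1, h2, h3, h4, h5, h6⟩
    refine ⟨H - s, H - t, by omega, by omega, by omega, by omega, ?_, ?_⟩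
    · rwa [Nat.sub_sub_self (by omega)]
    · rwa [Nat.sub_sub_self (by omega)]

end REVc

theorem p_REV :
    S_REV := by
  intro α A E H
  refine ⟨fun a b hab hb => ⟨REVc.act_rev A E H a b hb hab, ?_⟩, fun X Y si io a ha h =>
    ⟨fun t _ h2 p hp => ?_, fun s t _ h2 h3 p hp q hq a1 a2 a3 a4 => ?_,
      fun a' s b' _ h2 h3 h4 => ?_⟩⟩
  · unfold TV
    refine sum_nbij' (fun t => H - 1 - t) (fun t => H - 1 - t) (fun t ht => ?_) (fun t ht => ?_)
      (fun t ht => ?_) (fun t ht => ?_) fun t ht => ?_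
    all_goals rw [mem_Ico] at ht
    · rw [mem_Ico]; omega
    · rw [mem_Ico]; omega
    · omega
    · omega
    · beta_reduce
      rw [abs_sub_comm, show H - (t + 1) = H - 1 - t by omega,
        show H - 1 - t + 1 = H - t by omega]
  · rw [h.ab (H - t) (by omega) (by omega) p hp, neg_mul_neg]
  · exact neg_lt_neg (h.ord (H - t) (H - s) (by omega) (by omega) (by omega) q hq p hp a3 a4 a1 a2)
  · obtain ⟨r₁, r₂, r₃, r₄, b1, b2, b3, b4, b5⟩ :=
      h.two (H - b') (H - s) (H - a') (by omega) (by omega) (by omega) (by omega)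
    refine ⟨H - r₂, H - r₁, H - r₄, H - r₃, by omega, by omega, by omega, by omega,
      fun p h5 h6 => ?_⟩
    have e1 := REVc.act_rev A E H (H - s) (H - a') (by omega) (by omega)
    have e2 := REVc.act_rev A E H (H - b') (H - s) (by omega) (by omega)
    rw [Nat.sub_sub_self (by omega), Nat.sub_sub_self (by omega)] at e1 e2
    rw [e1] at h5
    rw [e2] at h6
    have := b5 p h6 h5
    rw [Nat.sub_sub_self (by omega), Nat.sub_sub_self (by omega), Nat.sub_sub_self (by omega),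
      Nat.sub_sub_self (by omega)]
    tauto

end Pool.Agent.P.MP_77a832_co.EL.L

namespace Pool.Agent.P.MP_77a832_co.EL.L

open Finset
open scoped Classical

theorem p_DYM (hDYAD : S_DYAD) (hREV : S_REV) :
    S_DYM := by
  intro r hr
  obtain ⟨C, hC, h⟩ := hDYAD r hr
  refine ⟨C, hC, fun α X Y si io A E T la m hF hT hm h0 hla hsi => ?_⟩
  obtain ⟨h1, h2⟩ := hREV α A E (T m)
  have hle : ∀ i, T (m - i) ≤ T m := fun i => hT (Nat.sub_le _ _)
  have h0m : T 0 ≤ T m := hT (Nat.zero_le _)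
  have h3 := h α _ _ _ _ _ E _ _ (h2 X Y si io (T 0) h0m hF) (fun i => T m - T (m - i)) la
    (fun i j hij => Nat.sub_le_sub_left (hT (Nat.sub_le_sub_left hij m)) _) (Nat.zero_le _)
    (fun i => Nat.sub_le_sub_left (hT (Nat.zero_le _)) _) h0 hla (fun i hi t ht ht' => by
      have him : i < m := by
        by_contra hc
        rw [show m - i = 0 by omega, show m - (i + 1) = 0 by omega] at hi
        exact lt_irrefl _ hi
      have e1 := hle i
      have e2 := hle (i + 1)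
      have := hsi (m - (i + 1)) (by omega) (T m - t) (by omega)
        (by rw [show m - (i + 1) + 1 = m - i by omega]; omega)
      rwa [show m - 1 - (m - (i + 1)) = i by omega,
        show m + 1 - (m - (i + 1)) = i + 2 by omega] at this) m hm
  have h4 := h1 (T 0) (T m) h0m le_rfl
  rw [Nat.sub_self] at h4
  unfold sz at h3 ⊢
  rw [h4.1, h4.2] at h3
  refine le_trans (le_of_eq ?_) h3
  rw [← sum_range_reflect]
  refine sum_congr rfl fun i hi => ?_
  have hi' := mem_range.1 hi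
  rw [(h1 (T (m - (i + 1))) (T (m - i)) (hT (by omega)) (hle i)).1,
    show m - 1 - i + 1 = m - i by omega, show m - 1 - i = m - (i + 1) by omega]

end Pool.Agent.P.MP_77a832_co.EL.L

namespace Pool.Agent.P.MP_77a832_co.EL.L

open Finset
open scoped Classical

theorem p_TWO :
    S_TWO := by
  intro α x y X Y th be si io A E w h hF hw a b
  refine ⟨fun t _ _ p hp => hF.ab (w t) p hp, fun s t _ hst _ p hp q hq p1 p2 q1 q2 => ?_,
    fun a' s b' _ h2 h3 _ => ?_⟩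
  · have hlt : w s < w t := lt_of_le_of_ne (hw hst.le) fun e => p2 (e ▸ p1)
    exact hF.ord p hp q hq (h.left hlt hp hq p1 p2 q1 q2)
  have hm : Monotone fun t => th (w t) := h.mono.monotone.comp hw
  obtain ⟨r₁, r₂, a1, a2, a3, a4, ha⟩ := KS.Z.env x (fun t => be (w t)) hm E h2 h3
  obtain ⟨r₃, r₄, b1, b2, b3, b4, hb⟩ :=
    KS.Z.env (fun p => -x p) (fun t => -be (w t)) hm E h2 h3
  refine ⟨r₁, r₂, r₃, r₄, ⟨a1, a2⟩, ⟨a3, a4⟩, ⟨b1, b2⟩, ⟨b3, b4⟩, fun p hp hp' => ?_⟩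
  obtain ⟨hP, u, v, c1, c2, c3, c4, c5, c6⟩ := KS.mem_act.1 hp
  obtain ⟨-, u', v', d1, d2, d3, d4, d5, d6⟩ := KS.mem_act.1 hp'
  have ab : ∀ t, (p ∈ A (w t) ↔ th (w t) * x p + be (w t) < y p) := fun t => h.ab (w t) p hP
  simp only [mem_sdiff]
  by_cases hs : p ∈ A (w s)
  · rcases ha p hP with e | e
    · refine Or.inl ⟨hs, fun hc => d6 ?_⟩
      exact (ab v').2 ((e v' d3 d4).trans_lt ((ab r₁).1 hc))
    · refine Or.inr (Or.inl ⟨hs, fun hc => c6 ?_⟩)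
      exact (ab v).2 ((e v c3 c4).trans_lt ((ab r₂).1 hc))
  · rcases hb p hP with e | e
    · refine Or.inr (Or.inr (Or.inl ⟨(ab r₃).2 ?_, hs⟩))
      have := (ab u').1 d5
      linarith [e u' d1 d2]
    · refine Or.inr (Or.inr (Or.inr ⟨(ab r₄).2 ?_, hs⟩))
      have := (ab u).1 c5
      linarith [e u c1 c2]

end Pool.Agent.P.MP_77a832_co.EL.L

namespace Pool.Agent.P.MP_77a832_co.EL.L

open Finset
open scoped Classical

theorem p_RET :
    S_RET := by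
  intro a b m h hm
  have ha : Monotone a := monotone_nat_of_le_succ fun i => (h i).1.trans (h i).2
  have hb : Monotone b := monotone_nat_of_le_succ fun i => (h i).2.trans (h (i + 1)).1
  let w : ℕ → ℕ := fun t => (range m).sup fun i => if a i ≤ t then min t (b i) else 0
  have w1 : ∀ t c, (∀ j < m, a j ≤ t → min t (b j) ≤ c) → w t ≤ c := fun t c hc =>
    Finset.sup_le fun j hj => by
      split_ifs with e
      · exact hc j (mem_range.1 hj) e
      · exact Nat.zero_le _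
  have w2 : ∀ i < m, ∀ t, a i ≤ t → min t (b i) ≤ w t := fun i hi t e => by
    have := Finset.le_sup (f := fun i => if a i ≤ t then min t (b i) else 0) (mem_range.2 hi)
    rwa [if_pos e] at this
  have w3 : ∀ i < m, ∀ t, a i ≤ t → t ≤ b i → w t = t := fun i hi t e e' =>
    le_antisymm (w1 t t fun _ _ _ => min_le_left _ _) (by simpa [e'] using w2 i hi t e)
  have w4 : ∀ i < m, ∀ t, a i ≤ t → (t < a (i + 1) ∨ i + 1 = m) → a i ≤ w t ∧ w t ≤ b i :=
    fun i hi t e e' => ⟨(le_min e (h i).1).trans (w2 i hi t e), w1 t _ fun j hj ej =>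
      (min_le_right _ _).trans (hb (by
        by_contra hc
        have := ha (show i + 1 ≤ j by omega)
        omega))⟩
  refine ⟨w, fun i => if i < m then a i else b (m - 1), fun s t hst => ?_, fun i j hij => ?_,
    fun i hi => if_pos hi, fun i hi => if_neg (by omega), w3, fun i hi t e e' => ?_⟩
  · exact w1 s _ fun j hj ej => (min_le_min_right _ hst).trans (w2 j hj t (ej.trans hst))
  · dsimp only
    split_ifs with h1 h2 h2
    · exact ha hij
    · exact (h i).1.trans (hb (by omega))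
    · omega
    · exact le_rfl
  · simp only [if_pos hi] at e
    by_cases c : t < a (i + 1) ∨ i + 1 = m
    · exact Or.inl (w4 i hi t e c)
    · have h1 : i + 1 < m := by omega
      simp only [if_pos h1] at e'
      have h2 := (h (i + 1)).1
      rw [w3 (i + 1) h1 t (by omega) (by omega)]
      exact Or.inr ⟨h1, by omega, by omega⟩

end Pool.Agent.P.MP_77a832_co.EL.L

namespace Pool.Agent.P.MP_77a832_co.EL.L

open Finset
open scoped Classical

theorem p_GAP (hDYAD : S_DYAD) (hDYM : S_DYM) (hTWO : S_TWO) (hRET : S_RET) (hTVS : S_TVS) :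
    S_GAP := by
  intro r hr
  obtain ⟨C₁, c1, h1⟩ := hDYAD r hr
  obtain ⟨C₂, c2, h2⟩ := hDYM r hr
  refine ⟨max C₁ C₂, fun α x y th be A P hL X Y si io f1 f2 a b la m hab l0 l1 hm hc => ?_⟩
  obtain ⟨w, T, wm, Tm, T1, T2, w1, w2⟩ := hRET a b m hab hm
  have hF := hTWO α x y X Y th be si io A P w hL ⟨f1, f2⟩ wm (T 0) (T m)
  have e0 : T 0 = a 0 := T1 0 hm
  have em : T m = b (m - 1) := T2 m le_rfl
  have w0 : w (T 0) = a 0 := by rw [e0]; exact w1 0 hm _ le_rfl (hab 0).1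
  have wm' : w (T m) = b (m - 1) := by rw [em]; exact w1 (m - 1) (by omega) _ (hab _).1 le_rfl
  have lp : ∀ i, 0 < la i := fun i => by
    induction i with
    | zero => exact l0
    | succ i ih => linarith [l1 i]
  have lm : Monotone la := monotone_nat_of_le_succ fun i => by linarith [l1 i, lp i]
  have hs : sz (fun t => A (w t)) P (T 0) (T m) ≤ sz A P (a 0) (b (m - 1)) := by
    refine add_le_add (Nat.cast_le.2 (card_le_card fun p hp => ?_)) ?_
    · obtain ⟨h, s, t, a1, a2, a3, a4, a5⟩ := KS.mem_act.1 hp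
      exact KS.mem_act.2 ⟨h, w s, w t, w0 ▸ wm a1, wm' ▸ wm a2, w0 ▸ wm a3, wm' ▸ wm a4, a5⟩
    · rw [TV, sum_Ico_eq_sum_range]
      exact hTVS α A P _ _ (T m - T 0) (fun u => w (T 0 + u))
        (fun u v h => wm (Nat.add_le_add_left h _)) w0.ge
        (by rw [Nat.add_sub_cancel' (Tm (Nat.zero_le m))]; exact wm'.le)
  have ha : ∑ i ∈ range m, ((KS.act A P (a i) (b i)).card : ℝ) ≤
      ∑ i ∈ range m, ((KS.act (fun t => A (w t)) P (T i) (T (i + 1))).card : ℝ) := by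
    refine sum_le_sum fun i hi => Nat.cast_le.2 (card_le_card fun p hp => ?_)
    have hi := mem_range.1 hi
    have hb : b i ≤ T (i + 1) := by
      by_cases h : i + 1 < m
      · rw [T1 _ h]; exact (hab i).2
      · rw [T2 _ (by omega), show m - 1 = i by omega]
    obtain ⟨h, s, t, a1, a2, a3, a4, a5⟩ := KS.mem_act.1 hp
    refine KS.mem_act.2 ⟨h, s, t, T1 i hi ▸ a1, a2.trans hb, T1 i hi ▸ a3, a4.trans hb, ?_⟩
    rwa [w1 i hi s a1 a2, w1 i hi t a3 a4]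
  have fin : ∀ C, 0 ≤ C → C ≤ max C₁ C₂ → C * (m : ℝ) ^ r * sz (fun t => A (w t)) P (T 0) (T m) ≤
      max C₁ C₂ * (m : ℝ) ^ r * sz A P (a 0) (b (m - 1)) := fun C h0 h =>
    mul_le_mul (mul_le_mul_of_nonneg_right h (by positivity)) hs (sz_nonneg _ _ _ _)
      (mul_nonneg (h0.trans h) (by positivity))
  refine ha.trans ?_
  rcases hc with hc | hc
  · refine (h1 α X Y _ _ _ P _ _ hF T la Tm le_rfl (fun i => ?_) l0 l1
      (fun i hi t t1 t2 => ?_) m hm).trans (fin _ c1 (le_max_left _ _))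
    · rcases le_total i m with h | h
      · exact Tm h
      · rw [T2 i h, em]
    · have him : i < m := by
        by_contra h
        rw [T2 i (by omega), T2 (i + 1) (by omega)] at hi
        exact lt_irrefl _ hi
      rcases w2 i him t t1 t2 with h | h
      · exact (hc i him _ h.1 h.2).imp_right fun e => e.trans (lm (by omega))
      · exact (hc (i + 1) h.1 _ h.2.1 h.2.2).imp_left fun e => (lm (by omega)).trans e
  · refine (h2 α X Y _ _ _ P T (fun j => if j = 0 then la 0 / 2 else la (j - 1)) m hF Tm hm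
      (by simpa using l0) (fun i => ?_) fun i him t t1 t2 => ?_).trans (fin _ c2 (le_max_right _ _))
    · rcases i with _ | i
      · simp; linarith
      · simpa using l1 i
    · rw [if_neg (show m + 1 - i ≠ 0 by omega)]
      rcases w2 i him t t1 t2 with h | h
      · refine (hc i him _ h.1 h.2).imp (fun e => le_trans ?_ e) fun e => e.trans (lm (by omega))
        split_ifs with h0
        · rw [h0]; linarith
        · exact lm (by omega)
      · rw [if_neg (show m - 1 - i ≠ 0 by omega)]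
        exact (hc (i + 1) h.1 _ h.2.1 h.2.2).imp (fun e => (lm (by omega)).trans e)
          fun e => e.trans (lm (by omega))

end Pool.Agent.P.MP_77a832_co.EL.L

namespace Pool.Agent.P.MP_77a832_co.EL.L

theorem dyad : S_DYAD :=
  p_DYAD (p_NETF (p_REC (p_CL p_GX p_GC p_GY p_FLUX) (p_SUM (p_NEAR p_SCA)) (p_DLC p_SCA)) p_ASY
    p_MATCH p_TVS)

theorem lac : S_LAC := p_GAP dyad (p_DYM dyad p_REV) p_TWO p_RET p_TVS

end Pool.Agent.P.MP_77a832_co.EL.L
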