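import Pool.Agent.P.MP_77a832_co.EL.NIface

/-! Step NBAND. -/

set_option autoImplicit false

namespace Pool.Agent.P.MP_77a832_co.EL

open Finset Real Pool.Agent.P.MP_bf60a1_an.RA
open scoped Classical

open N

namespace NBANDc

theorem cover {α : Type} {S X Y Z : Finset α} (h : ∀ q ∈ S, q ∈ X ∨ q ∈ Y ∨ q ∈ Z) :
    (S.card : ℝ) ≤ X.card + Y.card + Z.card := by
  rw [← Nat.cast_add, ← Nat.cast_add, Nat.cast_le]
  refine le_trans (card_le_card fun q hq => ?_)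
    ((card_union_le (X ∪ Y) Z).trans (Nat.add_le_add_right (card_union_le X Y) _))
  simp only [mem_union, or_assoc]
  exact h q hq

end NBANDc

theorem p_NBAND :
    S_NBAND := by
  intro α A F a b r₁ r₂ u h1 h2 h3 h4
  have hu : 0 ≤ u := le_trans (Nat.cast_nonneg _) (h3 0)
  have hT := TV_nonneg A F a b
  rcases (KS.act A F a b).eq_empty_or_nonempty with he | hne
  · rw [ua, he, card_empty, Nat.cast_zero]
    linarith
  have hd : ∀ p ∈ F, ∀ q ∈ F, (r₁ p : ℤ) - r₂ p ≤ (r₁ q : ℤ) - r₂ q → r₁ p ≠ r₁ q → r₂ p ≠ r₂ q →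
      r₁ p < r₁ q ∧ r₂ q < r₂ p := by
    intro p hp q hq e e1 e2
    have k1 := h2 p hp q hq
    have k2 := h2 q hq p hp
    omega
  have hs := KS.act_subset A F a b
  obtain ⟨p, hp, hmin⟩ := exists_min_image _ (fun p => (r₁ p : ℤ) - r₂ p) hne
  obtain ⟨p', hp', hmax⟩ := exists_max_image _ (fun p => (r₁ p : ℤ) - r₂ p) hne
  obtain ⟨hpF, s, -, s1, s2, -, -, hps, -⟩ := KS.mem_act.1 hp
  obtain ⟨hpF', -, t, -, -, t1, t2, -, hpt⟩ := KS.mem_act.1 hp'
  have c1 := NBANDc.cover (S := KS.act A F a b) (X := KS.act A F a b ∩ A s)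
    (Y := F.filter fun q => r₁ q = r₁ p) (Z := F.filter fun q => r₂ q = r₂ p) fun q hq => by
      by_cases e1 : r₁ q = r₁ p
      · exact Or.inr (Or.inl (mem_filter.2 ⟨hs hq, e1⟩))
      by_cases e2 : r₂ q = r₂ p
      · exact Or.inr (Or.inr (mem_filter.2 ⟨hs hq, e2⟩))
      obtain ⟨k1, k2⟩ := hd p hpF q (hs hq) (hmin q hq) (Ne.symm e1) (Ne.symm e2)
      exact Or.inl (mem_inter.2 ⟨hq, h1 p hpF q (hs hq) k1 k2 s s1 s2 hps⟩)
  have c2 := NBANDc.cover (S := KS.act A F a b ∩ A t) (X := ∅)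
    (Y := F.filter fun q => r₁ q = r₁ p') (Z := F.filter fun q => r₂ q = r₂ p') fun q hq => by
      obtain ⟨hq, hqt⟩ := mem_inter.1 hq
      by_cases e1 : r₁ q = r₁ p'
      · exact Or.inr (Or.inl (mem_filter.2 ⟨hs hq, e1⟩))
      by_cases e2 : r₂ q = r₂ p'
      · exact Or.inr (Or.inr (mem_filter.2 ⟨hs hq, e2⟩))
      obtain ⟨k1, k2⟩ := hd q (hs hq) p' hpF' (hmax q hq) e1 e2
      exact absurd (h1 q (hs hq) p' hpF' k1 k2 t t1 t2 hqt) hpt
  have c3 := (le_abs_self _).trans (net_le A (KS.act A F a b) t1 t2 s1 s2)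
  rw [TV_act] at c3
  rw [card_empty, Nat.cast_zero] at c2
  rw [ua]
  linarith [h3 (r₁ p), h4 (r₂ p), h3 (r₁ p'), h4 (r₂ p')]

end Pool.Agent.P.MP_77a832_co.EL
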