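import Pool.Agent.P.MP_77a832_co.EL.NIface

/-! Step NBLK. -/

set_option autoImplicit false

namespace Pool.Agent.P.MP_77a832_co.EL

open Finset Real Pool.Agent.P.MP_bf60a1_an.RA N
open scoped Classical

theorem p_NBLK (hNFRM : S_NFRM) (hNLACF : S_NLACF) (hNLACM : S_NLACM) :
    S_NBLK := by
  intro r C hr hC hL α x y th be A E τ Z u a b S hl hab hτ hu hS
  obtain ⟨f1, f2, f3⟩ := hNFRM α x y th be A E a b hl hab
  set D := 3 * TV A E (τ 0) (τ (Z * Z)) with hD
  have hF := fun si h => hNLACF r C hr (by linarith) hL α x y th be si A E τ Z u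
    (S.filter fun v => mid A E τ D Z v ∧ ¬ nlf si τ Z v) hl h hτ hu fun v hv =>
      have e := mem_filter.1 hv
      ⟨(hS v e.1).1, e.2.1, (hS v e.1).2.1, e.2.2⟩
  have hM := fun si h => hNLACM r C hr (by linarith) hL α x y th be si A E τ Z u
    (S.filter fun v => mid A E τ D Z v ∧ ¬ nlm si τ Z v) hl h hτ hu fun v hv =>
      have e := mem_filter.1 hv
      ⟨(hS v e.1).1, e.2.1, (hS v e.1).2.1, e.2.2⟩
  have b0 := sz_nonneg A E (τ (u * Z)) (τ ((u + 1) * Z))
  have h0 : ∑ v ∈ S.filter fun v => ¬ mid A E τ D Z v, ua A E (τ v) (τ (v + 1)) ≤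
      2 * sz A E (τ (u * Z)) (τ ((u + 1) * Z)) := by
    set S0 := S.filter fun v => ¬ mid A E τ D Z v
    have hc : S0.card ≤ 2 := by
      rcases S0.eq_empty_or_nonempty with e | e
      · simp [e]
      refine (card_le_card (t := {S0.min' e, S0.max' e}) fun v hv => ?_).trans card_le_two
      have m1 := hS _ (mem_filter.1 (S0.min'_mem e)).1
      have m2 := hS _ (mem_filter.1 (S0.max'_mem e)).1
      have m3 := (hS _ (mem_filter.1 hv).1).1
      by_contra hn
      rw [mem_insert, mem_singleton, not_or] at hn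
      exact (mem_filter.1 hv).2 ⟨⟨_, (S0.min'_le v hv).lt_of_ne' hn.1, m1.1.trans m3.symm, m1.2.1⟩,
        _, (S0.le_max' v hv).lt_of_ne hn.2, m2.1.trans m3.symm, m2.2.1⟩
    refine (sum_le_card_nsmul _ _ (sz A E (τ (u * Z)) (τ ((u + 1) * Z))) fun v hv => ?_).trans ?_
    · have m3 := (hS _ (mem_filter.1 hv).1).1
      refine (ua_mono Subset.rfl (hτ ?_) (hτ ?_)).trans (ua_le_sz _ _ _ _)
      · exact m3 ▸ Nat.div_mul_le_self v Z
      · exact (Nat.div_lt_iff_lt_mul (by omega)).1 (by omega)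
    · rw [nsmul_eq_mul]
      exact mul_le_mul_of_nonneg_right (by exact_mod_cast hc) b0
  have z1 : 1 ≤ C * (Z : ℝ) ^ r := one_le_mul_of_one_le_of_one_le hC
    (one_le_rpow (by exact_mod_cast (by omega : 1 ≤ Z)) hr)
  have h1 := mul_le_mul_of_nonneg_right z1 b0
  have := add_le_add h0 (add_le_add (add_le_add (hF _ f1) (hM _ f1)) (add_le_add
    (add_le_add (hF _ f2) (hM _ f2)) (add_le_add (hF _ f3) (hM _ f3))))
  simp only [sum_filter, ← sum_add_distrib] at this
  refine le_trans (sum_le_sum fun v hv => ?_) (this.trans (by linarith))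
  have u0 := ua_nonneg A E (τ v) (τ (v + 1))
  have hn := (hS v hv).2.2
  have hr := (hS v hv).2.1
  by_cases hm : mid A E τ D Z v
  · simp only [cln, ← hD, hm, hr, true_and] at hn
    simp only [hm, true_and, not_true, if_false]
    split_ifs <;> first | linarith | tauto
  · simp [hm]

end Pool.Agent.P.MP_77a832_co.EL
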