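import Pool.Agent.P.MP_77a832_co.EL.NIface

/-! Step NCNT. -/

set_option autoImplicit false

namespace Pool.Agent.P.MP_77a832_co.EL

open Finset Real Pool.Agent.P.MP_bf60a1_an.RA
open scoped Classical

theorem p_NCNT :
    S_NCNT := by
  intro α ι _ f E S r J hS hpos hmono h9 hJ
  by_contra hc
  have h21 : 21 ≤ J.card := by omega
  choose p hp hr q hq hrq hlt using hJ
  have he := J.orderEmbOfCardLe_mem h21
  generalize J.orderEmbOfCardLe h21 = e at he
  have step : ∀ a b c : Fin 21, a < b → b < c →
      5 / 4 * f (p (e a) (he a)) ≤ f (p (e c) (he c)) := fun a b c hab hbc => by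
    have h1 := e.strictMono hab
    have h2 := e.strictMono hbc
    have a1 := hmono _ (hS (hp _ (he a))) _ (hS (hp _ (he b))) (by rwa [hr, hr])
    have a2 := hmono _ (hS (hp _ (he a))) _ (hq _ (he b)) (by rwa [hr, hrq])
    have a3 := hmono _ (hS (hp _ (he b))) _ (hS (hp _ (he c))) (by rwa [hr, hr])
    have a4 := hmono _ (hq _ (he b)) _ (hS (hp _ (he c))) (by rwa [hr, hrq])
    have a5 := hlt _ (he b)
    have a6 := hpos _ (hS (hp _ (he a)))
    rcases abs_cases (f (q _ (he b)) - f (p _ (he b))) with h | h <;> rw [h.1] at a5 <;> linarith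
  have s1 := step 0 1 2 (by decide) (by decide)
  have s2 := step 2 3 4 (by decide) (by decide)
  have s3 := step 4 5 6 (by decide) (by decide)
  have s4 := step 6 7 8 (by decide) (by decide)
  have s5 := step 8 9 10 (by decide) (by decide)
  have s6 := step 10 11 12 (by decide) (by decide)
  have s7 := step 12 13 14 (by decide) (by decide)
  have s8 := step 14 15 16 (by decide) (by decide)
  have s9 := step 16 17 18 (by decide) (by decide)
  have s10 := step 18 19 20 (by decide) (by decide)
  have t := h9 _ (hp _ (he 20)) _ (hp _ (he 0))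
  have t0 := hpos _ (hS (hp _ (he 0)))
  linarith

end Pool.Agent.P.MP_77a832_co.EL
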