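import Pool.Agent.P.MP_77a832_co.EL.NIface

/-! Step NCORN. -/

set_option autoImplicit false

namespace Pool.Agent.P.MP_77a832_co.EL

open Finset Real Pool.Agent.P.MP_bf60a1_an.RA
open scoped Classical
open N

theorem p_NCORN (hNMTV : S_NMTV) (hNBAND : S_NBAND) (hNPHS : S_NPHS) :
    S_NCORN := by
  intro g C hC hA α x y f₁ f₂ th be A E τ M R r₁ r₂ hv hL hτ hR hM h1 h2 s1 s2 o1 o2 hb
  set s := sz A E (τ 0) (τ (M * R)) with hs
  have hM' : (0 : ℝ) < M := by exact_mod_cast hM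
  have mo : ∀ L : ℕ → ℕ → Prop, (∀ i j i' j', i ≤ i' → j ≤ j' → L i' j' → L i j) →
      Mo A E (τ 0) (τ (M * R)) fun p => L (r₁ p) (r₂ p) :=
    fun L h a t b1 b2 b3 p hp q hq a1 a2 a3 a4 =>
      h _ _ _ _ (o1 a t b1 b2 b3 p hp q hq a1 a2 a3 a4) (o2 a t b1 b2 b3 p hp q hq a1 a2 a3 a4)
  have row : ∀ (f : α → ℝ) (r : α → ℕ) (F : Finset α), Sl f E M r → F ⊆ E → ∀ j,
      ((F.filter fun p => r p = j).card : ℝ) ≤ 2 * s / M := by
    intro f r F h hF j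
    have e1 : ((F.filter fun p => r p = j).card : ℝ) ≤ (E.filter fun p => r p = j).card :=
      Nat.cast_le.2 (card_le_card (filter_subset_filter _ hF))
    have e2 : (E.card : ℝ) / M ≤ s / M := by gcongr
    have e3 : 1 ≤ s / M := (one_le_div hM').2 h2
    have e4 := h.sm j
    rw [mul_div_assoc]
    linarith
  have strip : ∀ (L₁ L₂ : ℕ → ℕ → Prop) (S : α → Prop),
      (∀ i j i' j', i ≤ i' → j ≤ j' → L₁ i' j' → L₁ i j) →
      (∀ i j i' j', i ≤ i' → j ≤ j' → L₂ i' j' → L₂ i j) →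
      (∀ i j i' j', i < i' → j < j' → L₁ i' j' → L₂ i j) →
      (∀ p, S p → L₁ (r₁ p) (r₂ p) ∧ ¬ L₂ (r₁ p) (r₂ p)) →
      uw A E τ (M * R) (fun _ p => S p) ≤ 16 * C * (R : ℝ) ^ g * s := by
    intro L₁ L₂ S a1 a2 a3 a4
    let F := E.filter fun p => L₁ (r₁ p) (r₂ p) ∧ ¬ L₂ (r₁ p) (r₂ p)
    have hF : F ⊆ E := filter_subset _ _
    refine (hNPHS g C hC hA α x y th be A E F τ M R (4 * s) (4 * (2 * s / M)) _ hL hτ hR hF
      (fun _ p hp h => mem_filter.2 ⟨hp, a4 p h⟩)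
      ((hNMTV α A E F _ _ _ _ (hτ (Nat.zero_le _)) (mo L₁ a1) (mo L₂ a2)).2 fun p => mem_filter)
      fun a b b1 _ b3 => hNBAND α A F a b r₁ r₂ _
        (fun p hp q hq c1 c2 t c3 c4 => hb p (hF hp) q (hF hq) c1 c2 t (b1.trans c3) (c4.trans b3))
        (fun p hp q hq c => (mem_filter.1 hp).2.2 (a3 _ _ _ _ c.1 c.2 (mem_filter.1 hq).2.1))
        (row f₁ r₁ F s1 hF) (row f₂ r₂ F s2 hF)).trans_eq ?_
    field_simp
    ring
  constructor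
  · refine strip (fun i j => ¬ ∃ c, hv c ∧ c.1 < i ∧ c.2 < j)
      (fun i j => ¬ ∃ c, hv c ∧ c.1 ≤ i ∧ c.2 ≤ j) _ ?_ ?_ ?_
      fun p h => ⟨h.2, fun e => e ⟨_, h.1, le_rfl, le_rfl⟩⟩
    all_goals exact fun i j i' j' a b h ⟨c, c1, c2, c3⟩ => h ⟨c, c1, by omega, by omega⟩
  · refine strip (fun i j => ∃ c, hv c ∧ i ≤ c.1 ∧ j ≤ c.2)
      (fun i j => ∃ c, hv c ∧ i < c.1 ∧ j < c.2) _ ?_ ?_ ?_
      fun p h => ⟨⟨_, h.1, le_rfl, le_rfl⟩, h.2⟩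
    all_goals exact fun i j i' j' a b ⟨c, c1, c2, c3⟩ => ⟨c, c1, by omega, by omega⟩

end Pool.Agent.P.MP_77a832_co.EL
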