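import Pool.Agent.P.MP_77a832_co.EL.NIface

/-! Step NFEW. -/

set_option autoImplicit false

namespace Pool.Agent.P.MP_77a832_co.EL

open Finset Real Pool.Agent.P.MP_bf60a1_an.RA N
open scoped Classical

theorem p_NFEW :
    S_NFEW := by
  intro g C g0 g1 C0 hA α x y th be A E τ K S N hL hτ hS hN
  have N0 : 0 ≤ N := (Nat.cast_nonneg _).trans hN
  rcases S.eq_empty_or_nonempty with rfl | hne
  · rw [sum_empty]
    exact mul_nonneg (mul_nonneg (by linarith) (rpow_nonneg N0 _)) (sz_nonneg _ _ _ _)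
  obtain ⟨lo, hi, hc, hf⟩ := KS.chn_of_family (a := τ 0) (b := τ K) (F := S) hτ
    (fun i hi => ⟨hτ i.zero_le, hτ (mem_range.1 (hS hi))⟩) (hτ K.zero_le)
  let w : ℕ → ℕ := fun j => if j % 2 = 0 then lo (j / 2) else hi (j / 2)
  have w0 : ∀ i, w (2 * i) = lo i := fun i => by
    simp only [w, Nat.mul_mod_right, if_true, Nat.mul_div_cancel_left i two_pos]
  have w1 : ∀ i, w (2 * i + 1) = hi i := fun i => by
    simp only [w, show (2 * i + 1) % 2 ≠ 0 by omega, if_false, show (2 * i + 1) / 2 = i by omega]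
  have hw : Monotone w := monotone_nat_of_le_succ fun j => by
    obtain ⟨i, rfl | rfl⟩ := Nat.even_or_odd' j
    · rw [w0, w1]
      exact (hc i).2.1
    · rw [w1, show 2 * i + 1 + 1 = 2 * (i + 1) by ring, w0]
      exact (hc i).2.2.1
  have m1 : 1 ≤ S.card := card_pos.2 hne
  have h1 := hA α x y th be A E hL w (2 * S.card) hw (by omega)
  rw [KS.sum_two_mul] at h1
  have h2 : sz A E (w 0) (w (2 * S.card)) ≤ sz A E (τ 0) (τ K) := by
    rw [w0, show w 0 = lo 0 from w0 0]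
    exact sz_mono (hc 0).1 ((hc _).2.1.trans (hc _).2.2.2)
  have h3 : ((2 * S.card : ℕ) : ℝ) ^ g ≤ 2 * N ^ g := by
    push_cast
    rw [mul_rpow (by norm_num) (Nat.cast_nonneg _)]
    refine mul_le_mul ?_ (rpow_le_rpow (Nat.cast_nonneg _) hN g0) (by positivity) (by norm_num)
    simpa using rpow_le_rpow_of_exponent_le (show (1 : ℝ) ≤ 2 by norm_num) g1
  rw [hf (sz A E)]
  calc _ ≤ _ := sum_le_sum fun i _ => ?_
    _ ≤ _ := h1
    _ ≤ C * (2 * N ^ g) * sz A E (τ 0) (τ K) :=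
      mul_le_mul (mul_le_mul_of_nonneg_left h3 C0) h2 (sz_nonneg _ _ _ _)
        (mul_nonneg C0 (mul_nonneg (by norm_num) (rpow_nonneg N0 _)))
    _ = _ := by ring
  rw [w0, w1]
  exact le_add_of_nonneg_right (sz_nonneg _ _ _ _)

end Pool.Agent.P.MP_77a832_co.EL
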