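import Pool.Agent.P.MP_77a832_co.EL.NIface

/-! Step NFRM. -/

set_option autoImplicit false

namespace Pool.Agent.P.MP_77a832_co.EL

open Finset Real Pool.Agent.P.MP_bf60a1_an.RA
open scoped Classical
open N

theorem p_NFRM :
    S_NFRM := by
  intro α x y th be A E a b h hab
  refine ⟨⟨x, y, be, h.ab, fun _ _ _ _ e => e⟩,
    ⟨fun p => -(1 / (x p - a)), fun p => y p / (x p - a), th, fun t p hp => ?_,
      fun p hp q _ e => ?_⟩,
    ⟨fun p => 1 / (b - x p), fun p => y p / (b - x p), fun t => -th t, fun t p hp => ?_,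
      fun p _ q hq e => ?_⟩⟩
  · have h0 := (sub_pos.2 (hab p hp).1)
    rw [h.ab t p hp, lt_div_iff₀ h0, show (sL th be a t * -(1 / (x p - a)) + th t) * (x p - a) =
      th t * x p + be t by unfold sL; field_simp; ring]
  · exact neg_lt_neg (one_div_lt_one_div_of_lt (sub_pos.2 (hab p hp).1) (by linarith))
  · have h0 := (sub_pos.2 (hab p hp).2)
    rw [h.ab t p hp, lt_div_iff₀ h0, show (sR th be b t * (1 / (b - x p)) + -th t) * (b - x p) =
      th t * x p + be t by unfold sR; field_simp; ring]
  · exact one_div_lt_one_div_of_lt (sub_pos.2 (hab q hq).2) (by linarith)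

end Pool.Agent.P.MP_77a832_co.EL
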