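import Pool.Agent.P.MP_77a832_co.EL.NIface

/-! Step NFWU. -/

set_option autoImplicit false

namespace Pool.Agent.P.MP_77a832_co.EL

open Finset Real Pool.Agent.P.MP_bf60a1_an.RA N
open scoped Classical

namespace NFWUc

variable {α : Type}

theorem uas (A : ℕ → Finset α) (E : Finset α) (c : α → ℕ × ℕ × ℕ) (J : Finset (ℕ × ℕ × ℕ))
    (F : ℕ × ℕ × ℕ → Prop) (a b : ℕ) :
    ∑ j ∈ J, (if F j then ua A (cel E c j) a b else 0) ≤ ua A (E.filter fun p => F (c p)) a b := by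
  rw [← sum_filter]
  unfold ua
  rw [← Nat.cast_sum, Nat.cast_le, ← card_biUnion fun j _ k _ h => disjoint_left.2 fun p p1 p2 =>
    h ((mem_filter.1 (KS.mem_act.1 p1).1).2.symm.trans (mem_filter.1 (KS.mem_act.1 p2).1).2)]
  refine card_le_card fun p hp => ?_
  obtain ⟨j, hj, h⟩ := mem_biUnion.1 hp
  obtain ⟨h1, h2⟩ := KS.mem_act.1 h
  obtain ⟨h3, rfl⟩ := mem_filter.1 h1
  exact KS.mem_act.2 ⟨mem_filter.2 ⟨h3, (mem_filter.1 hj).2⟩, h2⟩

theorem tv (h : S_NMTV) {A : ℕ → Finset α} {E : Finset α} {a b : ℕ} {N : ND α} (hab : a ≤ b)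
    (h1 : Ro A E a b N.cx) (h2 : Ro A E a b N.ca) (h3 : Ro A E a b N.cb) (j : ℕ × ℕ × ℕ) :
    TV A (cel E N.cell j) a b ≤ 4 * sz A E a b := by
  refine (h α A E _ a b (fun p => N.cx p < j.1 + 1 ∧ N.ca p < j.2.1 + 1 ∧ N.cb p < j.2.2 + 1)
    (fun p => N.cx p < j.1 ∨ N.ca p < j.2.1 ∨ N.cb p < j.2.2) hab ?_ ?_).2 fun p => ?_
  iterate 2
    intro s t a1 a2 a3 p hp q hq b1 b2 b3 b4
    have e1 := h1 s t a1 a2 a3 p hp q hq b1 b2 b3 b4
    have e2 := h2 s t a1 a2 a3 p hp q hq b1 b2 b3 b4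
    have e3 := h3 s t a1 a2 a3 p hp q hq b1 b2 b3 b4
    simp only
    omega
  simp only [cel, mem_filter, ND.cell, Prod.ext_iff, and_congr_right_iff]
  intro _
  omega

end NFWUc

theorem p_NFWU (hNMTV : S_NMTV) :
    S_NFWU := by
  intro α A E τ K M N hτ h1 h2 h3
  have tot : ∑ i ∈ range K, ∑ j ∈ range M ×ˢ range M ×ˢ range M,
      TV A (cel E N.cell j) (τ i) (τ (i + 1)) ≤ 4 * (M : ℝ) ^ 3 * sz A E (τ 0) (τ K) := by
    rw [sum_comm]
    refine (sum_le_sum fun j _ => (TV_sum A _ hτ K).trans_le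
      (NFWUc.tv hNMTV (hτ K.zero_le) h1 h2 h3 j)).trans_eq ?_
    simp only [sum_const, card_product, card_range, nsmul_eq_mul]
    push_cast
    ring
  refine ⟨fun F => le_trans ?_ (add_le_add le_rfl tot), fun T hT => ?_⟩
  · unfold fw uw
    rw [← sum_add_distrib]
    refine sum_le_sum fun i _ => le_trans ?_ (add_le_add
      (NFWUc.uas A E N.cell (range M ×ˢ range M ×ˢ range M) (F i) _ _) le_rfl)
    rw [← sum_add_distrib]
    refine sum_le_sum fun j _ => ?_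
    split_ifs
    · exact (sz_eq _ _ _ _).le
    · rw [zero_add]
      exact TV_nonneg _ _ _ _
  · refine le_trans ?_ ((mul_le_mul_of_nonneg_left tot hT).trans_eq (by ring))
    unfold fw
    rw [mul_sum]
    refine sum_le_sum fun i _ => ?_
    rw [mul_sum]
    refine sum_le_sum fun j _ => ?_
    split_ifs with h
    · exact (not_le.1 h).le
    · exact mul_nonneg hT (TV_nonneg _ _ _ _)

end Pool.Agent.P.MP_77a832_co.EL
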