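import Pool.Agent.P.MP_77a832_co.EL.NIface

/-! Step NGEO. -/

set_option autoImplicit false

namespace Pool.Agent.P.MP_77a832_co.EL

open Finset Real Pool.Agent.P.MP_bf60a1_an.RA
open scoped Classical
open N

namespace NGEOc

theorem ro {α : Type} {x y f : α → ℝ} {th be : ℕ → ℝ} {A : ℕ → Finset α} {E : Finset α}
    {a b M : ℕ} {r : α → ℕ} (h : Lin x y th be A E) (hr : Sl f E M r)
    (hf : ∀ p q, x p < x q → th a * (x q - x p) < y q - y p → y q - y p < th b * (x q - x p) →
      f p < f q) : Ro A E a b r := fun s t h1 h2 h3 p hp q hq p1 p2 q1 q2 => by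
  obtain ⟨u, v, w⟩ := lin_slope h h2 hp hq p1 p2 q1 q2
  have u' := (sub_pos.2 u).le
  exact not_lt.1 fun e => (hr.ord q hq p hp e).not_gt (hf p q u
    ((mul_le_mul_of_nonneg_right (h.mono.monotone h1) u').trans_lt v)
    (w.trans_le (mul_le_mul_of_nonneg_right (h.mono.monotone h3) u')))

end NGEOc

open NGEOc

theorem p_NGEO :
    S_NGEO := by
  intro α x y th be A E a b M r r₁ r₂ h hr h₁ h₂
  refine ⟨ro h hr fun _ _ u _ _ => u, ro h h₁ fun _ _ _ u _ => by linarith,
    ro h h₂ fun _ _ _ _ u => by linarith, fun p hp q hq u v t t1 t2 ht => ?_,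
    fun hi ha p hp q hq u v => ?_⟩
  · have u' := h₁.ord p hp q hq u
    have v' := h₂.ord q hq p hp v
    have m1 := h.mono.monotone t1
    have m2 := h.mono.monotone t2
    rw [h.ab t p hp] at ht
    rw [h.ab t q hq]
    rcases le_total (x p) (x q) with e | e
    · nlinarith [mul_le_mul_of_nonneg_right m2 (sub_nonneg.2 e)]
    · nlinarith [mul_le_mul_of_nonneg_right m1 (sub_nonneg.2 e)]
  · have u' := h₁.ord p hp q hq u
    have v' := h₂.ord p hp q hq v
    obtain ⟨-, s, t, s1, s2, t1, t2, e1, e2⟩ := KS.mem_act.1 (ha.symm ▸ hp)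
    have hst : s ≠ t := fun e => e2 (e ▸ e1)
    have hab := h.mono (show a < b by omega)
    refine ⟨?_, by linarith, by linarith⟩
    rcases lt_trichotomy (x p) (x q) with e | e | e
    · exact e
    · rw [e] at u' v'
      exact absurd (hi p hp q hq e (by linarith) ▸ u) (lt_irrefl _)
    · nlinarith [mul_pos (sub_pos.2 hab) (sub_pos.2 e)]

end Pool.Agent.P.MP_77a832_co.EL
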