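import Pool.Agent.P.MP_77a832_co.EL.NIface

/-! Step NHALF. -/

set_option autoImplicit false

namespace Pool.Agent.P.MP_77a832_co.EL

open Finset Real Pool.Agent.P.MP_bf60a1_an.RA
open scoped Classical

namespace NHALFc

theorem step (S : Finset ℕ) {v v' : ℕ} (hv : v ∈ S) (h : v < v')
    (hn : ¬ ∃ u ∈ S, v < u ∧ u < v') :
    (S.filter (· < v')).card = (S.filter (· < v)).card + 1 := by
  have e : S.filter (· < v') = insert v (S.filter (· < v)) := by
    ext u
    simp only [mem_filter, mem_insert]
    constructor
    · rintro ⟨a, b⟩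
      rcases lt_trichotomy u v with c | c | c
      · exact Or.inr ⟨a, c⟩
      · exact Or.inl c
      · exact absurd ⟨u, a, c, b⟩ hn
    · rintro (rfl | ⟨a, b⟩)
      · exact ⟨hv, h⟩
      · exact ⟨a, b.trans h⟩
  rw [e, card_insert_of_notMem (by simp)]

end NHALFc

theorem p_NHALF :
    S_NHALF := by
  intro S
  refine ⟨S.filter fun v => (S.filter (· < v)).card % 2 = 0,
    S.filter fun v => ¬ (S.filter (· < v)).card % 2 = 0, filter_subset _ _, filter_subset _ _,
    (filter_union_filter_not_eq _ S).symm, fun v hv v' hv' h => ?_, fun v hv v' hv' h => ?_⟩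
  all_goals
    by_contra hn
    rw [mem_filter] at hv hv'
    have := NHALFc.step S hv.1 h hn
    have a := hv.2
    have b := hv'.2
    omega

end Pool.Agent.P.MP_77a832_co.EL
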