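import Pool.Agent.P.MP_77a832_co.EL.NIface

/-! Step NHIER. -/

set_option autoImplicit false

namespace Pool.Agent.P.MP_77a832_co.EL

open Finset Real Pool.Agent.P.MP_bf60a1_an.RA
open scoped Classical
open N

theorem p_NHIER :
    S_NHIER := by
  intro g C hA α x y th be A E τ q R F S hL hτ hR hF hS
  unfold uw
  rw [sum_blocks, mul_sum]
  refine sum_le_sum fun v hv => ?_
  have hv' := mem_range.1 hv
  have h := hA α x y th be A (F v) (lin_sub hL (hF v)) (fun k => τ (v * R + k)) R
    (mono_add hτ _) hR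
  rw [add_zero, ← Nat.succ_mul] at h
  refine le_trans (sum_le_sum fun k hk => ?_) h
  have hk' := mem_range.1 hk
  have e : (v * R + k) / R = v := by
    rw [add_comm, Nat.add_mul_div_right _ _ hR, Nat.div_eq_of_lt hk', zero_add]
  have l : v * R + k < q * R :=
    (Nat.add_lt_add_left hk' _).trans_le
      ((Nat.succ_mul v R).symm.trans_le (Nat.mul_le_mul_right R hv'))
  refine (ua_mono (fun p hp => ?_) le_rfl le_rfl).trans (ua_le_sz A (F v) _ _)
  exact e ▸ hS _ l p (mem_filter.1 hp).1 (mem_filter.1 hp).2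

end Pool.Agent.P.MP_77a832_co.EL
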