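import Pool.Agent.P.MP_77a832_co.EL.NIface

/-! Step NLACF. -/

set_option autoImplicit false

namespace Pool.Agent.P.MP_77a832_co.EL

open Finset Real Pool.Agent.P.MP_bf60a1_an.RA
open scoped Classical

open N

namespace NLACFc

theorem ex_max (f : ℕ → ℝ) {a b : ℕ} (h : a ≤ b) :
    ∃ m, a ≤ m ∧ m ≤ b ∧ ∀ t, a ≤ t → t ≤ b → f t ≤ f m := by
  obtain ⟨m, hm, h1⟩ := exists_max_image (Icc a b) f ⟨a, mem_Icc.2 ⟨le_rfl, h⟩⟩
  exact ⟨m, (mem_Icc.1 hm).1, (mem_Icc.1 hm).2, fun t h2 h3 => h1 t (mem_Icc.2 ⟨h2, h3⟩)⟩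

theorem ex_min (f : ℕ → ℝ) {a b : ℕ} (h : a ≤ b) :
    ∃ m, a ≤ m ∧ m ≤ b ∧ ∀ t, a ≤ t → t ≤ b → f m ≤ f t := by
  obtain ⟨m, hm, h1⟩ := exists_min_image (Icc a b) f ⟨a, mem_Icc.2 ⟨le_rfl, h⟩⟩
  exact ⟨m, (mem_Icc.1 hm).1, (mem_Icc.1 hm).2, fun t h2 h3 => h1 t (mem_Icc.2 ⟨h2, h3⟩)⟩

theorem blk {Z u v : ℕ} (hZ : 0 < Z) (h : v / Z = u) : u * Z ≤ v ∧ v < (u + 1) * Z := by
  subst h
  exact ⟨Nat.div_mul_le_self v Z, by
    rw [mul_comm]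
    exact Nat.lt_mul_div_succ v hZ⟩

end NLACFc

theorem p_NLACF (hNORD : S_NORD) (hNHALF : S_NHALF) (hNLAF : S_NLAF) :
    S_NLACF := by
  intro r C hr hC hLA α x y th be si A E τ Z u S hL hF hτ hu hS
  have hZ : 0 < Z := by omega
  have hb : ∀ v ∈ S, u * Z ≤ v ∧ v < (u + 1) * Z := fun v hv => NLACFc.blk hZ (hS v hv).1
  have hZZ : (u + 1) * Z ≤ Z * Z := Nat.mul_le_mul_right Z hu
  have ord : ∀ w p q, rich A E τ (3 * TV A E (τ 0) (τ (Z * Z))) w → τ 0 ≤ p → p ≤ τ w →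
      τ (w + 1) ≤ q → q ≤ τ (Z * Z) → si p < si q := by
    rintro w p q ⟨s, t, h1, h2, h3, h4, h5⟩ a1 a2 a3 a4
    exact hNORD α x y th be si A E (τ 0) (τ (Z * Z)) p q s t hL hF a1 (a2.trans h1) (a2.trans h3)
      (h2.trans a3) (h4.trans a3) a4 h5
  obtain ⟨m₀, m1, m2, m3⟩ := NLACFc.ex_max si (hτ (Nat.zero_le (u * Z)))
  choose mx x1 x2 x3 using fun v => NLACFc.ex_max si (hτ (Nat.le_succ v))
  choose mn n1 n2 n3 using fun v => NLACFc.ex_min si (hτ (Nat.le_succ v))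
  have hcard : (S.card : ℝ) ≤ Z := by
    have h1 : S ⊆ Ico (u * Z) ((u + 1) * Z) := fun v hv => mem_Ico.2 (hb v hv)
    have h2 := card_le_card h1
    rw [Nat.card_Ico, Nat.succ_mul, Nat.add_sub_cancel_left] at h2
    exact_mod_cast h2
  have htop : ∀ v ∈ S, τ (v + 1) ≤ τ (Z * Z) := fun v hv => hτ ((hb v hv).2.trans_le hZZ)
  have hwin : ∀ v ∈ S, 0 < si (mn v) - si m₀ ∧ 2 * (si (mn v) - si m₀) ≤ si (mx v) - si m₀ ∧
      ∀ t, τ v ≤ t → t ≤ τ (v + 1) →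
        si (mn v) - si m₀ ≤ si t - si m₀ ∧ si t - si m₀ ≤ si (mx v) - si m₀ := by
    intro v hv
    obtain ⟨e, ⟨⟨w, w1, w2, w3⟩, -⟩, -, hn⟩ := hS v hv
    refine ⟨?_, ?_, fun t t1 t2 => ⟨by linarith [n3 v t t1 t2], by linarith [x3 v t t1 t2]⟩⟩
    · have h1 : u * Z ≤ w := (NLACFc.blk hZ (w2.trans e)).1
      have := ord w m₀ (mn v) w3 m1 (m2.trans (hτ h1)) ((hτ w1).trans (n1 v))
        ((n2 v).trans (htop v hv))
      linarith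
    · unfold nlf at hn
      push Not at hn
      obtain ⟨t, t', u', t1, t2, t3, t4, t5, t6, t7⟩ := hn
      rw [e] at t6
      have a1 := m3 u' t5 t6
      have a2 := x3 v t t1 t2
      have a3 := n3 v t' t3 t4
      linarith
  have half : ∀ S' ⊆ S, (∀ v ∈ S', ∀ v' ∈ S', v < v' → ∃ w ∈ S, v < w ∧ w < v') →
      ∑ v ∈ S', ua A E (τ v) (τ (v + 1)) ≤
        C * (Z : ℝ) ^ r * sz A E (τ (u * Z)) (τ ((u + 1) * Z)) := by
    intro S' h1 h2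
    refine hNLAF r C hr hC hLA α x y th be (fun t => si t - si m₀) A E τ (u * Z) ((u + 1) * Z) S'
      (fun v => si (mn v) - si m₀) (fun v => si (mx v) - si m₀) Z hL (hF.shift _) hτ
      (fun v hv => hb v (h1 hv)) ((Nat.cast_le.2 (card_le_card h1)).trans hcard)
      (fun v hv => hwin v (h1 hv)) fun v hv v' hv' hlt => ?_
    obtain ⟨w, w1, w2, w3⟩ := h2 v hv v' hv' hlt
    have := ord w (mx v) (mn v') (hS w w1).2.2.1 ((hτ (Nat.zero_le v)).trans (x1 v))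
      ((x2 v).trans (hτ w2)) ((hτ w3).trans (n1 v')) ((n2 v').trans (htop v' (h1 hv')))
    linarith
  obtain ⟨S₁, S₂, s1, s2, s3, s4, s5⟩ := hNHALF S
  have h1 := half S₁ s1 s4
  have h2 := half S₂ s2 s5
  have h3 := sum_union_inter (s₁ := S₁) (s₂ := S₂) (f := fun v => ua A E (τ v) (τ (v + 1)))
  have h4 : 0 ≤ ∑ v ∈ S₁ ∩ S₂, ua A E (τ v) (τ (v + 1)) := sum_nonneg fun _ _ => ua_nonneg _ _ _ _
  rw [← s3] at h3
  linarith

end Pool.Agent.P.MP_77a832_co.EL
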