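import Pool.Agent.P.MP_77a832_co.EL.NIface

/-! Step NLAF. -/

set_option autoImplicit false

namespace Pool.Agent.P.MP_77a832_co.EL

open Finset Real Pool.Agent.P.MP_bf60a1_an.RA
open scoped Classical
open N

namespace NLAFc

theorem enum (S : Finset ℕ) {m : ℕ} (hm : S.card = m) : ∃ e : ℕ → ℕ, (∀ i < m, e i ∈ S) ∧
    (∀ i, i + 1 < m → e i < e (i + 1)) ∧ ∀ f : ℕ → ℝ, ∑ v ∈ S, f v = ∑ i ∈ range m, f (e i) := by
  let e := S.orderEmbOfFin hm
  have he : ∀ i, e i ∈ S := fun i => orderEmbOfFin_mem _ _ _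
  refine ⟨fun i => if h : i < m then e ⟨i, h⟩ else 0, fun i hi => ?_, fun i hi => ?_, fun f => ?_⟩
  · simp only [dif_pos hi]; exact he _
  · have h1 : i < m := by omega
    simp only [dif_pos hi, dif_pos h1]
    exact e.strictMono (show (⟨i, h1⟩ : Fin m) < ⟨i + 1, hi⟩ from Nat.lt_succ_self i)
  · rw [sum_range]
    symm
    refine sum_bij (fun i _ => e i) (fun i _ => he i) (fun i _ j _ h => e.injective h) ?_ ?_
    · intro j hj
      have : j ∈ Set.range e := by rw [range_orderEmbOfFin]; exact hj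
      obtain ⟨i, hi⟩ := this
      exact ⟨i, mem_univ _, hi⟩
    · intro i _
      simp only [dif_pos i.2]

end NLAFc

theorem p_NLAF :
    S_NLAF := by
  intro r C hr hC hLA α x y th be si A E τ n n' S l h N hL hF hτ hS hN h1 h2
  obtain ⟨m, hm⟩ : ∃ m, S.card = m := ⟨_, rfl⟩
  obtain ⟨e, e1, e2, e3⟩ := NLAFc.enum S hm
  rw [hm] at hN
  have hN0 : 0 ≤ N := (Nat.cast_nonneg m).trans hN
  rw [e3]
  rcases m with _ | k
  · rw [sum_range_zero]
    exact mul_nonneg (mul_nonneg hC (rpow_nonneg hN0 r)) (EL.N.sz_nonneg _ _ _ _)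
  obtain ⟨X, Y, io, f1, f2⟩ := hF
  have k0 : 0 < k + 1 := Nat.succ_pos k
  have k1 : k < k + 1 := Nat.lt_succ_self k
  have nx : ∀ i < k + 1, h (e i) ≤
      (if i + 1 < k + 1 then l (e (i + 1)) else 2 ^ (i + 1 - (k + 1)) * h (e k)) := by
    intro i hi
    split_ifs with c
    · exact h2 _ (e1 i hi) _ (e1 _ c) (e2 i c)
    · obtain rfl : i = k := by omega
      simp
  have key := hLA α x y th be A E hL X Y si io f1 f2
    (fun i => if i < k + 1 then τ (e i) else τ n')
    (fun i => if i < k + 1 then τ (e i + 1) else τ n')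
    (fun i => if i < k + 1 then l (e i) else 2 ^ (i - (k + 1)) * h (e k)) (k + 1)
    (fun i => by
      by_cases c : i < k + 1
      · simp only [if_pos c]
        refine ⟨hτ (Nat.le_succ _), ?_⟩
        split_ifs with c'
        · exact hτ (e2 i c')
        · exact hτ (hS _ (e1 i c)).2
      · simp only [if_neg c, if_neg (show ¬ i + 1 < k + 1 by omega)]
        exact ⟨le_rfl, le_rfl⟩)
    (by simp only [if_pos k0]; exact (h1 _ (e1 0 k0)).1)
    (fun i => by
      by_cases c : i < k + 1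
      · simp only [if_pos c]
        exact (h1 _ (e1 i c)).2.1.trans (nx i c)
      · simp only [if_neg c, if_neg (show ¬ i + 1 < k + 1 by omega)]
        rw [show i + 1 - (k + 1) = i - (k + 1) + 1 by omega, pow_succ]
        exact le_of_eq (by ring))
    k0 (.inl fun i c t t1 t2 => by
      simp only [if_pos c] at t1 t2 ⊢
      obtain ⟨u1, u2⟩ := (h1 _ (e1 i c)).2.2 t t1 t2
      exact ⟨u1, u2.trans (nx i c)⟩)
  simp only [if_pos k0, Nat.add_sub_cancel, if_pos k1] at key
  refine le_trans (le_of_eq (sum_congr rfl fun i hi => ?_)) (key.trans ?_)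
  · simp only [if_pos (mem_range.1 hi), ua]
  · exact mul_le_mul (mul_le_mul_of_nonneg_left (rpow_le_rpow (Nat.cast_nonneg _) hN hr) hC)
      (EL.N.sz_mono (hτ (hS _ (e1 0 k0)).1) (hτ (hS _ (e1 k k1)).2)) (EL.N.sz_nonneg _ _ _ _)
      (mul_nonneg hC (rpow_nonneg hN0 r))

end Pool.Agent.P.MP_77a832_co.EL
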