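import Pool.Agent.P.MP_77a832_co.EL.NIface

/-! Step NLMI. -/

set_option autoImplicit false

namespace Pool.Agent.P.MP_77a832_co.EL

open Finset Real Pool.Agent.P.MP_bf60a1_an.RA
open scoped Classical

open N

namespace NLMIc

theorem enum (S : Finset ℕ) : ∃ e : ℕ → ℕ, (∀ i < S.card, e i ∈ S) ∧
    (∀ i j, i < j → j < S.card → e i < e j) ∧
    ∀ f : ℕ → ℝ, ∑ v ∈ S, f v = ∑ i ∈ range S.card, f (e i) := by
  let e := S.orderEmbOfFin rfl
  have he : ∀ i, e i ∈ S := fun i => orderEmbOfFin_mem _ _ _
  refine ⟨fun i => if h : i < S.card then e ⟨i, h⟩ else 0, fun i hi => ?_, fun i j h1 h2 => ?_,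
    fun f => ?_⟩
  · simpa only [dif_pos hi] using he _
  · simp only [dif_pos h2, dif_pos (h1.trans h2)]
    exact e.strictMono h1
  · rw [sum_range]
    symm
    refine sum_bij (fun i _ => e i) (fun i _ => he i) (fun i _ j _ h => e.injective h) ?_ ?_
    · intro j hj
      have : j ∈ Set.range e := by rw [range_orderEmbOfFin]; exact hj
      obtain ⟨i, hi⟩ := this
      exact ⟨i, mem_univ _, hi⟩
    · intro i _
      simp only [dif_pos i.2]

end NLMIc

theorem p_NLMI :
    S_NLMI := by
  intro r C hr hC hLA α x y th be si A E τ n n' S l h N hL hF hτ hS hN hl hh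
  have hN0 : 0 ≤ N := (Nat.cast_nonneg _).trans hN
  obtain ⟨e, e1, e2, e3⟩ := NLMIc.enum S
  obtain ⟨X, Y, io, f1, f2⟩ := hF
  rw [e3]
  generalize S.card = m at *
  rcases m.eq_zero_or_pos with rfl | hm
  · rw [sum_range_zero]
    exact mul_nonneg (mul_nonneg hC (rpow_nonneg hN0 _)) (sz_nonneg _ _ _ _)
  have h0 := hl _ (e1 0 hm)
  have key := hLA α x y th be A E hL X Y si io f1 f2
    (fun i => if i < m then τ (e i) else τ n') (fun i => if i < m then τ (e i + 1) else τ n')
    (fun k => if k < m then l (e (m - 1 - k)) else 2 ^ (k - m) * h (e 0)) m (fun i => ?_) ?_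
    (fun k => ?_) hm (Or.inr fun i hi t h1 h2 => ?_)
  · simp only [if_pos hm, if_pos (show m - 1 < m by omega)] at key
    refine le_trans (le_of_eq (sum_congr rfl fun i hi => ?_)) (key.trans ?_)
    · simp only [if_pos (mem_range.1 hi), ua]
    · exact mul_le_mul (mul_le_mul_of_nonneg_left (rpow_le_rpow (Nat.cast_nonneg _) hN hr) hC)
        (sz_mono (hτ (hS _ (e1 0 hm)).1) (hτ (hS _ (e1 _ (by omega))).2)) (sz_nonneg _ _ _ _)
        (mul_nonneg hC (rpow_nonneg hN0 _))
  · by_cases h1 : i < m
    · simp only [if_pos h1]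
      refine ⟨hτ (Nat.le_succ _), ?_⟩
      split_ifs with h2
      · exact hτ (e2 i _ (Nat.lt_succ_self i) h2)
      · exact hτ (hS _ (e1 i h1)).2
    · simp only [if_neg h1, if_neg (show ¬ i + 1 < m by omega), le_refl, and_self]
  · simp only [if_pos hm]
    exact (hl _ (e1 _ (by omega))).1
  · by_cases h1 : k + 1 < m
    · simp only [if_pos h1, if_pos (show k < m by omega)]
      exact (hl _ (e1 _ (by omega))).2.1.trans
        (hh _ (e1 _ (by omega)) _ (e1 _ (by omega)) (e2 _ _ (by omega) (by omega)))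
    by_cases h2 : k < m
    · simp only [if_neg h1, if_pos h2, show m - 1 - k = 0 by omega, show k + 1 - m = 0 by omega]
      linarith [h0.2.1]
    · simp only [if_neg h1, if_neg h2, show k + 1 - m = k - m + 1 by omega]
      exact le_of_eq (by ring)
  · simp only [if_pos hi] at h1 h2
    have h3 := (hl _ (e1 i hi)).2.2 t h1 h2
    simp only [if_pos (show m - 1 - i < m by omega), show m - 1 - (m - 1 - i) = i by omega]
    refine ⟨h3.1, h3.2.trans ?_⟩
    rcases i with _ | i
    · simp
    · simp only [if_pos (show m - (i + 1) < m by omega), show m - 1 - (m - (i + 1)) = i by omega]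
      exact hh _ (e1 i (by omega)) _ (e1 _ hi) (e2 _ _ (Nat.lt_succ_self i) hi)

end Pool.Agent.P.MP_77a832_co.EL
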