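import Pool.Agent.P.MP_77a832_co.EL.NIface

/-! Step NLOCA. -/

set_option autoImplicit false

namespace Pool.Agent.P.MP_77a832_co.EL

open Finset Real Pool.Agent.P.MP_bf60a1_an.RA
open scoped Classical
open N

namespace NLOCAc

variable {α : Type} {A : ℕ → Finset α} {E L G : Finset α} {a b : ℕ} {D : ℝ}

theorem one {Φ : α → Prop} (h : Mo A E a b Φ) (hL : ∀ p, p ∈ L ↔ p ∈ E ∧ Φ p)
    (hG : ∀ p, p ∈ G ↔ p ∈ E ∧ ¬ Φ p) (hD : TV A E a b + TV A L a b ≤ D) {s t : ℕ}
    (h1 : a ≤ s) (h2 : s ≤ b) (h3 : a ≤ t) (h4 : t ≤ b) : df A L s t ≤ D ∨ df A G s t ≤ D := by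
  wlog hst : s ≤ t generalizing s t
  · rw [df_comm A L, df_comm A G]
    exact this h3 h4 h1 h2 (le_of_not_ge hst)
  by_cases hq : ∀ q ∈ L, q ∈ A s → q ∈ A t
  · have := df_nest_le h1 h2 h3 h4 (Or.inl hq)
    have := TV_nonneg A E a b
    exact Or.inl (by linarith)
  · push Not at hq
    obtain ⟨q, q1, q2, q3⟩ := hq
    have e1 : E.filter Φ = L := ext fun p => by rw [mem_filter, hL]
    have e2 : (E.filter fun p => ¬ Φ p) = G := ext fun p => by rw [mem_filter, hG]
    have c1 := card_split E (A s) Φ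
    have c2 := card_split E (A t) Φ
    rw [e1, e2] at c1 c2
    have n1 := abs_le.1 (net_le A E h1 h2 h3 h4)
    have n2 := abs_le.1 (net_le A L h1 h2 h3 h4)
    right
    rw [df_comm, df_nest fun p hp pt => by_contra fun ps => ((hG p).1 hp).2
      (h s t h1 hst h4 p ((hG p).1 hp).1 q ((hL q).1 q1).1 pt ps q2 q3 ((hL q).1 q1).2)]
    linarith [n1.1, n2.2]

theorem two (hD : 0 ≤ D) (h : ∀ s t, a ≤ s → s ≤ b → a ≤ t → t ≤ b →
    df A L s t ≤ D ∨ df A G s t ≤ D)
    (hn : ¬ ∀ s t, a ≤ s → s ≤ b → a ≤ t → t ≤ b → df A L s t ≤ 3 * D) :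
    ∀ s t, a ≤ s → s ≤ b → a ≤ t → t ≤ b → df A G s t ≤ 3 * D := by
  push Not at hn
  obtain ⟨u, v, u1, u2, v1, v2, huv⟩ := hn
  have k0 : df A G u v ≤ D := (h u v u1 u2 v1 v2).resolve_left (by linarith)
  have k1 : ∀ s, a ≤ s → s ≤ b → df A G s u ≤ D ∨ df A G s v ≤ D := fun s s1 s2 => by
    rcases h s u s1 s2 u1 u2 with e | e
    · rcases h s v s1 s2 v1 v2 with e' | e'
      · have := df_tri A L u s v
        rw [df_comm A L u s] at this
        linarith
      · exact Or.inr e'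
    · exact Or.inl e
  intro s t s1 s2 t1 t2
  have t3 := df_tri A G s u t
  have t4 := df_tri A G s v t
  have t5 := df_tri A G u v t
  have t6 := df_tri A G v u t
  rw [df_comm A G u t] at t3 t5 t6
  rw [df_comm A G v t] at t4 t5 t6
  rw [df_comm A G v u] at t6
  rcases k1 s s1 s2 with e | e <;> rcases k1 t t1 t2 with e' | e' <;> linarith

end NLOCAc

open NLOCAc in
theorem p_NLOCA :
    S_NLOCA := by
  intro α A E a b M r D hr hM hT
  have hD : 0 ≤ D := (add_nonneg (TV_nonneg _ _ _ _) (TV_nonneg _ _ _ _)).trans (hT 0 M.zero_le)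
  have z : ∀ (F : Finset α) s t, (∀ p, p ∉ F) → df A F s t ≤ 3 * D := fun F s t hF => by
    rw [eq_empty_of_forall_notMem hF, df, filter_empty, card_empty, Nat.cast_zero]
    linarith
  let P : ℕ → Prop := fun j => ∀ s t, a ≤ s → s ≤ b → a ≤ t → t ≤ b →
    df A (E.filter fun p => r p < j) s t ≤ 3 * D
  have P0 : P 0 := fun s t _ _ _ _ => z _ s t fun p hp => absurd (mem_filter.1 hp).2 (by omega)
  have hj : P (Nat.findGreatest P M) := Nat.findGreatest_spec M.zero_le P0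
  refine ⟨Nat.findGreatest P M, fun s t s1 s2 t1 t2 => ⟨hj s t s1 s2 t1 t2, ?_⟩⟩
  rcases (Nat.findGreatest_le (P := P) M).eq_or_lt with e | e
  · exact z _ s t fun p hp => by
      have h1 := (mem_filter.1 hp).2
      have h2 := hM p (mem_filter.1 hp).1
      omega
  · refine two hD (fun s t s1 s2 t1 t2 => one (hr.mo (Nat.findGreatest P M + 1))
      (fun p => mem_filter) (fun p => ?_) (hT _ e) s1 s2 t1 t2)
      (Nat.findGreatest_is_greatest (P := P) (Nat.lt_succ_self _) e) s t s1 s2 t1 t2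
    rw [mem_filter, not_lt, Nat.succ_le_iff]

end Pool.Agent.P.MP_77a832_co.EL
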