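import Pool.Agent.P.MP_77a832_co.EL.NIface

/-! Step NLONG. -/

set_option autoImplicit false

namespace Pool.Agent.P.MP_77a832_co.EL

open Finset Real Pool.Agent.P.MP_bf60a1_an.RA
open scoped Classical

open N

theorem p_NLONG (hNFEW : S_NFEW) :
    S_NLONG := by
  intro g C h0 h1 hC hA α x y th be A E τ K M hL hτ hM
  have d : ∀ i j, i ≤ j → 0 ≤ th (τ j) - th (τ i) := fun i j h =>
    sub_nonneg.2 (hL.mono.monotone (hτ h))
  refine le_trans ?_ (hNFEW g C h0 h1 hC hA α x y th be A E τ K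
    ((range K).filter fun i => ¬ th (τ (i + 1)) - th (τ i) ≤ M⁻¹ * (th (τ K) - th (τ 0))) M hL hτ
    (filter_subset _ _) ?_)
  · rw [sum_filter]
    refine sum_le_sum fun i _ => ?_
    split_ifs with e
    · refine le_trans (ua_mono (E := ∅) (fun p hp => ?_) le_rfl le_rfl) (ua_empty _ _ _).le
      simp [e] at hp
    · refine le_trans (ua_mono (fun p hp => ?_) le_rfl le_rfl) (ua_le_sz _ _ _ _)
      simp only [mem_filter] at hp
      exact hp.1
  · generalize hS : ((range K).filter fun i =>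
      ¬ th (τ (i + 1)) - th (τ i) ≤ M⁻¹ * (th (τ K) - th (τ 0))) = S
    rcases S.eq_empty_or_nonempty with rfl | hn
    · simpa using hM.le
    have a : ∑ _i ∈ S, M⁻¹ * (th (τ K) - th (τ 0)) < ∑ i ∈ S, (th (τ (i + 1)) - th (τ i)) :=
      sum_lt_sum_of_nonempty hn fun i hi => by
        rw [← hS, mem_filter] at hi; exact not_le.1 hi.2
    have b : ∑ i ∈ S, (th (τ (i + 1)) - th (τ i)) ≤ th (τ K) - th (τ 0) := by
      rw [← sum_range_sub fun i => th (τ i)]
      exact sum_le_sum_of_subset_of_nonneg (hS ▸ filter_subset _ _) fun i _ _ => d _ _ i.le_succ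
    rw [sum_const, nsmul_eq_mul, ← mul_assoc] at a
    have c := lt_of_mul_lt_mul_right (a.trans_le (b.trans (one_mul _).ge)) (d _ _ K.zero_le)
    exact ((mul_inv_lt_iff₀ hM).1 c).le.trans (one_mul M).le

end Pool.Agent.P.MP_77a832_co.EL
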