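import Pool.Agent.P.MP_77a832_co.EL.NIface

/-! Step NMTV. -/

set_option autoImplicit false

namespace Pool.Agent.P.MP_77a832_co.EL

open Finset Real Pool.Agent.P.MP_bf60a1_an.RA
open scoped Classical
open N

namespace NMTVc

variable {α : Type} {A : ℕ → Finset α} {E : Finset α} {a b : ℕ} {Φ : α → Prop}

theorem step (h : Mo A E a b Φ) {t : ℕ} (h1 : a ≤ t) (h2 : t < b) :
    |((E.filter Φ ∩ A (t + 1)).card : ℝ) - (E.filter Φ ∩ A t).card| ≤
      (((E.filter Φ ∩ A (t + 1)).card : ℝ) - (E.filter Φ ∩ A t).card) +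
        2 * |((E ∩ A (t + 1)).card : ℝ) - (E ∩ A t).card| := by
  have h0 := abs_nonneg (((E ∩ A (t + 1)).card : ℝ) - (E ∩ A t).card)
  by_cases c : ∃ q ∈ E, Φ q ∧ q ∈ A t ∧ q ∉ A (t + 1)
  · obtain ⟨q, hq, e, q1, q2⟩ := c
    have h3 : (((E.filter fun p => ¬ Φ p) ∩ A (t + 1)).card : ℝ) ≤
        ((E.filter fun p => ¬ Φ p) ∩ A t).card := by
      refine Nat.cast_le.2 (card_le_card fun p hp => ?_)
      simp only [mem_inter, mem_filter] at hp ⊢
      exact ⟨hp.1, by_contra fun k =>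
        hp.1.2 (h t (t + 1) h1 t.le_succ h2 p hp.1.1 q hq hp.2 k q1 q2 e)⟩
    have h4 := card_split E (A (t + 1)) Φ
    have h5 := card_split E (A t) Φ
    have h6 := neg_abs_le (((E ∩ A (t + 1)).card : ℝ) - (E ∩ A t).card)
    rw [abs_le]
    constructor <;> linarith
  · have h3 : ((E.filter Φ ∩ A t).card : ℝ) ≤ (E.filter Φ ∩ A (t + 1)).card := by
      refine Nat.cast_le.2 (card_le_card fun p hp => ?_)
      simp only [mem_inter, mem_filter] at hp ⊢
      exact ⟨hp.1, by_contra fun k => c ⟨p, hp.1.1, hp.1.2, hp.2, k⟩⟩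
    rw [abs_of_nonneg (sub_nonneg.2 h3)]
    linarith

theorem one (hab : a ≤ b) (h : Mo A E a b Φ) : TV A (E.filter Φ) a b ≤ 2 * sz A E a b := by
  have h1 : TV A (E.filter Φ) a b ≤ (((E.filter Φ ∩ A b).card : ℝ) - (E.filter Φ ∩ A a).card) +
      2 * TV A E a b := by
    rw [← sum_Ico_sub (fun u => ((E.filter Φ ∩ A u).card : ℝ)) hab, TV, TV, mul_sum,
      ← sum_add_distrib]
    exact sum_le_sum fun t ht => step h (mem_Ico.1 ht).1 (mem_Ico.1 ht).2
  have h2 : ((E.filter Φ ∩ A b).card : ℝ) ≤ (E.filter Φ ∩ A a).card + ua A E a b := by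
    rw [ua, ← Nat.cast_add, Nat.cast_le]
    refine le_trans (card_le_card fun p hp => ?_) (card_union_le _ _)
    simp only [mem_union, mem_inter, mem_filter, KS.mem_act] at hp ⊢
    exact (em (p ∈ A a)).imp (fun k => ⟨hp.1, k⟩)
      fun k => ⟨hp.1.1, b, a, hab, le_rfl, le_rfl, hab, hp.2, k⟩
  have h3 := ua_nonneg A E a b
  rw [sz_eq]
  linarith

end NMTVc

theorem p_NMTV :
    S_NMTV := by
  intro α A E F a b Φ Ψ hab h1 h2
  refine ⟨fun hF => ?_, fun hF => ?_⟩
  · obtain rfl : F = E.filter Φ := by ext p; rw [hF, mem_filter]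
    exact NMTVc.one hab h1
  · have h3 : Mo A E a b fun p => Φ p ∧ Ψ p := fun s t a1 a2 a3 p hp q hq b1 b2 b3 b4 e =>
      ⟨h1 s t a1 a2 a3 p hp q hq b1 b2 b3 b4 e.1, h2 s t a1 a2 a3 p hp q hq b1 b2 b3 b4 e.2⟩
    have e : ∀ B : Finset α, ((F ∩ B).card : ℝ) =
        (E.filter Φ ∩ B).card - ((E.filter fun p => Φ p ∧ Ψ p) ∩ B).card := fun B => by
      have e1 : F = (E.filter Φ).filter fun p => ¬ Ψ p := by
        ext p; simp only [hF, mem_filter, and_assoc]
      rw [card_split (E.filter Φ) B Ψ, filter_filter, e1]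
      ring
    have h4 := NMTVc.one hab h1
    have h5 := NMTVc.one hab h3
    have h6 : TV A F a b ≤ TV A (E.filter Φ) a b + TV A (E.filter fun p => Φ p ∧ Ψ p) a b := by
      rw [TV, TV, TV, ← sum_add_distrib]
      refine sum_le_sum fun t _ => ?_
      rw [e, e, sub_sub_sub_comm]
      exact abs_sub _ _
    have h7 : TV A (E.filter fun p => Φ p ∧ Ψ p) a b ≤ 2 * sz A E a b := by convert h5
    linarith

end Pool.Agent.P.MP_77a832_co.EL
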