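import Pool.Agent.P.MP_77a832_co.EL.NIface

/-! Step NORD. -/

set_option autoImplicit false

namespace Pool.Agent.P.MP_77a832_co.EL

open Finset Real Pool.Agent.P.MP_bf60a1_an.RA
open scoped Classical
open N

namespace NORDc

theorem nest {α : Type} {x y : α → ℝ} {th be si : ℕ → ℝ} {A : ℕ → Finset α} {E : Finset α}
    (hL : Lin x y th be A E) (hF : Frm x A E si) {a b u v : ℕ} (h1 : a ≤ u) (h2 : u ≤ v)
    (h3 : v ≤ b) (h : si v ≤ si u) : df A E u v ≤ TV A E a b := by
  refine df_nest_le h1 (h2.trans h3) (h1.trans h2) h3 ?_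
  by_contra hc
  push Not at hc
  obtain ⟨⟨q, hq, q1, q2⟩, p, hp, p1, p2⟩ := hc
  obtain ⟨X, Y, io, e1, e2⟩ := hF
  have a0 := e2 p hp q hq (lin_slope hL h2 hp hq p1 p2 q1 q2).1
  have a1 := (e1 v p hp).1 p1
  have a2 := not_lt.1 (mt (e1 u p hp).2 p2)
  have a3 := (e1 u q hq).1 q1
  have a4 := not_lt.1 (mt (e1 v q hq).2 q2)
  nlinarith [mul_nonneg (sub_nonneg.2 h) (sub_nonneg.2 a0.le)]

end NORDc

open NORDc in
theorem p_NORD :
    S_NORD := by
  intro α x y th be si A E a b u v s t hL hF hau hus hut hsv htv hvb hd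
  by_contra hc
  have h := not_lt.1 hc
  have h0 := TV_nonneg A E a b
  have huv := nest hL hF hau (hus.trans hsv) hvb h
  have key : ∀ w, u ≤ w → w ≤ v → df A E u w ≤ TV A E a b ∨ df A E w v ≤ TV A E a b :=
    fun w h1 h2 => (le_total (si w) (si u)).imp (nest hL hF hau h1 (h2.trans hvb))
      fun e => nest hL hF (hau.trans h1) h2 hvb (h.trans e)
  have t1 := df_tri A E s u t
  have t2 := df_tri A E s v t
  have t3 := df_tri A E u v t
  have t4 := df_tri A E v u t
  have c1 := df_comm A E s u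
  have c2 := df_comm A E v t
  have c3 := df_comm A E v u
  rcases key s hus hsv with a1 | a1 <;> rcases key t hut htv with a2 | a2 <;> linarith

end Pool.Agent.P.MP_77a832_co.EL
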