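import Pool.Agent.P.MP_77a832_co.EL.NIface

/-! Step NPHS. -/

set_option autoImplicit false

namespace Pool.Agent.P.MP_77a832_co.EL

open Finset Real Pool.Agent.P.MP_bf60a1_an.RA
open scoped Classical
open N

namespace NPHSc

end NPHSc

theorem p_NPHS (hNHIER : S_NHIER) :
    S_NPHS := by
  intro g C hC hA α x y th be A E F τ M R T u S hL hτ hR hF hS hT hu
  have h := hNHIER g C hA α x y th be A E τ M R (fun _ => F) S hL hτ hR (fun _ => hF)
    (fun i _ p hp hs => hS i p hp hs)
  refine h.trans (mul_le_mul_of_nonneg_left ?_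
    (mul_nonneg hC (Real.rpow_nonneg (Nat.cast_nonneg R) g)))
  have h1 := TV_sum A F (mono_mul hτ R) M
  simp only [zero_mul] at h1
  have h2 : ∑ v ∈ range M, sz A F (τ (v * R)) (τ ((v + 1) * R)) ≤
      ∑ v ∈ range M, (2 * TV A F (τ (v * R)) (τ ((v + 1) * R)) + u) := by
    refine sum_le_sum fun v hv => ?_
    have hv' : v + 1 ≤ M := mem_range.1 hv
    have h3 := hu (τ (v * R)) (τ ((v + 1) * R)) (hτ (Nat.zero_le _))
      (hτ (Nat.mul_le_mul_right R (Nat.le_succ v))) (hτ (Nat.mul_le_mul_right R hv'))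
    rw [sz_eq]
    linarith
  rw [sum_add_distrib, ← mul_sum, h1, sum_const, card_range, nsmul_eq_mul] at h2
  linarith

end Pool.Agent.P.MP_77a832_co.EL
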