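import Pool.Agent.P.MP_77a832_co.EL.NIface

/-! Step NPOOR. -/

set_option autoImplicit false

namespace Pool.Agent.P.MP_77a832_co.EL

open Finset Real Pool.Agent.P.MP_bf60a1_an.RA
open N
open scoped Classical

namespace NPOORc

end NPOORc

theorem p_NPOOR (hNHIER : S_NHIER) (hNTREE : S_NTREE) :
    S_NPOOR := by
  intro g C hg hC hA α x y th be A E τ Z q hL hτ hZ hq hT
  have eK : Z * Z * Z * q = Z * Z * (Z * q) := mul_assoc _ _ _
  set T := TV A E (τ 0) (τ (Z * Z * (Z * q))) with hT'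
  set s := sz A E (τ 0) (τ (Z * Z * (Z * q))) with hs
  have T0 : 0 ≤ T := TV_nonneg _ _ _ _
  have Ts : T ≤ s := TV_le_sz _ _ _ _
  let F : ℕ → Finset α := fun u =>
    if rich A E (fun v => τ (v * (Z * q))) (3 * T) (u / Z) then ∅ else E
  have h1 := hNHIER g C hA α x y th be A E τ (Z * Z * Z) q F
    (fun i _ => ¬ rich A E (fun v => τ (v * (Z * q))) (3 * T) (i / (Z * q))) hL hτ hq
    (fun v => by
      simp only [F]
      split_ifs
      · exact empty_subset _
      · exact Subset.rfl)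
    (fun i _ p hp h => by
      simp only [F]
      rwa [Nat.div_div_eq_div_mul, mul_comm q Z, if_neg h])
  rw [eK] at h1
  have h2 : ∑ u ∈ range (Z * Z * Z), sz A (F u) (τ (u * q)) (τ ((u + 1) * q)) ≤
      T + ∑ u ∈ range (Z * Z * Z), ua A (F u) (τ (u * q)) (τ ((u + 1) * q)) := by
    have e := TV_sum A E (mono_mul hτ q) (Z * Z * Z)
    simp only [zero_mul, eK] at e
    rw [hT', ← e, ← sum_add_distrib]
    refine sum_le_sum fun u _ => ?_
    simp only [F]
    split_ifs
    · rw [sz_empty, ua_empty, add_zero]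
      exact TV_nonneg _ _ _ _
    · rw [sz_eq, add_comm]
  have h3 : ∀ v, ∑ k ∈ range Z, ua A (F (v * Z + k)) (τ ((v * Z + k) * q))
      (τ ((v * Z + k + 1) * q)) ≤
      sz A E (τ (v * (Z * q))) (τ ((v + 1) * (Z * q))) + 4 * Z * (3 * T) := by
    intro v
    have e : ∀ k ∈ range Z, (v * Z + k) / Z = v := fun k hk => by
      rw [add_comm, Nat.add_mul_div_right _ _ hZ, Nat.div_eq_of_lt (mem_range.1 hk), zero_add]
    by_cases h : rich A E (fun v => τ (v * (Z * q))) (3 * T) v
    · rw [sum_eq_zero fun k hk => by simp only [F, e k hk, if_pos h, ua_empty]]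
      exact add_nonneg (sz_nonneg _ _ _ _) (by positivity)
    · have e0 : (v * Z + 0) * q = v * (Z * q) := by ring
      have e1 : (v * Z + Z) * q = (v + 1) * (Z * q) := by ring
      have h4 := hNTREE α x y th be A E (fun k => τ ((v * Z + k) * q)) Z (3 * T) hL
        (mono_add (mono_mul hτ q) (v * Z)) fun s t a b c d => by
          simp only [e0, e1] at a b c d
          exact not_lt.1 fun hl => h ⟨s, t, a, b, c, d, hl⟩
      simp only [e0, e1] at h4
      rw [sum_congr rfl fun k hk => by simp only [F, e k hk, if_neg h, add_assoc]; rfl]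
      exact h4.trans (add_le_add (ua_le_sz _ _ _ _) le_rfl)
  have h4 := hA α x y th be A E hL (fun v => τ (v * (Z * q))) (Z * Z) (mono_mul hτ _)
    (Nat.mul_pos hZ hZ)
  simp only [zero_mul] at h4
  have h5 := sum_le_sum fun v (_ : v ∈ range (Z * Z)) => h3 v
  rw [sum_add_distrib, sum_const, card_range, nsmul_eq_mul] at h5
  rw [sum_blocks (fun u => ua A (F u) (τ (u * q)) (τ ((u + 1) * q)))] at h2
  have z1 : (1 : ℝ) ≤ Z := by exact_mod_cast hZ
  have a1 : 1 ≤ ((Z * Z : ℕ) : ℝ) ^ g := Real.one_le_rpow (by push_cast; nlinarith) hg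
  have a2 : ((Z : ℝ) * (Z * q)) ^ g = ((Z * Z : ℕ) : ℝ) ^ g * (q : ℝ) ^ g := by
    rw [← Real.mul_rpow (by positivity) (by positivity)]
    push_cast
    rw [mul_assoc]
  have a3 : s ≤ C * ((Z * Z : ℕ) : ℝ) ^ g * s :=
    le_mul_of_one_le_left (T0.trans Ts) (one_le_mul_of_one_le_of_one_le hC a1)
  have a4 : ((Z * Z : ℕ) : ℝ) * (4 * Z * (3 * T)) = 12 * ((Z : ℝ) ^ 3 * T) := by
    push_cast
    ring
  have a5 : ∑ u ∈ range (Z * Z * Z), sz A (F u) (τ (u * q)) (τ ((u + 1) * q)) ≤
      14 * (C * ((Z * Z : ℕ) : ℝ) ^ g * s) := by linarith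
  refine h1.trans ((mul_le_mul_of_nonneg_left a5 (by positivity)).trans_eq ?_)
  rw [a2]
  ring

end Pool.Agent.P.MP_77a832_co.EL
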