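import Pool.Agent.P.MP_77a832_co.EL.NIface

/-! Step NRAT. -/

set_option autoImplicit false

namespace Pool.Agent.P.MP_77a832_co.EL

open Finset Real Pool.Agent.P.MP_bf60a1_an.RA
open scoped Classical
open N

theorem p_NRAT (hNSEP : S_NSEP) (hNFRM : S_NFRM) :
    S_NRAT := by
  intro α x y th be A E τ Z v v' a b hL hab hτ h1 h2 c c' p q p1 p2 q1 q2
  obtain ⟨f1, f2, f3⟩ := hNFRM α x y th be A E a b hL hab
  obtain ⟨d, d0, hd⟩ := hNSEP α x y th be th A E τ Z v v' hL f1 hτ h1 h2 c.1 c.2.2.1.2 c'.2.2.1.1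
  obtain ⟨dL, -, hdL⟩ :=
    hNSEP α x y th be _ A E τ Z v v' hL f2 hτ h1 h2 c.1 c.2.2.2.1.2 c'.2.2.2.1.1
  obtain ⟨dR, -, hdR⟩ :=
    hNSEP α x y th be _ A E τ Z v v' hL f3 hτ h1 h2 c.1 c.2.2.2.2.2 c'.2.2.2.2.1
  have key : ∀ p, p ∈ KS.act A E (τ v) (τ (v + 1)) → p ∈ KS.act A E (τ v') (τ (v' + 1)) →
      (dL < 3 * d * (x p - a) ∧ d * (x p - a) < 3 * dL) ∧
        dR < 3 * d * (b - x p) ∧ d * (b - x p) < 3 * dR := by
    intro p p1 p2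
    obtain ⟨hp, s1, s2, a1, a2, a3, a4, a5, a6⟩ := KS.mem_act.1 p1
    obtain ⟨-, t1, t2, b1, b2, b3, b4, b5, b6⟩ := KS.mem_act.1 p2
    have e1 := (hL.ab s1 p hp).1 a5
    have e2 := not_lt.1 (mt (hL.ab s2 p hp).2 a6)
    have e3 := (hL.ab t1 p hp).1 b5
    have e4 := not_lt.1 (mt (hL.ab t2 p hp).2 b6)
    have x1 := (sub_pos.2 (hab p hp).1).le
    have x2 := (sub_pos.2 (hab p hp).2).le
    have k1 := hd s1 t2 a1 a2 b3 b4
    have k2 := hd s2 t1 a3 a4 b1 b2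
    have l1 := (hdL s1 t2 a1 a2 b3 b4).1
    have l2 := (hdL s2 t1 a3 a4 b1 b2).2
    have r1 := (hdR s1 t2 a1 a2 b3 b4).2
    have r2 := (hdR s2 t1 a3 a4 b1 b2).1
    simp only [sL, sR] at l1 l2 r1 r2
    have m1 := mul_le_mul_of_nonneg_right k1.2 x1
    have m2 := mul_le_mul_of_nonneg_right k2.1 x1
    have m3 := mul_le_mul_of_nonneg_right k1.1 x2
    have m4 := mul_le_mul_of_nonneg_right k2.2 x2
    exact ⟨⟨by linarith, by linarith⟩, by linarith, by linarith⟩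
  obtain ⟨⟨-, u1⟩, -, u2⟩ := key p p1 p2
  obtain ⟨⟨w1, -⟩, w2, -⟩ := key q q1 q2
  exact ⟨le_of_mul_le_mul_left (by linarith) d0, le_of_mul_le_mul_left (by linarith) d0⟩

end Pool.Agent.P.MP_77a832_co.EL
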