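import Pool.Agent.P.MP_77a832_co.EL.NIface

/-! Step NRICH. -/

set_option autoImplicit false

namespace Pool.Agent.P.MP_77a832_co.EL

open Finset Real Pool.Agent.P.MP_bf60a1_an.RA
open scoped Classical

open N

theorem p_NRICH (hNHIER : S_NHIER) (hNBLK : S_NBLK) :
    S_NRICH := by
  intro g C r C₁ hg hC hHA hr hC₁ hLA α x y th be A E τ Z R a b hL hx hτ hZ hR
  set t : ℕ → ℕ := fun v => τ (v * R) with ht
  have ht0 : t 0 = τ 0 := by simp [ht]
  have hm : Monotone t := mono_mul hτ R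
  set c : ℕ → Prop := fun v => rich A E t (3 * TV A E (τ 0) (τ (Z * Z * R))) v ∧
    ¬ cln th be A E t Z a b v with hc
  have h1 := hNHIER g C hHA α x y th be A E τ (Z * Z) R (fun v => if c v then E else ∅)
    (fun i _ => c (i / R)) hL hτ hR (fun v => by split_ifs <;> simp)
    (fun i _ p hp h => by rw [if_pos h]; exact hp)
  have h2 : ∑ v ∈ range (Z * Z), sz A (if c v then E else ∅) (t v) (t (v + 1)) ≤
      TV A E (t 0) (t (Z * Z)) +
        ∑ v ∈ range (Z * Z), if c v then ua A E (t v) (t (v + 1)) else 0 := by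
    rw [← TV_sum A E hm, ← sum_add_distrib]
    refine sum_le_sum fun v _ => ?_
    split_ifs
    · rw [sz_eq, add_comm]
    · rw [sz_empty, add_zero]; exact TV_nonneg _ _ _ _
  have h3 : ∀ u ∈ range Z, (∑ k ∈ range Z,
      if c (u * Z + k) then ua A E (t (u * Z + k)) (t (u * Z + k + 1)) else 0) ≤
      14 * C₁ * (Z : ℝ) ^ r * sz A E (t (u * Z)) (t ((u + 1) * Z)) := by
    intro u hu
    have := hNBLK r C₁ hr hC₁ hLA α x y th be A E t Z u a b
      ((Ico (u * Z) ((u + 1) * Z)).filter c) hL hx hm (mem_range.1 hu) fun v hv => by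
        obtain ⟨h, h'⟩ := mem_filter.1 hv
        rw [ht0]
        exact ⟨Nat.div_eq_of_lt_le (mem_Ico.1 h).1 (mem_Ico.1 h).2, h'⟩
    rwa [sum_filter, sum_Ico_eq_sum_range, show (u + 1) * Z - u * Z = Z by
      rw [add_mul, one_mul, Nat.add_sub_cancel_left]] at this
  have h4 := hHA α x y th be A E hL (fun u => t (u * Z)) Z (mono_mul hm Z) hZ
  have h5 := sum_le_sum h3
  rw [← sum_blocks (fun v => if c v then ua A E (t v) (t (v + 1)) else 0), ← mul_sum] at h5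
  simp only [zero_mul, ht0] at h2 h4
  have h6 := TV_le_sz A E (τ 0) (τ (Z * Z * R))
  have h7 := sz_nonneg A E (τ 0) (τ (Z * Z * R))
  have z1 : (1 : ℝ) ≤ Z := by exact_mod_cast hZ
  have z2 : 1 ≤ (Z : ℝ) ^ r := one_le_rpow z1 hr
  have z3 : 1 ≤ (Z : ℝ) ^ g := one_le_rpow z1 hg
  have z4 : 0 ≤ (R : ℝ) ^ g := rpow_nonneg R.cast_nonneg _
  have z5 : 1 ≤ C₁ * (Z : ℝ) ^ r * (C * (Z : ℝ) ^ g) :=
    one_le_mul_of_one_le_of_one_le (one_le_mul_of_one_le_of_one_le hC₁ z2)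
      (one_le_mul_of_one_le_of_one_le hC z3)
  have h8 := mul_le_mul_of_nonneg_left h4 (show 0 ≤ 14 * C₁ * (Z : ℝ) ^ r by positivity)
  have h9 := mul_le_mul_of_nonneg_right z5 h7
  refine h1.trans ((mul_le_mul_of_nonneg_left (show _ ≤ 15 * (C₁ * (Z : ℝ) ^ r *
    (C * (Z : ℝ) ^ g)) * sz A E (τ 0) (τ (Z * Z * R)) from ?_) (by positivity)).trans_eq ?_)
  · refine h2.trans ?_
    change TV A E (τ 0) (τ (Z * Z * R)) + _ ≤ _
    change _ ≤ _ * (_ * sz A E (τ 0) (τ (Z * Z * R))) at h8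
    linarith
  · rw [mul_rpow Z.cast_nonneg R.cast_nonneg]; ring

end Pool.Agent.P.MP_77a832_co.EL
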