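import Pool.Agent.P.MP_77a832_co.EL.NIface

/-! Step NSEP. -/

set_option autoImplicit false

namespace Pool.Agent.P.MP_77a832_co.EL

open Finset Real Pool.Agent.P.MP_bf60a1_an.RA
open scoped Classical

open N

theorem p_NSEP (hNORD : S_NORD) :
    S_NSEP := by
  intro α x y th be si A E τ Z v v' hL hF hτ hv' hvv hmid hm hf
  obtain ⟨s0, hs0, hs⟩ := exists_max_image (Icc (τ v) (τ (v + 1))) si
    (nonempty_Icc.2 (hτ (Nat.le_succ v)))
  obtain ⟨t0, ht0, ht⟩ := exists_min_image (Icc (τ v') (τ (v' + 1))) si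
    (nonempty_Icc.2 (hτ (Nat.le_succ v')))
  rw [mem_Icc] at hs0 ht0
  have hZ : 0 < Z := Nat.pos_of_ne_zero fun h => by simp [h] at hv'
  have i1 : v + 1 ≤ (v / Z + 1) * Z := by
    have := Nat.lt_mul_div_succ v hZ
    rw [mul_comm] at this
    exact this
  have i2 : (v / Z + 1) * Z ≤ v' / Z * Z := Nat.mul_le_mul_right _ hvv
  have i3 : v' / Z * Z ≤ v' := Nat.div_mul_le_self _ _
  have j0 : τ 0 ≤ s0 := (hτ (Nat.zero_le v)).trans hs0.1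
  have j1 : t0 ≤ τ (Z * Z) := ht0.2.trans (hτ hv')
  obtain ⟨-, u, hu1, hu2, s', t', r1, r2, r3, r4, r5⟩ := hmid
  have i4 : u < v' := Nat.lt_of_div_lt_div (hu2 ▸ hvv)
  have j2 : s0 ≤ τ u := hs0.2.trans (hτ hu1)
  have j3 : τ (u + 1) ≤ t0 := (hτ i4).trans ht0.1
  have hd := hNORD α x y th be si A E (τ 0) (τ (Z * Z)) s0 t0 s' t' hL hF j0 (j2.trans r1)
    (j2.trans r3) (r2.trans j3) (r4.trans j3) j1 r5
  refine ⟨si t0 - si s0, sub_pos.2 hd, fun s t a1 a2 a3 a4 => ?_⟩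
  have b1 := hs s (mem_Icc.2 ⟨a1, a2⟩)
  have b2 := ht t (mem_Icc.2 ⟨a3, a4⟩)
  have b3 := hf t t0 s0 a3 a4 ht0.1 ht0.2 j0 (hs0.2.trans (hτ (i1.trans i2)))
  have b4 := hm s s0 t0 a1 a2 hs0.1 hs0.2 ((hτ (i2.trans i3)).trans ht0.1) j1
  constructor <;> linarith

end Pool.Agent.P.MP_77a832_co.EL
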