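import Pool.Agent.P.MP_77a832_co.EL.NIface

/-! Step NSLAB. -/

set_option autoImplicit false

namespace Pool.Agent.P.MP_77a832_co.EL

open Finset Real Pool.Agent.P.MP_bf60a1_an.RA
open scoped Classical
open N

namespace NSLABc

theorem rank_ex {α : Type} (f : α → ℝ) (E : Finset α) : ∃ k : α → ℕ, (∀ p ∈ E, k p < E.card) ∧
    Set.InjOn k E ∧ ∀ p q, k p < k q → f p ≤ f q := by
  obtain ⟨i, hi⟩ : ∃ i : α → ℕ, Set.InjOn i E := Set.countable_iff_exists_injOn.1 E.countable_toSet
  let c : α → ℝ ×ₗ ℕ := fun p => toLex (f p, i p)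
  have hs : ∀ p ∈ E, ∀ q, c p < c q →
      (E.filter fun u => c u < c p).card < (E.filter fun u => c u < c q).card := by
    intro p hp q h
    refine card_lt_card ⟨fun u hu => mem_filter.2 ⟨(mem_filter.1 hu).1,
      (mem_filter.1 hu).2.trans h⟩, fun e => ?_⟩
    exact lt_irrefl _ (mem_filter.1 (e (mem_filter.2 ⟨hp, h⟩))).2
  refine ⟨fun p => (E.filter fun u => c u < c p).card, fun p hp => ?_, fun p hp q hq e => ?_,
    fun p q h => ?_⟩
  · exact card_lt_card ⟨filter_subset _ _, fun e => lt_irrefl _ (mem_filter.1 (e hp)).2⟩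
  · rcases lt_trichotomy (c p) (c q) with h | h | h
    · exact absurd e (hs p hp q h).ne
    · exact hi hp hq (congrArg (fun z => (ofLex z).2) h)
    · exact absurd e (hs q hq p h).ne'
  · have h1 : c p < c q := by
      by_contra h2
      exact absurd h (not_lt.2 (card_le_card fun u hu => mem_filter.2 ⟨(mem_filter.1 hu).1,
        (mem_filter.1 hu).2.trans_le (not_lt.1 h2)⟩))
    rcases Prod.Lex.toLex_lt_toLex.1 h1 with h3 | h3
    · exact h3.le
    · exact h3.1.le

end NSLABc

theorem p_NSLAB :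
    S_NSLAB := by
  intro α f E M hM
  obtain ⟨k, h1, h2, h3⟩ := NSLABc.rank_ex f E
  have hL : 0 < E.card / M + 1 := Nat.succ_pos _
  refine ⟨fun p => k p / (E.card / M + 1), fun p hp => ?_, fun p _ q _ h => ?_, fun j => ?_⟩
  · rw [Nat.div_lt_iff_lt_mul hL]
    exact (h1 p hp).trans (Nat.lt_mul_div_succ _ hM)
  · exact h3 p q (Nat.lt_of_div_lt_div h)
  · have h4 : (E.filter fun p => k p / (E.card / M + 1) = j).card ≤
        (Ico (j * (E.card / M + 1)) ((j + 1) * (E.card / M + 1))).card := by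
      refine card_le_card_of_injOn k (fun p hp => ?_) (h2.mono fun p hp => ?_)
      · have e := (mem_filter.1 (mem_coe.1 hp)).2
        refine mem_coe.2 (mem_Ico.2 ⟨(Nat.le_div_iff_mul_le hL).1 e.ge, ?_⟩)
        exact (Nat.div_lt_iff_lt_mul hL).1 (e ▸ Nat.lt_succ_self _)
      · exact mem_coe.2 (mem_filter.1 (mem_coe.1 hp)).1
    rw [Nat.card_Ico, Nat.succ_mul, Nat.add_sub_cancel_left] at h4
    calc _ ≤ ((E.card / M + 1 : ℕ) : ℝ) := Nat.cast_le.2 h4
      _ ≤ _ := by
        push_cast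
        exact add_le_add_left Nat.cast_div_le 1

end Pool.Agent.P.MP_77a832_co.EL
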