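import Pool.Agent.P.MP_77a832_co.EL.NIface

/-! Step NSLB. -/

set_option autoImplicit false

namespace Pool.Agent.P.MP_77a832_co.EL

open Finset Real Pool.Agent.P.MP_bf60a1_an.RA
open scoped Classical

open N

theorem p_NSLB (hNMTV : S_NMTV) (hNPHS : S_NPHS) :
    S_NSLB := by
  intro g C hC hA α x y f th be A E τ M R r J B hL hτ hR hM hE hMs hS hRo hB
  generalize hs : sz A E (τ 0) (τ (M * R)) = s at *
  have hM' : (0 : ℝ) < M := by exact_mod_cast hM
  have one : ∀ j, uw A E τ (M * R) (fun _ p => r p = j) ≤ 10 * C * (R : ℝ) ^ g * s := fun j => by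
    have h1 := (hNMTV α A E (E.filter fun p => r p = j) _ _ _ _ (hτ (Nat.zero_le (M * R)))
      (hRo.mo (j + 1)) (hRo.mo j)).2 fun p => by rw [mem_filter]; exact and_congr_right fun _ => by omega
    rw [hs] at h1
    have h2 := hNPHS g C hC hA α x y th be A E (E.filter fun p => r p = j) τ M R (4 * s) (2 * s / M)
      (fun _ p => r p = j) hL hτ hR (filter_subset _ _) (fun _ p hp e => mem_filter.2 ⟨hp, e⟩) h1
      fun a b _ _ _ => by
        have a1 := (ua_le_card A (E.filter fun p => r p = j) a b).trans (hS.sm j)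
        have a2 : (E.card : ℝ) / M ≤ s / M := by gcongr
        have a3 : 1 ≤ s / M := (one_le_div hM').2 hMs
        have a4 := TV_nonneg A (E.filter fun p => r p = j) a b
        rw [mul_div_assoc]
        linarith
    rw [mul_div_cancel₀ _ hM'.ne'] at h2
    linarith
  calc uw A E τ (M * R) (fun _ p => B (r p))
      ≤ ∑ i ∈ range (M * R), ∑ j ∈ J, ua A (E.filter fun p => r p = j) (τ i) (τ (i + 1)) :=
        sum_le_sum fun i _ => ua_biUnion J _ fun p hp =>
          ⟨r p, hB _ (mem_filter.1 hp).2, mem_filter.2 ⟨(mem_filter.1 hp).1, rfl⟩⟩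
    _ = ∑ j ∈ J, uw A E τ (M * R) (fun _ p => r p = j) := by
        rw [sum_comm]
        refine sum_congr rfl fun j _ => sum_congr rfl fun i _ => ?_
        congr
    _ ≤ _ := by
        rw [← nsmul_eq_mul]
        exact sum_le_card_nsmul _ _ _ fun j _ => one j

end Pool.Agent.P.MP_77a832_co.EL
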