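import Pool.Agent.P.MP_77a832_co.EL.NIface

/-! Step NTREE. -/

set_option autoImplicit false

namespace Pool.Agent.P.MP_77a832_co.EL

open Finset Real Pool.Agent.P.MP_bf60a1_an.RA
open scoped Classical
open N

namespace NTREEc

variable {α : Type} {x y : α → ℝ} {th be : ℕ → ℝ} {A : ℕ → Finset α} {P : Finset α}

/-- points active on both sides of a time change their status at one of four pairs of times -/
theorem two (h : Lin x y th be A P) {a s b : ℕ} (h2 : a ≤ s) (h3 : s ≤ b) :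
    ∃ r₁ r₂ r₃ r₄, (a ≤ r₁ ∧ r₁ ≤ s) ∧ (s ≤ r₂ ∧ r₂ ≤ b) ∧ (a ≤ r₃ ∧ r₃ ≤ s) ∧
      (s ≤ r₄ ∧ r₄ ≤ b) ∧ ∀ p ∈ KS.act A P a s, p ∈ KS.act A P s b →
        ¬ (p ∈ A s ↔ p ∈ A r₁) ∨ ¬ (p ∈ A s ↔ p ∈ A r₂) ∨ ¬ (p ∈ A s ↔ p ∈ A r₃) ∨
          ¬ (p ∈ A s ↔ p ∈ A r₄) := by
  obtain ⟨r₁, r₂, a1, a2, a3, a4, ha⟩ := KS.Z.env x be h.mono.monotone P h2 h3
  obtain ⟨r₃, r₄, b1, b2, b3, b4, hb⟩ :=
    KS.Z.env (fun p => -x p) (fun t => -be t) h.mono.monotone P h2 h3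
  refine ⟨r₁, r₂, r₃, r₄, ⟨a1, a2⟩, ⟨a3, a4⟩, ⟨b1, b2⟩, ⟨b3, b4⟩, fun p hp hp' => ?_⟩
  obtain ⟨hP, u, v, c1, c2, c3, c4, c5, c6⟩ := KS.mem_act.1 hp
  obtain ⟨-, u', v', d1, d2, d3, d4, d5, d6⟩ := KS.mem_act.1 hp'
  have ab : ∀ t, (p ∈ A t ↔ th t * x p + be t < y p) := fun t => h.ab t p hP
  by_cases hs : p ∈ A s
  · rcases ha p hP with e | e
    · exact Or.inl fun hc => d6 ((ab v').2 ((e v' d3 d4).trans_lt ((ab r₁).1 (hc.1 hs))))
    · exact Or.inr (Or.inl fun hc => c6 ((ab v).2 ((e v c3 c4).trans_lt ((ab r₂).1 (hc.1 hs)))))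
  · rcases hb p hP with e | e
    · refine Or.inr (Or.inr (Or.inl fun hc => hs (hc.2 ((ab r₃).2 ?_))))
      have := (ab u').1 d5
      linarith [e u' d1 d2]
    · refine Or.inr (Or.inr (Or.inr fun hc => hs (hc.2 ((ab r₄).2 ?_))))
      have := (ab u).1 c5
      linarith [e u c1 c2]

theorem split (h : Lin x y th be A P) {a s b : ℕ} (h2 : a ≤ s) (h3 : s ≤ b) {D : ℝ}
    (hD : ∀ u t, a ≤ u → u ≤ b → a ≤ t → t ≤ b → df A P u t ≤ D) :
    ua A P a s + ua A P s b ≤ ua A P a b + 4 * D := by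
  obtain ⟨r₁, r₂, r₃, r₄, ⟨a1, a2⟩, ⟨a3, a4⟩, ⟨b1, b2⟩, ⟨b3, b4⟩, hp⟩ := two h h2 h3
  let F : ℕ → Finset α := fun r => P.filter fun p => ¬ (p ∈ A s ↔ p ∈ A r)
  have e1 := card_union_add_card_inter (KS.act A P a s) (KS.act A P s b)
  have e2 : (KS.act A P a s ∪ KS.act A P s b).card ≤ (KS.act A P a b).card :=
    card_le_card (union_subset (KS.act_mono Subset.rfl le_rfl h3)
      (KS.act_mono Subset.rfl h2 le_rfl))
  have e3 : (KS.act A P a s ∩ KS.act A P s b).card ≤ (F r₁ ∪ (F r₂ ∪ (F r₃ ∪ F r₄))).card := by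
    refine card_le_card fun p hp' => ?_
    obtain ⟨p1, p2⟩ := mem_inter.1 hp'
    have hP := (KS.mem_act.1 p1).1
    simp only [mem_union, F, mem_filter, hP, true_and]
    exact hp p p1 p2
  have e4 := card_union_le (F r₁) (F r₂ ∪ (F r₃ ∪ F r₄))
  have e5 := card_union_le (F r₂) (F r₃ ∪ F r₄)
  have e6 := card_union_le (F r₃) (F r₄)
  have e7 : (KS.act A P a s).card + (KS.act A P s b).card ≤
      (KS.act A P a b).card + ((F r₁).card + (F r₂).card + (F r₃).card + (F r₄).card) := by omega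
  have e8 : ua A P a s + ua A P s b ≤
      ua A P a b + (df A P s r₁ + df A P s r₂ + df A P s r₃ + df A P s r₄) := by
    unfold ua df
    exact_mod_cast e7
  have f1 := hD s r₁ h2 h3 a1 (a2.trans h3)
  have f2 := hD s r₂ h2 h3 (h2.trans a3) a4
  have f3 := hD s r₃ h2 h3 b1 (b2.trans h3)
  have f4 := hD s r₄ h2 h3 (h2.trans b3) b4
  linarith

end NTREEc

theorem p_NTREE :
    S_NTREE := by
  intro α x y th be A E τ R D h hτ hD
  induction R with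
  | zero => simpa using ua_nonneg A E _ _
  | succ R ih =>
    have hR : τ R ≤ τ (R + 1) := hτ R.le_succ
    have e1 := ih fun s t h1 h2 h3 h4 => hD s t h1 (h2.trans hR) h3 (h4.trans hR)
    have e2 := NTREEc.split h (hτ R.zero_le) hR hD
    rw [sum_range_succ]
    push_cast
    linarith

end Pool.Agent.P.MP_77a832_co.EL
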