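import Pool.Agent.P.MP_77a832_co.EL.NIface

/-! Step NWCT. -/

set_option autoImplicit false

namespace Pool.Agent.P.MP_77a832_co.EL

open Finset Real Pool.Agent.P.MP_bf60a1_an.RA
open scoped Classical
open N

namespace NWCTc

end NWCTc

theorem p_NWCT (hNRAT : S_NRAT) (hNCNT : S_NCNT) :
    S_NWCT := by
  intro α x y th be A E τ Z M a b r hL hab hτ hr
  have key : ∀ w : ℕ × ℕ, ∃ J : Finset ℕ, J.card ≤ 40 ∧ (w.2 < Z * Z → w.1 / Z < w.2 / Z →
      cln th be A E τ Z a b w.1 → cln th be A E τ Z a b w.2 → ∀ p,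
      p ∈ KS.act A E (τ w.1) (τ (w.1 + 1)) → p ∈ KS.act A E (τ w.2) (τ (w.2 + 1)) →
      ∀ q ∈ E, r q = r p → ¬ (4 * |x q - x p| ≤ x p - a ∧ 4 * |x q - x p| ≤ b - x p) →
      r p ∈ J) := by
    rintro ⟨v, v'⟩
    by_cases hg : v' < Z * Z ∧ v / Z < v' / Z ∧ cln th be A E τ Z a b v ∧
        cln th be A E τ Z a b v'
    swap
    · exact ⟨∅, by simp, fun h1 h2 h3 h4 => absurd ⟨h1, h2, h3, h4⟩ hg⟩
    obtain ⟨h1, h2, h3, h4⟩ := hg
    have hR := hNRAT α x y th be A E τ Z v v' a b hL hab hτ h1 h2 h3 h4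
    set S := KS.act A E (τ v) (τ (v + 1)) ∩ KS.act A E (τ v') (τ (v' + 1)) with hS
    have hSE : S ⊆ E := fun p hp => (KS.mem_act.1 (mem_inter.1 hp).1).1
    have hR' := fun p (hp : p ∈ S) q (hq : q ∈ S) => hR p q (mem_inter.1 hp).1 (mem_inter.1 hp).2
      (mem_inter.1 hq).1 (mem_inter.1 hq).2
    have ha := hNCNT α ℕ (fun p => x p - a) E S r
      ((range M).filter fun j => ∃ p ∈ S, r p = j ∧ ∃ q ∈ E, r q = j ∧
        x p - a < 4 * |x q - a - (x p - a)|) hSE (fun p hp => sub_pos.2 (hab p hp).1)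
      (fun p hp q hq h => sub_le_sub_right (hr.ord p hp q hq h) a)
      (fun p hp q hq => (hR' p hp q hq).1) fun j hj => (mem_filter.1 hj).2
    have hb : ((range M).filter fun j : ℕ => ∃ p ∈ S, r p = j ∧ ∃ q ∈ E, r q = j ∧
        b - x p < 4 * |b - x q - (b - x p)|).card ≤ 20 := hNCNT α ℕᵒᵈ (fun p => b - x p) E S r
      _ hSE (fun p hp => sub_pos.2 (hab p hp).2)
      (fun p hp q hq h => sub_le_sub_left (hr.ord q hq p hp h) b)
      (fun p hp q hq => (hR' p hp q hq).2) fun (j : ℕ) hj => (mem_filter (α := ℕ).1 hj).2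
    refine ⟨_, (card_union_le _ _).trans (add_le_add ha hb), fun _ _ _ _ p p1 p2 q hq e h => ?_⟩
    have hp : p ∈ S := mem_inter.2 ⟨p1, p2⟩
    have hM := mem_range.2 (hr.lt p (hSE hp))
    rcases not_and_or.1 h with h | h
    · exact mem_union_left _ (mem_filter.2 ⟨hM, p, hp, rfl, q, hq, e, by
        rw [sub_sub_sub_cancel_right]; exact not_le.1 h⟩)
    · exact mem_union_right _ (mem_filter.2 ⟨hM, p, hp, rfl, q, hq, e, by
        rw [sub_sub_sub_cancel_left, abs_sub_comm]; exact not_le.1 h⟩)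
  choose J h1 h2 using key
  refine ⟨(range (Z * Z) ×ˢ range (Z * Z)).biUnion J,
    (card_biUnion_le_card_mul _ _ 40 fun w _ => h1 w).trans (le_of_eq ?_), ?_⟩
  · rw [card_product, card_range]
    ring
  · rintro j ⟨v, v', a1, a2, a3, a4, p, p1, p2, rfl, q, hq, e, h⟩
    exact mem_biUnion.2 ⟨(v, v'), mem_product.2 ⟨mem_range.2
      ((Nat.lt_of_div_lt_div a2).trans a1), mem_range.2 a1⟩, h2 (v, v') a1 a2 a3 a4 p p1 p2 q hq e h⟩

end Pool.Agent.P.MP_77a832_co.EL
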