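import Pool.Agent.P.MP_77a832_co.EL.NNode
import Pool.Agent.P.MP_77a832_co.EL.TNMTV
import Pool.Agent.P.MP_77a832_co.EL.TNSLAB
import Pool.Agent.P.MP_77a832_co.EL.TNGEO
import Pool.Agent.P.MP_77a832_co.EL.TNTREE
import Pool.Agent.P.MP_77a832_co.EL.TNFEW
import Pool.Agent.P.MP_77a832_co.EL.TNHIER
import Pool.Agent.P.MP_77a832_co.EL.TNPHS
import Pool.Agent.P.MP_77a832_co.EL.TNFWU
import Pool.Agent.P.MP_77a832_co.EL.TNLOCA
import Pool.Agent.P.MP_77a832_co.EL.TNLOC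
import Pool.Agent.P.MP_77a832_co.EL.TNBAND
import Pool.Agent.P.MP_77a832_co.EL.TNCORN
import Pool.Agent.P.MP_77a832_co.EL.TNSLB
import Pool.Agent.P.MP_77a832_co.EL.TNLONG
import Pool.Agent.P.MP_77a832_co.EL.TNORD
import Pool.Agent.P.MP_77a832_co.EL.TNFRM
import Pool.Agent.P.MP_77a832_co.EL.TNHALF
import Pool.Agent.P.MP_77a832_co.EL.TNLAF
import Pool.Agent.P.MP_77a832_co.EL.TNLMI
import Pool.Agent.P.MP_77a832_co.EL.TNLACF
import Pool.Agent.P.MP_77a832_co.EL.TNLACM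
import Pool.Agent.P.MP_77a832_co.EL.TNBLK
import Pool.Agent.P.MP_77a832_co.EL.TNRICH
import Pool.Agent.P.MP_77a832_co.EL.TNPOOR
import Pool.Agent.P.MP_77a832_co.EL.TNSEP
import Pool.Agent.P.MP_77a832_co.EL.TNRAT
import Pool.Agent.P.MP_77a832_co.EL.TNCNT
import Pool.Agent.P.MP_77a832_co.EL.TNWCT

/-! One node: all steps together. -/

set_option autoImplicit false

namespace Pool.Agent.P.MP_77a832_co.EL

theorem q_NODE : S_NODE :=
  have hNMTV : S_NMTV := p_NMTV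
  have hNSLAB : S_NSLAB := p_NSLAB
  have hNGEO : S_NGEO := p_NGEO
  have hNTREE : S_NTREE := p_NTREE
  have hNFEW : S_NFEW := p_NFEW
  have hNHIER : S_NHIER := p_NHIER
  have hNPHS : S_NPHS := p_NPHS hNHIER
  have hNFWU : S_NFWU := p_NFWU hNMTV
  have hNLOCA : S_NLOCA := p_NLOCA
  have hNLOC : S_NLOC := p_NLOC hNMTV hNTREE hNFEW hNHIER hNLOCA
  have hNBAND : S_NBAND := p_NBAND
  have hNCORN : S_NCORN := p_NCORN hNMTV hNBAND hNPHS
  have hNSLB : S_NSLB := p_NSLB hNMTV hNPHS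
  have hNLONG : S_NLONG := p_NLONG hNFEW
  have hNORD : S_NORD := p_NORD
  have hNFRM : S_NFRM := p_NFRM
  have hNHALF : S_NHALF := p_NHALF
  have hNLAF : S_NLAF := p_NLAF
  have hNLMI : S_NLMI := p_NLMI
  have hNLACF : S_NLACF := p_NLACF hNORD hNHALF hNLAF
  have hNLACM : S_NLACM := p_NLACM hNORD hNHALF hNLMI
  have hNBLK : S_NBLK := p_NBLK hNFRM hNLACF hNLACM
  have hNRICH : S_NRICH := p_NRICH hNHIER hNBLK
  have hNPOOR : S_NPOOR := p_NPOOR hNHIER hNTREE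
  have hNSEP : S_NSEP := p_NSEP hNORD
  have hNRAT : S_NRAT := p_NRAT hNSEP hNFRM
  have hNCNT : S_NCNT := p_NCNT
  have hNWCT : S_NWCT := p_NWCT hNRAT hNCNT
  N.node_of hNSLAB hNGEO hNFWU hNLOC hNCORN hNSLB hNLONG hNFRM hNRICH hNPOOR hNSEP hNWCT

end Pool.Agent.P.MP_77a832_co.EL
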