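import Pool.Agent.P.MP_77a832_co.EL.AGlue
import Pool.Agent.P.MP_77a832_co.EL.NAll
import Pool.Agent.P.MP_77a832_co.EL.Lac
import Pool.Agent.P.MP_77a832_co.EL.BGlue

/-! The activity bound `C n K ^ ε` for a rotating sweep, from the two parts. -/

set_option autoImplicit false

namespace Pool.Agent.P.MP_77a832_co.EL

theorem ub : UB := ub_of (p_PROC q_NODE L.lac) q_BFIN

end Pool.Agent.P.MP_77a832_co.EL
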