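import Pool.Agent.P.MP_77a832_co.EL.Defs

/-! Objects of the entropy argument inside one window of a node process. -/

set_option autoImplicit false

namespace Pool.Agent.P.MP_77a832_co.EL

open Finset Real Pool.Agent.P.MP_bf60a1_an.RA
open scoped Classical

/-- the constants of a window -/
structure Par where
  I : ℕ
  κ : ℕ
  M : ℕ
  L : ℕ
  L' : ℕ
  c1 : ℕ
  κ3 : ℕ
  N1 : ℕ
  Λ : ℕ
  a : ℕ
  q : ℕ
  q' : ℕ
  ζ : ℝ
  η : ℝ
  g1 : ℝ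
  c0 : ℝ
  z1 : ℝ
  θ0 : ℝ
  θ1 : ℝ
  δ' : ℝ
  ε2 : ℝ
  e : ℝ
  φ : ℝ

namespace Par
variable (p : Par)

/-- length of the end part -/
def N : ℕ := p.L * p.N1
/-- length of the main part -/
def J : ℕ := p.Λ * p.N
/-- number of groups -/
def R : ℕ := p.Λ * p.N1
/-- length of the window -/
def T : ℕ := p.J + 3 * p.N
/-- number of dyadic digits of a strip -/
def m : ℕ := p.a + 3
/-- last level at which a direction is read -/
def cap : ℕ := p.J + p.N - 1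
/-- step of the vertical budget -/
def s : ℕ := p.q + p.q'
/-- depth of the information on group `r` -/
def lam (r : ℕ) : ℕ := (r + 1) * p.L + 2 * p.κ3
/-- levels of the ball process -/
def lv : ℕ → ℕ
  | 0 => 0
  | r + 1 => p.lam r
/-- the steps of group `r` -/
def grp (r : ℕ) : Finset ℕ := Ico (r * p.L) (r * p.L + p.L')
/-- shrinking factor -/
noncomputable def sh : ℝ := (2 : ℝ) ^ (-(1 - p.η) * p.I)
/-- mass of a partner class -/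
noncomputable def δ : ℝ := 1 / (6 * 4 ^ p.κ)
/-- fuzz -/
noncomputable def φ3 : ℝ := (1 / 2) ^ p.q' + 2 ^ p.m * p.φ
/-- floor -/
noncomputable def f : ℝ := (1 / 2) ^ (2 * p.I * p.J)
/-- gain of a full group -/
noncomputable def gn : ℝ := 4 / (p.δ * p.δ') * (2 ^ (p.a + p.m + 9) / 2 ^ p.q)
/-- small number -/
noncomputable def τ : ℝ := p.c0 * p.g1 * p.η / 400
/-- number of relevant scales -/
noncomputable def us : ℝ := p.m * (2 * p.I * p.J / p.θ0 + 1)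
/-- number of rare exits -/
noncomputable def rr (θ : ℝ) : ℝ := p.m * (2 * p.I * p.J / (- log θ) + 1)
/-- multiplicity of a scale of slopes -/
def mu : ℕ := p.L + 2 * p.κ3
/-- the budget without fuzz -/
noncomputable def bud0 : ℝ :=
  p.mu * (p.s * p.m * p.us) + p.m * (2 * p.mu * p.I) * 16 ^ p.κ * p.J
/-- mean fuzz -/
noncomputable def fz : ℝ := 3 * p.φ3 * p.us * p.s * p.T
/-- fine height -/
noncomputable def hh (u y : ℕ) : ℝ := 2 * (1 / 2) ^ (u + p.m + y + p.q)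
/-- coarse radius -/
noncomputable def rho (u y : ℕ) : ℝ := (1 / 2) ^ (u + p.m + y + p.a)
/-- `y` is the scale of the gap `g` -/
def Gc (g : ℝ) (y : ℕ) : Prop := 16 * (1 / 2) ^ (y + p.q) ≤ g ∧ g < 32 * (1 / 2) ^ (y + p.q)

/-- the conditions on the constants -/
structure OK : Prop where
  I1 : 1 ≤ p.I
  κ1 : 1 ≤ p.κ
  M1 : 1 ≤ p.M
  M3 : p.M ^ 3 ≤ 2 ^ p.I
  L1 : 1 ≤ p.L'
  N11 : 1 ≤ p.N1
  Λ1 : 1 ≤ p.Λ
  ζ0 : 0 < p.ζ
  ζ1 : p.ζ ≤ 1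
  η0 : 0 < p.η
  η1 : p.η ≤ 1 / 100
  g0 : 0 < p.g1
  g11 : p.g1 ≤ 1
  c00 : 0 < p.c0
  c01 : p.c0 ≤ 1
  z0 : 0 < p.z1
  θ00 : 0 < p.θ0
  θ01 : p.θ0 ≤ 1 / 2
  θ10 : 0 < p.θ1
  θ11 : p.θ1 ≤ 1 / 2
  δ0 : 0 < p.δ'
  δ1 : p.δ' ≤ 1
  ε0 : 0 < p.ε2
  ε1 : p.ε2 ≤ 1
  e0 : 0 < p.e
  φ0 : 0 < p.φ
  hL : p.L' + p.c1 ≤ p.L
  hc1 : p.η * p.L ≤ p.c1
  hsh : p.sh ^ (p.L - p.L' - p.c1) ≤ (1 / 2) ^ (p.q + 1)
  hgn : p.gn ≤ (2 : ℝ) ^ (-(1 - 4 * p.η) * p.L * p.I)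
  hκL : p.L ≤ p.κ3
  hκ3 : p.sh ^ p.κ3 ≤ p.φ / 32
  hN : p.L + 2 * p.κ3 + 3 ≤ p.N
  hq : p.a + p.m + 8 ≤ p.q
  hφ : 2 ^ p.m * p.φ ≤ 1 / 4
  hq' : 2 ≤ p.q'
  he : 8 * p.e * 2 ^ p.q ≤ (p.θ1 / 2 ^ p.m) ^ 2 * p.ε2 ^ 2
  ha : 48 / 2 ^ p.a ≤ p.τ
  hb : p.rr p.θ0 * (2 + 2 * p.M ^ 2 / p.ζ) ≤ p.τ * p.N
  hc : 2 * p.us * (2 : ℝ) ^ (-p.η * p.I * p.J) ≤ p.τ
  hf2 : 4 * p.δ' * p.us * p.L' * 4 ^ p.κ ≤ p.τ * p.N
  hf4 : 32 / (p.δ * p.δ') * (16 / p.e ^ 2 * (p.bud0 + p.mu * p.fz) +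
    p.ε2 * 2 ^ (p.a + 2) * p.us * p.J * 16 ^ p.κ) ≤ p.τ * p.N * p.R
  hf5 : p.L' * 16 ^ p.κ * p.rr p.θ1 * (2 + 2 * p.M ^ 2 / p.ζ) ≤ p.τ * p.N
  hz : 400 * p.z1 * (p.Λ + 3) ≤ p.η * p.g1 * p.τ
  hΛ : 6 ≤ p.η * p.Λ
  hI : 2 ≤ p.η * p.I
  hfin : 6 * p.η * p.I < p.g1 * p.κ
  hg : 1 ≤ p.g1 * p.κ

end Par

namespace PD
variable {Ω α β : Type} [Fintype Ω] (D : PD Ω α β) (p : Par) (σ σ' : ℝ)

/-- conditional mass of the first subwindow -/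
noncomputable def bq (n : ℕ) : Ω → ℝ := cq D.Q (D.V1 n) (D.pw n)
/-- truncated branching -/
noncomputable def bh (κ n : ℕ) (ω : Ω) : ℝ := min (- log (D.bq n ω)) (2 * κ * log 2)
/-- a clean step with many clean partners -/
def AG0 (n : ℕ) (ω : Ω) : Prop :=
  D.clean n ω ∧ 1 / 4 ≤ cp D.Q (fun z => D.V1 n z ≠ D.V1 n ω ∧ D.clean n z) (D.pw n) ω
/-- branching in the main part and in the end part -/
def G0 (ω : Ω) : Prop :=
  p.g1 * (2 * p.κ * log 2) * p.J ≤ ∑ n ∈ range p.J, D.bh p.κ n ω ∧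
  p.g1 * (2 * p.κ * log 2) * p.N ≤ ∑ i ∈ range p.N, D.bh p.κ (p.J + p.N + i) ω
/-- the deep window of group `r` is short -/
def deep (r : ℕ) (ω : Ω) : Prop := D.len (p.lam r) ω ≤ p.φ / 32 * D.len (r * p.L + p.L') ω
/-- a good partner in the class `ρ` -/
def gd (r n ρ : ℕ) (z : Ω) : Prop := D.V2 n z = ρ ∧ D.clean n z ∧ D.deep p r z
/-- conditional mass of the good partners -/
noncomputable def pG (r n ρ : ℕ) : Ω → ℝ := cp D.Q (D.gd p r n ρ) (D.pw n)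
/-- `t = (step, class, scale)` is a label of group `r` -/
def Lab (r : ℕ) (ω : Ω) (t : ℕ × ℕ × ℕ) : Prop :=
  t.1 ∈ p.grp r ∧ D.clean t.1 ω ∧ D.deep p r ω ∧ p.δ ≤ D.pG p r t.1 t.2.1 ω ∧
    ∃ z, D.pw t.1 z = D.pw t.1 ω ∧ D.V2 t.1 z = t.2.1 ∧ D.clean t.1 z ∧
      D.V1 t.1 z ≠ D.V1 t.1 ω ∧ p.Gc (D.gap t.1 ω z) t.2.2
/-- group `r` has a label -/
def has (r : ℕ) (ω : Ω) : Prop := ∃ t, D.Lab p r ω t
/-- the chosen label -/
noncomputable def lab (r : ℕ) (ω : Ω) : ℕ × ℕ × ℕ := Classical.epsilon (D.Lab p r ω)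
/-- the chosen scale -/
noncomputable def yl (r : ℕ) (ω : Ω) : ℕ := (D.lab p r ω).2.2
/-- `y` is the scale of a gap inside the window of level `n` -/
def cnd (n y : ℕ) (ω : Ω) : Prop :=
  ∃ v z, D.W n v = D.W n ω ∧ D.W n z = D.W n ω ∧ p.Gc (D.gap n v z) y
/-- first short window -/
noncomputable def ell (y : ℕ) (ω : Ω) : ℕ :=
  sInf {n | D.len n ω ≤ p.φ * (1 / 2) ^ (y + p.q) ∨ n = p.cap}
/-- stopped state -/
noncomputable def SS (y : ℕ) (ω : Ω) : β × ℕ × ℕ :=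
  (D.Nd 0 ω, D.ell p y ω, D.W (D.ell p y ω) ω)
/-- direction at scale `y` -/
noncomputable def th (y : ℕ) (ω : Ω) : ℝ := D.lo (D.ell p y ω) ω
/-- projection -/
def Pj (θ : ℝ) (ω : Ω) : ℝ := D.yy ω - θ * D.xx ω
/-- projection at scale `y` -/
noncomputable def Pi (y : ℕ) (ω : Ω) : ℝ := D.Pj (D.th p y ω) ω
/-- scale `y` is a candidate at step `n` of group `r` -/
def cand (r n y : ℕ) (ω : Ω) : Prop :=
  n < D.ell p y ω ∧ D.ell p y ω ≤ p.lam r ∧ D.cnd p n y ω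
/-- dyadic column -/
noncomputable def X (u : ℕ) (ω : Ω) : ℤ := ⌊(D.xx ω - σ) * 2 ^ u⌋
/-- dyadic cell of the projection -/
noncomputable def cel (k y : ℕ) (ω : Ω) : ℤ := ⌊(D.Pi p y ω - σ') * 2 ^ k⌋
/-- coarse atom -/
noncomputable def At (u y : ℕ) (ω : Ω) : ℤ × (β × ℕ × ℕ) × ℤ :=
  (D.X σ u ω, D.SS p y ω, D.cel p σ' (u + p.m + y) y ω)
/-- fine cell -/
noncomputable def Fi (u y : ℕ) : Ω → ℤ := D.cel p σ' (u + p.m + y + p.q) y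
/-- middle cell -/
noncomputable def Mi (u y : ℕ) : Ω → ℤ := D.cel p σ' (u + p.m + y + p.a + 2) y
/-- strip -/
noncomputable def Tt (u : ℕ) : Ω → ℤ := D.X σ (u + p.m)
/-- the class has large mass -/
def flo {γ : Type} (G : Ω → γ) (ω : Ω) : Prop := p.f * D.Q.cl (D.Nd 0) ω ≤ D.Q.cl G ω
/-- column in the starting node -/
noncomputable def X0 (u : ℕ) (ω : Ω) : β × ℤ := (D.Nd 0 ω, D.X σ u ω)
/-- relevant scale -/
def Lam (u : ℕ) (ω : Ω) : Prop :=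
  D.flo p (D.X0 σ u) ω ∧ ¬ heavy D.Q p.θ0 (D.Tt p σ u) (D.X0 σ u) ω
/-- column, starting node and window -/
noncomputable def Cl (u n : ℕ) (ω : Ω) : (β × ℤ) × ℕ := (D.X0 σ u ω, D.W n ω)
/-- ball in the direction of `ω` -/
def Ball (u r y : ℕ) (t : ℝ) (ω z : Ω) : Prop :=
  D.Cl σ u (p.lam r) z = D.Cl σ u (p.lam r) ω ∧ |D.Pj (D.th p y ω) z - D.Pi p y ω| ≤ t
/-- the small ball is light -/
def Full (u r y : ℕ) (ω : Ω) : Prop :=
  D.Q.pr (D.Ball p σ u r y (p.hh u y) ω) ≤ p.gn * D.Q.pr (D.Ball p σ u r y (p.rho u y) ω)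
/-- two visits of one point -/
noncomputable def Q2 (n : ℕ) : FP (Ω × Ω) := D.Q.cpy (D.pw n)
/-- the two deep windows -/
def Ex (r : ℕ) (w : Ω × Ω) : ℕ × ℕ := (D.W (p.lam r) w.1, D.W (p.lam r) w.2)
/-- atom of the pair space -/
noncomputable def C2 (u r y : ℕ) (w : Ω × Ω) : (ℤ × (β × ℕ × ℕ) × ℤ) × ℕ × ℕ :=
  (D.At p σ σ' u y w.1, D.Ex p r w)
/-- product structure and middle mass on the first side -/
def nice1 (u r n y : ℕ) (w : Ω × Ω) : Prop :=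
  Prd (D.Q2 n) p.e (fun v => D.Tt p σ u v.1) (fun v => D.Fi p σ' u y v.1)
    (fun v => D.At p σ σ' u y v.1) (D.C2 p σ σ' u r y) w ∧
  p.ε2 ≤ cq (D.Q2 n) (fun v => D.Mi p σ' u y v.1) (D.C2 p σ σ' u r y) w
/-- small ball and good partner -/
def E0 (u r : ℕ) (t : ℕ × ℕ × ℕ) (ω : Ω) (w : Ω × Ω) : Prop :=
  D.Ball p σ u r t.2.2 (p.hh u t.2.2) ω w.1 ∧ D.gd p r t.1 t.2.1 w.2
/-- the point of `ω` is close to the coarse grid in the direction of `z` -/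
def uns (u y : ℕ) (ω z : Ω) : Prop :=
  near (D.Pj (D.th p y z) ω - σ') (u + p.m + y) (8 / 2 ^ p.a)
/-- failure: own grid -/
def f1 (u r : ℕ) (ω : Ω) : Prop := D.uns p σ' u (D.yl p r ω) ω ω
/-- failure: the label is rare in the ball -/
def f2 (u r : ℕ) (t : ℕ × ℕ × ℕ) (ω : Ω) : Prop :=
  D.Q.pr (fun z => D.Ball p σ u r t.2.2 (p.hh u t.2.2) ω z ∧ p.δ ≤ D.pG p r t.1 t.2.1 z) <
    p.δ' * D.Q.pr (D.Ball p σ u r t.2.2 (p.hh u t.2.2) ω)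
/-- failure: grid of the partner -/
def f3 (u r : ℕ) (t : ℕ × ℕ × ℕ) (ω : Ω) : Prop :=
  (D.Q2 t.1).pr (D.E0 p σ u r t ω) / 2 <
    (D.Q2 t.1).pr fun w => D.E0 p σ u r t ω w ∧ D.uns p σ' u t.2.2 ω w.2
/-- failure: no product structure -/
def f4 (u r : ℕ) (t : ℕ × ℕ × ℕ) (ω : Ω) : Prop :=
  p.δ * p.δ' / 4 * D.Q.pr (D.Ball p σ u r t.2.2 (p.hh u t.2.2) ω) <
    (D.Q2 t.1).pr fun w => D.E0 p σ u r t ω w ∧
      ¬ (D.nice1 p σ σ' u r t.1 t.2.2 w ∧ D.nice1 p σ σ' u r t.1 t.2.2 w.swap)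
/-- failure: heavy atom -/
def f5 (u r : ℕ) (ω : Ω) : Prop :=
  heavy D.Q p.θ1 (D.Tt p σ u) (D.At p σ σ' u (D.yl p r ω)) ω
/-- scale of the current ball -/
noncomputable def bs : ℕ → Ω → Option ℕ
  | 0, _ => none
  | r + 1, ω => if D.has p r ω ∧ ∀ y, bs r ω = some y → y + p.q ≤ D.yl p r ω
      then some (D.yl p r ω) else bs r ω
/-- the current ball -/
def Bs (u r : ℕ) (ω z : Ω) : Prop :=
  ∀ y, D.bs p r ω = some y → |D.Pj (D.th p y ω) z - D.Pi p y ω| ≤ p.hh u y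
/-- mass of the thick atom -/
noncomputable def Mm (u r : ℕ) (ω : Ω) : ℝ :=
  D.Q.pr fun z => D.Cl σ u (p.lv r) z = D.Cl σ u (p.lv r) ω ∧ D.Bs p u r ω z
/-- mass of the thick atom after the next window is revealed -/
noncomputable def Mn (u r : ℕ) (ω : Ω) : ℝ :=
  D.Q.pr fun z => D.Cl σ u (p.lv (r + 1)) z = D.Cl σ u (p.lv (r + 1)) ω ∧ D.Bs p u r ω z
/-- likelihood ratio -/
noncomputable def Zr (u r : ℕ) (ω : Ω) : ℝ :=
  D.Mn p σ u r ω / D.Mm p σ u r ω / cq D.Q (D.W (p.lv (r + 1))) (D.pw (p.lv r)) ω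
/-- the product of the ratios is large -/
def Zbig (u : ℕ) (ω : Ω) : Prop :=
  (2 : ℝ) ^ (p.η * p.I * p.J) < ∏ r ∈ range p.R, D.Zr p σ u r ω
/-- the windows shrink before group `r` -/
def shrk (r : ℕ) (ω : Ω) : Prop :=
  r = 0 ∨ D.len (r * p.L) ω ≤ (1 / 2) ^ (p.q + 1) * D.len ((r - 1) * p.L + p.L') ω
/-- group `r` gains -/
def good (u r : ℕ) (ω : Ω) : Prop :=
  D.has p r ω ∧ D.shrk p r ω ∧ D.Full p σ u r (D.yl p r ω) ω
/-- the last node is not small -/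
def kr (l : ℕ) (ω : Ω) : Prop :=
  (2 : ℝ) ^ (-(1 + 4 * p.η) * p.I * p.J) * D.Q.cl (D.Nd 0) ω ≤ D.Q.cl (D.Nd (l + 2)) ω
/-- selected level -/
def sel (l : ℕ) (ω : Ω) : Prop := D.ok l ω ∧ D.par (l + 1) ω
/-- a visit and its twin -/
noncomputable def Pt (l : ℕ) : FP (Ω × Ω) := D.Q.bind fun ω => D.Q.cond (D.tw l ω)
/-- `u` is the scale of the horizontal distance -/
def Sc (u : ℕ) (ω z : Ω) : Prop :=
  2 ^ p.a * |D.xx ω - D.xx z| ≤ (1 / 2) ^ u ∧ (1 / 2) ^ u < 2 ^ (p.a + 1) * |D.xx ω - D.xx z|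
/-- far from the grid of columns -/
def xs (u : ℕ) (ω : Ω) : Prop := ¬ near (D.xx ω - σ) u (1 / 2 ^ p.a)
/-- total mass of an event over the selected levels and scales -/
noncomputable def Sm (A : ℕ) (ev : ℕ → ℕ → Ω × Ω → Prop) : ℝ :=
  ∑ i ∈ range p.N, ∑ u ∈ range A, (D.Pt (p.cap + i)).pr fun w =>
    D.sel (p.cap + i) w.1 ∧ D.Sc p u w.1 w.2 ∧ ev (p.cap + i) u w
/-- fuzz at scale `(u, y)` -/
noncomputable def FZ (u y : ℕ) : ℝ := D.Q.pr fun ω => D.Lam p σ u ω ∧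
  D.ell p y ω ≠ D.ell p (y + p.s) ω ∧ near (D.Pi p y ω - σ') (u + p.m + y + p.q) p.φ3
/-- vertical defect with weight `ψ` -/
noncomputable def Dv (ψ : Ω → ℝ) (u y : ℕ) : ℝ :=
  Hw D.Q ψ (D.Tt p σ u) (D.At p σ σ' u y) -
    Hw D.Q ψ (D.Tt p σ u) fun ω => (D.Fi p σ' u y ω, D.At p σ σ' u y ω)
/-- cost of the two deep windows -/
noncomputable def Dx (u r n y : ℕ) : ℝ :=
  Hw (D.Q2 n) (fun w => ind (D.cand p r n y w.1)) (D.Ex p r)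
      (fun w => (D.Fi p σ' u y w.1, D.At p σ σ' u y w.1)) -
    Hw (D.Q2 n) (fun w => ind (D.cand p r n y w.1)) (D.Ex p r)
      fun w => (D.Tt p σ u w.1, D.Fi p σ' u y w.1, D.At p σ σ' u y w.1)
/-- mass of the pairs without product structure -/
noncomputable def NN (u r n y : ℕ) : ℝ := (D.Q2 n).pr fun w =>
  D.Lam p σ u w.1 ∧ D.cand p r n y w.1 ∧ ¬ D.nice1 p σ σ' u r n y w

/-- standing assumptions -/
structure Ok : Prop where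
  ok : p.OK
  str : D.Str p.T p.I p.κ p.M p.ζ

/-- the coordinates are small -/
structure Nrm : Prop where
  x : ∀ ω z, 2 ^ p.a * |D.xx ω - D.xx z| ≤ 1
  l : ∀ ω, D.len 0 ω ≤ (1 / 2) ^ p.q

/-- all scales are below `A` -/
structure Rng (A : ℕ) : Prop where
  u : ∀ u ω z, D.Sc p u ω z → u < A
  y : ∀ n < p.T, ∀ y ω z, p.Gc (D.gap n ω z) y → y < A

/-- a good window -/
structure Wd : Prop where
  rare : D.Rare p.T p.I p.η p.z1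
  tow : ∑ r ∈ range p.R, D.Q.pr (fun ω => (∀ n ∈ p.grp r, ¬ D.AG0 n ω) ∧ ∃ n < p.T, D.AG0 n ω) ≤
    p.z1 * p.R
  g0 : p.c0 ≤ D.Q.pr (D.G0 p)

/-- the process seen from level `k` -/
def shift (k : ℕ) : PD Ω α β :=
  { D with
    W := fun n => D.W (k + n), V1 := fun n => D.V1 (k + n), V2 := fun n => D.V2 (k + n),
    lo := fun n => D.lo (k + n), hi := fun n => D.hi (k + n), lo2 := fun n => D.lo2 (k + n),
    hi2 := fun n => D.hi2 (k + n), Nd := fun n => D.Nd (k + n), live := fun n => D.live (k + n),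
    clean := fun n => D.clean (k + n), ok := fun n => D.ok (k + n), tw := fun n => D.tw (k + n) }

/-- rescaled coordinates -/
def scale (b c : ℝ) : PD Ω α β :=
  { D with
    x := fun v => b * D.x v, y := fun v => b * c * D.y v,
    lo := fun n ω => c * D.lo n ω, hi := fun n ω => c * D.hi n ω,
    lo2 := fun n ω => c * D.lo2 n ω, hi2 := fun n ω => c * D.hi2 n ω }

/-- mean probability that no good step occurs among `r` consecutive ones -/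
noncomputable def piv (nB r : ℕ) : ℝ :=
  ∑ n ∈ range nB, D.Q.pr fun ω => ∀ k < r, ¬ D.AG0 (n + k) ω

end PD

end Pool.Agent.P.MP_77a832_co.EL
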