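import Pool.Agent.P.MP_77a832_co.EL.BDefs

/-! Statements of the steps of the entropy argument. -/

set_option autoImplicit false

namespace Pool.Agent.P.MP_77a832_co.EL

open Finset Real Pool.Agent.P.MP_bf60a1_an.RA
open scoped Classical

-- deps:
def S_CP : Prop := ∀ (Ω α β γ : Type) [Fintype Ω] (P : FP Ω) (V : Ω → β),
  (∀ (s : Ω → Prop) (φ : Ω → ℝ), P.Det V φ →
    (P.E fun ω => φ ω * cp P s V ω) = P.E fun ω => φ ω * ind (s ω)) ∧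
  (∀ (s : Ω → Prop) ω, 0 ≤ cp P s V ω ∧ cp P s V ω ≤ 1) ∧
  (∀ (s : Ω → Prop) ω z, V z = V ω → cp P s V z = cp P s V ω) ∧
  (∀ (s : Ω → Prop) ω, 0 < P.p ω → cp P s V ω = (P.cv V (V ω)).pr s) ∧
  (∀ (s : Ω → Prop) (V' : Ω → γ) ω, (∀ z, 0 < P.p z → (V z = V ω ↔ V' z = V' ω)) →
    cp P s V ω = cp P s V' ω) ∧
  (∀ (Z : Ω → α) ω, cq P Z V ω = P.cl (fun z => (Z z, V z)) ω / P.cl V ω) ∧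
  (∀ (Z : Ω → α) ω, 0 < P.p ω → 0 < cq P Z V ω) ∧
  (∀ (Z : Ω → α), Hw P (fun _ => 1) Z V = P.Hc Z V)

-- deps:
def S_MPC : Prop := ∀ (Ω Ω' α β : Type) [Fintype Ω] [Fintype Ω'] (P : FP Ω) (P' : FP Ω')
  (ϖ : Ω' → Ω), FP.MP P' P ϖ →
  (∀ (s : Ω → Prop) (V : Ω → β) w,
    cp P' (fun v => s (ϖ v)) (fun v => V (ϖ v)) w = cp P s V (ϖ w)) ∧
  ∀ (φ : Ω → ℝ) (Z : Ω → α) (V : Ω → β),
    Hw P' (fun v => φ (ϖ v)) (fun v => Z (ϖ v)) (fun v => V (ϖ v)) = Hw P φ Z V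

-- deps: CP
def S_HWM : Prop := ∀ (Ω α β γ : Type) [Fintype Ω] (P : FP Ω) (φ : Ω → ℝ) (Z : Ω → α)
  (V : Ω → β) (V' : Ω → γ), (∀ ω, 0 < P.p ω → 0 ≤ φ ω) → P.Det V φ → P.Det V' V →
    Hw P φ Z V' ≤ Hw P φ Z V

-- deps: CP
def S_HWF : Prop := ∀ (Ω α β : Type) [Fintype Ω] (P : FP Ω) (φ : Ω → ℝ) (Z : Ω → α)
  (V : Ω → β) (N : ℝ), (∀ ω, 0 < P.p ω → 0 ≤ φ ω) → P.Det V φ →
    (∀ ω, 0 < P.p ω → φ ω ≠ 0 → ∃ F : Finset α, (F.card : ℝ) ≤ N ∧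
      ∀ z, 0 < P.p z → V z = V ω → Z z ∈ F) → Hw P φ Z V ≤ log N * P.E φ

-- deps: CP
def S_HWS : Prop := ∀ (Ω α β γ : Type) [Fintype Ω] (P : FP Ω) (φ ψ : Ω → ℝ) (T : Ω → α)
  (F : Ω → β) (G : Ω → γ),
  (Hw P φ T G - Hw P φ T (fun ω => (F ω, G ω)) = Hw P φ F G - Hw P φ F fun ω => (T ω, G ω)) ∧
  ((∀ ω, 0 < P.p ω → 0 ≤ φ ω) → 0 ≤ Hw P φ T G) ∧
  (∀ c : ℝ, Hw P (fun ω => c * φ ω - ψ ω) T G = c * Hw P φ T G - Hw P ψ T G) ∧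
  ∀ (S : Finset ℕ) (χ : ℕ → Ω → ℝ),
    Hw P (fun ω => ∑ i ∈ S, χ i ω) T G = ∑ i ∈ S, Hw P (χ i) T G

-- deps:
def S_FEW : Prop := ∀ (Ω α β γ : Type) [Fintype Ω] (P : FP Ω),
  (∀ (Y : Ω → α) (Z : Ω → β) (V : Ω → γ) (N N' : ℝ), Few P Z V N → Few P Y Z N' →
    Few P Y V (N * N')) ∧
  ∀ (W : ℕ → Ω → α) (N : ℝ) (n k : ℕ), 1 ≤ N →
    (∀ i, n ≤ i → i < n + k → Few P (W (i + 1)) (W i) N) → Few P (W (n + k)) (W n) (N ^ k)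

-- deps: CP
def S_PINS : Prop := ∀ (Ω β γ : Type) [Fintype Ω] (P : FP Ω) (T F : Ω → ℤ) (G : Ω → β)
  (C : Ω → γ) (ev : Ω → Prop) (e : ℝ), 0 < e → P.Det C G → P.Det G ev →
    (P.pr fun ω => ev ω ∧ ¬ Prd P e T F G C ω) ≤ 16 / e ^ 2 *
      (Hw P (fun ω => ind (ev ω)) T G - Hw P (fun ω => ind (ev ω)) T fun ω => (F ω, C ω))

-- deps: CP
def S_MID : Prop := ∀ (Ω α β : Type) [Fintype Ω] (P : FP Ω) (Z : Ω → α) (C : Ω → β)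
  (ev : Ω → Prop) (N ε : ℝ), 0 ≤ ε → Few P Z C N → P.Det C ev →
    (P.pr fun ω => ev ω ∧ cq P Z C ω < ε) ≤ ε * N * P.pr ev

-- deps:
def S_RES1 : Prop := ∀ (Ω β : Type) [Fintype Ω] (P : FP Ω) (V : Ω → β) (φ pj b : Ω → ℝ) (h : ℝ),
  0 ≤ h → (∀ ω, 0 ≤ φ ω) → (∀ ω, 0 ≤ b ω) → P.Det V φ →
    (P.E fun ω => φ ω * ((P.E fun z => ind (V z = V ω ∧ |pj z - pj ω| ≤ h) * b z) /
      P.pr fun z => V z = V ω ∧ |pj z - pj ω| ≤ h)) ≤ 2 * P.E fun ω => φ ω * b ω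

-- deps:
def S_RES2 : Prop := ∀ (Ω β : Type) [Fintype Ω] (P : FP Ω) (V : Ω → β) (pj : Ω → ℝ)
  (ev s : Ω → Prop) (h δ : ℝ), 0 ≤ h → 0 < δ → P.Det V ev →
    (P.pr fun ω => ev ω ∧ s ω ∧ (P.pr fun z => (V z = V ω ∧ |pj z - pj ω| ≤ h) ∧ s z) <
      δ * P.pr fun z => V z = V ω ∧ |pj z - pj ω| ≤ h) ≤ 2 * δ * P.pr ev

-- deps: CP
def S_CODE : Prop := ∀ (Ω α β : Type) [Fintype Ω] (P : FP Ω) (Z : Ω → α) (V : Ω → β)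
  (φ g : Ω → ℝ), (∀ ω, 0 < P.p ω → 0 ≤ φ ω) → (∀ ω, 0 < P.p ω → 0 ≤ g ω) → P.Det V φ →
    P.Det (fun ω => (Z ω, V ω)) g →
    (∀ ω, 0 < P.p ω → ∀ F : Finset Ω, (∀ z ∈ F, 0 < P.p z ∧ V z = V ω) → Set.InjOn Z F →
      ∑ z ∈ F, g z ≤ 1) → (P.E fun ω => φ ω * (g ω / cq P Z V ω)) ≤ P.E φ

-- deps:
def S_SUP : Prop := ∀ (Ω β : Type) [Fintype Ω] (P : FP Ω) (Z : ℕ → Ω → β) (r : ℕ → Ω → ℝ)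
  (k : ℕ) (ev : Ω → Prop) (t : ℝ), 0 < t → (∀ n < k, P.Det (Z (n + 1)) (Z n)) →
    (∀ n < k, P.Det (Z (n + 1)) (r n)) → (∀ n < k, ∀ ω, 0 < P.p ω → 0 ≤ r n ω) →
    (∀ n < k, ∀ φ : Ω → ℝ, (∀ ω, 0 < P.p ω → 0 ≤ φ ω) → P.Det (Z n) φ →
      (P.E fun ω => φ ω * r n ω) ≤ P.E φ) → P.Det (Z 0) ev →
    (P.pr fun ω => ev ω ∧ t < ∏ n ∈ range k, r n ω) ≤ P.pr ev / t

-- deps: CP
def S_DOOB : Prop := ∀ (Ω β : Type) [Fintype Ω] (P : FP Ω) (Z : ℕ → Ω → β) (s : Ω → Prop)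
  (a b : ℕ) (t : ℝ), 0 < t → (∀ n, a ≤ n → n + 1 < b → P.Det (Z (n + 1)) (Z n)) →
    (P.pr fun ω => ∃ n, a ≤ n ∧ n < b ∧ t < cp P s (Z n) ω) ≤ P.pr s / t

-- deps:
def S_SEQ : Prop := ∀ (a : ℕ → ℝ) (m A : ℕ) (θ f : ℝ), 1 ≤ m → 0 < θ → θ < 1 → 0 < f → f ≤ 1 →
  (∀ u, a u ≤ 1) → (∀ u, a (u + m) ≤ a u) →
    (((range A).filter fun u => f ≤ a u ∧ a (u + m) ≤ θ * a u).card : ℝ) ≤
      m * (log f / log θ + 1)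

-- deps: CP
def S_HVY : Prop := ∀ (Ω β : Type) [Fintype Ω] (P : FP Ω) (T : Ω → ℤ) (G : Ω → β) (θ : ℝ) (ω : Ω),
  0 < P.p ω →
  (∀ z, 0 < P.p z → G z = G ω → 3 ≤ |T z - T ω| → heavy P θ T G ω →
    cq P T G ω < θ ∨ cq P T G z < θ) ∧
  (¬ heavy P θ T G ω → cq P T G ω ≤ 1 - θ) ∧
  ∀ N : ℝ, 0 < θ → θ ≤ 1 → Few P T G N → ¬ heavy P θ T G ω → ∃ t₁ t₂ : ℤ, 2 ≤ |t₁ - t₂| ∧
    θ / N ≤ cp P (fun z => T z = t₁) G ω ∧ θ / N ≤ cp P (fun z => T z = t₂) G ω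

-- deps:
def S_SHIFT : Prop := ∀ (K : ℕ) (t₀ : ℝ), 0 < t₀ → ∃ (n : ℕ) (P : FP (Fin n)) (σ : Fin n → ℝ),
  ∀ k ≤ K, ∀ v t : ℝ, t₀ ≤ t → (P.pr fun i => near (v - σ i) k t) ≤ 3 * t

-- deps:
def S_SQ : Prop := ∀ (b : ℕ → ℝ) (N Λ n : ℕ), 1 ≤ N → 1 ≤ Λ → 1 ≤ n → (∀ i, 0 ≤ b i ∧ b i ≤ 1) →
  (∑ i ∈ range n, b i) ^ 2 / n / 2 - 5 * n / Λ - 4 * (Λ + 2) * N ≤
    ∑ k ∈ range n, (∑ i ∈ range (Λ * N), b (k + i)) / (Λ * N) *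
      ((∑ i ∈ range N, b (k + (Λ * N + N + i))) / N)

section process

/-- quantification over all processes with good constants -/
def All (S : ∀ {Ω α β : Type} [Fintype Ω], PD Ω α β → Par → Prop) : Prop :=
  ∀ (Ω α β : Type) [Fintype Ω] (D : PD Ω α β) (p : Par), D.Ok p → S D p

-- deps:
def S_CHN : Prop := All fun D p =>
  (∀ n n', n ≤ n' → n' ≤ p.T → ∀ ω z, (D.W n' z = D.W n' ω → D.W n z = D.W n ω) ∧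
    (D.Nd n' z = D.Nd n' ω → D.Nd n z = D.Nd n ω) ∧
    (D.pw n' z = D.pw n' ω → D.pw n z = D.pw n ω ∧ D.Nd n z = D.Nd n ω)) ∧
  (∀ n n', n ≤ n' → n' ≤ p.T → ∀ ω, D.lo n ω ≤ D.lo n' ω ∧ D.lo n' ω ≤ D.hi n' ω ∧
    D.hi n' ω ≤ D.hi n ω) ∧
  (∀ n < p.T, ∀ ω z, D.W n z = D.W n ω → D.gap n ω z ≤ D.len n ω) ∧
  (∀ n t c ω, n + t ≤ p.T →
    ((Ico n (n + t)).filter fun i => ¬ D.shr p.I p.η i ω).card ≤ c →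
      D.len (n + t) ω ≤ p.sh ^ (t - c) * D.len n ω) ∧
  (∀ r < p.R, p.lam r ≤ p.cap ∧ ∀ n ∈ p.grp r, n < p.J ∧ n < p.lam r ∧ p.lam r ≤ n + p.mu) ∧
  p.cap + p.N + 2 ≤ p.T ∧ p.cap + 1 = p.J + p.N ∧ p.R * p.L = p.J

-- deps: CHN
def S_ELL : Prop := All fun D p =>
  (∀ y ω, D.ell p y ω ≤ p.cap) ∧
  (∀ y y' ω, y ≤ y' → D.ell p y ω ≤ D.ell p y' ω) ∧
  (∀ y ω, D.ell p y ω < p.cap → D.len (D.ell p y ω) ω ≤ p.φ * (1 / 2) ^ (y + p.q)) ∧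
  (∀ y n ω z, D.ell p y ω ≤ n → n ≤ p.T → D.W n z = D.W n ω →
    D.ell p y z = D.ell p y ω ∧ D.W (D.ell p y z) z = D.W (D.ell p y ω) ω ∧
      D.th p y z = D.th p y ω) ∧
  (∀ y y' ω z, y ≤ y' → D.SS p y' z = D.SS p y' ω → D.SS p y z = D.SS p y ω) ∧
  (∀ y ω z, D.SS p y z = D.SS p y ω → D.th p y z = D.th p y ω) ∧
  ∀ r n y ω z, D.SS p y z = D.SS p y ω → D.cand p r n y ω → D.cand p r n y z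

-- deps: CHN ELL
def S_LAB : Prop := All fun D p => ∀ r < p.R, ∀ ω t, D.Lab p r ω t →
  D.cand p r t.1 t.2.2 ω ∧ D.len (D.ell p t.2.2 ω) ω ≤ p.φ * (1 / 2) ^ (t.2.2 + p.q) ∧
  D.len (r * p.L + p.L') ω < 32 * (1 / 2) ^ (t.2.2 + p.q) ∧
  16 * (1 / 2) ^ (t.2.2 + p.q) ≤ D.len (r * p.L) ω ∧
  ∀ z, D.W t.1 z = D.W t.1 ω → D.gd p r t.1 t.2.1 z → D.cand p r t.1 t.2.2 z ∧
    16 * (1 / 2) ^ (t.2.2 + p.q) ≤ |D.th p t.2.2 z - D.th p t.2.2 ω| ∧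
    |D.th p t.2.2 z - D.th p t.2.2 ω| ≤ 96 * (1 / 2) ^ (t.2.2 + p.q)

-- deps: CP CHN
def S_BS : Prop := All fun D p =>
  (∀ r ω, D.has p r ω → D.Lab p r ω (D.lab p r ω)) ∧
  (∀ r < p.R, ∀ ω z, D.pw (p.lam r) z = D.pw (p.lam r) ω → D.Lab p r z = D.Lab p r ω) ∧
  (∀ r ≤ p.R, ∀ ω z, D.pw (p.lv r) z = D.pw (p.lv r) ω → D.bs p r z = D.bs p r ω) ∧
  ∀ r ω y, D.bs p r ω = some y → ∃ r' < r, D.has p r' ω ∧ y = D.yl p r' ω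

-- deps: CHN
def S_YC : Prop := All fun D p => ∀ n < p.T, ∀ ω, ∃ F : Finset ℕ,
  (F.card : ℝ) ≤ 16 ^ p.κ ∧ ∀ y, D.cnd p n y ω → y ∈ F

-- deps:
def S_FLR : Prop := ∀ (v v' : ℝ) (k j : ℕ),
  (⌊v * 2 ^ (k + j)⌋ = ⌊v' * 2 ^ (k + j)⌋ → ⌊v * 2 ^ k⌋ = ⌊v' * 2 ^ k⌋) ∧
  (⌊v * 2 ^ k⌋ = ⌊v' * 2 ^ k⌋ → |v - v'| ≤ (1 / 2) ^ k) ∧
  (∀ t, ¬ near v k t → |v' - v| * 2 ^ k ≤ t → ⌊v' * 2 ^ k⌋ = ⌊v * 2 ^ k⌋) ∧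
  (4 ≤ |v - v'| * 2 ^ k → 3 ≤ |⌊v * 2 ^ k⌋ - ⌊v' * 2 ^ k⌋|) ∧
  ∃ F : Finset ℤ, F.card ≤ 2 ^ j ∧ ∀ w : ℝ, ⌊w * 2 ^ k⌋ = ⌊v * 2 ^ k⌋ → ⌊w * 2 ^ (k + j)⌋ ∈ F

-- deps: CHN FLR
def S_GEO : Prop := All fun D p => ∀ σ l u ω z, p.cap ≤ l → l + 2 ≤ p.T → D.sel l ω →
  D.tw l ω z → D.Sc p u ω z → D.xs p σ u ω →
  D.X0 σ u z = D.X0 σ u ω ∧ 3 ≤ |D.Tt p σ u z - D.Tt p σ u ω| ∧
  (∀ v, D.Nd (l + 2) v = D.Nd (l + 2) ω → D.X0 σ u v = D.X0 σ u ω) ∧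
  ∀ y, D.ell p y ω ≤ p.cap → D.len (D.ell p y ω) ω ≤ p.φ * (1 / 2) ^ (y + p.q) →
    |D.Pj (D.th p y ω) z - D.Pi p y ω| ≤ p.hh u y ∧
    ∀ v, D.Nd (l + 2) v = D.Nd (l + 2) ω → |D.Pj (D.th p y ω) v - D.Pi p y ω| ≤ p.hh u y

-- deps: CP CHN
def S_AG0 : Prop := All fun D p => ∀ n < p.T,
  D.Q.pr (fun ω => D.bq n ω ≤ 2 / 3 ∧ ¬ D.AG0 n ω) ≤ 13 * D.Q.pr (fun ω => ¬ D.clean n ω) ∧
  ∀ ω, D.AG0 n ω → D.par n ω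

-- deps: CP CHN AG0
def S_SELB : Prop := All fun D p => D.Wd p →
  D.Q.pr (fun ω => D.G0 p ω ∧ ∀ n < p.T, ¬ D.AG0 n ω) ≤ 26 * p.z1 * p.T / (p.g1 * p.N) ∧
  p.c0 * p.g1 * p.N / 2 - 14 * p.z1 * p.T ≤
    ∑ i ∈ range p.N, D.Q.pr fun ω => D.G0 p ω ∧ D.sel (p.cap + i) ω

-- deps: CHN
def S_SHK : Prop := All fun D p => D.Wd p →
  ∑ r ∈ range p.R, D.Q.pr (fun ω => ¬ D.shrk p r ω) ≤ p.z1 * p.T / (p.η * p.L) ∧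
  ∑ r ∈ range p.R, D.Q.pr (fun ω => ¬ D.deep p r ω) ≤ 4 * p.z1 * p.T / p.L

-- deps: CP CHN
def S_MKL : Prop := All fun D p => D.Nrm p → ∀ r < p.R, ∀ n ∈ p.grp r, ∀ ω, D.AG0 n ω →
  D.deep p r ω → cp D.Q (fun z => ¬ D.deep p r z) (D.pw n) ω ≤ 1 / 12 → D.has p r ω

-- deps: CHN DOOB SELB SHK MKL
def S_HAS : Prop := All fun D p => D.Nrm p → D.Wd p →
  ∑ r ∈ range p.R, D.Q.pr (fun ω => D.G0 p ω ∧ ¬ D.has p r ω) ≤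
    p.z1 * p.R + p.R * (26 * p.z1 * p.T / (p.g1 * p.N)) + 52 * p.z1 * p.T / p.L

-- deps: CP CHN CODE SUP
def S_KR : Prop := All fun D p => D.Wd p → ∀ l, l + 2 ≤ p.T →
  D.Q.pr (fun ω => ¬ D.kr p l ω) ≤ p.z1 * p.T / (p.η * p.J) + (2 : ℝ) ^ (-p.η * p.I * p.J)

-- deps: CHN
def S_CEN : Prop := All fun D p => ∀ (A : ℕ) (ev : ℕ → _ → Prop),
  D.Sm p A (fun _ u w => ev u w.1) ≤ 2 * ∑ u ∈ range A, D.Q.pr (ev u)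

-- deps: CHN
def S_TWN : Prop := All fun D p => ∀ (A : ℕ) (ev : ℕ → _ → Prop),
  D.Sm p A (fun _ u w => ev u w.2) ≤ 2 * p.M ^ 2 / p.ζ * ∑ u ∈ range A, D.Q.pr (ev u)

-- deps: CHN
def S_SM : Prop := All fun D p => ∀ A : ℕ,
  (∀ ev ev' : ℕ → ℕ → _ → Prop, (∀ l u w, p.cap ≤ l → l + 2 ≤ p.T → u < A → D.sel l w.1 →
    D.tw l w.1 w.2 → D.Sc p u w.1 w.2 → ev l u w → ev' l u w) → D.Sm p A ev ≤ D.Sm p A ev') ∧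
  (∀ ev ev' : ℕ → ℕ → _ → Prop,
    D.Sm p A (fun l u w => ev l u w ∨ ev' l u w) ≤ D.Sm p A ev + D.Sm p A ev') ∧
  (∀ ev : ℕ → _ → Prop, D.Sm p A (fun l _ w => ev l w.1) ≤
    ∑ i ∈ range p.N, D.Q.pr fun ω => D.sel (p.cap + i) ω ∧ ev (p.cap + i) ω) ∧
  (D.Nrm p → D.Rng p A → ∀ ev : ℕ → _ → Prop,
    (∑ i ∈ range p.N, D.Q.pr fun ω => D.sel (p.cap + i) ω ∧ ev (p.cap + i) ω) ≤
      D.Sm p A fun l _ w => ev l w.1) ∧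
  (∀ (S : Finset ℕ) (ev : ℕ → ℕ → ℕ → _ → Prop) (c : ℝ), 0 < c →
    D.Sm p A (fun l u w => c < ((S.filter fun r => ev r l u w).card : ℝ)) ≤
      (∑ r ∈ S, D.Sm p A (ev r)) / c) ∧
  ∀ (n : ℕ) (P : FP (Fin n)) (ev : Fin n → ℕ → ℕ → _ → Prop) (c : ℝ), 0 ≤ c →
    (∀ l u w, u < A → (P.pr fun i => ev i l u w) ≤ c) → (P.E fun i => D.Sm p A (ev i)) ≤ c * p.N

-- deps: CP FLR SEQ HVY
def S_LAMC : Prop := All fun D p => ∀ σ (A : ℕ),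
  (∀ ω, (((range A).filter fun u => D.Lam p σ u ω).card : ℝ) ≤ p.us) ∧
  ∑ u ∈ range A, D.Q.pr (D.Lam p σ u) ≤ p.us ∧
  ∀ u ω z, D.X0 σ u z = D.X0 σ u ω → D.Lam p σ u ω → D.Lam p σ u z

-- deps: CP FLR SEQ HVY GEO CHN CEN TWN SM
def S_NLAM : Prop := All fun D p => ∀ σ (A : ℕ),
  D.Sm p A (fun l u w => D.xs p σ u w.1 ∧ D.kr p l w.1 ∧ ¬ D.Lam p σ u w.1) ≤
    p.rr p.θ0 * (2 + 2 * p.M ^ 2 / p.ζ)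

-- deps: CP FLR SEQ YC CHN ELL
def S_RCT : Prop := All fun D p => ∀ σ σ' (A : ℕ), ∀ r < p.R, ∀ ω,
  (((range A).filter fun u => ∃ n ∈ p.grp r, ∃ y, D.cnd p n y ω ∧ D.flo p (D.At p σ σ' u y) ω ∧
    cq D.Q (D.Tt p σ u) (D.At p σ σ' u y) ω < p.θ1).card : ℝ) ≤ p.L' * 16 ^ p.κ * p.rr p.θ1

-- deps: CP FLR HVY GEO CHN ELL LAB BS CEN TWN SM RCT
def S_F5 : Prop := All fun D p => ∀ σ σ' (A : ℕ), ∀ r < p.R,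
  D.Sm p A (fun l u w => D.xs p σ u w.1 ∧ D.kr p l w.1 ∧ D.has p r w.1 ∧ ¬ D.f1 p σ' u r w.1 ∧
    D.f5 p σ σ' u r w.1) ≤ p.L' * 16 ^ p.κ * p.rr p.θ1 * (2 + 2 * p.M ^ 2 / p.ζ)

-- deps: CP CHN ELL LAB BS CODE SUP LAMC
def S_ZB : Prop := All fun D p => ∀ σ u,
  D.Q.pr (fun ω => D.Lam p σ u ω ∧ D.Zbig p σ u ω) ≤
    (2 : ℝ) ^ (-p.η * p.I * p.J) * D.Q.pr (D.Lam p σ u)

-- deps: CHN ELL LAB BS RES2 LAMC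
def S_F2 : Prop := All fun D p => ∀ σ u, ∀ r < p.R,
  D.Q.pr (fun ω => D.Lam p σ u ω ∧ D.has p r ω ∧ D.f2 p σ u r (D.lab p r ω) ω) ≤
    2 * p.δ' * p.L' * 4 ^ p.κ * D.Q.pr (D.Lam p σ u)

-- deps: HWM HWF HWS FLR CHN ELL LAMC
def S_STEP : Prop := All fun D p => ∀ σ σ' u y,
  Hw D.Q (fun ω => ind (D.Lam p σ u ω)) (D.Tt p σ u) (D.At p σ σ' u (y + p.s)) ≤
    Hw D.Q (fun ω => ind (D.Lam p σ u ω)) (D.Tt p σ u)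
      (fun ω => (D.Fi p σ' u y ω, D.At p σ σ' u y ω)) + D.FZ p σ σ' u y

-- deps: HWF HWS FLR LAMC STEP
def S_BUD1 : Prop := All fun D p => ∀ σ σ' u (A : ℕ),
  ∑ y ∈ range A, D.Dv p σ σ' (fun ω => ind (D.Lam p σ u ω)) u y ≤
    p.s * p.m * D.Q.pr (D.Lam p σ u) + ∑ y ∈ range A, D.FZ p σ σ' u y

-- deps: HWM HWF HWS FEW FLR CHN ELL
def S_BUD2 : Prop := All fun D p => ∀ σ σ' (A : ℕ), ∀ r < p.R, ∀ n ∈ p.grp r, ∀ y,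
  ∑ u ∈ range A, D.Dx p σ σ' u r n y ≤ p.m * (2 * p.mu * p.I) * D.Q.pr (D.cand p r n y)

-- deps: MPC HWM HWS PINS MID FLR CHN ELL LAMC
def S_NN : Prop := All fun D p => ∀ σ σ' u r n y,
  D.NN p σ σ' u r n y ≤ 16 / p.e ^ 2 *
    (D.Dv p σ σ' (fun ω => ind (D.Lam p σ u ω ∧ D.cand p r n y ω)) u y + D.Dx p σ σ' u r n y) +
    p.ε2 * 2 ^ (p.a + 2) * D.Q.pr fun ω => D.Lam p σ u ω ∧ D.cand p r n y ω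

-- deps: HWM HWS CHN ELL LAMC
def S_DVS : Prop := All fun D p => ∀ σ σ' u y,
  ∑ r ∈ range p.R, ∑ n ∈ p.grp r,
    D.Dv p σ σ' (fun ω => ind (D.Lam p σ u ω ∧ D.cand p r n y ω)) u y ≤
      p.mu * D.Dv p σ σ' (fun ω => ind (D.Lam p σ u ω)) u y

-- deps: CHN YC LAMC BUD1 BUD2 NN DVS
def S_NNS : Prop := All fun D p => ∀ σ σ' (A : ℕ),
  ∑ r ∈ range p.R, ∑ u ∈ range A, ∑ n ∈ p.grp r, ∑ y ∈ range A, D.NN p σ σ' u r n y ≤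
    16 / p.e ^ 2 * (p.bud0 + p.mu * ∑ u ∈ range A, ∑ y ∈ range A, D.FZ p σ σ' u y) +
      p.ε2 * 2 ^ (p.a + 2) * p.us * p.J * 16 ^ p.κ

-- deps: CP MPC CHN ELL LAB BS RES1 LAMC
def S_F4 : Prop := All fun D p => ∀ σ σ' u (A : ℕ), D.Rng p A → ∀ r < p.R,
  D.Q.pr (fun ω => D.Lam p σ u ω ∧ D.has p r ω ∧ D.f4 p σ σ' u r (D.lab p r ω) ω) ≤
    16 / (p.δ * p.δ') * ∑ n ∈ p.grp r, ∑ y ∈ range A, D.NN p σ σ' u r n y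

-- deps: CP MPC FLR CHN ELL LAB
def S_CLF : Prop := All fun D p => ∀ σ σ' u, ∀ r < p.R, ∀ ω t w, D.Lab p r ω t →
  ¬ D.uns p σ' u t.2.2 ω ω → ¬ heavy D.Q p.θ1 (D.Tt p σ u) (D.At p σ σ' u t.2.2) ω →
  0 < (D.Q2 t.1).p w → D.E0 p σ u r t ω w → ¬ D.uns p σ' u t.2.2 ω w.2 →
  D.nice1 p σ σ' u r t.1 t.2.2 w → D.nice1 p σ σ' u r t.1 t.2.2 w.swap →
    ((D.Q2 t.1).pr fun v => D.Ball p σ u r t.2.2 (p.hh u t.2.2) ω v.1 ∧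
        D.W (p.lam r) v.2 = D.W (p.lam r) w.2) ≤
      2 ^ (p.a + p.m + 9) / 2 ^ p.q * (D.Q2 t.1).pr fun v =>
        D.Ball p σ u r t.2.2 (p.rho u t.2.2) ω v.1 ∧ D.W (p.lam r) v.2 = D.W (p.lam r) w.2

-- deps: CP CHN BS CLF
def S_FULL : Prop := All fun D p => ∀ σ σ' u, ∀ r < p.R, ∀ ω, D.has p r ω → ¬ D.f1 p σ' u r ω →
  ¬ D.f2 p σ u r (D.lab p r ω) ω → ¬ D.f3 p σ σ' u r (D.lab p r ω) ω →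
  ¬ D.f4 p σ σ' u r (D.lab p r ω) ω → ¬ D.f5 p σ σ' u r ω → D.Full p σ u r (D.yl p r ω) ω

-- deps: FLR CHN ELL LAB BS
def S_BALL : Prop := All fun D p => ∀ σ u, ∀ r < p.R, ∀ ω,
  D.Mm p σ u (r + 1) ω ≤ (if D.good p σ u r ω then p.gn else 1) * D.Mn p σ u r ω

-- deps: CP CHN
def S_BRP : Prop := All fun D p => ∀ ω, D.G0 p ω →
  ∏ r ∈ range p.R, cq D.Q (D.W (p.lv (r + 1))) (D.pw (p.lv r)) ω ≤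
    (2 : ℝ) ^ (-(2 * p.g1 * p.κ * p.J))

-- deps: CP CHN ELL LAB BS GEO BALL BRP
def S_END : Prop := All fun D p => ∀ σ l u ω z, p.cap ≤ l → l + 2 ≤ p.T → D.sel l ω →
  D.tw l ω z → D.Sc p u ω z → D.xs p σ u ω → D.kr p l ω → D.G0 p ω → ¬ D.Zbig p σ u ω →
    3 * p.η * p.R < (((range p.R).filter fun r => ¬ D.good p σ u r ω).card : ℝ)

-- deps: CHN ELL LAMC
def S_AVZ : Prop := All fun D p => ∀ σ (A n : ℕ) (P : FP (Fin n)) (sg : Fin n → ℝ),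
  (∀ k ≤ 2 * A + p.m + p.q, ∀ v : ℝ, (P.pr fun i => near (v - sg i) k p.φ3) ≤ 3 * p.φ3) →
    (P.E fun i => ∑ u ∈ range A, ∑ y ∈ range A, D.FZ p σ (sg i) u y) ≤ p.fz

-- deps: CHN BS LAB SM
def S_AV3 : Prop := All fun D p => ∀ σ (A n : ℕ) (P : FP (Fin n)) (sg : Fin n → ℝ), D.Rng p A →
  (∀ k ≤ 2 * A + p.m + p.q, ∀ v : ℝ, (P.pr fun i => near (v - sg i) k (8 / 2 ^ p.a)) ≤
    24 / 2 ^ p.a) → ∀ r < p.R,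
    (P.E fun i => D.Sm p A fun _ u w => D.has p r w.1 ∧ D.f1 p (sg i) u r w.1) ≤
      24 / 2 ^ p.a * p.N ∧
    (P.E fun i => D.Sm p A fun _ u w => D.has p r w.1 ∧ D.f3 p σ (sg i) u r (D.lab p r w.1) w.1) ≤
      48 / 2 ^ p.a * p.N

-- deps: CHN SM CEN SHK HAS F2 F4 F5 NNS LAMC FULL
def S_GRP : Prop := All fun D p => D.Nrm p → D.Wd p → ∀ σ σ' (A : ℕ), D.Rng p A →
  ∑ r ∈ range p.R, D.Sm p A (fun l u w => D.G0 p w.1 ∧ D.xs p σ u w.1 ∧ D.kr p l w.1 ∧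
      D.Lam p σ u w.1 ∧ ¬ D.good p σ u r w.1) ≤
    (∑ r ∈ range p.R, D.Sm p A fun _ u w => D.has p r w.1 ∧ D.f1 p σ' u r w.1) +
    (∑ r ∈ range p.R, D.Sm p A fun _ u w =>
      D.has p r w.1 ∧ D.f3 p σ σ' u r (D.lab p r w.1) w.1) +
    32 / (p.δ * p.δ') * (16 / p.e ^ 2 *
      (p.bud0 + p.mu * ∑ u ∈ range A, ∑ y ∈ range A, D.FZ p σ σ' u y) +
      p.ε2 * 2 ^ (p.a + 2) * p.us * p.J * 16 ^ p.κ) + 4 * p.τ * p.N * p.R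

-- deps: CHN SM CEN SELB KR NLAM ZB LAMC END
def S_FIX : Prop := All fun D p => D.Nrm p → D.Wd p → ∀ σ (A : ℕ), D.Rng p A →
  p.c0 * p.g1 * p.N / 2 ≤ D.Sm p A (fun _ u w => ¬ D.xs p σ u w.1) +
    (∑ r ∈ range p.R, D.Sm p A fun l u w => D.G0 p w.1 ∧ D.xs p σ u w.1 ∧ D.kr p l w.1 ∧
      D.Lam p σ u w.1 ∧ ¬ D.good p σ u r w.1) / (3 * p.η * p.R) + 5 * p.τ * p.N

-- deps:
def S_RNG : Prop := All fun D p => ∃ A, D.Rng p A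

-- deps: SHIFT SM RNG AVZ AV3 GRP FIX
def S_WIN : Prop := All fun D p => D.Nrm p → D.Wd p → False

end process

-- deps:
def S_SCL : Prop := ∀ (Ω α β : Type) [Fintype Ω] (D : PD Ω α β) (p : Par), D.Ok p → D.Wd p →
  ∃ b c : ℝ, (D.scale b c).Ok p ∧ (D.scale b c).Wd p ∧ (D.scale b c).Nrm p

-- deps:
def S_SFT : Prop := ∀ (Ω α β : Type) [Fintype Ω] (D : PD Ω α β) (nB I κ M k T : ℕ) (ζ : ℝ),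
  k + T ≤ nB → D.Str nB I κ M ζ → (D.shift k).Str T I κ M ζ

-- deps: CP CODE
def S_BH : Prop := ∀ (Ω α β : Type) [Fintype Ω] (D : PD Ω α β) (κ n : ℕ),
  Few D.Q (D.V1 n) (D.W n) (2 ^ κ) → D.Q.Hc (D.V1 n) (D.pw n) - 1 ≤ D.Q.E (D.bh κ n)

-- deps: CP SQ BH
def S_G0 : Prop := ∀ (Ω α β : Type) [Fintype Ω] (D : PD Ω α β) (p : Par) (nB : ℕ) (g : ℝ),
  p.OK → D.Str nB p.I p.κ p.M p.ζ → D.Br nB p.κ g → 0 < g → g ≤ 1 → 4 ≤ g * p.κ →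
  p.g1 ≤ g ^ 2 / 256 → 1024 ≤ g ^ 2 * p.Λ → 1024 * (p.Λ + 3) * p.N ≤ g ^ 2 * nB →
    g ^ 2 / 128 * nB ≤ ∑ k ∈ range nB, D.Q.pr ((D.shift k).G0 p)

-- deps: SFT G0
def S_PICK : Prop := ∀ (Ω α β : Type) [Fintype Ω] (D : PD Ω α β) (p : Par) (nB : ℕ) (g : ℝ),
  p.OK → D.Str nB p.I p.κ p.M p.ζ → D.Rare nB p.I p.η p.ζ → D.Br nB p.κ g → 0 < g → g ≤ 1 →
  4 ≤ g * p.κ → p.g1 ≤ g ^ 2 / 256 → p.c0 ≤ g ^ 2 / 512 → 1024 ≤ g ^ 2 * p.Λ →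
  8192 * p.ζ ≤ g ^ 2 * p.z1 → 1024 * (p.Λ + 3) * p.N ≤ g ^ 2 * p.ζ * nB →
  D.piv nB p.L' - D.piv nB p.T ≤ p.ζ * nB →
    ∃ k, (D.shift k).Ok p ∧ (D.shift k).Wd p

-- deps:
def S_PAR : Prop := ∀ (g : ℝ) (w : ℕ), 0 < g → g ≤ 1 → 2 ≤ w →
  ∃ (η ζ : ℝ) (κ₀ : ℕ), 0 < η ∧ η ≤ 1 ∧ 0 < ζ ∧ ζ ≤ 1 ∧
    ∀ κ M : ℕ, κ₀ ≤ κ → 1 ≤ M → M ^ 3 ≤ 2 ^ (w * κ) → ∀ L₀ : ℕ, ∃ p : Par, p.OK ∧
      p.I = w * κ ∧ p.κ = κ ∧ p.M = M ∧ p.η = η ∧ p.ζ = ζ ∧ L₀ ≤ p.L' ∧ p.L' ≤ p.T ∧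
      4 ≤ g * p.κ ∧ p.g1 ≤ g ^ 2 / 256 ∧ p.c0 ≤ g ^ 2 / 512 ∧ 1024 ≤ g ^ 2 * p.Λ ∧
      8192 * p.ζ ≤ g ^ 2 * p.z1

-- deps: WIN SCL PICK PAR
def S_BFIN : Prop := S_CORE

end Pool.Agent.P.MP_77a832_co.EL
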