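import Pool.Agent.P.MP_77a832_co.EL.Cdf

/-! Covering, resampling and averaging lemmas for balls inside classes. -/

set_option autoImplicit false

namespace Pool.Agent.P.MP_77a832_co.EL

open Finset Real Pool.Agent.P.MP_bf60a1_an.RA
open scoped Classical

variable {Ω Ω' β γ : Type} [Fintype Ω] [Fintype Ω']

/-- ball of radius `t` for the coordinate `a`, inside the class of `C` -/
def bl (C : Ω → γ) (a : Ω → ℝ) (t : ℝ) (ω z : Ω) : Prop := C z = C ω ∧ |a z - a ω| ≤ t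

theorem E_cp (P : FP Ω) (s : Ω → Prop) (V : Ω → β) {φ : Ω → ℝ} (hφ : P.Det V φ) :
    (P.E fun ω => φ ω * cp P s V ω) = P.E fun ω => φ ω * ind (s ω) := by
  have h1 : (P.E fun ω => φ ω * cp P s V ω) =
      P.E fun ω => P.E fun z => φ ω * ind (s z ∧ V z = V ω) / P.cl V ω :=
    P.E_congr fun ω _ => by rw [P.E_div, P.E_mul_left, cp, mul_div_assoc]; rfl
  rw [h1, P.E_comm]
  refine P.E_congr fun z hz => ?_
  have h2 : (P.E fun ω => φ ω * ind (s z ∧ V z = V ω) / P.cl V ω) =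
      P.E fun ω => φ z * ind (s z) / P.cl V z * ind (V ω = V z) := by
    refine P.E_congr fun ω hω => ?_
    by_cases h : V ω = V z
    · have : P.cl V ω = P.cl V z := by unfold FP.cl; rw [h]
      rw [this, hφ ω z hω hz h, ind_and, ind_pos h, ind_pos h.symm]; ring
    · rw [ind_neg h, ind_neg fun h' => h h'.2.symm]; simp
  rw [h2, P.E_mul_left]
  exact div_mul_cancel₀ _ (P.cl_pos V hz).ne'

theorem pr_cp (P : FP Ω) (s G : Ω → Prop) (V : Ω → β) (hG : P.Det V G) :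
    (P.pr fun ω => G ω ∧ s ω) = P.E fun ω => ind (G ω) * cp P s V ω := by
  rw [E_cp P s V fun ω z h1 h2 h => by rw [hG ω z h1 h2 h]]
  exact P.E_congr fun ω _ => ind_and _ _

theorem cp_nonneg (P : FP Ω) (s : Ω → Prop) (V : Ω → β) (ω : Ω) : 0 ≤ cp P s V ω :=
  div_nonneg (P.pr_nonneg _) (P.cl_nonneg _ _)

theorem cp_le_one (P : FP Ω) (s : Ω → Prop) (V : Ω → β) (ω : Ω) : cp P s V ω ≤ 1 :=
  div_le_one_of_le₀ (P.pr_mono fun _ _ h => h.2) (P.cl_nonneg _ _)

theorem E_ind_div (P : FP Ω) (S : Ω → Prop) : (P.E fun ω => ind (S ω) / P.pr S) ≤ 1 := by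
  rw [P.E_div]; exact div_self_le_one _

theorem floor_close {u v t : ℝ} (ht : 0 < t) (h : ⌊u / t⌋ = ⌊v / t⌋) : |u - v| ≤ t := by
  have h1 := Int.floor_le (u / t)
  have h2 := Int.lt_floor_add_one (u / t)
  have h3 := Int.floor_le (v / t)
  have h4 := Int.lt_floor_add_one (v / t)
  rw [h] at h1 h2
  have h5 : |u / t - v / t| ≤ 1 := abs_le.2 ⟨by linarith, by linarith⟩
  rwa [← sub_div, abs_div, abs_of_pos ht, div_le_one ht] at h5

theorem floor_near {u v t H : ℝ} (ht : 0 < t) (h : |u - v| ≤ H) :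
    |((⌊u / t⌋ : ℤ) : ℝ) - ⌊v / t⌋| < H / t + 1 := by
  have h1 := Int.floor_le (u / t)
  have h2 := Int.lt_floor_add_one (u / t)
  have h3 := Int.floor_le (v / t)
  have h4 := Int.lt_floor_add_one (v / t)
  have h5 : |u / t - v / t| ≤ H / t := by
    rw [← sub_div, abs_div, abs_of_pos ht]; exact div_le_div_of_nonneg_right h ht.le
  have h6 := abs_le.1 h5
  exact abs_lt.2 ⟨by linarith, by linarith⟩

theorem near3 (P : FP Ω) (C : Ω → γ) (a : Ω → ℝ) {t : ℝ} (ht : 0 < t) (S : Ω → Prop)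
    {d : Ω → ℝ} (hd : ∀ ω, 0 < P.p ω → S ω → P.pr (fun z => S z ∧ bl C a t ω z) ≤ d ω) (z : Ω) :
    (P.E fun ω => ind (S ω ∧ bl C a t ω z) / d ω) ≤ 3 := by
  set g : Ω → ℤ := fun ω => ⌊a ω / t⌋
  set S' : ℤ → Ω → Prop := fun k ω => S ω ∧ C ω = C z ∧ g ω = k
  have h1 : (P.E fun ω => ind (S ω ∧ bl C a t ω z) / d ω) ≤
      P.E fun ω => ∑ k ∈ Icc (g z - 1) (g z + 1), ind (S' k ω) / P.pr (S' k) := by
    refine P.E_mono fun ω hω => ?_
    have nn : ∀ k ∈ Icc (g z - 1) (g z + 1), 0 ≤ ind (S' k ω) / P.pr (S' k) := fun k _ =>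
      div_nonneg (ind_nonneg _) (P.pr_nonneg _)
    by_cases h : S ω ∧ bl C a t ω z
    · have h2 := floor_near ht h.2.2
      rw [div_self ht.ne'] at h2
      have h3 : |g z - g ω| < 2 := by
        have : |((g z : ℤ) : ℝ) - g ω| < 2 := by linarith
        exact_mod_cast this
      have h4 := abs_lt.1 h3
      have hm : g ω ∈ Icc (g z - 1) (g z + 1) := mem_Icc.2 ⟨by omega, by omega⟩
      refine le_trans ?_ (single_le_sum nn hm)
      have h5 : S' (g ω) ω := ⟨h.1, h.2.1.symm, rfl⟩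
      rw [ind_pos h, ind_pos h5]
      refine one_div_le_one_div_of_le (P.pr_pos hω h5) (le_trans ?_ (hd ω hω h.1))
      exact P.pr_mono fun v _ hv => ⟨hv.1, hv.2.1.trans h.2.1, floor_close ht hv.2.2⟩
    · rw [ind_neg h, zero_div]; exact sum_nonneg nn
  rw [P.E_sum] at h1
  refine h1.trans ((sum_le_card_nsmul _ _ 1 fun k _ => E_ind_div P _).trans ?_)
  rw [Int.card_Icc, show g z + 1 + 1 - (g z - 1) = 3 by ring]; norm_num

/-- RES: resampling inside the ball has density at most three -/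
theorem res3 (P : FP Ω) (C : Ω → γ) (a : Ω → ℝ) {t : ℝ} (ht : 0 < t) {φ : Ω → ℝ}
    (hφ : ∀ z, 0 < P.p z → 0 ≤ φ z) :
    (P.E fun ω => (P.E fun z => ind (bl C a t ω z) * φ z) / P.pr (bl C a t ω)) ≤ 3 * P.E φ := by
  have h1 : (P.E fun ω => (P.E fun z => ind (bl C a t ω z) * φ z) / P.pr (bl C a t ω)) =
      P.E fun ω => P.E fun z => ind (True ∧ bl C a t ω z) / P.pr (bl C a t ω) * φ z :=
    P.E_congr fun ω _ => by
      rw [← P.E_div]; exact P.E_congr fun z _ => by rw [true_and]; ring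
  rw [h1, P.E_comm, ← P.E_mul_left]
  refine P.E_mono fun z hz => ?_
  rw [P.E_mul_right]
  exact mul_le_mul_of_nonneg_right (near3 P C a ht (fun _ => True)
    (fun ω _ _ => P.pr_mono fun _ _ h => h.2) z) (hφ z hz)

/-- COVER: points of `A` whose ball sees little of `A` are rare -/
theorem cover3 (P : FP Ω) (C : Ω → γ) (a : Ω → ℝ) {t : ℝ} (ht : 0 < t) (La A : Ω → Prop)
    (hL : P.Det C La) {δ : ℝ} (hδ : 0 ≤ δ) :
    (P.pr fun ω => La ω ∧ A ω ∧ P.pr (fun z => A z ∧ bl C a t ω z) < δ * P.pr (bl C a t ω)) ≤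
      3 * δ * P.pr La := by
  set S : Ω → Prop := fun ω => La ω ∧ A ω ∧
    P.pr (fun z => A z ∧ bl C a t ω z) < δ * P.pr (bl C a t ω)
  set d : Ω → ℝ := fun ω => P.pr fun z => A z ∧ bl C a t ω z
  have h1 : P.pr S ≤ P.E fun ω => P.E fun z => ind (S ω ∧ bl C a t ω z) / d ω * δ := by
    refine P.E_mono fun ω hω => ?_
    by_cases h : S ω
    · have h2 : 0 < d ω := P.pr_pos hω ⟨h.2.1, rfl, by simpa using ht.le⟩
      have h3 : (P.E fun z => ind (S ω ∧ bl C a t ω z) / d ω * δ) =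
          δ * P.pr (bl C a t ω) / d ω := by
        rw [P.E_mul_right, P.E_div]
        have : (P.E fun z => ind (S ω ∧ bl C a t ω z)) = P.pr (bl C a t ω) :=
          P.pr_congr fun z _ => by simp [h]
        rw [this]; ring
      rw [ind_pos h, h3, one_le_div h2]
      exact h.2.2.le
    · rw [ind_neg h]
      exact P.E_nonneg fun z _ => mul_nonneg (div_nonneg (ind_nonneg _) (P.pr_nonneg _)) hδ
  rw [P.E_comm] at h1
  refine h1.trans ?_
  rw [FP.pr, ← P.E_mul_left]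
  refine P.E_mono fun z hz => ?_
  rw [P.E_mul_right]
  by_cases h : La z
  · rw [ind_pos h, mul_one]
    exact mul_le_mul_of_nonneg_right (near3 P C a ht S
      (fun ω _ _ => P.pr_mono fun _ _ h => ⟨h.1.2.1, h.2⟩) z) hδ
  · have : (P.E fun ω => ind (S ω ∧ bl C a t ω z) / d ω) = P.E fun _ => 0 :=
      P.E_congr fun ω hω => by
        have h4 : ¬ (S ω ∧ bl C a t ω z) := fun h' => h (by rw [hL z ω hz hω h'.2.1]; exact h'.1.1)
        rw [ind_neg h4, zero_div]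
    rw [this, P.E_const, ind_neg h]; simp

/-- values of small conditional mass are rare -/
theorem few_small (P : FP Ω) {Z : Ω → β} {V : Ω → γ} {N ε : ℝ} (La : Ω → Prop)
    (hL : P.Det V La) (hε : 0 ≤ ε)
    (hF : ∀ ω, 0 < P.p ω → La ω → ∃ F : Finset β, (F.card : ℝ) ≤ N ∧
      ∀ z, 0 < P.p z → V z = V ω → Z z ∈ F) :
    (P.pr fun ω => La ω ∧ cq P Z V ω < ε) ≤ ε * N * P.pr La := by
  rw [pr_cp P _ La V hL, FP.pr, ← P.E_mul_left]
  refine P.E_mono fun ω hω => ?_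
  by_cases h : La ω
  · obtain ⟨F, hc, hF⟩ := hF ω hω h
    rw [ind_pos h, one_mul, mul_one, cp, div_le_iff₀ (P.cl_pos V hω)]
    have h1 : (P.pr fun z => cq P Z V z < ε ∧ V z = V ω) ≤
        P.pr fun z => ∃ b ∈ F, Z z = b ∧ V z = V ω ∧ cq P Z V z < ε :=
      P.pr_mono fun z hz h => ⟨Z z, hF z hz h.2, rfl, h.2, h.1⟩
    refine h1.trans ((P.pr_exists_le F _).trans ?_)
    refine (sum_le_card_nsmul _ _ (ε * P.cl V ω) fun b _ => ?_).trans ?_
    · by_cases h2 : ∃ z, 0 < P.p z ∧ Z z = b ∧ V z = V ω ∧ cq P Z V z < ε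
      · obtain ⟨z, hz, h3, h4, h5⟩ := h2
        rw [cq, cp, div_lt_iff₀ (P.cl_pos V hz)] at h5
        have h6 : P.cl V z = P.cl V ω := by unfold FP.cl; rw [h4]
        rw [h6] at h5
        exact le_trans (P.pr_mono fun v _ hv => ⟨hv.1.trans h3.symm, hv.2.1.trans h4.symm⟩) h5.le
      · rw [P.pr_eq_zero fun z hz h3 => h2 ⟨z, hz, h3⟩]
        exact mul_nonneg hε (P.cl_nonneg _ _)
    · rw [nsmul_eq_mul]
      have := mul_le_mul_of_nonneg_right hc (mul_nonneg hε (P.cl_nonneg V ω))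
      linarith
  · rw [ind_neg h]; simp

/-- NICE: the ball of a typical point carries a fair part of the coarse cell -/
theorem nice_rare (P : FP Ω) (K : Ω → γ) (b : Ω → ℝ) {t H ε : ℝ} (ht : 0 < t) (hH : 0 ≤ H)
    (hε : 0 ≤ ε) (La : Ω → Prop) (hL : P.Det K La)
    (hK : ∀ ω z, 0 < P.p ω → 0 < P.p z → La ω → K z = K ω → |b z - b ω| ≤ H) :
    (P.pr fun ω => La ω ∧ P.pr (bl K b t ω) < ε * P.cl K ω) ≤ ε * (2 * (H / t) + 3) * P.pr La := by
  refine le_trans ?_ (few_small P (Z := fun ω => ⌊b ω / t⌋) (V := K) La hL hε fun ω hω h => ?_)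
  · refine P.pr_mono fun ω hω h => ⟨h.1, ?_⟩
    rw [cq, cp, div_lt_iff₀ (P.cl_pos K hω)]
    exact lt_of_le_of_lt (P.pr_mono fun z _ hz => ⟨hz.2, floor_close ht hz.1⟩) h.2
  · obtain ⟨F, h1, h2⟩ := exists_int_box ((⌊b ω / t⌋ : ℤ) : ℝ) (M := H / t + 1) (by positivity)
    exact ⟨F, by linarith, fun z hz h3 => h2 _ (floor_near ht (hK ω z hω hz h h3)).le⟩

/-- summing an inequality over the classes that meet an event -/
theorem class_sum (P : FP Ω) (D : Ω → β) (G s s' : Ω → Prop) {k c : ℝ} (hk : 0 ≤ k) (hc : 0 ≤ c)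
    (hG : ∀ x, 0 < P.p x → G x → s x ∧
      k * P.pr (fun z => D z = D x ∧ s z) ≤ c * P.pr fun z => D z = D x ∧ s' z) :
    k * P.pr G ≤ c * P.pr s' := by
  set G' : Ω → Prop := fun z => ∃ x, 0 < P.p x ∧ G x ∧ D z = D x
  have hd : P.Det D G' := fun ω z _ _ h => by simp only [G', h]
  have h1 : P.pr G ≤ P.pr fun z => G' z ∧ s z :=
    P.pr_mono fun x hx h => ⟨⟨x, hx, h, rfl⟩, (hG x hx h).1⟩
  have h2 : (P.pr fun z => G' z ∧ s' z) ≤ P.pr s' := P.pr_mono fun _ _ h => h.2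
  have h3 : k * (P.pr fun z => G' z ∧ s z) ≤ c * P.pr fun z => G' z ∧ s' z := by
    rw [pr_cp P s G' D hd, pr_cp P s' G' D hd, ← P.E_mul_left, ← P.E_mul_left]
    refine P.E_mono fun ω hω => ?_
    by_cases h : G' ω
    · obtain ⟨x, hx, h4, h5⟩ := h
      have h6 := (hG x hx h4).2
      rw [ind_pos ⟨x, hx, h4, h5⟩, one_mul, one_mul, cp, cp, ← mul_div_assoc, ← mul_div_assoc]
      refine div_le_div_of_nonneg_right ?_ (P.cl_nonneg _ _)
      simp only [h5, and_comm] at h6 ⊢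
      exact h6
    · rw [ind_neg h]; simp
  nlinarith [mul_le_mul_of_nonneg_left h1 hk, mul_le_mul_of_nonneg_left h2 hc]

/-- a random grid rarely cuts more than half of a fixed event -/
theorem half_rare (P : FP Ω) (S : FP Ω') (E₀ : Ω → Prop) (nb : Ω' → Ω → Prop) {c : ℝ}
    (hc : 0 ≤ c) (h : ∀ x, 0 < P.p x → E₀ x → (S.pr fun s => nb s x) ≤ c) :
    (S.pr fun s => P.pr E₀ / 2 < P.pr fun x => E₀ x ∧ nb s x) ≤ 2 * c := by
  rcases (P.pr_nonneg E₀).eq_or_lt with h0 | h0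
  · rw [S.pr_eq_zero fun s _ h1 => ?_]
    · linarith
    · have : (P.pr fun x => E₀ x ∧ nb s x) ≤ P.pr E₀ := P.pr_mono fun _ _ h => h.1
      linarith
  have h1 : (S.E fun s => P.pr fun x => E₀ x ∧ nb s x) ≤ c * P.pr E₀ := by
    unfold FP.pr
    rw [S.E_comm, ← P.E_mul_left]
    refine P.E_mono fun x hx => ?_
    by_cases hE : E₀ x
    · rw [ind_pos hE, mul_one]
      exact le_trans (S.pr_mono fun _ _ h => h.2) (h x hx hE)
    · rw [ind_neg hE, mul_zero]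
      exact (S.pr_eq_zero fun _ _ h => hE h.1).le
  have h2 := S.markov (f := fun s => P.pr fun x => E₀ x ∧ nb s x) (c := P.pr E₀ / 2)
    (fun _ _ => P.pr_nonneg _) (by linarith)
  refine le_trans (S.pr_mono fun _ _ h => h.le) (h2.trans ?_)
  rw [div_le_iff₀ (by linarith)]; linarith

end Pool.Agent.P.MP_77a832_co.EL
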