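import Pool.Agent.P.MP_77a832_co.EL.BIface
import Pool.Agent.P.MP_77a832_co.EL.BudEnt

/-! Measurability of the weights of the budgets. -/

set_option autoImplicit false

namespace Pool.Agent.P.MP_77a832_co.EL.Bud

open Finset Real Pool.Agent.P.MP_bf60a1_an.RA
open scoped Classical

variable {Ω Ω' α β γ ζ : Type} [Fintype Ω] [Fintype Ω']

theorem det_ind (P : FP Ω) {V : Ω → β} {s : Ω → Prop} (h : P.Det V s) :
    P.Det V fun ω => ind (s ω) := fun a b ha hb e => congrArg ind (h a b ha hb e)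

theorem det_trans (P : FP Ω) {U : Ω → α} {V : Ω → β} {W : Ω → γ} (h : P.Det U V)
    (h' : P.Det V W) : P.Det U W := fun a b ha hb e => h' a b ha hb (h a b ha hb e)

theorem det_mp (P : FP Ω) {P' : FP Ω'} {ϖ : Ω' → Ω} (h : FP.MP P' P ϖ) {U : Ω → α} {V : Ω → β}
    (hd : P.Det U V) : P'.Det (fun x => U (ϖ x)) fun x => V (ϖ x) :=
  fun _ _ ha hb e => hd _ _ (h.pos ha) (h.pos hb) e

theorem det_and (P : FP Ω) {V : Ω → β} {s t : Ω → Prop} (h : P.Det V s) (h' : P.Det V t) :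
    P.Det V fun ω => s ω ∧ t ω := fun a b ha hb e => by
  simp only [h a b ha hb e, h' a b ha hb e]

theorem Hw_le_add' (P : FP Ω) {φ : Ω → ℝ} (h0 : ∀ ω, 0 < P.p ω → 0 ≤ φ ω) (G : Ω → α)
    (Z : Ω → β) (C : Ω → γ) :
    Hw P φ G C ≤ Hw P φ Z C + Hw P φ G fun ω => (Z ω, C ω) := by
  have h1 := Hw_symm P φ G Z C
  have h2 := Hw_nonneg P h0 Z fun ω => (G ω, C ω)
  linarith

theorem Hw_le_log (P : FP Ω) {s : Ω → Prop} {Z : Ω → α} {V : Ω → β} (hs : P.Det V s) {N : ℝ}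
    (h : ∀ ω, 0 < P.p ω → s ω → ∃ F : Finset α, (F.card : ℝ) ≤ N ∧
      ∀ z, 0 < P.p z → V z = V ω → Z z ∈ F) :
    Hw P (fun ω => ind (s ω)) Z V ≤ log N * P.pr s := by
  have := Hw_le_E P (U := V) (N := fun _ => N) (Z := Z) (V := V) (det_ind P hs)
    (fun _ _ _ _ h => h) (fun _ _ => ind_nonneg _) fun ω hω h0 =>
      h ω hω (by by_contra h1; exact h0 (ind_neg h1))
  rwa [FP.E_mul_right, mul_comm] at this

theorem log_two_le : log 2 ≤ 1 := by linarith [log_le_sub_one_of_pos (two_pos (α := ℝ))]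

theorem sum_pr (P : FP Ω) {ι : Type} (S : Finset ι) (s : ι → Ω → Prop) :
    ∑ i ∈ S, P.pr (s i) = P.E fun ω => ((S.filter fun i => s i ω).card : ℝ) := by
  unfold FP.pr
  rw [← FP.E_sum]
  refine P.E_congr fun ω _ => ?_
  simp only [ind, sum_boole]

variable {D : PD Ω α β} {p : Par}

theorem at_eq {σ σ' : ℝ} {u y : ℕ} {ω z : Ω} (h : D.At p σ σ' u y z = D.At p σ σ' u y ω) :
    D.X σ u z = D.X σ u ω ∧ D.SS p y z = D.SS p y ω ∧
      D.cel p σ' (u + p.m + y) y z = D.cel p σ' (u + p.m + y) y ω := by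
  simpa only [PD.At, Prod.mk.injEq] using h

theorem ss_eq {y : ℕ} {ω z : Ω} (h : D.SS p y z = D.SS p y ω) :
    D.Nd 0 z = D.Nd 0 ω ∧ D.ell p y z = D.ell p y ω ∧
      D.W (D.ell p y z) z = D.W (D.ell p y ω) ω := by
  simpa only [PD.SS, Prod.mk.injEq] using h

theorem at_X0 {σ σ' : ℝ} {u y : ℕ} {ω z : Ω} (h : D.At p σ σ' u y z = D.At p σ σ' u y ω) :
    D.X0 σ u z = D.X0 σ u ω := Prod.ext (ss_eq (at_eq h).2.1).1 (at_eq h).1

theorem dLam (hL : S_LAMC) (hD : D.Ok p) (σ σ' : ℝ) (u y : ℕ) :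
    D.Q.Det (D.At p σ σ' u y) (D.Lam p σ u) := fun a b _ _ e =>
  propext ⟨(hL _ _ _ D p hD σ 0).2.2 u a b (at_X0 e).symm,
    (hL _ _ _ D p hD σ 0).2.2 u b a (at_X0 e)⟩

theorem dCand (hE : S_ELL) (hD : D.Ok p) (σ σ' : ℝ) (u r n y : ℕ) :
    D.Q.Det (D.At p σ σ' u y) (D.cand p r n y) := fun a b _ _ e =>
  propext ⟨(hE _ _ _ D p hD).2.2.2.2.2.2 r n y a b (at_eq e).2.1.symm,
    (hE _ _ _ D p hD).2.2.2.2.2.2 r n y b a (at_eq e).2.1⟩

theorem fewT (hF : S_FLR) (σ σ' : ℝ) (u y : ℕ) :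
    Few D.Q (D.Tt p σ u) (D.At p σ σ' u y) (2 ^ p.m) := fun ω _ => by
  obtain ⟨F, a, b⟩ := (hF (D.xx ω - σ) 0 u p.m).2.2.2.2
  exact ⟨F, by exact_mod_cast a, fun z _ e => b _ (at_eq e).1⟩

end Pool.Agent.P.MP_77a832_co.EL.Bud
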