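import Pool.Agent.P.MP_77a832_co.EL.Defs

/-! The shift argument for distribution functions. -/

set_option autoImplicit false

namespace Pool.Agent.P.MP_77a832_co.EL

open Finset Real Pool.Agent.P.MP_bf60a1_an.RA
open scoped Classical

variable {Ω : Type} [Fintype Ω]

theorem pr_split (P : FP Ω) (s t : Ω → Prop) :
    P.pr s = P.pr (fun z => s z ∧ t z) + P.pr (fun z => s z ∧ ¬ t z) := by
  unfold FP.pr
  rw [← P.E_add]
  refine P.E_congr fun z _ => ?_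
  by_cases hs : s z <;> by_cases ht : t z <;> simp [ind, hs, ht]

/-- mass of the fine cells `i ≤ F < j` -/
noncomputable def itv (P : FP Ω) (K : Ω → Prop) (F : Ω → ℤ) (i j : ℤ) : ℝ :=
  P.pr fun z => (i ≤ F z ∧ F z < j) ∧ K z

theorem itv_add (P : FP Ω) (K : Ω → Prop) (F : Ω → ℤ) {i j k : ℤ} (h1 : i ≤ j) (h2 : j ≤ k) :
    itv P K F i k = itv P K F i j + itv P K F j k := by
  unfold itv
  rw [pr_split P _ fun z => F z < j]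
  congr 1
  · exact P.pr_congr fun z _ =>
      ⟨fun h => ⟨⟨h.1.1.1, h.2⟩, h.1.2⟩, fun h => ⟨⟨⟨h.1.1, by omega⟩, h.2⟩, h.1.2⟩⟩
  · exact P.pr_congr fun z _ =>
      ⟨fun h => ⟨⟨by omega, h.1.1.2⟩, h.1.2⟩, fun h => ⟨⟨⟨by omega, h.1.2⟩, h.2⟩, by omega⟩⟩

theorem itv_mono (P : FP Ω) (K : Ω → Prop) (F : Ω → ℤ) {i j i' j' : ℤ} (h1 : i' ≤ i)
    (h2 : j ≤ j') : itv P K F i j ≤ itv P K F i' j' :=
  P.pr_mono fun _ _ h => ⟨⟨h1.trans h.1.1, h.1.2.trans_le h2⟩, h.2⟩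

theorem itv_nonneg (P : FP Ω) (K : Ω → Prop) (F : Ω → ℤ) (i j : ℤ) : 0 ≤ itv P K F i j :=
  P.pr_nonneg _

/-- almost product structure on the event `K`, not normalised -/
def APr (P : FP Ω) (E : ℝ) (T F : Ω → ℤ) (τ : ℤ → ℝ) (K : Ω → Prop) : Prop :=
  ∀ (t : ℤ) (B : ℤ → Prop), |P.pr (fun z => (T z = t ∧ B (F z)) ∧ K z) -
    τ t * P.pr (fun z => B (F z) ∧ K z)| ≤ E

/-- the geometric frame of the shift argument -/
structure Fr (P : FP Ω) (a b ξ : Ω → ℝ) (κ κ₀ a₀ r : ℝ) (Cl K₁ K₂ : Ω → Prop) : Prop where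
  hb : ∀ z, 0 < P.p z → Cl z → b z = a z - κ * ξ z - κ₀
  k1 : ∀ z, 0 < P.p z → K₁ z → Cl z
  k2 : ∀ z, 0 < P.p z → K₂ z → Cl z
  safe : ∀ z, 0 < P.p z → Cl z → |a z - a₀| ≤ 2 * r → K₁ z ∧ K₂ z

theorem cdf_step {P : FP Ω} {a b ξ : Ω → ℝ} {κ κ₀ a₀ r : ℝ} {Cl K₁ K₂ : Ω → Prop}
    (hF : Fr P a b ξ κ κ₀ a₀ r Cl K₁ K₂) {τ₁ τ₂ : ℤ → ℝ} {E₁ E₂ : ℝ}
    (h1 : APr P E₁ (fun z => ⌊ξ z⌋) (fun z => ⌊a z⌋) τ₁ K₁)
    (h2 : APr P E₂ (fun z => ⌊ξ z⌋) (fun z => ⌊b z⌋) τ₂ K₂)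
    (hτ : ∀ t, 0 ≤ τ₂ t ∧ τ₂ t ≤ 1) (tA tB i j α β : ℤ)
    (hα : (α : ℝ) ≤ κ * (tB - tA) - |κ| - 1) (hβ : κ * (tB - tA) + |κ| + 1 ≤ β)
    (r1 : a₀ - 2 * r ≤ i) (r2 : (j : ℝ) ≤ a₀ + 2 * r) (r3 : a₀ - 2 * r ≤ i + α)
    (r4 : (j : ℝ) + β ≤ a₀ + 2 * r) :
    τ₁ tA * τ₂ tB * itv P K₁ (fun z => ⌊a z⌋) i j ≤
      τ₂ tA * τ₁ tB * itv P K₁ (fun z => ⌊a z⌋) (i + α) (j + β) + 2 * (E₁ + E₂) := by
  obtain ⟨kp, km, hp, hm, hk, hk'⟩ : ∃ kp km : ℝ, 0 ≤ kp ∧ 0 ≤ km ∧ κ = kp - km ∧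
      |κ| = kp + km := by
    rcases le_total 0 κ with h | h
    · exact ⟨κ, 0, h, le_rfl, by ring, by rw [abs_of_nonneg h]; ring⟩
    · exact ⟨0, -κ, le_rfl, by linarith, by ring, by rw [abs_of_nonpos h]; ring⟩
  have fr : ∀ (z : Ω) (t : ℤ), ⌊ξ z⌋ = t → -km ≤ κ * (ξ z - t) ∧ κ * (ξ z - t) ≤ kp := by
    intro z t ht
    have e1 := Int.floor_le (ξ z)
    have e2 := Int.lt_floor_add_one (ξ z)
    rw [ht] at e1 e2
    rw [hk]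
    constructor <;> nlinarith
  set B₂ : ℤ → Prop := fun k => (i : ℝ) - κ * tA - κ₀ - kp - 1 < k ∧
    (k : ℝ) < j - κ * tA - κ₀ + km with hB₂
  have a1 := abs_le.1 (h1 tA fun k => i ≤ k ∧ k < j)
  have a2 := abs_le.1 (h2 tA B₂)
  have a3 := abs_le.1 (h2 tB B₂)
  have a4 := abs_le.1 (h1 tB fun k => i + α ≤ k ∧ k < j + β)
  have m1 : P.pr (fun z => (⌊ξ z⌋ = tA ∧ i ≤ ⌊a z⌋ ∧ ⌊a z⌋ < j) ∧ K₁ z) ≤
      P.pr (fun z => (⌊ξ z⌋ = tA ∧ B₂ ⌊b z⌋) ∧ K₂ z) := by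
    refine P.pr_mono fun z hz h => ?_
    obtain ⟨⟨ht, hi, hj⟩, hK⟩ := h
    have hc := hF.k1 z hz hK
    have e1 : (i : ℝ) ≤ a z := Int.le_floor.1 hi
    have e2 : a z < j := Int.floor_lt.1 hj
    have e3 := hF.hb z hz hc
    have e4 := fr z tA ht
    have e5 := Int.floor_le (b z)
    have e6 := Int.lt_floor_add_one (b z)
    refine ⟨⟨ht, ?_, ?_⟩, (hF.safe z hz hc (abs_le.2 ⟨by linarith, by linarith⟩)).2⟩ <;>
      nlinarith [e4.1, e4.2]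
  have m2 : P.pr (fun z => (⌊ξ z⌋ = tB ∧ B₂ ⌊b z⌋) ∧ K₂ z) ≤
      P.pr (fun z => (⌊ξ z⌋ = tB ∧ i + α ≤ ⌊a z⌋ ∧ ⌊a z⌋ < j + β) ∧ K₁ z) := by
    refine P.pr_mono fun z hz h => ?_
    obtain ⟨⟨ht, hi, hj⟩, hK⟩ := h
    have hc := hF.k2 z hz hK
    have e3 := hF.hb z hz hc
    have e4 := fr z tB ht
    have e5 := Int.floor_le (b z)
    have e6 := Int.lt_floor_add_one (b z)
    have e7 : (i : ℝ) + α ≤ a z := by nlinarith [e4.1, e4.2]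
    have e8 : a z < j + β := by nlinarith [e4.1, e4.2]
    refine ⟨⟨ht, Int.le_floor.2 (by exact_mod_cast e7), Int.floor_lt.2 (by exact_mod_cast e8)⟩,
      (hF.safe z hz hc (abs_le.2 ⟨by linarith, by linarith⟩)).1⟩
  have hE : 0 ≤ E₁ + E₂ := by linarith [a1.1, a1.2, a2.1, a2.2]
  unfold itv
  set M := P.pr fun z => (i ≤ ⌊a z⌋ ∧ ⌊a z⌋ < j) ∧ K₁ z
  set M' := P.pr fun z => (i + α ≤ ⌊a z⌋ ∧ ⌊a z⌋ < j + β) ∧ K₁ z
  set Nn := P.pr fun z => B₂ ⌊b z⌋ ∧ K₂ z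
  have c1 : τ₁ tA * M ≤ τ₂ tA * Nn + (E₁ + E₂) := by linarith [a1.1, a2.2]
  have c2 : τ₂ tB * Nn ≤ τ₁ tB * M' + (E₁ + E₂) := by linarith [a3.1, a4.2]
  have d1 := mul_le_mul_of_nonneg_left c1 (hτ tB).1
  have d2 := mul_le_mul_of_nonneg_left c2 (hτ tA).1
  have d3 := mul_le_mul_of_nonneg_right (hτ tA).2 hE
  have d4 := mul_le_mul_of_nonneg_right (hτ tB).2 hE
  nlinarith

/-- summing over disjoint translates -/
theorem sum_right (P : FP Ω) (K : Ω → Prop) (F : Ω → ℤ) (i B : ℤ) (hB : 0 ≤ B) (n : ℕ)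
    {M er : ℝ} (h : ∀ k : ℕ, k < n → M ≤ itv P K F (i + k * B) (i + k * B + B) + er) :
    n * M ≤ itv P K F i (i + n * B) + n * er := by
  induction n with
  | zero => simpa using itv_nonneg P K F i i
  | succ n ih =>
    have h1 := ih fun k hk => h k (by omega)
    have h2 := h n (by omega)
    have h3 := itv_add P K F (i := i) (j := i + n * B) (k := i + n * B + B)
      (by have : (0 : ℤ) ≤ n * B := by positivity
          omega) (by omega)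
    have h4 : i + ((n + 1 : ℕ) : ℤ) * B = i + n * B + B := by push_cast; ring
    rw [h4, h3]; push_cast; linarith

theorem sum_left (P : FP Ω) (K : Ω → Prop) (F : Ω → ℤ) (i B : ℤ) (hB : 0 ≤ B) (n : ℕ)
    {M er : ℝ} (h : ∀ k : ℕ, k < n → M ≤ itv P K F (i - k * B - B) (i - k * B) + er) :
    n * M ≤ itv P K F (i - n * B) i + n * er := by
  induction n with
  | zero => simpa using itv_nonneg P K F i i
  | succ n ih =>
    have h1 := ih fun k hk => h k (by omega)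
    have h2 := h n (by omega)
    have h3 := itv_add P K F (i := i - n * B - B) (j := i - n * B) (k := i) (by omega)
      (by have : (0 : ℤ) ≤ n * B := by positivity
          omega)
    have h4 : i - ((n + 1 : ℕ) : ℤ) * B = i - n * B - B := by push_cast; ring
    rw [h4, h3]; push_cast; linarith

/-- the shift argument, once a direction with a good ratio is chosen -/
theorem cdf_dir {P : FP Ω} {a b ξ : Ω → ℝ} {κ κ₀ a₀ r : ℝ} {Cl K₁ K₂ : Ω → Prop}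
    (hF : Fr P a b ξ κ κ₀ a₀ r Cl K₁ K₂) {τ₁ τ₂ : ℤ → ℝ} {E₁ E₂ : ℝ}
    (h1 : APr P E₁ (fun z => ⌊ξ z⌋) (fun z => ⌊a z⌋) τ₁ K₁)
    (h2 : APr P E₂ (fun z => ⌊ξ z⌋) (fun z => ⌊b z⌋) τ₂ K₂)
    (hτ : ∀ t, 0 ≤ τ₂ t ∧ τ₂ t ≤ 1) (hκ : 16 ≤ |κ|) (hκ' : |κ| ≤ 96) (N Kc : ℕ) (tA tB : ℤ)
    (ht : (2 : ℝ) ≤ |(tB : ℝ) - tA|) (ht' : |(tB : ℝ) - tA| + 1 ≤ N)
    (hr : ((Kc : ℝ) + 1) * (97 * N) + 20 ≤ r) {p : ℝ} (hp : 0 < p) (hp' : p ≤ τ₁ tA * τ₂ tB)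
    (hq : τ₂ tA * τ₁ tB ≤ τ₁ tA * τ₂ tB) :
    Kc * P.pr (fun z => Cl z ∧ |a z - a₀| ≤ 2) ≤
      P.pr (fun z => Cl z ∧ |a z - a₀| ≤ r) + Kc * (2 * (E₁ + E₂) / p) := by
  have hE : 0 ≤ E₁ + E₂ := add_nonneg ((abs_nonneg _).trans (h1 0 fun _ => True))
    ((abs_nonneg _).trans (h2 0 fun _ => True))
  have hN : (3 : ℝ) ≤ N := by linarith
  have hK : (0 : ℝ) ≤ Kc := Nat.cast_nonneg _
  have hKN : (0 : ℝ) ≤ Kc * (97 * N) := by positivity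
  set F : Ω → ℤ := fun z => ⌊a z⌋ with hFd
  have key : ∀ i j α β : ℤ, (α : ℝ) ≤ κ * (tB - tA) - |κ| - 1 → κ * (tB - tA) + |κ| + 1 ≤ β →
      a₀ - 2 * r ≤ i → (j : ℝ) ≤ a₀ + 2 * r → a₀ - 2 * r ≤ i + α → (j : ℝ) + β ≤ a₀ + 2 * r →
      itv P K₁ F i j ≤ itv P K₁ F (i + α) (j + β) + 2 * (E₁ + E₂) / p := by
    intro i j α β c1 c2 c3 c4 c5 c6
    have h := cdf_step hF h1 h2 hτ tA tB i j α β c1 c2 c3 c4 c5 c6
    have h3 := mul_le_mul_of_nonneg_right hq (itv_nonneg P K₁ F (i + α) (j + β))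
    have h4 : 2 * (E₁ + E₂) / (τ₁ tA * τ₂ tB) ≤ 2 * (E₁ + E₂) / p :=
      div_le_div_of_nonneg_left (by linarith) hp hp'
    have h5 : 0 < τ₁ tA * τ₂ tB := hp.trans_le hp'
    have h6 : itv P K₁ F i j - itv P K₁ F (i + α) (j + β) ≤ 2 * (E₁ + E₂) / (τ₁ tA * τ₂ tB) := by
      rw [le_div_iff₀ h5]; nlinarith
    linarith
  have f1 := Int.floor_le a₀
  have f2 := Int.lt_floor_add_one a₀
  have ab : |κ * (tB - tA)| = |κ| * |(tB : ℝ) - tA| := abs_mul _ _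
  have ab1 : 2 * |κ| ≤ |κ * (tB - tA)| := by rw [ab]; nlinarith
  have ab2 : |κ * (tB - tA)| + |κ| + 1 ≤ 97 * N := by rw [ab]; nlinarith
  have small : ∀ i j : ℤ, i ≤ ⌊a₀⌋ - 2 → ⌊a₀⌋ + 3 ≤ j →
      P.pr (fun z => Cl z ∧ |a z - a₀| ≤ 2) ≤ itv P K₁ F i j := by
    intro i j hi hj
    refine P.pr_mono fun z hz h => ?_
    have h3 := abs_le.1 h.2
    refine ⟨⟨hi.trans (Int.le_floor.2 ?_), lt_of_lt_of_le (Int.floor_lt.2 ?_) hj⟩,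
      (hF.safe z hz h.1 (h.2.trans (by linarith))).1⟩ <;> push_cast <;> linarith
  have big : ∀ i j : ℤ, a₀ - r ≤ i → (j : ℝ) ≤ a₀ + r →
      itv P K₁ F i j ≤ P.pr (fun z => Cl z ∧ |a z - a₀| ≤ r) := by
    intro i j hi hj
    refine P.pr_mono fun z hz h => ⟨hF.k1 z hz h.2, ?_⟩
    have e1 : (i : ℝ) ≤ a z := Int.le_floor.1 h.1.1
    have e2 : a z < j := Int.floor_lt.1 h.1.2
    exact abs_le.2 ⟨by linarith, by linarith⟩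
  have hk : ∀ k : ℕ, k < Kc → (0 : ℝ) ≤ k * (97 * N) ∧ (k : ℝ) * (97 * N) ≤ Kc * (97 * N) := by
    intro k hk
    exact ⟨by positivity, mul_le_mul_of_nonneg_right (by exact_mod_cast hk.le) (by positivity)⟩
  rcases le_total 0 (κ * (tB - tA)) with hs | hs
  · rw [abs_of_nonneg hs] at ab1 ab2
    have h3 := sum_right P K₁ F (⌊a₀⌋ + 13) (97 * N) (by positivity) Kc
      (M := itv P K₁ F (⌊a₀⌋ - 2) (⌊a₀⌋ + 13)) (er := 2 * (E₁ + E₂) / p) fun k hk' => by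
        have h4 := hk k hk'
        have h0 : (0 : ℤ) ≤ k * (97 * N) := by positivity
        have h5 := key (⌊a₀⌋ - 2) (⌊a₀⌋ + 13 + k * (97 * N)) 15 (97 * N) (by push_cast; linarith)
          (by push_cast; linarith) (by push_cast; linarith) (by push_cast; linarith [h4.2])
          (by push_cast; linarith) (by push_cast; linarith [h4.2])
        rw [itv_add P K₁ F (j := ⌊a₀⌋ + 13) (by omega) (by omega),
          itv_add P K₁ F (i := ⌊a₀⌋ - 2 + 15) (j := ⌊a₀⌋ + 13 + k * (97 * N)) (by omega)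
            (by omega), show ⌊a₀⌋ - 2 + 15 = ⌊a₀⌋ + 13 by ring] at h5
        linarith
    have h6 := big (⌊a₀⌋ + 13) (⌊a₀⌋ + 13 + Kc * (97 * N)) (by push_cast; linarith)
      (by push_cast; linarith)
    have h7 := mul_le_mul_of_nonneg_left (small (⌊a₀⌋ - 2) (⌊a₀⌋ + 13) le_rfl (by omega)) hK
    linarith
  · rw [abs_of_nonpos hs] at ab1 ab2
    have h3 := sum_left P K₁ F (⌊a₀⌋ - 12) (97 * N) (by positivity) Kc
      (M := itv P K₁ F (⌊a₀⌋ - 12) (⌊a₀⌋ + 3)) (er := 2 * (E₁ + E₂) / p) fun k hk' => by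
        have h4 := hk k hk'
        have h0 : (0 : ℤ) ≤ k * (97 * N) := by positivity
        have h5 := key (⌊a₀⌋ - 12 - k * (97 * N)) (⌊a₀⌋ + 3) (-(97 * N)) (-15)
          (by push_cast; linarith) (by push_cast; linarith) (by push_cast; linarith [h4.2])
          (by push_cast; linarith) (by push_cast; linarith [h4.2]) (by push_cast; linarith)
        rw [itv_add P K₁ F (j := ⌊a₀⌋ - 12) (by omega) (by omega),
          itv_add P K₁ F (i := ⌊a₀⌋ - 12 - k * (97 * N) + -(97 * N))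
            (j := ⌊a₀⌋ - 12 - k * (97 * N)) (by omega) (by omega),
          show ⌊a₀⌋ + 3 + -15 = ⌊a₀⌋ - 12 by ring,
          show ⌊a₀⌋ - 12 - k * (97 * N) + -(97 * N) = ⌊a₀⌋ - 12 - k * (97 * N) - 97 * N by ring]
          at h5
        linarith
    have h6 := big (⌊a₀⌋ - 12 - Kc * (97 * N)) (⌊a₀⌋ - 12) (by push_cast; linarith)
      (by push_cast; linarith)
    have h7 := mul_le_mul_of_nonneg_left (small (⌊a₀⌋ - 12) (⌊a₀⌋ + 3) (by omega) le_rfl) hK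
    linarith

/-- CDF: two almost product structures force the vertical law to spread -/
theorem cdf {P : FP Ω} {a b ξ : Ω → ℝ} {κ κ₀ a₀ r : ℝ} {Cl K₁ K₂ : Ω → Prop}
    (hF : Fr P a b ξ κ κ₀ a₀ r Cl K₁ K₂) {τ₁ τ₂ : ℤ → ℝ} {e ε θ : ℝ}
    (h1 : APr P (e * P.pr K₁) (fun z => ⌊ξ z⌋) (fun z => ⌊a z⌋) τ₁ K₁)
    (h2 : APr P (e * P.pr K₂) (fun z => ⌊ξ z⌋) (fun z => ⌊b z⌋) τ₂ K₂)
    (hτ : ∀ t, 0 ≤ τ₂ t ∧ τ₂ t ≤ 1) (hκ : 16 ≤ |κ|) (hκ' : |κ| ≤ 96) (N Kc : ℕ) (t₁ t₂ : ℤ)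
    (ht : (2 : ℝ) ≤ |(t₂ : ℝ) - t₁|) (ht' : |(t₂ : ℝ) - t₁| + 1 ≤ N)
    (hr : ((Kc : ℝ) + 1) * (97 * N) + 20 ≤ r) (hθ : 0 < θ) (hε : 0 < ε) (he : 0 ≤ e)
    (g1 : θ ≤ τ₁ t₁) (g2 : θ ≤ τ₁ t₂)
    (n1 : ε * P.pr K₁ ≤ P.pr fun z => Cl z ∧ |a z - a₀| ≤ r)
    (n2 : ε * P.pr K₂ ≤ P.pr fun z => Cl z ∧ |a z - a₀| ≤ r)
    (e1 : 4 * e ≤ ε * θ) (e2 : 8 * e * Kc ≤ ε ^ 2 * θ ^ 2) :
    Kc * P.pr (fun z => Cl z ∧ |a z - a₀| ≤ 2) ≤ 2 * P.pr fun z => Cl z ∧ |a z - a₀| ≤ r := by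
  have hN : (3 : ℝ) ≤ N := by linarith
  have hK : (0 : ℝ) ≤ Kc := Nat.cast_nonneg _
  have hr2 : 20 ≤ r := by
    have : (0 : ℝ) ≤ (Kc + 1) * (97 * N) := by positivity
    linarith
  set β := P.pr fun z => Cl z ∧ |a z - a₀| ≤ r with hβ
  rcases (P.pr_nonneg fun z => Cl z ∧ |a z - a₀| ≤ r).eq_or_lt with h0 | h0
  · have : P.pr (fun z => Cl z ∧ |a z - a₀| ≤ 2) ≤ β :=
      P.pr_mono fun z _ h => ⟨h.1, h.2.trans (by linarith)⟩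
    have h3 := P.pr_nonneg fun z => Cl z ∧ |a z - a₀| ≤ 2
    have h4 : P.pr (fun z => Cl z ∧ |a z - a₀| ≤ 2) = 0 := by linarith
    rw [h4]; linarith
  have hE : ε * (e * P.pr K₁ + e * P.pr K₂) ≤ 2 * e * β := by nlinarith
  have low : ∀ t, θ ≤ τ₁ t → ε * θ / 2 ≤ τ₂ t := by
    intro t hτ₁
    set B : ℤ → Prop := fun k => a₀ - r - 1 < k ∧ (k : ℝ) ≤ a₀ + r
    have a1 := abs_le.1 (h1 t B)
    have a2 := abs_le.1 (h2 t fun _ => True)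
    have m1 : β ≤ P.pr fun z => B ⌊a z⌋ ∧ K₁ z := P.pr_mono fun z hz h => by
      have h3 := abs_le.1 h.2
      have f1 := Int.floor_le (a z)
      have f2 := Int.lt_floor_add_one (a z)
      exact ⟨⟨by linarith, by linarith⟩, (hF.safe z hz h.1 (h.2.trans (by linarith))).1⟩
    have m2 : P.pr (fun z => (⌊ξ z⌋ = t ∧ B ⌊a z⌋) ∧ K₁ z) ≤
        P.pr fun z => (⌊ξ z⌋ = t ∧ True) ∧ K₂ z := P.pr_mono fun z hz h => by
      have f1 := Int.floor_le (a z)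
      have f2 := Int.lt_floor_add_one (a z)
      exact ⟨⟨h.1.1, trivial⟩, (hF.safe z hz (hF.k1 z hz h.2)
        (abs_le.2 ⟨by linarith [h.1.2.1], by linarith [h.1.2.2]⟩)).2⟩
    have m3 : P.pr (fun z => True ∧ K₂ z) = P.pr K₂ := P.pr_congr fun z _ => by simp
    rw [m3] at a2
    have m4 : θ * β ≤ τ₁ t * P.pr fun z => B ⌊a z⌋ ∧ K₁ z :=
      mul_le_mul hτ₁ m1 h0.le (hθ.le.trans hτ₁)
    have m5 : θ * β ≤ τ₂ t * P.pr K₂ + (e * P.pr K₁ + e * P.pr K₂) := by linarith [a1.1, a2.2]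
    have m6 := mul_le_mul_of_nonneg_left m5 hε.le
    have m7 := mul_le_mul_of_nonneg_left n2 (hτ t).1
    have m8 : ε * θ / 2 * β ≤ τ₂ t * β := by nlinarith
    exact le_of_mul_le_mul_right m8 h0
  have hp : 0 < θ * (ε * θ / 2) := by positivity
  have fin : Kc * (2 * (e * P.pr K₁ + e * P.pr K₂) / (θ * (ε * θ / 2))) ≤ β := by
    rw [← mul_div_assoc, div_le_iff₀ hp]
    refine le_of_mul_le_mul_left ?_ hε
    have h3 := mul_le_mul_of_nonneg_left hE hK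
    have h4 := mul_le_mul_of_nonneg_right e2 h0.le
    nlinarith
  rcases le_total (τ₂ t₁ * τ₁ t₂) (τ₁ t₁ * τ₂ t₂) with hq | hq
  · have := cdf_dir hF h1 h2 hτ hκ hκ' N Kc t₁ t₂ ht ht' hr hp
      (mul_le_mul g1 (low t₂ g2) (by positivity) (hθ.le.trans g1)) hq
    linarith
  · have := cdf_dir hF h1 h2 hτ hκ hκ' N Kc t₂ t₁ (by rwa [abs_sub_comm]) (by rwa [abs_sub_comm])
      hr hp (mul_le_mul g2 (low t₁ g1) (by positivity) (hθ.le.trans g2)) (by linarith)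
    linarith

end Pool.Agent.P.MP_77a832_co.EL
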