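import Pool.Agent.P.MP_bf60a1_an.RA.Ent2
import Pool.Agent.P.MP_77a832_co.KS.ZDefs

/-! Unbalanced activity of rotating lines, and the abstract node process. -/

set_option autoImplicit false

namespace Pool.Agent.P.MP_77a832_co.EL

open Finset Real Pool.Agent.P.MP_bf60a1_an.RA
open scoped Classical

section geometry
variable {α : Type}

/-- total variation of the number of points of `E` above the line during `a, …, b` -/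
noncomputable def TV (A : ℕ → Finset α) (E : Finset α) (a b : ℕ) : ℝ :=
  ∑ t ∈ Ico a b, |((E ∩ A (t + 1)).card : ℝ) - (E ∩ A t).card|

/-- size of `E` during `a, …, b` -/
noncomputable def sz (A : ℕ → Finset α) (E : Finset α) (a b : ℕ) : ℝ :=
  (KS.act A E a b).card + TV A E a b

/-- `A t` is, inside `P`, the set of points above a line of slope `th t` -/
structure Lin (x y : α → ℝ) (th be : ℕ → ℝ) (A : ℕ → Finset α) (P : Finset α) : Prop where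
  mono : StrictMono th
  ab : ∀ t, ∀ p ∈ P, (p ∈ A t ↔ th t * x p + be t < y p)

end geometry

/-- the bound with exponent `g` -/
def HA (g C : ℝ) : Prop := ∀ (α : Type) (x y : α → ℝ) (th be : ℕ → ℝ) (A : ℕ → Finset α)
  (P : Finset α), Lin x y th be A P → ∀ (τ : ℕ → ℕ) (m : ℕ), Monotone τ → 1 ≤ m →
    ∑ i ∈ range m, sz A P (τ i) (τ (i + 1)) ≤ C * (m : ℝ) ^ g * sz A P (τ 0) (τ m)

/-- the exponent is zero -/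
def UB : Prop := ∀ g : ℝ, 0 < g → ∃ C : ℝ, HA g C

section prob
variable {Ω α β γ : Type} [Fintype Ω]

/-- conditional probability of `s` given the class of `ω` -/
noncomputable def cp (P : FP Ω) (s : Ω → Prop) (V : Ω → β) (ω : Ω) : ℝ :=
  (P.pr fun z => s z ∧ V z = V ω) / P.cl V ω

/-- conditional mass of the value of `Z` -/
noncomputable def cq (P : FP Ω) (Z : Ω → α) (V : Ω → β) (ω : Ω) : ℝ :=
  cp P (fun z => Z z = Z ω) V ω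

/-- `Z` takes at most `N` values on each class of `V` -/
def Few (P : FP Ω) (Z : Ω → α) (V : Ω → β) (N : ℝ) : Prop :=
  ∀ ω, 0 < P.p ω → ∃ F : Finset α, (F.card : ℝ) ≤ N ∧ ∀ z, 0 < P.p z → V z = V ω → Z z ∈ F

/-- weighted conditional entropy -/
noncomputable def Hw (P : FP Ω) (φ : Ω → ℝ) (Z : Ω → α) (V : Ω → β) : ℝ :=
  P.E fun ω => φ ω * - log (cq P Z V ω)

/-- three adjacent values of `T` carry all but `θ` of the class -/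
def heavy (P : FP Ω) (θ : ℝ) (T : Ω → ℤ) (G : Ω → β) (ω : Ω) : Prop :=
  ∃ t : ℤ, cp P (fun z => 2 ≤ |T z - t|) G ω < θ

/-- `T` and `F` are almost independent on the class of `C`, with the law of `T` read on `G` -/
def Prd (P : FP Ω) (e : ℝ) (T F : Ω → ℤ) (G : Ω → β) (C : Ω → γ) (ω : Ω) : Prop :=
  ∀ (t : ℤ) (B : ℤ → Prop), |cp P (fun z => T z = t ∧ B (F z)) C ω -
    cp P (fun z => T z = t) G ω * cp P (fun z => B (F z)) C ω| ≤ e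

end prob

/-- `v` is close to the dyadic grid of level `k` -/
def near (v : ℝ) (k : ℕ) (t : ℝ) : Prop := ∃ j : ℤ, |v * 2 ^ k - j| ≤ t

/-- data of a node process -/
structure PD (Ω α β : Type) [Fintype Ω] where
  Q : FP Ω
  pt : Ω → α
  x : α → ℝ
  y : α → ℝ
  W : ℕ → Ω → ℕ
  V1 : ℕ → Ω → ℕ
  V2 : ℕ → Ω → ℕ
  lo : ℕ → Ω → ℝ
  hi : ℕ → Ω → ℝ
  lo2 : ℕ → Ω → ℝ
  hi2 : ℕ → Ω → ℝ
  Nd : ℕ → Ω → β
  live : ℕ → Ω → Prop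
  clean : ℕ → Ω → Prop
  ok : ℕ → Ω → Prop
  tw : ℕ → Ω → Ω → Prop

namespace PD
variable {Ω α β : Type} [Fintype Ω] (D : PD Ω α β)

/-- abscissa of the point -/
def xx (ω : Ω) : ℝ := D.x (D.pt ω)
/-- ordinate of the point -/
def yy (ω : Ω) : ℝ := D.y (D.pt ω)
/-- length of the slope range of a window -/
def len (n : ℕ) (ω : Ω) : ℝ := D.hi n ω - D.lo n ω
/-- gap between two slope ranges -/
def gap (n : ℕ) (ω z : Ω) : ℝ := max (D.lo2 n ω - D.hi2 n z) (D.lo2 n z - D.hi2 n ω)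
/-- point and window -/
def pw (n : ℕ) (ω : Ω) : α × ℕ := (D.pt ω, D.W n ω)
/-- a second clean visit of the same point -/
def par (n : ℕ) (ω : Ω) : Prop :=
  D.clean n ω ∧ ∃ z, D.pw n z = D.pw n ω ∧ D.V1 n z ≠ D.V1 n ω ∧ D.clean n z
/-- the window shrinks -/
def shr (I : ℕ) (η : ℝ) (n : ℕ) (ω : Ω) : Prop :=
  D.len (n + 1) ω ≤ (2 : ℝ) ^ (-(1 - η) * I) * D.len n ω

/-- pointwise properties of a node process with `nB` blocks -/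
structure Str (nB I κ M : ℕ) (ζ : ℝ) : Prop where
  pos : ∀ ω, 0 < D.Q.p ω
  dW : ∀ n < nB, D.Q.Det (D.V1 n) (D.W n)
  dV1 : ∀ n < nB, D.Q.Det (D.V2 n) (D.V1 n)
  dV2 : ∀ n < nB, D.Q.Det (D.W (n + 1)) (D.V2 n)
  fW : ∀ n < nB, Few D.Q (D.W (n + 1)) (D.W n) (2 ^ I)
  fV1 : ∀ n < nB, Few D.Q (D.V1 n) (D.W n) (2 ^ κ)
  fV2 : ∀ n < nB, Few D.Q (D.V2 n) (D.W n) (4 ^ κ)
  dlo : ∀ n ≤ nB, D.Q.Det (D.W n) (D.lo n)
  dhi : ∀ n ≤ nB, D.Q.Det (D.W n) (D.hi n)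
  dlo2 : ∀ n < nB, D.Q.Det (D.V2 n) (D.lo2 n)
  dhi2 : ∀ n < nB, D.Q.Det (D.V2 n) (D.hi2 n)
  nest : ∀ n < nB, ∀ ω, D.lo n ω ≤ D.lo2 n ω ∧ D.lo2 n ω ≤ D.lo (n + 1) ω ∧
    D.lo (n + 1) ω ≤ D.hi (n + 1) ω ∧ D.hi (n + 1) ω ≤ D.hi2 n ω ∧ D.hi2 n ω ≤ D.hi n ω
  dN : ∀ n ≤ nB, D.Q.Det (D.pw n) (D.Nd n)
  dNN : ∀ n < nB, D.Q.Det (D.Nd (n + 1)) (D.Nd n)
  dNW : ∀ n ≤ nB, D.Q.Det (D.Nd n) (D.W n)
  fN : ∀ n < nB, Few D.Q (D.Nd (n + 1)) (fun ω => (D.Nd n ω, D.W (n + 1) ω)) (M ^ 3)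
  dlive : ∀ n < nB, D.Q.Det (D.Nd (n + 1)) (D.live n)
  ulive : ∀ n < nB, ∀ ω z, D.Nd n z = D.Nd n ω → D.W (n + 1) z = D.W (n + 1) ω →
    D.live n ω → D.live n z → D.Nd (n + 1) z = D.Nd (n + 1) ω
  dclean : ∀ n < nB, D.Q.Det (fun ω => (D.Nd n ω, D.V2 n ω)) (D.clean n)
  sep : ∀ n < nB, ∀ ω z, D.Nd n z = D.Nd n ω → D.V1 n z ≠ D.V1 n ω → D.clean n ω →
    D.clean n z → 0 < D.gap n ω z ∧ D.hi2 n ω - D.lo2 n ω ≤ D.gap n ω z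
  tnd : ∀ l ω z, D.tw l ω z → D.Nd l z = D.Nd l ω
  tmass : ∀ l ω, l + 2 ≤ nB → D.ok l ω → ζ / M ^ 2 * D.Q.cl (D.Nd l) ω ≤ D.Q.pr (D.tw l ω)
  cone : ∀ l ω z v, l + 2 ≤ nB → D.ok l ω → D.tw l ω z → D.Nd (l + 1) v = D.Nd (l + 1) ω →
    D.xx v ≠ D.xx z ∧ ∀ θ, D.lo l ω ≤ θ → θ ≤ D.hi l ω →
      |D.yy v - θ * D.xx v - (D.yy z - θ * D.xx z)| ≤ D.len l ω * |D.xx v - D.xx z|
  mult : ∀ l l' ω ω' z, l < l' → l' + 2 ≤ nB → D.ok l ω → D.ok l' ω' → D.tw l ω z →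
    D.tw l' ω' z → (D.xx z < D.xx ω ↔ D.xx z < D.xx ω') →
      2 * |D.xx ω' - D.xx z| < |D.xx ω - D.xx z|
  xg : ∀ l ω z v, l + 2 ≤ nB → D.ok l ω → D.par (l + 1) ω → D.tw l ω z →
    D.Nd (l + 2) v = D.Nd (l + 2) ω → 4 * |D.xx v - D.xx ω| ≤ |D.xx ω - D.xx z|

/-- all tests fail rarely -/
structure Rare (nB I : ℕ) (η ζ : ℝ) : Prop where
  live : ∑ n ∈ range nB, D.Q.pr (fun ω => ¬ D.live n ω) ≤ ζ * nB
  clean : ∑ n ∈ range nB, D.Q.pr (fun ω => ¬ D.clean n ω) ≤ ζ * nB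
  ok : ∑ n ∈ range nB, D.Q.pr (fun ω => ¬ D.ok n ω) ≤ ζ * nB
  shr : ∑ n ∈ range nB, D.Q.pr (fun ω => ¬ D.shr I η n ω) ≤ ζ * nB

/-- the visits of a point branch -/
def Br (nB κ : ℕ) (g : ℝ) : Prop :=
  g * κ * log 2 * nB ≤ ∑ n ∈ range nB, D.Q.Hc (D.V1 n) (D.pw n)

end PD

/-- there are long node processes -/
def Long (I κ M : ℕ) (η ζ g : ℝ) : Prop := ∀ n₀ : ℕ, ∃ nB, n₀ ≤ nB ∧
  ∃ (Ω α β : Type) (_ : Fintype Ω) (D : PD Ω α β),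
    D.Str nB I κ M ζ ∧ D.Rare nB I η ζ ∧ D.Br nB κ g

/-- part A: a positive exponent gives long node processes -/
def S_PROC : Prop := ¬ UB → ∃ (g : ℝ) (w : ℕ), 0 < g ∧ g ≤ 1 ∧ 2 ≤ w ∧
  ∀ (η ζ : ℝ) (κ₀ : ℕ), 0 < η → η ≤ 1 → 0 < ζ → ζ ≤ 1 →
    ∃ κ M : ℕ, κ₀ ≤ κ ∧ 1 ≤ M ∧ M ^ 3 ≤ 2 ^ (w * κ) ∧ Long (w * κ) κ M η ζ g

/-- part B: long node processes do not exist -/
def S_CORE : Prop := ∀ (g : ℝ) (w : ℕ), 0 < g → g ≤ 1 → 2 ≤ w →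
  ∃ (η ζ : ℝ) (κ₀ : ℕ), 0 < η ∧ η ≤ 1 ∧ 0 < ζ ∧ ζ ≤ 1 ∧
    ∀ κ M : ℕ, κ₀ ≤ κ → 1 ≤ M → M ^ 3 ≤ 2 ^ (w * κ) → ¬ Long (w * κ) κ M η ζ g

theorem ub_of (hA : S_PROC) (hB : S_CORE) : UB := by
  by_contra h
  obtain ⟨g, w, h1, h2, h3, h4⟩ := hA h
  obtain ⟨η, ζ, κ₀, a1, a2, a3, a4, a5⟩ := hB g w h1 h2 h3
  obtain ⟨κ, M, b1, b2, b3, b4⟩ := h4 η ζ κ₀ a1 a2 a3 a4
  exact a5 κ M b1 b2 b3 b4

end Pool.Agent.P.MP_77a832_co.EL
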