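import Pool.Agent.P.MP_77a832_co.KS.ZK

/-! From balanced activity bounds to the bound on the number of `k`-sets. -/

set_option autoImplicit false

namespace Pool.Agent.P.MP_77a832_co.EL

open Finset
open scoped Classical

/-- the balanced bound for single steps -/
def Steps : Prop := ∀ g : ℝ, 0 < g → ∃ C : ℝ, ∀ (α : Type) (x y : α → ℝ) (th be : ℕ → ℝ)
  (A : ℕ → Finset α) (P : Finset α) (N : ℕ), KS.Bal x y th be A P 0 N → 1 ≤ N →
    ∑ i ∈ range N, ((KS.act A P i (i + 1)).card : ℝ) ≤ C * (N : ℝ) ^ g * P.card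

theorem upB_of (h : Steps) {ε : ℝ} (hε : 0 < ε) : ∃ C : ℝ, 0 ≤ C ∧ KS.UpB C (1 + ε) := by
  have h1 : 0 < 1 + ε := by linarith
  obtain ⟨C, hC⟩ := h (ε / (1 + ε)) (div_pos hε h1)
  refine ⟨(max C 0) ^ (1 + ε), by positivity, fun α x y P k 𝓕 h𝓕 => ?_⟩
  rcases Nat.eq_zero_or_eq_succ_pred 𝓕.card with e | e
  · rw [e, Nat.cast_zero]
    positivity
  obtain ⟨th, be, A, b1, b2, b3⟩ := KS.sort_up h𝓕 e
  rw [e]
  generalize 𝓕.card.pred = N at b1 b2 b3 ⊢
  rw [Nat.cast_succ, add_comm]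
  refine add_le_add le_rfl ?_
  rcases Nat.eq_zero_or_pos N with rfl | hN
  · rw [Nat.cast_zero]
    positivity
  have a1 : (N : ℝ) ≤ ∑ i ∈ range N, ((KS.act A P i (i + 1)).card : ℝ) := by
    refine le_of_eq_of_le (by simp) (card_nsmul_le_sum _ _ (1 : ℝ) fun i hi => ?_)
    rw [mem_range] at hi
    rw [Nat.one_le_cast, Nat.one_le_iff_ne_zero, card_ne_zero]
    by_contra hc
    rw [not_nonempty_iff_eq_empty] at hc
    refine b3 i hi ?_
    ext p
    refine ⟨fun e => ?_, fun e => ?_⟩ <;> by_contra e'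
    · exact notMem_empty p (hc ▸ KS.mem_act.2
        ⟨(b2 i hi.le).1 e, i, i + 1, le_rfl, by omega, by omega, le_rfl, e, e'⟩)
    · exact notMem_empty p (hc ▸ KS.mem_act.2
        ⟨(b2 _ hi).1 e, i + 1, i, by omega, le_rfl, le_rfl, by omega, e, e'⟩)
  have n0 : (0 : ℝ) < N := by exact_mod_cast hN
  have a2 : (N : ℝ) ≤ max C 0 * (N : ℝ) ^ (ε / (1 + ε)) * P.card := by
    refine (a1.trans (hC α x y th be A P N b1 hN)).trans ?_
    gcongr
    exact le_max_left _ _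
  have a3 : (N : ℝ) ^ (1 / (1 + ε)) ≤ max C 0 * P.card := by
    have : (N : ℝ) = (N : ℝ) ^ (1 / (1 + ε)) * (N : ℝ) ^ (ε / (1 + ε)) := by
      rw [← Real.rpow_add n0, ← add_div, div_self h1.ne', Real.rpow_one]
    refine le_of_mul_le_mul_right ?_ (Real.rpow_pos_of_pos n0 (ε / (1 + ε)))
    rw [← this]
    linarith
  have a4 := Real.rpow_le_rpow (by positivity) a3 h1.le
  rw [← Real.rpow_mul n0.le, one_div_mul_cancel h1.ne', Real.rpow_one,
    Real.mul_rpow (le_max_right _ _) (Nat.cast_nonneg _)] at a4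
  exact a4

/-- the bound for upper sets with every exponent above one -/
def UpAll : Prop := ∀ ε : ℝ, 0 < ε → ∃ C : ℝ, 0 ≤ C ∧ KS.UpB C (1 + ε)

/-- the balanced bound at the single scale `b`, for windows of equal length -/
def ScaleAt (b : ℕ) (c : ℝ) : Prop := ∀ (α : Type) (x y : α → ℝ) (th be : ℕ → ℝ)
  (A : ℕ → Finset α) (P : Finset α) (M : ℕ), 1 ≤ M → KS.Bal x y th be A P 0 (b * M) →
    KS.GP x y th be P 0 (b * M) →
    ∑ i ∈ range b, ((KS.act A P (i * M) ((i + 1) * M)).card : ℝ) ≤ c * P.card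

/-- every positive exponent is reached at some scale -/
def Scale : Prop := ∀ g : ℝ, 0 < g → ∃ b : ℕ, 2 ≤ b ∧ ScaleAt b ((b : ℝ) ^ g)

theorem sum_blocks (f : ℕ → ℝ) (K M : ℕ) :
    ∑ i ∈ range (K * M), f i = ∑ u ∈ range K, ∑ v ∈ range M, f (u * M + v) := by
  induction K with
  | zero => simp
  | succ K ih => rw [Nat.succ_mul, sum_range_add, ih, sum_range_succ]

theorem ScaleAt.pow {b : ℕ} {c : ℝ} (hM : ScaleAt b c) (hb : 1 ≤ b) (hc : 0 ≤ c) {α : Type}
    {x y : α → ℝ} {th be : ℕ → ℝ} {A : ℕ → Finset α} (j : ℕ) : ∀ (P : Finset α) (a : ℕ),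
    KS.Bal x y th be A P a (a + b ^ j) → KS.GP x y th be P a (a + b ^ j) →
    ∑ i ∈ range (b ^ j), ((KS.act A P (a + i) (a + i + 1)).card : ℝ) ≤ c ^ j * P.card := by
  induction j with
  | zero =>
    intro P a _ _
    simpa using card_le_card (KS.act_subset A P a (a + 1))
  | succ j ih =>
    intro P a h g
    have hM1 : 1 ≤ b ^ j := Nat.one_le_pow _ _ hb
    rw [pow_succ' b] at h g ⊢
    generalize b ^ j = M at ih h g hM1 ⊢
    have h0 := hM α _ _ _ _ _ P M hM1 h.shift g.shift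
    simp only [KS.act_shift] at h0
    rw [sum_blocks]
    have key : ∀ u ∈ range b, ∑ v ∈ range M,
        ((KS.act A P (a + (u * M + v)) (a + (u * M + v) + 1)).card : ℝ) ≤
        c ^ j * (KS.act A P (a + u * M) (a + (u + 1) * M)).card := by
      intro u hu
      have hu' : (u + 1) * M ≤ b * M := Nat.mul_le_mul_right M (mem_range.1 hu)
      have e : a + (u + 1) * M = a + u * M + M := by ring
      rw [e]
      have hb : a + u * M + M ≤ a + b * M := by rw [← e]; omega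
      refine le_of_eq_of_le ?_ (ih _ (a + u * M) (h.sub (by omega) hb)
        (g.mono (KS.act_subset _ _ _ _) (by omega) hb))
      refine sum_congr rfl fun v hv => ?_
      rw [mem_range] at hv
      rw [KS.act_act (by omega) (by omega), add_assoc a (u * M) v]
    refine (sum_le_sum key).trans ?_
    rw [← mul_sum, pow_succ, mul_assoc]
    exact mul_le_mul_of_nonneg_left h0 (pow_nonneg hc j)

theorem upAll_of_scale (h : Scale) : UpAll := by
  intro ε hε
  have h1 : 0 < 1 + ε := by linarith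
  obtain ⟨b, hb, hM⟩ := h (ε / (1 + ε)) (div_pos hε h1)
  refine ⟨b, Nat.cast_nonneg _, fun α x y P k 𝓕 h𝓕 => ?_⟩
  rcases Nat.eq_zero_or_eq_succ_pred 𝓕.card with e | e
  · rw [e, Nat.cast_zero]
    positivity
  obtain ⟨th, be, A, b1, b2, b3⟩ := KS.sort_up h𝓕 e
  rw [e]
  generalize 𝓕.card.pred = N at b1 b2 b3 ⊢
  rw [Nat.cast_succ, add_comm]
  refine add_le_add le_rfl ?_
  rcases Nat.eq_zero_or_pos N with rfl | hN
  · rw [Nat.cast_zero]
    positivity
  obtain ⟨x', y', be', h', g⟩ := b1.pert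
  obtain ⟨j, j1, j2⟩ : ∃ j, b ^ j ≤ N ∧ N < b ^ (j + 1) :=
    ⟨Nat.log b N, Nat.pow_log_le_self _ hN.ne', Nat.lt_pow_succ_log_self hb N⟩
  have a0 := hM.pow (by omega) (by positivity) j P 0 (h'.times le_rfl (by omega))
    (g.mono Subset.rfl le_rfl (by omega))
  have a1 : ((b ^ j : ℕ) : ℝ) ≤
      ∑ i ∈ range (b ^ j), ((KS.act A P (0 + i) (0 + i + 1)).card : ℝ) := by
    refine le_of_eq_of_le (by simp) (card_nsmul_le_sum _ _ (1 : ℝ) fun i hi => ?_)
    rw [mem_range] at hi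
    have hi' : i < N := by omega
    rw [zero_add, Nat.one_le_cast, Nat.one_le_iff_ne_zero, card_ne_zero]
    by_contra hc
    rw [not_nonempty_iff_eq_empty] at hc
    refine b3 i hi' ?_
    ext p
    refine ⟨fun e => ?_, fun e => ?_⟩ <;> by_contra e'
    · exact notMem_empty p (hc ▸ KS.mem_act.2
        ⟨(b2 i hi'.le).1 e, i, i + 1, le_rfl, by omega, by omega, le_rfl, e, e'⟩)
    · exact notMem_empty p (hc ▸ KS.mem_act.2
        ⟨(b2 _ hi').1 e, i + 1, i, by omega, le_rfl, le_rfl, by omega, e, e'⟩)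
  have b0 : (0 : ℝ) < b := by exact_mod_cast (by omega)
  have n0 : (0 : ℝ) < (b : ℝ) ^ j := pow_pos b0 j
  have a2 : (b : ℝ) ^ j ≤ ((b : ℝ) ^ j) ^ (ε / (1 + ε)) * P.card := by
    have := a1.trans a0
    rwa [Nat.cast_pow, ← Real.rpow_natCast (_ ^ _), ← Real.rpow_mul b0.le, mul_comm _ (j : ℝ),
      Real.rpow_mul b0.le, Real.rpow_natCast] at this
  have a3 : ((b : ℝ) ^ j) ^ (1 / (1 + ε)) ≤ P.card := by
    have : (b : ℝ) ^ j = ((b : ℝ) ^ j) ^ (1 / (1 + ε)) * ((b : ℝ) ^ j) ^ (ε / (1 + ε)) := by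
      rw [← Real.rpow_add n0, ← add_div, div_self h1.ne', Real.rpow_one]
    refine le_of_mul_le_mul_right ?_ (Real.rpow_pos_of_pos n0 (ε / (1 + ε)))
    rw [← this]
    linarith
  have a4 := Real.rpow_le_rpow (by positivity) a3 h1.le
  rw [← Real.rpow_mul n0.le, one_div_mul_cancel h1.ne', Real.rpow_one] at a4
  have a5 : (N : ℝ) ≤ (b : ℝ) ^ (j + 1) := by exact_mod_cast j2.le
  rw [pow_succ'] at a5
  exact a5.trans (mul_le_mul_of_nonneg_left a4 b0.le)

theorem ksets_of (h : UpAll) {ε : ℝ} (hε : 0 < ε) : ∃ C : ℝ, ∀ (α : Type) (x y : α → ℝ)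
    (P : Finset α) (k : ℕ), 1 ≤ k → ∀ 𝓕 : Finset (Finset α),
      (∀ S ∈ 𝓕, S.card = k ∧ ∃ a b c : ℝ, S = P.filter fun p => a * x p + b * y p < c) →
      (𝓕.card : ℝ) ≤ C * P.card * (k : ℝ) ^ ε := by
  obtain ⟨C, hC, hU⟩ := h ε hε
  have hγ : 1 ≤ 1 + ε := by linarith
  refine ⟨2 * (4 + 2 * C * 3 ^ (1 + ε)), fun α x y P k hk 𝓕 h𝓕 => ?_⟩
  have h1 := KS.up_k hU hC hγ hk (x := x) (y := y) (P := P)
    (𝓕 := 𝓕.filter fun S => KS.Up x y P S) fun S hS =>
      ⟨(h𝓕 S (mem_filter.1 hS).1).1, (mem_filter.1 hS).2⟩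
  have h2 := KS.up_k hU hC hγ hk (x := x) (y := fun p => -y p) (P := P)
    (𝓕 := 𝓕.filter fun S => ¬ KS.Up x y P S) fun S hS => by
      obtain ⟨c1, a, b, c, e⟩ := h𝓕 S (mem_filter.1 hS).1
      refine ⟨c1, ?_⟩
      rcases KS.Z.tilt x y P a b c with ⟨u, v, t⟩ | ⟨u, v, t⟩
      · refine absurd ⟨u, v, fun p => ?_⟩ (mem_filter.1 hS).2
        rw [e, mem_filter]
        exact and_congr_right (t p)
      · refine ⟨u, v, fun p => ?_⟩
        rw [e, mem_filter]
        exact and_congr_right (t p)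
  have h3 : ((𝓕.filter fun S => KS.Up x y P S).card : ℝ) +
      (𝓕.filter fun S => ¬ KS.Up x y P S).card = 𝓕.card := by
    exact_mod_cast card_filter_add_card_filter_not _
  rw [add_sub_cancel_left] at h1 h2
  linarith

/-- the bound for point sets of the Euclidean plane -/
theorem final_of_up (h : UpAll) : ∀ ε : ℝ, 0 < ε → ∃ C : ℝ,
    ∀ (P : Finset (EuclideanSpace ℝ (Fin 2))) (k : ℕ), 1 ≤ k →
      (Set.ncard {S : Finset (EuclideanSpace ℝ (Fin 2)) | S.card = k ∧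
        ∃ (v : EuclideanSpace ℝ (Fin 2)) (d : ℝ), v ≠ 0 ∧
          (S : Set (EuclideanSpace ℝ (Fin 2))) =
            (P : Set (EuclideanSpace ℝ (Fin 2))) ∩ {z | inner ℝ v z < d}} : ℝ) ≤
        C * P.card * (k : ℝ) ^ ε := by
  intro ε hε
  obtain ⟨C, hC⟩ := ksets_of h hε
  refine ⟨C, fun P k hk => ?_⟩
  have fin : {S : Finset (EuclideanSpace ℝ (Fin 2)) | S.card = k ∧
      ∃ (v : EuclideanSpace ℝ (Fin 2)) (d : ℝ), v ≠ 0 ∧
        (S : Set (EuclideanSpace ℝ (Fin 2))) =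
          (P : Set (EuclideanSpace ℝ (Fin 2))) ∩ {z | inner ℝ v z < d}}.Finite := by
    refine P.powerset.finite_toSet.subset ?_
    rintro S ⟨-, v, d, -, e⟩
    rw [mem_coe, mem_powerset, ← coe_subset, e]
    exact Set.inter_subset_left
  rw [Set.ncard_eq_toFinset_card _ fin]
  refine hC _ (fun z => z 0) (fun z => z 1) P k hk _ fun S hS => ?_
  obtain ⟨c1, v, d, -, e⟩ := fin.mem_toFinset.1 hS
  refine ⟨c1, v 0, v 1, d, ?_⟩
  ext z
  rw [← mem_coe, e, mem_filter, Set.mem_inter_iff, mem_coe, Set.mem_ofPred_eq,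
    PiLp.inner_apply, Fin.sum_univ_two]
  simp [mul_comm]

/-- the final statement from the balanced bound at single scales -/
theorem final_of_scale (h : Scale) : ∀ ε : ℝ, 0 < ε → ∃ C : ℝ,
    ∀ (P : Finset (EuclideanSpace ℝ (Fin 2))) (k : ℕ), 1 ≤ k →
      (Set.ncard {S : Finset (EuclideanSpace ℝ (Fin 2)) | S.card = k ∧
        ∃ (v : EuclideanSpace ℝ (Fin 2)) (d : ℝ), v ≠ 0 ∧
          (S : Set (EuclideanSpace ℝ (Fin 2))) =
            (P : Set (EuclideanSpace ℝ (Fin 2))) ∩ {z | inner ℝ v z < d}} : ℝ) ≤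
        C * P.card * (k : ℝ) ^ ε :=
  final_of_up (upAll_of_scale h)

end Pool.Agent.P.MP_77a832_co.EL
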