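import Pool.Agent.P.MP_77a832_co.EL.Defs
import Pool.Agent.P.MP_77a832_co.EL.Fin0

/-! From exponent zero for the activity to the bound on the number of `k`-sets. -/

set_option autoImplicit false

namespace Pool.Agent.P.MP_77a832_co.EL

open Finset
open scoped Classical

theorem steps_of (h : UB) : Steps := by
  intro g hg
  obtain ⟨C, hC⟩ := h g hg
  refine ⟨max C 0, fun α x y th be A P N hB hN => ?_⟩
  let A' : ℕ → Finset α := fun t => P.filter fun p => th t * x p + be t < y p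
  have e1 : ∀ t, t ≤ N → ∀ p ∈ P, (p ∈ A' t ↔ p ∈ A t) := fun t ht p hp => by
    rw [hB.ab t (Nat.zero_le _) ht p hp, mem_filter]
    exact and_iff_right hp
  have e2 : ∀ t, t ≤ N → P ∩ A' t = P ∩ A t := fun t ht => by
    ext p
    rw [mem_inter, mem_inter]
    exact and_congr_right (e1 t ht p)
  have e3 : ∀ a b, b ≤ N → TV A' P a b = 0 := fun a b hb => by
    refine sum_eq_zero fun t ht => ?_
    rw [mem_Ico] at ht
    rw [e2 t (by omega), e2 (t + 1) (by omega),
      hB.card (t + 1) t (Nat.zero_le _) (by omega) (Nat.zero_le _) (by omega), sub_self, abs_zero]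
  have e4 : ∀ a b, b ≤ N → KS.act A' P a b = KS.act A P a b := fun a b hb => by
    ext p
    rw [KS.mem_act, KS.mem_act]
    refine and_congr_right fun hp => ⟨?_, ?_⟩
    · rintro ⟨s, t, h1, h2, h3, h4, h5, h6⟩
      exact ⟨s, t, h1, h2, h3, h4, (e1 s (h2.trans hb) p hp).1 h5,
        fun c => h6 ((e1 t (h4.trans hb) p hp).2 c)⟩
    · rintro ⟨s, t, h1, h2, h3, h4, h5, h6⟩
      exact ⟨s, t, h1, h2, h3, h4, (e1 s (h2.trans hb) p hp).2 h5,
        fun c => h6 ((e1 t (h4.trans hb) p hp).1 c)⟩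
  have main := hC α x y th be A' P ⟨hB.mono, fun t p hp => by
    rw [mem_filter]
    exact and_iff_right hp⟩ id N monotone_id hN
  have e5 : ∑ i ∈ range N, ((KS.act A P i (i + 1)).card : ℝ) =
      ∑ i ∈ range N, sz A' P (id i) (id (i + 1)) := by
    refine sum_congr rfl fun i hi => ?_
    have hi' : i + 1 ≤ N := mem_range.1 hi
    rw [sz, id, id, e3 _ _ hi', e4 _ _ hi', add_zero]
  have e6 : sz A' P (id 0) (id N) ≤ P.card := by
    rw [sz, id, id, e3 _ _ le_rfl, add_zero]
    exact_mod_cast card_filter_le _ _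
  have e7 : 0 ≤ sz A' P (id 0) (id N) := by
    rw [sz, id, id, e3 _ _ le_rfl, add_zero]
    exact Nat.cast_nonneg _
  have e8 : (0 : ℝ) ≤ (N : ℝ) ^ g := by positivity
  rw [e5]
  refine main.trans ?_
  gcongr
  exact le_max_left _ _

/-- the final statement from exponent zero -/
theorem final_of (h : UB) : ∀ ε : ℝ, 0 < ε → ∃ C : ℝ,
    ∀ (P : Finset (EuclideanSpace ℝ (Fin 2))) (k : ℕ), 1 ≤ k →
      (Set.ncard {S : Finset (EuclideanSpace ℝ (Fin 2)) | S.card = k ∧
        ∃ (v : EuclideanSpace ℝ (Fin 2)) (d : ℝ), v ≠ 0 ∧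
          (S : Set (EuclideanSpace ℝ (Fin 2))) =
            (P : Set (EuclideanSpace ℝ (Fin 2))) ∩ {z | inner ℝ v z < d}} : ℝ) ≤
        C * P.card * (k : ℝ) ^ ε :=
  final_of_up fun _ hε => upB_of (steps_of h) hε

end Pool.Agent.P.MP_77a832_co.EL
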