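import Pool.Agent.P.MP_77a832_co.EL.NDefs
import Pool.Agent.P.MP_77a832_co.KS.ZStar

/-! One node: working definitions and elementary facts. -/

set_option autoImplicit false

namespace Pool.Agent.P.MP_77a832_co.EL.N

open Finset
open scoped Classical

variable {α : Type}

/-- number of active points -/
noncomputable def ua (A : ℕ → Finset α) (E : Finset α) (a b : ℕ) : ℝ := (KS.act A E a b).card

/-- number of points of `E` with different status at the times `s` and `t` -/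
noncomputable def df (A : ℕ → Finset α) (E : Finset α) (s t : ℕ) : ℝ :=
  (E.filter fun p => ¬ (p ∈ A s ↔ p ∈ A t)).card

/-- active points of `S i` in the window `i`, summed over `i < K` -/
noncomputable def uw (A : ℕ → Finset α) (E : Finset α) (τ : ℕ → ℕ) (K : ℕ) (S : ℕ → α → Prop) :
    ℝ := ∑ i ∈ range K, ua A (E.filter (S i)) (τ i) (τ (i + 1))

/-- if a leaving point has the property then so has every entering point -/
def Mo (A : ℕ → Finset α) (E : Finset α) (a b : ℕ) (Φ : α → Prop) : Prop :=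
  ∀ s t, a ≤ s → s ≤ t → t ≤ b → ∀ p ∈ E, ∀ q ∈ E, p ∈ A t → p ∉ A s → q ∈ A s → q ∉ A t →
    Φ q → Φ p

/-- entering points have smaller index than leaving points -/
def Ro (A : ℕ → Finset α) (E : Finset α) (a b : ℕ) (r : α → ℕ) : Prop :=
  ∀ s t, a ≤ s → s ≤ t → t ≤ b → ∀ p ∈ E, ∀ q ∈ E, p ∈ A t → p ∉ A s → q ∈ A s → q ∉ A t →
    r p ≤ r q

/-- `r` cuts `E` into `M` slabs of equal size in the order of `f` -/
structure Sl (f : α → ℝ) (E : Finset α) (M : ℕ) (r : α → ℕ) : Prop where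
  lt : ∀ p ∈ E, r p < M
  ord : ∀ p ∈ E, ∀ q ∈ E, r p < r q → f p ≤ f q
  sm : ∀ j, ((E.filter fun p => r p = j).card : ℝ) ≤ E.card / M + 1

/-- the lines have slopes `si` in some frame that keeps the order of abscissae -/
def Frm (x : α → ℝ) (A : ℕ → Finset α) (E : Finset α) (si : ℕ → ℝ) : Prop :=
  ∃ (X Y : α → ℝ) (io : ℕ → ℝ), (∀ t, ∀ p ∈ E, (p ∈ A t ↔ si t * X p + io t < Y p)) ∧
    ∀ p ∈ E, ∀ q ∈ E, x p < x q → X p < X q

/-- the window `v` has two times that differ by more than `D` -/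
def rich (A : ℕ → Finset α) (E : Finset α) (τ : ℕ → ℕ) (D : ℝ) (v : ℕ) : Prop :=
  ∃ s t, τ v ≤ s ∧ s ≤ τ (v + 1) ∧ τ v ≤ t ∧ t ≤ τ (v + 1) ∧ D < df A E s t

/-- there are rich windows before and after `v` in its block -/
def mid (A : ℕ → Finset α) (E : Finset α) (τ : ℕ → ℕ) (D : ℝ) (Z v : ℕ) : Prop :=
  (∃ u, u < v ∧ u / Z = v / Z ∧ rich A E τ D u) ∧ ∃ u, v < u ∧ u / Z = v / Z ∧ rich A E τ D u

/-- the slopes in the window `v` are not lacunary, seen from the times before its block -/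
def nlf (si : ℕ → ℝ) (τ : ℕ → ℕ) (Z v : ℕ) : Prop :=
  ∀ t t' u, τ v ≤ t → t ≤ τ (v + 1) → τ v ≤ t' → t' ≤ τ (v + 1) → τ 0 ≤ u → u ≤ τ (v / Z * Z) →
    si t - si t' ≤ si t' - si u

/-- the same, seen from the times after its block -/
def nlm (si : ℕ → ℝ) (τ : ℕ → ℕ) (Z v : ℕ) : Prop :=
  ∀ t t' u, τ v ≤ t → t ≤ τ (v + 1) → τ v ≤ t' → t' ≤ τ (v + 1) → τ ((v / Z + 1) * Z) ≤ u →
    u ≤ τ (Z * Z) → si t' - si t ≤ si u - si t'

/-- the slopes in the frame of the left pole -/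
def sL (th be : ℕ → ℝ) (a : ℝ) (t : ℕ) : ℝ := -(th t * a + be t)

/-- the slopes in the frame of the right pole -/
def sR (th be : ℕ → ℝ) (b : ℝ) (t : ℕ) : ℝ := th t * b + be t

/-- clean windows -/
def cln (th be : ℕ → ℝ) (A : ℕ → Finset α) (E : Finset α) (τ : ℕ → ℕ) (Z : ℕ) (a b : ℝ)
    (v : ℕ) : Prop :=
  mid A E τ (3 * TV A E (τ 0) (τ (Z * Z))) Z v ∧ rich A E τ (3 * TV A E (τ 0) (τ (Z * Z))) v ∧
    (nlf th τ Z v ∧ nlm th τ Z v) ∧ (nlf (sL th be a) τ Z v ∧ nlm (sL th be a) τ Z v) ∧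
    nlf (sR th be b) τ Z v ∧ nlm (sR th be b) τ Z v

/-- wide slabs that hold a point active in two clean windows -/
def wide (x : α → ℝ) (A : ℕ → Finset α) (E : Finset α) (τ : ℕ → ℕ) (Z : ℕ) (a b : ℝ)
    (cl : ℕ → Prop) (r : α → ℕ) (j : ℕ) : Prop :=
  ∃ v v', v' < Z * Z ∧ v / Z < v' / Z ∧ cl v ∧ cl v' ∧ ∃ p, p ∈ KS.act A E (τ v) (τ (v + 1)) ∧
    p ∈ KS.act A E (τ v') (τ (v' + 1)) ∧ r p = j ∧ ∃ q ∈ E, r q = j ∧
      ¬ (4 * |x q - x p| ≤ x p - a ∧ 4 * |x q - x p| ≤ b - x p)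

variable {x y : α → ℝ} {th be : ℕ → ℝ} {A : ℕ → Finset α} {E F : Finset α} {a b a' b' s t : ℕ}
  {τ : ℕ → ℕ}

theorem lin_sub (h : Lin x y th be A E) (hF : F ⊆ E) : Lin x y th be A F :=
  ⟨h.mono, fun t p hp => h.ab t p (hF hp)⟩

theorem lin_slope (h : Lin x y th be A E) (hst : s ≤ t) {p q : α} (hp : p ∈ E) (hq : q ∈ E)
    (p1 : p ∈ A t) (p2 : p ∉ A s) (q1 : q ∈ A s) (q2 : q ∉ A t) :
    x p < x q ∧ th s * (x q - x p) < y q - y p ∧ y q - y p < th t * (x q - x p) :=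
  KS.Z.slope (h.mono (lt_of_le_of_ne hst fun e => p2 (e ▸ p1))) (mt (h.ab s p hp).2 p2)
    ((h.ab t p hp).1 p1) ((h.ab s q hq).1 q1) (mt (h.ab t q hq).2 q2)

theorem sz_eq (A : ℕ → Finset α) (E : Finset α) (a b : ℕ) :
    sz A E a b = ua A E a b + TV A E a b := rfl

theorem ua_nonneg (A : ℕ → Finset α) (E : Finset α) (a b : ℕ) : 0 ≤ ua A E a b :=
  Nat.cast_nonneg _

theorem TV_nonneg (A : ℕ → Finset α) (E : Finset α) (a b : ℕ) : 0 ≤ TV A E a b :=
  sum_nonneg fun _ _ => abs_nonneg _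

theorem df_nonneg (A : ℕ → Finset α) (E : Finset α) (s t : ℕ) : 0 ≤ df A E s t :=
  Nat.cast_nonneg _

theorem sz_nonneg (A : ℕ → Finset α) (E : Finset α) (a b : ℕ) : 0 ≤ sz A E a b :=
  add_nonneg (ua_nonneg A E a b) (TV_nonneg A E a b)

theorem ua_le_sz (A : ℕ → Finset α) (E : Finset α) (a b : ℕ) : ua A E a b ≤ sz A E a b :=
  le_add_of_nonneg_right (TV_nonneg A E a b)

theorem TV_le_sz (A : ℕ → Finset α) (E : Finset α) (a b : ℕ) : TV A E a b ≤ sz A E a b :=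
  le_add_of_nonneg_left (ua_nonneg A E a b)

theorem ua_mono (hF : F ⊆ E) (ha : a' ≤ a) (hb : b ≤ b') : ua A F a b ≤ ua A E a' b' :=
  Nat.cast_le.2 (card_le_card (KS.act_mono hF ha hb))

theorem ua_le_card (A : ℕ → Finset α) (E : Finset α) (a b : ℕ) : ua A E a b ≤ E.card :=
  Nat.cast_le.2 (card_le_card (KS.act_subset A E a b))

/-- covering a set by two sets -/
theorem ua_union {G : Finset α} (h : ∀ p ∈ E, p ∈ F ∨ p ∈ G) :
    ua A E a b ≤ ua A F a b + ua A G a b := by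
  unfold ua
  rw [← Nat.cast_add, Nat.cast_le]
  refine le_trans (card_le_card fun p hp => ?_) (card_union_le _ _)
  obtain ⟨h1, h2⟩ := KS.mem_act.1 hp
  exact mem_union.2 ((h p h1).imp (fun e => KS.mem_act.2 ⟨e, h2⟩) fun e => KS.mem_act.2 ⟨e, h2⟩)

/-- covering a set by a finite family -/
theorem ua_biUnion {ι : Type} (J : Finset ι) (G : ι → Finset α) (h : ∀ p ∈ E, ∃ j ∈ J, p ∈ G j) :
    ua A E a b ≤ ∑ j ∈ J, ua A (G j) a b := by
  unfold ua
  rw [← Nat.cast_sum, Nat.cast_le]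
  refine le_trans (card_le_card fun p hp => ?_) card_biUnion_le
  obtain ⟨h1, h2⟩ := KS.mem_act.1 hp
  obtain ⟨j, hj, e⟩ := h p h1
  exact mem_biUnion.2 ⟨j, hj, KS.mem_act.2 ⟨e, h2⟩⟩

theorem ua_empty (A : ℕ → Finset α) (a b : ℕ) : ua A ∅ a b = 0 := by simp [ua, KS.act]

theorem TV_empty (A : ℕ → Finset α) (a b : ℕ) : TV A ∅ a b = 0 := by simp [TV]

theorem sz_empty (A : ℕ → Finset α) (a b : ℕ) : sz A ∅ a b = 0 := by
  rw [sz_eq, ua_empty, TV_empty, add_zero]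

theorem TV_add (A : ℕ → Finset α) (E : Finset α) (h1 : a ≤ s) (h2 : s ≤ b) :
    TV A E a s + TV A E s b = TV A E a b := sum_Ico_consecutive _ h1 h2

theorem TV_mono (ha : a' ≤ a) (hb : b ≤ b') : TV A E a b ≤ TV A E a' b' :=
  sum_le_sum_of_subset_of_nonneg (Ico_subset_Ico ha hb) fun _ _ _ => abs_nonneg _

theorem sz_mono (ha : a' ≤ a) (hb : b ≤ b') : sz A E a b ≤ sz A E a' b' :=
  add_le_add (ua_mono Subset.rfl ha hb) (TV_mono ha hb)

theorem TV_sum (A : ℕ → Finset α) (E : Finset α) (hτ : Monotone τ) (m : ℕ) :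
    ∑ i ∈ range m, TV A E (τ i) (τ (i + 1)) = TV A E (τ 0) (τ m) := by
  induction m with
  | zero => simp [TV]
  | succ m ih => rw [sum_range_succ, ih, TV_add A E (hτ m.zero_le) (hτ m.le_succ)]

theorem net_le' (A : ℕ → Finset α) (E : Finset α) (h : s ≤ t) :
    |((E ∩ A t).card : ℝ) - (E ∩ A s).card| ≤ TV A E s t := by
  rw [← sum_Ico_sub (fun u => ((E ∩ A u).card : ℝ)) h]
  exact abs_sum_le_sum_abs _ _

/-- the net change between two times of a window -/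
theorem net_le (A : ℕ → Finset α) (E : Finset α) (h1 : a ≤ s) (h2 : s ≤ b) (h3 : a ≤ t)
    (h4 : t ≤ b) : |((E ∩ A t).card : ℝ) - (E ∩ A s).card| ≤ TV A E a b := by
  rcases le_total s t with h | h
  · exact (net_le' A E h).trans (TV_mono h1 h4)
  · rw [abs_sub_comm]; exact (net_le' A E h).trans (TV_mono h3 h2)

theorem df_comm (A : ℕ → Finset α) (E : Finset α) (s t : ℕ) : df A E s t = df A E t s := by
  simp only [df, iff_comm (a := _ ∈ A s)]

theorem df_self (A : ℕ → Finset α) (E : Finset α) (s : ℕ) : df A E s s = 0 := by simp [df]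

theorem df_tri (A : ℕ → Finset α) (E : Finset α) (s u t : ℕ) :
    df A E s t ≤ df A E s u + df A E u t := by
  unfold df
  rw [← Nat.cast_add, Nat.cast_le]
  refine le_trans (card_le_card fun p hp => ?_) (card_union_le _ _)
  simp only [mem_union, mem_filter] at hp ⊢
  tauto

/-- nested sets differ by the net change -/
theorem df_nest (h : ∀ p ∈ E, p ∈ A s → p ∈ A t) :
    df A E s t = ((E ∩ A t).card : ℝ) - (E ∩ A s).card := by
  have h1 : E ∩ A s ⊆ E ∩ A t := fun p hp =>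
    mem_inter.2 ⟨(mem_inter.1 hp).1, h p (mem_inter.1 hp).1 (mem_inter.1 hp).2⟩
  rw [← Nat.cast_sub (card_le_card h1), ← card_sdiff_of_subset h1, df]
  congr 2
  ext p
  have := h p
  simp only [mem_filter, mem_sdiff, mem_inter]
  tauto

theorem df_nest_le (h1 : a ≤ s) (h2 : s ≤ b) (h3 : a ≤ t) (h4 : t ≤ b)
    (h : (∀ p ∈ E, p ∈ A s → p ∈ A t) ∨ ∀ p ∈ E, p ∈ A t → p ∈ A s) :
    df A E s t ≤ TV A E a b := by
  rcases h with h | h
  · rw [df_nest h]; exact (le_abs_self _).trans (net_le A E h1 h2 h3 h4)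
  · rw [df_comm, df_nest h]; exact (le_abs_self _).trans (net_le A E h3 h4 h1 h2)

/-- the numbers of points above split along a predicate -/
theorem card_split (E B : Finset α) (Φ : α → Prop) : ((E ∩ B).card : ℝ) =
    (E.filter Φ ∩ B).card + ((E.filter fun p => ¬ Φ p) ∩ B).card := by
  rw [← Nat.cast_add, ← card_filter_add_card_filter_not (s := E ∩ B) Φ, filter_inter,
    filter_inter]

theorem TV_act (A : ℕ → Finset α) (E : Finset α) (a b : ℕ) :
    TV A (KS.act A E a b) a b = TV A E a b := by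
  refine sum_congr rfl fun t ht => ?_
  obtain ⟨h1, h2⟩ := mem_Ico.1 ht
  let Φ : α → Prop := fun p => ∃ s t, a ≤ s ∧ s ≤ b ∧ a ≤ t ∧ t ≤ b ∧ p ∈ A s ∧ p ∉ A t
  have e : (E.filter fun p => ¬ Φ p) ∩ A (t + 1) = (E.filter fun p => ¬ Φ p) ∩ A t := by
    ext p
    simp only [mem_inter, mem_filter, and_congr_right_iff]
    intro hp
    exact ⟨fun h => by_contra fun h' => hp.2 ⟨t + 1, t, by omega, h2, h1, h2.le, h, h'⟩,
      fun h => by_contra fun h' => hp.2 ⟨t, t + 1, h1, h2.le, by omega, h2, h, h'⟩⟩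
  rw [card_split E (A (t + 1)) Φ, card_split E (A t) Φ, e, add_sub_add_right_eq_sub]
  rfl

theorem sz_act (A : ℕ → Finset α) (E : Finset α) (a b : ℕ) :
    sz A (KS.act A E a b) a b = sz A E a b := by
  rw [sz, sz, TV_act, KS.act_act le_rfl le_rfl]

theorem uw_mono {K : ℕ} {S S' : ℕ → α → Prop} (h : ∀ i < K, ∀ p ∈ E, S i p → S' i p) :
    uw A E τ K S ≤ uw A E τ K S' :=
  sum_le_sum fun i hi => ua_mono (fun p hp => mem_filter.2
    ⟨(mem_filter.1 hp).1, h i (mem_range.1 hi) p (mem_filter.1 hp).1 (mem_filter.1 hp).2⟩)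
    le_rfl le_rfl

theorem uw_le (K : ℕ) (S : ℕ → α → Prop) :
    uw A E τ K S ≤ ∑ i ∈ range K, sz A E (τ i) (τ (i + 1)) :=
  sum_le_sum fun _ _ => (ua_mono (filter_subset _ _) le_rfl le_rfl).trans (ua_le_sz _ _ _ _)

theorem uw_or {K : ℕ} {S S₁ S₂ : ℕ → α → Prop} (h : ∀ i < K, ∀ p ∈ E, S i p → S₁ i p ∨ S₂ i p) :
    uw A E τ K S ≤ uw A E τ K S₁ + uw A E τ K S₂ := by
  unfold uw
  rw [← sum_add_distrib]
  refine sum_le_sum fun i hi => ua_union fun p hp => ?_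
  obtain ⟨h1, h2⟩ := mem_filter.1 hp
  exact (h i (mem_range.1 hi) p h1 h2).imp (fun e => mem_filter.2 ⟨h1, e⟩)
    fun e => mem_filter.2 ⟨h1, e⟩

/-- a sum over `q * R` indices in `q` blocks of length `R` -/
theorem sum_blocks (f : ℕ → ℝ) (q R : ℕ) :
    ∑ i ∈ range (q * R), f i = ∑ v ∈ range q, ∑ k ∈ range R, f (v * R + k) := by
  induction q with
  | zero => simp
  | succ q ih => rw [Nat.succ_mul, sum_range_add, ih, sum_range_succ]

theorem mono_mul (hτ : Monotone τ) (R : ℕ) : Monotone fun v => τ (v * R) :=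
  fun _ _ h => hτ (Nat.mul_le_mul_right R h)

theorem mono_add (hτ : Monotone τ) (n : ℕ) : Monotone fun k => τ (n + k) :=
  fun _ _ h => hτ (Nat.add_le_add_left h n)

theorem Ro.mo {r : α → ℕ} (h : Ro A E a b r) (j : ℕ) : Mo A E a b fun p => r p < j :=
  fun s t h1 h2 h3 p hp q hq a1 a2 a3 a4 e => (h s t h1 h2 h3 p hp q hq a1 a2 a3 a4).trans_lt e

theorem Ro.times {r : α → ℕ} (h : Ro A E a b r) (ha : a ≤ a') (hb : b' ≤ b) : Ro A E a' b' r :=
  fun s t h1 h2 h3 => h s t (ha.trans h1) h2 (h3.trans hb)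

theorem Frm.shift {si : ℕ → ℝ} (h : Frm x A E si) (c : ℝ) : Frm x A E fun t => si t - c := by
  obtain ⟨X, Y, io, h1, h2⟩ := h
  refine ⟨X, fun p => Y p - c * X p, io, fun t p hp => ?_, h2⟩
  rw [h1 t p hp]
  constructor <;> intro h <;> linarith

end Pool.Agent.P.MP_77a832_co.EL.N
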