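import Pool.Agent.P.MP_77a832_co.EL.Defs

/-! One node: its cut into cells, the families of children that fail a test. -/

set_option autoImplicit false

namespace Pool.Agent.P.MP_77a832_co.EL

open Finset
open scoped Classical

/-- the bound for windows with lacunary slopes in some frame -/
def LA (r C : ℝ) : Prop := ∀ (α : Type) (x y : α → ℝ) (th be : ℕ → ℝ) (A : ℕ → Finset α)
  (P : Finset α), Lin x y th be A P → ∀ (X Y : α → ℝ) (si io : ℕ → ℝ),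
    (∀ t, ∀ p ∈ P, (p ∈ A t ↔ si t * X p + io t < Y p)) →
    (∀ p ∈ P, ∀ q ∈ P, x p < x q → X p < X q) →
    ∀ (a b : ℕ → ℕ) (la : ℕ → ℝ) (m : ℕ), (∀ i, a i ≤ b i ∧ b i ≤ a (i + 1)) → 0 < la 0 →
      (∀ i, 2 * la i ≤ la (i + 1)) → 1 ≤ m →
      ((∀ i < m, ∀ t, a i ≤ t → t ≤ b i → la i ≤ si t ∧ si t ≤ la (i + 1)) ∨
        ∀ i < m, ∀ t, a i ≤ t → t ≤ b i → la (m - 1 - i) ≤ -si t ∧ -si t ≤ la (m - i)) →
      ∑ i ∈ range m, ((KS.act A P (a i) (b i)).card : ℝ) ≤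
        C * (m : ℝ) ^ r * sz A P (a 0) (b (m - 1))

/-- lacunary slopes give exponent zero -/
def S_LAC : Prop := ∀ r : ℝ, 0 < r → ∃ C : ℝ, LA r C

/-- the cut of a node, its live cells, clean windows and wide slabs -/
structure ND (α : Type) where
  cx : α → ℕ
  ca : α → ℕ
  cb : α → ℕ
  lv : ℕ → ℕ × ℕ × ℕ
  cl : ℕ → Prop
  bx : ℕ → Prop

variable {α : Type}

/-- the cell of a point -/
def ND.cell (N : ND α) (p : α) : ℕ × ℕ × ℕ := (N.cx p, N.ca p, N.cb p)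

/-- the points of `E` in the cell `j` -/
noncomputable def cel (E : Finset α) (c : α → ℕ × ℕ × ℕ) (j : ℕ × ℕ × ℕ) : Finset α :=
  E.filter fun p => c p = j

/-- total size of a family `F` of children (window `i`, cell `j`) -/
noncomputable def fw (A : ℕ → Finset α) (E : Finset α) (τ : ℕ → ℕ) (K M : ℕ)
    (c : α → ℕ × ℕ × ℕ) (F : ℕ → ℕ × ℕ × ℕ → Prop) : ℝ :=
  ∑ i ∈ range K, ∑ j ∈ range M ×ˢ range M ×ˢ range M,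
    if F i j then sz A (cel E c j) (τ i) (τ (i + 1)) else 0

/-- what the data of a node satisfy; the node has `Z ^ w` child windows `[τ i, τ (i + 1)]`, the
windows of depth two are `[τ (v * Z ^ (w - 2)), τ ((v + 1) * Z ^ (w - 2))]`, `v < Z ^ 2`, and
`v / Z` is the window of depth one; `B` bounds all children, `S` each family of bad ones -/
structure NP (x y : α → ℝ) (th : ℕ → ℝ) (A : ℕ → Finset α) (E : Finset α) (τ : ℕ → ℕ)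
    (Z w M : ℕ) (a b η B S : ℝ) (N : ND α) : Prop where
  lt : ∀ p ∈ E, N.cx p < M ∧ N.ca p < M ∧ N.cb p < M
  cone : ∀ p ∈ E, ∀ q ∈ E, N.ca p < N.ca q → N.cb p < N.cb q → x p < x q ∧
    th (τ 0) * (x q - x p) ≤ y q - y p ∧ y q - y p ≤ th (τ (Z ^ w)) * (x q - x p)
  tot : fw A E τ (Z ^ w) M N.cell (fun _ _ => True) ≤ B
  t1 : fw A E τ (Z ^ w) M N.cell (fun i _ => ¬ th (τ (i + 1)) - th (τ i) ≤
    ((Z : ℝ) ^ w) ^ (-(1 - η)) * (th (τ (Z ^ w)) - th (τ 0))) ≤ S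
  t2 : fw A E τ (Z ^ w) M N.cell (fun i j => j ≠ N.lv i) ≤ S
  t3 : (M : ℝ) ≤ sz A E (τ 0) (τ (Z ^ w)) → ∀ hv : ℕ × ℕ → Prop,
    fw A E τ (Z ^ w) M N.cell
      (fun _ j => hv j.2 ∧ ¬ ∃ c, hv c ∧ c.1 < j.2.1 ∧ c.2 < j.2.2) ≤ S ∧
    fw A E τ (Z ^ w) M N.cell
      (fun _ j => hv j.2 ∧ ¬ ∃ c, hv c ∧ j.2.1 < c.1 ∧ j.2.2 < c.2) ≤ S
  t4 : (M : ℝ) ≤ sz A E (τ 0) (τ (Z ^ w)) → fw A E τ (Z ^ w) M N.cell (fun _ j => N.bx j.1) ≤ S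
  t5 : fw A E τ (Z ^ w) M N.cell (fun i j => ¬ (Z : ℝ) ^ 3 * TV A (cel E N.cell j) (τ i) (τ (i + 1))
    ≤ sz A (cel E N.cell j) (τ i) (τ (i + 1))) ≤ S
  t6 : (Z : ℝ) ^ 3 * TV A E (τ 0) (τ (Z ^ w)) ≤ sz A E (τ 0) (τ (Z ^ w)) →
    fw A E τ (Z ^ w) M N.cell (fun i _ => ¬ N.cl (i / Z ^ (w - 2))) ≤ S
  sep : ∀ v v', v' < Z ^ 2 → v / Z < v' / Z → N.cl v → N.cl v' →
    0 < th (τ (v' * Z ^ (w - 2))) - th (τ ((v + 1) * Z ^ (w - 2))) ∧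
    th (τ ((v + 1) * Z ^ (w - 2))) - th (τ (v * Z ^ (w - 2))) ≤
      th (τ (v' * Z ^ (w - 2))) - th (τ ((v + 1) * Z ^ (w - 2))) ∧
    th (τ ((v' + 1) * Z ^ (w - 2))) - th (τ (v' * Z ^ (w - 2))) ≤
      th (τ (v' * Z ^ (w - 2))) - th (τ ((v + 1) * Z ^ (w - 2)))
  xg : ∀ v v', v' < Z ^ 2 → v / Z < v' / Z → N.cl v → N.cl v' → ∀ p,
    p ∈ KS.act A E (τ (v * Z ^ (w - 2))) (τ ((v + 1) * Z ^ (w - 2))) →
    p ∈ KS.act A E (τ (v' * Z ^ (w - 2))) (τ ((v' + 1) * Z ^ (w - 2))) → ¬ N.bx (N.cx p) →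
    ∀ q ∈ E, N.cx q = N.cx p → 4 * |x q - x p| ≤ x p - a ∧ 4 * |x q - x p| ≤ b - x p

/-- every node has such data -/
def S_NODE : Prop := ∀ (γ g η c C₀ C₁ : ℝ) (μ w Z : ℕ), 0 < γ → γ ≤ g → g ≤ 1 → 0 < η → η ≤ 1 →
  c ≤ γ / 2 → c ≤ η → 1 ≤ C₀ → 1 ≤ C₁ → HA g C₀ → LA (γ / 2) C₁ → 5 ≤ μ * γ →
  3 * μ + 5 ≤ w * γ → 2 ≤ Z →
  ∀ (α : Type) (x y : α → ℝ) (th be : ℕ → ℝ) (A : ℕ → Finset α) (E : Finset α) (τ : ℕ → ℕ)
    (a b : ℝ), Lin x y th be A E → (∀ p ∈ E, ∀ q ∈ E, x p = x q → y p = y q → p = q) →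
    Monotone τ → KS.act A E (τ 0) (τ (Z ^ w)) = E → (∀ p ∈ E, a < x p ∧ x p < b) →
    ∃ N : ND α, NP x y th A E τ Z w (Z ^ μ) a b η
      (5 * C₀ * (Z : ℝ) ^ (w * g) * sz A E (τ 0) (τ (Z ^ w)))
      (1000 * C₀ ^ 2 * C₁ * (Z : ℝ) ^ (w * g - c) * sz A E (τ 0) (τ (Z ^ w))) N

end Pool.Agent.P.MP_77a832_co.EL
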