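import Pool.Agent.P.MP_77a832_co.EL.NBase

/-! One node: the statements of the steps. -/

set_option autoImplicit false

namespace Pool.Agent.P.MP_77a832_co.EL

open Finset N
open scoped Classical

-- deps:
def S_NMTV : Prop := ∀ (α : Type) (A : ℕ → Finset α) (E F : Finset α) (a b : ℕ) (Φ Ψ : α → Prop),
  a ≤ b → Mo A E a b Φ → Mo A E a b Ψ →
  ((∀ p, p ∈ F ↔ p ∈ E ∧ Φ p) → TV A F a b ≤ 2 * sz A E a b) ∧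
  ((∀ p, p ∈ F ↔ p ∈ E ∧ Φ p ∧ ¬ Ψ p) → TV A F a b ≤ 4 * sz A E a b)

-- deps:
def S_NSLAB : Prop := ∀ (α : Type) (f : α → ℝ) (E : Finset α) (M : ℕ), 1 ≤ M → ∃ r, Sl f E M r

-- deps:
def S_NGEO : Prop := ∀ (α : Type) (x y : α → ℝ) (th be : ℕ → ℝ) (A : ℕ → Finset α) (E : Finset α)
  (a b M : ℕ) (r r₁ r₂ : α → ℕ), Lin x y th be A E → Sl x E M r →
  Sl (fun p => y p - th a * x p) E M r₁ → Sl (fun p => th b * x p - y p) E M r₂ →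
  Ro A E a b r ∧ Ro A E a b r₁ ∧ Ro A E a b r₂ ∧
  (∀ p ∈ E, ∀ q ∈ E, r₁ p < r₁ q → r₂ q < r₂ p → ∀ t, a ≤ t → t ≤ b → p ∈ A t → q ∈ A t) ∧
  ((∀ p ∈ E, ∀ q ∈ E, x p = x q → y p = y q → p = q) → KS.act A E a b = E →
    ∀ p ∈ E, ∀ q ∈ E, r₁ p < r₁ q → r₂ p < r₂ q → x p < x q ∧
      th a * (x q - x p) ≤ y q - y p ∧ y q - y p ≤ th b * (x q - x p))

-- deps:
def S_NTREE : Prop := ∀ (α : Type) (x y : α → ℝ) (th be : ℕ → ℝ) (A : ℕ → Finset α)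
  (E : Finset α) (τ : ℕ → ℕ) (R : ℕ) (D : ℝ), Lin x y th be A E → Monotone τ →
  (∀ s t, τ 0 ≤ s → s ≤ τ R → τ 0 ≤ t → t ≤ τ R → df A E s t ≤ D) →
  ∑ i ∈ range R, ua A E (τ i) (τ (i + 1)) ≤ ua A E (τ 0) (τ R) + 4 * R * D

-- deps:
def S_NFEW : Prop := ∀ (g C : ℝ), 0 ≤ g → g ≤ 1 → 0 ≤ C → HA g C →
  ∀ (α : Type) (x y : α → ℝ) (th be : ℕ → ℝ) (A : ℕ → Finset α) (E : Finset α) (τ : ℕ → ℕ)
    (K : ℕ) (S : Finset ℕ) (N : ℝ), Lin x y th be A E → Monotone τ → S ⊆ range K →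
    (S.card : ℝ) ≤ N →
    ∑ i ∈ S, sz A E (τ i) (τ (i + 1)) ≤ 2 * C * N ^ g * sz A E (τ 0) (τ K)

-- deps:
def S_NHIER : Prop := ∀ (g C : ℝ), HA g C →
  ∀ (α : Type) (x y : α → ℝ) (th be : ℕ → ℝ) (A : ℕ → Finset α) (E : Finset α) (τ : ℕ → ℕ)
    (q R : ℕ) (F : ℕ → Finset α) (S : ℕ → α → Prop), Lin x y th be A E → Monotone τ → 1 ≤ R →
    (∀ v, F v ⊆ E) → (∀ i < q * R, ∀ p ∈ E, S i p → p ∈ F (i / R)) →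
    uw A E τ (q * R) S ≤
      C * (R : ℝ) ^ g * ∑ v ∈ range q, sz A (F v) (τ (v * R)) (τ ((v + 1) * R))

-- deps: NHIER
def S_NPHS : Prop := ∀ (g C : ℝ), 0 ≤ C → HA g C →
  ∀ (α : Type) (x y : α → ℝ) (th be : ℕ → ℝ) (A : ℕ → Finset α) (E F : Finset α) (τ : ℕ → ℕ)
    (M R : ℕ) (T u : ℝ) (S : ℕ → α → Prop), Lin x y th be A E → Monotone τ → 1 ≤ R → F ⊆ E →
    (∀ i, ∀ p ∈ E, S i p → p ∈ F) → TV A F (τ 0) (τ (M * R)) ≤ T →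
    (∀ a b, τ 0 ≤ a → a ≤ b → b ≤ τ (M * R) → ua A F a b ≤ TV A F a b + u) →
    uw A E τ (M * R) S ≤ C * (R : ℝ) ^ g * (2 * T + M * u)

-- deps: NMTV
def S_NFWU : Prop := ∀ (α : Type) (A : ℕ → Finset α) (E : Finset α) (τ : ℕ → ℕ) (K M : ℕ)
  (N : ND α), Monotone τ → Ro A E (τ 0) (τ K) N.cx → Ro A E (τ 0) (τ K) N.ca →
  Ro A E (τ 0) (τ K) N.cb →
  (∀ F, fw A E τ K M N.cell F ≤
    uw A E τ K (fun i p => F i (N.cell p)) + 4 * (M : ℝ) ^ 3 * sz A E (τ 0) (τ K)) ∧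
  ∀ T : ℝ, 0 ≤ T → fw A E τ K M N.cell (fun i j => ¬ T * TV A (cel E N.cell j) (τ i) (τ (i + 1))
    ≤ sz A (cel E N.cell j) (τ i) (τ (i + 1))) ≤ 4 * T * (M : ℝ) ^ 3 * sz A E (τ 0) (τ K)

-- deps:
def S_NLOCA : Prop := ∀ (α : Type) (A : ℕ → Finset α) (E : Finset α) (a b M : ℕ) (r : α → ℕ)
  (D : ℝ), Ro A E a b r → (∀ p ∈ E, r p < M) →
  (∀ j ≤ M, TV A E a b + TV A (E.filter fun p => r p < j) a b ≤ D) →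
  ∃ j, ∀ s t, a ≤ s → s ≤ b → a ≤ t → t ≤ b →
    df A (E.filter fun p => r p < j) s t ≤ 3 * D ∧ df A (E.filter fun p => j < r p) s t ≤ 3 * D

-- deps: NMTV NTREE NFEW NHIER NLOCA
def S_NLOC : Prop := ∀ (g C : ℝ), 0 ≤ g → g ≤ 1 → 1 ≤ C → HA g C →
  ∀ (α : Type) (x y : α → ℝ) (th be : ℕ → ℝ) (A : ℕ → Finset α) (E : Finset α) (τ : ℕ → ℕ)
    (q Z M : ℕ) (r : α → ℕ), Lin x y th be A E → Monotone τ → 1 ≤ q → 1 ≤ Z → 1 ≤ M →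
    Ro A E (τ 0) (τ (q * Z * Z)) r → (∀ p ∈ E, r p < M) →
    ∃ lv : ℕ → ℕ, uw A E τ (q * Z * Z) (fun i p => r p ≠ lv i) ≤
      (4 * C ^ 2 * ((q : ℝ) * Z) ^ g + 150 * M * (Z : ℝ) ^ 2) * sz A E (τ 0) (τ (q * Z * Z))

-- deps:
def S_NBAND : Prop := ∀ (α : Type) (A : ℕ → Finset α) (F : Finset α) (a b : ℕ) (r₁ r₂ : α → ℕ)
  (u : ℝ),
  (∀ p ∈ F, ∀ q ∈ F, r₁ p < r₁ q → r₂ q < r₂ p → ∀ t, a ≤ t → t ≤ b → p ∈ A t → q ∈ A t) →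
  (∀ p ∈ F, ∀ q ∈ F, ¬ (r₁ p < r₁ q ∧ r₂ p < r₂ q)) →
  (∀ j, ((F.filter fun p => r₁ p = j).card : ℝ) ≤ u) →
  (∀ j, ((F.filter fun p => r₂ p = j).card : ℝ) ≤ u) → ua A F a b ≤ TV A F a b + 4 * u

-- deps: NMTV NBAND NPHS
def S_NCORN : Prop := ∀ (g C : ℝ), 0 ≤ C → HA g C →
  ∀ (α : Type) (x y f₁ f₂ : α → ℝ) (th be : ℕ → ℝ) (A : ℕ → Finset α) (E : Finset α) (τ : ℕ → ℕ)
    (M R : ℕ) (r₁ r₂ : α → ℕ) (hv : ℕ × ℕ → Prop), Lin x y th be A E → Monotone τ → 1 ≤ R →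
    1 ≤ M → (E.card : ℝ) ≤ sz A E (τ 0) (τ (M * R)) → (M : ℝ) ≤ sz A E (τ 0) (τ (M * R)) →
    Sl f₁ E M r₁ → Sl f₂ E M r₂ → Ro A E (τ 0) (τ (M * R)) r₁ → Ro A E (τ 0) (τ (M * R)) r₂ →
    (∀ p ∈ E, ∀ q ∈ E, r₁ p < r₁ q → r₂ q < r₂ p → ∀ t, τ 0 ≤ t → t ≤ τ (M * R) → p ∈ A t →
      q ∈ A t) →
    uw A E τ (M * R) (fun _ p => hv (r₁ p, r₂ p) ∧ ¬ ∃ c, hv c ∧ c.1 < r₁ p ∧ c.2 < r₂ p) ≤
      16 * C * (R : ℝ) ^ g * sz A E (τ 0) (τ (M * R)) ∧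
    uw A E τ (M * R) (fun _ p => hv (r₁ p, r₂ p) ∧ ¬ ∃ c, hv c ∧ r₁ p < c.1 ∧ r₂ p < c.2) ≤
      16 * C * (R : ℝ) ^ g * sz A E (τ 0) (τ (M * R))

-- deps: NMTV NPHS
def S_NSLB : Prop := ∀ (g C : ℝ), 0 ≤ C → HA g C →
  ∀ (α : Type) (x y f : α → ℝ) (th be : ℕ → ℝ) (A : ℕ → Finset α) (E : Finset α) (τ : ℕ → ℕ)
    (M R : ℕ) (r : α → ℕ) (J : Finset ℕ) (B : ℕ → Prop), Lin x y th be A E → Monotone τ →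
    1 ≤ R → 1 ≤ M → (E.card : ℝ) ≤ sz A E (τ 0) (τ (M * R)) →
    (M : ℝ) ≤ sz A E (τ 0) (τ (M * R)) → Sl f E M r → Ro A E (τ 0) (τ (M * R)) r →
    (∀ j, B j → j ∈ J) →
    uw A E τ (M * R) (fun _ p => B (r p)) ≤
      J.card * (10 * C * (R : ℝ) ^ g * sz A E (τ 0) (τ (M * R)))

-- deps: NFEW
def S_NLONG : Prop := ∀ (g C : ℝ), 0 ≤ g → g ≤ 1 → 0 ≤ C → HA g C →
  ∀ (α : Type) (x y : α → ℝ) (th be : ℕ → ℝ) (A : ℕ → Finset α) (E : Finset α) (τ : ℕ → ℕ)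
    (K : ℕ) (N : ℝ), Lin x y th be A E → Monotone τ → 0 < N →
    uw A E τ K (fun i _ => ¬ th (τ (i + 1)) - th (τ i) ≤ N⁻¹ * (th (τ K) - th (τ 0))) ≤
      2 * C * N ^ g * sz A E (τ 0) (τ K)

-- deps:
def S_NORD : Prop := ∀ (α : Type) (x y : α → ℝ) (th be si : ℕ → ℝ) (A : ℕ → Finset α)
  (E : Finset α) (a b u v s t : ℕ), Lin x y th be A E → Frm x A E si → a ≤ u → u ≤ s → u ≤ t →
  s ≤ v → t ≤ v → v ≤ b → 3 * TV A E a b < df A E s t → si u < si v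

-- deps:
def S_NFRM : Prop := ∀ (α : Type) (x y : α → ℝ) (th be : ℕ → ℝ) (A : ℕ → Finset α)
  (E : Finset α) (a b : ℝ), Lin x y th be A E → (∀ p ∈ E, a < x p ∧ x p < b) →
  Frm x A E th ∧ Frm x A E (sL th be a) ∧ Frm x A E (sR th be b)

-- deps:
def S_NHALF : Prop := ∀ S : Finset ℕ, ∃ S₁ S₂ : Finset ℕ, S₁ ⊆ S ∧ S₂ ⊆ S ∧ S = S₁ ∪ S₂ ∧
  (∀ v ∈ S₁, ∀ v' ∈ S₁, v < v' → ∃ u ∈ S, v < u ∧ u < v') ∧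
  ∀ v ∈ S₂, ∀ v' ∈ S₂, v < v' → ∃ u ∈ S, v < u ∧ u < v'

-- deps:
def S_NLAF : Prop := ∀ (r C : ℝ), 0 ≤ r → 0 ≤ C → LA r C →
  ∀ (α : Type) (x y : α → ℝ) (th be si : ℕ → ℝ) (A : ℕ → Finset α) (E : Finset α) (τ : ℕ → ℕ)
    (n n' : ℕ) (S : Finset ℕ) (l h : ℕ → ℝ) (N : ℝ), Lin x y th be A E → Frm x A E si →
    Monotone τ → (∀ v ∈ S, n ≤ v ∧ v < n') → (S.card : ℝ) ≤ N →
    (∀ v ∈ S, 0 < l v ∧ 2 * l v ≤ h v ∧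
      ∀ t, τ v ≤ t → t ≤ τ (v + 1) → l v ≤ si t ∧ si t ≤ h v) →
    (∀ v ∈ S, ∀ v' ∈ S, v < v' → h v ≤ l v') →
    ∑ v ∈ S, ua A E (τ v) (τ (v + 1)) ≤ C * N ^ r * sz A E (τ n) (τ n')

-- deps:
def S_NLMI : Prop := ∀ (r C : ℝ), 0 ≤ r → 0 ≤ C → LA r C →
  ∀ (α : Type) (x y : α → ℝ) (th be si : ℕ → ℝ) (A : ℕ → Finset α) (E : Finset α) (τ : ℕ → ℕ)
    (n n' : ℕ) (S : Finset ℕ) (l h : ℕ → ℝ) (N : ℝ), Lin x y th be A E → Frm x A E si →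
    Monotone τ → (∀ v ∈ S, n ≤ v ∧ v < n') → (S.card : ℝ) ≤ N →
    (∀ v ∈ S, 0 < l v ∧ 2 * l v ≤ h v ∧
      ∀ t, τ v ≤ t → t ≤ τ (v + 1) → l v ≤ -si t ∧ -si t ≤ h v) →
    (∀ v ∈ S, ∀ v' ∈ S, v < v' → h v' ≤ l v) →
    ∑ v ∈ S, ua A E (τ v) (τ (v + 1)) ≤ C * N ^ r * sz A E (τ n) (τ n')

-- deps: NORD NHALF NLAF
def S_NLACF : Prop := ∀ (r C : ℝ), 0 ≤ r → 0 ≤ C → LA r C →
  ∀ (α : Type) (x y : α → ℝ) (th be si : ℕ → ℝ) (A : ℕ → Finset α) (E : Finset α) (τ : ℕ → ℕ)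
    (Z u : ℕ) (S : Finset ℕ), Lin x y th be A E → Frm x A E si → Monotone τ → u < Z →
    (∀ v ∈ S, v / Z = u ∧ mid A E τ (3 * TV A E (τ 0) (τ (Z * Z))) Z v ∧
      rich A E τ (3 * TV A E (τ 0) (τ (Z * Z))) v ∧ ¬ nlf si τ Z v) →
    ∑ v ∈ S, ua A E (τ v) (τ (v + 1)) ≤
      2 * C * (Z : ℝ) ^ r * sz A E (τ (u * Z)) (τ ((u + 1) * Z))

-- deps: NORD NHALF NLMI
def S_NLACM : Prop := ∀ (r C : ℝ), 0 ≤ r → 0 ≤ C → LA r C →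
  ∀ (α : Type) (x y : α → ℝ) (th be si : ℕ → ℝ) (A : ℕ → Finset α) (E : Finset α) (τ : ℕ → ℕ)
    (Z u : ℕ) (S : Finset ℕ), Lin x y th be A E → Frm x A E si → Monotone τ → u < Z →
    (∀ v ∈ S, v / Z = u ∧ mid A E τ (3 * TV A E (τ 0) (τ (Z * Z))) Z v ∧
      rich A E τ (3 * TV A E (τ 0) (τ (Z * Z))) v ∧ ¬ nlm si τ Z v) →
    ∑ v ∈ S, ua A E (τ v) (τ (v + 1)) ≤
      2 * C * (Z : ℝ) ^ r * sz A E (τ (u * Z)) (τ ((u + 1) * Z))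

-- deps: NFRM NLACF NLACM
def S_NBLK : Prop := ∀ (r C : ℝ), 0 ≤ r → 1 ≤ C → LA r C →
  ∀ (α : Type) (x y : α → ℝ) (th be : ℕ → ℝ) (A : ℕ → Finset α) (E : Finset α) (τ : ℕ → ℕ)
    (Z u : ℕ) (a b : ℝ) (S : Finset ℕ), Lin x y th be A E → (∀ p ∈ E, a < x p ∧ x p < b) →
    Monotone τ → u < Z →
    (∀ v ∈ S, v / Z = u ∧ rich A E τ (3 * TV A E (τ 0) (τ (Z * Z))) v ∧
      ¬ cln th be A E τ Z a b v) →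
    ∑ v ∈ S, ua A E (τ v) (τ (v + 1)) ≤
      14 * C * (Z : ℝ) ^ r * sz A E (τ (u * Z)) (τ ((u + 1) * Z))

-- deps: NHIER NBLK
def S_NRICH : Prop := ∀ (g C r C₁ : ℝ), 0 ≤ g → 1 ≤ C → HA g C → 0 ≤ r → 1 ≤ C₁ → LA r C₁ →
  ∀ (α : Type) (x y : α → ℝ) (th be : ℕ → ℝ) (A : ℕ → Finset α) (E : Finset α) (τ : ℕ → ℕ)
    (Z R : ℕ) (a b : ℝ), Lin x y th be A E → (∀ p ∈ E, a < x p ∧ x p < b) → Monotone τ →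
    1 ≤ Z → 1 ≤ R →
    uw A E τ (Z * Z * R) (fun i _ =>
      rich A E (fun v => τ (v * R)) (3 * TV A E (τ 0) (τ (Z * Z * R))) (i / R) ∧
      ¬ cln th be A E (fun v => τ (v * R)) Z a b (i / R)) ≤
      15 * C ^ 2 * C₁ * (Z : ℝ) ^ r * ((Z : ℝ) * R) ^ g * sz A E (τ 0) (τ (Z * Z * R))

-- deps: NHIER NTREE
def S_NPOOR : Prop := ∀ (g C : ℝ), 0 ≤ g → 1 ≤ C → HA g C →
  ∀ (α : Type) (x y : α → ℝ) (th be : ℕ → ℝ) (A : ℕ → Finset α) (E : Finset α) (τ : ℕ → ℕ)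
    (Z q : ℕ), Lin x y th be A E → Monotone τ → 1 ≤ Z → 1 ≤ q →
    (Z : ℝ) ^ 3 * TV A E (τ 0) (τ (Z * Z * (Z * q))) ≤ sz A E (τ 0) (τ (Z * Z * (Z * q))) →
    uw A E τ (Z * Z * (Z * q)) (fun i _ => ¬ rich A E (fun v => τ (v * (Z * q)))
      (3 * TV A E (τ 0) (τ (Z * Z * (Z * q)))) (i / (Z * q))) ≤
      14 * C ^ 2 * ((Z : ℝ) * (Z * q)) ^ g * sz A E (τ 0) (τ (Z * Z * (Z * q)))

-- deps: NORD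
def S_NSEP : Prop := ∀ (α : Type) (x y : α → ℝ) (th be si : ℕ → ℝ) (A : ℕ → Finset α)
  (E : Finset α) (τ : ℕ → ℕ) (Z v v' : ℕ), Lin x y th be A E → Frm x A E si → Monotone τ →
  v' < Z * Z → v / Z < v' / Z → mid A E τ (3 * TV A E (τ 0) (τ (Z * Z))) Z v → nlm si τ Z v →
  nlf si τ Z v' → ∃ d : ℝ, 0 < d ∧ ∀ s t, τ v ≤ s → s ≤ τ (v + 1) → τ v' ≤ t → t ≤ τ (v' + 1) →
    d ≤ si t - si s ∧ si t - si s ≤ 3 * d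

-- deps: NSEP NFRM
def S_NRAT : Prop := ∀ (α : Type) (x y : α → ℝ) (th be : ℕ → ℝ) (A : ℕ → Finset α)
  (E : Finset α) (τ : ℕ → ℕ) (Z v v' : ℕ) (a b : ℝ), Lin x y th be A E →
  (∀ p ∈ E, a < x p ∧ x p < b) → Monotone τ → v' < Z * Z → v / Z < v' / Z →
  cln th be A E τ Z a b v → cln th be A E τ Z a b v' → ∀ p q,
    p ∈ KS.act A E (τ v) (τ (v + 1)) → p ∈ KS.act A E (τ v') (τ (v' + 1)) →
    q ∈ KS.act A E (τ v) (τ (v + 1)) → q ∈ KS.act A E (τ v') (τ (v' + 1)) →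
    x p - a ≤ 9 * (x q - a) ∧ b - x p ≤ 9 * (b - x q)

-- deps:
def S_NCNT : Prop := ∀ (α ι : Type) [LinearOrder ι] (f : α → ℝ) (E S : Finset α) (r : α → ι)
  (J : Finset ι), S ⊆ E → (∀ p ∈ E, 0 < f p) → (∀ p ∈ E, ∀ q ∈ E, r p < r q → f p ≤ f q) →
  (∀ p ∈ S, ∀ q ∈ S, f p ≤ 9 * f q) →
  (∀ j ∈ J, ∃ p ∈ S, r p = j ∧ ∃ q ∈ E, r q = j ∧ f p < 4 * |f q - f p|) → J.card ≤ 20

-- deps: NRAT NCNT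
def S_NWCT : Prop := ∀ (α : Type) (x y : α → ℝ) (th be : ℕ → ℝ) (A : ℕ → Finset α)
  (E : Finset α) (τ : ℕ → ℕ) (Z M : ℕ) (a b : ℝ) (r : α → ℕ), Lin x y th be A E →
  (∀ p ∈ E, a < x p ∧ x p < b) → Monotone τ → Sl x E M r →
  ∃ J : Finset ℕ, J.card ≤ 40 * Z ^ 4 ∧
    ∀ j, wide x A E τ Z a b (cln th be A E τ Z a b) r j → j ∈ J

end Pool.Agent.P.MP_77a832_co.EL
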