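import Pool.Agent.P.MP_77a832_co.EL.NIface

/-! One node: the steps give the data of a node. -/

set_option autoImplicit false

namespace Pool.Agent.P.MP_77a832_co.EL.N

open Finset
open scoped Classical

theorem num {γ g η c : ℝ} {μ w Z : ℕ} (h0 : 0 < γ) (h1 : γ ≤ g) (h2 : g ≤ 1) (h3 : 0 < η)
    (h5 : c ≤ γ / 2) (h6 : c ≤ η) (hμ : 5 ≤ μ * γ) (hw : 3 * μ + 5 ≤ w * γ) (hZ : 2 ≤ Z) :
    (3 ≤ w ∧ μ ≤ w) ∧ ((Z ^ w : ℕ) : ℝ) ^ g = (Z : ℝ) ^ (w * g) ∧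
    ((Z ^ μ : ℕ) : ℝ) ^ 3 ≤ (Z : ℝ) ^ (w * g) ∧
    ((Z ^ μ : ℕ) : ℝ) ^ 3 ≤ (Z : ℝ) ^ (w * g - c) ∧
    (Z : ℝ) ^ 3 * ((Z ^ μ : ℕ) : ℝ) ^ 3 ≤ (Z : ℝ) ^ (w * g - c) ∧
    (((Z : ℝ) ^ w) ^ (1 - η)) ^ g ≤ (Z : ℝ) ^ (w * g - c) ∧
    (((Z ^ (w - 2) : ℕ) : ℝ) * Z) ^ g ≤ (Z : ℝ) ^ (w * g - c) ∧
    ((Z ^ μ : ℕ) : ℝ) * (Z : ℝ) ^ 2 ≤ (Z : ℝ) ^ (w * g - c) ∧
    ((Z ^ (w - μ) : ℕ) : ℝ) ^ g ≤ (Z : ℝ) ^ (w * g - c) ∧
    (Z : ℝ) ^ 4 * ((Z ^ (w - μ) : ℕ) : ℝ) ^ g ≤ (Z : ℝ) ^ (w * g - c) ∧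
    (Z : ℝ) ^ (γ / 2) * ((Z : ℝ) * (Z ^ (w - 2) : ℕ)) ^ g ≤ (Z : ℝ) ^ (w * g - c) := by
  have z2 : (2 : ℝ) ≤ Z := by exact_mod_cast hZ
  have z0 : (0 : ℝ) < Z := by linarith
  have z1 : (1 : ℝ) ≤ Z := by linarith
  have m0 : (0 : ℝ) ≤ μ := Nat.cast_nonneg _
  have w0 : (0 : ℝ) ≤ w := Nat.cast_nonneg _
  have a1 : (w : ℝ) * γ ≤ w * g := mul_le_mul_of_nonneg_left h1 w0
  have a2 : (μ : ℝ) * γ ≤ μ * g := mul_le_mul_of_nonneg_left h1 m0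
  have a3 : (w : ℝ) * g ≤ w := mul_le_of_le_one_right w0 h2
  have hw3 : 3 ≤ w := by exact_mod_cast (by linarith : (3 : ℝ) ≤ w)
  have hwm : μ ≤ w := by exact_mod_cast (by linarith : (μ : ℝ) ≤ w)
  have e1 : ∀ n : ℕ, ((Z ^ n : ℕ) : ℝ) = (Z : ℝ) ^ (n : ℝ) := fun n => by
    rw [Nat.cast_pow, Real.rpow_natCast]
  have e2 : ∀ n : ℕ, (Z : ℝ) ^ n = (Z : ℝ) ^ (n : ℝ) := fun n => (Real.rpow_natCast _ _).symm
  have e3 : ∀ (u : ℝ) (n : ℕ), ((Z : ℝ) ^ u) ^ n = (Z : ℝ) ^ (u * n) := fun u n => by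
    rw [Real.rpow_mul z0.le, Real.rpow_natCast]
  have e4 : ∀ u v : ℝ, ((Z : ℝ) ^ u) ^ v = (Z : ℝ) ^ (u * v) := fun u v =>
    (Real.rpow_mul z0.le u v).symm
  have e5 : ∀ u v : ℝ, (Z : ℝ) ^ u * (Z : ℝ) ^ v = (Z : ℝ) ^ (u + v) := fun u v =>
    (Real.rpow_add z0 u v).symm
  have e6 : ∀ u : ℝ, (Z : ℝ) ^ u * Z = (Z : ℝ) ^ (u + 1) := fun u => by
    rw [Real.rpow_add z0, Real.rpow_one]
  have le : ∀ {u v : ℝ}, u ≤ v → (Z : ℝ) ^ u ≤ (Z : ℝ) ^ v := fun h =>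
    Real.rpow_le_rpow_of_exponent_le z1 h
  have c2 : ((w - 2 : ℕ) : ℝ) = w - 2 := by rw [Nat.cast_sub (by omega)]; norm_num
  have cm : ((w - μ : ℕ) : ℝ) = w - μ := Nat.cast_sub hwm
  refine ⟨⟨hw3, hwm⟩, by rw [e1, e4], ?_, ?_, ?_, ?_, ?_, ?_, ?_, ?_, ?_⟩
  · rw [e1, e3]; exact le (by push_cast; linarith)
  · rw [e1, e3]; exact le (by push_cast; linarith)
  · rw [e1, e3, e2 3, e5]; exact le (by push_cast; linarith)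
  · rw [e2 w, e4, e4]; exact le (by nlinarith)
  · rw [e1, e6, e4, c2]; exact le (by linarith)
  · rw [e1, e2 2, e5]; exact le (by push_cast; linarith)
  · rw [e1, e4, cm]; exact le (by linarith)
  · rw [e1, e4, e2 4, e5, cm]; exact le (by push_cast; linarith)
  · rw [e1, mul_comm (Z : ℝ), e6, e4, e5, c2]; exact le (by linarith)

theorem node_of (hSLAB : S_NSLAB) (hGEO : S_NGEO) (hFWU : S_NFWU) (hLOC : S_NLOC) (hCORN : S_NCORN)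
    (hSLB : S_NSLB) (hLONG : S_NLONG) (hFRM : S_NFRM) (hRICH : S_NRICH) (hPOOR : S_NPOOR)
    (hSEP : S_NSEP) (hWCT : S_NWCT) : S_NODE := by
  intro γ g η c C₀ C₁ μ w Z h0 h1 h2 h3 h4 h5 h6 hC hC1 hA hL hμ hw hZ α x y th be A E τ a b hE
    hinj hτ hact hab
  obtain ⟨⟨hw3, hwm⟩, n0, n1, n2, n3, n4, n5, n6, n7, n8, n9⟩ := num h0 h1 h2 h3 h5 h6 hμ hw hZ
  have g0 : 0 ≤ g := by linarith
  have C0 : 0 ≤ C₀ := by linarith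
  have z1 : 1 ≤ Z := by omega
  have pw : ∀ n, 1 ≤ Z ^ n := fun n => Nat.one_le_pow n Z z1
  have k1 : Z ^ (w - 2) * Z * Z = Z ^ w := by
    rw [← pow_succ, ← pow_succ]; congr 1; omega
  have k2 : Z ^ μ * Z ^ (w - μ) = Z ^ w := by rw [← pow_add]; congr 1; omega
  have k3 : Z * Z * Z ^ (w - 2) = Z ^ w := by rw [← k1]; ring
  have k4 : Z * Z ^ (w - 3) = Z ^ (w - 2) := by rw [← pow_succ']; congr 1; omega
  have k5 : (Z : ℝ) * (Z ^ (w - 3) : ℕ) = (Z ^ (w - 2) : ℕ) := by rw [← k4, Nat.cast_mul]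
  obtain ⟨r, hr⟩ := hSLAB α x E _ (pw μ)
  obtain ⟨r₁, hr₁⟩ := hSLAB α (fun p => y p - th (τ 0) * x p) E _ (pw μ)
  obtain ⟨r₂, hr₂⟩ := hSLAB α (fun p => th (τ (Z ^ w)) * x p - y p) E _ (pw μ)
  obtain ⟨o, o₁, o₂, f2, cone⟩ := hGEO α x y th be A E _ _ _ r r₁ r₂ hE hr hr₁ hr₂
  obtain ⟨l, hl⟩ := hLOC g C₀ g0 h2 hC hA α x y th be A E τ _ Z _ r hE hτ (pw (w - 2)) z1 (pw μ)
    (by rwa [k1]) hr.lt
  obtain ⟨l₁, hl₁⟩ := hLOC g C₀ g0 h2 hC hA α x y th be A E τ _ Z _ r₁ hE hτ (pw (w - 2)) z1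
    (pw μ) (by rwa [k1]) hr₁.lt
  obtain ⟨l₂, hl₂⟩ := hLOC g C₀ g0 h2 hC hA α x y th be A E τ _ Z _ r₂ hE hτ (pw (w - 2)) z1
    (pw μ) (by rwa [k1]) hr₂.lt
  rw [k1] at hl hl₁ hl₂
  have hτ2 : Monotone fun v => τ (v * Z ^ (w - 2)) := mono_mul hτ _
  let cl := cln th be A E (fun v => τ (v * Z ^ (w - 2))) Z a b
  let N : ND α := ⟨r, r₁, r₂, fun i => (l i, l₁ i, l₂ i), cl,
    wide x A E (fun v => τ (v * Z ^ (w - 2))) Z a b cl r⟩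
  obtain ⟨fu, f5⟩ := hFWU α A E τ (Z ^ w) (Z ^ μ) N hτ o o₁ o₂
  have hcard : (E.card : ℝ) ≤ sz A E (τ 0) (τ (Z ^ w)) := by
    have := ua_le_sz A E (τ 0) (τ (Z ^ w))
    rwa [ua, hact] at this
  have s0 := sz_nonneg A E (τ 0) (τ (Z ^ w))
  have hP := hPOOR g C₀ g0 hC hA α x y th be A E τ Z _ hE hτ z1 (pw (w - 3))
  have hR := hRICH g C₀ (γ / 2) C₁ g0 hC hA (by linarith) hC1 hL α x y th be A E τ Z _ a b hE hab
    hτ z1 (pw (w - 2))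
  rw [k5, k4, k3] at hP
  rw [k3] at hR
  have hN := fun hv => hCORN g C₀ C0 hA α x y (fun p => y p - th (τ 0) * x p)
    (fun p => th (τ (Z ^ w)) * x p - y p) th be A E τ (Z ^ μ) (Z ^ (w - μ)) r₁ r₂ hv hE hτ
    (pw _) (pw _)
  obtain ⟨J, hJ, hJ'⟩ := hWCT α x y th be A E _ Z _ a b r hE hab hτ2 hr
  have hS := hSLB g C₀ C0 hA α x y x th be A E τ (Z ^ μ) (Z ^ (w - μ)) r J N.bx hE hτ (pw _)
    (pw _)
  rw [k2] at hN hS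
  have zp : (0 : ℝ) < Z := by exact_mod_cast z1
  have hG := hLONG g C₀ g0 h2 C0 hA α x y th be A E τ (Z ^ w) (((Z : ℝ) ^ w) ^ (1 - η)) hE hτ
    (by positivity)
  rw [← Real.rpow_neg (by positivity)] at hG
  have hT := hA α x y th be A E hE τ (Z ^ w) hτ (pw w)
  rw [n0] at hT
  obtain ⟨fr, -, -⟩ := hFRM α x y th be A E a b hE hab
  generalize hs : sz A E (τ 0) (τ (Z ^ w)) = s at *
  generalize (Z : ℝ) ^ (w * g - c) = Q at *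
  have Q0 : 0 ≤ Q := le_trans (by positivity) n2
  have d2 : C₀ ^ 2 ≤ C₀ ^ 2 * C₁ := le_mul_of_one_le_right (by positivity) hC1
  have d1 : C₀ ≤ C₀ ^ 2 * C₁ := le_trans (by nlinarith) d2
  have d0 : 1 ≤ C₀ ^ 2 * C₁ := hC.trans d1
  have sc : ∀ {k X : ℝ}, 0 ≤ X → k ≤ C₀ ^ 2 * C₁ → X ≤ Q → k * X * s ≤ C₀ ^ 2 * C₁ * Q * s :=
    fun hX hk hQ => mul_le_mul_of_nonneg_right (mul_le_mul hk hQ hX (by linarith)) s0
  have p0 : 0 ≤ C₀ ^ 2 * C₁ * Q * s := by positivity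
  have m3 := sc (by positivity) d0 n2
  have key : ∀ F, uw A E τ (Z ^ w) (fun i p => F i (N.cell p)) ≤
      996 * (C₀ ^ 2 * C₁ * Q * s) → fw A E τ (Z ^ w) (Z ^ μ) N.cell F ≤
      1000 * C₀ ^ 2 * C₁ * Q * s := fun F h => by linarith [fu F]
  have ix : ∀ v v', v / Z < v' / Z → v + 1 ≤ (v / Z + 1) * Z ∧ (v / Z + 1) * Z ≤ v' / Z * Z ∧
      v' / Z * Z ≤ v' := fun v v' h =>
    ⟨Nat.succ_le_of_lt ((Nat.div_lt_iff_lt_mul z1).1 (Nat.lt_succ_self _)),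
      Nat.mul_le_mul_right Z h, Nat.div_mul_le_self _ _⟩
  refine ⟨N, fun p hp => ⟨hr.lt p hp, hr₁.lt p hp, hr₂.lt p hp⟩, cone hinj hact, ?_, key _ ?_,
    key _ ?_, fun hM hv => ⟨key _ ?_, key _ ?_⟩, fun hM => key _ ?_, ?_, fun h => key _ ?_,
    fun v v' hv hvv c1 c2 => ?_, fun v v' hv hvv c1 c2 p p1 p2 hb q hq e => ?_⟩
  · have t1 := uw_le (A := A) (E := E) (τ := τ) (Z ^ w) fun _ _ => True
    have t2 : 1 * ((Z ^ μ : ℕ) : ℝ) ^ 3 * s ≤ C₀ * (Z : ℝ) ^ (w * g) * s :=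
      mul_le_mul_of_nonneg_right (mul_le_mul hC n1 (by positivity) C0) s0
    linarith [fu fun _ _ => True]
  · exact hG.trans (by linarith [sc (by positivity) d1 n4])
  · have u1 := uw_or (A := A) (E := E) (τ := τ) (K := Z ^ w)
      (S := fun i p => N.cell p ≠ N.lv i) (S₁ := fun i p => r p ≠ l i)
      (S₂ := fun i p => r₁ p ≠ l₁ i ∨ r₂ p ≠ l₂ i) fun i _ p _ h => by
        by_contra hc
        simp only [not_or, not_not] at hc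
        exact h (Prod.ext hc.1 (Prod.ext hc.2.1 hc.2.2))
    have u2 := uw_or (A := A) (E := E) (τ := τ) (K := Z ^ w)
      (S := fun i p => r₁ p ≠ l₁ i ∨ r₂ p ≠ l₂ i) fun i _ p _ h => h
    linarith [sc (by positivity) d2 n5, sc (by positivity) d0 n6]
  · exact (hN hv hcard (hs ▸ hM) hr₁ hr₂ o₁ o₂ f2).1.trans (by linarith [sc (by positivity) d1 n7])
  · exact (hN hv hcard (hs ▸ hM) hr₁ hr₂ o₁ o₂ f2).2.trans (by linarith [sc (by positivity) d1 n7])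
  · refine (hS hcard (hs ▸ hM) hr o hJ').trans ?_
    have j1 : (J.card : ℝ) ≤ 40 * (Z : ℝ) ^ 4 := by exact_mod_cast hJ
    refine (mul_le_mul_of_nonneg_right j1 (by positivity)).trans ?_
    linarith [sc (by positivity) d1 n8]
  · exact (f5 _ (by positivity)).trans (by linarith [sc (by positivity) d0 n3])
  · have u1 := uw_or (A := A) (E := E) (τ := τ) (K := Z ^ w)
      (S := fun i _ => ¬ cl (i / Z ^ (w - 2)))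
      (S₁ := fun i _ => rich A E (fun v => τ (v * Z ^ (w - 2))) (3 * TV A E (τ 0) (τ (Z ^ w)))
        (i / Z ^ (w - 2)) ∧ ¬ cl (i / Z ^ (w - 2)))
      (S₂ := fun i _ => ¬ rich A E (fun v => τ (v * Z ^ (w - 2))) (3 * TV A E (τ 0) (τ (Z ^ w)))
        (i / Z ^ (w - 2))) fun i _ p _ h => by tauto
    have one : (1 : ℝ) ≤ (Z : ℝ) ^ (γ / 2) :=
      Real.one_le_rpow (by exact_mod_cast z1) (by linarith)
    have n10 : ((Z : ℝ) * (Z ^ (w - 2) : ℕ)) ^ g ≤ Q :=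
      (le_mul_of_one_le_left (by positivity) one).trans n9
    refine u1.trans ?_
    linarith [sc (by positivity) le_rfl n9, sc (by positivity) d2 n10, hP (hs ▸ h)]
  · obtain ⟨i1, i2, i3⟩ := ix v v' hvv
    rw [sq] at hv
    obtain ⟨d, d0, hd⟩ := hSEP α x y th be th A E _ Z v v' hE fr hτ2 hv hvv c1.1 c1.2.2.1.2
      c2.2.2.1.1
    exact ⟨d0.trans_le (hd _ _ (hτ2 v.le_succ) le_rfl le_rfl (hτ2 v'.le_succ)).1,
      c1.2.2.1.2 _ _ _ le_rfl (hτ2 v.le_succ) (hτ2 v.le_succ) le_rfl (hτ2 (i2.trans i3))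
        (hτ2 hv.le),
      c2.2.2.1.1 _ _ _ (hτ2 v'.le_succ) le_rfl le_rfl (hτ2 v'.le_succ) (hτ2 (Nat.zero_le _))
        (hτ2 (i1.trans i2))⟩
  · by_contra hc
    exact hb ⟨v, v', by rwa [sq] at hv, hvv, c1, c2, p, p1, p2, rfl, q, hq, e, hc⟩

end Pool.Agent.P.MP_77a832_co.EL.N
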