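import Pool.Agent.P.MP_77a832_co.EL.BIface

/-! Step CODE. -/

set_option autoImplicit false

namespace Pool.Agent.P.MP_77a832_co.EL

open Finset Real Pool.Agent.P.MP_bf60a1_an.RA
open scoped Classical

theorem p_CODE (hCP : S_CP) :
    S_CODE := by
  intro Ω α β _ P Z V φ g hφ hg dφ dg h
  rw [← P.tower V fun _ ω => φ ω * (g ω / cq P Z V ω)]
  refine P.E_mono fun ω hω => ?_
  have e : (P.cv V (V ω)).E (fun z => φ z * (g z / cq P Z V z)) =
      φ ω * (P.cv V (V ω)).E fun z => g z / (P.cv V (V ω)).cl Z z := by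
    rw [← FP.E_mul_left]
    refine FP.E_congr _ fun z hz => ?_
    have h1 := P.cv_eq hω hz
    rw [dφ z ω (P.cv_pos hz) hω h1, P.cl_cv Z hω h1]
    simp only [cq, cp, FP.cl, Prod.mk.injEq]
  rw [e]
  refine mul_le_of_le_one_right (hφ ω hω) ?_
  obtain ⟨u, u1, u2, u3⟩ := Finset.exists_subset_injOn_image_eq_of_surjOn (f := Z)
    {z | 0 < P.p z ∧ V z = V ω} ((univ.filter fun z => 0 < P.p z ∧ V z = V ω).image Z) (by
      intro a ha
      obtain ⟨z, hz, rfl⟩ := mem_image.1 (mem_coe.1 ha)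
      exact ⟨z, (mem_filter.1 hz).2, rfl⟩)
  have : Nonempty Ω := ⟨ω⟩
  have hi : ∀ z ∈ u, Function.invFunOn Z u (Z z) = z := fun z hz => u2.leftInvOn_invFunOn hz
  refine (FP.E_div_cl_le _ Z (g := fun a => g (Function.invFunOn Z u a)) (u.image Z)
    (fun a ha => ?_) fun z hz => Or.inr ?_).trans ?_
  · obtain ⟨z, hz, rfl⟩ := mem_image.1 ha
    rw [hi z hz]
    exact hg z (u1 hz).1
  · have h1 : Z z ∈ u.image Z := by
      rw [u3]
      exact mem_image_of_mem _ (mem_filter.2 ⟨mem_univ _, P.cv_pos hz, P.cv_eq hω hz⟩)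
    refine ⟨h1, ?_⟩
    obtain ⟨y, hy, e1⟩ := mem_image.1 h1
    rw [← e1, hi y hy]
    exact (dg z y (P.cv_pos hz) (u1 hy).1
      (Prod.ext e1.symm ((P.cv_eq hω hz).trans (u1 hy).2.symm))).le
  · rw [sum_image u2, sum_congr rfl fun z hz => congrArg g (hi z hz)]
    exact h ω hω u (fun z hz => u1 hz) u2

end Pool.Agent.P.MP_77a832_co.EL
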