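import Pool.Agent.P.MP_77a832_co.EL.BIface
import Pool.Agent.P.MP_77a832_co.EL.BudEnt

/-! Step CP. -/

set_option autoImplicit false

namespace Pool.Agent.P.MP_77a832_co.EL

open Finset Real Pool.Agent.P.MP_bf60a1_an.RA
open scoped Classical

namespace CPc

end CPc

theorem p_CP :
    S_CP := by
  intro Ω α β γ _ P V
  refine ⟨fun s φ hφ => ?_, fun s ω => ⟨?_, ?_⟩, fun s ω z h => ?_, fun s ω hω => Bud.cp_eq_cv P s V hω,
    fun s V' ω h => ?_, fun Z ω => Bud.cq_eq P Z V ω, fun Z ω hω => Bud.cq_pos P Z V hω, fun Z => ?_⟩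
  · rw [Bud.E_wt P hφ fun ω => ind (s ω)]
    exact P.E_congr fun ω hω => by rw [Bud.cp_eq_cv P s V hω]; rfl
  · exact div_nonneg (P.pr_nonneg _) (P.cl_nonneg _ _)
  · exact div_le_one_of_le₀ (P.pr_mono fun _ _ h => h.2) (P.cl_nonneg _ _)
  · unfold cp FP.cl; rw [h]
  · unfold cp FP.cl
    rw [P.pr_congr h, P.pr_congr fun z hz => and_congr_right fun _ : s z => h z hz]
  · rw [FP.Hc_eq]; unfold Hw; simp only [one_mul, Bud.cq_eq]

end Pool.Agent.P.MP_77a832_co.EL
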