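import Pool.Agent.P.MP_77a832_co.EL.BudAt

/-! Step DVS. -/

set_option autoImplicit false

namespace Pool.Agent.P.MP_77a832_co.EL

open Finset Real Pool.Agent.P.MP_bf60a1_an.RA
open scoped Classical

namespace DVSc

end DVSc

theorem p_DVS (hHWM : S_HWM) (hHWS : S_HWS) (hCHN : S_CHN) (hELL : S_ELL) (hLAMC : S_LAMC) :
    S_DVS := by
  intro Ω α β _ D p hD σ σ' u y
  obtain ⟨-, -, -, -, c5, -⟩ := hCHN _ _ _ D p hD
  have dL := Bud.dLam hLAMC hD σ σ' u y
  have dC := fun r n => Bud.dCand hELL hD σ σ' u r n y
  unfold PD.Dv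
  simp only [sum_sub_distrib, Bud.Hw_sum]
  rw [mul_sub, ← Bud.Hw_smul, ← Bud.Hw_smul]
  refine Bud.Hw_diff_mono D.Q _ (fun a b ha hb e => ?_) (fun a b ha hb e => ?_) (fun ω _ => ?_)
    fun _ _ _ _ h => congrArg Prod.snd h
  · refine sum_congr rfl fun r _ => sum_congr rfl fun n _ => ?_
    rw [dL a b ha hb e, dC r n a b ha hb e]
  · simp only [dL a b ha hb e]
  · simp only [ind_and, ← mul_sum]
    rw [mul_comm]
    refine mul_le_mul_of_nonneg_right ?_ (ind_nonneg _)
    have hL := hD.ok.hL
    rw [sum_sigma']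
    simp only [ind, sum_boole]
    have key : (((range p.R).sigma p.grp).filter fun t => D.cand p t.1 t.2 y ω).card ≤
        (Ico (D.ell p y ω - p.mu) (D.ell p y ω)).card := by
      refine card_le_card_of_injOn (fun t => t.2) (fun t ht => ?_) fun t ht t' ht' e => ?_
      · obtain ⟨h1, h2⟩ := mem_filter.1 (mem_coe.1 ht)
        obtain ⟨h3, h4⟩ := mem_sigma.1 h1
        have := ((c5 _ (mem_range.1 h3)).2 _ h4).2.2
        have := h2.1
        have := h2.2.1
        exact mem_coe.2 (mem_Ico.2 ⟨by simp only; omega, by simp only; omega⟩)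
      · obtain ⟨r, n⟩ := t
        obtain ⟨r', n'⟩ := t'
        simp only at e
        subst e
        have h1 := mem_Ico.1 (mem_sigma.1 (mem_filter.1 (mem_coe.1 ht)).1).2
        have h2 := mem_Ico.1 (mem_sigma.1 (mem_filter.1 (mem_coe.1 ht')).1).2
        simp only at h1 h2
        have : r = r' := by
          rcases lt_trichotomy r r' with h | h | h
          · have := Nat.mul_le_mul_right p.L (Nat.succ_le_of_lt h)
            rw [Nat.succ_mul] at this
            omega
          · exact h
          · have := Nat.mul_le_mul_right p.L (Nat.succ_le_of_lt h)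
            rw [Nat.succ_mul] at this
            omega
        rw [this]
    rw [Nat.card_Ico] at key
    exact_mod_cast key.trans (by omega)

end Pool.Agent.P.MP_77a832_co.EL
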