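import Pool.Agent.P.MP_77a832_co.EL.BIface

/-! Step FIX. -/

set_option autoImplicit false

namespace Pool.Agent.P.MP_77a832_co.EL

open Finset Real Pool.Agent.P.MP_bf60a1_an.RA
open scoped Classical

namespace FIXc

theorem nums {p : Par} (h : p.OK) :
    0 < p.τ ∧ (1 : ℝ) ≤ p.N ∧ 14 * p.z1 * p.T ≤ p.τ * p.N ∧ 0 < 3 * p.η * p.R ∧
      p.z1 * p.T / (p.η * p.J) + (2 : ℝ) ^ (-p.η * p.I * p.J) ≤ p.τ := by
  have hτ : 0 < p.τ := by
    have := h.c00; have := h.g0; have := h.η0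
    unfold Par.τ; positivity
  have hN : (1 : ℝ) ≤ p.N := by
    have := h.hN
    exact_mod_cast (by omega : 1 ≤ p.N)
  have hΛ : (1 : ℝ) ≤ p.Λ := by exact_mod_cast h.Λ1
  have hN1 : (1 : ℝ) ≤ p.N1 := by exact_mod_cast h.N11
  have hT : (p.T : ℝ) = (p.Λ + 3) * p.N := by
    simp only [Par.T, Par.J]; push_cast; ring
  have hJ : (p.J : ℝ) = p.Λ * p.N := by
    simp only [Par.J]; push_cast; ring
  have hR : (p.R : ℝ) = p.Λ * p.N1 := by
    simp only [Par.R]; push_cast; ring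
  have hη := h.η0
  have hη1 : p.η ≤ 1 := h.η1.trans (by norm_num)
  have hz : 400 * p.z1 * (p.Λ + 3) ≤ p.η * p.τ :=
    h.hz.trans (by
      have := mul_le_mul_of_nonneg_left h.g11 hη.le
      nlinarith)
  have hz' : p.η * p.τ ≤ p.τ := by nlinarith
  have hus : 1 ≤ p.us := by
    have h1 : (1 : ℝ) ≤ p.m := by
      exact_mod_cast (by unfold Par.m; omega : 1 ≤ p.m)
    have h2 : (0 : ℝ) ≤ 2 * p.I * p.J / p.θ0 := by
      have := h.θ00
      positivity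
    unfold Par.us
    nlinarith
  refine ⟨hτ, hN, ?_, by rw [hR]; positivity, ?_⟩
  · rw [hT]
    have : 14 * p.z1 * (p.Λ + 3) ≤ p.τ := by linarith
    calc 14 * p.z1 * ((p.Λ + 3) * p.N) = 14 * p.z1 * (p.Λ + 3) * p.N := by ring
      _ ≤ _ := by gcongr
  · have h1 : p.z1 * p.T / (p.η * p.J) ≤ p.τ / 2 := by
      rw [div_le_iff₀ (by rw [hJ]; positivity), hT, hJ]
      have h2 : p.z1 * (p.Λ + 3) ≤ p.τ / 2 * (p.η * p.Λ) := by
        have : p.η * p.τ * 1 ≤ p.η * p.τ * p.Λ := by gcongr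
        have h3 : 0 < p.η * p.τ := by positivity
        nlinarith
      calc p.z1 * ((p.Λ + 3) * p.N) = p.z1 * (p.Λ + 3) * p.N := by ring
        _ ≤ p.τ / 2 * (p.η * p.Λ) * p.N := by gcongr
        _ = _ := by ring
    have h2 := h.hc
    have h3 : (0 : ℝ) < (2 : ℝ) ^ (-p.η * p.I * p.J) := by positivity
    nlinarith

end FIXc

theorem p_FIX (hCHN : S_CHN) (hSM : S_SM) (hCEN : S_CEN) (hSELB : S_SELB) (hKR : S_KR) (hNLAM : S_NLAM) (hZB : S_ZB) (hLAMC : S_LAMC) (hEND : S_END) :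
    S_FIX := by
  intro Ω α β _ D p hD hN hW σ A hA
  obtain ⟨hτ, hN1, n1, n2, n3⟩ := FIXc.nums hD.ok
  obtain ⟨s1, s2, s3, s4, s5, -⟩ := hSM _ _ _ D p hD A
  have hcap : p.cap + p.N + 2 ≤ p.T := (hCHN _ _ _ D p hD).2.2.2.2.2.1
  have b0 : p.c0 * p.g1 * p.N / 2 - 14 * p.z1 * p.T ≤ D.Sm p A fun _ _ w => D.G0 p w.1 := by
    refine (hSELB _ _ _ D p hD hW).2.trans (le_trans ?_ (s4 hN hA fun _ ω => D.G0 p ω))
    exact sum_le_sum fun i _ => D.Q.pr_mono fun ω _ h => ⟨h.2, h.1⟩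
  have b1 := s1 (fun _ _ w => D.G0 p w.1) (fun l u w => ¬ D.xs p σ u w.1 ∨ ¬ D.kr p l w.1 ∨
      (D.xs p σ u w.1 ∧ D.kr p l w.1 ∧ ¬ D.Lam p σ u w.1) ∨
      (D.Lam p σ u w.1 ∧ D.Zbig p σ u w.1) ∨
      3 * p.η * p.R < ((@filter _ (fun r => D.G0 p w.1 ∧ D.xs p σ u w.1 ∧
        D.kr p l w.1 ∧ D.Lam p σ u w.1 ∧ ¬ D.good p σ u r w.1)
        (fun _ => Classical.propDecidable _) (range p.R)).card : ℝ)) (by
    intro l u w h1 h2 _ h3 h4 h5 h6
    by_cases c1 : D.xs p σ u w.1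
    swap
    · exact Or.inl c1
    by_cases c2 : D.kr p l w.1
    swap
    · exact Or.inr (Or.inl c2)
    by_cases c3 : D.Lam p σ u w.1
    swap
    · exact Or.inr (Or.inr (Or.inl ⟨c1, c2, c3⟩))
    by_cases c4 : D.Zbig p σ u w.1
    · exact Or.inr (Or.inr (Or.inr (Or.inl ⟨c3, c4⟩)))
    refine Or.inr (Or.inr (Or.inr (Or.inr ?_)))
    refine (hEND _ _ _ D p hD σ l u w.1 w.2 h1 h2 h3 h4 h5 c1 c2 h6 c4).trans_le ?_
    refine Nat.cast_le.2 (card_le_card fun r hr => ?_)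
    rw [mem_filter] at hr
    exact (@mem_filter _ _ (fun _ => Classical.propDecidable _) _ _).2
      ⟨hr.1, h6, c1, c2, c3, hr.2⟩)
  have b2 : D.Sm p A (fun l _ w => ¬ D.kr p l w.1) ≤ p.τ * p.N := by
    refine (s3 fun l ω => ¬ D.kr p l ω).trans ?_
    refine (sum_le_card_nsmul _ _ p.τ fun i hi => ?_).trans (by simp [mul_comm])
    have := mem_range.1 hi
    exact (D.Q.pr_mono fun ω _ h => h.2).trans
      ((hKR _ _ _ D p hD hW (p.cap + i) (by omega)).trans n3)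
  have b3 := (hNLAM _ _ _ D p hD σ A).trans hD.ok.hb
  have b4 : D.Sm p A (fun _ u w => D.Lam p σ u w.1 ∧ D.Zbig p σ u w.1) ≤ p.τ * p.N := by
    refine (hCEN _ _ _ D p hD A fun u ω => D.Lam p σ u ω ∧ D.Zbig p σ u ω).trans ?_
    have c1 : ∑ u ∈ range A, D.Q.pr (fun ω => D.Lam p σ u ω ∧ D.Zbig p σ u ω) ≤
        (2 : ℝ) ^ (-p.η * p.I * p.J) * p.us := by
      refine (sum_le_sum fun u _ => hZB _ _ _ D p hD σ u).trans ?_
      rw [← mul_sum]
      exact mul_le_mul_of_nonneg_left (hLAMC _ _ _ D p hD σ A).2.1 (by positivity)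
    have c2 := hD.ok.hc
    have c3 : p.τ * 1 ≤ p.τ * p.N := by gcongr
    linarith
  have b5 := s5 (range p.R) (fun r l u w => D.G0 p w.1 ∧ D.xs p σ u w.1 ∧ D.kr p l w.1 ∧
    D.Lam p σ u w.1 ∧ ¬ D.good p σ u r w.1) _ n2
  have b6 := b1.trans ((s2 _ _).trans (add_le_add le_rfl ((s2 _ _).trans (add_le_add b2
    ((s2 _ _).trans (add_le_add b3 ((s2 _ _).trans (add_le_add b4 b5))))))))
  have c3 : 0 ≤ p.τ * p.N := by positivity
  linarith

end Pool.Agent.P.MP_77a832_co.EL
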