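import Pool.Agent.P.MP_77a832_co.EL.NIface

/-! Step NLOC. -/

set_option autoImplicit false

namespace Pool.Agent.P.MP_77a832_co.EL

open Finset Real Pool.Agent.P.MP_bf60a1_an.RA
open scoped Classical

open N

namespace NLOCc

variable {α : Type}

theorem memf {E : Finset α} {S : α → Prop} {p : α} (h : p ∈ E.filter S) : p ∈ E ∧ S p :=
  mem_filter.1 h

theorem few (f : ℕ → ℝ) (n q : ℕ) (D : ℝ) (h0 : ∀ v, 0 ≤ f v) (hD : 0 ≤ D)
    (h : ∑ v ∈ range n, f v ≤ q * D) : (#{v ∈ range n | D < f v} : ℝ) ≤ q := by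
  rcases ({v ∈ range n | D < f v} : Finset ℕ).eq_empty_or_nonempty with e | e
  · rw [e]; simp
  have h1 := sum_lt_sum_of_nonempty e (f := fun _ => D) (g := f) fun v hv => (mem_filter.1 hv).2
  rw [sum_const, nsmul_eq_mul] at h1
  have h2 := sum_le_sum_of_subset_of_nonneg (filter_subset (fun v => D < f v) (range n))
    fun v _ _ => h0 v
  exact (lt_of_mul_lt_mul_right (h1.trans_le (h2.trans h)) hD).le

theorem blk (hNTREE : S_NTREE) {x y : α → ℝ} {th be : ℕ → ℝ} {A : ℕ → Finset α} {E : Finset α}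
    {τ : ℕ → ℕ} (hL : Lin x y th be A E) (hτ : Monotone τ) (v Z : ℕ) (D : ℝ) (F : Finset α)
    (hF : F ⊆ E) (h : ∀ s t, τ (v * Z) ≤ s → s ≤ τ ((v + 1) * Z) → τ (v * Z) ≤ t →
      t ≤ τ ((v + 1) * Z) → df A F s t ≤ D) :
    ∑ k ∈ range Z, ua A F (τ (v * Z + k)) (τ (v * Z + k + 1)) ≤
      sz A E (τ (v * Z)) (τ ((v + 1) * Z)) + 4 * Z * D := by
  rw [Nat.succ_mul] at h ⊢
  have := hNTREE α x y th be A F (fun k => τ (v * Z + k)) Z D (lin_sub hL hF) (mono_add hτ _) h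
  exact this.trans (add_le_add_left ((ua_mono hF le_rfl le_rfl).trans (ua_le_sz _ _ _ _)) _)

end NLOCc

theorem p_NLOC (hNMTV : S_NMTV) (hNTREE : S_NTREE) (hNFEW : S_NFEW) (hNHIER : S_NHIER) (hNLOCA : S_NLOCA) :
    S_NLOC := by
  intro g C g0 g1 C1 hA α x y th be A E τ q Z M r hL hτ hq hZ hM hR hr
  obtain ⟨n, hn⟩ : ∃ n, n = q * Z := ⟨_, rfl⟩
  rw [← hn] at hR ⊢
  obtain ⟨s, hs⟩ : ∃ s, s = sz A E (τ 0) (τ (n * Z)) := ⟨_, rfl⟩
  have s0 : 0 ≤ s := hs ▸ sz_nonneg _ _ _ _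
  have q0 : (0 : ℝ) < q := by exact_mod_cast hq
  have ht := mono_mul hτ Z
  let tv : ℕ → ℝ := fun v => ∑ j ∈ range (M + 1), (TV A E (τ (v * Z)) (τ ((v + 1) * Z)) +
    TV A (E.filter fun p => r p < j) (τ (v * Z)) (τ ((v + 1) * Z)))
  obtain ⟨D, hD⟩ : ∃ D : ℝ, D = 3 * (M + 1) * s / q := ⟨_, rfl⟩
  have D0 : 0 ≤ D := by rw [hD]; positivity
  have hqD : q * D = 3 * (M + 1) * s := by rw [hD]; field_simp
  have h1 : ∑ v ∈ range n, tv v ≤ q * D := by
    rw [sum_comm, hqD]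
    refine (sum_le_sum (g := fun _ => 3 * s) fun j _ => ?_).trans_eq (by simp; ring)
    rw [sum_add_distrib, TV_sum A E ht, TV_sum A _ ht]
    simp only [zero_mul]
    have a1 := TV_le_sz A E (τ 0) (τ (n * Z))
    have a2 := (hNMTV α A E (E.filter fun p => r p < j) _ _ _ _ (hτ (Nat.zero_le _)) (hR.mo j)
      (hR.mo j)).1 fun p => mem_filter
    linarith
  have h2 := NLOCc.few tv n q D
    (fun v => sum_nonneg fun j _ => add_nonneg (TV_nonneg _ _ _ _) (TV_nonneg _ _ _ _)) D0 h1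
  have h3 : ∀ v, ∃ j, v < n → ¬ D < tv v → ∀ s t, τ (v * Z) ≤ s → s ≤ τ ((v + 1) * Z) →
      τ (v * Z) ≤ t → t ≤ τ ((v + 1) * Z) → df A (E.filter fun p => r p < j) s t ≤ 3 * D ∧
        df A (E.filter fun p => j < r p) s t ≤ 3 * D := fun v => by
    by_cases h : v < n ∧ ¬ D < tv v
    · obtain ⟨j, hj⟩ := hNLOCA α A E (τ (v * Z)) (τ ((v + 1) * Z)) M r D
        (hR.times (hτ (Nat.zero_le _)) (ht h.1)) hr fun j hj =>
        (single_le_sum (f := fun j => TV A E (τ (v * Z)) (τ ((v + 1) * Z)) +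
          TV A (E.filter fun p => r p < j) (τ (v * Z)) (τ ((v + 1) * Z)))
          (fun j _ => add_nonneg (TV_nonneg _ _ _ _) (TV_nonneg _ _ _ _))
          (mem_range.2 (Nat.lt_succ_of_le hj))).trans (not_lt.1 h.2)
      exact ⟨j, fun _ _ => hj⟩
    · exact ⟨0, fun a b => absurd ⟨a, b⟩ h⟩
  choose j hj using h3
  refine ⟨fun i => j (i / Z), (uw_or (S₁ := fun i _ => D < tv (i / Z))
    (S₂ := fun i p => ¬ D < tv (i / Z) ∧ r p ≠ j (i / Z)) fun i _ p _ h => by tauto).trans ?_⟩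
  have b1 : uw A E τ (n * Z) (fun i _ => D < tv (i / Z)) ≤
      C * (Z : ℝ) ^ g * (2 * C * (q : ℝ) ^ g * s) := by
    refine (hNHIER g C hA α x y th be A E τ n Z (fun v => if D < tv v then E else ∅) _ hL hτ hZ
      (fun v => by split_ifs <;> simp) fun i _ p hp h => by rwa [if_pos h]).trans
      (mul_le_mul_of_nonneg_left ?_ (by positivity))
    have := hNFEW g C g0 g1 (by linarith) hA α x y th be A E _ n _ q hL ht (filter_subset _ _) h2
    simp only [zero_mul, ← hs] at this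
    refine le_trans (le_of_eq ?_) this
    rw [sum_filter]
    exact sum_congr rfl fun v _ => by split_ifs <;> simp [sz_empty]
  have b2 : uw A E τ (n * Z) (fun i p => ¬ D < tv (i / Z) ∧ r p ≠ j (i / Z)) ≤
      ∑ v ∈ range n, 2 * (sz A E (τ (v * Z)) (τ ((v + 1) * Z)) + 4 * Z * (3 * D)) := by
    rw [uw, sum_blocks]
    refine sum_le_sum fun v hv => ?_
    have e : ∀ k ∈ range Z, (v * Z + k) / Z = v := fun k hk => by
      rw [mul_comm, Nat.mul_add_div hZ, Nat.div_eq_of_lt (mem_range.1 hk), add_zero]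
    by_cases h : D < tv v
    · rw [sum_eq_zero fun k hk => ?_]
      · have := sz_nonneg A E (τ (v * Z)) (τ ((v + 1) * Z))
        positivity
      · refine le_antisymm ((ua_mono (E := ∅) (fun p hp => ?_) le_rfl le_rfl).trans_eq
          (ua_empty _ _ _)) (ua_nonneg _ _ _ _)
        exact absurd (by rw [e k hk]; exact h) (NLOCc.memf hp).2.1
    have c := hj v (mem_range.1 hv) h
    have c1 := NLOCc.blk hNTREE hL hτ v Z _ _ (filter_subset _ _)
      fun s t a1 a2 a3 a4 => (c s t a1 a2 a3 a4).1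
    have c2 := NLOCc.blk hNTREE hL hτ v Z _ _ (filter_subset _ _)
      fun s t a1 a2 a3 a4 => (c s t a1 a2 a3 a4).2
    refine le_trans ?_ ((add_le_add c1 c2).trans_eq (two_mul _).symm)
    rw [← sum_add_distrib]
    refine sum_le_sum fun k hk => ua_union fun p hp => ?_
    obtain ⟨p1, -, p2⟩ := NLOCc.memf hp
    rw [e k hk] at p2
    exact (lt_or_gt_of_ne p2).imp (fun a => mem_filter.2 ⟨p1, a⟩) fun a => mem_filter.2 ⟨p1, a⟩
  have b3 := hA α x y th be A E hL _ n ht (hn ▸ Nat.mul_pos hq hZ)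
  simp only [zero_mul, ← hs] at b3
  rw [← mul_sum, sum_add_distrib, sum_const, card_range, nsmul_eq_mul] at b2
  have e1 : (n : ℝ) = q * Z := by rw [hn, Nat.cast_mul]
  have e2 : ((q : ℝ) * Z) ^ g = (q : ℝ) ^ g * (Z : ℝ) ^ g :=
    mul_rpow (Nat.cast_nonneg _) (Nat.cast_nonneg _)
  rw [e1] at b2 b3
  rw [← hs]
  have e3 : (q : ℝ) * Z * (4 * Z * (3 * D)) = 36 * (M + 1) * Z ^ 2 * s := by
    linear_combination 12 * (Z : ℝ) ^ 2 * hqD
  have e4 : C * (Z : ℝ) ^ g * (2 * C * (q : ℝ) ^ g * s) = 2 * C ^ 2 * ((q : ℝ) * Z) ^ g * s := by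
    rw [e2]; ring
  have M1 : (1 : ℝ) ≤ M := by exact_mod_cast hM
  have u0 : 0 ≤ ((q : ℝ) * Z) ^ g * s := by positivity
  have u1 : 0 ≤ (Z : ℝ) ^ 2 * s := by positivity
  have u2 := mul_le_mul_of_nonneg_right (show C ≤ C ^ 2 by nlinarith) u0
  have u3 := mul_le_mul_of_nonneg_right (show 72 * ((M : ℝ) + 1) ≤ 150 * M by linarith) u1
  rw [e3] at b2
  rw [e4] at b1
  linarith

end Pool.Agent.P.MP_77a832_co.EL
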