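import Pool.Agent.P.MP_77a832_co.EL.BIface

/-! Step SM. -/

set_option autoImplicit false

namespace Pool.Agent.P.MP_77a832_co.EL

open Finset Real Pool.Agent.P.MP_bf60a1_an.RA
open scoped Classical

namespace SMc

variable {Ω α β : Type} [Fintype Ω] {D : PD Ω α β} {p : Par}

theorem tw_of (hD : D.Ok p) {l : ℕ} (hl : l + 2 ≤ p.T) {w : Ω × Ω} (hw : 0 < (D.Pt l).p w)
    (hs : D.sel l w.1) : D.tw l w.1 w.2 := by
  have h1 := hD.str.tmass l w.1 hl hs.1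
  have h2 := D.Q.cl_pos (D.Nd l) (hD.str.pos w.1)
  have h3 := hD.ok.ζ0
  have h4 : (0 : ℝ) < p.M := by exact_mod_cast hD.ok.M1
  exact D.Q.cond_mem (lt_of_lt_of_le (by positivity) h1) (D.Q.bind_pos hw).2

theorem sc_lt {u u' : ℕ} {ω z : Ω} (h : D.Sc p u ω z) (h' : D.Sc p u' ω z) : ¬ u < u' := by
  intro hu
  have h1 : ((1 : ℝ) / 2) ^ u' ≤ (1 / 2) ^ (u + 1) :=
    pow_le_pow_of_le_one (by norm_num) (by norm_num) hu
  have h2 := h.2
  have h3 := h'.1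
  rw [pow_succ] at h1 h2
  linarith

theorem sc_ex {ω z : Ω} (h0 : D.xx ω ≠ D.xx z) (h1 : 2 ^ p.a * |D.xx ω - D.xx z| ≤ 1) :
    ∃ u, D.Sc p u ω z := by
  have h2 : 0 < |D.xx ω - D.xx z| := abs_pos.2 (sub_ne_zero.2 h0)
  obtain ⟨u, h3, h4⟩ := exists_nat_pow_near_of_lt_one (by positivity) h1
    (show (0 : ℝ) < 1 / 2 by norm_num) (by norm_num)
  refine ⟨u, h4, ?_⟩
  rw [pow_succ] at h3 ⊢
  linarith

theorem sum_le (A : ℕ) (s t : Prop) (ω z : Ω) :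
    ∑ u ∈ range A, ind (s ∧ D.Sc p u ω z ∧ t) ≤ ind (s ∧ t) := by
  by_cases h : ∃ u ∈ range A, s ∧ D.Sc p u ω z ∧ t
  · obtain ⟨u, hu, h1, h2, h3⟩ := h
    rw [sum_eq_single_of_mem u hu fun u' _ e => ind_neg fun h' =>
      e (le_antisymm (not_lt.1 (sc_lt h2 h'.2.1)) (not_lt.1 (sc_lt h'.2.1 h2)))]
    exact ind_mono fun _ => ⟨h1, h3⟩
  · rw [sum_eq_zero fun u hu => ind_neg fun h' => h ⟨u, hu, h'⟩]
    exact ind_nonneg _

theorem mk {Ω' : Type} [Fintype Ω'] (P : FP Ω') (S : Finset ℕ) (s t : Ω' → Prop)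
    (ev : ℕ → Ω' → Prop) {c : ℝ} (hc : 0 < c) :
    (P.pr fun w => s w ∧ t w ∧ c < ((S.filter fun r => ev r w).card : ℝ)) ≤
      (∑ r ∈ S, P.pr fun w => s w ∧ t w ∧ ev r w) / c := by
  unfold FP.pr
  rw [← P.E_sum, ← P.E_div]
  refine P.E_mono fun w _ => ?_
  by_cases h : s w ∧ t w ∧ c < ((S.filter fun r => ev r w).card : ℝ)
  · rw [ind_pos h, one_le_div hc]
    refine h.2.2.le.trans (le_of_eq ?_)
    rw [card_filter, Nat.cast_sum]
    refine sum_congr rfl fun r _ => ?_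
    by_cases e : ev r w
    · rw [if_pos e, ind_pos ⟨h.1, h.2.1, e⟩, Nat.cast_one]
    · rw [if_neg e, ind_neg fun h' => e h'.2.2, Nat.cast_zero]
  · rw [ind_neg h]
    exact div_nonneg (sum_nonneg fun _ _ => ind_nonneg _) hc.le

theorem marg (A : ℕ) (ev : ℕ → Ω → Prop) : D.Sm p A (fun l _ w => ev l w.1) ≤
    ∑ i ∈ range p.N, D.Q.pr fun ω => D.sel (p.cap + i) ω ∧ ev (p.cap + i) ω := by
  refine sum_le_sum fun i _ => ?_
  rw [← (D.Q.bind_fst fun ω => D.Q.cond (D.tw (p.cap + i) ω)).pr]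
  unfold FP.pr
  rw [← FP.E_sum]
  exact FP.E_mono _ fun w _ => sum_le A _ _ _ _

end SMc

open SMc in
theorem p_SM (hCHN : S_CHN) :
    S_SM := by
  intro Ω α β _ D p hD A
  have hT := (hCHN _ _ _ D p hD).2.2.2.2.2.1
  have hl : ∀ i ∈ range p.N, p.cap + i + 2 ≤ p.T := fun i hi => by
    have := mem_range.1 hi
    omega
  refine ⟨fun ev ev' h => ?_, fun ev ev' => ?_, fun ev => marg A ev, fun hN hR ev => ?_,
    fun S ev c hc => ?_, fun n P ev c hc h => ?_⟩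
  · refine sum_le_sum fun i hi => sum_le_sum fun u hu => FP.pr_mono _ fun w hw h1 => ?_
    exact ⟨h1.1, h1.2.1, h _ u w (Nat.le_add_right _ _) (hl i hi) (mem_range.1 hu) h1.1
      (tw_of hD (hl i hi) hw h1.1) h1.2.1 h1.2.2⟩
  · unfold PD.Sm
    rw [← sum_add_distrib]
    refine sum_le_sum fun i _ => ?_
    rw [← sum_add_distrib]
    refine sum_le_sum fun u _ => le_trans (FP.pr_mono _ fun w _ h1 => ?_) (FP.pr_or_le _ _ _)
    exact h1.2.2.imp (fun h => ⟨h1.1, h1.2.1, h⟩) fun h => ⟨h1.1, h1.2.1, h⟩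
  · refine sum_le_sum fun i hi => ?_
    rw [← (D.Q.bind_fst fun ω => D.Q.cond (D.tw (p.cap + i) ω)).pr]
    refine le_trans (FP.pr_mono _ fun w hw h1 => ?_) (FP.pr_exists_le _ _ _)
    obtain ⟨u, hu⟩ := sc_ex (hD.str.cone _ w.1 w.2 w.1 (hl i hi) h1.1.1
      (tw_of hD (hl i hi) hw h1.1) rfl).1 (hN.x _ _)
    exact ⟨u, mem_range.2 (hR.u u _ _ hu), h1.1, hu, h1.2⟩
  · unfold PD.Sm
    rw [sum_comm (s := S), sum_div]
    refine sum_le_sum fun i _ => ?_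
    rw [sum_comm (s := S), sum_div]
    exact sum_le_sum fun u _ => mk _ S _ _ (fun r w => ev r (p.cap + i) u w) hc
  · have h1 : D.Sm p A (fun _ _ _ => True) ≤ p.N := by
      refine (marg A fun _ _ => True).trans ?_
      refine (sum_le_card_nsmul (range p.N) _ 1 fun i _ => D.Q.pr_le_one _).trans ?_
      simp
    refine le_trans ?_ (mul_le_mul_of_nonneg_left h1 hc)
    unfold PD.Sm
    rw [P.E_sum, mul_sum]
    refine sum_le_sum fun i _ => ?_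
    rw [P.E_sum, mul_sum]
    refine sum_le_sum fun u hu => ?_
    unfold FP.pr
    rw [P.E_comm, ← FP.E_mul_left]
    refine FP.E_mono _ fun w _ => ?_
    by_cases e : D.sel (p.cap + i) w.1 ∧ D.Sc p u w.1 w.2
    · rw [ind_pos ⟨e.1, e.2, trivial⟩, mul_one]
      exact (P.pr_mono fun j _ h' => h'.2.2).trans (h _ u w (mem_range.1 hu))
    · rw [ind_neg fun h' => e ⟨h'.1, h'.2.1⟩, mul_zero]
      exact (P.pr_eq_zero fun j _ h' => e ⟨h'.1, h'.2.1⟩).le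

end Pool.Agent.P.MP_77a832_co.EL
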