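import Pool.Agent.P.MP_77a832_co.EL.BIface

/-! Step YC. -/

set_option autoImplicit false

namespace Pool.Agent.P.MP_77a832_co.EL

open Finset Real Pool.Agent.P.MP_bf60a1_an.RA
open scoped Classical

namespace YCc

lemma gc_le (p : Par) {g : ℝ} {y y' : ℕ} (h : p.Gc g y) (h' : p.Gc g y') : y ≤ y' := by
  by_contra k
  have k1 : ((1 : ℝ) / 2) ^ (y + p.q) ≤ (1 / 2) ^ (y' + p.q + 1) :=
    pow_le_pow_of_le_one (by norm_num) (by norm_num) (by omega)
  rw [pow_succ] at k1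
  linarith [h.2, h'.1]

end YCc

theorem p_YC (hCHN : S_CHN) :
    S_YC := by
  intro Ω α β _ D p hD n hn ω
  have hs := hD.str
  obtain ⟨F, hF, hF'⟩ := hs.fV2 n hn ω (hs.pos ω)
  let f : ℕ × ℕ → ℕ := fun t => Classical.epsilon fun y =>
    ∃ v z, D.V2 n v = t.1 ∧ D.V2 n z = t.2 ∧ p.Gc (D.gap n v z) y
  refine ⟨(F ×ˢ F).image f, ?_, ?_⟩
  · have h1 : (((F ×ˢ F).image f).card : ℝ) ≤ F.card * F.card := by
      exact_mod_cast card_image_le.trans (card_product F F).le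
    refine h1.trans ((mul_le_mul hF hF (Nat.cast_nonneg _) (by positivity)).trans (le_of_eq ?_))
    rw [← mul_pow]
    norm_num
  · rintro y ⟨v, z, hv, hz, hg⟩
    refine mem_image.2 ⟨(D.V2 n v, D.V2 n z),
      mem_product.2 ⟨hF' v (hs.pos v) hv, hF' z (hs.pos z) hz⟩, ?_⟩
    obtain ⟨v', z', e1, e2, hg'⟩ := Classical.epsilon_spec (p := fun y => ∃ v' z',
      D.V2 n v' = D.V2 n v ∧ D.V2 n z' = D.V2 n z ∧ p.Gc (D.gap n v' z') y) ⟨y, v, z, rfl, rfl, hg⟩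
    have e : D.gap n v' z' = D.gap n v z := by
      simp only [PD.gap, hs.dlo2 n hn v' v (hs.pos _) (hs.pos _) e1,
        hs.dlo2 n hn z' z (hs.pos _) (hs.pos _) e2, hs.dhi2 n hn v' v (hs.pos _) (hs.pos _) e1,
        hs.dhi2 n hn z' z (hs.pos _) (hs.pos _) e2]
    rw [e] at hg'
    exact le_antisymm (YCc.gc_le p hg' hg) (YCc.gc_le p hg hg')

end Pool.Agent.P.MP_77a832_co.EL
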